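import Pool.Agent.DW.Defs

/-!
# Module B: Adams' formula for the product of two Legendre polynomials
-/

open Finset Real

namespace Pool.Agent.DW

noncomputable section

/-- `C(2k, k) / 4^k` -/
def cb (k : ℕ) : ℝ := (Nat.centralBinom k : ℝ) / 4 ^ k

/-- the square of the `3j`-symbol `(a b j; 0 0 0)` -/
def T (a b j : ℕ) : ℝ :=
  if a ≤ b + j ∧ b ≤ a + j ∧ j ≤ a + b ∧ Even (a + b + j) then
    cb ((b + j - a) / 2) * cb ((a + j - b) / 2) * cb ((a + b - j) / 2)
      / ((a + b + j + 1) * cb ((a + b + j) / 2))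
  else 0

/-- the coefficients of `Z a * Z b` -/
def kap (a b j : ℕ) : ℝ := (2 * a + 1) * (2 * b + 1) / (4 * π) * T a b j

/-- explicit upper bound for `kap` -/
def kb (a b j : ℕ) : ℝ :=
  if a ≤ b + j ∧ b ≤ a + j ∧ j ≤ a + b then
    (2 * a + 1) * (2 * b + 1) / √(((a : ℝ) + b + j + 1) * (b + j - a + 1) * (a + j - b + 1)
      * (a + b - j + 1))
  else 0

/-! ### the numbers `cb` -/

theorem cb_zero : cb 0 = 1 := by simp [cb]

theorem cb_pos (k : ℕ) : 0 < cb k := by
  unfold cb
  have : (0 : ℝ) < Nat.centralBinom k := by exact_mod_cast Nat.centralBinom_pos k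
  positivity

theorem cb_succ (k : ℕ) : cb (k + 1) = cb k * (2 * k + 1) / (2 * k + 2) := by
  have h := Nat.succ_mul_centralBinom_succ k
  have h4 : ((k : ℝ) + 1) * (Nat.centralBinom (k + 1) : ℝ) =
      2 * (2 * k + 1) * Nat.centralBinom k := by exact_mod_cast h
  have hk : (0 : ℝ) < (k : ℝ) + 1 := by positivity
  unfold cb
  rw [pow_succ, div_mul_eq_mul_div, div_div, div_eq_div_iff (by positivity) (by positivity)]
  linear_combination (4 ^ k * 2) * h4

theorem cb_upper (k : ℕ) : cb k ^ 2 * (2 * k + 1) ≤ 1 := by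
  induction k with
  | zero => simp [cb_zero]
  | succ k ih =>
    have hk : (0 : ℝ) ≤ k := k.cast_nonneg
    have h1 : cb (k + 1) ^ 2 * (2 * ((k + 1 : ℕ) : ℝ) + 1) =
        (cb k ^ 2 * (2 * k + 1)) * ((2 * k + 1) * (2 * k + 3) / (2 * k + 2) ^ 2) := by
      rw [cb_succ]
      push_cast
      field_simp
      ring
    rw [h1]
    have h2 : (2 * (k : ℝ) + 1) * (2 * k + 3) / (2 * k + 2) ^ 2 ≤ 1 := by
      rw [div_le_one (by positivity)]
      nlinarith
    have h3 : (0 : ℝ) ≤ (2 * (k : ℝ) + 1) * (2 * k + 3) / (2 * k + 2) ^ 2 := by positivity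
    have h4 : 0 ≤ cb k ^ 2 * (2 * (k : ℝ) + 1) := by positivity
    calc (cb k ^ 2 * (2 * k + 1)) * ((2 * k + 1) * (2 * k + 3) / (2 * k + 2) ^ 2)
        ≤ 1 * 1 := by gcongr
      _ = 1 := by norm_num

theorem cb_lower (k : ℕ) : 1 ≤ cb k ^ 2 * (4 * k + 1) := by
  induction k with
  | zero => simp [cb_zero]
  | succ k ih =>
    have hk : (0 : ℝ) ≤ k := k.cast_nonneg
    have h1 : cb (k + 1) ^ 2 * (4 * ((k + 1 : ℕ) : ℝ) + 1) =
        (cb k ^ 2 * (4 * k + 1)) * ((2 * k + 1) ^ 2 * (4 * k + 5) / ((2 * k + 2) ^ 2 * (4 * k + 1))) := by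
      rw [cb_succ]
      push_cast
      field_simp
      ring
    rw [h1]
    have h2 : 1 ≤ (2 * (k : ℝ) + 1) ^ 2 * (4 * k + 5) / ((2 * k + 2) ^ 2 * (4 * k + 1)) := by
      rw [one_le_div (by positivity)]
      nlinarith
    calc (1 : ℝ) = 1 * 1 := by norm_num
      _ ≤ _ := by gcongr

/-! ### the numbers `T` -/

theorem T_eq (x y z : ℕ) : T (y + z) (x + z) (x + y) =
    cb x * cb y * cb z / ((2 * ((x : ℝ) + y + z) + 1) * cb (x + y + z)) := by
  unfold T
  rw [if_pos ⟨by omega, by omega, by omega, ⟨x + y + z, by ring⟩⟩]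
  have e1 : (x + z + (x + y) - (y + z)) / 2 = x := by omega
  have e2 : (y + z + (x + y) - (x + z)) / 2 = y := by omega
  have e3 : (y + z + (x + z) - (x + y)) / 2 = z := by omega
  have e4 : (y + z + (x + z) + (x + y)) / 2 = x + y + z := by omega
  rw [e1, e2, e3, e4]
  push_cast
  congr 2
  ring

theorem T_zero {a b j : ℕ} (h : ¬ (a ≤ b + j ∧ b ≤ a + j ∧ j ≤ a + b ∧ Even (a + b + j))) :
    T a b j = 0 := by
  unfold T
  rw [if_neg h]

theorem T_nonneg (a b j : ℕ) : 0 ≤ T a b j := by
  unfold T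
  split_ifs
  · have := fun k => (cb_pos k).le
    have h1 := this ((b + j - a) / 2)
    have h2 := this ((a + j - b) / 2)
    have h3 := this ((a + b - j) / 2)
    have h4 := this ((a + b + j) / 2)
    positivity
  · exact le_rfl

theorem kap_nonneg (a b j : ℕ) : 0 ≤ kap a b j := by
  unfold kap
  have := T_nonneg a b j
  positivity

theorem kb_nonneg (a b j : ℕ) : 0 ≤ kb a b j := by
  unfold kb
  split_ifs
  · positivity
  · exact le_rfl

theorem kap_le_kb (a b j : ℕ) : kap a b j ≤ kb a b j := by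
  by_cases h : a ≤ b + j ∧ b ≤ a + j ∧ j ≤ a + b ∧ Even (a + b + j)
  swap
  · unfold kap
    rw [T_zero h, mul_zero]
    exact kb_nonneg a b j
  obtain ⟨h1, h2, h3, G, hG⟩ := h
  obtain ⟨x, y, z, rfl, rfl, rfl⟩ : ∃ x y z, a = y + z ∧ b = x + z ∧ j = x + y :=
    ⟨G - a, G - b, G - j, by omega, by omega, by omega⟩
  unfold kap kb
  rw [if_pos ⟨h1, h2, h3⟩, T_eq]
  push_cast
  have e : ((y : ℝ) + z + (x + z) + (x + y) + 1) * (x + z + (x + y) - (y + z) + 1) *
      (y + z + (x + y) - (x + z) + 1) * (y + z + (x + z) - (x + y) + 1) =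
      (2 * (x + y + z) + 1) * (2 * x + 1) * (2 * y + 1) * (2 * z + 1) := by ring
  rw [e]
  set g : ℝ := 2 * ((x : ℝ) + y + z) + 1 with hg
  have hg0 : 0 < g := by rw [hg]; positivity
  have hcx := cb_pos x
  have hcy := cb_pos y
  have hcz := cb_pos z
  have hcG := cb_pos (x + y + z)
  -- the square of `T` times the product
  have key : (cb x * cb y * cb z / (g * cb (x + y + z))) ^ 2 *
      (g * (2 * x + 1) * (2 * y + 1) * (2 * z + 1)) ≤ 2 := by
    have e1 : (cb x * cb y * cb z / (g * cb (x + y + z))) ^ 2 *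
        (g * (2 * x + 1) * (2 * y + 1) * (2 * z + 1)) =
        (cb x ^ 2 * (2 * x + 1)) * (cb y ^ 2 * (2 * y + 1)) * (cb z ^ 2 * (2 * z + 1)) *
          (1 / (g * cb (x + y + z) ^ 2)) := by
      field_simp
    rw [e1]
    have hx := cb_upper x
    have hy := cb_upper y
    have hz := cb_upper z
    have hG' : 1 / (g * cb (x + y + z) ^ 2) ≤ 2 := by
      rw [div_le_iff₀ (by positivity)]
      have h5 := cb_lower (x + y + z)
      push_cast at h5
      have h6 : (4 * ((x : ℝ) + y + z) + 1) ≤ 2 * g := by rw [hg]; linarith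
      calc (1 : ℝ) ≤ cb (x + y + z) ^ 2 * (4 * ((x : ℝ) + y + z) + 1) := h5
        _ ≤ cb (x + y + z) ^ 2 * (2 * g) := by gcongr
        _ = _ := by ring
    have p1 : 0 ≤ cb x ^ 2 * (2 * (x : ℝ) + 1) := by positivity
    have p2 : 0 ≤ cb y ^ 2 * (2 * (y : ℝ) + 1) := by positivity
    have p3 : 0 ≤ cb z ^ 2 * (2 * (z : ℝ) + 1) := by positivity
    calc (cb x ^ 2 * (2 * x + 1)) * (cb y ^ 2 * (2 * y + 1)) * (cb z ^ 2 * (2 * z + 1)) *
          (1 / (g * cb (x + y + z) ^ 2)) ≤ 1 * 1 * 1 * 2 := by gcongr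
      _ = 2 := by norm_num
  set t := cb x * cb y * cb z / (g * cb (x + y + z)) with ht
  set Q := g * (2 * (x : ℝ) + 1) * (2 * y + 1) * (2 * z + 1) with hQ
  have ht0 : 0 ≤ t := by rw [ht]; positivity
  have hQ0 : 0 < Q := by rw [hQ]; positivity
  have hsq : t * √Q ≤ 4 * π := by
    have h7 : (t * √Q) ^ 2 ≤ (4 * π) ^ 2 := by
      rw [mul_pow, Real.sq_sqrt hQ0.le]
      have := Real.pi_gt_three
      nlinarith
    exact le_of_sq_le_sq h7 (by positivity)
  have hsQ : 0 < √Q := Real.sqrt_pos.2 hQ0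
  have h8 : t / (4 * π) ≤ 1 / √Q := by
    rw [div_le_div_iff₀ (by positivity) hsQ]
    linarith
  calc (2 * ((y : ℝ) + z) + 1) * (2 * (x + z) + 1) / (4 * π) * t
      = (2 * ((y : ℝ) + z) + 1) * (2 * (x + z) + 1) * (t / (4 * π)) := by ring
    _ ≤ (2 * ((y : ℝ) + z) + 1) * (2 * (x + z) + 1) * (1 / √Q) := by gcongr
    _ = _ := by ring

/-- the recursion for the coefficients -/
theorem T_rec (a b j : ℕ) :
    ((b : ℝ) + 1) * (2 * j + 1) * T a (b + 1) j + b * (2 * j + 1) * T a (b - 1) j =
      (2 * b + 1) * (j * T a b (j - 1) + (j + 1) * T a b (j + 1)) := by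
  have hb : ∀ t : ℝ, (b ≠ 0 → t = 0) → (b : ℝ) * (2 * j + 1) * t = 0 := by
    intro t ht
    by_cases h : b = 0
    · rw [h]; simp
    · rw [ht h]; ring
  have hj : ∀ t : ℝ, (j ≠ 0 → t = 0) → (j : ℝ) * t = 0 := by
    intro t ht
    by_cases h : j = 0
    · rw [h]; simp
    · rw [ht h]; ring
  by_cases hpar : Even (a + b + 1 + j)
  swap
  · -- parity
    rw [Nat.not_even_iff_odd] at hpar
    obtain ⟨G, hG⟩ := hpar
    have h1 : T a (b + 1) j = 0 := T_zero fun h => by
      obtain ⟨k, hk⟩ := h.2.2.2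
      omega
    have h4 : T a b (j + 1) = 0 := T_zero fun h => by
      obtain ⟨k, hk⟩ := h.2.2.2
      omega
    rw [h1, h4, hb (T a (b - 1) j) (fun hb0 => T_zero fun h => by
        obtain ⟨k, hk⟩ := h.2.2.2
        omega),
      hj (T a b (j - 1)) (fun hj0 => T_zero fun h => by
        obtain ⟨k, hk⟩ := h.2.2.2
        omega)]
    ring
  obtain ⟨G, hG⟩ := hpar
  by_cases hA : b + 1 ≤ a + j ∧ a ≤ b + 1 + j ∧ j ≤ a + b + 1
  · obtain ⟨x, y, z, rfl, hxz, rfl⟩ : ∃ x y z, a = y + z ∧ b + 1 = x + z ∧ j = x + y :=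
      ⟨G - a, G - b - 1, G - j, by omega, by omega, by omega⟩
    have hbr : (b : ℝ) = x + z - 1 := by
      have : (b : ℝ) + 1 = x + z := by exact_mod_cast hxz
      linarith
    have hT1 : T (y + z) (b + 1) (x + y) =
        cb x * cb y * cb z / ((2 * ((x : ℝ) + y + z) + 1) * cb (x + y + z)) := by
      rw [hxz, T_eq]
    rw [hT1]
    rcases Nat.eq_zero_or_pos x with hx | hx
    · -- `x = 0`
      subst hx
      obtain ⟨z', rfl⟩ : ∃ z', z = z' + 1 := ⟨z - 1, by omega⟩
      have hbz : b = z' := by omega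
      subst hbz
      rw [hb (T (y + (b + 1)) (b - 1) (0 + y)) (fun hb0 => T_zero fun h => by omega),
        hj (T (y + (b + 1)) b (0 + y - 1)) (fun hj0 => T_zero fun h => by omega)]
      have hT4 : T (y + (b + 1)) b (0 + y + 1) =
          cb 0 * cb (y + 1) * cb b / ((2 * (((0 : ℕ) : ℝ) + ((y + 1 : ℕ) : ℝ) + b) + 1) *
            cb (0 + (y + 1) + b)) := by
        rw [← T_eq 0 (y + 1) b]
        congr 1 <;> omega
      rw [hT4]
      have e1 : 0 + y + (b + 1) = y + b + 1 := by omega
      have e2 : 0 + (y + 1) + b = y + b + 1 := by omega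
      rw [e1, e2, cb_succ y, cb_succ b, cb_zero]
      have := cb_pos (y + b + 1)
      push_cast
      field_simp
      ring
    · obtain ⟨x', rfl⟩ : ∃ x', x = x' + 1 := ⟨x - 1, by omega⟩
      rcases Nat.eq_zero_or_pos z with hz | hz
      · -- `z = 0`
        subst hz
        have hbx : b = x' := by omega
        subst hbx
        rw [hb (T (y + 0) (b - 1) (b + 1 + y)) (fun hb0 => T_zero fun h => by omega)]
        have hT4 : T (y + 0) b (b + 1 + y + 1) = 0 := T_zero fun h => by omega
        have hT3 : T (y + 0) b (b + 1 + y - 1) =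
            cb b * cb y * cb 0 / ((2 * ((b : ℝ) + y + ((0 : ℕ) : ℝ)) + 1) * cb (b + y + 0)) := by
          rw [← T_eq b y 0]
          congr 1 <;> omega
        rw [hT4, hT3]
        have e1 : b + 1 + y + 0 = (b + y) + 1 := by omega
        have e2 : b + y + 0 = b + y := by omega
        rw [e1, e2, cb_succ b, cb_succ (b + y), cb_zero]
        have := cb_pos (b + y)
        push_cast
        field_simp
        ring
      · obtain ⟨z', rfl⟩ : ∃ z', z = z' + 1 := ⟨z - 1, by omega⟩
        have hbxz : b = x' + z' + 1 := by omega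
        subst hbxz
        have hT2 : T (y + (z' + 1)) (x' + z' + 1 - 1) (x' + 1 + y) =
            cb x' * cb (y + 1) * cb z' / ((2 * ((x' : ℝ) + ((y + 1 : ℕ) : ℝ) + z') + 1) *
              cb (x' + (y + 1) + z')) := by
          rw [← T_eq x' (y + 1) z']
          congr 1 <;> omega
        have hT3 : T (y + (z' + 1)) (x' + z' + 1) (x' + 1 + y - 1) =
            cb x' * cb y * cb (z' + 1) / ((2 * ((x' : ℝ) + y + ((z' + 1 : ℕ) : ℝ)) + 1) *
              cb (x' + y + (z' + 1))) := by
          rw [← T_eq x' y (z' + 1)]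
          congr 1 <;> omega
        have hT4 : T (y + (z' + 1)) (x' + z' + 1) (x' + 1 + y + 1) =
            cb (x' + 1) * cb (y + 1) * cb z' / ((2 * (((x' + 1 : ℕ) : ℝ) + ((y + 1 : ℕ) : ℝ) + z')
              + 1) * cb (x' + 1 + (y + 1) + z')) := by
          rw [← T_eq (x' + 1) (y + 1) z']
          congr 1 <;> omega
        rw [hT2, hT3, hT4]
        have e1 : x' + 1 + y + (z' + 1) = (x' + y + z' + 1) + 1 := by omega
        have e2 : x' + (y + 1) + z' = x' + y + z' + 1 := by omega
        have e3 : x' + y + (z' + 1) = x' + y + z' + 1 := by omega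
        have e4 : x' + 1 + (y + 1) + z' = (x' + y + z' + 1) + 1 := by omega
        rw [e1, e2, e3, e4, cb_succ x', cb_succ y, cb_succ z', cb_succ (x' + y + z' + 1)]
        have := cb_pos (x' + y + z' + 1)
        push_cast
        field_simp
        ring
  · by_cases hB : a + j + 1 = b
    · -- `y = -1`
      subst hB
      have hT1 : T a (a + j + 1 + 1) j = 0 := T_zero fun h => by omega
      have hT2 : T a (a + j + 1 - 1) j =
          cb j * cb 0 * cb a / ((2 * ((j : ℝ) + ((0 : ℕ) : ℝ) + a) + 1) * cb (j + 0 + a)) := by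
        rw [← T_eq j 0 a]
        congr 1 <;> omega
      have hT4 : T a (a + j + 1) (j + 1) =
          cb (j + 1) * cb 0 * cb a / ((2 * (((j + 1 : ℕ) : ℝ) + ((0 : ℕ) : ℝ) + a) + 1) *
            cb (j + 1 + 0 + a)) := by
        rw [← T_eq (j + 1) 0 a]
        congr 1 <;> omega
      rw [hT1, hT2, hT4, hj (T a (a + j + 1) (j - 1)) (fun hj0 => T_zero fun h => by omega)]
      have e1 : j + 1 + 0 + a = (j + a) + 1 := by omega
      have e2 : j + 0 + a = j + a := by omega
      rw [e1, e2, cb_succ j, cb_succ (j + a), cb_zero]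
      have := cb_pos (j + a)
      push_cast
      field_simp
      ring
    · have h1 : T a (b + 1) j = 0 := T_zero fun h => by omega
      have h4 : T a b (j + 1) = 0 := T_zero fun h => by omega
      rw [h1, h4, hb (T a (b - 1) j) (fun hb0 => T_zero fun h => by omega),
        hj (T a b (j - 1)) (fun hj0 => T_zero fun h => by omega)]
      ring

/-- three term recursion of the Legendre polynomials -/
theorem leg_rec (b : ℕ) (s : ℝ) :
    ((b : ℝ) + 1) * leg (b + 1) s = (2 * b + 1) * s * leg b s - b * leg (b - 1) s := by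
  match b with
  | 0 => simp [leg]
  | b + 1 =>
    have h : leg (b + 2) s = ((2 * b + 3) * s * leg (b + 1) s - (b + 1) * leg b s) / (b + 2) := by
      simp [leg]
    have hb : (0 : ℝ) < (b : ℝ) + 2 := by positivity
    have e : b + 1 - 1 = b := by omega
    rw [e, show b + 1 + 1 = b + 2 from rfl, h]
    push_cast
    field_simp
    ring

/-- re-indexing -/
theorem reindex (M : ℕ) (t L : ℕ → ℝ) (ht : ∀ j, M ≤ j → t j = 0) :
    ∑ j ∈ range (M + 1), ((j : ℝ) * t (j - 1) + (j + 1) * t (j + 1)) * L j =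
      ∑ j ∈ range (M + 1), t j * ((j + 1) * L (j + 1) + j * L (j - 1)) := by
  have h1 : ∑ j ∈ range (M + 1), (j : ℝ) * t (j - 1) * L j =
      ∑ j ∈ range (M + 1), t j * ((j + 1) * L (j + 1)) := by
    rw [Finset.sum_range_succ', Finset.sum_range_succ _ M]
    rw [ht M le_rfl]
    simp only [Nat.cast_zero, zero_mul, add_zero]
    refine Finset.sum_congr rfl fun j _ => ?_
    rw [Nat.add_sub_cancel]
    push_cast
    ring
  have h2 : ∑ j ∈ range (M + 1), ((j : ℝ) + 1) * t (j + 1) * L j =
      ∑ j ∈ range (M + 1), t j * (j * L (j - 1)) := by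
    have h3 := Finset.sum_range_succ' (fun j => t j * ((j : ℝ) * L (j - 1))) (M + 1)
    have h4 := Finset.sum_range_succ (fun j => t j * ((j : ℝ) * L (j - 1))) (M + 1)
    rw [h4] at h3
    simp only [ht (M + 1) (by omega), Nat.cast_zero, zero_mul, mul_zero, add_zero] at h3
    rw [h3]
    refine Finset.sum_congr rfl fun j _ => ?_
    rw [Nat.add_sub_cancel]
    push_cast
    ring
  calc ∑ j ∈ range (M + 1), ((j : ℝ) * t (j - 1) + (j + 1) * t (j + 1)) * L j
      = ∑ j ∈ range (M + 1), (j : ℝ) * t (j - 1) * L j +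
        ∑ j ∈ range (M + 1), ((j : ℝ) + 1) * t (j + 1) * L j := by
        rw [← Finset.sum_add_distrib]
        exact Finset.sum_congr rfl fun j _ => by ring
    _ = _ := by
        rw [h1, h2, ← Finset.sum_add_distrib]
        exact Finset.sum_congr rfl fun j _ => by ring

/-- the sum does not depend on the range -/
theorem sum_T_range (a b M : ℕ) (hM : a + b + 1 ≤ M) (s : ℝ) :
    ∑ j ∈ range M, (2 * j + 1) * T a b j * leg j s =
      ∑ j ∈ range (a + b + 1), (2 * j + 1) * T a b j * leg j s := by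
  symm
  apply Finset.sum_subset
  · intro j hj
    rw [Finset.mem_range] at hj ⊢
    omega
  · intro j _ hj
    rw [Finset.mem_range] at hj
    rw [T_zero fun h => by omega]
    ring

/-- Adams' formula -/
theorem leg_mul (a b : ℕ) (s : ℝ) :
    leg a s * leg b s = ∑ j ∈ range (a + b + 1), (2 * j + 1) * T a b j * leg j s := by
  induction b using Nat.strong_induction_on with
  | _ b ih =>
    match b with
    | 0 =>
      rw [Finset.sum_eq_single_of_mem a (by simp)]
      · have h1 : T a 0 a = cb a * cb 0 * cb 0 / ((2 * ((a : ℝ) + ((0 : ℕ) : ℝ) + ((0 : ℕ) : ℝ)) + 1) *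
            cb (a + 0 + 0)) := by
          unfold T
          rw [if_pos ⟨by omega, by omega, by omega, ⟨a, by ring⟩⟩]
          have e1 : (0 + a - a) / 2 = 0 := by omega
          have e2 : (a + a - 0) / 2 = a := by omega
          have e3 : (a + 0 - a) / 2 = 0 := by omega
          have e4 : (a + 0 + a) / 2 = a := by omega
          rw [e1, e2, e3, e4]
          push_cast
          simp only [Nat.add_zero]
          congr 1
          · ring
          · ring
        rw [h1, cb_zero]
        have := cb_pos a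
        simp only [Nat.add_zero, Nat.cast_zero, add_zero, leg]
        field_simp
      · intro j _ hj
        rw [T_zero fun h => by omega]
        ring
    | b + 1 =>
      have ih0 := ih b (by omega)
      have hb1 : (0 : ℝ) < (b : ℝ) + 1 := by positivity
      -- the previous terms on a common range
      have hS0 : leg a s * leg b s =
          ∑ j ∈ range (a + b + 1 + 1), (2 * j + 1) * T a b j * leg j s := by
        rw [ih0, sum_T_range a b (a + b + 1 + 1) (by omega)]
      have hS1 : (b : ℝ) * (leg a s * leg (b - 1) s) =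
          ∑ j ∈ range (a + b + 1 + 1), (b : ℝ) * ((2 * j + 1) * T a (b - 1) j * leg j s) := by
        by_cases hb0 : b = 0
        · rw [hb0]
          simp
        · rw [ih (b - 1) (by omega), ← Finset.mul_sum,
            sum_T_range a (b - 1) (a + b + 1 + 1) (by omega)]
      have hleg := leg_rec b s
      apply mul_left_cancel₀ hb1.ne'
      calc ((b : ℝ) + 1) * (leg a s * leg (b + 1) s)
          = leg a s * (((b : ℝ) + 1) * leg (b + 1) s) := by ring
        _ = (2 * b + 1) * (s * (leg a s * leg b s)) - (b : ℝ) * (leg a s * leg (b - 1) s) := by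
          rw [hleg]
          ring
        _ = (2 * b + 1) * ∑ j ∈ range (a + b + 1 + 1), T a b j * ((j + 1) * leg (j + 1) s +
              j * leg (j - 1) s) -
            ∑ j ∈ range (a + b + 1 + 1), (b : ℝ) * ((2 * j + 1) * T a (b - 1) j * leg j s) := by
          rw [hS0, hS1, Finset.mul_sum (range (a + b + 1 + 1)) _ s]
          congr 2
          refine Finset.sum_congr rfl fun j _ => ?_
          have := leg_rec j s
          linear_combination (-T a b j) * this
        _ = (2 * b + 1) * ∑ j ∈ range (a + b + 1 + 1), ((j : ℝ) * T a b (j - 1) +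
              (j + 1) * T a b (j + 1)) * leg j s -
            ∑ j ∈ range (a + b + 1 + 1), (b : ℝ) * ((2 * j + 1) * T a (b - 1) j * leg j s) := by
          rw [reindex (a + b + 1) (fun j => T a b j) (fun j => leg j s)
            (fun j hj => T_zero fun h => by omega)]
        _ = ∑ j ∈ range (a + b + 1 + 1), ((b : ℝ) + 1) * ((2 * j + 1) * T a (b + 1) j * leg j s) := by
          rw [Finset.mul_sum, ← Finset.sum_sub_distrib]
          refine Finset.sum_congr rfl fun j _ => ?_
          have := T_rec a b j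
          linear_combination (-leg j s) * this
        _ = _ := by
          rw [← Finset.mul_sum]
          rfl

theorem Z_mul (a b : ℕ) (s : ℝ) :
    Z a s * Z b s = ∑ j ∈ range (a + b + 1), kap a b j * Z j s := by
  have h := leg_mul a b s
  unfold Z kap
  calc (2 * a + 1) / (4 * π) * leg a s * ((2 * b + 1) / (4 * π) * leg b s)
      = (2 * a + 1) / (4 * π) * ((2 * b + 1) / (4 * π)) * (leg a s * leg b s) := by ring
    _ = _ := by
      rw [h, Finset.mul_sum]
      refine Finset.sum_congr rfl fun j _ => ?_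
      ring

end

end Pool.Agent.DW
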