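import Pool.Agent.DW.Count

/-!
# Module D2: sums of the Adams coefficients over windows
-/

open Finset Real

namespace Pool.Agent.DW

noncomputable section

/-! ### powers of `N` -/

theorem sm_q {N : ℕ} (hN : 64 ≤ N) : ∃ q : ℝ, 2 ≤ q ∧ q ^ 4 = N ∧ √(N : ℝ) = q ^ 2 ∧
    (N : ℝ) ^ (1 / 4 : ℝ) = q ∧ (N : ℝ) ^ (3 / 4 : ℝ) = q ^ 3 := by
  have hN0 : (0 : ℝ) < N := by positivity
  refine ⟨(N : ℝ) ^ (1 / 4 : ℝ), ?_, ?_, ?_, rfl, ?_⟩
  · have h16 : (16 : ℝ) ≤ N := by exact_mod_cast (by omega : 16 ≤ N)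
    calc (2 : ℝ) = (16 : ℝ) ^ (1 / 4 : ℝ) := by
          rw [show (16 : ℝ) = 2 ^ (4 : ℝ) by norm_num, ← Real.rpow_mul (by norm_num)]
          norm_num
      _ ≤ _ := Real.rpow_le_rpow (by norm_num) h16 (by norm_num)
  · rw [← Real.rpow_natCast, ← Real.rpow_mul hN0.le]; norm_num
  · rw [← Real.rpow_natCast, ← Real.rpow_mul hN0.le, Real.sqrt_eq_rpow]; norm_num
  · rw [← Real.rpow_natCast, ← Real.rpow_mul hN0.le]; norm_num

/-! ### a summation lemma -/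

theorem sm_log2 (M : ℕ) : (Nat.log 2 (M + 1) : ℝ) ≤ 2 * Real.log (M + 1) := by
  have h1 : (Nat.log 2 (M + 1) : ℝ) ≤ Real.logb 2 (M + 1 : ℝ) := by
    have := Real.natLog_le_logb (M + 1) 2
    push_cast at this
    exact this
  have h2 : Real.logb 2 (M + 1 : ℝ) = Real.log (M + 1) / Real.log 2 := rfl
  have h3 : (1 / 2 : ℝ) ≤ Real.log 2 := by
    have := Real.log_two_gt_d9; linarith
  have h4 : 0 ≤ Real.log (M + 1 : ℝ) := Real.log_nonneg (by
    have : (0 : ℝ) ≤ M := Nat.cast_nonneg M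
    linarith)
  rw [h2] at h1
  refine h1.trans ?_
  rw [div_le_iff₀ (by linarith)]
  nlinarith

theorem sm_sum {ι : Type*} [DecidableEq ι] (P : Finset ι) (e : ι → ℕ) (K : ℝ) (M : ℕ)
    (hM : ∀ p ∈ P, e p ≤ M)
    (hK : ∀ E : ℕ, 1 ≤ E → ((P.filter (fun p => e p < E)).card : ℝ) ≤ K * √E) (hK0 : 0 ≤ K) :
    ∑ p ∈ P, 1 / √((e p : ℝ) + 1) ≤ 4 * K * (1 + Real.log (M + 1)) := by
  have hmaps : ∀ p ∈ P, Nat.log 2 (e p + 1) ∈ range (Nat.log 2 (M + 1) + 1) := by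
    intro p hp
    rw [mem_range]
    have := Nat.log_mono_right (b := 2) (Nat.succ_le_succ (hM p hp))
    simp only [Nat.succ_eq_add_one] at this
    omega
  rw [← Finset.sum_fiberwise_of_maps_to hmaps]
  have hterm : ∀ i ∈ range (Nat.log 2 (M + 1) + 1),
      ∑ p ∈ P.filter (fun p => Nat.log 2 (e p + 1) = i), 1 / √((e p : ℝ) + 1) ≤ 2 * K := by
    intro i _
    have h1 : ∀ p ∈ P.filter (fun p => Nat.log 2 (e p + 1) = i),
        1 / √((e p : ℝ) + 1) ≤ 1 / √((2 : ℝ) ^ i) := by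
      intro p hp
      rw [mem_filter] at hp
      have h2 : 2 ^ i ≤ e p + 1 := by
        rw [← hp.2]; exact Nat.pow_log_le_self 2 (by omega)
      have h3 : (2 : ℝ) ^ i ≤ (e p : ℝ) + 1 := by exact_mod_cast h2
      exact one_div_le_one_div_of_le (by positivity) (Real.sqrt_le_sqrt h3)
    refine (Finset.sum_le_card_nsmul _ _ _ h1).trans ?_
    rw [nsmul_eq_mul]
    have h2 : ((P.filter (fun p => Nat.log 2 (e p + 1) = i)).card : ℝ) ≤ K * √((2 ^ (i + 1) : ℕ) : ℝ) := by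
      refine le_trans ?_ (hK (2 ^ (i + 1)) (Nat.one_le_two_pow))
      have : P.filter (fun p => Nat.log 2 (e p + 1) = i) ⊆ P.filter (fun p => e p < 2 ^ (i + 1)) := by
        intro p hp
        rw [mem_filter] at hp ⊢
        refine ⟨hp.1, ?_⟩
        have := Nat.lt_pow_succ_log_self (b := 2) (by norm_num) (e p + 1)
        rw [hp.2] at this
        simp only [Nat.succ_eq_add_one] at this
        omega
      exact_mod_cast card_le_card this
    have h3 : √((2 ^ (i + 1) : ℕ) : ℝ) = √2 * √((2 : ℝ) ^ i) := by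
      push_cast
      rw [pow_succ, mul_comm, Real.sqrt_mul (by norm_num)]
    rw [h3] at h2
    have h4 : 0 < √((2 : ℝ) ^ i) := Real.sqrt_pos.2 (by positivity)
    have h5 : √(2 : ℝ) ≤ 2 := by
      rw [Real.sqrt_le_left (by norm_num)]; norm_num
    rw [mul_one_div, div_le_iff₀ h4]
    calc _ ≤ _ := h2
      _ = (K * √((2 : ℝ) ^ i)) * √2 := by ring
      _ ≤ (K * √((2 : ℝ) ^ i)) * 2 := by gcongr
      _ = _ := by ring
  refine (Finset.sum_le_sum hterm).trans ?_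
  rw [Finset.sum_const, card_range, nsmul_eq_mul]
  push_cast
  have := sm_log2 M
  have h6 : 0 ≤ Real.log (M + 1 : ℝ) := Real.log_nonneg (by
    have : (0 : ℝ) ≤ M := Nat.cast_nonneg M
    linarith)
  nlinarith

/-! ### monotonicity of `Lam` -/

theorem sm_Lam_succ {n : ℕ} (hn : 1 ≤ n) : Lam n + 1 ≤ Lam (n + 1) := by
  have hx : (1 : ℝ) ≤ n := by exact_mod_cast hn
  unfold Lam
  push_cast
  set x : ℝ := (n : ℝ)
  have h0 : 0 ≤ x * (x - 1) * (x + 2) := by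
    have : 0 ≤ x - 1 := by linarith
    positivity
  have hL : √(x * (x - 1) * (x + 2)) ≤ x ^ 2 + x := by
    rw [Real.sqrt_le_left (by positivity)]
    nlinarith [sq_nonneg (x ^ 2), sq_nonneg x, mul_pos (by linarith : 0 < x) (by linarith : 0 < x)]
  have hsq := Real.sq_sqrt h0
  apply Real.le_sqrt_of_sq_le
  nlinarith

theorem sm_Lam_mono {m n : ℕ} (hm : 1 ≤ m) (h : m ≤ n) : Lam m ≤ Lam n := by
  induction n, h using Nat.le_induction with
  | base => exact le_rfl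
  | succ k hk ih => exact ih.trans ((by linarith : Lam k ≤ Lam k + 1).trans (sm_Lam_succ (by omega)))

theorem sm_memWin {N : ℕ} {A : ℝ} {n m : ℕ} : (n, m) ∈ Win N A ↔
    (N ≤ n ∧ n < 2 * N) ∧ (N ≤ m ∧ m < 2 * N) ∧ A ≤ Lam n + Lam m ∧ Lam n + Lam m < A + 1 := by
  unfold Win
  simp only [mem_filter, mem_product, mem_Ico]
  tauto

theorem sm_anti {N : ℕ} {A : ℝ} {n m n' m' : ℕ} (_hN : 1 ≤ N) (h : (n, m) ∈ Win N A)
    (h' : (n', m') ∈ Win N A) (hlt : n < n') : m' < m := by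
  rw [sm_memWin] at h h'
  by_contra hcon
  push Not at hcon
  have h1 : Lam n + 1 ≤ Lam n' := (sm_Lam_succ (by omega)).trans (sm_Lam_mono (by omega) (by omega))
  have h2 : Lam m ≤ Lam m' := sm_Lam_mono (by omega) hcon
  linarith [h.2.2.1, h'.2.2.2]

/-! ### bounds for `kb` -/

theorem sm_kb_symm (a b j : ℕ) : kb a b j = kb b a j := by
  unfold kb
  have h1 : (a ≤ b + j ∧ b ≤ a + j ∧ j ≤ a + b) ↔ (b ≤ a + j ∧ a ≤ b + j ∧ j ≤ b + a) := by
    constructor <;> rintro ⟨h1, h2, h3⟩ <;> exact ⟨h2, h1, by omega⟩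
  by_cases h : a ≤ b + j ∧ b ≤ a + j ∧ j ≤ a + b
  · rw [if_pos h, if_pos (h1.1 h)]
    congr 1
    · ring
    · congr 1
      ring
  · rw [if_neg h, if_neg (fun h' => h (h1.2 h'))]

theorem sm_kb_le {a b j : ℕ} {X d : ℝ} (hd : 0 < d) (hX : (2 * (a : ℝ) + 1) * (2 * b + 1) ≤ X)
    (hD : (a ≤ b + j ∧ b ≤ a + j ∧ j ≤ a + b) →
      d ≤ ((a : ℝ) + b + j + 1) * (b + j - a + 1) * (a + j - b + 1) * (a + b - j + 1)) :
    kb a b j ≤ X / √d := by
  have hX0 : 0 ≤ X := le_trans (by positivity) hX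
  unfold kb
  split_ifs with h
  · exact div_le_div₀ hX0 hX (Real.sqrt_pos.2 hd) (Real.sqrt_le_sqrt (hD h))
  · positivity

theorem sm_num {N a b : ℕ} (ha : a < 2 * N) (hb : b < 2 * N) :
    (2 * (a : ℝ) + 1) * (2 * b + 1) ≤ 16 * (N : ℝ) ^ 2 := by
  have h1 : (a : ℝ) + 1 ≤ 2 * N := by exact_mod_cast ha
  have h2 : (b : ℝ) + 1 ≤ 2 * N := by exact_mod_cast hb
  have h3 : (0 : ℝ) ≤ a := Nat.cast_nonneg a
  have h4 : (0 : ℝ) ≤ b := Nat.cast_nonneg b
  have h5 : 2 * (a : ℝ) + 1 ≤ 4 * N := by linarith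
  have h6 : 2 * (b : ℝ) + 1 ≤ 4 * N := by linarith
  calc _ ≤ (4 * (N : ℝ)) * (4 * N) := mul_le_mul h5 h6 (by positivity) (by positivity)
    _ = _ := by ring

theorem sm_prod4 {p q r s P Q R S : ℝ} (hp : 0 ≤ p) (hq : 0 ≤ q) (hr : 0 ≤ r) (hs : 0 ≤ s)
    (h1 : p ≤ P) (h2 : q ≤ Q) (h3 : r ≤ R) (h4 : s ≤ S) : p * q * r * s ≤ P * Q * R * S := by
  have a1 : p * q ≤ P * Q := mul_le_mul h1 h2 hq (hp.trans h1)
  have a2 : p * q * r ≤ P * Q * R := mul_le_mul a1 h3 hr (mul_nonneg (hp.trans h1) (hq.trans h2))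
  exact mul_le_mul a2 h4 hs
    (mul_nonneg (mul_nonneg (hp.trans h1) (hq.trans h2)) (hr.trans h3))

/-- case `j ≤ N` -/
theorem sm_kb1 {N n m j : ℕ} (hN : 1 ≤ N) (hn : N ≤ n) (hn' : n < 2 * N) (hm : N ≤ m)
    (hm' : m < 2 * N) (hmn : m ≤ n) (hj0 : 1 ≤ j) (hj : j ≤ N) (hd : n - m ≤ j) :
    kb n m j ≤ 16 * N / √j / √(((j - (n - m) : ℕ) : ℝ) + 1) := by
  obtain ⟨e, he⟩ : ∃ e, j - (n - m) = e := ⟨_, rfl⟩
  have he' : (e : ℝ) = j - (n - m) := by
    rw [← he, Nat.cast_sub hd, Nat.cast_sub hmn]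
  rw [he]
  have hNR : (1 : ℝ) ≤ N := by exact_mod_cast hN
  have hjR : (1 : ℝ) ≤ j := by exact_mod_cast hj0
  have hjN : (j : ℝ) ≤ N := by exact_mod_cast hj
  have h1 : (N : ℝ) ≤ n := by exact_mod_cast hn
  have h2 : (N : ℝ) ≤ m := by exact_mod_cast hm
  have h3 : (m : ℝ) ≤ n := by exact_mod_cast hmn
  have he0 : (0 : ℝ) ≤ e := Nat.cast_nonneg e
  have hd0 : (0 : ℝ) < (N : ℝ) * N * j * (e + 1) := by positivity
  have := sm_kb_le (a := n) (b := m) (j := j) hd0 (sm_num hn' hm') (fun _ => by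
    have e1 : (m : ℝ) + j - n + 1 = e + 1 := by rw [he']; ring
    rw [e1]
    have a1 : (N : ℝ) ≤ n + m + j + 1 := by linarith
    have a2 : (j : ℝ) ≤ n + j - m + 1 := by linarith
    have a3 : (N : ℝ) ≤ n + m - j + 1 := by linarith
    calc (N : ℝ) * N * j * (e + 1) = (N : ℝ) * (e + 1) * j * N := by ring
      _ ≤ (n + m + j + 1) * (e + 1) * (n + j - m + 1) * (n + m - j + 1) :=
        sm_prod4 (by linarith) (by linarith) (by linarith) (by linarith) a1 le_rfl a2 a3)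
  refine this.trans (le_of_eq ?_)
  rw [Real.sqrt_mul (by positivity), Real.sqrt_mul (by positivity), Real.sqrt_mul_self (by positivity)]
  have s1 : 0 < √(j : ℝ) := Real.sqrt_pos.2 (by positivity)
  have s2 : 0 < √((e : ℝ) + 1) := Real.sqrt_pos.2 (by positivity)
  field_simp

/-- case `N < j`, `N ≤ n + m - j` -/
theorem sm_kb2 {N n m j : ℕ} (hN : 1 ≤ N) (hn : N ≤ n) (hn' : n < 2 * N) (hm : N ≤ m)
    (hm' : m < 2 * N) (hmn : m ≤ n) (hj : N < j) (hd : n - m ≤ j) (hs : N + j ≤ n + m) :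
    kb n m j ≤ 16 * √N / √(((j - (n - m) : ℕ) : ℝ) + 1) := by
  obtain ⟨e, he⟩ : ∃ e, j - (n - m) = e := ⟨_, rfl⟩
  have he' : (e : ℝ) = j - (n - m) := by
    rw [← he, Nat.cast_sub hd, Nat.cast_sub hmn]
  rw [he]
  have hNR : (1 : ℝ) ≤ N := by exact_mod_cast hN
  have hjN : (N : ℝ) ≤ j := by exact_mod_cast hj.le
  have h1 : (N : ℝ) ≤ n := by exact_mod_cast hn
  have h2 : (N : ℝ) ≤ m := by exact_mod_cast hm
  have h3 : (m : ℝ) ≤ n := by exact_mod_cast hmn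
  have h4 : (N : ℝ) + j ≤ n + m := by exact_mod_cast hs
  have he0 : (0 : ℝ) ≤ e := Nat.cast_nonneg e
  have hd0 : (0 : ℝ) < (N : ℝ) * N * N * (e + 1) := by positivity
  have := sm_kb_le (a := n) (b := m) (j := j) hd0 (sm_num hn' hm') (fun _ => by
    have e1 : (m : ℝ) + j - n + 1 = e + 1 := by rw [he']; ring
    rw [e1]
    have a1 : (N : ℝ) ≤ n + m + j + 1 := by linarith
    have a2 : (N : ℝ) ≤ n + j - m + 1 := by linarith
    have a3 : (N : ℝ) ≤ n + m - j + 1 := by linarith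
    calc (N : ℝ) * N * N * (e + 1) = (N : ℝ) * (e + 1) * N * N := by ring
      _ ≤ (n + m + j + 1) * (e + 1) * (n + j - m + 1) * (n + m - j + 1) :=
        sm_prod4 (by linarith) (by linarith) (by linarith) (by linarith) a1 le_rfl a2 a3)
  refine this.trans (le_of_eq ?_)
  rw [Real.sqrt_mul (by positivity), Real.sqrt_mul (by positivity), Real.sqrt_mul_self (by positivity)]
  have s1 : 0 < √(N : ℝ) := Real.sqrt_pos.2 (by positivity)
  have s2 : 0 < √((e : ℝ) + 1) := Real.sqrt_pos.2 (by positivity)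
  have s3 : √(N : ℝ) * √N = N := Real.mul_self_sqrt (by positivity)
  field_simp
  nlinarith

/-- case `N < j`, `N ≤ j - (n - m)` -/
theorem sm_kb3 {N n m j : ℕ} (hN : 1 ≤ N) (hn : N ≤ n) (hn' : n < 2 * N) (hm : N ≤ m)
    (hm' : m < 2 * N) (hmn : m ≤ n) (hj : N < j) (hd : N + (n - m) ≤ j) (hs : j ≤ n + m) :
    kb n m j ≤ 16 * √N / √(((n + m - j : ℕ) : ℝ) + 1) := by
  obtain ⟨e, he⟩ : ∃ e, n + m - j = e := ⟨_, rfl⟩
  have he' : (e : ℝ) = n + m - j := by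
    rw [← he, Nat.cast_sub hs]; push_cast; ring
  rw [he]
  have hNR : (1 : ℝ) ≤ N := by exact_mod_cast hN
  have hjN : (N : ℝ) ≤ j := by exact_mod_cast hj.le
  have h1 : (N : ℝ) ≤ n := by exact_mod_cast hn
  have h2 : (N : ℝ) ≤ m := by exact_mod_cast hm
  have h3 : (m : ℝ) ≤ n := by exact_mod_cast hmn
  have h4 : (N : ℝ) + (n - m) ≤ j := by
    have : ((N + (n - m) : ℕ) : ℝ) ≤ j := by exact_mod_cast hd
    rw [Nat.cast_add, Nat.cast_sub hmn] at this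
    exact this
  have he0 : (0 : ℝ) ≤ e := Nat.cast_nonneg e
  have hd0 : (0 : ℝ) < (N : ℝ) * N * N * (e + 1) := by positivity
  have := sm_kb_le (a := n) (b := m) (j := j) hd0 (sm_num hn' hm') (fun _ => by
    have e1 : (n : ℝ) + m - j + 1 = e + 1 := by rw [he']
    rw [e1]
    have a1 : (N : ℝ) ≤ n + m + j + 1 := by linarith
    have a2 : (N : ℝ) ≤ n + j - m + 1 := by linarith
    have a3 : (N : ℝ) ≤ m + j - n + 1 := by linarith
    exact sm_prod4 (by linarith) (by linarith) (by linarith) (by linarith) a1 a3 a2 le_rfl)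
  refine this.trans (le_of_eq ?_)
  rw [Real.sqrt_mul (by positivity), Real.sqrt_mul (by positivity), Real.sqrt_mul_self (by positivity)]
  have s1 : 0 < √(N : ℝ) := Real.sqrt_pos.2 (by positivity)
  have s2 : 0 < √((e : ℝ) + 1) := Real.sqrt_pos.2 (by positivity)
  have s3 : √(N : ℝ) * √N = N := Real.mul_self_sqrt (by positivity)
  field_simp
  nlinarith

/-- near the diagonal -/
theorem sm_kb4 {N n m j : ℕ} (hN : 1 ≤ N) (hn : N ≤ n) (hn' : n < 2 * N) (hm : N ≤ m)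
    (hm' : m < 2 * N) (h1 : (n - m) ^ 2 < N) (h2 : (m - n) ^ 2 < N) (hj : 4 * N ≤ j ^ 2) :
    kb n m j ≤ 16 * √N := by
  have hNR : (1 : ℝ) ≤ N := by exact_mod_cast hN
  have e1 : (N : ℝ) ≤ n := by exact_mod_cast hn
  have e2 : (N : ℝ) ≤ m := by exact_mod_cast hm
  have e3 : 4 * (N : ℝ) ≤ (j : ℝ) ^ 2 := by exact_mod_cast hj
  have e4 : ((n : ℝ) - m) ^ 2 ≤ N := by
    rcases le_total m n with h | h
    · have : (((n - m) ^ 2 : ℕ) : ℝ) ≤ N := by exact_mod_cast h1.le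
      rw [Nat.cast_pow, Nat.cast_sub h] at this
      exact this
    · have : (((m - n) ^ 2 : ℕ) : ℝ) ≤ N := by exact_mod_cast h2.le
      rw [Nat.cast_pow, Nat.cast_sub h] at this
      nlinarith
  have hd0 : (0 : ℝ) < (N : ℝ) * N * N := by positivity
  have := sm_kb_le (a := n) (b := m) (j := j) hd0 (sm_num hn' hm') (fun hh => by
    have a3 : (j : ℝ) ≤ n + m := by exact_mod_cast hh.2.2
    have hj0 : (0 : ℝ) ≤ j := Nat.cast_nonneg j
    have b1 : (3 / 4 : ℝ) * (j : ℝ) ^ 2 ≤ (m + j - n + 1) * (n + j - m + 1) := by nlinarith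
    have b2 : 2 * (N : ℝ) ≤ n + m + j + 1 := by linarith
    have b3 : (N : ℝ) * N ≤ 2 * ((m + j - n + 1) * (n + j - m + 1) * (n + m - j + 1)) := by
      rcases le_total (j : ℝ) N with hc | hc
      · calc (N : ℝ) * N ≤ 2 * ((3 * N) * N) := by nlinarith
          _ ≤ 2 * (((3 / 4 : ℝ) * (j : ℝ) ^ 2) * (n + m - j + 1)) := by
              have : (3 * (N : ℝ)) * N ≤ ((3 / 4 : ℝ) * (j : ℝ) ^ 2) * (n + m - j + 1) :=
                mul_le_mul (by linarith) (by linarith) (by positivity) (by positivity)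
              linarith
          _ ≤ _ := by
              have := mul_le_mul_of_nonneg_right b1 (by linarith : (0 : ℝ) ≤ n + m - j + 1)
              linarith
      · have c1 : (N : ℝ) * N ≤ (j : ℝ) ^ 2 := by nlinarith
        have c2 : (1 : ℝ) ≤ n + m - j + 1 := by linarith
        have c3 : (N : ℝ) * N ≤ 2 * ((3 / 4 : ℝ) * (j : ℝ) ^ 2) := by nlinarith
        have c4 : ((3 / 4 : ℝ) * (j : ℝ) ^ 2) * 1 ≤
            (m + j - n + 1) * (n + j - m + 1) * (n + m - j + 1) :=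
          mul_le_mul b1 c2 (by norm_num) (by nlinarith)
        linarith
    have b4 : 0 ≤ (m + j - n + 1) * (n + j - m + 1) * (n + m - j + (1 : ℝ)) := by nlinarith
    calc (N : ℝ) * N * N = N * (N * N) := by ring
      _ ≤ N * (2 * ((m + j - n + 1) * (n + j - m + 1) * (n + m - j + 1))) := by
          apply mul_le_mul_of_nonneg_left b3 (by positivity)
      _ = (2 * N) * ((m + j - n + 1) * (n + j - m + 1) * (n + m - j + 1)) := by ring
      _ ≤ (n + m + j + 1) * ((m + j - n + 1) * (n + j - m + 1) * (n + m - j + 1)) := by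
          apply mul_le_mul_of_nonneg_right b2 b4
      _ = _ := by ring)
  refine this.trans (le_of_eq ?_)
  rw [Real.sqrt_mul (by positivity), Real.sqrt_mul_self (by positivity)]
  have s1 : 0 < √(N : ℝ) := Real.sqrt_pos.2 (by positivity)
  have s3 : √(N : ℝ) * √N = N := Real.mul_self_sqrt (by positivity)
  field_simp
  nlinarith

/-! ### `low_sum` -/

theorem sm_invsqrt (n : ℕ) : 2 * √(n : ℝ) + 1 / √((n : ℝ) + 1) ≤ 2 * √((n : ℝ) + 1) := by
  have h0 : (0 : ℝ) ≤ n := Nat.cast_nonneg n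
  have h1 : 0 < √((n : ℝ) + 1) := Real.sqrt_pos.2 (by linarith)
  have h2 := Real.sq_sqrt (by linarith : (0 : ℝ) ≤ (n : ℝ) + 1)
  have h3 := Real.sq_sqrt h0
  have h4 := Real.sqrt_nonneg (n : ℝ)
  have h5 : 1 / √((n : ℝ) + 1) ≤ 2 * √((n : ℝ) + 1) - 2 * √(n : ℝ) := by
    rw [div_le_iff₀ h1]
    nlinarith [sq_nonneg (√((n : ℝ) + 1) - √(n : ℝ))]
  linarith

theorem sm_low_aux (D L : ℕ) : ∑ l ∈ range L, (if D ≤ l then 1 / √(((l - D : ℕ) : ℝ) + 1) else 0) ≤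
    2 * √((L - D : ℕ) : ℝ) := by
  induction L with
  | zero => simp
  | succ L ih =>
    rw [sum_range_succ]
    by_cases h : D ≤ L
    · rw [if_pos h]
      have h1 : L + 1 - D = (L - D) + 1 := by omega
      rw [h1]
      push_cast
      linarith [sm_invsqrt (L - D)]
    · rw [if_neg h]
      have h1 : L + 1 - D = 0 := by omega
      have h2 : L - D = 0 := by omega
      rw [h1]
      rw [h2] at ih
      linarith

theorem sm_low_term {a L l j : ℕ} (h : 2 * L ≤ a) (hl : l < L) :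
    kb a l j ≤ 4 * √(L : ℝ) * (if (j - a) + (a - j) ≤ l then
      1 / √(((l - ((j - a) + (a - j)) : ℕ) : ℝ) + 1) else 0) := by
  by_cases hc : a ≤ l + j ∧ l ≤ a + j ∧ j ≤ a + l
  · have hD : (j - a) + (a - j) ≤ l := by omega
    rw [if_pos hD]
    obtain ⟨e, he⟩ : ∃ e, l - ((j - a) + (a - j)) = e := ⟨_, rfl⟩
    rw [he]
    have hlR : (l : ℝ) + 1 ≤ L := by exact_mod_cast hl
    have hla : 2 * ((l : ℝ) + 1) ≤ a := by
      have : (2 * (L : ℝ)) ≤ a := by exact_mod_cast h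
      linarith
    have hl0 : (0 : ℝ) ≤ l := Nat.cast_nonneg l
    have he0 : (0 : ℝ) ≤ e := Nat.cast_nonneg e
    have c1 : (a : ℝ) ≤ l + j := by exact_mod_cast hc.1
    have hprod : ((l : ℝ) + 1) * (e + 1) ≤ (l + j - a + 1) * (a + l - j + 1) := by
      rcases le_total a j with haj | haj
      · have : (e : ℝ) = l - (j - a) := by
          have h1 : e = l - (j - a) := by omega
          have h2 : j - a ≤ l := by omega
          rw [h1, Nat.cast_sub h2, Nat.cast_sub haj]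
        have h3 : (a : ℝ) ≤ j := by exact_mod_cast haj
        have h4 : (j : ℝ) ≤ a + l := by exact_mod_cast hc.2.2
        rw [this]
        nlinarith
      · have : (e : ℝ) = l - (a - j) := by
          have h1 : e = l - (a - j) := by omega
          have h2 : a - j ≤ l := by omega
          rw [h1, Nat.cast_sub h2, Nat.cast_sub haj]
        have h3 : (j : ℝ) ≤ a := by exact_mod_cast haj
        rw [this]
        nlinarith
    have hd0 : (0 : ℝ) < ((a : ℝ) + 1) ^ 2 * ((l + 1) * (e + 1)) := by positivity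
    have := sm_kb_le (a := a) (b := l) (j := j) (X := (2 * (a + 1)) * (2 * (l + 1))) hd0
      (by apply mul_le_mul (by linarith) (by linarith) (by positivity) (by positivity)) (fun _ => by
        have b1 : ((a : ℝ) + 1) ≤ a + l + j + 1 := by
          have : (0 : ℝ) ≤ j := Nat.cast_nonneg j
          linarith
        have b2 : ((a : ℝ) + 1) ≤ a + j - l + 1 := by linarith
        calc ((a : ℝ) + 1) ^ 2 * ((l + 1) * (e + 1))
            = ((a : ℝ) + 1) * (a + 1) * ((l + 1) * (e + 1)) := by ring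
          _ ≤ ((a : ℝ) + l + j + 1) * (a + j - l + 1) * ((l + j - a + 1) * (a + l - j + 1)) := by
              apply mul_le_mul _ hprod (by positivity) (by nlinarith)
              apply mul_le_mul b1 b2 (by positivity) (by linarith)
          _ = _ := by ring)
    refine this.trans ?_
    rw [Real.sqrt_mul (by positivity), Real.sqrt_sq (by positivity), Real.sqrt_mul (by positivity)]
    have s1 : 0 < √((l : ℝ) + 1) := Real.sqrt_pos.2 (by positivity)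
    have s2 : 0 < √((e : ℝ) + 1) := Real.sqrt_pos.2 (by positivity)
    have s3 : √((l : ℝ) + 1) * √((l : ℝ) + 1) = l + 1 := Real.mul_self_sqrt (by positivity)
    have s4 : √((l : ℝ) + 1) ≤ √(L : ℝ) := Real.sqrt_le_sqrt hlR
    have : 2 * ((a : ℝ) + 1) * (2 * (l + 1)) / ((a + 1) * (√((l : ℝ) + 1) * √((e : ℝ) + 1))) =
        4 * √((l : ℝ) + 1) * (1 / √((e : ℝ) + 1)) := by
      rw [div_eq_iff (by positivity)]
      have h1 : 4 * √((l : ℝ) + 1) * (1 / √((e : ℝ) + 1)) *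
          (((a : ℝ) + 1) * (√((l : ℝ) + 1) * √((e : ℝ) + 1))) =
          4 * (a + 1) * (√((l : ℝ) + 1) * √((l : ℝ) + 1)) *
            (√((e : ℝ) + 1) / √((e : ℝ) + 1)) := by ring
      rw [h1, div_self s2.ne', s3]
      ring
    rw [this]
    gcongr
  · have : kb a l j = 0 := by unfold kb; rw [if_neg hc]
    rw [this]
    positivity

/-- one factor of degree `a`, the other one of degree `< L` -/
theorem low_sum : ∃ C > 0, ∀ a L j : ℕ, 2 * L ≤ a → ∑ l ∈ range L, kb a l j ≤ C * L := by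
  refine ⟨8, by norm_num, fun a L j h => ?_⟩
  calc ∑ l ∈ range L, kb a l j ≤ ∑ l ∈ range L, 4 * √(L : ℝ) * (if (j - a) + (a - j) ≤ l then
      1 / √(((l - ((j - a) + (a - j)) : ℕ) : ℝ) + 1) else 0) :=
        sum_le_sum (fun l hl => sm_low_term h (mem_range.1 hl))
    _ = 4 * √(L : ℝ) * ∑ l ∈ range L, (if (j - a) + (a - j) ≤ l then
      1 / √(((l - ((j - a) + (a - j)) : ℕ) : ℝ) + 1) else 0) := by rw [mul_sum]
    _ ≤ 4 * √(L : ℝ) * (2 * √((L - ((j - a) + (a - j)) : ℕ) : ℝ)) := by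
        gcongr
        exact sm_low_aux _ _
    _ ≤ 4 * √(L : ℝ) * (2 * √(L : ℝ)) := by
        gcongr
        exact Nat.sub_le _ _
    _ = 8 * (√(L : ℝ) * √(L : ℝ)) := by ring
    _ = 8 * L := by rw [Real.mul_self_sqrt (Nat.cast_nonneg L)]

/-- output degrees above `2√N`, pairs near the diagonal -/
theorem near_high : ∃ C > 0, ∀ (N : ℕ) (A : ℝ) (j : ℕ), 64 ≤ N → 4 * N ≤ j ^ 2 →
    ∑ p ∈ (Win N A).filter (fun p => (p.1 - p.2) ^ 2 < N ∧ (p.2 - p.1) ^ 2 < N), kb p.1 p.2 j ≤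
      C * (N : ℝ) ^ (3 / 4 : ℝ) * (1 + Real.log N) := by
  obtain ⟨C, hC, hcount⟩ := count_near
  refine ⟨16 * C, by positivity, fun N A j hN hj => ?_⟩
  have hlog : 0 ≤ Real.log (N : ℝ) := Real.log_natCast_nonneg N
  obtain ⟨q, hq2, hq4, hqs, hq1, hq3⟩ := sm_q hN
  have h1 := hcount N A hN
  rw [hq1] at h1
  rw [hq3]
  have hterm : ∀ p ∈ (Win N A).filter (fun p => (p.1 - p.2) ^ 2 < N ∧ (p.2 - p.1) ^ 2 < N),
      kb p.1 p.2 j ≤ 16 * √N := by
    rintro ⟨n, m⟩ hp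
    rw [mem_filter, sm_memWin] at hp
    exact sm_kb4 (by omega) hp.1.1.1 hp.1.1.2 hp.1.2.1.1 hp.1.2.1.2 hp.2.1 hp.2.2 hj
  refine (Finset.sum_le_card_nsmul _ _ _ hterm).trans ?_
  rw [nsmul_eq_mul, hqs]
  have hs : √(1 + Real.log N) ≤ 1 + Real.log N := by
    rw [Real.sqrt_le_left (by linarith)]
    nlinarith
  calc _ ≤ (C * q * √(1 + Real.log N)) * (16 * q ^ 2) := by gcongr
    _ ≤ (C * q * (1 + Real.log N)) * (16 * q ^ 2) := by gcongr
    _ = _ := by ring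

/-! ### counting in intervals -/

theorem sm_interval (P : Finset (ℕ × ℕ)) (H : ℕ)
    (h : ∀ p ∈ P, ∀ p' ∈ P, p.1 ≤ p'.1 → p'.1 < p.1 + H) :
    ∃ n0, ∀ p ∈ P, n0 ≤ p.1 ∧ p.1 < n0 + H := by
  rcases P.eq_empty_or_nonempty with hP | hP
  · subst hP
    exact ⟨0, by simp⟩
  · obtain ⟨p0, hp0, hmin⟩ := P.exists_min_image (fun p => p.1) hP
    exact ⟨p0.1, fun p hp => ⟨hmin p hp, h p0 hp0 p hp (hmin p hp)⟩⟩

/-- the points far from the diagonal, below it -/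
def smF (N : ℕ) (A : ℝ) : Finset (ℕ × ℕ) :=
  (Win N A).filter (fun p => p.2 ≤ p.1 ∧ N ≤ (p.1 - p.2) ^ 2)

theorem sm_memF {N : ℕ} {A : ℝ} {p : ℕ × ℕ} :
    p ∈ smF N A ↔ p ∈ Win N A ∧ p.2 ≤ p.1 ∧ N ≤ (p.1 - p.2) ^ 2 := by
  unfold smF
  rw [mem_filter]

theorem sm_gap {N : ℕ} {A : ℝ} (hN : 1 ≤ N) {p p' : ℕ × ℕ} (hp : p ∈ smF N A) (hp' : p' ∈ smF N A)
    (h : p.1 ≤ p'.1) : p.1 - p.2 + (p'.1 - p.1) ≤ p'.1 - p'.2 := by
  rw [sm_memF] at hp hp'
  rcases h.eq_or_lt with h | h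
  · have : p.2 = p'.2 := by
      rcases lt_trichotomy p.2 p'.2 with h1 | h1 | h1
      · exfalso
        have a1 := (sm_memWin (n := p.1) (m := p.2)).1 hp.1
        have a2 := (sm_memWin (n := p'.1) (m := p'.2)).1 hp'.1
        have a3 : Lam p.2 + 1 ≤ Lam p'.2 :=
          (sm_Lam_succ (by omega)).trans (sm_Lam_mono (by omega) (by omega))
        rw [h] at a1
        linarith [a1.2.2.1, a2.2.2.2]
      · exact h1
      · exfalso
        have a1 := (sm_memWin (n := p.1) (m := p.2)).1 hp.1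
        have a2 := (sm_memWin (n := p'.1) (m := p'.2)).1 hp'.1
        have a3 : Lam p'.2 + 1 ≤ Lam p.2 :=
          (sm_Lam_succ (by omega)).trans (sm_Lam_mono (by omega) (by omega))
        rw [h] at a1
        linarith [a1.2.2.2, a2.2.2.1]
    omega
  · have := sm_anti hN (n := p.1) (m := p.2) (n' := p'.1) (m' := p'.2) hp.1 hp'.1 h
    omega

/-- counting by `δ`, `j ≤ N` -/
theorem sm_count1 : ∃ C > 0, ∀ (N : ℕ) (A : ℝ) (j E : ℕ), 64 ≤ N → j ≤ N → 1 ≤ E →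
    ((((smF N A).filter (fun p => p.1 - p.2 ≤ j)).filter (fun p => j - (p.1 - p.2) < E)).card : ℝ) ≤
      C * √(j : ℝ) * √(1 + Real.log N) / (N : ℝ) ^ (1 / 4 : ℝ) * √(E : ℝ) := by
  obtain ⟨Ca, hCa, hall⟩ := count_all
  obtain ⟨Cf, hCf, hfar⟩ := count_far
  refine ⟨2 * Ca + 2 * Cf, by positivity, fun N A j E hN hj hE => ?_⟩
  have hlog : 0 ≤ Real.log (N : ℝ) := Real.log_natCast_nonneg N
  obtain ⟨q, hq2, hq4, hqs, hq1, hq3⟩ := sm_q hN
  have hq0 : 0 < q := by linarith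
  set ell := √(1 + Real.log N) with hell
  have hell1 : 1 ≤ ell := by rw [hell, Real.one_le_sqrt]; linarith
  rw [hq1]
  set P := ((smF N A).filter (fun p => p.1 - p.2 ≤ j)).filter (fun p => j - (p.1 - p.2) < E) with hP
  rcases P.eq_empty_or_nonempty with hem | ⟨p0, hp0⟩
  · rw [hem, card_empty, Nat.cast_zero]
    positivity
  have hδ : ∀ p ∈ P, N ≤ (p.1 - p.2) ^ 2 ∧ p.1 - p.2 ≤ j ∧ j - (p.1 - p.2) < E ∧ p ∈ smF N A := by
    intro p hp
    rw [hP, mem_filter, mem_filter] at hp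
    exact ⟨(sm_memF.1 hp.1.1).2.2, hp.1.2, hp.2, hp.1.1⟩
  have hjq : q ≤ √(j : ℝ) := by
    have h1 := hδ p0 hp0
    have h2 : N ≤ j ^ 2 := h1.1.trans (Nat.pow_le_pow_left h1.2.1 2)
    have h3 : q ^ 4 ≤ (j : ℝ) ^ 2 := by rw [hq4]; exact_mod_cast h2
    have h4 : q ^ 2 ≤ (j : ℝ) := by
      nlinarith [sq_nonneg (q ^ 2), Nat.cast_nonneg (α := ℝ) j]
    exact Real.le_sqrt_of_sq_le h4
  have hj0 : 1 ≤ j := by
    by_contra hcon
    have : j = 0 := by omega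
    rw [this, Nat.cast_zero, Real.sqrt_zero] at hjq
    linarith
  -- reduce to `E' = min E j`
  set E' := min E j with hE'
  have hE'1 : 1 ≤ E' := by omega
  have hE'E : √(E' : ℝ) ≤ √(E : ℝ) := Real.sqrt_le_sqrt (by exact_mod_cast min_le_left E j)
  have hE'j : √(E' : ℝ) ≤ √(j : ℝ) := Real.sqrt_le_sqrt (by exact_mod_cast min_le_right E j)
  have hE'R : (1 : ℝ) ≤ √(E' : ℝ) := by rw [Real.one_le_sqrt]; exact_mod_cast hE'1
  have hint := sm_interval P E' (by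
    intro p hp p' hp' hle
    have h1 := hδ p hp
    have h2 := hδ p' hp'
    have h3 := sm_gap (by omega) h1.2.2.2 h2.2.2.2 hle
    have h4 : 1 ≤ p.1 - p.2 := by
      by_contra hcon
      have : p.1 - p.2 = 0 := by omega
      rw [this] at h1
      have := h1.1
      simp only [ne_eq, OfNat.ofNat_ne_zero, not_false_eq_true, zero_pow, Nat.le_zero] at this
      omega
    omega)
  obtain ⟨n0, hn0⟩ := hint
  have hjj : √(j : ℝ) * √(j : ℝ) = j := Real.mul_self_sqrt (Nat.cast_nonneg j)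
  have hEE : √(E' : ℝ) * √(E' : ℝ) = E' := Real.mul_self_sqrt (Nat.cast_nonneg E')
  suffices hmain : (P.card : ℝ) ≤ (2 * Ca + 2 * Cf) * √(j : ℝ) * ell / q * √(E' : ℝ) by
    refine hmain.trans ?_
    gcongr
  by_cases hcase : √(E' : ℝ) * √(j : ℝ) ≤ q ^ 3
  · have hsub : P ⊆ (Win N A).filter (fun p => n0 ≤ p.1 ∧ p.1 < n0 + E' ∧ p.2 ≤ p.1 ∧
        N ≤ (p.1 - p.2) ^ 2 ∧ p.1 - p.2 ≤ j) := by
      intro p hp
      have h1 := hδ p hp
      have h2 := sm_memF.1 h1.2.2.2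
      rw [mem_filter]
      exact ⟨h2.1, (hn0 p hp).1, (hn0 p hp).2, h2.2.1, h2.2.2, h1.2.1⟩
    have h1 : (P.card : ℝ) ≤ Cf * (1 + E' * j / N) := by
      refine le_trans ?_ (hfar N A E' n0 j hN)
      exact_mod_cast card_le_card hsub
    have h4 : (E' : ℝ) * j = (√(E' : ℝ) * √(j : ℝ)) * (√(E' : ℝ) * √(j : ℝ)) := by
      calc (E' : ℝ) * j = (√(E' : ℝ) * √(E' : ℝ)) * (√(j : ℝ) * √(j : ℝ)) := by rw [hEE, hjj]
        _ = _ := by ring
    have h2 : (E' : ℝ) * j / N ≤ √(j : ℝ) / q * √(E' : ℝ) := by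
      rw [← hq4, div_le_iff₀ (by positivity)]
      have h3 : √(j : ℝ) / q * √(E' : ℝ) * q ^ 4 = (√(E' : ℝ) * √(j : ℝ)) * q ^ 3 := by
        field_simp
      rw [h3, h4]
      gcongr
    have h3 : 1 ≤ √(j : ℝ) / q * √(E' : ℝ) := by
      have : 1 ≤ √(j : ℝ) / q := by rw [le_div_iff₀ hq0]; linarith
      nlinarith
    calc (P.card : ℝ) ≤ Cf * (1 + E' * j / N) := h1
      _ ≤ Cf * (√(j : ℝ) / q * √(E' : ℝ) + √(j : ℝ) / q * √(E' : ℝ)) := by gcongr
      _ = (2 * Cf) * √(j : ℝ) * 1 / q * √(E' : ℝ) := by ring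
      _ ≤ (2 * Ca + 2 * Cf) * √(j : ℝ) * ell / q * √(E' : ℝ) := by
          gcongr
          linarith
  · push Not at hcase
    have hsub : P ⊆ (Win N A).filter (fun p => n0 ≤ p.1 ∧ p.1 < n0 + E') := by
      intro p hp
      have h1 := hδ p hp
      have h2 := sm_memF.1 h1.2.2.2
      rw [mem_filter]
      exact ⟨h2.1, (hn0 p hp).1, (hn0 p hp).2⟩
    have h1 : (P.card : ℝ) ≤ Ca * (E' / √N + 1) * (N : ℝ) ^ (1 / 4 : ℝ) * ell := by
      refine le_trans ?_ (hall N A E' n0 hN)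
      exact_mod_cast card_le_card hsub
    rw [hq1, hqs] at h1
    have hjq2 : √(j : ℝ) ≤ q ^ 2 := by
      rw [← hqs]; exact Real.sqrt_le_sqrt (by exact_mod_cast hj)
    have hEq : q ≤ √(E' : ℝ) := by
      by_contra hcon
      push Not at hcon
      have : √(E' : ℝ) * √(j : ℝ) ≤ q * q ^ 2 := by gcongr
      nlinarith
    have h2 : (E' : ℝ) / q ^ 2 + 1 ≤ 2 * √(j : ℝ) / q ^ 2 * √(E' : ℝ) := by
      have h3 : (1 : ℝ) ≤ E' / q ^ 2 := by
        rw [le_div_iff₀ (by positivity), ← hEE]; nlinarith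
      have h4 : (E' : ℝ) / q ^ 2 ≤ √(j : ℝ) / q ^ 2 * √(E' : ℝ) := by
        have : (E' : ℝ) ≤ √(j : ℝ) * √(E' : ℝ) := by
          calc (E' : ℝ) = √(E' : ℝ) * √(E' : ℝ) := hEE.symm
            _ ≤ _ := by gcongr
        calc (E' : ℝ) / q ^ 2 ≤ (√(j : ℝ) * √(E' : ℝ)) / q ^ 2 := by gcongr
          _ = _ := by ring
      calc (E' : ℝ) / q ^ 2 + 1 ≤ √(j : ℝ) / q ^ 2 * √(E' : ℝ) + √(j : ℝ) / q ^ 2 * √(E' : ℝ) := by
            linarith
        _ = _ := by ring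
    calc (P.card : ℝ) ≤ Ca * (E' / q ^ 2 + 1) * q * ell := h1
      _ ≤ Ca * (2 * √(j : ℝ) / q ^ 2 * √(E' : ℝ)) * q * ell := by gcongr
      _ = (2 * Ca) * √(j : ℝ) * ell / q * √(E' : ℝ) := by field_simp
      _ ≤ (2 * Ca + 2 * Cf) * √(j : ℝ) * ell / q * √(E' : ℝ) := by
          gcongr
          linarith

/-- counting by `δ`, `j > N` -/
theorem sm_count2 : ∃ C > 0, ∀ (N : ℕ) (A : ℝ) (j E : ℕ), 64 ≤ N → 1 ≤ E →
    ((((smF N A).filter (fun p => p.1 - p.2 ≤ j ∧ N + j ≤ p.1 + p.2)).filter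
      (fun p => j - (p.1 - p.2) < E)).card : ℝ) ≤
      C * (N : ℝ) ^ (1 / 4 : ℝ) * √(1 + Real.log N) * √(E : ℝ) := by
  obtain ⟨Ca, hCa, hall⟩ := count_all
  refine ⟨3 * Ca, by positivity, fun N A j E hN hE => ?_⟩
  have hlog : 0 ≤ Real.log (N : ℝ) := Real.log_natCast_nonneg N
  obtain ⟨q, hq2, hq4, hqs, hq1, hq3⟩ := sm_q hN
  have hq0 : 0 < q := by linarith
  set ell := √(1 + Real.log N) with hell
  have hell1 : 1 ≤ ell := by rw [hell, Real.one_le_sqrt]; linarith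
  rw [hq1]
  set P := ((smF N A).filter (fun p => p.1 - p.2 ≤ j ∧ N + j ≤ p.1 + p.2)).filter
    (fun p => j - (p.1 - p.2) < E) with hP
  have hδ : ∀ p ∈ P, p.1 - p.2 ≤ j ∧ N + j ≤ p.1 + p.2 ∧ j - (p.1 - p.2) < E ∧ p ∈ smF N A := by
    intro p hp
    rw [hP, mem_filter, mem_filter] at hp
    exact ⟨hp.1.2.1, hp.1.2.2, hp.2, hp.1.1⟩
  set E' := min E (4 * N) with hE'
  have hE'1 : 1 ≤ E' := by omega
  have hE'E : √(E' : ℝ) ≤ √(E : ℝ) := Real.sqrt_le_sqrt (by exact_mod_cast min_le_left E (4 * N))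
  have hE'R : (1 : ℝ) ≤ √(E' : ℝ) := by rw [Real.one_le_sqrt]; exact_mod_cast hE'1
  have hE'N : √(E' : ℝ) ≤ 2 * q ^ 2 := by
    rw [← hqs]
    calc √(E' : ℝ) ≤ √((4 * N : ℕ) : ℝ) :=
          Real.sqrt_le_sqrt (by exact_mod_cast min_le_right E (4 * N))
      _ = √(2 ^ 2 * N) := by push_cast; norm_num
      _ = 2 * √N := by rw [Real.sqrt_mul (by positivity), Real.sqrt_sq (by norm_num)]
  have hint := sm_interval P E' (by
    intro p hp p' hp' hle
    have h1 := hδ p hp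
    have h2 := hδ p' hp'
    have h3 := sm_gap (by omega) h1.2.2.2 h2.2.2.2 hle
    have h4 := (sm_memWin (n := p'.1) (m := p'.2)).1 (sm_memF.1 h2.2.2.2).1
    have h5 := (sm_memWin (n := p.1) (m := p.2)).1 (sm_memF.1 h1.2.2.2).1
    omega)
  obtain ⟨n0, hn0⟩ := hint
  have hEE : √(E' : ℝ) * √(E' : ℝ) = E' := Real.mul_self_sqrt (Nat.cast_nonneg E')
  have hsub : P ⊆ (Win N A).filter (fun p => n0 ≤ p.1 ∧ p.1 < n0 + E') := by
    intro p hp
    have h1 := hδ p hp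
    have h2 := sm_memF.1 h1.2.2.2
    rw [mem_filter]
    exact ⟨h2.1, (hn0 p hp).1, (hn0 p hp).2⟩
  have h1 : (P.card : ℝ) ≤ Ca * (E' / √N + 1) * (N : ℝ) ^ (1 / 4 : ℝ) * ell := by
    refine le_trans ?_ (hall N A E' n0 hN)
    exact_mod_cast card_le_card hsub
  rw [hq1, hqs] at h1
  have h2 : (E' : ℝ) / q ^ 2 + 1 ≤ 3 * √(E' : ℝ) := by
    have : (E' : ℝ) / q ^ 2 ≤ 2 * √(E' : ℝ) := by
      rw [div_le_iff₀ (by positivity)]
      calc (E' : ℝ) = √(E' : ℝ) * √(E' : ℝ) := hEE.symm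
        _ ≤ √(E' : ℝ) * (2 * q ^ 2) := by gcongr
        _ = _ := by ring
    linarith
  calc (P.card : ℝ) ≤ Ca * (E' / q ^ 2 + 1) * q * ell := h1
    _ ≤ Ca * (3 * √(E' : ℝ)) * q * ell := by gcongr
    _ ≤ Ca * (3 * √(E : ℝ)) * q * ell := by gcongr
    _ = _ := by ring

/-- counting by `σ` -/
theorem sm_count3 : ∃ C > 0, ∀ (N : ℕ) (A : ℝ) (j E : ℕ), 64 ≤ N → 1 ≤ E →
    ((((smF N A).filter (fun p => N + (p.1 - p.2) ≤ j ∧ j ≤ p.1 + p.2)).filter
      (fun p => p.1 + p.2 - j < E)).card : ℝ) ≤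
      C * (N : ℝ) ^ (1 / 4 : ℝ) * √(1 + Real.log N) * √(E : ℝ) := by
  obtain ⟨Ca, hCa, hall⟩ := count_all
  obtain ⟨c, hc, C1, hC1, hdrop⟩ := sum_drop
  set κ := √((1 + C1) / c) with hκ
  have hκ0 : 0 ≤ κ := Real.sqrt_nonneg _
  have hκ2 : κ ^ 2 = (1 + C1) / c := Real.sq_sqrt (by positivity)
  refine ⟨(κ + 2) * Ca, by positivity, fun N A j E hN hE => ?_⟩
  have hlog : 0 ≤ Real.log (N : ℝ) := Real.log_natCast_nonneg N
  obtain ⟨q, hq2, hq4, hqs, hq1, hq3⟩ := sm_q hN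
  have hq0 : 0 < q := by linarith
  have hN0 : (0 : ℝ) < N := by positivity
  set ell := √(1 + Real.log N) with hell
  have hell1 : 1 ≤ ell := by rw [hell, Real.one_le_sqrt]; linarith
  rw [hq1]
  set P := ((smF N A).filter (fun p => N + (p.1 - p.2) ≤ j ∧ j ≤ p.1 + p.2)).filter
    (fun p => p.1 + p.2 - j < E) with hP
  have hδ : ∀ p ∈ P, N + (p.1 - p.2) ≤ j ∧ j ≤ p.1 + p.2 ∧ p.1 + p.2 - j < E ∧ p ∈ smF N A := by
    intro p hp
    rw [hP, mem_filter, mem_filter] at hp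
    exact ⟨hp.1.2.1, hp.1.2.2, hp.2, hp.1.1⟩
  have hER : (1 : ℝ) ≤ E := by exact_mod_cast hE
  have hE1 : (1 : ℝ) ≤ √(E : ℝ) := by rw [Real.one_le_sqrt]; exact hER
  have hEE : √(E : ℝ) ^ 2 = E := Real.sq_sqrt (by positivity)
  set H := ⌊κ * (√(E : ℝ) * q ^ 2)⌋₊ + 1 with hH
  have hint := sm_interval P H (by
    intro p hp p' hp' hle
    have h1 := hδ p hp
    have h2 := hδ p' hp'
    have h3 := sm_memF.1 h1.2.2.2
    have h4 := sm_memF.1 h2.2.2.2
    have h5 := hdrop N A p.1 p.2 p'.1 p'.2 hN h3.1 h4.1 h3.2.1 hle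
    have h6 : ((p.1 : ℝ) + p.2) - (p'.1 + p'.2) ≤ E := by
      have : p.1 + p.2 ≤ p'.1 + p'.2 + E := by omega
      have : ((p.1 + p.2 : ℕ) : ℝ) ≤ ((p'.1 + p'.2 + E : ℕ) : ℝ) := by exact_mod_cast this
      push_cast at this
      linarith
    have h7 : (p.1 : ℝ) ≤ p'.1 := by exact_mod_cast hle
    have h8 : (p.2 : ℝ) ≤ p.1 := by exact_mod_cast h3.2.1
    have h9 : C1 / √N ≤ C1 := by
      rw [hqs]
      apply div_le_self hC1.le
      nlinarith
    have h10 : c * ((p'.1 : ℝ) - p.1) * ((p'.1 : ℝ) - p.1) / N ≤ (1 + C1) * E := by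
      have : c * ((p'.1 : ℝ) - p.1) * ((p'.1 : ℝ) - p.1) / N ≤
          c * ((p'.1 : ℝ) - p.1) * ((p'.1 : ℝ) - p.2) / N := by
        have : 0 ≤ (p'.1 : ℝ) - p.1 := by linarith
        gcongr
      nlinarith
    have h11 : ((p'.1 : ℝ) - p.1) ^ 2 ≤ (κ * (√(E : ℝ) * q ^ 2)) ^ 2 := by
      have : (κ * (√(E : ℝ) * q ^ 2)) ^ 2 = κ ^ 2 * (√(E : ℝ) ^ 2 * q ^ 4) := by ring
      rw [this, hκ2, hEE, hq4]
      rw [div_le_iff₀ hN0] at h10
      rw [div_mul_eq_mul_div, le_div_iff₀ hc]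
      nlinarith
    have h12 : (p'.1 : ℝ) - p.1 ≤ κ * (√(E : ℝ) * q ^ 2) :=
      abs_le_of_sq_le_sq' h11 (by positivity) |>.2
    have h13 : p'.1 - p.1 ≤ ⌊κ * (√(E : ℝ) * q ^ 2)⌋₊ := by
      apply Nat.le_floor
      rw [Nat.cast_sub hle]
      exact h12
    omega)
  obtain ⟨n0, hn0⟩ := hint
  have hsub : P ⊆ (Win N A).filter (fun p => n0 ≤ p.1 ∧ p.1 < n0 + H) := by
    intro p hp
    have h1 := hδ p hp
    have h2 := sm_memF.1 h1.2.2.2
    rw [mem_filter]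
    exact ⟨h2.1, (hn0 p hp).1, (hn0 p hp).2⟩
  have h1 : (P.card : ℝ) ≤ Ca * (H / √N + 1) * (N : ℝ) ^ (1 / 4 : ℝ) * ell := by
    refine le_trans ?_ (hall N A H n0 hN)
    exact_mod_cast card_le_card hsub
  rw [hq1, hqs] at h1
  have h2 : (H : ℝ) / q ^ 2 + 1 ≤ (κ + 2) * √(E : ℝ) := by
    have h3 : (H : ℝ) ≤ κ * (√(E : ℝ) * q ^ 2) + 1 := by
      rw [hH]; push_cast
      have := Nat.floor_le (by positivity : 0 ≤ κ * (√(E : ℝ) * q ^ 2))
      linarith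
    have h4 : (H : ℝ) / q ^ 2 ≤ (κ + 1) * √(E : ℝ) := by
      rw [div_le_iff₀ (by positivity)]
      nlinarith
    linarith
  calc (P.card : ℝ) ≤ Ca * (H / q ^ 2 + 1) * q * ell := h1
    _ ≤ Ca * ((κ + 2) * √(E : ℝ)) * q * ell := by gcongr
    _ = _ := by ring

/-! ### `far_sum` -/

theorem sm_logM {N M : ℕ} (hN : 64 ≤ N) (hM : M ≤ 4 * N) :
    1 + Real.log (M + 1) ≤ 3 * (1 + Real.log N) := by
  have hNR : (64 : ℝ) ≤ N := by exact_mod_cast hN
  have h1 : Real.log (M + 1 : ℝ) ≤ Real.log (5 * N) := by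
    apply Real.log_le_log (by positivity)
    have : (M : ℝ) ≤ 4 * N := by exact_mod_cast hM
    linarith
  have h2 : Real.log (5 * (N : ℝ)) = Real.log 5 + Real.log N :=
    Real.log_mul (by norm_num) (by positivity)
  have h3 : Real.log 5 ≤ 2 := by
    have : Real.log 5 ≤ Real.log (Real.exp 2) := by
      apply Real.log_le_log (by norm_num)
      have := Real.add_one_le_exp (1 : ℝ)
      have h4 := Real.exp_one_gt_d9
      have h5 : Real.exp 2 = Real.exp 1 * Real.exp 1 := by rw [← Real.exp_add]; norm_num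
      rw [h5]; nlinarith
    rwa [Real.log_exp] at this
  have h4 : 0 ≤ Real.log (N : ℝ) := Real.log_natCast_nonneg N
  linarith

theorem sm_final {q ell x C B : ℝ} (hq : 0 < q) (hx : 1 ≤ x) (hell : ell = √x) (hC : 0 ≤ C)
    (hB : B ≤ C * q ^ 3 * ell * x) : B ≤ C * q ^ 3 * x ^ 2 := by
  have : ell ≤ x := by
    rw [hell, Real.sqrt_le_left (by linarith)]
    nlinarith
  refine hB.trans ?_
  calc C * q ^ 3 * ell * x ≤ C * q ^ 3 * x * x := by gcongr
    _ = _ := by ring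

theorem sm_far1 : ∃ C > 0, ∀ (N : ℕ) (A : ℝ) (j : ℕ), 64 ≤ N → j ≤ N →
    ∑ p ∈ (smF N A).filter (fun p => p.1 - p.2 ≤ j), kb p.1 p.2 j ≤
      C * (N : ℝ) ^ (3 / 4 : ℝ) * (1 + Real.log N) ^ 2 := by
  obtain ⟨C, hC, hcount⟩ := sm_count1
  refine ⟨192 * C, by positivity, fun N A j hN hj => ?_⟩
  have hlog : 0 ≤ Real.log (N : ℝ) := Real.log_natCast_nonneg N
  obtain ⟨q, hq2, hq4, hqs, hq1, hq3⟩ := sm_q hN
  have hq0 : 0 < q := by linarith
  rw [hq3]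
  set P := (smF N A).filter (fun p => p.1 - p.2 ≤ j) with hP
  rcases P.eq_empty_or_nonempty with hem | ⟨p0, hp0⟩
  · rw [hem, sum_empty]; positivity
  have hj0 : 1 ≤ j := by
    rw [hP, mem_filter] at hp0
    have h1 := (sm_memF.1 hp0.1).2.2
    by_contra hcon
    have : p0.1 - p0.2 = 0 := by omega
    rw [this] at h1
    simp only [ne_eq, OfNat.ofNat_ne_zero, not_false_eq_true, zero_pow, Nat.le_zero] at h1
    omega
  have hjs : 0 < √(j : ℝ) := Real.sqrt_pos.2 (by exact_mod_cast hj0)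
  have hterm : ∀ p ∈ P, kb p.1 p.2 j ≤ 16 * N / √(j : ℝ) *
      (1 / √(((j - (p.1 - p.2) : ℕ) : ℝ) + 1)) := by
    intro p hp
    rw [hP, mem_filter] at hp
    have h1 := sm_memF.1 hp.1
    have h2 := (sm_memWin (n := p.1) (m := p.2)).1 h1.1
    rw [mul_one_div]
    exact sm_kb1 (by omega) h2.1.1 h2.1.2 h2.2.1.1 h2.2.1.2 h1.2.1 hj0 hj hp.2
  refine (sum_le_sum hterm).trans ?_
  rw [← mul_sum]
  have hK := sm_sum P (fun p => j - (p.1 - p.2))
    (C * √(j : ℝ) * √(1 + Real.log N) / (N : ℝ) ^ (1 / 4 : ℝ)) N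
    (fun p _ => by show j - (p.1 - p.2) ≤ N; omega) (fun E hE => hcount N A j E hN hj hE) (by positivity)
  have hM := sm_logM hN (show N ≤ 4 * N by omega)
  rw [hq1] at hK
  apply sm_final hq0 (by linarith) rfl (by positivity)
  calc 16 * (N : ℝ) / √(j : ℝ) * ∑ p ∈ P, 1 / √(((j - (p.1 - p.2) : ℕ) : ℝ) + 1)
      ≤ 16 * (N : ℝ) / √(j : ℝ) * (4 * (C * √(j : ℝ) * √(1 + Real.log N) / q) *
          (1 + Real.log (N + 1))) := by gcongr
    _ ≤ 16 * (N : ℝ) / √(j : ℝ) * (4 * (C * √(j : ℝ) * √(1 + Real.log N) / q) *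
          (3 * (1 + Real.log N))) := by gcongr
    _ = 192 * C * q ^ 3 * √(1 + Real.log N) * (1 + Real.log N) := by
        rw [← hq4]
        field_simp
        ring

theorem sm_far2 : ∃ C > 0, ∀ (N : ℕ) (A : ℝ) (j : ℕ), 64 ≤ N → N < j →
    ∑ p ∈ (smF N A).filter (fun p => p.1 - p.2 ≤ j ∧ N + j ≤ p.1 + p.2), kb p.1 p.2 j ≤
      C * (N : ℝ) ^ (3 / 4 : ℝ) * (1 + Real.log N) ^ 2 := by
  obtain ⟨C, hC, hcount⟩ := sm_count2
  refine ⟨192 * C, by positivity, fun N A j hN hj => ?_⟩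
  have hlog : 0 ≤ Real.log (N : ℝ) := Real.log_natCast_nonneg N
  obtain ⟨q, hq2, hq4, hqs, hq1, hq3⟩ := sm_q hN
  have hq0 : 0 < q := by linarith
  rw [hq3]
  set P := (smF N A).filter (fun p => p.1 - p.2 ≤ j ∧ N + j ≤ p.1 + p.2) with hP
  have hterm : ∀ p ∈ P, kb p.1 p.2 j ≤ 16 * √N *
      (1 / √(((j - (p.1 - p.2) : ℕ) : ℝ) + 1)) := by
    intro p hp
    rw [hP, mem_filter] at hp
    have h1 := sm_memF.1 hp.1
    have h2 := (sm_memWin (n := p.1) (m := p.2)).1 h1.1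
    rw [mul_one_div]
    exact sm_kb2 (by omega) h2.1.1 h2.1.2 h2.2.1.1 h2.2.1.2 h1.2.1 hj hp.2.1 hp.2.2
  refine (sum_le_sum hterm).trans ?_
  rw [← mul_sum]
  have hK := sm_sum P (fun p => j - (p.1 - p.2))
    (C * (N : ℝ) ^ (1 / 4 : ℝ) * √(1 + Real.log N)) (4 * N)
    (fun p hp => by
      show j - (p.1 - p.2) ≤ 4 * N
      rw [hP, mem_filter] at hp
      have h2 := (sm_memWin (n := p.1) (m := p.2)).1 (sm_memF.1 hp.1).1
      omega) (fun E hE => hcount N A j E hN hE) (by positivity)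
  have hM := sm_logM hN (le_refl (4 * N))
  rw [hq1] at hK
  apply sm_final hq0 (by linarith) rfl (by positivity)
  calc 16 * √(N : ℝ) * ∑ p ∈ P, 1 / √(((j - (p.1 - p.2) : ℕ) : ℝ) + 1)
      ≤ 16 * √(N : ℝ) * (4 * (C * q * √(1 + Real.log N)) *
          (1 + Real.log ((4 * N : ℕ) + 1))) := by gcongr
    _ ≤ 16 * √(N : ℝ) * (4 * (C * q * √(1 + Real.log N)) *
          (3 * (1 + Real.log N))) := by gcongr
    _ = 192 * C * q ^ 3 * √(1 + Real.log N) * (1 + Real.log N) := by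
        rw [hqs]
        ring

theorem sm_far3 : ∃ C > 0, ∀ (N : ℕ) (A : ℝ) (j : ℕ), 64 ≤ N → N < j →
    ∑ p ∈ (smF N A).filter (fun p => N + (p.1 - p.2) ≤ j ∧ j ≤ p.1 + p.2), kb p.1 p.2 j ≤
      C * (N : ℝ) ^ (3 / 4 : ℝ) * (1 + Real.log N) ^ 2 := by
  obtain ⟨C, hC, hcount⟩ := sm_count3
  refine ⟨192 * C, by positivity, fun N A j hN hj => ?_⟩
  have hlog : 0 ≤ Real.log (N : ℝ) := Real.log_natCast_nonneg N
  obtain ⟨q, hq2, hq4, hqs, hq1, hq3⟩ := sm_q hN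
  have hq0 : 0 < q := by linarith
  rw [hq3]
  set P := (smF N A).filter (fun p => N + (p.1 - p.2) ≤ j ∧ j ≤ p.1 + p.2) with hP
  have hterm : ∀ p ∈ P, kb p.1 p.2 j ≤ 16 * √N *
      (1 / √(((p.1 + p.2 - j : ℕ) : ℝ) + 1)) := by
    intro p hp
    rw [hP, mem_filter] at hp
    have h1 := sm_memF.1 hp.1
    have h2 := (sm_memWin (n := p.1) (m := p.2)).1 h1.1
    rw [mul_one_div]
    exact sm_kb3 (by omega) h2.1.1 h2.1.2 h2.2.1.1 h2.2.1.2 h1.2.1 hj hp.2.1 hp.2.2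
  refine (sum_le_sum hterm).trans ?_
  rw [← mul_sum]
  have hK := sm_sum P (fun p => p.1 + p.2 - j)
    (C * (N : ℝ) ^ (1 / 4 : ℝ) * √(1 + Real.log N)) (4 * N)
    (fun p hp => by
      show p.1 + p.2 - j ≤ 4 * N
      rw [hP, mem_filter] at hp
      have h2 := (sm_memWin (n := p.1) (m := p.2)).1 (sm_memF.1 hp.1).1
      omega) (fun E hE => hcount N A j E hN hE) (by positivity)
  have hM := sm_logM hN (le_refl (4 * N))
  rw [hq1] at hK
  apply sm_final hq0 (by linarith) rfl (by positivity)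
  calc 16 * √(N : ℝ) * ∑ p ∈ P, 1 / √(((p.1 + p.2 - j : ℕ) : ℝ) + 1)
      ≤ 16 * √(N : ℝ) * (4 * (C * q * √(1 + Real.log N)) *
          (1 + Real.log ((4 * N : ℕ) + 1))) := by gcongr
    _ ≤ 16 * √(N : ℝ) * (4 * (C * q * √(1 + Real.log N)) *
          (3 * (1 + Real.log N))) := by gcongr
    _ = 192 * C * q ^ 3 * √(1 + Real.log N) * (1 + Real.log N) := by
        rw [hqs]
        ring

theorem sm_farHalf : ∃ C > 0, ∀ (N : ℕ) (A : ℝ) (j : ℕ), 64 ≤ N →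
    ∑ p ∈ smF N A, kb p.1 p.2 j ≤ C * (N : ℝ) ^ (3 / 4 : ℝ) * (1 + Real.log N) ^ 2 := by
  obtain ⟨C1, hC1, h1⟩ := sm_far1
  obtain ⟨C2, hC2, h2⟩ := sm_far2
  obtain ⟨C3, hC3, h3⟩ := sm_far3
  refine ⟨C1 + C2 + C3, by positivity, fun N A j hN => ?_⟩
  have hlog : 0 ≤ Real.log (N : ℝ) := Real.log_natCast_nonneg N
  have hX : 0 ≤ (N : ℝ) ^ (3 / 4 : ℝ) * (1 + Real.log N) ^ 2 := by positivity
  have hzero : ∀ p ∈ smF N A, ¬ (p.1 - p.2 ≤ j ∧ j ≤ p.1 + p.2) → kb p.1 p.2 j = 0 := by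
    intro p hp hcon
    have := (sm_memF.1 hp).2.1
    unfold kb
    rw [if_neg]
    rintro ⟨a1, a2, a3⟩
    exact hcon ⟨by omega, a3⟩
  rcases le_or_gt j N with hj | hj
  · have := h1 N A j hN hj
    have hle : ∑ p ∈ smF N A, kb p.1 p.2 j ≤
        ∑ p ∈ (smF N A).filter (fun p => p.1 - p.2 ≤ j), kb p.1 p.2 j := by
      rw [sum_filter]
      apply sum_le_sum
      intro p hp
      split_ifs with hc
      · exact le_rfl
      · exact (hzero p hp (fun h => hc h.1)).le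
    nlinarith
  · have e2 := h2 N A j hN hj
    have e3 := h3 N A j hN hj
    have hle : ∑ p ∈ smF N A, kb p.1 p.2 j ≤
        ∑ p ∈ (smF N A).filter (fun p => p.1 - p.2 ≤ j ∧ N + j ≤ p.1 + p.2), kb p.1 p.2 j +
        ∑ p ∈ (smF N A).filter (fun p => N + (p.1 - p.2) ≤ j ∧ j ≤ p.1 + p.2), kb p.1 p.2 j := by
      rw [sum_filter, sum_filter, ← sum_add_distrib]
      apply sum_le_sum
      intro p hp
      have hk := kb_nonneg p.1 p.2 j
      by_cases hc : p.1 - p.2 ≤ j ∧ j ≤ p.1 + p.2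
      · have hw := (sm_memWin (n := p.1) (m := p.2)).1 (sm_memF.1 hp).1
        have hle := (sm_memF.1 hp).2.1
        by_cases ha : N + j ≤ p.1 + p.2
        · rw [if_pos ⟨hc.1, ha⟩]
          split_ifs <;> linarith
        · rw [if_neg (fun h => ha h.2), if_pos ⟨by omega, hc.2⟩]
          linarith
      · rw [hzero p hp hc]
        split_ifs <;> linarith
    nlinarith

/-- pairs off the diagonal, all output degrees -/
theorem far_sum : ∃ C > 0, ∀ (N : ℕ) (A : ℝ) (j : ℕ), 64 ≤ N →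
    ∑ p ∈ (Win N A).filter (fun p => ¬ ((p.1 - p.2) ^ 2 < N ∧ (p.2 - p.1) ^ 2 < N)),
      kb p.1 p.2 j ≤ C * (N : ℝ) ^ (3 / 4 : ℝ) * (1 + Real.log N) ^ 2 := by
  obtain ⟨C, hC, hhalf⟩ := sm_farHalf
  refine ⟨2 * C, by positivity, fun N A j hN => ?_⟩
  have h1 := hhalf N A j hN
  set Q := (Win N A).filter (fun p => ¬ ((p.1 - p.2) ^ 2 < N ∧ (p.2 - p.1) ^ 2 < N)) with hQ
  have hsplit := Finset.sum_filter_add_sum_filter_not Q (fun p => p.2 ≤ p.1)
    (fun p => kb p.1 p.2 j)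
  rw [← hsplit]
  have ha : ∑ p ∈ Q.filter (fun p => p.2 ≤ p.1), kb p.1 p.2 j ≤ ∑ p ∈ smF N A, kb p.1 p.2 j := by
    apply sum_le_sum_of_subset_of_nonneg
    · intro p hp
      rw [mem_filter, hQ, mem_filter] at hp
      rw [sm_memF]
      refine ⟨hp.1.1, hp.2, ?_⟩
      by_contra hcon
      apply hp.1.2
      have : p.2 - p.1 = 0 := by omega
      refine ⟨by omega, ?_⟩
      rw [this]
      simp only [ne_eq, OfNat.ofNat_ne_zero, not_false_eq_true, zero_pow]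
      omega
    · intro p _ _; exact kb_nonneg _ _ _
  have hb : ∑ p ∈ Q.filter (fun p => ¬ p.2 ≤ p.1), kb p.1 p.2 j ≤ ∑ p ∈ smF N A, kb p.1 p.2 j := by
    have himg : ∑ p ∈ Q.filter (fun p => ¬ p.2 ≤ p.1), kb p.1 p.2 j =
        ∑ p ∈ (Q.filter (fun p => ¬ p.2 ≤ p.1)).image Prod.swap, kb p.1 p.2 j := by
      rw [sum_image (fun x _ y _ h => Prod.swap_injective h)]
      apply sum_congr rfl
      intro p _
      exact sm_kb_symm _ _ _
    rw [himg]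
    apply sum_le_sum_of_subset_of_nonneg
    · intro p hp
      rw [mem_image] at hp
      obtain ⟨x, hx, rfl⟩ := hp
      rw [mem_filter, hQ, mem_filter] at hx
      have hw := (sm_memWin (n := x.1) (m := x.2)).1 hx.1.1
      rw [sm_memF]
      refine ⟨?_, ?_, ?_⟩
      · exact (sm_memWin (n := x.2) (m := x.1)).2 ⟨hw.2.1, hw.1, by linarith [hw.2.2.1],
          by linarith [hw.2.2.2]⟩
      · show x.1 ≤ x.2
        omega
      · show N ≤ (x.2 - x.1) ^ 2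
        by_contra hcon
        apply hx.1.2
        have : x.1 - x.2 = 0 := by omega
        refine ⟨?_, by omega⟩
        rw [this]
        simp only [ne_eq, OfNat.ofNat_ne_zero, not_false_eq_true, zero_pow]
        omega
    · intro p _ _; exact kb_nonneg _ _ _
  linarith

end

end Pool.Agent.DW
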