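import Pool.Agent.DW.Bilin
import Pool.Agent.DW.Sums

/-!
# Module E: the bilinear estimate for a window
-/

open MeasureTheory Metric Complex Filter Topology Real
open scoped ENNReal NNReal RealInnerProductSpace

namespace Pool.Agent.DW

noncomputable section

theorem proj_sub (n : ℕ) {f g : S2 → ℂ} (hf : Continuous f) (hg : Continuous g) (x : S2) :
    proj n (fun y => f y - g y) x = proj n f x - proj n g x := by
  have i1 : Integrable (fun y => (Z n (ip x y) : ℂ) * f y) σ :=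
    integrable_of_cont ((Zc_cont_right n x).mul hf)
  have i2 : Integrable (fun y => (Z n (ip x y) : ℂ) * g y) σ :=
    integrable_of_cont ((Zc_cont_right n x).mul hg)
  unfold proj
  simp only [mul_sub]
  exact integral_sub i1 i2

theorem N2_conj (f : S2 → ℂ) : N2 (fun x => (starRingEnd ℂ) (f x)) = N2 f := by
  unfold N2
  simp only [RCLike.norm_conj]

theorem N2_add_le {f g : S2 → ℂ} (hf : Continuous f) (hg : Continuous g) :
    N2 (fun x => f x + g x) ≤ 2 * N2 f + 2 * N2 g := by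
  have i1 : Integrable (fun x => ‖f x‖ ^ 2) σ := integrable_of_cont_real (hf.norm.pow 2)
  have i2 : Integrable (fun x => ‖g x‖ ^ 2) σ := integrable_of_cont_real (hg.norm.pow 2)
  have i3 : Integrable (fun x => ‖f x + g x‖ ^ 2) σ :=
    integrable_of_cont_real ((hf.add hg).norm.pow 2)
  unfold N2
  rw [← integral_const_mul, ← integral_const_mul,
    ← integral_add (i1.const_mul 2) (i2.const_mul 2)]
  refine integral_mono i3 ((i1.const_mul 2).add (i2.const_mul 2)) fun x => ?_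
  have h1 := norm_add_le (f x) (g x)
  have h2 : ‖f x + g x‖ ^ 2 ≤ (‖f x‖ + ‖g x‖) ^ 2 := by gcongr
  nlinarith [sq_nonneg (‖f x‖ - ‖g x‖)]

/-- `R R*` with a uniform bound for the eigenvalues -/
theorem rr_sup {ι : Type} (s : Finset ι) (a b : ι → ℕ) (f g : ι → S2 → ℂ)
    (hf : ∀ i, Har (a i) (f i)) (hg : ∀ i, Har (b i) (g i)) {h : S2 → ℂ} (hh : Continuous h)
    {lam : ℝ} (hb : ∀ j, proj j h ≠ (fun _ => 0) → ∑ i ∈ s, kb (a i) (b i) j ≤ lam) :
    ‖∫ x, (∑ i ∈ s, f i x * g i x) * (starRingEnd ℂ) (h x) ∂σ‖ ^ 2 ≤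
      (∑ i ∈ s, N2 (f i) * N2 (g i)) * (max lam 0 * N2 h) := by
  refine (rr_star s a b f g hf hg hh).trans ?_
  refine mul_le_mul_of_nonneg_left ?_
    (Finset.sum_nonneg fun i _ => mul_nonneg (N2_nonneg _) (N2_nonneg _))
  set M : ℕ := s.sup (fun i => a i + b i + 1) with hM
  have h1 : ∑ i ∈ s, ∑ j ∈ Finset.range (a i + b i + 1), kap (a i) (b i) j * N2 (proj j h) ≤
      ∑ i ∈ s, ∑ j ∈ Finset.range M, kb (a i) (b i) j * N2 (proj j h) := by
    refine Finset.sum_le_sum fun i hi => ?_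
    have hle : a i + b i + 1 ≤ M := Finset.le_sup (f := fun i => a i + b i + 1) hi
    refine (Finset.sum_le_sum fun j _ =>
      mul_le_mul_of_nonneg_right (kap_le_kb (a i) (b i) j) (N2_nonneg _)).trans ?_
    exact Finset.sum_le_sum_of_subset_of_nonneg (Finset.range_mono hle)
      fun j _ _ => mul_nonneg (kb_nonneg _ _ _) (N2_nonneg _)
  refine h1.trans ?_
  rw [Finset.sum_comm]
  have h2 : ∀ j, ∑ i ∈ s, kb (a i) (b i) j * N2 (proj j h) ≤ max lam 0 * N2 (proj j h) := by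
    intro j
    rw [← Finset.sum_mul]
    by_cases hj : proj j h = (fun _ => 0)
    · have : N2 (proj j h) = 0 := by rw [hj]; simp [N2]
      rw [this]; simp
    · exact mul_le_mul_of_nonneg_right ((hb j hj).trans (le_max_left _ _)) (N2_nonneg _)
  refine (Finset.sum_le_sum fun j _ => h2 j).trans ?_
  rw [← Finset.mul_sum]
  exact mul_le_mul_of_nonneg_left (bessel _ hh) (le_max_right _ _)

/-- a self-improving inequality -/
theorem self_improve {x y : ℝ} (hx : 0 ≤ x) (hy : 0 ≤ y) (h : x ^ 2 ≤ y * x) : x ≤ y := by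
  rcases hx.eq_or_lt with h0 | h0
  · rw [← h0]; exact hy
  · nlinarith

/-- the dual formulation for `h = V` -/
theorem rr_self {ι : Type} (s : Finset ι) (a b : ι → ℕ) (f g : ι → S2 → ℂ)
    (hf : ∀ i, Har (a i) (f i)) (hg : ∀ i, Har (b i) (g i))
    {lam : ℝ} (hb : ∀ j, ∑ i ∈ s, kb (a i) (b i) j ≤ lam) :
    N2 (fun x => ∑ i ∈ s, f i x * g i x) ≤ max lam 0 * ∑ i ∈ s, N2 (f i) * N2 (g i) := by
  have hc : Continuous (fun x => ∑ i ∈ s, f i x * g i x) :=
    continuous_finsetSum _ fun i _ => (hf i).cont.mul (hg i).cont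
  have h1 := rr_sup s a b f g hf hg hc (lam := lam) fun j _ => hb j
  have h2 : ∫ x, (∑ i ∈ s, f i x * g i x) * (starRingEnd ℂ) (∑ i ∈ s, f i x * g i x) ∂σ =
      (N2 (fun x => ∑ i ∈ s, f i x * g i x) : ℂ) := by
    rw [← inn_self]; rfl
  rw [h2, Complex.norm_real, Real.norm_eq_abs, sq_abs] at h1
  refine self_improve (N2_nonneg _) ?_ (h1.trans (le_of_eq (by ring)))
  exact mul_nonneg (le_max_right _ _)
    (Finset.sum_nonneg fun i _ => mul_nonneg (N2_nonneg _) (N2_nonneg _))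

/-- product with a function of low degree -/
theorem low_prod : ∃ C > 0, ∀ (a L : ℕ) (g h : S2 → ℂ), 2 * L ≤ a → Har a g → Continuous h →
    N2 (fun x => g x * ∑ l ∈ Finset.range L, proj l h x) ≤ C * L * (N2 g * N2 h) := by
  obtain ⟨C, hC, hlow⟩ := low_sum
  refine ⟨C, hC, fun a L g h haL hg hh => ?_⟩
  have h1 := rr_self (Finset.range L) (fun _ => a) (fun l => l) (fun _ => g)
    (fun l => proj l h) (fun _ => hg) (fun l => proj_har l hh) (lam := C * L)
    (fun j => hlow a L j haL)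
  have h2 : (fun x => g x * ∑ l ∈ Finset.range L, proj l h x) =
      fun x => ∑ l ∈ Finset.range L, g x * proj l h x := by
    funext x; rw [Finset.mul_sum]
  rw [h2]
  refine h1.trans ?_
  have hCL : 0 ≤ C * L := by positivity
  rw [max_eq_left hCL, ← Finset.mul_sum]
  refine mul_le_mul_of_nonneg_left ?_ hCL
  exact mul_le_mul_of_nonneg_left (bessel _ hh) (N2_nonneg _)

/-- the pairs near the diagonal -/
theorem near_est : ∃ C > 0, ∀ (N : ℕ) (A : ℝ) (W : Finset (ℕ × ℕ)) (f : ℕ → S2 → ℂ), 64 ≤ N →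
    W ⊆ (Win N A).filter (fun p => (p.1 - p.2) ^ 2 < N ∧ (p.2 - p.1) ^ 2 < N) →
    (∀ n, Har n (f n)) →
      N2 (fun x => ∑ p ∈ W, f p.1 x * f p.2 x) ≤
        C * (N : ℝ) ^ (3 / 4 : ℝ) * (1 + Real.log N) * ∑ p ∈ W, N2 (f p.1) * N2 (f p.2) := by
  obtain ⟨C1, hC1, hhigh⟩ := near_high
  obtain ⟨C2, hC2, hlow⟩ := low_prod
  obtain ⟨C3, hC3, hcount⟩ := count_near
  refine ⟨2 * (C1 + 3 * C3 * C2), by positivity, fun N A W f hN hW hf => ?_⟩
  have hNr : (64 : ℝ) ≤ N := by exact_mod_cast hN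
  have hlog : 0 ≤ Real.log N := Real.log_nonneg (by linarith)
  set S := ∑ p ∈ W, N2 (f p.1) * N2 (f p.2) with hS
  have hS0 : 0 ≤ S := Finset.sum_nonneg fun p _ => mul_nonneg (N2_nonneg _) (N2_nonneg _)
  set h : S2 → ℂ := fun x => ∑ p ∈ W, f p.1 x * f p.2 x with hh
  have hc : Continuous h := continuous_finsetSum _ fun p _ => (hf p.1).cont.mul (hf p.2).cont
  -- the threshold
  set L : ℕ := Nat.sqrt (4 * N) + 1 with hL
  have hsqrt8 : (8 : ℝ) ≤ √N := by
    rw [show (8 : ℝ) = √64 by rw [show (64 : ℝ) = 8 ^ 2 by norm_num]; simp]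
    exact Real.sqrt_le_sqrt hNr
  have hNN : √(N : ℝ) * √N = N := Real.mul_self_sqrt (by linarith)
  have hL1 : (L : ℝ) ≤ 3 * √N := by
    have e1 : ((Nat.sqrt (4 * N) : ℕ) : ℝ) ≤ √((4 * N : ℕ) : ℝ) := Real.nat_sqrt_le_real_sqrt
    have e2 : √((4 * N : ℕ) : ℝ) = 2 * √N := by
      push_cast
      rw [show (4 : ℝ) * N = 2 ^ 2 * N by norm_num, Real.sqrt_mul (by norm_num), Real.sqrt_sq
        (by norm_num)]
    rw [hL]; push_cast
    linarith
  have hL2 : 2 * L ≤ N := by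
    have : (2 : ℝ) * L ≤ N := by nlinarith
    exact_mod_cast this
  have hL3 : ∀ j, L ≤ j → 4 * N ≤ j ^ 2 := by
    intro j hj
    have h1 : 4 * N < (Nat.sqrt (4 * N) + 1) ^ 2 := Nat.lt_succ_sqrt' (4 * N)
    have h2 : (Nat.sqrt (4 * N) + 1) ^ 2 ≤ j ^ 2 := Nat.pow_le_pow_left hj 2
    omega
  -- low and high parts
  set hlo : S2 → ℂ := fun x => ∑ l ∈ Finset.range L, proj l h x with hhlo
  have hloc : Continuous hlo := continuous_finsetSum _ fun l _ => proj_cont l hc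
  set hhi : S2 → ℂ := fun x => h x - hlo x with hhhi
  have hhic : Continuous hhi := hc.sub hloc
  have hhiN : N2 hhi ≤ N2 h := bessel_compl _ hc
  have hproj : ∀ j, j < L → proj j hhi = fun _ => 0 := by
    intro j hj
    funext x
    rw [hhhi, proj_sub j hc hloc, hhlo, proj_sum j _ fun l _ => proj_cont l hc,
      Finset.sum_eq_single j]
    · rw [proj_proj j j hc, if_pos rfl, sub_self]
    · intro l _ hl
      exact proj_proj_ne (Ne.symm hl) hc x
    · intro hj'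
      exact absurd (Finset.mem_range.2 hj) hj'
  -- first integral
  have hI1 : ‖∫ x, h x * (starRingEnd ℂ) (hhi x) ∂σ‖ ^ 2 ≤
      S * (C1 * (N : ℝ) ^ (3 / 4 : ℝ) * (1 + Real.log N) * N2 h) := by
    have e := rr_sup W (fun p => p.1) (fun p => p.2) (fun p => f p.1) (fun p => f p.2)
      (fun p => hf p.1) (fun p => hf p.2) hhic
      (lam := C1 * (N : ℝ) ^ (3 / 4 : ℝ) * (1 + Real.log N)) ?_
    · have hpos : 0 ≤ C1 * (N : ℝ) ^ (3 / 4 : ℝ) * (1 + Real.log N) := by positivity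
      rw [max_eq_left hpos] at e
      refine e.trans ?_
      gcongr
    · intro j hj
      have hjL : L ≤ j := by
        by_contra hlt
        exact hj (hproj j (not_le.1 hlt))
      refine le_trans ?_ (hhigh N A j hN (hL3 j hjL))
      exact Finset.sum_le_sum_of_subset_of_nonneg hW fun p _ _ => kb_nonneg _ _ _
  -- second integral
  have hcard : (W.card : ℝ) ≤ C3 * (N : ℝ) ^ (1 / 4 : ℝ) * √(1 + Real.log N) := by
    refine le_trans ?_ (hcount N A hN)
    exact_mod_cast Finset.card_le_card hW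
  have hterm : ∀ p ∈ W, ‖∫ x, f p.1 x * f p.2 x * (starRingEnd ℂ) (hlo x) ∂σ‖ ^ 2 ≤
      (C2 * L * N2 h) * (N2 (f p.1) * N2 (f p.2)) := by
    intro p hp
    have hpN : N ≤ p.1 := by
      have := hW hp
      rw [Finset.mem_filter] at this
      have h2 := this.1
      unfold Win at h2
      rw [Finset.mem_filter, Finset.mem_product, Finset.mem_Ico] at h2
      exact h2.1.1.1
    have e1 : ∫ x, f p.1 x * f p.2 x * (starRingEnd ℂ) (hlo x) ∂σ =
        inn (f p.2) (fun x => (starRingEnd ℂ) (f p.1 x) * hlo x) := by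
      unfold inn
      refine integral_congr_ae (Eventually.of_forall fun x => ?_)
      simp only [map_mul, Complex.conj_conj]
      ring
    have hcc : Continuous (fun x => (starRingEnd ℂ) (f p.1 x)) :=
      continuous_conj.comp (hf p.1).cont
    have e2 := norm_inn_le (hf p.2).cont (hcc.mul hloc)
    have e3 := hlow p.1 L (fun x => (starRingEnd ℂ) (f p.1 x)) h (by omega)
      (har_conj (hf p.1)) hc
    rw [N2_conj] at e3
    rw [e1]
    refine e2.trans ?_
    refine (mul_le_mul_of_nonneg_left e3 (N2_nonneg _)).trans (le_of_eq ?_)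
    ring
  have hI2 : ‖∫ x, h x * (starRingEnd ℂ) (hlo x) ∂σ‖ ^ 2 ≤
      W.card * ((C2 * L * N2 h) * S) := by
    have e1 : ∫ x, h x * (starRingEnd ℂ) (hlo x) ∂σ =
        ∑ p ∈ W, ∫ x, f p.1 x * f p.2 x * (starRingEnd ℂ) (hlo x) ∂σ := by
      rw [← integral_finsetSum]
      · simp only [hh, Finset.sum_mul]
      · intro p _
        exact integrable_of_cont (((hf p.1).cont.mul (hf p.2).cont).mul
          (continuous_conj.comp hloc))
    rw [e1]
    have e2 : ‖∑ p ∈ W, ∫ x, f p.1 x * f p.2 x * (starRingEnd ℂ) (hlo x) ∂σ‖ ^ 2 ≤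
        (∑ p ∈ W, ‖∫ x, f p.1 x * f p.2 x * (starRingEnd ℂ) (hlo x) ∂σ‖) ^ 2 := by
      gcongr
      exact norm_sum_le _ _
    refine e2.trans ((sq_sum_le_card_mul_sum_sq).trans ?_)
    refine mul_le_mul_of_nonneg_left ?_ (by positivity)
    rw [hS, Finset.mul_sum]
    exact Finset.sum_le_sum hterm
  -- combine
  have hsplit : (N2 h : ℂ) = ∫ x, h x * (starRingEnd ℂ) (hhi x) ∂σ
      + ∫ x, h x * (starRingEnd ℂ) (hlo x) ∂σ := by
    rw [← inn_self, ← integral_add (inn_integrable hc hhic) (inn_integrable hc hloc)]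
    unfold inn
    refine integral_congr_ae (Eventually.of_forall fun x => ?_)
    simp only [hhhi, map_sub]
    ring
  have hnorm : N2 h ≤ ‖∫ x, h x * (starRingEnd ℂ) (hhi x) ∂σ‖
      + ‖∫ x, h x * (starRingEnd ℂ) (hlo x) ∂σ‖ := by
    have e1 : N2 h = ‖(N2 h : ℂ)‖ := by
      rw [Complex.norm_real, Real.norm_eq_abs, abs_of_nonneg (N2_nonneg _)]
    rw [e1, hsplit]
    exact norm_add_le _ _
  have hsq : N2 h ^ 2 ≤ 2 * ‖∫ x, h x * (starRingEnd ℂ) (hhi x) ∂σ‖ ^ 2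
      + 2 * ‖∫ x, h x * (starRingEnd ℂ) (hlo x) ∂σ‖ ^ 2 := by
    have e1 : N2 h ^ 2 ≤ (‖∫ x, h x * (starRingEnd ℂ) (hhi x) ∂σ‖
      + ‖∫ x, h x * (starRingEnd ℂ) (hlo x) ∂σ‖) ^ 2 := by
      have := N2_nonneg h
      gcongr
    nlinarith [sq_nonneg (‖∫ x, h x * (starRingEnd ℂ) (hhi x) ∂σ‖
      - ‖∫ x, h x * (starRingEnd ℂ) (hlo x) ∂σ‖)]
  -- numerical bound for the second term
  have hnum : (W.card : ℝ) * (C2 * L) ≤
      3 * C3 * C2 * ((N : ℝ) ^ (3 / 4 : ℝ) * (1 + Real.log N)) := by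
    have e1 : (N : ℝ) ^ (1 / 4 : ℝ) * √N = (N : ℝ) ^ (3 / 4 : ℝ) := by
      rw [Real.sqrt_eq_rpow, ← Real.rpow_add (by linarith)]
      norm_num
    have e2 : √(1 + Real.log N) ≤ 1 + Real.log N := by
      rw [Real.sqrt_le_left (by linarith)]
      nlinarith
    calc (W.card : ℝ) * (C2 * L)
        ≤ (C3 * (N : ℝ) ^ (1 / 4 : ℝ) * √(1 + Real.log N)) * (C2 * (3 * √N)) := by gcongr
      _ = 3 * C3 * C2 * (((N : ℝ) ^ (1 / 4 : ℝ) * √N) * √(1 + Real.log N)) := by ring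
      _ ≤ _ := by
        rw [e1]
        gcongr
  refine self_improve (N2_nonneg _) ?_ (hsq.trans ?_)
  · positivity
  · have hNh := N2_nonneg h
    calc 2 * ‖∫ x, h x * (starRingEnd ℂ) (hhi x) ∂σ‖ ^ 2
          + 2 * ‖∫ x, h x * (starRingEnd ℂ) (hlo x) ∂σ‖ ^ 2
        ≤ 2 * (S * (C1 * (N : ℝ) ^ (3 / 4 : ℝ) * (1 + Real.log N) * N2 h))
          + 2 * (W.card * ((C2 * L * N2 h) * S)) := by gcongr
      _ = 2 * (S * (C1 * (N : ℝ) ^ (3 / 4 : ℝ) * (1 + Real.log N) * N2 h))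
          + 2 * ((W.card * (C2 * L)) * (N2 h * S)) := by ring
      _ ≤ 2 * (S * (C1 * (N : ℝ) ^ (3 / 4 : ℝ) * (1 + Real.log N) * N2 h))
          + 2 * ((3 * C3 * C2 * ((N : ℝ) ^ (3 / 4 : ℝ) * (1 + Real.log N))) * (N2 h * S)) := by
        gcongr
      _ = _ := by ring

/-- the bilinear estimate for (a subset of) a window -/
theorem window_est : ∃ C > 0, ∀ (N : ℕ) (A : ℝ) (W : Finset (ℕ × ℕ)) (f : ℕ → S2 → ℂ), 64 ≤ N →
    W ⊆ Win N A → (∀ n, Har n (f n)) →
      N2 (fun x => ∑ p ∈ W, f p.1 x * f p.2 x) ≤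
        C * (N : ℝ) ^ (3 / 4 : ℝ) * (1 + Real.log N) ^ 2 * ∑ p ∈ W, N2 (f p.1) * N2 (f p.2) := by
  obtain ⟨C1, hC1, hnear⟩ := near_est
  obtain ⟨C2, hC2, hfar⟩ := far_sum
  refine ⟨2 * C1 + 2 * C2, by positivity, fun N A W f hN hW hf => ?_⟩
  have hNr : (64 : ℝ) ≤ N := by exact_mod_cast hN
  have hlog : 0 ≤ Real.log N := Real.log_nonneg (by linarith)
  set S := ∑ p ∈ W, N2 (f p.1) * N2 (f p.2) with hS
  have hterm0 : ∀ p : ℕ × ℕ, 0 ≤ N2 (f p.1) * N2 (f p.2) :=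
    fun p => mul_nonneg (N2_nonneg _) (N2_nonneg _)
  have hS0 : 0 ≤ S := Finset.sum_nonneg fun p _ => hterm0 p
  set P : ℕ × ℕ → Prop := fun p => (p.1 - p.2) ^ 2 < N ∧ (p.2 - p.1) ^ 2 < N with hP
  have hsplit : (fun x => ∑ p ∈ W, f p.1 x * f p.2 x) =
      fun x => (∑ p ∈ W.filter P, f p.1 x * f p.2 x)
        + ∑ p ∈ W.filter (fun p => ¬ P p), f p.1 x * f p.2 x := by
    funext x
    exact (Finset.sum_filter_add_sum_filter_not W P _).symm
  have hc : ∀ s : Finset (ℕ × ℕ), Continuous (fun x => ∑ p ∈ s, f p.1 x * f p.2 x) :=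
    fun s => continuous_finsetSum _ fun p _ => (hf p.1).cont.mul (hf p.2).cont
  have h1 := hnear N A (W.filter P) f hN (Finset.filter_subset_filter _ hW) hf
  have h2 := rr_self (W.filter (fun p => ¬ P p)) (fun p => p.1) (fun p => p.2)
    (fun p => f p.1) (fun p => f p.2) (fun p => hf p.1) (fun p => hf p.2)
    (lam := C2 * (N : ℝ) ^ (3 / 4 : ℝ) * (1 + Real.log N) ^ 2) (fun j =>
      (Finset.sum_le_sum_of_subset_of_nonneg (Finset.filter_subset_filter _ hW)
        fun p _ _ => kb_nonneg _ _ _).trans (hfar N A j hN))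
  have hpos : 0 ≤ C2 * (N : ℝ) ^ (3 / 4 : ℝ) * (1 + Real.log N) ^ 2 := by positivity
  rw [max_eq_left hpos] at h2
  have h3 : ∑ p ∈ W.filter P, N2 (f p.1) * N2 (f p.2) ≤ S :=
    Finset.sum_le_sum_of_subset_of_nonneg (Finset.filter_subset _ _) fun p _ _ => hterm0 p
  have h4 : ∑ p ∈ W.filter (fun p => ¬ P p), N2 (f p.1) * N2 (f p.2) ≤ S :=
    Finset.sum_le_sum_of_subset_of_nonneg (Finset.filter_subset _ _) fun p _ _ => hterm0 p
  rw [hsplit]
  refine (N2_add_le (hc _) (hc _)).trans ?_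
  have h5 : C1 * (N : ℝ) ^ (3 / 4 : ℝ) * (1 + Real.log N) ≤
      C1 * (N : ℝ) ^ (3 / 4 : ℝ) * (1 + Real.log N) ^ 2 := by
    have : 1 + Real.log N ≤ (1 + Real.log N) ^ 2 := by nlinarith
    gcongr
  calc 2 * N2 (fun x => ∑ p ∈ W.filter P, f p.1 x * f p.2 x)
        + 2 * N2 (fun x => ∑ p ∈ W.filter (fun p => ¬ P p), f p.1 x * f p.2 x)
      ≤ 2 * (C1 * (N : ℝ) ^ (3 / 4 : ℝ) * (1 + Real.log N) ^ 2 * S)
        + 2 * (C2 * (N : ℝ) ^ (3 / 4 : ℝ) * (1 + Real.log N) ^ 2 * S) := by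
        have e1 := h1.trans (mul_le_mul h5 h3 (Finset.sum_nonneg fun p _ => hterm0 p)
          (by positivity))
        have e2 := h2.trans (mul_le_mul_of_nonneg_left h4 hpos)
        exact add_le_add (mul_le_mul_of_nonneg_left e1 (by norm_num))
          (mul_le_mul_of_nonneg_left e2 (by norm_num))
    _ = _ := by ring

end

end Pool.Agent.DW
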