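import Pool.Agent.DW.Bil2

/-!
# Module F: integration in time, the `L⁴` estimate for a dyadic block
-/

open MeasureTheory Metric Complex Filter Topology Real
open scoped ENNReal NNReal RealInnerProductSpace
namespace Pool.Agent.DW
noncomputable section

theorem int_exp_diff (A B : ℕ) :
    ∫ t in (0 : ℝ)..2 * π, cexp (I * t * A) * (starRingEnd ℂ) (cexp (I * t * B)) =
      if A = B then (2 * π : ℂ) else 0 := by
  have e : ∀ t : ℝ, cexp (I * t * A) * (starRingEnd ℂ) (cexp (I * t * B)) =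
      cexp ((I * ((A : ℂ) - B)) * t) := by
    intro t
    rw [← Complex.exp_conj, ← Complex.exp_add]
    congr 1
    simp only [map_mul, Complex.conj_I, conj_ofReal, map_natCast]
    ring
  simp_rw [e]
  by_cases h : A = B
  · subst h
    rw [if_pos rfl]
    simp
  · rw [if_neg h]
    have hne : I * ((A : ℂ) - B) ≠ 0 := by
      refine mul_ne_zero I_ne_zero (sub_ne_zero.2 ?_)
      exact_mod_cast h
    rw [integral_exp_mul_complex hne]
    have h1 : cexp (I * ((A : ℂ) - B) * ((2 * π : ℝ) : ℂ)) = 1 := by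
      rw [Complex.exp_eq_one_iff]
      refine ⟨(A : ℤ) - B, ?_⟩
      push_cast
      ring
    rw [h1]
    simp

theorem parseval_trig (K : ℕ) (F : ℕ → ℂ) :
    ∫ t in (0 : ℝ)..2 * π, ‖∑ A ∈ Finset.range K, cexp (I * t * A) * F A‖ ^ 2 =
      2 * π * ∑ A ∈ Finset.range K, ‖F A‖ ^ 2 := by
  have h1 : ((∫ t in (0 : ℝ)..2 * π, ‖∑ A ∈ Finset.range K, cexp (I * t * A) * F A‖ ^ 2 : ℝ) : ℂ)
      = ((2 * π * ∑ A ∈ Finset.range K, ‖F A‖ ^ 2 : ℝ) : ℂ) := by
    rw [← intervalIntegral.integral_ofReal]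
    have e1 : ∀ t : ℝ, ((‖∑ A ∈ Finset.range K, cexp (I * t * A) * F A‖ ^ 2 : ℝ) : ℂ) =
        ∑ A ∈ Finset.range K, ∑ B ∈ Finset.range K,
          (F A * (starRingEnd ℂ) (F B)) *
            (cexp (I * t * A) * (starRingEnd ℂ) (cexp (I * t * B))) := by
      intro t
      push_cast
      rw [← Complex.mul_conj', map_sum, Finset.sum_mul_sum]
      refine Finset.sum_congr rfl fun A _ => Finset.sum_congr rfl fun B _ => ?_
      rw [map_mul]
      ring
    simp_rw [e1]
    have hcont : ∀ A B : ℕ, Continuous (fun t : ℝ => (F A * (starRingEnd ℂ) (F B)) *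
            (cexp (I * t * A) * (starRingEnd ℂ) (cexp (I * t * B)))) := by
      intro A B
      refine continuous_const.mul (Continuous.mul ?_ (continuous_conj.comp ?_)) <;>
      fun_prop
    rw [intervalIntegral.integral_finsetSum]
    · push_cast
      rw [Finset.mul_sum]
      refine Finset.sum_congr rfl fun A hA => ?_
      rw [intervalIntegral.integral_finsetSum]
      · rw [Finset.sum_eq_single A]
        · rw [intervalIntegral.integral_const_mul, int_exp_diff, if_pos rfl, Complex.mul_conj']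
          ring
        · intro B _ hB
          rw [intervalIntegral.integral_const_mul, int_exp_diff, if_neg (Ne.symm hB), mul_zero]
        · intro h; exact absurd hA h
      · intro B _
        exact (hcont A B).intervalIntegrable _ _
    · intro A _
      exact (continuous_finsetSum _ fun B _ => hcont A B).intervalIntegrable _ _
  exact_mod_cast h1


/-- the simplest form of Jensen's inequality -/
theorem jensen_sq {u : ℝ → ℝ} (h1 : IntervalIntegrable u volume 0 1)
    (h2 : IntervalIntegrable (fun r => u r ^ 2) volume 0 1) :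
    (∫ r in (0 : ℝ)..1, u r) ^ 2 ≤ ∫ r in (0 : ℝ)..1, u r ^ 2 := by
  set m := ∫ r in (0 : ℝ)..1, u r with hm
  have h : 0 ≤ ∫ r in (0 : ℝ)..1, (u r - m) ^ 2 :=
    intervalIntegral.integral_nonneg (by norm_num) fun r _ => sq_nonneg _
  have e : ∫ r in (0 : ℝ)..1, (u r - m) ^ 2 =
      ∫ r in (0 : ℝ)..1, (u r ^ 2 - (2 * m) * u r) + m ^ 2 := by
    refine intervalIntegral.integral_congr fun r _ => ?_
    ring
  rw [e, intervalIntegral.integral_add (h2.sub (h1.const_mul _)) intervalIntegrable_const,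
    intervalIntegral.integral_sub h2 (h1.const_mul _), intervalIntegral.integral_const_mul,
    ← hm, intervalIntegral.integral_const] at h
  simp only [sub_zero, one_smul] at h
  nlinarith

theorem intble_of_bdd {E : Type*} [NormedAddCommGroup E] {f : ℝ → E} (a b : ℝ)
    (hf : AEStronglyMeasurable f volume) (C : ℝ) (hC : ∀ r, ‖f r‖ ≤ C) :
    IntervalIntegrable f volume a b := by
  rw [intervalIntegrable_iff]
  have : IsFiniteMeasure (volume.restrict (Set.uIoc a b)) := by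
    unfold Set.uIoc; infer_instance
  exact Integrable.of_bound hf.restrict C (Eventually.of_forall hC)

theorem int_exp_ite (t θ : ℝ) (h0 : 0 ≤ θ) (h1 : θ ≤ 1) :
    ∫ r in (0 : ℝ)..1, (I * t * cexp (I * t * r)) * (if r < θ then (1 : ℂ) else 0) =
      cexp (I * t * θ) - 1 := by
  have e1 : ∫ r in (0 : ℝ)..1, (I * t * cexp (I * t * r)) * (if r < θ then (1 : ℂ) else 0) =
      ∫ r in (0 : ℝ)..θ, I * t * cexp (I * t * r) := by
    rw [intervalIntegral.integral_of_le (by norm_num : (0 : ℝ) ≤ 1),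
      intervalIntegral.integral_of_le h0, integral_Ioc_eq_integral_Ioo (x := 0) (y := θ)]
    have e2 : ∀ r : ℝ, (I * t * cexp (I * t * r)) * (if r < θ then (1 : ℂ) else 0) =
        (Set.Iio θ).indicator (fun r : ℝ => I * t * cexp (I * t * r)) r := by
      intro r
      by_cases h : r < θ
      · rw [Set.indicator_of_mem (show r ∈ Set.Iio θ from h), if_pos h, mul_one]
      · rw [Set.indicator_of_notMem (show r ∉ Set.Iio θ from h), if_neg h, mul_zero]
    simp_rw [e2]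
    rw [setIntegral_indicator measurableSet_Iio]
    congr 2
    ext r
    simp only [Set.mem_inter_iff, Set.mem_Ioc, Set.mem_Iio, Set.mem_Ioo]
    constructor
    · rintro ⟨⟨a, b⟩, c⟩; exact ⟨a, c⟩
    · rintro ⟨a, c⟩; exact ⟨⟨a, by linarith⟩, c⟩
  rw [e1]
  have hd : ∀ r ∈ Set.uIcc 0 θ, HasDerivAt (fun r : ℝ => cexp (I * t * r))
      (I * t * cexp (I * t * r)) r := by
    intro r _
    have h1 : HasDerivAt (fun r : ℝ => I * t * (r : ℂ)) (I * t * 1) r :=
      (Complex.ofRealCLM.hasDerivAt (x := r)).const_mul (I * t)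
    have h2 := h1.cexp
    rw [mul_one] at h2
    exact h2.congr_deriv (by ring)
  rw [intervalIntegral.integral_eq_sub_of_hasDerivAt hd]
  · simp
  · exact (by fun_prop : Continuous fun r : ℝ => I * t * cexp (I * t * r)).intervalIntegrable _ _

/-- one-dimensional inequality: grouping the frequencies in unit windows -/
theorem time_window {ι : Type} (s : Finset ι) (lam : ι → ℝ) (hlam : ∀ i, 0 ≤ lam i) (c : ι → ℂ)
    (K : ℕ) (hK : ∀ i ∈ s, ⌊lam i⌋₊ < K) :
    ∫ t in (0 : ℝ)..1, ‖∑ i ∈ s, cexp (I * t * lam i) * c i‖ ^ 2 ≤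
      4 * π * ∑ A ∈ Finset.range K, ‖∑ i ∈ s with ⌊lam i⌋₊ = A, c i‖ ^ 2
      + 4 * π * ∫ r in (0 : ℝ)..1, ∑ A ∈ Finset.range K,
          ‖∑ i ∈ s with (⌊lam i⌋₊ = A ∧ r < lam i - ⌊lam i⌋₊), c i‖ ^ 2 := by
  classical
  set θ : ι → ℝ := fun i => lam i - ⌊lam i⌋₊ with hθ
  have hθ0 : ∀ i, 0 ≤ θ i := fun i => sub_nonneg.2 (Nat.floor_le (hlam i))
  have hθ1 : ∀ i, θ i ≤ 1 := fun i => by
    have := Nat.lt_floor_add_one (lam i)
    simp only [hθ]; linarith
  -- grouping
  have hgroup : ∀ (d : ι → ℂ) (t : ℝ), ∑ i ∈ s, cexp (I * t * (⌊lam i⌋₊ : ℕ)) * d i =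
      ∑ A ∈ Finset.range K, cexp (I * t * A) * ∑ i ∈ s with ⌊lam i⌋₊ = A, d i := by
    intro d t
    rw [← Finset.sum_fiberwise_of_maps_to (s := s) (t := Finset.range K)
      (g := fun i => ⌊lam i⌋₊) (fun i hi => Finset.mem_range.2 (hK i hi))]
    refine Finset.sum_congr rfl fun A _ => ?_
    rw [Finset.mul_sum]
    refine Finset.sum_congr rfl fun i hi => ?_
    rw [(Finset.mem_filter.1 hi).2]
  obtain ⟨b, hb⟩ : ∃ b : ℝ → ℝ → ℂ, ∀ t r, b t r = ∑ i ∈ s, cexp (I * t * (⌊lam i⌋₊ : ℕ)) *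
    (if r < θ i then c i else 0) := ⟨_, fun _ _ => rfl⟩
  obtain ⟨a, ha⟩ : ∃ a : ℝ → ℂ, ∀ t, a t = ∑ i ∈ s, cexp (I * t * (⌊lam i⌋₊ : ℕ)) * c i :=
    ⟨_, fun _ => rfl⟩
  obtain ⟨M, hM⟩ : ∃ M : ℝ, M = ∑ i ∈ s, ‖c i‖ := ⟨_, rfl⟩
  have hexp : ∀ (t x : ℝ), ‖cexp (I * t * x)‖ = 1 := by
    intro t x
    have : I * (t : ℂ) * (x : ℂ) = ((t * x : ℝ) : ℂ) * I := by push_cast; ring
    rw [this, Complex.norm_exp_ofReal_mul_I]
  have hexpn : ∀ (t : ℝ) (n : ℕ), ‖cexp (I * t * n)‖ = 1 := by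
    intro t n
    have := hexp t n
    simpa using this
  have hbM : ∀ t r, ‖b t r‖ ≤ M := by
    intro t r
    rw [hb, hM]
    refine (norm_sum_le _ _).trans (Finset.sum_le_sum fun i _ => ?_)
    rw [norm_mul, hexpn, one_mul]
    split
    · exact le_rfl
    · simp
  have hbm : Measurable (fun p : ℝ × ℝ => b p.1 p.2) := by
    simp only [hb]
    refine Finset.measurable_fun_sum _ fun i _ => Measurable.mul ?_ ?_
    · exact (by fun_prop : Continuous fun p : ℝ × ℝ =>
        cexp (I * p.1 * (⌊lam i⌋₊ : ℕ))).measurable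
    · exact Measurable.ite (measurableSet_lt measurable_snd measurable_const)
        measurable_const measurable_const
  have hbr : ∀ t, Measurable (fun r => b t r) := fun t =>
    hbm.comp (by fun_prop : Measurable fun r : ℝ => (t, r))
  have hbt : ∀ r, Measurable (fun t => b t r) := fun r =>
    hbm.comp (by fun_prop : Measurable fun t : ℝ => (t, r))
  have hb2 : ∀ t r, ‖‖b t r‖ ^ 2‖ ≤ M ^ 2 := by
    intro t r
    rw [norm_pow, norm_norm]
    exact pow_le_pow_left₀ (norm_nonneg _) (hbM t r) 2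
  have hi2 : ∀ (t x y : ℝ), IntervalIntegrable (fun r => ‖b t r‖ ^ 2) volume x y := fun t x y =>
    intble_of_bdd x y ((hbr t).norm.pow_const 2).aestronglyMeasurable (M ^ 2) (hb2 t)
  have hi2t : ∀ (r x y : ℝ), IntervalIntegrable (fun t => ‖b t r‖ ^ 2) volume x y := fun r x y =>
    intble_of_bdd x y ((hbt r).norm.pow_const 2).aestronglyMeasurable (M ^ 2) (fun t => hb2 t r)
  have hi1 : ∀ (t x y : ℝ), IntervalIntegrable (fun r => ‖b t r‖) volume x y := fun t x y =>
    intble_of_bdd x y (hbr t).norm.aestronglyMeasurable M (fun r => by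
      rw [norm_norm]; exact hbM t r)
  -- the decomposition
  have hdec : ∀ t : ℝ, ∑ i ∈ s, cexp (I * t * lam i) * c i =
      a t + ∫ r in (0 : ℝ)..1, (I * t * cexp (I * t * r)) * b t r := by
    intro t
    have e1 : ∫ r in (0 : ℝ)..1, (I * t * cexp (I * t * r)) * b t r =
        ∑ i ∈ s, (cexp (I * t * θ i) - 1) * (cexp (I * t * (⌊lam i⌋₊ : ℕ)) * c i) := by
      have e2 : ∀ r : ℝ, (I * t * cexp (I * t * r)) * b t r =
          ∑ i ∈ s, ((I * t * cexp (I * t * r)) * (if r < θ i then (1 : ℂ) else 0)) *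
            (cexp (I * t * (⌊lam i⌋₊ : ℕ)) * c i) := by
        intro r
        simp only [hb, Finset.mul_sum]
        refine Finset.sum_congr rfl fun i _ => ?_
        split <;> ring
      simp_rw [e2]
      rw [intervalIntegral.integral_finsetSum]
      · refine Finset.sum_congr rfl fun i _ => ?_
        rw [intervalIntegral.integral_mul_const, int_exp_ite t (θ i) (hθ0 i) (hθ1 i)]
      · intro i _
        refine IntervalIntegrable.mul_const ?_ _
        refine intble_of_bdd 0 1 ?_ |t| ?_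
        · refine (Measurable.mul ?_ ?_).aestronglyMeasurable
          · exact (by fun_prop : Continuous fun r : ℝ => I * t * cexp (I * t * r)).measurable
          · exact Measurable.ite (measurableSet_lt measurable_id measurable_const)
              measurable_const measurable_const
        · intro r
          rw [norm_mul, norm_mul, hexp, norm_mul, norm_I, Complex.norm_real, Real.norm_eq_abs]
          split
          · simp
          · simp
    rw [e1, ha, ← Finset.sum_add_distrib]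
    refine Finset.sum_congr rfl fun i _ => ?_
    have e3 : cexp (I * t * lam i) = cexp (I * t * θ i) * cexp (I * t * (⌊lam i⌋₊ : ℕ)) := by
      rw [← Complex.exp_add]
      congr 1
      simp only [hθ]
      push_cast
      ring
    rw [e3]
    ring
  -- pointwise inequality
  have hpt : ∀ t ∈ Set.Icc (0 : ℝ) 1, ‖∑ i ∈ s, cexp (I * t * lam i) * c i‖ ^ 2 ≤
      2 * ‖a t‖ ^ 2 + 2 * ∫ r in (0 : ℝ)..1, ‖b t r‖ ^ 2 := by
    intro t ht
    have e1 : ‖∫ r in (0 : ℝ)..1, (I * t * cexp (I * t * r)) * b t r‖ ≤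
        ∫ r in (0 : ℝ)..1, ‖b t r‖ := by
      refine intervalIntegral.norm_integral_le_of_norm_le (by norm_num) ?_ (hi1 t 0 1)
      refine Eventually.of_forall fun r _ => ?_
      rw [norm_mul, norm_mul, hexp, norm_mul, norm_I, Complex.norm_real, Real.norm_eq_abs,
        abs_of_nonneg ht.1]
      nlinarith [norm_nonneg (b t r), ht.2]
    have e2 := jensen_sq (hi1 t 0 1) (hi2 t 0 1)
    have e3 : ‖∫ r in (0 : ℝ)..1, (I * t * cexp (I * t * r)) * b t r‖ ^ 2 ≤
        ∫ r in (0 : ℝ)..1, ‖b t r‖ ^ 2 := le_trans (by gcongr) e2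
    rw [hdec t]
    have e4 := norm_add_le (a t) (∫ r in (0 : ℝ)..1, (I * t * cexp (I * t * r)) * b t r)
    have e5 : ‖a t + ∫ r in (0 : ℝ)..1, (I * t * cexp (I * t * r)) * b t r‖ ^ 2 ≤
        (‖a t‖ + ‖∫ r in (0 : ℝ)..1, (I * t * cexp (I * t * r)) * b t r‖) ^ 2 := by gcongr
    nlinarith [sq_nonneg (‖a t‖ - ‖∫ r in (0 : ℝ)..1, (I * t * cexp (I * t * r)) * b t r‖)]
  -- integrability in `t`
  have hprod : Integrable (fun p : ℝ × ℝ => ‖b p.1 p.2‖ ^ 2)
      ((volume.restrict (Set.Ioc (0 : ℝ) 1)).prod (volume.restrict (Set.Ioc (0 : ℝ) 1))) := by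
    refine Integrable.of_bound (hbm.norm.pow_const 2).aestronglyMeasurable (M ^ 2)
      (Eventually.of_forall fun p => hb2 p.1 p.2)
  have hswap : ∫ t in (0 : ℝ)..1, ∫ r in (0 : ℝ)..1, ‖b t r‖ ^ 2 =
      ∫ r in (0 : ℝ)..1, ∫ t in (0 : ℝ)..1, ‖b t r‖ ^ 2 := by
    rw [intervalIntegral.integral_of_le (by norm_num : (0 : ℝ) ≤ 1),
      intervalIntegral.integral_of_le (by norm_num : (0 : ℝ) ≤ 1)]
    simp_rw [intervalIntegral.integral_of_le (by norm_num : (0 : ℝ) ≤ 1)]
    exact integral_integral_swap hprod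
  have hint_b : IntervalIntegrable (fun t => ∫ r in (0 : ℝ)..1, ‖b t r‖ ^ 2) volume 0 1 := by
    rw [intervalIntegrable_iff]
    simp_rw [intervalIntegral.integral_of_le (by norm_num : (0 : ℝ) ≤ 1)]
    have := hprod.integral_prod_left
    rw [Set.uIoc_of_le (by norm_num : (0 : ℝ) ≤ 1)]
    exact this
  have hint_b' : IntervalIntegrable (fun r => ∫ t in (0 : ℝ)..1, ‖b t r‖ ^ 2) volume 0 1 := by
    rw [intervalIntegrable_iff]
    simp_rw [intervalIntegral.integral_of_le (by norm_num : (0 : ℝ) ≤ 1)]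
    have := hprod.integral_prod_right
    rw [Set.uIoc_of_le (by norm_num : (0 : ℝ) ≤ 1)]
    exact this
  have hac : Continuous a := by
    rw [show a = fun t : ℝ => ∑ i ∈ s, cexp (I * t * (⌊lam i⌋₊ : ℕ)) * c i from funext ha]
    refine continuous_finsetSum _ fun i _ => ?_
    fun_prop
  have hlc : Continuous (fun t : ℝ => ∑ i ∈ s, cexp (I * t * lam i) * c i) := by
    refine continuous_finsetSum _ fun i _ => ?_
    fun_prop
  have hπ : (1 : ℝ) ≤ 2 * π := by linarith [Real.pi_gt_three]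
  -- first term
  have h1 : ∫ t in (0 : ℝ)..1, ‖a t‖ ^ 2 ≤
      2 * π * ∑ A ∈ Finset.range K, ‖∑ i ∈ s with ⌊lam i⌋₊ = A, c i‖ ^ 2 := by
    have e1 : ∫ t in (0 : ℝ)..1, ‖a t‖ ^ 2 ≤ ∫ t in (0 : ℝ)..2 * π, ‖a t‖ ^ 2 := by
      refine intervalIntegral.integral_mono_interval le_rfl (by norm_num) hπ
        (Eventually.of_forall fun t => by positivity) ?_
      exact (hac.norm.pow 2).intervalIntegrable _ _
    refine e1.trans (le_of_eq ?_)
    rw [← parseval_trig]
    refine intervalIntegral.integral_congr fun t _ => ?_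
    simp only [ha]
    rw [hgroup]
  -- second term
  have h2 : ∫ r in (0 : ℝ)..1, ∫ t in (0 : ℝ)..1, ‖b t r‖ ^ 2 ≤
      2 * π * ∫ r in (0 : ℝ)..1, ∑ A ∈ Finset.range K,
          ‖∑ i ∈ s with (⌊lam i⌋₊ = A ∧ r < lam i - ⌊lam i⌋₊), c i‖ ^ 2 := by
    rw [← intervalIntegral.integral_const_mul]
    have e0 : ∀ r : ℝ, 2 * π * ∑ A ∈ Finset.range K,
          ‖∑ i ∈ s with (⌊lam i⌋₊ = A ∧ r < lam i - ⌊lam i⌋₊), c i‖ ^ 2 =
        ∫ t in (0 : ℝ)..2 * π, ‖b t r‖ ^ 2 := by
      intro r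
      rw [← parseval_trig]
      refine intervalIntegral.integral_congr fun t _ => ?_
      simp only [hb]
      rw [hgroup]
      congr 2
      refine Finset.sum_congr rfl fun A _ => ?_
      congr 1
      rw [← Finset.sum_filter, Finset.filter_filter]
    simp_rw [e0]
    refine intervalIntegral.integral_mono_on (by norm_num) hint_b' ?_ fun r _ => ?_
    · rw [intervalIntegrable_iff]
      have hprod2 : Integrable (fun p : ℝ × ℝ => ‖b p.2 p.1‖ ^ 2)
          ((volume.restrict (Set.Ioc (0 : ℝ) 1)).prod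
            (volume.restrict (Set.Ioc (0 : ℝ) (2 * π)))) := by
        refine Integrable.of_bound ((hbm.comp measurable_swap).norm.pow_const
          2).aestronglyMeasurable (M ^ 2) (Eventually.of_forall fun p => hb2 p.2 p.1)
      simp_rw [intervalIntegral.integral_of_le (by linarith : (0 : ℝ) ≤ 2 * π)]
      have := hprod2.integral_prod_left
      rw [Set.uIoc_of_le (by norm_num : (0 : ℝ) ≤ 1)]
      exact this
    · refine intervalIntegral.integral_mono_interval le_rfl (by norm_num) hπ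
        (Eventually.of_forall fun t => by positivity) (hi2t r _ _)
  have hia : IntervalIntegrable (fun t => ‖a t‖ ^ 2) volume 0 1 :=
    (hac.norm.pow 2).intervalIntegrable _ _
  have h3 : ∫ t in (0 : ℝ)..1, ‖∑ i ∈ s, cexp (I * t * lam i) * c i‖ ^ 2 ≤
      ∫ t in (0 : ℝ)..1, (2 * ‖a t‖ ^ 2 + 2 * ∫ r in (0 : ℝ)..1, ‖b t r‖ ^ 2) := by
    refine intervalIntegral.integral_mono_on (by norm_num)
      ((hlc.norm.pow 2).intervalIntegrable _ _) ?_ hpt
    exact (hia.const_mul 2).add (hint_b.const_mul 2)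
  rw [intervalIntegral.integral_add (hia.const_mul 2)
    (hint_b.const_mul 2), intervalIntegral.integral_const_mul,
    intervalIntegral.integral_const_mul, hswap] at h3
  nlinarith [h1, h2, h3]

theorem swap_bdd {G : S2 → ℝ → ℝ} (hm : Measurable (fun p : S2 × ℝ => G p.1 p.2)) (C : ℝ)
    (hC : ∀ x t, ‖G x t‖ ≤ C) :
    ∫ x, (∫ t in (0 : ℝ)..1, G x t) ∂σ = ∫ t in (0 : ℝ)..1, ∫ x, G x t ∂σ := by
  simp_rw [intervalIntegral.integral_of_le (by norm_num : (0 : ℝ) ≤ 1)]
  refine integral_integral_swap (Integrable.of_bound hm.aestronglyMeasurable C ?_)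
  exact Eventually.of_forall fun p => hC p.1 p.2

theorem intble_bdd {G : S2 → ℝ → ℝ} (hm : Measurable (fun p : S2 × ℝ => G p.1 p.2)) (C : ℝ)
    (hC : ∀ x t, ‖G x t‖ ≤ C) :
    Integrable (fun x => ∫ t in (0 : ℝ)..1, G x t) σ := by
  simp_rw [intervalIntegral.integral_of_le (by norm_num : (0 : ℝ) ≤ 1)]
  have h : Integrable (fun p : S2 × ℝ => G p.1 p.2)
      (σ.prod (volume.restrict (Set.Ioc (0 : ℝ) 1))) :=
    Integrable.of_bound hm.aestronglyMeasurable C (Eventually.of_forall fun p => hC p.1 p.2)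
  exact h.integral_prod_left

theorem har_bdd {f : S2 → ℂ} (hf : Continuous f) : ∃ M : ℝ, 0 ≤ M ∧ ∀ x, ‖f x‖ ≤ M := by
  obtain ⟨M, hM⟩ := isCompact_univ.exists_bound_of_continuousOn hf.continuousOn
  exact ⟨max M 0, le_max_right _ _, fun x => (hM x (Set.mem_univ x)).trans (le_max_left _ _)⟩

/-- the `L⁴` estimate for a block -/
theorem block_est : ∃ C > 0, ∀ (N : ℕ) (f : ℕ → S2 → ℂ), 64 ≤ N → (∀ n, Har n (f n)) →
    ∫ t in (0 : ℝ)..1, ∫ x, ‖∑ n ∈ Finset.Ico N (2 * N), cexp (I * t * Lam n) * f n x‖ ^ 4 ∂σ ≤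
      C * (N : ℝ) ^ (3 / 4 : ℝ) * (1 + Real.log N) ^ 2 * (∑ n ∈ Finset.Ico N (2 * N), N2 (f n)) ^ 2
    := by
  classical
  obtain ⟨C, hC, hwin⟩ := window_est
  refine ⟨8 * π * C, by positivity, fun N f hN hf => ?_⟩
  have hNr : (64 : ℝ) ≤ N := by exact_mod_cast hN
  have hlog : 0 ≤ Real.log N := Real.log_nonneg (by linarith)
  obtain ⟨B, hB⟩ : ∃ B : ℝ, B = C * (N : ℝ) ^ (3 / 4 : ℝ) * (1 + Real.log N) ^ 2 := ⟨_, rfl⟩
  have hB0 : 0 ≤ B := by rw [hB]; positivity
  obtain ⟨s, hs⟩ : ∃ s : Finset (ℕ × ℕ), s = Finset.Ico N (2 * N) ×ˢ Finset.Ico N (2 * N) :=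
    ⟨_, rfl⟩
  obtain ⟨lam, hlam⟩ : ∃ lam : ℕ × ℕ → ℝ, ∀ p, lam p = Lam p.1 + Lam p.2 := ⟨_, fun _ => rfl⟩
  have hlam0 : ∀ p, 0 ≤ lam p := fun p => by
    rw [hlam]; exact add_nonneg (Real.sqrt_nonneg _) (Real.sqrt_nonneg _)
  obtain ⟨c, hc⟩ : ∃ c : ℕ × ℕ → S2 → ℂ, ∀ p x, c p x = f p.1 x * f p.2 x := ⟨_, fun _ _ => rfl⟩
  have hcc : ∀ p, Continuous (c p) := fun p => by
    have : c p = fun x => f p.1 x * f p.2 x := funext (hc p)
    rw [this]; exact (hf p.1).cont.mul (hf p.2).cont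
  obtain ⟨K, hK⟩ : ∃ K : ℕ, ∀ p ∈ s, ⌊lam p⌋₊ < K :=
    ⟨s.sup (fun p => ⌊lam p⌋₊) + 1, fun p hp =>
      Nat.lt_succ_of_le (Finset.le_sup (f := fun p => ⌊lam p⌋₊) hp)⟩
  choose M hM0 hM using fun p => har_bdd (hcc p)
  obtain ⟨Mt, hMt⟩ : ∃ Mt : ℝ, Mt = ∑ p ∈ s, M p := ⟨_, rfl⟩
  have hMt0 : 0 ≤ Mt := by rw [hMt]; exact Finset.sum_nonneg fun p _ => hM0 p
  have hexp : ∀ (t x : ℝ), ‖cexp (I * t * x)‖ = 1 := by
    intro t x
    have : I * (t : ℂ) * (x : ℂ) = ((t * x : ℝ) : ℂ) * I := by push_cast; ring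
    rw [this, Complex.norm_exp_ofReal_mul_I]
  -- the fourth power as a square
  have h4 : ∀ (t : ℝ) (x : S2),
      ‖∑ n ∈ Finset.Ico N (2 * N), cexp (I * t * Lam n) * f n x‖ ^ 4 =
        ‖∑ p ∈ s, cexp (I * t * lam p) * c p x‖ ^ 2 := by
    intro t x
    have e1 : ∑ p ∈ s, cexp (I * t * lam p) * c p x =
        (∑ n ∈ Finset.Ico N (2 * N), cexp (I * t * Lam n) * f n x) ^ 2 := by
      rw [pow_two, Finset.sum_mul_sum, hs, Finset.sum_product]
      refine Finset.sum_congr rfl fun n _ => Finset.sum_congr rfl fun m _ => ?_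
      have e2 : cexp (I * t * lam (n, m)) = cexp (I * t * Lam n) * cexp (I * t * Lam m) := by
        rw [← Complex.exp_add, hlam]
        congr 1
        push_cast
        ring
      rw [e2, hc]
      ring
    rw [e1, norm_pow, ← pow_mul]
  simp_rw [h4]
  -- swap and apply the one-dimensional inequality
  have hGm : Measurable (fun p : S2 × ℝ => ‖∑ q ∈ s, cexp (I * p.2 * lam q) * c q p.1‖ ^ 2) := by
    have : Continuous (fun p : S2 × ℝ => ∑ q ∈ s, cexp (I * p.2 * lam q) * c q p.1) := by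
      refine continuous_finsetSum _ fun q _ => Continuous.mul ?_ ((hcc q).comp continuous_fst)
      fun_prop
    exact (this.norm.pow 2).measurable
  have hGb : ∀ (x : S2) (t : ℝ), ‖‖∑ q ∈ s, cexp (I * t * lam q) * c q x‖ ^ 2‖ ≤ Mt ^ 2 := by
    intro x t
    rw [norm_pow, norm_norm]
    refine pow_le_pow_left₀ (norm_nonneg _) ?_ 2
    rw [hMt]
    refine (norm_sum_le _ _).trans (Finset.sum_le_sum fun q _ => ?_)
    rw [norm_mul, hexp, one_mul]
    exact hM q x
  rw [← swap_bdd hGm (Mt ^ 2) hGb]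
  -- the function on the right
  obtain ⟨H, hH⟩ : ∃ H : S2 → ℝ → ℝ, ∀ x r, H x r = ∑ A ∈ Finset.range K,
      ‖∑ i ∈ s with (⌊lam i⌋₊ = A ∧ r < lam i - ⌊lam i⌋₊), c i x‖ ^ 2 := ⟨_, fun _ _ => rfl⟩
  have hHm : Measurable (fun p : S2 × ℝ => H p.1 p.2) := by
    simp only [hH]
    refine Finset.measurable_fun_sum _ fun A _ => (Measurable.norm ?_).pow_const 2
    simp only [Finset.sum_filter]
    refine Finset.measurable_fun_sum _ fun q _ => ?_
    refine Measurable.ite ?_ ((hcc q).measurable.comp measurable_fst) measurable_const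
    by_cases hq : ⌊lam q⌋₊ = A
    · have : {p : S2 × ℝ | ⌊lam q⌋₊ = A ∧ p.2 < lam q - ⌊lam q⌋₊} =
          {p : S2 × ℝ | p.2 < lam q - ⌊lam q⌋₊} := by
        ext p; simp [hq]
      rw [this]
      exact measurableSet_lt measurable_snd measurable_const
    · have : {p : S2 × ℝ | ⌊lam q⌋₊ = A ∧ p.2 < lam q - ⌊lam q⌋₊} = ∅ := by
        ext p; simp [hq]
      rw [this]
      exact MeasurableSet.empty
  have hsub : ∀ (P : ℕ × ℕ → Prop) [DecidablePred P] (x : S2), ‖∑ i ∈ s with P i, c i x‖ ≤ Mt := by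
    intro P _ x
    refine (norm_sum_le _ _).trans ?_
    rw [hMt]
    refine (Finset.sum_le_sum fun q _ => hM q x).trans ?_
    exact Finset.sum_le_sum_of_subset_of_nonneg (Finset.filter_subset _ _) fun q _ _ => hM0 q
  have hHb : ∀ x r, ‖H x r‖ ≤ K * Mt ^ 2 := by
    intro x r
    rw [hH, Real.norm_of_nonneg (Finset.sum_nonneg fun _ _ => by positivity)]
    refine (Finset.sum_le_card_nsmul _ _ (Mt ^ 2) fun A _ => ?_).trans (by simp)
    exact pow_le_pow_left₀ (norm_nonneg _) (hsub _ x) 2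
  obtain ⟨D, hD⟩ : ∃ D : S2 → ℝ, ∀ x, D x = ∑ A ∈ Finset.range K,
      ‖∑ i ∈ s with ⌊lam i⌋₊ = A, c i x‖ ^ 2 := ⟨_, fun _ => rfl⟩
  have hDc : Continuous D := by
    rw [show D = fun x => ∑ A ∈ Finset.range K, ‖∑ i ∈ s with ⌊lam i⌋₊ = A, c i x‖ ^ 2 from
      funext hD]
    refine continuous_finsetSum _ fun A _ => ?_
    exact (continuous_finsetSum _ fun i _ => hcc i).norm.pow 2
  have hpt : ∀ x, ∫ t in (0 : ℝ)..1, ‖∑ p ∈ s, cexp (I * t * lam p) * c p x‖ ^ 2 ≤
      4 * π * D x + 4 * π * ∫ r in (0 : ℝ)..1, H x r := by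
    intro x
    have e := time_window s lam hlam0 (fun p => c p x) K hK
    simp only [hD, hH]
    exact e
  have hint1 : Integrable D σ := integrable_of_cont_real hDc
  have hint2 := intble_bdd hHm (K * Mt ^ 2) hHb
  have h1 : ∫ x, (∫ t in (0 : ℝ)..1, ‖∑ p ∈ s, cexp (I * t * lam p) * c p x‖ ^ 2) ∂σ ≤
      ∫ x, (4 * π * D x + 4 * π * ∫ r in (0 : ℝ)..1, H x r) ∂σ :=
    integral_mono (intble_bdd hGm (Mt ^ 2) hGb)
      ((hint1.const_mul _).add (hint2.const_mul _)) hpt
  rw [integral_add (hint1.const_mul _) (hint2.const_mul _), integral_const_mul,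
    integral_const_mul, swap_bdd hHm (K * Mt ^ 2) hHb] at h1
  -- the window estimate
  have hW : ∀ (P : ℕ × ℕ → Prop) [DecidablePred P] (A : ℕ),
      (∀ p ∈ s, P p → ⌊lam p⌋₊ = A) →
      ∫ x, ‖∑ i ∈ s with P i, c i x‖ ^ 2 ∂σ ≤ B * ∑ p ∈ s with P p, N2 (f p.1) * N2 (f p.2) := by
    intro P _ A hP
    have hsubset : s.filter P ⊆ Win N A := by
      intro p hp
      rw [Finset.mem_filter] at hp
      have hfl := hP p hp.1 hp.2
      unfold Win
      rw [Finset.mem_filter]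
      refine ⟨hs ▸ hp.1, ?_, ?_⟩
      · have := Nat.floor_le (hlam0 p)
        rw [hfl, hlam] at this
        exact this
      · have := Nat.lt_floor_add_one (lam p)
        rw [hfl, hlam] at this
        exact this
    have e := hwin N A (s.filter P) f hN hsubset hf
    rw [← hB] at e
    refine le_trans (le_of_eq ?_) e
    unfold N2
    simp only [hc]
  have hsum0 : ∀ p : ℕ × ℕ, 0 ≤ N2 (f p.1) * N2 (f p.2) :=
    fun p => mul_nonneg (N2_nonneg _) (N2_nonneg _)
  have htot : ∑ A ∈ Finset.range K, ∑ p ∈ s with ⌊lam p⌋₊ = A, N2 (f p.1) * N2 (f p.2) =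
      (∑ n ∈ Finset.Ico N (2 * N), N2 (f n)) ^ 2 := by
    rw [Finset.sum_fiberwise_of_maps_to (s := s) (t := Finset.range K)
      (g := fun i => ⌊lam i⌋₊) (fun i hi => Finset.mem_range.2 (hK i hi)), pow_two,
      Finset.sum_mul_sum, hs, Finset.sum_product]
  have h2 : ∫ x, D x ∂σ ≤ B * (∑ n ∈ Finset.Ico N (2 * N), N2 (f n)) ^ 2 := by
    simp only [hD]
    rw [integral_finsetSum, ← htot, Finset.mul_sum]
    · exact Finset.sum_le_sum fun A _ => hW (fun p => ⌊lam p⌋₊ = A) A fun p _ h => h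
    · intro A _
      exact integrable_of_cont_real ((continuous_finsetSum _ fun i _ => hcc i).norm.pow 2)
  have h3 : ∀ r : ℝ, ∫ x, H x r ∂σ ≤ B * (∑ n ∈ Finset.Ico N (2 * N), N2 (f n)) ^ 2 := by
    intro r
    simp only [hH]
    rw [integral_finsetSum, ← htot, Finset.mul_sum]
    · refine Finset.sum_le_sum fun A _ => ?_
      refine (hW (fun p => ⌊lam p⌋₊ = A ∧ r < lam p - ⌊lam p⌋₊) A fun p _ h => h.1).trans ?_
      refine mul_le_mul_of_nonneg_left ?_ hB0
      refine Finset.sum_le_sum_of_subset_of_nonneg ?_ fun p _ _ => hsum0 p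
      intro p hp
      rw [Finset.mem_filter] at hp ⊢
      exact ⟨hp.1, hp.2.1⟩
    · intro A _
      exact integrable_of_cont_real ((continuous_finsetSum _ fun i _ => hcc i).norm.pow 2)
  have h5 : ∫ r in (0 : ℝ)..1, ∫ x, H x r ∂σ ≤
      B * (∑ n ∈ Finset.Ico N (2 * N), N2 (f n)) ^ 2 := by
    have hi : IntervalIntegrable (fun r => ∫ x, H x r ∂σ) volume 0 1 := by
      rw [intervalIntegrable_iff, Set.uIoc_of_le (by norm_num : (0 : ℝ) ≤ 1)]
      have h : Integrable (fun p : S2 × ℝ => H p.1 p.2)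
          (σ.prod (volume.restrict (Set.Ioc (0 : ℝ) 1))) :=
        Integrable.of_bound hHm.aestronglyMeasurable (K * Mt ^ 2)
          (Eventually.of_forall fun p => hHb p.1 p.2)
      exact h.integral_prod_right
    have e := intervalIntegral.integral_mono_on (by norm_num : (0 : ℝ) ≤ 1) hi
      (intervalIntegrable_const (c := B * (∑ n ∈ Finset.Ico N (2 * N), N2 (f n)) ^ 2))
      fun r _ => h3 r
    rw [intervalIntegral.integral_const] at e
    simpa using e
  have hπ := Real.pi_pos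
  calc ∫ x, (∫ t in (0 : ℝ)..1, ‖∑ p ∈ s, cexp (I * t * lam p) * c p x‖ ^ 2) ∂σ
      ≤ 4 * π * ∫ x, D x ∂σ + 4 * π * ∫ r in (0 : ℝ)..1, ∫ x, H x r ∂σ := h1
    _ ≤ 4 * π * (B * (∑ n ∈ Finset.Ico N (2 * N), N2 (f n)) ^ 2)
        + 4 * π * (B * (∑ n ∈ Finset.Ico N (2 * N), N2 (f n)) ^ 2) := by gcongr
    _ = _ := by rw [hB]; ring

end

end Pool.Agent.DW
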