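import Pool.Agent.DW.Sums2
import Pool.Agent.DW.Time

/-!
# Block estimates without logarithms
-/

open MeasureTheory Metric Complex Filter Topology Real
open scoped ENNReal NNReal RealInnerProductSpace

namespace Pool.Agent.DW

noncomputable section

/-- the pairs near the diagonal -/
theorem b3_near : ∃ C > 0, ∀ (N : ℕ) (A : ℝ) (W : Finset (ℕ × ℕ)) (f : ℕ → S2 → ℂ), 64 ≤ N →
    W ⊆ (Win N A).filter (fun p => (p.1 - p.2) ^ 2 < N ∧ (p.2 - p.1) ^ 2 < N) →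
    (∀ n, Har n (f n)) →
      N2 (fun x => ∑ p ∈ W, f p.1 x * f p.2 x) ≤
        C * (N : ℝ) ^ (3 / 4 : ℝ) * ∑ p ∈ W, N2 (f p.1) * N2 (f p.2) := by
  obtain ⟨C1, hC1, hhigh⟩ := s2_near_high
  obtain ⟨C2, hC2, hlow⟩ := low_prod
  obtain ⟨C3, hC3, hcount⟩ := s2_near
  refine ⟨2 * (C1 + 3 * C3 * C2), by positivity, fun N A W f hN hW hf => ?_⟩
  have hNr : (64 : ℝ) ≤ N := by exact_mod_cast hN
  set S := ∑ p ∈ W, N2 (f p.1) * N2 (f p.2) with hS
  have hS0 : 0 ≤ S := Finset.sum_nonneg fun p _ => mul_nonneg (N2_nonneg _) (N2_nonneg _)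
  set h : S2 → ℂ := fun x => ∑ p ∈ W, f p.1 x * f p.2 x with hh
  have hc : Continuous h := continuous_finsetSum _ fun p _ => (hf p.1).cont.mul (hf p.2).cont
  -- the threshold
  set L : ℕ := Nat.sqrt (4 * N) + 1 with hL
  have hsqrt8 : (8 : ℝ) ≤ √N := by
    rw [show (8 : ℝ) = √64 by rw [show (64 : ℝ) = 8 ^ 2 by norm_num]; simp]
    exact Real.sqrt_le_sqrt hNr
  have hNN : √(N : ℝ) * √N = N := Real.mul_self_sqrt (by linarith)
  have hL1 : (L : ℝ) ≤ 3 * √N := by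
    have e1 : ((Nat.sqrt (4 * N) : ℕ) : ℝ) ≤ √((4 * N : ℕ) : ℝ) := Real.nat_sqrt_le_real_sqrt
    have e2 : √((4 * N : ℕ) : ℝ) = 2 * √N := by
      push_cast
      rw [show (4 : ℝ) * N = 2 ^ 2 * N by norm_num, Real.sqrt_mul (by norm_num), Real.sqrt_sq
        (by norm_num)]
    rw [hL]; push_cast
    linarith
  have hL2 : 2 * L ≤ N := by
    have : (2 : ℝ) * L ≤ N := by nlinarith
    exact_mod_cast this
  have hL3 : ∀ j, L ≤ j → 4 * N ≤ j ^ 2 := by
    intro j hj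
    have h1 : 4 * N < (Nat.sqrt (4 * N) + 1) ^ 2 := Nat.lt_succ_sqrt' (4 * N)
    have h2 : (Nat.sqrt (4 * N) + 1) ^ 2 ≤ j ^ 2 := Nat.pow_le_pow_left hj 2
    omega
  -- low and high parts
  set hlo : S2 → ℂ := fun x => ∑ l ∈ Finset.range L, proj l h x with hhlo
  have hloc : Continuous hlo := continuous_finsetSum _ fun l _ => proj_cont l hc
  set hhi : S2 → ℂ := fun x => h x - hlo x with hhhi
  have hhic : Continuous hhi := hc.sub hloc
  have hhiN : N2 hhi ≤ N2 h := bessel_compl _ hc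
  have hproj : ∀ j, j < L → proj j hhi = fun _ => 0 := by
    intro j hj
    funext x
    rw [hhhi, proj_sub j hc hloc, hhlo, proj_sum j _ fun l _ => proj_cont l hc,
      Finset.sum_eq_single j]
    · rw [proj_proj j j hc, if_pos rfl, sub_self]
    · intro l _ hl
      exact proj_proj_ne (Ne.symm hl) hc x
    · intro hj'
      exact absurd (Finset.mem_range.2 hj) hj'
  -- first integral
  have hI1 : ‖∫ x, h x * (starRingEnd ℂ) (hhi x) ∂σ‖ ^ 2 ≤
      S * (C1 * (N : ℝ) ^ (3 / 4 : ℝ) * N2 h) := by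
    have e := rr_sup W (fun p => p.1) (fun p => p.2) (fun p => f p.1) (fun p => f p.2)
      (fun p => hf p.1) (fun p => hf p.2) hhic
      (lam := C1 * (N : ℝ) ^ (3 / 4 : ℝ)) ?_
    · have hpos : 0 ≤ C1 * (N : ℝ) ^ (3 / 4 : ℝ) := by positivity
      rw [max_eq_left hpos] at e
      refine e.trans ?_
      gcongr
    · intro j hj
      have hjL : L ≤ j := by
        by_contra hlt
        exact hj (hproj j (not_le.1 hlt))
      refine le_trans ?_ (hhigh N A j hN (hL3 j hjL))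
      exact Finset.sum_le_sum_of_subset_of_nonneg hW fun p _ _ => kb_nonneg _ _ _
  -- second integral
  have hcard : (W.card : ℝ) ≤ C3 * (N : ℝ) ^ (1 / 4 : ℝ) := by
    refine le_trans ?_ (hcount N A hN)
    exact_mod_cast Finset.card_le_card hW
  have hterm : ∀ p ∈ W, ‖∫ x, f p.1 x * f p.2 x * (starRingEnd ℂ) (hlo x) ∂σ‖ ^ 2 ≤
      (C2 * L * N2 h) * (N2 (f p.1) * N2 (f p.2)) := by
    intro p hp
    have hpN : N ≤ p.1 := by
      have := hW hp
      rw [Finset.mem_filter] at this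
      have h2 := this.1
      unfold Win at h2
      rw [Finset.mem_filter, Finset.mem_product, Finset.mem_Ico] at h2
      exact h2.1.1.1
    have e1 : ∫ x, f p.1 x * f p.2 x * (starRingEnd ℂ) (hlo x) ∂σ =
        inn (f p.2) (fun x => (starRingEnd ℂ) (f p.1 x) * hlo x) := by
      unfold inn
      refine integral_congr_ae (Eventually.of_forall fun x => ?_)
      simp only [map_mul, Complex.conj_conj]
      ring
    have hcc : Continuous (fun x => (starRingEnd ℂ) (f p.1 x)) :=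
      continuous_conj.comp (hf p.1).cont
    have e2 := norm_inn_le (hf p.2).cont (hcc.mul hloc)
    have e3 := hlow p.1 L (fun x => (starRingEnd ℂ) (f p.1 x)) h (by omega)
      (har_conj (hf p.1)) hc
    rw [N2_conj] at e3
    rw [e1]
    refine e2.trans ?_
    refine (mul_le_mul_of_nonneg_left e3 (N2_nonneg _)).trans (le_of_eq ?_)
    ring
  have hI2 : ‖∫ x, h x * (starRingEnd ℂ) (hlo x) ∂σ‖ ^ 2 ≤
      W.card * ((C2 * L * N2 h) * S) := by
    have e1 : ∫ x, h x * (starRingEnd ℂ) (hlo x) ∂σ =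
        ∑ p ∈ W, ∫ x, f p.1 x * f p.2 x * (starRingEnd ℂ) (hlo x) ∂σ := by
      rw [← integral_finsetSum]
      · simp only [hh, Finset.sum_mul]
      · intro p _
        exact integrable_of_cont (((hf p.1).cont.mul (hf p.2).cont).mul
          (continuous_conj.comp hloc))
    rw [e1]
    have e2 : ‖∑ p ∈ W, ∫ x, f p.1 x * f p.2 x * (starRingEnd ℂ) (hlo x) ∂σ‖ ^ 2 ≤
        (∑ p ∈ W, ‖∫ x, f p.1 x * f p.2 x * (starRingEnd ℂ) (hlo x) ∂σ‖) ^ 2 := by
      gcongr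
      exact norm_sum_le _ _
    refine e2.trans ((sq_sum_le_card_mul_sum_sq).trans ?_)
    refine mul_le_mul_of_nonneg_left ?_ (by positivity)
    rw [hS, Finset.mul_sum]
    exact Finset.sum_le_sum hterm
  -- combine
  have hsplit : (N2 h : ℂ) = ∫ x, h x * (starRingEnd ℂ) (hhi x) ∂σ
      + ∫ x, h x * (starRingEnd ℂ) (hlo x) ∂σ := by
    rw [← inn_self, ← integral_add (inn_integrable hc hhic) (inn_integrable hc hloc)]
    unfold inn
    refine integral_congr_ae (Eventually.of_forall fun x => ?_)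
    simp only [hhhi, map_sub]
    ring
  have hnorm : N2 h ≤ ‖∫ x, h x * (starRingEnd ℂ) (hhi x) ∂σ‖
      + ‖∫ x, h x * (starRingEnd ℂ) (hlo x) ∂σ‖ := by
    have e1 : N2 h = ‖(N2 h : ℂ)‖ := by
      rw [Complex.norm_real, Real.norm_eq_abs, abs_of_nonneg (N2_nonneg _)]
    rw [e1, hsplit]
    exact norm_add_le _ _
  have hsq : N2 h ^ 2 ≤ 2 * ‖∫ x, h x * (starRingEnd ℂ) (hhi x) ∂σ‖ ^ 2
      + 2 * ‖∫ x, h x * (starRingEnd ℂ) (hlo x) ∂σ‖ ^ 2 := by
    have e1 : N2 h ^ 2 ≤ (‖∫ x, h x * (starRingEnd ℂ) (hhi x) ∂σ‖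
      + ‖∫ x, h x * (starRingEnd ℂ) (hlo x) ∂σ‖) ^ 2 := by
      have := N2_nonneg h
      gcongr
    nlinarith [sq_nonneg (‖∫ x, h x * (starRingEnd ℂ) (hhi x) ∂σ‖
      - ‖∫ x, h x * (starRingEnd ℂ) (hlo x) ∂σ‖)]
  -- numerical bound for the second term
  have hnum : (W.card : ℝ) * (C2 * L) ≤
      3 * C3 * C2 * ((N : ℝ) ^ (3 / 4 : ℝ)) := by
    have e1 : (N : ℝ) ^ (1 / 4 : ℝ) * √N = (N : ℝ) ^ (3 / 4 : ℝ) := by
      rw [Real.sqrt_eq_rpow, ← Real.rpow_add (by linarith)]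
      norm_num
    calc (W.card : ℝ) * (C2 * L)
        ≤ (C3 * (N : ℝ) ^ (1 / 4 : ℝ)) * (C2 * (3 * √N)) := by gcongr
      _ = 3 * C3 * C2 * (((N : ℝ) ^ (1 / 4 : ℝ) * √N)) := by ring
      _ = _ := by rw [e1]
  refine self_improve (N2_nonneg _) ?_ (hsq.trans ?_)
  · positivity
  · have hNh := N2_nonneg h
    calc 2 * ‖∫ x, h x * (starRingEnd ℂ) (hhi x) ∂σ‖ ^ 2
          + 2 * ‖∫ x, h x * (starRingEnd ℂ) (hlo x) ∂σ‖ ^ 2
        ≤ 2 * (S * (C1 * (N : ℝ) ^ (3 / 4 : ℝ) * N2 h))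
          + 2 * (W.card * ((C2 * L * N2 h) * S)) := by gcongr
      _ = 2 * (S * (C1 * (N : ℝ) ^ (3 / 4 : ℝ) * N2 h))
          + 2 * ((W.card * (C2 * L)) * (N2 h * S)) := by ring
      _ ≤ 2 * (S * (C1 * (N : ℝ) ^ (3 / 4 : ℝ) * N2 h))
          + 2 * ((3 * C3 * C2 * ((N : ℝ) ^ (3 / 4 : ℝ))) * (N2 h * S)) := by
        gcongr
      _ = _ := by ring

/-- the bilinear estimate for (a subset of) a window -/
theorem b3_window : ∃ C > 0, ∀ (N : ℕ) (A : ℝ) (W : Finset (ℕ × ℕ)) (f : ℕ → S2 → ℂ), 64 ≤ N →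
    W ⊆ Win N A → (∀ n, Har n (f n)) →
      N2 (fun x => ∑ p ∈ W, f p.1 x * f p.2 x) ≤
        C * (N : ℝ) ^ (3 / 4 : ℝ) * ∑ p ∈ W, N2 (f p.1) * N2 (f p.2) := by
  obtain ⟨C1, hC1, hnear⟩ := b3_near
  obtain ⟨C2, hC2, hfar⟩ := s2_far
  refine ⟨2 * C1 + 2 * C2, by positivity, fun N A W f hN hW hf => ?_⟩
  have hNr : (64 : ℝ) ≤ N := by exact_mod_cast hN
  set S := ∑ p ∈ W, N2 (f p.1) * N2 (f p.2) with hS
  have hterm0 : ∀ p : ℕ × ℕ, 0 ≤ N2 (f p.1) * N2 (f p.2) :=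
    fun p => mul_nonneg (N2_nonneg _) (N2_nonneg _)
  have hS0 : 0 ≤ S := Finset.sum_nonneg fun p _ => hterm0 p
  set P : ℕ × ℕ → Prop := fun p => (p.1 - p.2) ^ 2 < N ∧ (p.2 - p.1) ^ 2 < N with hP
  have hsplit : (fun x => ∑ p ∈ W, f p.1 x * f p.2 x) =
      fun x => (∑ p ∈ W.filter P, f p.1 x * f p.2 x)
        + ∑ p ∈ W.filter (fun p => ¬ P p), f p.1 x * f p.2 x := by
    funext x
    exact (Finset.sum_filter_add_sum_filter_not W P _).symm
  have hc : ∀ s : Finset (ℕ × ℕ), Continuous (fun x => ∑ p ∈ s, f p.1 x * f p.2 x) :=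
    fun s => continuous_finsetSum _ fun p _ => (hf p.1).cont.mul (hf p.2).cont
  have h1 := hnear N A (W.filter P) f hN (Finset.filter_subset_filter _ hW) hf
  have h2 := rr_self (W.filter (fun p => ¬ P p)) (fun p => p.1) (fun p => p.2)
    (fun p => f p.1) (fun p => f p.2) (fun p => hf p.1) (fun p => hf p.2)
    (lam := C2 * (N : ℝ) ^ (3 / 4 : ℝ)) (fun j =>
      (Finset.sum_le_sum_of_subset_of_nonneg (Finset.filter_subset_filter _ hW)
        fun p _ _ => kb_nonneg _ _ _).trans (hfar N A j hN))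
  have hpos : 0 ≤ C2 * (N : ℝ) ^ (3 / 4 : ℝ) := by positivity
  rw [max_eq_left hpos] at h2
  have h3 : ∑ p ∈ W.filter P, N2 (f p.1) * N2 (f p.2) ≤ S :=
    Finset.sum_le_sum_of_subset_of_nonneg (Finset.filter_subset _ _) fun p _ _ => hterm0 p
  have h4 : ∑ p ∈ W.filter (fun p => ¬ P p), N2 (f p.1) * N2 (f p.2) ≤ S :=
    Finset.sum_le_sum_of_subset_of_nonneg (Finset.filter_subset _ _) fun p _ _ => hterm0 p
  rw [hsplit]
  refine (N2_add_le (hc _) (hc _)).trans ?_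
  have h5 : C1 * (N : ℝ) ^ (3 / 4 : ℝ) ≤ C1 * (N : ℝ) ^ (3 / 4 : ℝ) := le_rfl
  calc 2 * N2 (fun x => ∑ p ∈ W.filter P, f p.1 x * f p.2 x)
        + 2 * N2 (fun x => ∑ p ∈ W.filter (fun p => ¬ P p), f p.1 x * f p.2 x)
      ≤ 2 * (C1 * (N : ℝ) ^ (3 / 4 : ℝ) * S)
        + 2 * (C2 * (N : ℝ) ^ (3 / 4 : ℝ) * S) := by
        have e1 := h1.trans (mul_le_mul h5 h3 (Finset.sum_nonneg fun p _ => hterm0 p)
          (by positivity))
        have e2 := h2.trans (mul_le_mul_of_nonneg_left h4 hpos)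
        exact add_le_add (mul_le_mul_of_nonneg_left e1 (by norm_num))
          (mul_le_mul_of_nonneg_left e2 (by norm_num))
    _ = _ := by ring

/-- the bilinear estimate for a window of two separated blocks -/
theorem b3_sep : ∃ C > 0, ∀ (N M : ℕ) (A : ℝ) (W : Finset (ℕ × ℕ)) (f : ℕ → S2 → ℂ), 64 ≤ M →
    64 * M ≤ N → W ⊆ Win2 N M A → (∀ n, Har n (f n)) →
      N2 (fun x => ∑ p ∈ W, f p.1 x * f p.2 x) ≤
        C * (M : ℝ) ^ (3 / 4 : ℝ) * ∑ p ∈ W, N2 (f p.1) * N2 (f p.2) := by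
  obtain ⟨C, hC, h⟩ := s2_sep
  refine ⟨C, hC, fun N M A W f hM hMN hW hf => ?_⟩
  have h2 := rr_self W (fun p => p.1) (fun p => p.2)
    (fun p => f p.1) (fun p => f p.2) (fun p => hf p.1) (fun p => hf p.2)
    (lam := C * (M : ℝ) ^ (3 / 4 : ℝ)) (fun j =>
      (Finset.sum_le_sum_of_subset_of_nonneg hW
        fun p _ _ => kb_nonneg _ _ _).trans (h N M A j hM hMN))
  have hpos : 0 ≤ C * (M : ℝ) ^ (3 / 4 : ℝ) := by positivity
  rw [max_eq_left hpos] at h2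
  exact h2

/-- from windows to time integrals -/
theorem b3_time (s1 s2 : Finset ℕ) (f : ℕ → S2 → ℂ) (hf : ∀ n, Har n (f n)) (B : ℝ) (hB0 : 0 ≤ B)
    (hwin : ∀ (A : ℝ) (W : Finset (ℕ × ℕ)), W ⊆ s1 ×ˢ s2 →
      (∀ p ∈ W, A ≤ Lam p.1 + Lam p.2 ∧ Lam p.1 + Lam p.2 < A + 1) →
      N2 (fun x => ∑ p ∈ W, f p.1 x * f p.2 x) ≤ B * ∑ p ∈ W, N2 (f p.1) * N2 (f p.2)) :
    ∫ t in (0 : ℝ)..1, ∫ x, ‖(∑ n ∈ s1, cexp (I * t * Lam n) * f n x) *
        (∑ n ∈ s2, cexp (I * t * Lam n) * f n x)‖ ^ 2 ∂σ ≤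
      8 * π * B * ((∑ n ∈ s1, N2 (f n)) * (∑ n ∈ s2, N2 (f n))) := by
  classical
  obtain ⟨s, hs⟩ : ∃ s : Finset (ℕ × ℕ), s = s1 ×ˢ s2 := ⟨_, rfl⟩
  obtain ⟨lam, hlam⟩ : ∃ lam : ℕ × ℕ → ℝ, ∀ p, lam p = Lam p.1 + Lam p.2 := ⟨_, fun _ => rfl⟩
  have hlam0 : ∀ p, 0 ≤ lam p := fun p => by
    rw [hlam]; exact add_nonneg (Real.sqrt_nonneg _) (Real.sqrt_nonneg _)
  obtain ⟨c, hc⟩ : ∃ c : ℕ × ℕ → S2 → ℂ, ∀ p x, c p x = f p.1 x * f p.2 x := ⟨_, fun _ _ => rfl⟩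
  have hcc : ∀ p, Continuous (c p) := fun p => by
    have : c p = fun x => f p.1 x * f p.2 x := funext (hc p)
    rw [this]; exact (hf p.1).cont.mul (hf p.2).cont
  obtain ⟨K, hK⟩ : ∃ K : ℕ, ∀ p ∈ s, ⌊lam p⌋₊ < K :=
    ⟨s.sup (fun p => ⌊lam p⌋₊) + 1, fun p hp =>
      Nat.lt_succ_of_le (Finset.le_sup (f := fun p => ⌊lam p⌋₊) hp)⟩
  choose M hM0 hM using fun p => har_bdd (hcc p)
  obtain ⟨Mt, hMt⟩ : ∃ Mt : ℝ, Mt = ∑ p ∈ s, M p := ⟨_, rfl⟩
  have hMt0 : 0 ≤ Mt := by rw [hMt]; exact Finset.sum_nonneg fun p _ => hM0 p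
  have hexp : ∀ (t x : ℝ), ‖cexp (I * t * x)‖ = 1 := by
    intro t x
    have : I * (t : ℂ) * (x : ℂ) = ((t * x : ℝ) : ℂ) * I := by push_cast; ring
    rw [this, Complex.norm_exp_ofReal_mul_I]
  -- the product
  have h4 : ∀ (t : ℝ) (x : S2),
      ‖(∑ n ∈ s1, cexp (I * t * Lam n) * f n x) *
        (∑ n ∈ s2, cexp (I * t * Lam n) * f n x)‖ ^ 2 =
        ‖∑ p ∈ s, cexp (I * t * lam p) * c p x‖ ^ 2 := by
    intro t x
    have e1 : ∑ p ∈ s, cexp (I * t * lam p) * c p x =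
        (∑ n ∈ s1, cexp (I * t * Lam n) * f n x) *
          (∑ n ∈ s2, cexp (I * t * Lam n) * f n x) := by
      rw [Finset.sum_mul_sum, hs, Finset.sum_product]
      refine Finset.sum_congr rfl fun n _ => Finset.sum_congr rfl fun m _ => ?_
      have e2 : cexp (I * t * lam (n, m)) = cexp (I * t * Lam n) * cexp (I * t * Lam m) := by
        rw [← Complex.exp_add, hlam]
        congr 1
        push_cast
        ring
      rw [e2, hc]
      ring
    rw [e1]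
  simp_rw [h4]
  -- swap and apply the one-dimensional inequality
  have hGm : Measurable (fun p : S2 × ℝ => ‖∑ q ∈ s, cexp (I * p.2 * lam q) * c q p.1‖ ^ 2) := by
    have : Continuous (fun p : S2 × ℝ => ∑ q ∈ s, cexp (I * p.2 * lam q) * c q p.1) := by
      refine continuous_finsetSum _ fun q _ => Continuous.mul ?_ ((hcc q).comp continuous_fst)
      fun_prop
    exact (this.norm.pow 2).measurable
  have hGb : ∀ (x : S2) (t : ℝ), ‖‖∑ q ∈ s, cexp (I * t * lam q) * c q x‖ ^ 2‖ ≤ Mt ^ 2 := by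
    intro x t
    rw [norm_pow, norm_norm]
    refine pow_le_pow_left₀ (norm_nonneg _) ?_ 2
    rw [hMt]
    refine (norm_sum_le _ _).trans (Finset.sum_le_sum fun q _ => ?_)
    rw [norm_mul, hexp, one_mul]
    exact hM q x
  rw [← swap_bdd hGm (Mt ^ 2) hGb]
  -- the function on the right
  obtain ⟨H, hH⟩ : ∃ H : S2 → ℝ → ℝ, ∀ x r, H x r = ∑ A ∈ Finset.range K,
      ‖∑ i ∈ s with (⌊lam i⌋₊ = A ∧ r < lam i - ⌊lam i⌋₊), c i x‖ ^ 2 := ⟨_, fun _ _ => rfl⟩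
  have hHm : Measurable (fun p : S2 × ℝ => H p.1 p.2) := by
    simp only [hH]
    refine Finset.measurable_fun_sum _ fun A _ => (Measurable.norm ?_).pow_const 2
    simp only [Finset.sum_filter]
    refine Finset.measurable_fun_sum _ fun q _ => ?_
    refine Measurable.ite ?_ ((hcc q).measurable.comp measurable_fst) measurable_const
    by_cases hq : ⌊lam q⌋₊ = A
    · have : {p : S2 × ℝ | ⌊lam q⌋₊ = A ∧ p.2 < lam q - ⌊lam q⌋₊} =
          {p : S2 × ℝ | p.2 < lam q - ⌊lam q⌋₊} := by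
        ext p; simp [hq]
      rw [this]
      exact measurableSet_lt measurable_snd measurable_const
    · have : {p : S2 × ℝ | ⌊lam q⌋₊ = A ∧ p.2 < lam q - ⌊lam q⌋₊} = ∅ := by
        ext p; simp [hq]
      rw [this]
      exact MeasurableSet.empty
  have hsub : ∀ (P : ℕ × ℕ → Prop) [DecidablePred P] (x : S2), ‖∑ i ∈ s with P i, c i x‖ ≤ Mt := by
    intro P _ x
    refine (norm_sum_le _ _).trans ?_
    rw [hMt]
    refine (Finset.sum_le_sum fun q _ => hM q x).trans ?_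
    exact Finset.sum_le_sum_of_subset_of_nonneg (Finset.filter_subset _ _) fun q _ _ => hM0 q
  have hHb : ∀ x r, ‖H x r‖ ≤ K * Mt ^ 2 := by
    intro x r
    rw [hH, Real.norm_of_nonneg (Finset.sum_nonneg fun _ _ => by positivity)]
    refine (Finset.sum_le_card_nsmul _ _ (Mt ^ 2) fun A _ => ?_).trans (by simp)
    exact pow_le_pow_left₀ (norm_nonneg _) (hsub _ x) 2
  obtain ⟨D, hD⟩ : ∃ D : S2 → ℝ, ∀ x, D x = ∑ A ∈ Finset.range K,
      ‖∑ i ∈ s with ⌊lam i⌋₊ = A, c i x‖ ^ 2 := ⟨_, fun _ => rfl⟩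
  have hDc : Continuous D := by
    rw [show D = fun x => ∑ A ∈ Finset.range K, ‖∑ i ∈ s with ⌊lam i⌋₊ = A, c i x‖ ^ 2 from
      funext hD]
    refine continuous_finsetSum _ fun A _ => ?_
    exact (continuous_finsetSum _ fun i _ => hcc i).norm.pow 2
  have hpt : ∀ x, ∫ t in (0 : ℝ)..1, ‖∑ p ∈ s, cexp (I * t * lam p) * c p x‖ ^ 2 ≤
      4 * π * D x + 4 * π * ∫ r in (0 : ℝ)..1, H x r := by
    intro x
    have e := time_window s lam hlam0 (fun p => c p x) K hK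
    simp only [hD, hH]
    exact e
  have hint1 : Integrable D σ := integrable_of_cont_real hDc
  have hint2 := intble_bdd hHm (K * Mt ^ 2) hHb
  have h1 : ∫ x, (∫ t in (0 : ℝ)..1, ‖∑ p ∈ s, cexp (I * t * lam p) * c p x‖ ^ 2) ∂σ ≤
      ∫ x, (4 * π * D x + 4 * π * ∫ r in (0 : ℝ)..1, H x r) ∂σ :=
    integral_mono (intble_bdd hGm (Mt ^ 2) hGb)
      ((hint1.const_mul _).add (hint2.const_mul _)) hpt
  rw [integral_add (hint1.const_mul _) (hint2.const_mul _), integral_const_mul,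
    integral_const_mul, swap_bdd hHm (K * Mt ^ 2) hHb] at h1
  -- the window estimate
  have hW : ∀ (P : ℕ × ℕ → Prop) [DecidablePred P] (A : ℕ),
      (∀ p ∈ s, P p → ⌊lam p⌋₊ = A) →
      ∫ x, ‖∑ i ∈ s with P i, c i x‖ ^ 2 ∂σ ≤ B * ∑ p ∈ s with P p, N2 (f p.1) * N2 (f p.2) := by
    intro P _ A hP
    have e := hwin A (s.filter P) (by rw [← hs]; exact Finset.filter_subset _ _) (by
      intro p hp
      rw [Finset.mem_filter] at hp
      have hfl := hP p hp.1 hp.2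
      constructor
      · have := Nat.floor_le (hlam0 p)
        rw [hfl, hlam] at this
        exact this
      · have := Nat.lt_floor_add_one (lam p)
        rw [hfl, hlam] at this
        exact this)
    refine le_trans (le_of_eq ?_) e
    unfold N2
    simp only [hc]
  have hsum0 : ∀ p : ℕ × ℕ, 0 ≤ N2 (f p.1) * N2 (f p.2) :=
    fun p => mul_nonneg (N2_nonneg _) (N2_nonneg _)
  have htot : ∑ A ∈ Finset.range K, ∑ p ∈ s with ⌊lam p⌋₊ = A, N2 (f p.1) * N2 (f p.2) =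
      (∑ n ∈ s1, N2 (f n)) * (∑ n ∈ s2, N2 (f n)) := by
    rw [Finset.sum_fiberwise_of_maps_to (s := s) (t := Finset.range K)
      (g := fun i => ⌊lam i⌋₊) (fun i hi => Finset.mem_range.2 (hK i hi)),
      Finset.sum_mul_sum, hs, Finset.sum_product]
  have h2 : ∫ x, D x ∂σ ≤ B * ((∑ n ∈ s1, N2 (f n)) * (∑ n ∈ s2, N2 (f n))) := by
    simp only [hD]
    rw [integral_finsetSum, ← htot, Finset.mul_sum]
    · exact Finset.sum_le_sum fun A _ => hW (fun p => ⌊lam p⌋₊ = A) A fun p _ h => h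
    · intro A _
      exact integrable_of_cont_real ((continuous_finsetSum _ fun i _ => hcc i).norm.pow 2)
  have h3 : ∀ r : ℝ, ∫ x, H x r ∂σ ≤ B * ((∑ n ∈ s1, N2 (f n)) * (∑ n ∈ s2, N2 (f n))) := by
    intro r
    simp only [hH]
    rw [integral_finsetSum, ← htot, Finset.mul_sum]
    · refine Finset.sum_le_sum fun A _ => ?_
      refine (hW (fun p => ⌊lam p⌋₊ = A ∧ r < lam p - ⌊lam p⌋₊) A fun p _ h => h.1).trans ?_
      refine mul_le_mul_of_nonneg_left ?_ hB0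
      refine Finset.sum_le_sum_of_subset_of_nonneg ?_ fun p _ _ => hsum0 p
      intro p hp
      rw [Finset.mem_filter] at hp ⊢
      exact ⟨hp.1, hp.2.1⟩
    · intro A _
      exact integrable_of_cont_real ((continuous_finsetSum _ fun i _ => hcc i).norm.pow 2)
  have h5 : ∫ r in (0 : ℝ)..1, ∫ x, H x r ∂σ ≤
      B * ((∑ n ∈ s1, N2 (f n)) * (∑ n ∈ s2, N2 (f n))) := by
    have hi : IntervalIntegrable (fun r => ∫ x, H x r ∂σ) volume 0 1 := by
      rw [intervalIntegrable_iff, Set.uIoc_of_le (by norm_num : (0 : ℝ) ≤ 1)]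
      have h : Integrable (fun p : S2 × ℝ => H p.1 p.2)
          (σ.prod (volume.restrict (Set.Ioc (0 : ℝ) 1))) :=
        Integrable.of_bound hHm.aestronglyMeasurable (K * Mt ^ 2)
          (Eventually.of_forall fun p => hHb p.1 p.2)
      exact h.integral_prod_right
    have e := intervalIntegral.integral_mono_on (by norm_num : (0 : ℝ) ≤ 1) hi
      (intervalIntegrable_const (c := B * ((∑ n ∈ s1, N2 (f n)) * (∑ n ∈ s2, N2 (f n)))))
      fun r _ => h3 r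
    rw [intervalIntegral.integral_const] at e
    simpa using e
  have hπ := Real.pi_pos
  calc ∫ x, (∫ t in (0 : ℝ)..1, ‖∑ p ∈ s, cexp (I * t * lam p) * c p x‖ ^ 2) ∂σ
      ≤ 4 * π * ∫ x, D x ∂σ + 4 * π * ∫ r in (0 : ℝ)..1, ∫ x, H x r ∂σ := h1
    _ ≤ 4 * π * (B * ((∑ n ∈ s1, N2 (f n)) * (∑ n ∈ s2, N2 (f n))))
        + 4 * π * (B * ((∑ n ∈ s1, N2 (f n)) * (∑ n ∈ s2, N2 (f n)))) := by gcongr
    _ = _ := by ring

/-- the `L⁴` estimate for a block -/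
theorem b3_block : ∃ C > 0, ∀ (N : ℕ) (f : ℕ → S2 → ℂ), 64 ≤ N → (∀ n, Har n (f n)) →
    ∫ t in (0 : ℝ)..1, ∫ x, ‖(∑ n ∈ Finset.Ico N (2 * N), cexp (I * t * Lam n) * f n x) *
        (∑ n ∈ Finset.Ico N (2 * N), cexp (I * t * Lam n) * f n x)‖ ^ 2 ∂σ ≤
      C * (N : ℝ) ^ (3 / 4 : ℝ) * ((∑ n ∈ Finset.Ico N (2 * N), N2 (f n)) *
        (∑ n ∈ Finset.Ico N (2 * N), N2 (f n))) := by
  obtain ⟨C, hC, h⟩ := b3_window
  refine ⟨8 * π * C, by positivity, fun N f hN hf => ?_⟩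
  have e := b3_time (Finset.Ico N (2 * N)) (Finset.Ico N (2 * N)) f hf
    (C * (N : ℝ) ^ (3 / 4 : ℝ)) (by positivity) (fun A W hW hA => h N A W f hN (by
      intro p hp
      unfold Win
      rw [Finset.mem_filter]
      exact ⟨hW hp, hA p hp⟩) hf)
  refine e.trans (le_of_eq ?_)
  ring

/-- the bilinear estimate for separated blocks -/
theorem b3_block2 : ∃ C > 0, ∀ (N M : ℕ) (f : ℕ → S2 → ℂ), 64 ≤ M → 64 * M ≤ N →
    (∀ n, Har n (f n)) →
    ∫ t in (0 : ℝ)..1, ∫ x, ‖(∑ n ∈ Finset.Ico N (2 * N), cexp (I * t * Lam n) * f n x) *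
        (∑ n ∈ Finset.Ico M (2 * M), cexp (I * t * Lam n) * f n x)‖ ^ 2 ∂σ ≤
      C * (M : ℝ) ^ (3 / 4 : ℝ) * ((∑ n ∈ Finset.Ico N (2 * N), N2 (f n)) *
        (∑ n ∈ Finset.Ico M (2 * M), N2 (f n))) := by
  obtain ⟨C, hC, h⟩ := b3_sep
  refine ⟨8 * π * C, by positivity, fun N M f hM hMN hf => ?_⟩
  have e := b3_time (Finset.Ico N (2 * N)) (Finset.Ico M (2 * M)) f hf
    (C * (M : ℝ) ^ (3 / 4 : ℝ)) (by positivity) (fun A W hW hA => h N M A W f hM hMN (by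
      intro p hp
      unfold Win2
      rw [Finset.mem_filter]
      exact ⟨hW hp, hA p hp⟩) hf)
  refine e.trans (le_of_eq ?_)
  ring

end

end Pool.Agent.DW
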