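import Pool.Agent.DW.Kernel
import Pool.Agent.DW.Adams

/-!
# Module C: the bilinear `R R*` lemma
-/

open MeasureTheory Metric Complex Filter Topology Real
open scoped ENNReal NNReal RealInnerProductSpace

namespace Pool.Agent.DW

noncomputable section

/-! ### Fubini for continuous functions -/

theorem integrable_of_cont2 {f : S2 × S2 → ℂ} (hf : Continuous f) :
    Integrable f (σ.prod σ) :=
  hf.integrable_of_hasCompactSupport (HasCompactSupport.of_compactSpace f)

theorem swap_int {f : S2 → S2 → ℂ} (hf : Continuous (fun p : S2 × S2 => f p.1 p.2)) :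
    ∫ x, ∫ y, f x y ∂σ ∂σ = ∫ y, ∫ x, f x y ∂σ ∂σ :=
  integral_integral_swap (integrable_of_cont2 hf)

theorem cont_param {X : Type*} [TopologicalSpace X] [FirstCountableTopology X]
    [LocallyCompactSpace X] {f : X → S2 → ℂ} (hf : Continuous (fun p : X × S2 => f p.1 p.2)) :
    Continuous (fun x => ∫ y, f x y ∂σ) := by
  have h := continuous_parametric_integral_of_continuous (μ := σ) (f := f)
    (s := (Set.univ : Set S2)) (by exact hf) isCompact_univ
  simpa using h

theorem Zc_cont (n : ℕ) : Continuous (fun p : S2 × S2 => (Z n (ip p.1 p.2) : ℂ)) :=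
  continuous_ofReal.comp (Z_ip_cont n)

theorem Zc_comp {X : Type*} [TopologicalSpace X] (n : ℕ) {f g : X → S2} (hf : Continuous f)
    (hg : Continuous g) : Continuous (fun t => (Z n (ip (f t) (g t)) : ℂ)) :=
  (Zc_cont n).comp (hf.prodMk hg)

theorem Zc_cont_left (n : ℕ) (y : S2) : Continuous (fun x : S2 => (Z n (ip x y) : ℂ)) :=
  (Zc_cont n).comp (by fun_prop : Continuous (fun x : S2 => (x, y)))

theorem Zc_cont_right (n : ℕ) (x : S2) : Continuous (fun y : S2 => (Z n (ip x y) : ℂ)) :=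
  (Zc_cont n).comp (by fun_prop : Continuous (fun y : S2 => (x, y)))

theorem Zc_conv (n m : ℕ) (x z : S2) :
    ∫ y, (Z n (ip x y) : ℂ) * (Z m (ip y z) : ℂ) ∂σ = if n = m then (Z n (ip x z) : ℂ) else 0 := by
  have h := Z_conv n m x z
  have h2 : ∫ y, (Z n (ip x y) : ℂ) * (Z m (ip y z) : ℂ) ∂σ =
      ((∫ y, Z n (ip x y) * Z m (ip y z) ∂σ : ℝ) : ℂ) := by
    rw [← integral_complex_ofReal]
    simp only [ofReal_mul]
  rw [h2, h]
  split <;> simp

/-! ### the projections -/

theorem proj_integrand_cont (n : ℕ) {h : S2 → ℂ} (hh : Continuous h) :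
    Continuous (fun p : S2 × S2 => (Z n (ip p.1 p.2) : ℂ) * h p.2) :=
  (Zc_cont n).mul (hh.comp continuous_snd)

theorem proj_cont (n : ℕ) {h : S2 → ℂ} (hh : Continuous h) : Continuous (proj n h) :=
  cont_param (f := fun x y => (Z n (ip x y) : ℂ) * h y) (proj_integrand_cont n hh)

theorem proj_proj (n m : ℕ) {h : S2 → ℂ} (hh : Continuous h) (x : S2) :
    proj n (proj m h) x = if n = m then proj n h x else 0 := by
  have h1 : proj n (proj m h) x =
      ∫ y, ∫ z, (Z n (ip x y) : ℂ) * ((Z m (ip y z) : ℂ) * h z) ∂σ ∂σ := by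
    unfold proj
    refine integral_congr_ae (Eventually.of_forall fun y => ?_)
    simp only
    rw [integral_const_mul]
  have hc : Continuous (fun p : S2 × S2 =>
      (Z n (ip x p.1) : ℂ) * ((Z m (ip p.1 p.2) : ℂ) * h p.2)) :=
    ((Zc_cont_right n x).comp continuous_fst).mul (proj_integrand_cont m hh)
  rw [h1, swap_int hc]
  have h2 : ∀ z, ∫ y, (Z n (ip x y) : ℂ) * ((Z m (ip y z) : ℂ) * h z) ∂σ =
      (if n = m then (Z n (ip x z) : ℂ) else 0) * h z := by
    intro z
    rw [← Zc_conv n m x z, ← integral_mul_const]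
    simp only [mul_assoc]
  simp_rw [h2]
  split
  · rfl
  · simp

theorem proj_har (n : ℕ) {h : S2 → ℂ} (hh : Continuous h) : Har n (proj n h) :=
  ⟨proj_cont n hh, fun x => by rw [proj_proj n n hh x, if_pos rfl]⟩

theorem proj_proj_ne {n m : ℕ} (hnm : n ≠ m) {h : S2 → ℂ} (hh : Continuous h) (x : S2) :
    proj n (proj m h) x = 0 := by
  rw [proj_proj n m hh x, if_neg hnm]

theorem proj_conj (n : ℕ) (h : S2 → ℂ) (x : S2) :
    proj n (fun y => (starRingEnd ℂ) (h y)) x = (starRingEnd ℂ) (proj n h x) := by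
  unfold proj
  rw [← integral_conj]
  refine integral_congr_ae (Eventually.of_forall fun y => ?_)
  simp only [map_mul, conj_ofReal]

theorem har_conj {n : ℕ} {f : S2 → ℂ} (hf : Har n f) :
    Har n (fun y => (starRingEnd ℂ) (f y)) :=
  ⟨continuous_conj.comp hf.cont, fun x => by rw [proj_conj, hf.rep]⟩

theorem proj_add (n : ℕ) {f g : S2 → ℂ} (hf : Continuous f) (hg : Continuous g) (x : S2) :
    proj n (fun y => f y + g y) x = proj n f x + proj n g x := by
  have i1 : Integrable (fun y => (Z n (ip x y) : ℂ) * f y) σ :=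
    integrable_of_cont ((Zc_cont_right n x).mul hf)
  have i2 : Integrable (fun y => (Z n (ip x y) : ℂ) * g y) σ :=
    integrable_of_cont ((Zc_cont_right n x).mul hg)
  unfold proj
  simp only [mul_add]
  exact integral_add i1 i2

theorem proj_const_mul (n : ℕ) (c : ℂ) (f : S2 → ℂ) (x : S2) :
    proj n (fun y => c * f y) x = c * proj n f x := by
  unfold proj
  rw [← integral_const_mul]
  refine integral_congr_ae (Eventually.of_forall fun y => ?_)
  simp only
  ring

theorem proj_zero (n : ℕ) (x : S2) : proj n (fun _ => 0) x = 0 := by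
  simp [proj]

theorem proj_sum (n : ℕ) {ι : Type} (s : Finset ι) {f : ι → S2 → ℂ}
    (hf : ∀ i ∈ s, Continuous (f i)) (x : S2) :
    proj n (fun y => ∑ i ∈ s, f i y) x = ∑ i ∈ s, proj n (f i) x := by
  have i1 : ∀ i ∈ s, Integrable (fun y => (Z n (ip x y) : ℂ) * f i y) σ := fun i hi =>
    integrable_of_cont ((Zc_cont_right n x).mul (hf i hi))
  unfold proj
  simp only [Finset.mul_sum]
  exact integral_finsetSum _ i1

theorem har_zero (n : ℕ) : Har n (fun _ => 0) := ⟨continuous_const, fun x => proj_zero n x⟩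

theorem har_add {n : ℕ} {f g : S2 → ℂ} (hf : Har n f) (hg : Har n g) :
    Har n (fun y => f y + g y) :=
  ⟨hf.cont.add hg.cont, fun x => by rw [proj_add n hf.cont hg.cont, hf.rep, hg.rep]⟩

theorem har_const_mul {n : ℕ} {f : S2 → ℂ} (c : ℂ) (hf : Har n f) :
    Har n (fun y => c * f y) :=
  ⟨continuous_const.mul hf.cont, fun x => by rw [proj_const_mul, hf.rep]⟩

theorem har_proj_ne {n m : ℕ} (hnm : n ≠ m) {f : S2 → ℂ} (hf : Har m f) (x : S2) :
    proj n f x = 0 := by
  have h : proj m f = f := funext hf.rep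
  rw [← h]
  exact proj_proj_ne hnm hf.cont x

/-! ### the inner product -/

/-- the inner product of `L²(S²)` -/
def inn (f g : S2 → ℂ) : ℂ := ∫ x, f x * (starRingEnd ℂ) (g x) ∂σ

theorem N2_nonneg (f : S2 → ℂ) : 0 ≤ N2 f := integral_nonneg fun x => by positivity

theorem inn_self (f : S2 → ℂ) : inn f f = (N2 f : ℂ) := by
  unfold inn N2
  rw [← integral_complex_ofReal]
  refine integral_congr_ae (Eventually.of_forall fun x => ?_)
  simp only
  rw [Complex.mul_conj, Complex.normSq_eq_norm_sq]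

theorem inn_conj (f g : S2 → ℂ) : (starRingEnd ℂ) (inn f g) = inn g f := by
  unfold inn
  rw [← integral_conj]
  refine integral_congr_ae (Eventually.of_forall fun x => ?_)
  simp only [map_mul, Complex.conj_conj]
  ring

theorem inn_integrable {f g : S2 → ℂ} (hf : Continuous f) (hg : Continuous g) :
    Integrable (fun x => f x * (starRingEnd ℂ) (g x)) σ :=
  integrable_of_cont (hf.mul (continuous_conj.comp hg))

theorem inn_add_left {f g h : S2 → ℂ} (hf : Continuous f) (hg : Continuous g)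
    (hh : Continuous h) : inn (fun x => f x + g x) h = inn f h + inn g h := by
  unfold inn
  simp only [add_mul]
  exact integral_add (inn_integrable hf hh) (inn_integrable hg hh)

theorem inn_sub_left {f g h : S2 → ℂ} (hf : Continuous f) (hg : Continuous g)
    (hh : Continuous h) : inn (fun x => f x - g x) h = inn f h - inn g h := by
  unfold inn
  simp only [sub_mul]
  exact integral_sub (inn_integrable hf hh) (inn_integrable hg hh)

theorem inn_sub_right {f g h : S2 → ℂ} (hf : Continuous f) (hg : Continuous g)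
    (hh : Continuous h) : inn f (fun x => g x - h x) = inn f g - inn f h := by
  unfold inn
  simp only [map_sub, mul_sub]
  exact integral_sub (inn_integrable hf hg) (inn_integrable hf hh)

theorem inn_sum_left {ι : Type} (s : Finset ι) {f : ι → S2 → ℂ} {h : S2 → ℂ}
    (hf : ∀ i ∈ s, Continuous (f i)) (hh : Continuous h) :
    inn (fun x => ∑ i ∈ s, f i x) h = ∑ i ∈ s, inn (f i) h := by
  unfold inn
  simp only [Finset.sum_mul]
  exact integral_finsetSum _ fun i hi => inn_integrable (hf i hi) hh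

theorem inn_sum_right {ι : Type} (s : Finset ι) {f : ι → S2 → ℂ} {h : S2 → ℂ}
    (hf : ∀ i ∈ s, Continuous (f i)) (hh : Continuous h) :
    inn h (fun x => ∑ i ∈ s, f i x) = ∑ i ∈ s, inn h (f i) := by
  rw [← inn_conj, inn_sum_left s hf hh, map_sum]
  simp only [inn_conj]

/-- Cauchy-Schwarz for continuous real functions -/
theorem cs_real {u v : S2 → ℝ} (hu : Continuous u) (hv : Continuous v) :
    (∫ x, u x * v x ∂σ) ^ 2 ≤ (∫ x, u x ^ 2 ∂σ) * ∫ x, v x ^ 2 ∂σ := by
  have i1 : Integrable (fun x => u x ^ 2) σ := integrable_of_cont_real (hu.pow 2)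
  have i2 : Integrable (fun x => v x ^ 2) σ := integrable_of_cont_real (hv.pow 2)
  have i3 : Integrable (fun x => u x * v x) σ := integrable_of_cont_real (hu.mul hv)
  have key : ∀ t : ℝ, 0 ≤ (∫ x, v x ^ 2 ∂σ) * (t * t) + (2 * ∫ x, u x * v x ∂σ) * t
      + ∫ x, u x ^ 2 ∂σ := by
    intro t
    have h : 0 ≤ ∫ x, (u x + t * v x) ^ 2 ∂σ := integral_nonneg fun x => by positivity
    have h2 : ∫ x, (u x + t * v x) ^ 2 ∂σ =
        ∫ x, (u x ^ 2 + (2 * t) * (u x * v x)) + (t * t) * v x ^ 2 ∂σ := by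
      refine integral_congr_ae (Eventually.of_forall fun x => ?_)
      simp only
      ring
    have i4 : Integrable (fun x => u x ^ 2 + (2 * t) * (u x * v x)) σ :=
      i1.add (i3.const_mul (2 * t))
    rw [h2, integral_add i4 (i2.const_mul (t * t)), integral_add i1 (i3.const_mul (2 * t)),
      integral_const_mul, integral_const_mul] at h
    linarith
  have hd := discrim_le_zero key
  unfold discrim at hd
  nlinarith

theorem norm_inn_le {f g : S2 → ℂ} (hf : Continuous f) (hg : Continuous g) :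
    ‖inn f g‖ ^ 2 ≤ N2 f * N2 g := by
  have h1 : ‖inn f g‖ ≤ ∫ x, ‖f x‖ * ‖g x‖ ∂σ := by
    refine (norm_integral_le_integral_norm _).trans (le_of_eq ?_)
    refine integral_congr_ae (Eventually.of_forall fun x => ?_)
    simp only [norm_mul, RCLike.norm_conj]
  have h2 := cs_real hf.norm hg.norm
  calc ‖inn f g‖ ^ 2 ≤ (∫ x, ‖f x‖ * ‖g x‖ ∂σ) ^ 2 := by
        gcongr
    _ ≤ _ := h2

theorem inn_proj {f g : S2 → ℂ} (n : ℕ) (hf : Continuous f) (hg : Continuous g) :
    inn (proj n f) g = inn f (proj n g) := by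
  have h1 : inn (proj n f) g =
      ∫ x, ∫ y, ((Z n (ip x y) : ℂ) * f y) * (starRingEnd ℂ) (g x) ∂σ ∂σ := by
    unfold inn proj
    refine integral_congr_ae (Eventually.of_forall fun x => ?_)
    simp only
    rw [integral_mul_const]
  have hc : Continuous (fun p : S2 × S2 =>
      ((Z n (ip p.1 p.2) : ℂ) * f p.2) * (starRingEnd ℂ) (g p.1)) :=
    (proj_integrand_cont n hf).mul (continuous_conj.comp (hg.comp continuous_fst))
  rw [h1, swap_int hc]
  unfold inn proj
  refine integral_congr_ae (Eventually.of_forall fun y => ?_)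
  simp only
  rw [← integral_conj, ← integral_const_mul]
  refine integral_congr_ae (Eventually.of_forall fun x => ?_)
  simp only [map_mul, conj_ofReal]
  rw [ip_comm x y]
  ring

theorem inn_proj_proj {f g : S2 → ℂ} (n m : ℕ) (hf : Continuous f) (hg : Continuous g) :
    inn (proj n f) (proj m g) = if n = m then inn f (proj n g) else 0 := by
  rw [inn_proj n hf (proj_cont m hg)]
  have h : proj n (proj m g) = fun x => if n = m then proj n g x else 0 :=
    funext fun x => proj_proj n m hg x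
  rw [h]
  split
  · rfl
  · simp [inn]

theorem inn_har_ne {n m : ℕ} (hnm : n ≠ m) {f g : S2 → ℂ} (hf : Har n f) (hg : Har m g) :
    inn f g = 0 := by
  have h1 : proj n f = f := funext hf.rep
  have h2 : proj m g = g := funext hg.rep
  rw [← h1, ← h2, inn_proj_proj n m hf.cont hg.cont, if_neg hnm]

theorem N2_proj (n : ℕ) {h : S2 → ℂ} (hh : Continuous h) :
    (N2 (proj n h) : ℂ) = inn (proj n h) h := by
  rw [← inn_self, inn_proj_proj n n hh hh, if_pos rfl, inn_proj n hh hh]

theorem N2_proj' (n : ℕ) {h : S2 → ℂ} (hh : Continuous h) :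
    (N2 (proj n h) : ℂ) = inn h (proj n h) := by
  rw [N2_proj n hh, inn_proj n hh hh]

/-- Pythagoras -/
theorem N2_sum_har (s : Finset ℕ) (f : ℕ → S2 → ℂ) (hf : ∀ n, Har n (f n)) :
    N2 (fun x => ∑ n ∈ s, f n x) = ∑ n ∈ s, N2 (f n) := by
  have hc : Continuous (fun x => ∑ n ∈ s, f n x) :=
    continuous_finsetSum _ fun n _ => (hf n).cont
  have h : ((N2 (fun x => ∑ n ∈ s, f n x) : ℝ) : ℂ) = ((∑ n ∈ s, N2 (f n) : ℝ) : ℂ) := by
    rw [← inn_self, inn_sum_left s (fun n _ => (hf n).cont) hc]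
    push_cast
    refine Finset.sum_congr rfl fun n hn => ?_
    rw [inn_sum_right s (fun n _ => (hf n).cont) (hf n).cont, Finset.sum_eq_single n]
    · rw [inn_self]
    · intro m _ hmn
      exact inn_har_ne (Ne.symm hmn) (hf n) (hf m)
    · intro h; exact absurd hn h
  exact_mod_cast h

/-- the defect in Bessel's inequality -/
theorem N2_sub_proj (s : Finset ℕ) {h : S2 → ℂ} (hh : Continuous h) :
    N2 (fun x => h x - ∑ n ∈ s, proj n h x) = N2 h - ∑ n ∈ s, N2 (proj n h) := by
  have hP : Continuous (fun x => ∑ n ∈ s, proj n h x) :=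
    continuous_finsetSum _ fun n _ => proj_cont n hh
  have h1 : inn h (fun x => ∑ n ∈ s, proj n h x) = ((∑ n ∈ s, N2 (proj n h) : ℝ) : ℂ) := by
    rw [inn_sum_right s (fun n _ => proj_cont n hh) hh]
    push_cast
    exact Finset.sum_congr rfl fun n _ => (N2_proj' n hh).symm
  have h2 : inn (fun x => ∑ n ∈ s, proj n h x) h = ((∑ n ∈ s, N2 (proj n h) : ℝ) : ℂ) := by
    rw [← inn_conj, h1, conj_ofReal]
  have h3 : inn (fun x => ∑ n ∈ s, proj n h x) (fun x => ∑ n ∈ s, proj n h x)
      = ((∑ n ∈ s, N2 (proj n h) : ℝ) : ℂ) := by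
    rw [inn_self, N2_sum_har s (fun n => proj n h) fun n => proj_har n hh]
  have h4 : ((N2 (fun x => h x - ∑ n ∈ s, proj n h x) : ℝ) : ℂ) =
      ((N2 h - ∑ n ∈ s, N2 (proj n h) : ℝ) : ℂ) := by
    have hsub : Continuous (fun x => h x - ∑ n ∈ s, proj n h x) := hh.sub hP
    rw [← inn_self, inn_sub_left hh hP hsub, inn_sub_right hh hh hP,
      inn_sub_right hP hh hP, h1, h2, h3, inn_self]
    push_cast
    ring
  exact_mod_cast h4

/-- Bessel's inequality -/
theorem bessel (s : Finset ℕ) {h : S2 → ℂ} (hh : Continuous h) :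
    ∑ n ∈ s, N2 (proj n h) ≤ N2 h := by
  have h1 := N2_sub_proj s hh
  have h2 := N2_nonneg (fun x => h x - ∑ n ∈ s, proj n h x)
  linarith

theorem bessel_compl (s : Finset ℕ) {h : S2 → ℂ} (hh : Continuous h) :
    N2 (fun x => h x - ∑ n ∈ s, proj n h x) ≤ N2 h := by
  rw [N2_sub_proj s hh]
  have : 0 ≤ ∑ n ∈ s, N2 (proj n h) := Finset.sum_nonneg fun n _ => N2_nonneg _
  linarith

/-! ### the `R R*` lemma -/

/-- the key identity: `∫_y ‖Π_b (Z_a(·,y) h)‖² = ∑_j κ_j ‖Π_j h‖²` -/
theorem int_N2_proj (a b : ℕ) {h : S2 → ℂ} (hh : Continuous h) :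
    ∫ y, N2 (proj b (fun x => (Z a (ip x y) : ℂ) * h x)) ∂σ =
      ∑ j ∈ Finset.range (a + b + 1), kap a b j * N2 (proj j h) := by
  have hk : ∀ y, Continuous (fun x => (Z a (ip x y) : ℂ) * h x) :=
    fun y => (Zc_cont_left a y).mul hh
  -- everything as a triple integral
  have h1 : ((∫ y, N2 (proj b (fun x => (Z a (ip x y) : ℂ) * h x)) ∂σ : ℝ) : ℂ) =
      ∫ y, ∫ x, ∫ z, (Z b (ip x z) : ℂ) * ((Z a (ip z y) : ℂ) * h z) *
        ((Z a (ip x y) : ℂ) * (starRingEnd ℂ) (h x)) ∂σ ∂σ ∂σ := by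
    rw [← integral_complex_ofReal]
    refine integral_congr_ae (Eventually.of_forall fun y => ?_)
    simp only
    rw [N2_proj b (hk y)]
    unfold inn proj
    refine integral_congr_ae (Eventually.of_forall fun x => ?_)
    simp only [map_mul, conj_ofReal]
    rw [← integral_mul_const]
  -- swap `y` and `x`
  have hG1 : Continuous (fun p : S2 × S2 => ∫ z, (Z b (ip p.2 z) : ℂ) *
      ((Z a (ip z p.1) : ℂ) * h z) * ((Z a (ip p.2 p.1) : ℂ) * (starRingEnd ℂ) (h p.2)) ∂σ) := by
    refine cont_param (f := fun (p : S2 × S2) (z : S2) => (Z b (ip p.2 z) : ℂ) *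
      ((Z a (ip z p.1) : ℂ) * h z) * ((Z a (ip p.2 p.1) : ℂ) * (starRingEnd ℂ) (h p.2))) ?_
    refine ((Zc_comp b (by fun_prop) (by fun_prop)).mul ((Zc_comp a (by fun_prop)
      (by fun_prop)).mul (hh.comp (by fun_prop)))).mul ((Zc_comp a (by fun_prop)
      (by fun_prop)).mul (continuous_conj.comp (hh.comp (by fun_prop))))
  have h2 : ∫ y, ∫ x, ∫ z, (Z b (ip x z) : ℂ) * ((Z a (ip z y) : ℂ) * h z) *
        ((Z a (ip x y) : ℂ) * (starRingEnd ℂ) (h x)) ∂σ ∂σ ∂σ =
      ∫ x, ∫ y, ∫ z, (Z b (ip x z) : ℂ) * ((Z a (ip z y) : ℂ) * h z) *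
        ((Z a (ip x y) : ℂ) * (starRingEnd ℂ) (h x)) ∂σ ∂σ ∂σ := swap_int hG1
  have h3 : ∀ x, ∫ y, ∫ z, (Z b (ip x z) : ℂ) * ((Z a (ip z y) : ℂ) * h z) *
        ((Z a (ip x y) : ℂ) * (starRingEnd ℂ) (h x)) ∂σ ∂σ =
      ∫ z, ∫ y, (Z b (ip x z) : ℂ) * ((Z a (ip z y) : ℂ) * h z) *
        ((Z a (ip x y) : ℂ) * (starRingEnd ℂ) (h x)) ∂σ ∂σ := by
    intro x
    refine swap_int ?_
    refine ((Zc_comp b (by fun_prop) (by fun_prop)).mul ((Zc_comp a (by fun_prop)
      (by fun_prop)).mul (hh.comp (by fun_prop)))).mul ((Zc_comp a (by fun_prop)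
      (by fun_prop)).mul continuous_const)
  have h4 : ∀ x z, ∫ y, (Z b (ip x z) : ℂ) * ((Z a (ip z y) : ℂ) * h z) *
        ((Z a (ip x y) : ℂ) * (starRingEnd ℂ) (h x)) ∂σ =
      ((Z a (ip x z) * Z b (ip x z) : ℝ) : ℂ) * h z * (starRingEnd ℂ) (h x) := by
    intro x z
    have e : ∀ y, (Z b (ip x z) : ℂ) * ((Z a (ip z y) : ℂ) * h z) *
        ((Z a (ip x y) : ℂ) * (starRingEnd ℂ) (h x)) =
        ((Z b (ip x z) : ℂ) * h z * (starRingEnd ℂ) (h x)) *
          ((Z a (ip x y) : ℂ) * (Z a (ip y z) : ℂ)) := by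
      intro y
      rw [ip_comm z y]
      ring
    simp_rw [e]
    rw [integral_const_mul, Zc_conv, if_pos rfl]
    push_cast
    ring
  have h5 : ∀ x, ∫ z, ((Z a (ip x z) * Z b (ip x z) : ℝ) : ℂ) * h z * (starRingEnd ℂ) (h x) ∂σ =
      ∑ j ∈ Finset.range (a + b + 1), (kap a b j : ℂ) *
        (proj j h x * (starRingEnd ℂ) (h x)) := by
    intro x
    have e : ∀ z, ((Z a (ip x z) * Z b (ip x z) : ℝ) : ℂ) * h z * (starRingEnd ℂ) (h x) =
        ∑ j ∈ Finset.range (a + b + 1), (kap a b j : ℂ) *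
          (((Z j (ip x z) : ℂ) * h z) * (starRingEnd ℂ) (h x)) := by
      intro z
      rw [Z_mul]
      push_cast
      rw [Finset.sum_mul, Finset.sum_mul]
      refine Finset.sum_congr rfl fun j _ => ?_
      ring
    simp_rw [e]
    rw [integral_finsetSum]
    · refine Finset.sum_congr rfl fun j _ => ?_
      rw [integral_const_mul, integral_mul_const]
      rfl
    · intro j _
      refine integrable_of_cont ?_
      exact continuous_const.mul (((Zc_cont_right j x).mul hh).mul continuous_const)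
  have h6 : ((∫ y, N2 (proj b (fun x => (Z a (ip x y) : ℂ) * h x)) ∂σ : ℝ) : ℂ) =
      ((∑ j ∈ Finset.range (a + b + 1), kap a b j * N2 (proj j h) : ℝ) : ℂ) := by
    rw [h1, h2]
    simp_rw [h3, h4, h5]
    rw [integral_finsetSum]
    · push_cast
      refine Finset.sum_congr rfl fun j _ => ?_
      rw [integral_const_mul, N2_proj j hh]
      rfl
    · intro j _
      refine integrable_of_cont ?_
      exact continuous_const.mul ((proj_cont j hh).mul (continuous_conj.comp hh))
  exact_mod_cast h6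

theorem N2_cont_param {F : S2 → S2 → ℂ} (hF : Continuous (fun p : S2 × S2 => F p.1 p.2)) :
    Continuous (fun y => N2 (F y)) := by
  unfold N2
  have h := continuous_parametric_integral_of_continuous (μ := σ)
    (f := fun (y x : S2) => ‖F y x‖ ^ 2)
    (s := (Set.univ : Set S2)) (by exact (hF.norm.pow 2)) isCompact_univ
  simpa using h

/-- the single pair version -/
theorem rr_single (a b : ℕ) {f g h : S2 → ℂ} (hf : Har a f) (hg : Har b g)
    (hh : Continuous h) :
    ‖∫ x, f x * g x * (starRingEnd ℂ) (h x) ∂σ‖ ^ 2 ≤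
      N2 f * N2 g * ∑ j ∈ Finset.range (a + b + 1), kap a b j * N2 (proj j h) := by
  have hk : ∀ y, Continuous (fun x => (Z a (ip x y) : ℂ) * h x) :=
    fun y => (Zc_cont_left a y).mul hh
  have hPc : Continuous (fun p : S2 × S2 => proj b (fun x => (Z a (ip x p.1) : ℂ) * h x) p.2) := by
    unfold proj
    refine cont_param (f := fun (p : S2 × S2) (z : S2) => (Z b (ip p.2 z) : ℂ) *
      ((Z a (ip z p.1) : ℂ) * h z)) ?_
    refine ((Zc_cont b).comp ((continuous_snd.comp continuous_fst).prodMk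
      continuous_snd)).mul (((Zc_cont a).comp (continuous_snd.prodMk
      (continuous_fst.comp continuous_fst))).mul (hh.comp continuous_snd))
  -- the inner product as an integral over `y`
  have h1 : ∫ x, f x * g x * (starRingEnd ℂ) (h x) ∂σ =
      ∫ y, f y * inn g (proj b (fun x => (Z a (ip x y) : ℂ) * h x)) ∂σ := by
    have e1 : ∫ x, f x * g x * (starRingEnd ℂ) (h x) ∂σ =
        ∫ x, ∫ y, ((Z a (ip x y) : ℂ) * f y) * (g x * (starRingEnd ℂ) (h x)) ∂σ ∂σ := by
      refine integral_congr_ae (Eventually.of_forall fun x => ?_)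
      simp only
      rw [integral_mul_const, mul_assoc]
      congr 1
      exact (hf.rep x).symm
    have hc : Continuous (fun p : S2 × S2 =>
        ((Z a (ip p.1 p.2) : ℂ) * f p.2) * (g p.1 * (starRingEnd ℂ) (h p.1))) :=
      (proj_integrand_cont a hf.cont).mul ((hg.cont.comp continuous_fst).mul
        (continuous_conj.comp (hh.comp continuous_fst)))
    rw [e1, swap_int hc]
    refine integral_congr_ae (Eventually.of_forall fun y => ?_)
    simp only
    have e2 : inn g (proj b (fun x => (Z a (ip x y) : ℂ) * h x)) =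
        ∫ x, g x * ((Z a (ip x y) : ℂ) * (starRingEnd ℂ) (h x)) ∂σ := by
      rw [← inn_proj b hg.cont (hk y)]
      have : proj b g = g := funext hg.rep
      rw [this]
      unfold inn
      simp only [map_mul, conj_ofReal]
    rw [e2, ← integral_const_mul]
    refine integral_congr_ae (Eventually.of_forall fun x => ?_)
    simp only
    ring
  have hcont : Continuous (fun y => N2 (proj b (fun x => (Z a (ip x y) : ℂ) * h x))) :=
    N2_cont_param (F := fun y => proj b (fun x => (Z a (ip x y) : ℂ) * h x)) hPc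
  have h2 : ‖∫ y, f y * inn g (proj b (fun x => (Z a (ip x y) : ℂ) * h x)) ∂σ‖ ≤
      ∫ y, ‖f y‖ * (√(N2 g) * √(N2 (proj b (fun x => (Z a (ip x y) : ℂ) * h x)))) ∂σ := by
    refine norm_integral_le_of_norm_le ?_ (Eventually.of_forall fun y => ?_)
    · exact integrable_of_cont_real (hf.cont.norm.mul (continuous_const.mul hcont.sqrt))
    · rw [norm_mul]
      refine mul_le_mul_of_nonneg_left ?_ (norm_nonneg _)
      have := norm_inn_le hg.cont (proj_cont b (hk y))
      rw [← Real.sqrt_mul (N2_nonneg g)]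
      exact Real.le_sqrt_of_sq_le this
  have hcs : Continuous (fun y =>
      √(N2 g) * √(N2 (proj b (fun x => (Z a (ip x y) : ℂ) * h x)))) :=
    continuous_const.mul hcont.sqrt
  have h3 := cs_real hf.cont.norm hcs
  have h4 : ∫ y, (√(N2 g) * √(N2 (proj b (fun x => (Z a (ip x y) : ℂ) * h x)))) ^ 2 ∂σ =
      N2 g * ∑ j ∈ Finset.range (a + b + 1), kap a b j * N2 (proj j h) := by
    rw [← int_N2_proj a b hh, ← integral_const_mul]
    refine integral_congr_ae (Eventually.of_forall fun y => ?_)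
    simp only
    rw [mul_pow, Real.sq_sqrt (N2_nonneg g), Real.sq_sqrt (N2_nonneg _)]
  rw [h1]
  calc ‖∫ y, f y * inn g (proj b (fun x => (Z a (ip x y) : ℂ) * h x)) ∂σ‖ ^ 2
      ≤ (∫ y, ‖f y‖ * (√(N2 g) * √(N2 (proj b (fun x => (Z a (ip x y) : ℂ) * h x)))) ∂σ) ^ 2 := by
        gcongr
    _ ≤ _ := h3
    _ = N2 f * N2 g * ∑ j ∈ Finset.range (a + b + 1), kap a b j * N2 (proj j h) := by
        rw [h4, mul_assoc]
        rfl

/-- The `R R*` lemma. -/
theorem rr_star {ι : Type} (s : Finset ι) (a b : ι → ℕ) (f g : ι → S2 → ℂ)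
    (hf : ∀ i, Har (a i) (f i)) (hg : ∀ i, Har (b i) (g i)) {h : S2 → ℂ} (hh : Continuous h) :
    ‖∫ x, (∑ i ∈ s, f i x * g i x) * (starRingEnd ℂ) (h x) ∂σ‖ ^ 2 ≤
      (∑ i ∈ s, N2 (f i) * N2 (g i)) *
        ∑ i ∈ s, ∑ j ∈ Finset.range (a i + b i + 1), kap (a i) (b i) j * N2 (proj j h) := by
  set Q : ι → ℝ := fun i => ∑ j ∈ Finset.range (a i + b i + 1), kap (a i) (b i) j * N2 (proj j h)
    with hQ
  have hQ0 : ∀ i, 0 ≤ Q i := fun i => Finset.sum_nonneg fun j _ =>
    mul_nonneg (kap_nonneg _ _ _) (N2_nonneg _)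
  have h1 : ∫ x, (∑ i ∈ s, f i x * g i x) * (starRingEnd ℂ) (h x) ∂σ =
      ∑ i ∈ s, ∫ x, f i x * g i x * (starRingEnd ℂ) (h x) ∂σ := by
    rw [← integral_finsetSum]
    · simp only [Finset.sum_mul]
    · intro i _
      exact integrable_of_cont (((hf i).cont.mul (hg i).cont).mul (continuous_conj.comp hh))
  have h2 : ‖∑ i ∈ s, ∫ x, f i x * g i x * (starRingEnd ℂ) (h x) ∂σ‖ ≤
      ∑ i ∈ s, √(N2 (f i) * N2 (g i)) * √(Q i) := by
    refine (norm_sum_le _ _).trans (Finset.sum_le_sum fun i _ => ?_)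
    rw [← Real.sqrt_mul (mul_nonneg (N2_nonneg _) (N2_nonneg _))]
    exact Real.le_sqrt_of_sq_le (rr_single (a i) (b i) (hf i) (hg i) hh)
  have h3 := Finset.sum_mul_sq_le_sq_mul_sq s (fun i => √(N2 (f i) * N2 (g i)))
    (fun i => √(Q i))
  have h4 : ∀ i, √(N2 (f i) * N2 (g i)) ^ 2 = N2 (f i) * N2 (g i) := fun i =>
    Real.sq_sqrt (mul_nonneg (N2_nonneg _) (N2_nonneg _))
  have h5 : ∀ i, √(Q i) ^ 2 = Q i := fun i => Real.sq_sqrt (hQ0 i)
  simp only [h4, h5] at h3
  rw [h1]
  refine le_trans ?_ h3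
  gcongr

/-- pointwise bound for spherical harmonics -/
theorem har_sup (n : ℕ) {f : S2 → ℂ} (hf : Har n f) (x : S2) :
    ‖f x‖ ^ 2 ≤ (2 * n + 1) / (4 * π) * N2 f := by
  have h1 : ‖f x‖ ≤ ∫ y, |Z n (ip x y)| * ‖f y‖ ∂σ := by
    rw [← hf.rep x]
    unfold proj
    refine (norm_integral_le_integral_norm _).trans (le_of_eq ?_)
    refine integral_congr_ae (Eventually.of_forall fun y => ?_)
    simp only [norm_mul, Complex.norm_real, Real.norm_eq_abs]
  have hZ : Continuous (fun y => |Z n (ip x y)|) :=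
    ((Z_ip_cont n).comp (by fun_prop : Continuous (fun y : S2 => (x, y)))).abs
  have h2 := cs_real hZ hf.cont.norm
  have h3 : ∫ y, |Z n (ip x y)| ^ 2 ∂σ = (2 * n + 1) / (4 * π) := by
    have e := Z_conv n n x x
    rw [if_pos rfl, ip_self] at e
    have e2 : Z n 1 = (2 * n + 1) / (4 * π) := by
      unfold Z; rw [leg_one, mul_one]
    rw [← e2, ← e]
    refine integral_congr_ae (Eventually.of_forall fun y => ?_)
    simp only [sq_abs]
    rw [ip_comm y x]
    ring
  calc ‖f x‖ ^ 2 ≤ (∫ y, |Z n (ip x y)| * ‖f y‖ ∂σ) ^ 2 := by gcongr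
    _ ≤ _ := h2
    _ = _ := by rw [h3]; rfl

end

end Pool.Agent.DW
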