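import Pool.Agent.DW.Count

/-!
# Counting pairs in a window, without logarithms

Pairs `(n, m)` with `n ∈ [N, 2N)`, `m ∈ [M, 2M)`, `M ≤ N`, and `Λ(n) + Λ(m)` in a unit window.
-/

open Finset Real

namespace Pool.Agent.DW

noncomputable section

/-! ### Taylor bounds -/

theorem c2_taylor {N : ℝ} (hN : 2 ≤ N) {x y : ℝ} (hx : N ≤ x) (hxy : x ≤ y) (hy : y ≤ 2 * N) :
    cuL1 x * (y - x) + 1 / 10 / √N * (y - x) ^ 2 ≤ cuL y - cuL x ∧
      cuL y - cuL x ≤ cuL1 x * (y - x) + 1 / √N * (y - x) ^ 2 := by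
  have hs : 0 < √N := Real.sqrt_pos.2 (by linarith)
  have hi : 0 < 1 / √N := by positivity
  constructor
  · have key := cu_mvt (f := fun z => cuL z - cuL1 x * z - 1 / 10 / √N * (z - x) ^ 2)
      (f' := fun z => cuL1 z - cuL1 x - 1 / 5 / √N * (z - x)) (c := 0)
      (C := 1 / √N * (y - x)) hxy
      (fun z hz => by
        have h1 := cuL_deriv (x := z) (by linarith [hz.1])
        have h2 : HasDerivAt (fun z : ℝ => cuL1 x * z) (cuL1 x) z := by
          simpa using (hasDerivAt_id z).const_mul (cuL1 x)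
        have h3 : HasDerivAt (fun z : ℝ => 1 / 10 / √N * (z - x) ^ 2)
            (1 / 5 / √N * (z - x)) z := by
          have h4 := (((hasDerivAt_id z).sub_const x).pow 2).const_mul (1 / 10 / √N)
          refine h4.congr_deriv ?_
          simp only [id]
          norm_num
          ring
        exact (h1.sub h2).sub h3)
      (fun z hz => by
        have h1 := cuL1_sub hN (x := x) (y := z) hx hz.1 (by linarith [hz.2])
        have h2 : 0 ≤ z - x := by linarith [hz.1]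
        have h3 : 0 ≤ 1 / 5 / √N * (z - x) := by positivity
        have h4 : 1 / √N * (z - x) ≤ 1 / √N * (y - x) :=
          mul_le_mul_of_nonneg_left (by linarith [hz.2]) hi.le
        constructor
        · linarith [h1.1]
        · linarith [h1.2])
    have h1 := key.1
    simp only [sub_self] at h1
    norm_num at h1
    norm_num
    linarith
  · have key := cu_mvt (f := fun z => cuL z - cuL1 x * z)
      (f' := fun z => cuL1 z - cuL1 x) (c := 0)
      (C := 1 / √N * (y - x)) hxy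
      (fun z hz => by
        have h1 := cuL_deriv (x := z) (by linarith [hz.1])
        have h2 : HasDerivAt (fun z : ℝ => cuL1 x * z) (cuL1 x) z := by
          simpa using (hasDerivAt_id z).const_mul (cuL1 x)
        exact h1.sub h2)
      (fun z hz => by
        have h1 := cuL1_sub hN (x := x) (y := z) hx hz.1 (by linarith [hz.2])
        have h2 : 0 ≤ z - x := by linarith [hz.1]
        have h3 : 0 ≤ 1 / 5 / √N * (z - x) := by positivity
        have h4 : 1 / √N * (z - x) ≤ 1 / √N * (y - x) :=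
          mul_le_mul_of_nonneg_left (by linarith [hz.2]) hi.le
        constructor
        · linarith [h1.1]
        · linarith [h1.2])
    have h1 := key.2
    have e : 1 / √N * (y - x) * (y - x) = 1 / √N * (y - x) ^ 2 := by ring
    rw [e] at h1
    linarith

theorem c2_taylor' {N : ℝ} (hN : 2 ≤ N) {x y : ℝ} (hx : N ≤ x) (hxy : x ≤ y) (hy : y ≤ 2 * N) :
    cuL1 y * (y - x) - 1 / √N * (y - x) ^ 2 ≤ cuL y - cuL x ∧
      cuL y - cuL x ≤ cuL1 y * (y - x) - 1 / 10 / √N * (y - x) ^ 2 := by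
  have hs : 0 < √N := Real.sqrt_pos.2 (by linarith)
  have hi : 0 < 1 / √N := by positivity
  constructor
  · have h1 := c2_taylor hN hx hxy hy
    have h2 := cuL1_sub hN (x := x) (y := y) hx hxy hy
    have h3 : 0 ≤ y - x := by linarith
    have h4 : 0 ≤ 1 / 10 / √N * (y - x) ^ 2 := by positivity
    have h5 : cuL1 y * (y - x) ≤ (cuL1 x + 1 / √N * (y - x)) * (y - x) :=
      mul_le_mul_of_nonneg_right (by linarith [h2.2]) h3
    have e : (cuL1 x + 1 / √N * (y - x)) * (y - x) = cuL1 x * (y - x) + 1 / √N * (y - x) ^ 2 := by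
      ring
    linarith [h1.1]
  · have key := cu_mvt (f := fun z => cuL z - cuL1 y * z - 1 / 10 / √N * (y - z) ^ 2)
      (f' := fun z => cuL1 z - cuL1 y + 1 / 5 / √N * (y - z)) (c := -(1 / √N * (y - x)))
      (C := 0) hxy
      (fun z hz => by
        have h1 := cuL_deriv (x := z) (by linarith [hz.1])
        have h2 : HasDerivAt (fun z : ℝ => cuL1 y * z) (cuL1 y) z := by
          simpa using (hasDerivAt_id z).const_mul (cuL1 y)
        have h3 : HasDerivAt (fun z : ℝ => 1 / 10 / √N * (y - z) ^ 2)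
            (-(1 / 5 / √N * (y - z))) z := by
          have h4 := (((hasDerivAt_id z).const_sub y).pow 2).const_mul (1 / 10 / √N)
          refine h4.congr_deriv ?_
          simp only [id]
          norm_num
          ring
        refine ((h1.sub h2).sub h3).congr_deriv ?_
        ring)
      (fun z hz => by
        have h1 := cuL1_sub hN (x := z) (y := y) (by linarith [hz.1]) hz.2 hy
        have h2 : 0 ≤ y - z := by linarith [hz.2]
        have h3 : 0 ≤ 1 / 5 / √N * (y - z) := by positivity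
        have h4 : 1 / √N * (y - z) ≤ 1 / √N * (y - x) :=
          mul_le_mul_of_nonneg_left (by linarith [hz.1]) hi.le
        constructor
        · linarith [h1.2]
        · linarith [h1.1])
    have h1 := key.2
    simp only [sub_self] at h1
    norm_num at h1
    norm_num
    linarith

/-! ### windows -/

/-- the pairs with `n ∈ [N, 2N)`, `m ∈ [M, 2M)` in the window `[A, A+1)` -/
def Win2 (N M : ℕ) (A : ℝ) : Finset (ℕ × ℕ) := by
  classical
  exact (Ico N (2 * N) ×ˢ Ico M (2 * M)).filter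
    (fun p => A ≤ Lam p.1 + Lam p.2 ∧ Lam p.1 + Lam p.2 < A + 1)

theorem mem_Win2 {N M : ℕ} {A : ℝ} {n m : ℕ} :
    (n, m) ∈ Win2 N M A ↔ ((N ≤ n ∧ n < 2 * N) ∧ (M ≤ m ∧ m < 2 * M)) ∧
      A ≤ Lam n + Lam m ∧ Lam n + Lam m < A + 1 := by
  unfold Win2
  simp [Finset.mem_filter, Finset.mem_product, Finset.mem_Ico]

theorem mem_Win2' {N M : ℕ} {A : ℝ} {p : ℕ × ℕ} :
    p ∈ Win2 N M A ↔ ((N ≤ p.1 ∧ p.1 < 2 * N) ∧ (M ≤ p.2 ∧ p.2 < 2 * M)) ∧
      A ≤ Lam p.1 + Lam p.2 ∧ Lam p.1 + Lam p.2 < A + 1 :=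
  mem_Win2 (n := p.1) (m := p.2)

theorem w2_anti {N M : ℕ} {A : ℝ} {p p' : ℕ × ℕ} (hM : 64 ≤ M) (hMN : M ≤ N)
    (h1 : p ∈ Win2 N M A) (h2 : p' ∈ Win2 N M A) (hlt : p.2 < p'.2) : p'.1 < p.1 := by
  rw [mem_Win2'] at h1 h2
  by_contra hcon
  push Not at hcon
  have a1 := (la_sub (N := M) (by omega) h1.1.2.1 hlt.le h2.1.2.2.le).1
  have a2 := (la_sub (N := N) (by omega) h1.1.1.1 hcon h2.1.1.2.le).1
  have s8 := sqrt_ge8 hM
  have c1 : (1 : ℝ) ≤ (p'.2 : ℝ) - p.2 := by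
    have : (p.2 : ℝ) + 1 ≤ p'.2 := by exact_mod_cast hlt
    linarith
  have c2 : (0 : ℝ) ≤ (p'.1 : ℝ) - p.1 := by
    have : (p.1 : ℝ) ≤ p'.1 := by exact_mod_cast hcon
    linarith
  have b1 : √(M : ℝ) * 1 ≤ √M * ((p'.2 : ℝ) - p.2) := mul_le_mul_of_nonneg_left c1 (by linarith)
  have b2 : 0 ≤ √(N : ℝ) * ((p'.1 : ℝ) - p.1) := mul_nonneg (Real.sqrt_nonneg _) c2
  linarith [h1.2.1, h2.2.2]

theorem w2_inj {N M : ℕ} {A : ℝ} {p p' : ℕ × ℕ} (hM : 64 ≤ M) (hMN : M ≤ N)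
    (h1 : p ∈ Win2 N M A) (h2 : p' ∈ Win2 N M A) (he : p.2 = p'.2) : p = p' := by
  suffices h : p.1 = p'.1 from Prod.ext h he
  wlog hlt : p.1 ≤ p'.1 generalizing p p' with H
  · exact (H h2 h1 he.symm (by omega)).symm
  by_contra hne
  rw [mem_Win2'] at h1 h2
  have a2 := (la_sub (N := N) (by omega) h1.1.1.1 hlt h2.1.1.2.le).1
  have s8 := sqrt_ge8 (hM.trans hMN)
  have c2 : (1 : ℝ) ≤ (p'.1 : ℝ) - p.1 := by
    have : (p.1 : ℝ) + 1 ≤ p'.1 := by exact_mod_cast (show p.1 + 1 ≤ p'.1 by omega)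
    linarith
  have b2 : √(N : ℝ) * 1 ≤ √(N : ℝ) * ((p'.1 : ℝ) - p.1) :=
    mul_le_mul_of_nonneg_left c2 (by linarith)
  rw [he] at h1
  linarith [h1.2.1, h2.2.2, h1.2.2, h2.2.1]

/-- relation between the two increments -/
theorem w2_rel {N M : ℕ} {A : ℝ} {p p' : ℕ × ℕ} (hM : 64 ≤ M) (hMN : M ≤ N)
    (h1 : p ∈ Win2 N M A) (h2 : p' ∈ Win2 N M A) (hlt : p.2 < p'.2) :
    (p.1 : ℝ) - p'.1 ≤ 4 * ((p'.2 : ℝ) - p.2) ∧
    |((p.1 : ℝ) - p'.1) * cuL1 p.1 - ((p'.2 : ℝ) - p.2) * cuL1 p.2| ≤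
      17 * ((p'.2 : ℝ) - p.2) ^ 2 / √M + 1 := by
  have hn := w2_anti hM hMN h1 h2 hlt
  rw [mem_Win2'] at h1 h2
  have s8 := sqrt_ge8 hM
  have s8' := sqrt_ge8 (hM.trans hMN)
  have sMN : √(M : ℝ) ≤ √N := Real.sqrt_le_sqrt (by exact_mod_cast hMN)
  have hMR : (2 : ℝ) ≤ M := by
    have : (64 : ℝ) ≤ M := by exact_mod_cast hM
    linarith
  have hNR : (2 : ℝ) ≤ N := by
    have : (M : ℝ) ≤ N := by exact_mod_cast hMN
    linarith
  have a1 := la_sub (N := M) (by omega) h1.1.2.1 hlt.le h2.1.2.2.le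
  have a2 := la_sub (N := N) (by omega) h2.1.1.1 hn.le h1.1.1.2.le
  have t1 := c2_taylor hMR (x := p.2) (y := p'.2) (by exact_mod_cast h1.1.2.1)
    (by exact_mod_cast hlt.le) (by exact_mod_cast h2.1.2.2.le)
  have t2 := c2_taylor' hNR (x := p'.1) (y := p.1) (by exact_mod_cast h2.1.1.1)
    (by exact_mod_cast hn.le) (by exact_mod_cast h1.1.1.2.le)
  have e1 := Lam_eq p.1
  have e2 := Lam_eq p.2
  have e3 := Lam_eq p'.1
  have e4 := Lam_eq p'.2
  obtain ⟨x, hx⟩ : ∃ x : ℝ, x = (p'.2 : ℝ) - p.2 := ⟨_, rfl⟩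
  obtain ⟨y, hy⟩ : ∃ y : ℝ, y = (p.1 : ℝ) - p'.1 := ⟨_, rfl⟩
  rw [← hx] at a1 t1 ⊢
  rw [← hy] at a2 t2 ⊢
  have hx1 : 1 ≤ x := by
    have : (p.2 : ℝ) + 1 ≤ p'.2 := by exact_mod_cast hlt
    linarith
  have hy0 : 0 ≤ y := by
    have : (p'.1 : ℝ) ≤ p.1 := by exact_mod_cast hn.le
    linarith
  have hy4 : y ≤ 4 * x := by
    have b1 : √(N : ℝ) * y ≤ √N * (4 * x) := by
      have c1 : 3 * √(M : ℝ) * x ≤ 3 * √N * x := by gcongr
      have c2 : 1 ≤ √(N : ℝ) * x := by nlinarith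
      linarith [h1.2.1, h2.2.2, h1.2.2, h2.2.1, a1.2, a2.1]
    exact le_of_mul_le_mul_left b1 (by linarith)
  refine ⟨hy4, ?_⟩
  have hM0 : 0 < √(M : ℝ) := by linarith
  have hN0 : 0 < √(N : ℝ) := by linarith
  have b1 : 1 / √(N : ℝ) * y ^ 2 ≤ 16 * x ^ 2 / √M := by
    rw [div_mul_eq_mul_div, one_mul]
    have : y ^ 2 ≤ 16 * x ^ 2 := by nlinarith
    exact div_le_div₀ (by positivity) this hM0 sMN
  have b2 : 1 / √(M : ℝ) * x ^ 2 = x ^ 2 / √M := by ring
  have b3 : 17 * x ^ 2 / √(M : ℝ) = x ^ 2 / √M + 16 * x ^ 2 / √M := by ring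
  have b4 : 0 ≤ 1 / 10 / √(M : ℝ) * x ^ 2 := by positivity
  have b5 : 0 ≤ 1 / 10 / √(N : ℝ) * y ^ 2 := by positivity
  have b6 : 0 ≤ x ^ 2 / √(M : ℝ) := by positivity
  have b7 : 0 ≤ 16 * x ^ 2 / √(M : ℝ) := by positivity
  rw [b2] at t1
  rw [b3, abs_le]
  have c1 : y * cuL1 p.1 = cuL1 p.1 * y := mul_comm _ _
  have c2 : x * cuL1 p.2 = cuL1 p.2 * x := mul_comm _ _
  rw [c1, c2]
  constructor
  · linarith [h1.2.1, h2.2.2, h1.2.2, h2.2.1, t1.1, t1.2, t2.1, t2.2]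
  · linarith [h1.2.1, h2.2.2, h1.2.2, h2.2.1, t1.1, t1.2, t2.1, t2.2]

/-- three points on a line -/
theorem w2_line {N M : ℕ} {A : ℝ} {p1 p p2 : ℕ × ℕ} {q s : ℝ} (hM : 64 ≤ M) (hMN : M ≤ N)
    (h1 : p1 ∈ Win2 N M A) (h : p ∈ Win2 N M A) (h2 : p2 ∈ Win2 N M A) (hl1 : p1.2 < p.2)
    (hl2 : p.2 < p2.2) (hq : 0 < q)
    (e1 : q * ((p1.1 : ℝ) - p.1) = s * ((p.2 : ℝ) - p1.2))
    (e2 : q * ((p.1 : ℝ) - p2.1) = s * ((p2.2 : ℝ) - p.2)) :
    ((p.2 : ℝ) - p1.2) * ((p2.2 : ℝ) - p.2) ≤ 10 * √M := by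
  have hn1 := w2_anti hM hMN h1 h hl1
  have hn2 := w2_anti hM hMN h h2 hl2
  rw [mem_Win2'] at h1 h h2
  have s8 := sqrt_ge8 hM
  have s8' := sqrt_ge8 (hM.trans hMN)
  have hMR : (2 : ℝ) ≤ M := by
    have : (64 : ℝ) ≤ M := by exact_mod_cast hM
    linarith
  have hNR : (2 : ℝ) ≤ N := by
    have : (M : ℝ) ≤ N := by exact_mod_cast hMN
    linarith
  have t1 := (c2_taylor' hMR (x := p1.2) (y := p.2) (by exact_mod_cast h1.1.2.1)
    (by exact_mod_cast hl1.le) (by exact_mod_cast h.1.2.2.le)).2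
  have t2 := (c2_taylor hMR (x := p.2) (y := p2.2) (by exact_mod_cast h.1.2.1)
    (by exact_mod_cast hl2.le) (by exact_mod_cast h2.1.2.2.le)).1
  have t3 := (c2_taylor hNR (x := p.1) (y := p1.1) (by exact_mod_cast h.1.1.1)
    (by exact_mod_cast hn1.le) (by exact_mod_cast h1.1.1.2.le)).1
  have t4 := (c2_taylor' hNR (x := p2.1) (y := p.1) (by exact_mod_cast h2.1.1.1)
    (by exact_mod_cast hn2.le) (by exact_mod_cast h.1.1.2.le)).2
  have f1 := Lam_eq p.1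
  have f2 := Lam_eq p.2
  have f3 := Lam_eq p1.1
  have f4 := Lam_eq p1.2
  have f5 := Lam_eq p2.1
  have f6 := Lam_eq p2.2
  obtain ⟨x, hx⟩ : ∃ x : ℝ, x = (p.2 : ℝ) - p1.2 := ⟨_, rfl⟩
  obtain ⟨z, hz⟩ : ∃ z : ℝ, z = (p2.2 : ℝ) - p.2 := ⟨_, rfl⟩
  obtain ⟨y1, hy1⟩ : ∃ y : ℝ, y = (p1.1 : ℝ) - p.1 := ⟨_, rfl⟩
  obtain ⟨y2, hy2⟩ : ∃ y : ℝ, y = (p.1 : ℝ) - p2.1 := ⟨_, rfl⟩
  rw [← hx] at t1 e1 ⊢
  rw [← hz] at t2 e2 ⊢
  rw [← hy1] at t3 e1
  rw [← hy2] at t4 e2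
  have hx0 : 0 < x := by
    have : (p1.2 : ℝ) + 1 ≤ p.2 := by exact_mod_cast hl1
    linarith
  have hz0 : 0 < z := by
    have : (p.2 : ℝ) + 1 ≤ p2.2 := by exact_mod_cast hl2
    linarith
  have hM0 : 0 < √(M : ℝ) := by linarith
  have hN0 : 0 < √(N : ℝ) := by linarith
  have b1 : 0 ≤ 1 / 10 / √(N : ℝ) * y1 ^ 2 := by positivity
  have b2 : 0 ≤ 1 / 10 / √(N : ℝ) * y2 ^ 2 := by positivity
  obtain ⟨κ, hκ⟩ : ∃ κ : ℝ, κ = 1 / 10 / √(M : ℝ) := ⟨_, rfl⟩
  rw [← hκ] at t1 t2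
  have g1 : cuL1 p.1 * y1 ≤ cuL1 p.2 * x - κ * x ^ 2 + 1 := by
    linarith [h1.2.1, h2.2.2, h1.2.2, h2.2.1, h.2.1, h.2.2]
  have g2 : cuL1 p.2 * z + κ * z ^ 2 ≤ cuL1 p.1 * y2 + 1 := by
    linarith [h1.2.1, h2.2.2, h1.2.2, h2.2.1, h.2.1, h.2.2]
  have g3 : (s * cuL1 p.1 - q * cuL1 p.2) * x ≤ q - q * κ * x ^ 2 := by
    have : q * (cuL1 p.1 * y1) ≤ q * (cuL1 p.2 * x - κ * x ^ 2 + 1) :=
      mul_le_mul_of_nonneg_left g1 hq.le
    have e : q * (cuL1 p.1 * y1) = cuL1 p.1 * (s * x) := by rw [← e1]; ring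
    linarith
  have g4 : -(s * cuL1 p.1 - q * cuL1 p.2) * z ≤ q - q * κ * z ^ 2 := by
    have : q * (cuL1 p.2 * z + κ * z ^ 2) ≤ q * (cuL1 p.1 * y2 + 1) :=
      mul_le_mul_of_nonneg_left g2 hq.le
    have e : q * (cuL1 p.1 * y2) = cuL1 p.1 * (s * z) := by rw [← e2]; ring
    linarith
  have g5 := mul_le_mul_of_nonneg_right g3 hz0.le
  have g6 := mul_le_mul_of_nonneg_right g4 hx0.le
  have g7 : (q * (x + z)) * (κ * (x * z)) ≤ (q * (x + z)) * 1 := by nlinarith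
  have g8 : κ * (x * z) ≤ 1 := le_of_mul_le_mul_left g7 (by positivity)
  rw [hκ] at g8
  have e : 1 / 10 / √(M : ℝ) * (x * z) = x * z / (10 * √M) := by field_simp
  rw [e, div_le_one (by positivity)] at g8
  exact g8

/-- a set of integers with gaps larger than `g` -/
theorem c2_sep (T : Finset ℕ) {g R : ℝ} (hg : 0 < g) (hR : 0 ≤ R)
    (h : ∀ x ∈ T, ∀ y ∈ T, x < y → g < (y : ℝ) - x)
    (h2 : ∀ x ∈ T, ∀ y ∈ T, x ≤ y → (y : ℝ) - x ≤ R) : (T.card : ℝ) ≤ R / g + 1 := by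
  rcases T.eq_empty_or_nonempty with rfl | hne
  · simp only [Finset.card_empty, Nat.cast_zero]
    positivity
  set a := T.min' hne with ha
  have hmin : ∀ x ∈ T, a ≤ x := fun x hx => T.min'_le _ hx
  have hinj : Set.InjOn (fun x : ℕ => ⌊((x : ℝ) - a) / g⌋₊) T := by
    intro x hx y hy he
    by_contra hne
    wlog hlt : x < y generalizing x y with H
    · exact H hy hx he.symm (Ne.symm hne) (by omega)
    have h1 := h x hx y hy hlt
    have hxa : (0 : ℝ) ≤ ((x : ℝ) - a) / g := by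
      have : (a : ℝ) ≤ x := by exact_mod_cast hmin x hx
      exact div_nonneg (by linarith) hg.le
    have f1 := Nat.lt_floor_add_one (((x : ℝ) - a) / g)
    have f2 := Nat.floor_le (show (0 : ℝ) ≤ ((y : ℝ) - a) / g by
      have : (a : ℝ) ≤ y := by exact_mod_cast hmin y hy
      exact div_nonneg (by linarith) hg.le)
    simp only at he
    rw [← he] at f2
    have f3 : ((y : ℝ) - a) / g < ((x : ℝ) - a) / g + 1 := by
      by_contra hcon
      push Not at hcon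
      have f4 := Nat.le_floor (show ((⌊((x : ℝ) - a) / g⌋₊ + 1 : ℕ) : ℝ) ≤ ((y : ℝ) - a) / g by
        push_cast
        have := Nat.floor_le hxa
        linarith)
      omega
    rw [div_lt_iff₀ hg, add_mul, div_mul_cancel₀ _ hg.ne'] at f3
    linarith
  have hmaps : ∀ x ∈ T, ⌊((x : ℝ) - a) / g⌋₊ ∈ Finset.range (⌊R / g⌋₊ + 1) := by
    intro x hx
    rw [Finset.mem_range, Nat.lt_succ_iff]
    apply Nat.floor_le_floor
    apply div_le_div_of_nonneg_right _ hg.le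
    exact h2 a (T.min'_mem hne) x hx (hmin x hx)
  have hc := Finset.card_le_card_of_injOn _ hmaps hinj
  rw [Finset.card_range] at hc
  have h3 : (T.card : ℝ) ≤ ((⌊R / g⌋₊ + 1 : ℕ) : ℝ) := by exact_mod_cast hc
  push_cast at h3
  have := Nat.floor_le (show 0 ≤ R / g by positivity)
  linarith

/-- the quantity `M^{1/4}` -/
theorem c2_q {M : ℕ} (hM : 64 ≤ M) : ∃ q : ℝ, 5 / 2 ≤ q ∧ q ^ 4 = M ∧ √(M : ℝ) = q ^ 2 ∧
    (M : ℝ) ^ (1 / 4 : ℝ) = q := by
  have hMR : (64 : ℝ) ≤ M := by exact_mod_cast hM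
  refine ⟨(M : ℝ) ^ (1 / 4 : ℝ), ?_, ?_, ?_, rfl⟩
  · have h1 : (5 / 2 : ℝ) = ((5 / 2 : ℝ) ^ (4 : ℝ)) ^ (1 / 4 : ℝ) := by
      rw [← Real.rpow_mul (by norm_num)]; norm_num
    rw [h1]
    apply Real.rpow_le_rpow (by positivity) _ (by norm_num)
    norm_num
    linarith
  · rw [← Real.rpow_natCast, ← Real.rpow_mul (by linarith)]
    norm_num
  · rw [← Real.rpow_natCast, ← Real.rpow_mul (by linarith), Real.sqrt_eq_rpow]
    norm_num

/-- two short pairs are parallel -/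
theorem w2_par {N M : ℕ} {A : ℝ} {q : ℝ} {p1 p1' p2 p2' : ℕ × ℕ} (hM : 64 ≤ M) (hMN : M ≤ N)
    (hq : 5 / 2 ≤ q) (hq2 : √(M : ℝ) = q ^ 2)
    (h1 : p1 ∈ Win2 N M A) (h1' : p1' ∈ Win2 N M A)
    (h2 : p2 ∈ Win2 N M A) (h2' : p2' ∈ Win2 N M A) (hl1 : p1.2 < p1'.2) (hl2 : p2.2 < p2'.2)
    (hs1 : (p1'.2 : ℝ) - p1.2 ≤ q / 8) (hs2 : (p2'.2 : ℝ) - p2.2 ≤ q / 8)
    (hr : |(p1.2 : ℝ) - p2.2| ≤ √M) :
    ((p1.1 : ℤ) - p1'.1) * ((p2'.2 : ℤ) - p2.2) = ((p2.1 : ℤ) - p2'.1) * ((p1'.2 : ℤ) - p1.2) := by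
  -- it is enough to treat the case `p1.2 ≤ p2.2`
  wlog hle : p1.2 ≤ p2.2 generalizing p1 p1' p2 p2' with H
  · have := H h2 h2' h1 h1' hl2 hl1 hs2 hs1 (by rw [abs_sub_comm]; exact hr) (by omega)
    linarith
  have r1 := w2_rel hM hMN h1 h1' hl1
  have r2 := w2_rel hM hMN h2 h2' hl2
  have n1 := w2_anti hM hMN h1 h1' hl1
  have n2 := w2_anti hM hMN h2 h2' hl2
  have hMR : (64 : ℝ) ≤ M := by exact_mod_cast hM
  have hMNR : (M : ℝ) ≤ N := by exact_mod_cast hMN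
  have sMN : √(M : ℝ) ≤ √N := Real.sqrt_le_sqrt hMNR
  -- increments of the derivatives between the two base points
  have hd : ∃ dn dm : ℝ, 0 ≤ dm ∧ dm ≤ 1 ∧ 0 ≤ dn ∧ dn ≤ 4 ∧
      cuL1 p2.2 = cuL1 p1.2 + dm ∧ cuL1 p1.1 = cuL1 p2.1 + dn := by
    refine ⟨cuL1 p1.1 - cuL1 p2.1, cuL1 p2.2 - cuL1 p1.2, ?_⟩
    have hn : p2.1 ≤ p1.1 := by
      rcases hle.eq_or_lt with e | hlt
      · rw [w2_inj hM hMN h1 h2 e]
      · exact (w2_anti hM hMN h1 h2 hlt).le
    have k1 := (mem_Win2'.1 h1).1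
    have k2 := (mem_Win2'.1 h2).1
    have c1 := cuL1_sub (N := (M : ℝ)) (by linarith) (x := p1.2) (y := p2.2)
      (by exact_mod_cast k1.2.1) (by exact_mod_cast hle) (by exact_mod_cast k2.2.2.le)
    have c2 := cuL1_sub (N := (N : ℝ)) (by linarith) (x := p2.1) (y := p1.1)
      (by exact_mod_cast k2.1.1) (by exact_mod_cast hn) (by exact_mod_cast k1.1.2.le)
    have hM0 : 0 < √(M : ℝ) := Real.sqrt_pos.2 (by linarith)
    have hN0 : 0 < √(N : ℝ) := by linarith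
    have x0 : 0 ≤ (p2.2 : ℝ) - p1.2 := by
      have : (p1.2 : ℝ) ≤ p2.2 := by exact_mod_cast hle
      linarith
    have y0 : 0 ≤ (p1.1 : ℝ) - p2.1 := by
      have : (p2.1 : ℝ) ≤ p1.1 := by exact_mod_cast hn
      linarith
    have x1 : (p2.2 : ℝ) - p1.2 ≤ √M := by
      have := (abs_le.1 hr).1
      linarith
    have y1 : (p1.1 : ℝ) - p2.1 ≤ 4 * √M := by
      rcases hle.eq_or_lt with e | hlt
      · rw [w2_inj hM hMN h1 h2 e]; simp
      · have := (w2_rel hM hMN h1 h2 hlt).1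
        linarith
    have z1 : 0 ≤ 1 / 5 / √(M : ℝ) * ((p2.2 : ℝ) - p1.2) := by positivity
    have z2 : 0 ≤ 1 / 5 / √(N : ℝ) * ((p1.1 : ℝ) - p2.1) := by positivity
    have z3 : 1 / √(M : ℝ) * ((p2.2 : ℝ) - p1.2) ≤ 1 := by
      rw [div_mul_eq_mul_div, one_mul, div_le_one hM0]; exact x1
    have z4 : 1 / √(N : ℝ) * ((p1.1 : ℝ) - p2.1) ≤ 4 := by
      rw [div_mul_eq_mul_div, one_mul, div_le_iff₀ hN0]; linarith
    refine ⟨?_, ?_, ?_, ?_, ?_, ?_⟩
    · linarith [c1.1]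
    · linarith [c1.2]
    · linarith [c2.1]
    · linarith [c2.2]
    · ring
    · ring
  obtain ⟨dn, dm, dm0, dm1, dn0, dn1, ed1, ed2⟩ := hd
  have hL : √(N : ℝ) ≤ cuL1 p2.1 := by
    have k2 := (mem_Win2'.1 h2).1
    have : (N : ℝ) ≤ p2.1 := by exact_mod_cast k2.1.1
    exact (Real.sqrt_le_sqrt this).trans (cuL1_bounds (by linarith)).1
  obtain ⟨a, ha⟩ : ∃ x : ℝ, x = (p1'.2 : ℝ) - p1.2 := ⟨_, rfl⟩
  obtain ⟨b, hb⟩ : ∃ x : ℝ, x = (p2'.2 : ℝ) - p2.2 := ⟨_, rfl⟩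
  obtain ⟨a', ha'⟩ : ∃ x : ℝ, x = (p1.1 : ℝ) - p1'.1 := ⟨_, rfl⟩
  obtain ⟨b', hb'⟩ : ∃ x : ℝ, x = (p2.1 : ℝ) - p2'.1 := ⟨_, rfl⟩
  rw [← ha, ← ha'] at r1
  rw [← hb, ← hb'] at r2
  rw [← ha] at hs1
  rw [← hb] at hs2
  have a1 : 1 ≤ a := by
    have : (p1.2 : ℝ) + 1 ≤ p1'.2 := by exact_mod_cast hl1
    linarith
  have b1 : 1 ≤ b := by
    have : (p2.2 : ℝ) + 1 ≤ p2'.2 := by exact_mod_cast hl2
    linarith
  have a'0 : 0 ≤ a' := by
    have : (p1'.1 : ℝ) ≤ p1.1 := by exact_mod_cast n1.le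
    linarith
  have b'0 : 0 ≤ b' := by
    have : (p2'.1 : ℝ) ≤ p2.1 := by exact_mod_cast n2.le
    linarith
  have q0 : 0 < q := by linarith
  have E1 : 17 * a ^ 2 / √(M : ℝ) + 1 ≤ 2 := by
    have : 17 * a ^ 2 / √(M : ℝ) ≤ 1 := by
      rw [hq2, div_le_one (by positivity)]
      nlinarith
    linarith
  have E2 : 17 * b ^ 2 / √(M : ℝ) + 1 ≤ 2 := by
    have : 17 * b ^ 2 / √(M : ℝ) ≤ 1 := by
      rw [hq2, div_le_one (by positivity)]
      nlinarith
    linarith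
  have F1 := abs_le.1 (r1.2.trans E1)
  have F2 := abs_le.1 (r2.2.trans E2)
  rw [ed2] at F1
  rw [ed1] at F2
  obtain ⟨l, hl⟩ : ∃ l : ℝ, l = cuL1 p2.1 := ⟨_, rfl⟩
  obtain ⟨m, hm⟩ : ∃ m : ℝ, m = cuL1 p1.2 := ⟨_, rfl⟩
  rw [← hl] at F1 F2 hL
  rw [← hm] at F1 F2
  -- the cross product
  have key : |(a' * b - b' * a) * l| ≤ 2 * a + 2 * b + 17 * (a * b) := by
    have e : (a' * b - b' * a) * l = b * (a' * (l + dn) - a * m) - a * (b' * l - b * (m + dm))
        - a' * b * dn - a * b * dm := by ring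
    rw [e]
    have k1 : |b * (a' * (l + dn) - a * m)| ≤ b * 2 := by
      rw [abs_mul, abs_of_pos (by linarith : 0 < b)]
      exact mul_le_mul_of_nonneg_left (abs_le.2 ⟨F1.1, F1.2⟩) (by linarith)
    have k2 : |a * (b' * l - b * (m + dm))| ≤ a * 2 := by
      rw [abs_mul, abs_of_pos (by linarith : 0 < a)]
      exact mul_le_mul_of_nonneg_left (abs_le.2 ⟨F2.1, F2.2⟩) (by linarith)
    have k3 : a' * b * dn ≤ 16 * (a * b) := by
      have : a' * b ≤ 4 * (a * b) := by nlinarith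
      nlinarith [mul_nonneg a'0 (by linarith : (0 : ℝ) ≤ b)]
    have k4 : a * b * dm ≤ a * b := by
      have : 0 ≤ a * b := by positivity
      nlinarith
    have k5 : 0 ≤ a' * b * dn := by positivity
    have k6 : 0 ≤ a * b * dm := by positivity
    have k1' := abs_le.1 k1
    have k2' := abs_le.1 k2
    rw [abs_le]
    constructor
    · linarith
    · nlinarith
  have hlq : q ^ 2 ≤ l := by
    rw [← hq2]; exact sMN.trans hL
  have hab : a * b ≤ q / 8 * (q / 8) := mul_le_mul hs1 hs2 (by linarith) (by linarith)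
  have hlt : |(a' * b - b' * a)| < 1 := by
    by_contra hcon
    push Not at hcon
    rw [abs_mul, abs_of_pos (by nlinarith : 0 < l)] at key
    have : l ≤ |(a' * b - b' * a)| * l := by nlinarith
    nlinarith
  have hint : |((((p1.1 : ℤ) - p1'.1) * ((p2'.2 : ℤ) - p2.2)
      - ((p2.1 : ℤ) - p2'.1) * ((p1'.2 : ℤ) - p1.2) : ℤ) : ℝ)| < 1 := by
    push_cast
    rw [← ha, ← hb, ← ha', ← hb']
    exact hlt
  rw [← Int.cast_abs] at hint
  have h0 : |(((p1.1 : ℤ) - p1'.1) * ((p2'.2 : ℤ) - p2.2)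
      - ((p2.1 : ℤ) - p2'.1) * ((p1'.2 : ℤ) - p1.2))| < 1 := by exact_mod_cast hint
  have h3 := Int.abs_lt_one_iff.1 h0
  linarith

/-- the points in an interval of length `√M` -/
theorem w2_interval {N M : ℕ} {A : ℝ} (T : Finset (ℕ × ℕ)) (hM : 64 ≤ M) (hMN : M ≤ N)
    (hT : T ⊆ Win2 N M A) (hr : ∀ p ∈ T, ∀ p' ∈ T, |(p.2 : ℝ) - p'.2| ≤ √M) :
    (T.card : ℝ) ≤ 3500 * (M : ℝ) ^ (1 / 4 : ℝ) := by
  classical
  obtain ⟨q, hq, hq4, hq2, hq1⟩ := c2_q hM
  rw [hq1]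
  have q0 : 0 < q := by linarith
  have hMR : (64 : ℝ) ≤ M := by exact_mod_cast hM
  have hMNR : (M : ℝ) ≤ N := by exact_mod_cast hMN
  have sMN : √(M : ℝ) ≤ √N := Real.sqrt_le_sqrt hMNR
  have hM0 : 0 < √(M : ℝ) := by rw [hq2]; positivity
  have hN0 : 0 < √(N : ℝ) := by linarith
  set Sh := T.filter (fun p => ∃ p' ∈ T, p.2 < p'.2 ∧ (p'.2 : ℝ) - p.2 ≤ q / 8) with hSh
  set Lg := T.filter (fun p => ¬ ∃ p' ∈ T, p.2 < p'.2 ∧ (p'.2 : ℝ) - p.2 ≤ q / 8) with hLg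
  have hcard : T.card = Sh.card + Lg.card :=
    (Finset.card_filter_add_card_filter_not _).symm
  have hinj : ∀ U : Finset (ℕ × ℕ), U ⊆ T → Set.InjOn (fun p : ℕ × ℕ => p.2) U := by
    intro U hU p hp p' hp' he
    exact w2_inj hM hMN (hT (hU hp)) (hT (hU hp')) he
  -- the long ones
  have hL : (Lg.card : ℝ) ≤ 9 * q := by
    rw [← Finset.card_image_of_injOn (hinj Lg (Finset.filter_subset _ _))]
    have h1 := c2_sep (Lg.image (fun p => p.2)) (g := q / 8) (R := √M) (by positivity) hM0.le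
      (by
        intro x hx y hy hxy
        rw [Finset.mem_image] at hx hy
        obtain ⟨p, hp, rfl⟩ := hx
        obtain ⟨p', hp', rfl⟩ := hy
        rw [hLg, Finset.mem_filter] at hp hp'
        by_contra hcon
        push Not at hcon
        exact hp.2 ⟨p', hp'.1, hxy, hcon⟩)
      (by
        intro x hx y hy _
        rw [Finset.mem_image] at hx hy
        obtain ⟨p, hp, rfl⟩ := hx
        obtain ⟨p', hp', rfl⟩ := hy
        rw [hLg, Finset.mem_filter] at hp hp'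
        have := (abs_le.1 (hr p hp.1 p' hp'.1)).1
        linarith)
    refine h1.trans ?_
    have : √(M : ℝ) / (q / 8) = 8 * q := by
      rw [hq2]; field_simp
    rw [this]
    linarith
  -- the short ones
  have hS : (Sh.card : ℝ) ≤ 3440 * q := by
    rcases Sh.eq_empty_or_nonempty with hem | ⟨pp, hpp⟩
    · rw [hem, Finset.card_empty, Nat.cast_zero]; positivity
    set Pr := (T ×ˢ T).filter (fun z => z.1.2 < z.2.2 ∧ (z.2.2 : ℝ) - z.1.2 ≤ q / 8) with hPr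
    have hPne : Pr.Nonempty := by
      rw [hSh, Finset.mem_filter] at hpp
      obtain ⟨hp, p', hp', h1, h2⟩ := hpp
      exact ⟨(pp, p'), by
        rw [hPr, Finset.mem_filter, Finset.mem_product]
        exact ⟨⟨hp, hp'⟩, h1, h2⟩⟩
    obtain ⟨⟨P0, P0'⟩, hz, hmin⟩ := Pr.exists_min_image (fun z => z.2.2 - z.1.2) hPne
    rw [hPr, Finset.mem_filter, Finset.mem_product] at hz
    obtain ⟨⟨hP0, hP0'⟩, hl0, hs0⟩ := hz
    simp only at hP0 hP0' hl0 hs0
    have hn0 := w2_anti hM hMN (hT hP0) (hT hP0') hl0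
    obtain ⟨g, hg⟩ : ∃ g : ℕ, g = P0'.2 - P0.2 := ⟨_, rfl⟩
    obtain ⟨s, hs⟩ : ∃ s : ℕ, s = P0.1 - P0'.1 := ⟨_, rfl⟩
    have hgR : (g : ℝ) = (P0'.2 : ℝ) - P0.2 := by rw [hg, Nat.cast_sub hl0.le]
    have hsR : (s : ℝ) = (P0.1 : ℝ) - P0'.1 := by rw [hs, Nat.cast_sub hn0.le]
    have hg1 : 1 ≤ g := by omega
    have hgR1 : (1 : ℝ) ≤ g := by exact_mod_cast hg1
    have hgq : (g : ℝ) ≤ q / 8 := by rw [hgR]; exact hs0
    have hgM : (g : ℝ) ≤ √M := by rw [hq2]; nlinarith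
    -- the function `u`
    have hu : ∀ p ∈ Sh, |(s : ℝ) * cuL1 p.1 - g * cuL1 p.2| ≤ 2 := by
      intro p hp
      rw [hSh, Finset.mem_filter] at hp
      obtain ⟨hpT, p', hp', hl, hsh⟩ := hp
      have hpar := w2_par hM hMN hq hq2 (hT hpT) (hT hp') (hT hP0) (hT hP0') hl hl0 hsh hs0
        (hr p hpT P0 hP0)
      have hparR : ((p.1 : ℝ) - p'.1) * g = s * ((p'.2 : ℝ) - p.2) := by
        rw [hgR, hsR]
        exact_mod_cast hpar
      have hr1 := w2_rel hM hMN (hT hpT) (hT hp') hl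
      have hga : (g : ℝ) ≤ (p'.2 : ℝ) - p.2 := by
        have h1 := hmin (p, p') (by
          rw [hPr, Finset.mem_filter, Finset.mem_product]
          exact ⟨⟨hpT, hp'⟩, hl, hsh⟩)
        simp only at h1
        have h2 : g ≤ p'.2 - p.2 := by omega
        have h3 : (g : ℝ) ≤ ((p'.2 - p.2 : ℕ) : ℝ) := by exact_mod_cast h2
        rwa [Nat.cast_sub hl.le] at h3
      obtain ⟨a, ha⟩ : ∃ x : ℝ, x = (p'.2 : ℝ) - p.2 := ⟨_, rfl⟩
      obtain ⟨a', ha'⟩ : ∃ x : ℝ, x = (p.1 : ℝ) - p'.1 := ⟨_, rfl⟩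
      rw [← ha, ← ha'] at hr1 hparR
      rw [← ha] at hga hsh
      have E1 : 17 * a ^ 2 / √(M : ℝ) + 1 ≤ 2 := by
        have : 17 * a ^ 2 / √(M : ℝ) ≤ 1 := by
          rw [hq2, div_le_one (by positivity)]
          nlinarith
        linarith
      have F1 := hr1.2.trans E1
      have h1 : |a * ((s : ℝ) * cuL1 p.1 - g * cuL1 p.2)| ≤ g * 2 := by
        have e : a * ((s : ℝ) * cuL1 p.1 - g * cuL1 p.2) = g * (a' * cuL1 p.1 - a * cuL1 p.2) := by
          have : a * (s : ℝ) = g * a' := by linarith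
          calc a * ((s : ℝ) * cuL1 p.1 - g * cuL1 p.2)
              = (a * s) * cuL1 p.1 - a * g * cuL1 p.2 := by ring
            _ = (g * a') * cuL1 p.1 - a * g * cuL1 p.2 := by rw [this]
            _ = _ := by ring
        rw [e, abs_mul, abs_of_pos (by linarith : (0 : ℝ) < g)]
        exact mul_le_mul_of_nonneg_left F1 (by linarith)
      rw [abs_mul, abs_of_pos (by linarith : 0 < a)] at h1
      have h2 : a * |(s : ℝ) * cuL1 p.1 - g * cuL1 p.2| ≤ a * 2 := by linarith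
      exact le_of_mul_le_mul_left h2 (by linarith)
    have hShT : ∀ p ∈ Sh, p ∈ T := fun p hp => (Finset.mem_filter.1 hp).1
    -- localisation
    have hloc : ∀ p ∈ Sh, ∀ p' ∈ Sh, p.2 < p'.2 → (g : ℝ) * ((p'.2 : ℝ) - p.2) ≤ 20 * √M := by
      intro p hp p' hp' hl
      have u1 := abs_le.1 (hu p hp)
      have u2 := abs_le.1 (hu p' hp')
      have k1 := (mem_Win2'.1 (hT (hShT p hp))).1
      have k2 := (mem_Win2'.1 (hT (hShT p' hp'))).1
      have hn := w2_anti hM hMN (hT (hShT p hp)) (hT (hShT p' hp')) hl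
      have c1 := (cuL1_sub (N := (M : ℝ)) (by linarith) (x := p.2) (y := p'.2)
        (by exact_mod_cast k1.2.1) (by exact_mod_cast hl.le) (by exact_mod_cast k2.2.2.le)).1
      have c2 := (cuL1_sub (N := (N : ℝ)) (by linarith) (x := p'.1) (y := p.1)
        (by exact_mod_cast k2.1.1) (by exact_mod_cast hn.le) (by exact_mod_cast k1.1.2.le)).1
      have c3 : 0 ≤ 1 / 5 / √(N : ℝ) * ((p.1 : ℝ) - p'.1) := by
        have : (p'.1 : ℝ) ≤ p.1 := by exact_mod_cast hn.le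
        have : 0 ≤ (p.1 : ℝ) - p'.1 := by linarith
        positivity
      have c4 : 0 ≤ (s : ℝ) * (cuL1 p.1 - cuL1 p'.1) :=
        mul_nonneg (Nat.cast_nonneg _) (by linarith)
      have c5 : (g : ℝ) * (1 / 5 / √(M : ℝ) * ((p'.2 : ℝ) - p.2)) ≤
          g * (cuL1 p'.2 - cuL1 p.2) := mul_le_mul_of_nonneg_left c1 (by linarith)
      have c6 : (g : ℝ) * (1 / 5 / √(M : ℝ) * ((p'.2 : ℝ) - p.2)) ≤ 4 := by nlinarith
      have e : (g : ℝ) * (1 / 5 / √(M : ℝ) * ((p'.2 : ℝ) - p.2)) =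
          (g : ℝ) * ((p'.2 : ℝ) - p.2) / (5 * √M) := by field_simp
      rw [e, div_le_iff₀ (by positivity)] at c6
      linarith
    -- the lines
    have hlines : ∀ p ∈ Sh, ∀ p' ∈ Sh, p.2 ≤ p'.2 →
        |(g : ℝ) * ((p.1 : ℝ) - p'.1) - s * ((p'.2 : ℝ) - p.2)| ≤ 343 := by
      intro p hp p' hp' hle
      rcases hle.eq_or_lt with e | hl
      · rw [w2_inj hM hMN (hT (hShT p hp)) (hT (hShT p' hp')) e]
        simp
      have hlo := hloc p hp p' hp' hl
      have u1 := hu p hp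
      have r1 := (w2_rel hM hMN (hT (hShT p hp)) (hT (hShT p' hp')) hl).2
      have k1 := (mem_Win2'.1 (hT (hShT p hp))).1
      have hxM : (p'.2 : ℝ) - p.2 ≤ √M := by
        have := (abs_le.1 (hr p (hShT p hp) p' (hShT p' hp'))).1
        linarith
      have hLn : √(M : ℝ) ≤ cuL1 p.1 := by
        have : (N : ℝ) ≤ p.1 := by exact_mod_cast k1.1.1
        exact sMN.trans ((Real.sqrt_le_sqrt this).trans (cuL1_bounds (by linarith)).1)
      obtain ⟨x, hx⟩ : ∃ x : ℝ, x = (p'.2 : ℝ) - p.2 := ⟨_, rfl⟩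
      obtain ⟨y, hy⟩ : ∃ x : ℝ, x = (p.1 : ℝ) - p'.1 := ⟨_, rfl⟩
      rw [← hx] at hlo r1 hxM ⊢
      rw [← hy] at r1 ⊢
      have hx0 : 0 < x := by
        have : (p.2 : ℝ) + 1 ≤ p'.2 := by exact_mod_cast hl
        linarith
      have h1 : |(g : ℝ) * (y * cuL1 p.1 - x * cuL1 p.2)| ≤ 340 * x + g := by
        rw [abs_mul, abs_of_pos (by linarith : (0 : ℝ) < g)]
        refine (mul_le_mul_of_nonneg_left r1 (by linarith)).trans ?_
        have e : (g : ℝ) * (17 * x ^ 2 / √M + 1) = 17 * x * ((g * x) / √M) + g := by ring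
        rw [e]
        have : (g : ℝ) * x / √M ≤ 20 := by rw [div_le_iff₀ hM0]; exact hlo
        nlinarith
      have h2 : |x * ((s : ℝ) * cuL1 p.1 - g * cuL1 p.2)| ≤ 2 * x := by
        rw [abs_mul, abs_of_pos hx0]
        linarith [mul_le_mul_of_nonneg_left u1 hx0.le]
      have h3 : |((g : ℝ) * y - s * x) * cuL1 p.1| ≤ 343 * √M := by
        have e : ((g : ℝ) * y - s * x) * cuL1 p.1 = g * (y * cuL1 p.1 - x * cuL1 p.2)
            - x * ((s : ℝ) * cuL1 p.1 - g * cuL1 p.2) := by ring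
        rw [e]
        refine (abs_sub _ _).trans ?_
        linarith
      rw [abs_mul, abs_of_pos (by linarith : 0 < cuL1 p.1)] at h3
      have h4 : |(g : ℝ) * y - s * x| * √M ≤ 343 * √M :=
        (mul_le_mul_of_nonneg_left hLn (abs_nonneg _)).trans h3
      exact le_of_mul_le_mul_right h4 hM0
    -- the number of values
    have himg : ((Sh.image (fun p => g * p.1 + s * p.2)).card : ℝ) ≤ 343 + 1 := by
      apply card_interval _ (by norm_num)
      intro x hx y hy _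
      rw [Finset.mem_image] at hx hy
      obtain ⟨p, hp, rfl⟩ := hx
      obtain ⟨p', hp', rfl⟩ := hy
      push_cast
      rcases le_total p.2 p'.2 with h | h
      · have := (abs_le.1 (hlines p hp p' hp' h)).1
        linarith
      · have := (abs_le.1 (hlines p' hp' p hp h)).2
        linarith
    -- the fibres
    have hfib : ∀ b ∈ Sh.image (fun p => g * p.1 + s * p.2),
        ((Sh.filter (fun p => g * p.1 + s * p.2 = b)).card : ℝ) ≤ 10 * q := by
      intro b _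
      set F := Sh.filter (fun p => g * p.1 + s * p.2 = b) with hF
      have hFT : F ⊆ T := (Finset.filter_subset _ _).trans (Finset.filter_subset _ _)
      rcases F.eq_empty_or_nonempty with hem | hne
      · rw [hem, Finset.card_empty, Nat.cast_zero]; positivity
      obtain ⟨p1, hp1, hmin1⟩ := F.exists_min_image (fun p => p.2) hne
      obtain ⟨p2, hp2, hmax2⟩ := F.exists_max_image (fun p => p.2) hne
      have hval : ∀ p ∈ F, (g : ℝ) * p.1 + s * p.2 = b := by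
        intro p hp
        have := (Finset.mem_filter.1 hp).2
        exact_mod_cast this
      have hsub : F ⊆ F.filter (fun p => (p.2 : ℝ) - p1.2 ≤ 4 * q) ∪
          F.filter (fun p => (p2.2 : ℝ) - p.2 ≤ 4 * q) := by
        intro p hp
        rw [Finset.mem_union]
        by_contra hcon
        rw [not_or] at hcon
        have c1 : 4 * q < (p.2 : ℝ) - p1.2 := by
          by_contra h
          exact hcon.1 (Finset.mem_filter.2 ⟨hp, not_lt.1 h⟩)
        have c2 : 4 * q < (p2.2 : ℝ) - p.2 := by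
          by_contra h
          exact hcon.2 (Finset.mem_filter.2 ⟨hp, not_lt.1 h⟩)
        have l1 : p1.2 < p.2 := by
          have : (p1.2 : ℝ) < p.2 := by linarith
          exact_mod_cast this
        have l2 : p.2 < p2.2 := by
          have : (p.2 : ℝ) < p2.2 := by linarith
          exact_mod_cast this
        have e1 : (g : ℝ) * ((p1.1 : ℝ) - p.1) = s * ((p.2 : ℝ) - p1.2) := by
          have a1 := hval p1 hp1
          have a2 := hval p hp
          linarith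
        have e2 : (g : ℝ) * ((p.1 : ℝ) - p2.1) = s * ((p2.2 : ℝ) - p.2) := by
          have a1 := hval p2 hp2
          have a2 := hval p hp
          linarith
        have h1 := w2_line hM hMN (hT (hFT hp1)) (hT (hFT hp)) (hT (hFT hp2)) l1 l2
          (by linarith : (0 : ℝ) < g) e1 e2
        rw [hq2] at h1
        nlinarith
      have hc1 : ∀ U : Finset (ℕ × ℕ), U ⊆ T → (∀ p ∈ U, ∀ p' ∈ U, (p'.2 : ℝ) - p.2 ≤ 4 * q) →
          (U.card : ℝ) ≤ 4 * q + 1 := by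
        intro U hU h
        rw [← Finset.card_image_of_injOn (hinj U hU)]
        apply card_interval _ (by positivity)
        intro x hx y hy _
        rw [Finset.mem_image] at hx hy
        obtain ⟨p, hp, rfl⟩ := hx
        obtain ⟨p', hp', rfl⟩ := hy
        exact h p hp p' hp'
      have k1 := hc1 (F.filter (fun p => (p.2 : ℝ) - p1.2 ≤ 4 * q))
        ((Finset.filter_subset _ _).trans hFT) (by
          intro p hp p' hp'
          rw [Finset.mem_filter] at hp hp'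
          have : (p1.2 : ℝ) ≤ p.2 := by exact_mod_cast hmin1 p hp.1
          linarith [hp'.2])
      have k2 := hc1 (F.filter (fun p => (p2.2 : ℝ) - p.2 ≤ 4 * q))
        ((Finset.filter_subset _ _).trans hFT) (by
          intro p hp p' hp'
          rw [Finset.mem_filter] at hp hp'
          have : (p'.2 : ℝ) ≤ p2.2 := by exact_mod_cast hmax2 p' hp'.1
          linarith [hp.2])
      have k3 : (F.card : ℝ) ≤ ((F.filter (fun p => (p.2 : ℝ) - p1.2 ≤ 4 * q)).card : ℝ) +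
          ((F.filter (fun p => (p2.2 : ℝ) - p.2 ≤ 4 * q)).card : ℝ) := by
        exact_mod_cast (Finset.card_le_card hsub).trans (Finset.card_union_le _ _)
      linarith
    have := card_fib Sh (fun p => g * p.1 + s * p.2) hfib
    refine this.trans ?_
    have : ((Sh.image (fun p => g * p.1 + s * p.2)).card : ℝ) * (10 * q) ≤ (343 + 1) * (10 * q) :=
      mul_le_mul_of_nonneg_right himg (by positivity)
    linarith
  rw [hcard]
  push_cast
  linarith

/-- any interval -/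
theorem w2_count : ∃ C > 0, ∀ (N M : ℕ) (A : ℝ) (H m0 : ℕ), 64 ≤ M → M ≤ N →
    (((Win2 N M A).filter (fun p => m0 ≤ p.2 ∧ p.2 < m0 + H)).card : ℝ) ≤
      C * (H / √M + 1) * (M : ℝ) ^ (1 / 4 : ℝ) := by
  refine ⟨7000, by norm_num, fun N M A H m0 hM hMN => ?_⟩
  have s8 := sqrt_ge8 hM
  set r := Nat.sqrt M with hr
  have hr8 : 8 ≤ r := by rw [hr, Nat.le_sqrt]; omega
  have hrS : (r : ℝ) ≤ √M := Real.nat_sqrt_le_real_sqrt
  have hSr : √(M : ℝ) ≤ 2 * r := by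
    have h1 : √(M : ℝ) ≤ r + 1 := Real.real_sqrt_le_nat_sqrt_succ
    have : (8 : ℝ) ≤ r := by exact_mod_cast hr8
    linarith
  have hr0 : (0 : ℝ) < r := by
    have : (8 : ℝ) ≤ r := by exact_mod_cast hr8
    linarith
  have hq0 : (0 : ℝ) ≤ (M : ℝ) ^ (1 / 4 : ℝ) := by positivity
  have hsub : (Win2 N M A).filter (fun p => m0 ≤ p.2 ∧ p.2 < m0 + H) ⊆
      (Finset.range (H / r + 1)).biUnion (fun i =>
        (Win2 N M A).filter (fun p => m0 + i * r ≤ p.2 ∧ p.2 < (m0 + i * r) + r)) := by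
    rintro ⟨n, m⟩ hp
    simp only [Finset.mem_filter, Finset.mem_biUnion, Finset.mem_range] at hp ⊢
    obtain ⟨w, h1, h2⟩ := hp
    refine ⟨(m - m0) / r, ?_, w, ?_, ?_⟩
    · have := Nat.div_le_div_right (c := r) (show m - m0 ≤ H by omega)
      omega
    · have := Nat.div_mul_le_self (m - m0) r
      omega
    · have := Nat.lt_div_mul_add (a := m - m0) (b := r) (by omega)
      omega
  have hc := (Finset.card_le_card hsub).trans Finset.card_biUnion_le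
  have hc' : (((Win2 N M A).filter (fun p => m0 ≤ p.2 ∧ p.2 < m0 + H)).card : ℝ) ≤
      ∑ i ∈ Finset.range (H / r + 1), 3500 * (M : ℝ) ^ (1 / 4 : ℝ) := by
    refine le_trans (b := ((∑ i ∈ Finset.range (H / r + 1),
      ((Win2 N M A).filter (fun p => m0 + i * r ≤ p.2 ∧ p.2 < (m0 + i * r) + r)).card : ℕ) : ℝ))
      ?_ ?_
    · exact_mod_cast hc
    · push_cast
      refine Finset.sum_le_sum (fun i _ => w2_interval _ hM hMN (Finset.filter_subset _ _) ?_)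
      intro p hp p' hp'
      rw [Finset.mem_filter] at hp hp'
      rw [abs_le]
      have a1 : (p.2 : ℝ) ≤ p'.2 + r := by exact_mod_cast (show p.2 ≤ p'.2 + r by omega)
      have a2 : (p'.2 : ℝ) ≤ p.2 + r := by exact_mod_cast (show p'.2 ≤ p.2 + r by omega)
      constructor <;> linarith
  rw [Finset.sum_const, Finset.card_range, nsmul_eq_mul] at hc'
  refine hc'.trans ?_
  have h3 : ((H / r + 1 : ℕ) : ℝ) ≤ 2 * (H / √M + 1) := by
    push_cast
    have h4 : ((H / r : ℕ) : ℝ) ≤ H / r := Nat.cast_div_le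
    have h5 : (H : ℝ) / r ≤ 2 * (H / √M) := by
      rw [div_le_iff₀ hr0]
      have : 2 * ((H : ℝ) / √M) * r = H * (2 * r) / √M := by ring
      rw [this, le_div_iff₀ (by linarith)]
      exact mul_le_mul_of_nonneg_left hSr (Nat.cast_nonneg _)
    linarith
  calc ((H / r + 1 : ℕ) : ℝ) * (3500 * (M : ℝ) ^ (1 / 4 : ℝ))
      ≤ 2 * (H / √M + 1) * (3500 * (M : ℝ) ^ (1 / 4 : ℝ)) :=
        mul_le_mul_of_nonneg_right h3 (by positivity)
    _ = 7000 * (H / √M + 1) * (M : ℝ) ^ (1 / 4 : ℝ) := by ring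

end

end Pool.Agent.DW
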