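import Pool.Agent.DW.Adams

/-!
# Module D1: counting pairs `(n, m)` with `Λ(n) + Λ(m)` in a unit window
-/

open Finset Real

namespace Pool.Agent.DW

noncomputable section

/-- the pairs in the window `[A, A+1)` -/
def Win (N : ℕ) (A : ℝ) : Finset (ℕ × ℕ) := by
  classical
  exact (Ico N (2 * N) ×ˢ Ico N (2 * N)).filter
    (fun p => A ≤ Lam p.1 + Lam p.2 ∧ Lam p.1 + Lam p.2 < A + 1)

/-! ### the function `L(x) = √(x (x-1) (x+2))` -/

/-- the cubic under the root -/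
def cuf (x : ℝ) : ℝ := x * (x - 1) * (x + 2)

def cuL (x : ℝ) : ℝ := √(cuf x)

/-- the derivative of `cuL` -/
def cuL1 (x : ℝ) : ℝ := (3 * x ^ 2 + 2 * x - 2) / (2 * cuL x)

/-- the second derivative of `cuL` -/
def cuL2 (x : ℝ) : ℝ := (3 * x ^ 4 + 4 * x ^ 3 - 12 * x ^ 2 - 4) / (4 * (cuf x * cuL x))

theorem Lam_eq (n : ℕ) : Lam n = cuL n := rfl

theorem cuf_pos {x : ℝ} (hx : 2 ≤ x) : 0 < cuf x := by
  unfold cuf
  have h1 : 0 < x - 1 := by linarith
  have h2 : 0 < x + 2 := by linarith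
  have h3 : 0 < x := by linarith
  positivity

theorem cuL_pos {x : ℝ} (hx : 2 ≤ x) : 0 < cuL x := Real.sqrt_pos.2 (cuf_pos hx)

theorem cuL_sq {x : ℝ} (hx : 2 ≤ x) : cuL x ^ 2 = cuf x := Real.sq_sqrt (cuf_pos hx).le

theorem cuL_deriv {x : ℝ} (hx : 2 ≤ x) : HasDerivAt cuL (cuL1 x) x := by
  have h0 : HasDerivAt cuf (3 * x ^ 2 + 2 * x - 2) x := by
    have h := (((hasDerivAt_id x).mul ((hasDerivAt_id x).sub_const 1)).mul
      ((hasDerivAt_id x).add_const 2))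
    have h' : HasDerivAt cuf ((1 * (id x - 1) + id x * 1) * (id x + 2) + id x * (id x - 1) * 1) x := h
    refine h'.congr_deriv ?_
    simp only [id]
    ring
  have h := h0.sqrt (cuf_pos hx).ne'
  exact h

theorem cuL1_deriv {x : ℝ} (hx : 2 ≤ x) : HasDerivAt cuL1 (cuL2 x) x := by
  have h0 : HasDerivAt (fun x : ℝ => 3 * x ^ 2 + 2 * x - 2) (6 * x + 2) x := by
    have h := ((((hasDerivAt_id x).pow 2).const_mul 3).add ((hasDerivAt_id x).const_mul 2)).sub_const 2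
    refine h.congr_deriv ?_
    simp only [id]
    norm_num
    ring
  have h1 : HasDerivAt (fun x => 2 * cuL x) (2 * cuL1 x) x := (cuL_deriv hx).const_mul 2
  have hp := cuL_pos hx
  have h := h0.div h1 (by positivity)
  refine h.congr_deriv ?_
  unfold cuL1 cuL2
  have hf := cuf_pos hx
  have e := cuL_sq hx
  rw [div_eq_div_iff (by positivity) (by positivity)]
  have e2 : (2 * ((3 * x ^ 2 + 2 * x - 2) / (2 * cuL x))) = (3 * x ^ 2 + 2 * x - 2) / cuL x := by
    field_simp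
  rw [e2]
  have e3 : (6 * x + 2) * (2 * cuL x) - (3 * x ^ 2 + 2 * x - 2) * ((3 * x ^ 2 + 2 * x - 2) / cuL x)
      = ((6 * x + 2) * (2 * cuf x) - (3 * x ^ 2 + 2 * x - 2) ^ 2) / cuL x := by
    field_simp
    rw [e]
  rw [e3]
  have e4 : (6 * x + 2) * (2 * cuf x) - (3 * x ^ 2 + 2 * x - 2) ^ 2
      = 3 * x ^ 4 + 4 * x ^ 3 - 12 * x ^ 2 - 4 := by unfold cuf; ring
  rw [e4, mul_pow, e]
  field_simp
  ring

/-- `√x √f` lies between `x²` and `x² + x/2` -/
theorem cuL_bounds {x : ℝ} (hx : 2 ≤ x) :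
    x ^ 2 ≤ √x * cuL x ∧ √x * cuL x ≤ x ^ 2 + x / 2 := by
  have h0 : 0 ≤ x := by linarith
  have e : √x * cuL x = √(x * cuf x) := by
    unfold cuL
    rw [Real.sqrt_mul h0]
  rw [e]
  constructor
  · apply Real.le_sqrt_of_sq_le
    unfold cuf
    nlinarith [mul_nonneg h0 h0, mul_nonneg (mul_nonneg h0 h0) (sub_nonneg.2 hx)]
  · rw [Real.sqrt_le_left (by positivity)]
    unfold cuf
    nlinarith [mul_nonneg h0 h0]

theorem cuL1_bounds {x : ℝ} (hx : 2 ≤ x) : √x ≤ cuL1 x ∧ cuL1 x ≤ 2 * √x := by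
  obtain ⟨h1, h2⟩ := cuL_bounds hx
  have hp := cuL_pos hx
  have h0 : 0 < x := by linarith
  have hs : 0 < √x := Real.sqrt_pos.2 h0
  unfold cuL1
  constructor
  · rw [le_div_iff₀ (by positivity)]
    nlinarith
  · rw [div_le_iff₀ (by positivity)]
    nlinarith

theorem cuL2_bounds {x : ℝ} (hx : 2 ≤ x) : 1 / 3 / √x ≤ cuL2 x ∧ cuL2 x ≤ 1 / √x := by
  obtain ⟨h1, h2⟩ := cuL_bounds hx
  have hp := cuL_pos hx
  have hf := cuf_pos hx
  have h0 : 0 < x := by linarith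
  have hs : 0 < √x := Real.sqrt_pos.2 h0
  have hss : √x * √x = x := Real.mul_self_sqrt h0.le
  unfold cuL2
  constructor
  · rw [div_le_div_iff₀ hs (by positivity)]
    -- 1/3 * (4 f L) ≤ P √x ; multiply by √x
    have key : 1 / 3 * (4 * (cuf x * cuL x)) * √x
        ≤ (3 * x ^ 4 + 4 * x ^ 3 - 12 * x ^ 2 - 4) * √x * √x := by
      have e1 : 1 / 3 * (4 * (cuf x * cuL x)) * √x = 4 / 3 * cuf x * (√x * cuL x) := by ring
      have e2 : (3 * x ^ 4 + 4 * x ^ 3 - 12 * x ^ 2 - 4) * √x * √x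
        = (3 * x ^ 4 + 4 * x ^ 3 - 12 * x ^ 2 - 4) * x := by rw [mul_assoc, hss]
      rw [e1, e2]
      have h3 : 4 / 3 * cuf x * (√x * cuL x) ≤ 4 / 3 * cuf x * (x ^ 2 + x / 2) :=
        mul_le_mul_of_nonneg_left h2 (by positivity)
      refine h3.trans ?_
      unfold cuf
      have h4 : 4 / 3 * (x * (x - 1) * (x + 2)) * (x ^ 2 + x / 2)
        = (4 / 3 * ((x - 1) * (x + 2)) * (x ^ 2 + x / 2)) * x := by ring
      rw [h4]
      apply mul_le_mul_of_nonneg_right _ h0.le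
      nlinarith [mul_nonneg (sub_nonneg.2 hx) (sub_nonneg.2 hx),
        mul_nonneg (mul_nonneg (sub_nonneg.2 hx) (sub_nonneg.2 hx)) (sub_nonneg.2 hx),
        mul_nonneg (mul_nonneg (mul_nonneg (sub_nonneg.2 hx) (sub_nonneg.2 hx)) (sub_nonneg.2 hx)) (sub_nonneg.2 hx)]
    exact le_of_mul_le_mul_right key hs
  · rw [div_le_div_iff₀ (by positivity) hs]
    have key : (3 * x ^ 4 + 4 * x ^ 3 - 12 * x ^ 2 - 4) * √x * √x ≤ 1 * (4 * (cuf x * cuL x)) * √x := by
      have e1 : 1 * (4 * (cuf x * cuL x)) * √x = 4 * cuf x * (√x * cuL x) := by ring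
      have e2 : (3 * x ^ 4 + 4 * x ^ 3 - 12 * x ^ 2 - 4) * √x * √x
        = (3 * x ^ 4 + 4 * x ^ 3 - 12 * x ^ 2 - 4) * x := by rw [mul_assoc, hss]
      rw [e1, e2]
      have h3 : 4 * cuf x * x ^ 2 ≤ 4 * cuf x * (√x * cuL x) :=
        mul_le_mul_of_nonneg_left h1 (by positivity)
      refine le_trans ?_ h3
      unfold cuf
      have h4 : 4 * (x * (x - 1) * (x + 2)) * x ^ 2
        = (4 * ((x - 1) * (x + 2)) * x ^ 2) * x := by ring
      rw [h4]
      apply mul_le_mul_of_nonneg_right _ h0.le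
      nlinarith [mul_nonneg (sub_nonneg.2 hx) (sub_nonneg.2 hx),
        mul_nonneg (mul_nonneg (sub_nonneg.2 hx) (sub_nonneg.2 hx)) (sub_nonneg.2 hx),
        mul_nonneg (mul_nonneg (mul_nonneg (sub_nonneg.2 hx) (sub_nonneg.2 hx)) (sub_nonneg.2 hx)) (sub_nonneg.2 hx)]
    exact le_of_mul_le_mul_right key hs

/-! ### mean value inequalities -/

theorem cu_mvt {f f' : ℝ → ℝ} {a b c C : ℝ} (hab : a ≤ b)
    (hf : ∀ x ∈ Set.Icc a b, HasDerivAt f (f' x) x)
    (hc : ∀ x ∈ Set.Icc a b, c ≤ f' x ∧ f' x ≤ C) :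
    c * (b - a) ≤ f b - f a ∧ f b - f a ≤ C * (b - a) := by
  rcases hab.eq_or_lt with rfl | hlt
  · simp
  obtain ⟨x, hx, h⟩ := exists_hasDerivAt_eq_slope f f' hlt
    (fun x hx => (hf x hx).continuousAt.continuousWithinAt)
    (fun x hx => hf x ⟨hx.1.le, hx.2.le⟩)
  have hb : 0 < b - a := sub_pos.2 hlt
  have h1 := hc x ⟨hx.1.le, hx.2.le⟩
  rw [h, le_div_iff₀ hb, div_le_iff₀ hb] at h1
  exact h1

theorem cuL_sub {N : ℝ} (hN : 2 ≤ N) {x y : ℝ} (hx : N ≤ x) (hxy : x ≤ y) (hy : y ≤ 2 * N) :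
    √N * (y - x) ≤ cuL y - cuL x ∧ cuL y - cuL x ≤ 3 * √N * (y - x) := by
  apply cu_mvt hxy (f' := cuL1)
  · intro z hz
    exact cuL_deriv (by linarith [hz.1])
  · intro z hz
    obtain ⟨h1, h2⟩ := cuL1_bounds (x := z) (by linarith [hz.1])
    refine ⟨(Real.sqrt_le_sqrt (by linarith [hz.1])).trans h1, h2.trans ?_⟩
    have h3 : √z ≤ √(2 * N) := Real.sqrt_le_sqrt (by linarith [hz.2])
    have h4 : √(2 * N) ≤ 3 / 2 * √N := by
      rw [Real.sqrt_mul (by norm_num)]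
      have : √2 ≤ 3 / 2 := by
        rw [Real.sqrt_le_left (by norm_num)]; norm_num
      exact mul_le_mul_of_nonneg_right this (Real.sqrt_nonneg _)
    linarith

theorem cuL1_sub {N : ℝ} (hN : 2 ≤ N) {x y : ℝ} (hx : N ≤ x) (hxy : x ≤ y) (hy : y ≤ 2 * N) :
    1 / 5 / √N * (y - x) ≤ cuL1 y - cuL1 x ∧ cuL1 y - cuL1 x ≤ 1 / √N * (y - x) := by
  have hs : 0 < √N := Real.sqrt_pos.2 (by linarith)
  apply cu_mvt hxy (f' := cuL2)
  · intro z hz
    exact cuL1_deriv (by linarith [hz.1])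
  · intro z hz
    obtain ⟨h1, h2⟩ := cuL2_bounds (x := z) (by linarith [hz.1])
    have hz0 : 0 < √z := Real.sqrt_pos.2 (by linarith [hz.1])
    have h3 : √z ≤ √(2 * N) := Real.sqrt_le_sqrt (by linarith [hz.2])
    have h4 : √(2 * N) ≤ 3 / 2 * √N := by
      rw [Real.sqrt_mul (by norm_num)]
      have : √2 ≤ 3 / 2 := by
        rw [Real.sqrt_le_left (by norm_num)]; norm_num
      exact mul_le_mul_of_nonneg_right this (Real.sqrt_nonneg _)
    constructor
    · refine le_trans ?_ h1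
      rw [div_le_div_iff₀ hs hz0]
      linarith
    · refine h2.trans ?_
      exact one_div_le_one_div_of_le hs (Real.sqrt_le_sqrt (by linarith [hz.1]))

theorem cuL_sub2 {N : ℝ} (hN : 2 ≤ N) {a b h : ℝ} (ha : N ≤ a) (hab : a ≤ b) (hh : 0 ≤ h)
    (hb : b + h ≤ 2 * N) :
    1 / 5 / √N * (h * (b - a)) ≤ (cuL (b + h) - cuL b) - (cuL (a + h) - cuL a) ∧
      (cuL (b + h) - cuL b) - (cuL (a + h) - cuL a) ≤ 1 / √N * (h * (b - a)) := by
  have key := cu_mvt (f := fun x => cuL (x + h) - cuL x) (f' := fun x => cuL1 (x + h) - cuL1 x)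
    (c := 1 / 5 / √N * h) (C := 1 / √N * h) hab
    (fun x hx => (HasDerivAt.comp_add_const x h (cuL_deriv (by linarith [hx.1]))).sub
      (cuL_deriv (by linarith [hx.1])))
    (fun x hx => by
      have := cuL1_sub hN (x := x) (y := x + h) (by linarith [hx.1]) (by linarith)
        (by linarith [hx.2])
      simpa using this)
  constructor
  · rw [← mul_assoc]; exact key.1
  · rw [← mul_assoc]; exact key.2

/-- first differences: `Λ(n+1) - Λ(n) ≍ √n` -/
theorem Lam_diff : ∃ c > 0, ∃ C > 0, ∀ n : ℕ, 2 ≤ n →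
    c * √n ≤ Lam (n + 1) - Lam n ∧ Lam (n + 1) - Lam n ≤ C * √n := by
  refine ⟨1, one_pos, 3, by norm_num, fun n hn => ?_⟩
  have hn' : (2 : ℝ) ≤ n := by exact_mod_cast hn
  have h := cuL_sub (N := (n : ℝ)) hn' (x := n) (y := n + 1) le_rfl (by linarith) (by linarith)
  rw [Lam_eq, Lam_eq]
  push_cast
  constructor
  · linarith [h.1]
  · linarith [h.2]

/-- second differences: `Λ(n+2) - 2 Λ(n+1) + Λ(n) ≍ 1 / √n` -/
theorem Lam_diff2 : ∃ c > 0, ∃ C > 0, ∀ n : ℕ, 2 ≤ n →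
    c / √n ≤ Lam (n + 2) - 2 * Lam (n + 1) + Lam n ∧
      Lam (n + 2) - 2 * Lam (n + 1) + Lam n ≤ C / √n := by
  refine ⟨1 / 5, by norm_num, 1, by norm_num, fun n hn => ?_⟩
  have hn' : (2 : ℝ) ≤ n := by exact_mod_cast hn
  have h := cuL_sub2 (N := (n : ℝ)) hn' (a := n) (b := n + 1) (h := 1) le_rfl (by linarith)
    zero_le_one (by linarith)
  rw [Lam_eq, Lam_eq, Lam_eq]
  push_cast
  have e : (n : ℝ) + 1 + 1 = n + 2 := by ring
  rw [e] at h
  constructor
  · linarith [h.1]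
  · linarith [h.2]

/-! ### integer versions -/

theorem la_sub {N a b : ℕ} (hN : 2 ≤ N) (ha : N ≤ a) (hab : a ≤ b) (hb : b ≤ 2 * N) :
    √N * ((b : ℝ) - a) ≤ Lam b - Lam a ∧ Lam b - Lam a ≤ 3 * √N * ((b : ℝ) - a) := by
  rw [Lam_eq, Lam_eq]
  exact cuL_sub (by exact_mod_cast hN) (by exact_mod_cast ha) (by exact_mod_cast hab)
    (by exact_mod_cast hb)

theorem la_sub2 {N a b h : ℕ} (hN : 2 ≤ N) (ha : N ≤ a) (hab : a ≤ b) (hb : b + h ≤ 2 * N) :
    1 / 5 / √N * (h * ((b : ℝ) - a)) ≤ (Lam (b + h) - Lam b) - (Lam (a + h) - Lam a) ∧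
      (Lam (b + h) - Lam b) - (Lam (a + h) - Lam a) ≤ 1 / √N * (h * ((b : ℝ) - a)) := by
  rw [Lam_eq, Lam_eq, Lam_eq, Lam_eq]
  push_cast
  exact cuL_sub2 (by exact_mod_cast hN) (by exact_mod_cast ha) (by exact_mod_cast hab)
    (Nat.cast_nonneg _) (by exact_mod_cast hb)

theorem mem_Win {N : ℕ} {A : ℝ} {n m : ℕ} :
    (n, m) ∈ Win N A ↔ ((N ≤ n ∧ n < 2 * N) ∧ (N ≤ m ∧ m < 2 * N)) ∧
      A ≤ Lam n + Lam m ∧ Lam n + Lam m < A + 1 := by
  unfold Win
  simp [Finset.mem_filter, Finset.mem_product, Finset.mem_Ico]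

theorem sqrt_ge8 {N : ℕ} (hN : 64 ≤ N) : (8 : ℝ) ≤ √N := by
  apply Real.le_sqrt_of_sq_le
  have : (64 : ℝ) ≤ N := by exact_mod_cast hN
  linarith

/-- a later point of the window has a smaller second coordinate -/
theorem win_anti {N : ℕ} {A : ℝ} {n m n' m' : ℕ} (hN : 64 ≤ N) (h1 : (n, m) ∈ Win N A)
    (h2 : (n', m') ∈ Win N A) (hlt : n < n') : m' < m := by
  rw [mem_Win] at h1 h2
  by_contra hcon
  push Not at hcon
  have a1 := (la_sub (N := N) (by omega) h1.1.1.1 hlt.le h2.1.1.2.le).1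
  have a2 := (la_sub (N := N) (by omega) h1.1.2.1 hcon h2.1.2.2.le).1
  have s8 := sqrt_ge8 hN
  have c1 : (1 : ℝ) ≤ (n' : ℝ) - n := by
    have : (n : ℝ) + 1 ≤ n' := by exact_mod_cast hlt
    linarith
  have c2 : (0 : ℝ) ≤ (m' : ℝ) - m := by
    have : (m : ℝ) ≤ m' := by exact_mod_cast hcon
    linarith
  have b1 : √(N : ℝ) * 1 ≤ √N * ((n' : ℝ) - n) := mul_le_mul_of_nonneg_left c1 (by linarith)
  have b2 : 0 ≤ √(N : ℝ) * ((m' : ℝ) - m) := mul_nonneg (by linarith) c2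
  linarith [h1.2.1, h2.2.2]

theorem win_inj {N : ℕ} {A : ℝ} {n m m' : ℕ} (hN : 64 ≤ N) (h1 : (n, m) ∈ Win N A)
    (h2 : (n, m') ∈ Win N A) : m = m' := by
  wlog hlt : m ≤ m' generalizing m m' with H
  · exact (H h2 h1 (by omega)).symm
  by_contra hne
  rw [mem_Win] at h1 h2
  have a2 := (la_sub (N := N) (by omega) h1.1.2.1 hlt h2.1.2.2.le).1
  have s8 := sqrt_ge8 hN
  have c2 : (1 : ℝ) ≤ (m' : ℝ) - m := by
    have : (m : ℝ) + 1 ≤ m' := by exact_mod_cast (show m + 1 ≤ m' by omega)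
    linarith
  have b2 : √(N : ℝ) * 1 ≤ √(N : ℝ) * ((m' : ℝ) - m) := mul_le_mul_of_nonneg_left c2 (by linarith)
  linarith [h1.2.1, h2.2.2, h1.2.2, h2.2.1]

/-- the sum of the coordinates decreases -/
theorem win_sum {N : ℕ} {A : ℝ} {n m n' m' : ℕ} (hN : 64 ≤ N) (h1 : (n, m) ∈ Win N A)
    (h2 : (n', m') ∈ Win N A) (hmn : m ≤ n) (hnn : n ≤ n') : n' + m' ≤ n + m := by
  rcases hnn.eq_or_lt with rfl | hlt
  · rw [win_inj hN h1 h2]
  have hm := win_anti hN h1 h2 hlt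
  rw [mem_Win] at h1 h2
  by_contra hcon
  push Not at hcon
  obtain ⟨k, rfl⟩ := Nat.exists_eq_add_of_lt hm
  -- m = m' + k + 1
  have hle : n + (k + 1) < n' := by omega
  have a1 := (la_sub (N := N) (by omega) (a := n + (k + 1)) (b := n') (by omega) hle.le
    h2.1.1.2.le).1
  have a2 := (la_sub2 (N := N) (a := m') (b := n) (h := k + 1) (by omega) h2.1.2.1
    (by omega) (by omega)).1
  have s8 := sqrt_ge8 hN
  have c1 : (1 : ℝ) ≤ (n' : ℝ) - ((n + (k + 1) : ℕ) : ℝ) := by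
    have : ((n + (k + 1) : ℕ) : ℝ) + 1 ≤ n' := by exact_mod_cast hle
    linarith
  have b1 : √(N : ℝ) * 1 ≤ √N * ((n' : ℝ) - ((n + (k + 1) : ℕ) : ℝ)) :=
    mul_le_mul_of_nonneg_left c1 (by linarith)
  have b2 : 0 ≤ 1 / 5 / √(N : ℝ) * (((k + 1 : ℕ) : ℝ) * ((n : ℝ) - m')) := by
    have : (m' : ℝ) ≤ n := by exact_mod_cast (show m' ≤ n by omega)
    have : (0 : ℝ) ≤ (n : ℝ) - m' := by linarith
    positivity
  have e : m' + (k + 1) = m' + k + 1 := by omega
  rw [e] at a2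
  linarith [h1.2.1, h2.2.2, h1.2.2, h2.2.1]

/-- the two sided estimate for the decrease of the sum -/
theorem win_drop {N : ℕ} {A : ℝ} {n m n' m' : ℕ} (hN : 64 ≤ N) (h1 : (n, m) ∈ Win N A)
    (h2 : (n', m') ∈ Win N A) (hmn : m ≤ n) (hnn : n ≤ n') :
    1 / 15 * ((n' : ℝ) - n) * ((n' : ℝ) - m) / N - 1 / 3 / √N ≤ ((n : ℝ) + m) - (n' + m') ∧
    ((n : ℝ) + m) - (n' + m') ≤ 1 / √N + ((n' : ℝ) - n) * ((n' : ℝ) - m) / N := by
  have hs := win_sum hN h1 h2 hmn hnn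
  rw [mem_Win] at h1 h2
  obtain ⟨h, rfl⟩ := Nat.exists_eq_add_of_le hnn
  obtain ⟨j, hj⟩ : ∃ j, m = m' + j + h := ⟨m - m' - h, by omega⟩
  subst hj
  -- k - h = j
  have a1 := la_sub (N := N) (by omega) (a := m') (b := m' + j) h2.1.2.1 (by omega) (by omega)
  have a2 := la_sub2 (N := N) (a := m' + j) (b := n) (h := h) (by omega) (by omega)
    (by omega) (by omega)
  have s8 := sqrt_ge8 hN
  have hss : √(N : ℝ) * √N = N := Real.mul_self_sqrt (Nat.cast_nonneg _)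
  have hN0 : (0 : ℝ) < N := by
    have : (64 : ℝ) ≤ N := by exact_mod_cast hN
    linarith
  push_cast at a1 a2 ⊢
  set S := √(N : ℝ) with hS
  have hS0 : 0 < S := by linarith
  have e1 : (N : ℝ) = S * S := hss.symm
  constructor
  · have key : S * (1 / 15 * (n + h - n : ℝ) * (n + h - (m' + j + h)) / N - 1 / 3 / S)
        ≤ S * ((n + (m' + j + h)) - (n + h + m') : ℝ) := by
      have e2 : S * (1 / 15 * (n + h - n : ℝ) * (n + h - (m' + j + h)) / N - 1 / 3 / S)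
          = 1 / 3 * (1 / 5 / S * (h * (n - (m' + j)))) - 1 / 3 := by
        rw [e1]; field_simp; ring
      rw [e2]
      have := a2.1
      have := a1.2
      linarith [h1.2.1, h2.2.2, h1.2.2, h2.2.1]
    exact le_of_mul_le_mul_left key hS0
  · have key : S * ((n + (m' + j + h)) - (n + h + m') : ℝ)
        ≤ S * (1 / S + (n + h - n : ℝ) * (n + h - (m' + j + h)) / N) := by
      have e2 : S * (1 / S + (n + h - n : ℝ) * (n + h - (m' + j + h)) / N)
          = 1 + 1 / S * (h * (n - (m' + j))) := by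
        rw [e1]; field_simp; ring
      rw [e2]
      have := a2.2
      have := a1.1
      linarith [h1.2.1, h2.2.2, h1.2.2, h2.2.1]
    exact le_of_mul_le_mul_left key hS0

/-- (iii) two points of the window with `m ≤ n`, `(n + h, m')`: then `m' ≤ m` and `n + m` decreases
by at least `c h (h + n - m) / N - C / √N`. -/
theorem sum_drop : ∃ c > 0, ∃ C > 0, ∀ (N : ℕ) (A : ℝ) (n m n' m' : ℕ), 64 ≤ N →
    (n, m) ∈ Win N A → (n', m') ∈ Win N A → m ≤ n → n ≤ n' →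
      c * ((n' : ℝ) - n) * ((n' : ℝ) - m) / N - C / √N ≤ ((n : ℝ) + m) - (n' + m') :=
  ⟨1 / 15, by norm_num, 1 / 3, by norm_num, fun _ _ _ _ _ _ hN h1 h2 h3 h4 =>
    (win_drop hN h1 h2 h3 h4).1⟩

/-! ### counting lemmas -/

theorem card_interval (T : Finset ℕ) {R : ℝ} (hR : 0 ≤ R)
    (h : ∀ x ∈ T, ∀ y ∈ T, x ≤ y → (y : ℝ) - x ≤ R) : (T.card : ℝ) ≤ R + 1 := by
  rcases T.eq_empty_or_nonempty with rfl | hne
  · simp; linarith
  set a := T.min' hne
  set b := T.max' hne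
  have hab : a ≤ b := T.min'_le _ (T.max'_mem hne)
  have hsub : T ⊆ Finset.Icc a b := fun x hx =>
    Finset.mem_Icc.2 ⟨T.min'_le _ hx, T.le_max' _ hx⟩
  have hc := Finset.card_le_card hsub
  rw [Nat.card_Icc] at hc
  have h1 := h a (T.min'_mem hne) b (T.max'_mem hne) hab
  have h2 : (T.card : ℝ) ≤ ((b + 1 - a : ℕ) : ℝ) := by exact_mod_cast hc
  rw [Nat.cast_sub (by omega)] at h2
  push_cast at h2
  linarith

theorem card_fib {α β : Type*} [DecidableEq β] (s : Finset α) (f : α → β) {B : ℝ}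
    (h : ∀ b ∈ s.image f, ((s.filter (fun a => f a = b)).card : ℝ) ≤ B) :
    (s.card : ℝ) ≤ (s.image f).card * B := by
  have h1 : s.card = ∑ b ∈ s.image f, (s.filter (fun a => f a = b)).card :=
    Finset.card_eq_sum_card_image f s
  rw [h1]
  push_cast
  calc ∑ b ∈ s.image f, ((s.filter (fun a => f a = b)).card : ℝ) ≤ ∑ _b ∈ s.image f, B :=
        Finset.sum_le_sum h
    _ = _ := by rw [Finset.sum_const, nsmul_eq_mul]

/-- (i) points with `√N ≤ n - m ≤ D` and `n` in an interval of length `H`: at most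
`C (1 + H D / N)`. -/
theorem count_far : ∃ C > 0, ∀ (N : ℕ) (A : ℝ) (H n0 D : ℕ), 64 ≤ N →
    (((Win N A).filter (fun p => n0 ≤ p.1 ∧ p.1 < n0 + H ∧ p.2 ≤ p.1 ∧ N ≤ (p.1 - p.2) ^ 2 ∧
      p.1 - p.2 ≤ D)).card : ℝ) ≤ C * (1 + H * D / N) := by
  refine ⟨12, by norm_num, fun N A H n0 D hN => ?_⟩
  set S := (Win N A).filter (fun p => n0 ≤ p.1 ∧ p.1 < n0 + H ∧ p.2 ≤ p.1 ∧ N ≤ (p.1 - p.2) ^ 2 ∧
      p.1 - p.2 ≤ D) with hS
  have s8 := sqrt_ge8 hN
  have hss : √(N : ℝ) * √N = N := Real.mul_self_sqrt (Nat.cast_nonneg _)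
  have hN0 : (0 : ℝ) < N := by
    have : (64 : ℝ) ≤ N := by exact_mod_cast hN
    linarith
  have h1S : 1 / √(N : ℝ) ≤ 1 := by
    rw [div_le_one (by linarith)]; linarith
  -- the fibres of the sum
  have hfib : ∀ b ∈ S.image (fun p => p.1 + p.2),
      ((S.filter (fun p => p.1 + p.2 = b)).card : ℝ) ≤ 6 := by
    intro b _
    have hinj : Set.InjOn (fun p : ℕ × ℕ => p.1) (S.filter (fun p => p.1 + p.2 = b)) := by
      rintro ⟨n, m⟩ hp ⟨n', m'⟩ hq (e : n = n')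
      simp only [Finset.coe_filter, Set.mem_ofPred_eq] at hp hq
      subst e
      have : m = m' := by omega
      rw [this]
    rw [← Finset.card_image_of_injOn hinj]
    have := card_interval ((S.filter (fun p => p.1 + p.2 = b)).image (fun p => p.1)) (R := 5)
      (by norm_num) ?_
    · linarith
    · intro x hx y hy hxy
      rw [Finset.mem_image] at hx hy
      obtain ⟨⟨n, m⟩, hp, rfl⟩ := hx
      obtain ⟨⟨n', m'⟩, hq, rfl⟩ := hy
      simp only [Finset.mem_filter, hS] at hp hq hxy ⊢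
      obtain ⟨⟨w1, -, -, hmn, hsq, -⟩, e1⟩ := hp
      obtain ⟨⟨w2, -, -, -, -, -⟩, e2⟩ := hq
      have hd := (win_drop hN w1 w2 hmn hxy).1
      have e3 : ((n : ℝ) + m) - (n' + m') = 0 := by
        have : ((n + m : ℕ) : ℝ) = ((n' + m' : ℕ) : ℝ) := by rw [e1, e2]
        push_cast at this
        linarith
      rw [e3] at hd
      have hnm : √(N : ℝ) ≤ (n : ℝ) - m := by
        apply Real.sqrt_le_iff.2
        have hc : (m : ℝ) ≤ n := by exact_mod_cast hmn
        refine ⟨by linarith, ?_⟩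
        have : (N : ℝ) ≤ (((n - m : ℕ)) : ℝ) ^ 2 := by exact_mod_cast hsq
        rwa [Nat.cast_sub hmn] at this
      have hxy' : (n : ℝ) ≤ n' := by exact_mod_cast hxy
      have hle : √(N : ℝ) ≤ (n' : ℝ) - m := by linarith
      have hmul : ((n' : ℝ) - n) * √(N : ℝ) ≤ ((n' : ℝ) - n) * ((n' : ℝ) - m) :=
        mul_le_mul_of_nonneg_left hle (by linarith)
      have hd2 : 1 / 15 * ((n' : ℝ) - n) * ((n' : ℝ) - m) ≤ 1 / 3 / √N * N := by
        rw [← div_le_iff₀ hN0]; linarith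
      have e4 : 1 / 3 / √(N : ℝ) * N = 1 / 3 * √N := by
        nth_rewrite 2 [← hss]
        field_simp
      rw [e4] at hd2
      have : ((n' : ℝ) - n) * √(N : ℝ) ≤ 5 * √(N : ℝ) := by linarith
      exact le_of_mul_le_mul_right this (by linarith)
  have hcard := card_fib S (fun p => p.1 + p.2) hfib
  have himg : ((S.image (fun p => p.1 + p.2)).card : ℝ) ≤ (1 + H * D / N) + 1 := by
    apply card_interval _ (by positivity)
    intro x hx y hy hxy
    rw [Finset.mem_image] at hx hy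
    obtain ⟨⟨n, m⟩, hp, rfl⟩ := hx
    obtain ⟨⟨n', m'⟩, hq, rfl⟩ := hy
    simp only [Finset.mem_filter, hS] at hp hq hxy ⊢
    obtain ⟨w1, a1, a2, a3, a4, a5⟩ := hp
    obtain ⟨w2, b1, b2, b3, b4, b5⟩ := hq
    push_cast
    rcases le_total n' n with hle | hle
    · have hd := (win_drop hN w2 w1 b3 hle).2
      have c1 : (n : ℝ) - n' ≤ H := by
        have : (n : ℝ) ≤ n' + H := by exact_mod_cast (show n ≤ n' + H by omega)
        linarith
      have c0 : (0 : ℝ) ≤ (n : ℝ) - n' := by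
        have : (n' : ℝ) ≤ n := by exact_mod_cast hle
        linarith
      have c2 : (n : ℝ) - m' ≤ D := by
        have hm : m ≤ m' := by
          rcases hle.eq_or_lt with e | hlt
          · subst e
            exact (win_inj hN w1 w2).le
          · exact (win_anti hN w2 w1 hlt).le
        have : (n : ℝ) ≤ m' + D := by exact_mod_cast (show n ≤ m' + D by omega)
        linarith
      have c3 : (0 : ℝ) ≤ (n : ℝ) - m' := by
        have : (m' : ℝ) ≤ n := by exact_mod_cast (show m' ≤ n by omega)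
        linarith
      have : ((n : ℝ) - n') * ((n : ℝ) - m') / N ≤ H * D / N := by
        apply div_le_div_of_nonneg_right _ hN0.le
        exact mul_le_mul c1 c2 c3 (by positivity)
      linarith
    · have hs := win_sum hN w1 w2 a3 hle
      have : ((n' : ℝ) + m') ≤ n + m := by exact_mod_cast hs
      have h0 : 0 ≤ (H : ℝ) * D / N := by positivity
      linarith
  calc (S.card : ℝ) ≤ ((S.image (fun p => p.1 + p.2)).card : ℝ) * 6 := hcard
    _ ≤ ((1 + H * D / N) + 1) * 6 := by linarith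
    _ ≤ 12 * (1 + H * D / N) := by
        have h0 : 0 ≤ (H : ℝ) * D / N := by positivity
        linarith

/-! ### all points in an interval -/

/-- signed version of the second difference estimate -/
theorem la_sub2_abs {N a b h : ℕ} (hN : 2 ≤ N) (ha : N ≤ a) (hb : N ≤ b) (ha' : a + h ≤ 2 * N)
    (hb' : b + h ≤ 2 * N) :
    (Lam (b + h) - Lam b) - (Lam (a + h) - Lam a) ≤ 1 / √N * (h * |(b : ℝ) - a|) := by
  have hs : 0 ≤ 1 / √(N : ℝ) := by positivity
  rcases le_total a b with hab | hab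
  · have h1 := (la_sub2 hN ha hab hb').2
    have e : |(b : ℝ) - a| = (b : ℝ) - a := abs_of_nonneg (by
      have : (a : ℝ) ≤ b := by exact_mod_cast hab
      linarith)
    rw [e]; exact h1
  · have h1 := (la_sub2 hN hb hab ha').1
    have h2 : 0 ≤ 1 / 5 / √(N : ℝ) * (h * ((a : ℝ) - b)) := by
      have : (b : ℝ) ≤ a := by exact_mod_cast hab
      have : (0 : ℝ) ≤ (a : ℝ) - b := by linarith
      positivity
    have h3 : 0 ≤ 1 / √(N : ℝ) * (h * |(b : ℝ) - a|) := by positivity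
    linarith

/-- the second coordinates of the points in an interval -/
theorem win_snd_sub {N : ℕ} {A : ℝ} {n m n' m' : ℕ} (hN : 64 ≤ N) (h1 : (n, m) ∈ Win N A)
    (h2 : (n', m') ∈ Win N A) (hd : |(n' : ℝ) - n| ≤ √N) : |(m : ℝ) - m'| ≤ 4 * √N := by
  wlog hlt : n ≤ n' generalizing n m n' m' with H
  · rw [abs_sub_comm]
    exact H h2 h1 (by rw [abs_sub_comm]; exact hd) (by omega)
  have s8 := sqrt_ge8 hN
  rcases hlt.eq_or_lt with rfl | hlt
  · rw [win_inj hN h1 h2]; simp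
  have hm := win_anti hN h1 h2 hlt
  rw [mem_Win] at h1 h2
  have a1 := (la_sub (N := N) (by omega) h2.1.2.1 hm.le h1.1.2.2.le).1
  have a2 := (la_sub (N := N) (by omega) h1.1.1.1 hlt.le h2.1.1.2.le).2
  have hm' : (m' : ℝ) ≤ m := by exact_mod_cast hm.le
  rw [abs_of_nonneg (by linarith)]
  have hd' := (abs_le.1 hd).2
  have b1 : √(N : ℝ) * ((m : ℝ) - m') ≤ √(N : ℝ) * (4 * √N) := by
    have c1 : 3 * √(N : ℝ) * ((n' : ℝ) - n) ≤ 3 * √(N : ℝ) * √N :=
      mul_le_mul_of_nonneg_left hd' (by linarith)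
    have c2 : 1 ≤ √(N : ℝ) * √N := by nlinarith
    linarith [h1.2.1, h2.2.2, h1.2.2, h2.2.1]
  exact le_of_mul_le_mul_left b1 (by linarith)

/-- for a given shift `h` of the first coordinates the shift of the second is determined up to
`O(1)` -/
theorem win_shift {N : ℕ} {A : ℝ} {n1 n2 m1 m2 h k1 k2 : ℕ} (hN : 64 ≤ N)
    (w1 : (n1, m1 + k1) ∈ Win N A) (w1' : (n1 + h, m1) ∈ Win N A)
    (w2 : (n2, m2 + k2) ∈ Win N A) (w2' : (n2 + h, m2) ∈ Win N A)
    (hd : |(n2 : ℝ) - n1| ≤ √N) (hh : (h : ℝ) ≤ √N) (hk : k1 ≤ k2) :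
    (k2 : ℝ) - k1 ≤ 18 := by
  have s8 := sqrt_ge8 hN
  have hmm := win_snd_sub hN w1' w2' (by push_cast; simpa using hd)
  have hk1 := win_snd_sub hN w1 w1' (by
    push_cast
    rw [show (n1 : ℝ) + h - n1 = h by ring, abs_of_nonneg (Nat.cast_nonneg _)]; exact hh)
  push_cast at hk1
  rw [show (m1 : ℝ) + k1 - m1 = k1 by ring, abs_of_nonneg (Nat.cast_nonneg _)] at hk1
  rw [mem_Win] at w1 w1' w2 w2'
  obtain ⟨j, rfl⟩ := Nat.exists_eq_add_of_le hk
  have a1 := la_sub2_abs (N := N) (a := n1) (b := n2) (h := h) (by omega) w1.1.1.1 w2.1.1.1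
    (by omega) (by omega)
  have a2 := la_sub2_abs (N := N) (a := m2) (b := m1) (h := k1) (by omega) w2'.1.2.1 w1'.1.2.1
    (by omega) (by omega)
  have a3 := (la_sub (N := N) (by omega) (a := m2 + k1) (b := m2 + (k1 + j)) (by omega) (by omega)
    (by omega)).1
  push_cast at a3 ⊢
  have b1 : 1 / √(N : ℝ) * (h * |(n2 : ℝ) - n1|) ≤ √N := by
    have : (h : ℝ) * |(n2 : ℝ) - n1| ≤ √N * √N :=
      mul_le_mul hh hd (abs_nonneg _) (by linarith)
    calc 1 / √(N : ℝ) * (h * |(n2 : ℝ) - n1|) ≤ 1 / √(N : ℝ) * (√N * √N) :=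
          mul_le_mul_of_nonneg_left this (by positivity)
      _ = √N := by field_simp
  have b2 : 1 / √(N : ℝ) * (k1 * |(m1 : ℝ) - m2|) ≤ 16 * √N := by
    have : (k1 : ℝ) * |(m1 : ℝ) - m2| ≤ (4 * √N) * (4 * √N) :=
      mul_le_mul hk1 hmm (abs_nonneg _) (by linarith)
    calc 1 / √(N : ℝ) * (k1 * |(m1 : ℝ) - m2|) ≤ 1 / √(N : ℝ) * ((4 * √N) * (4 * √N)) :=
          mul_le_mul_of_nonneg_left this (by positivity)
      _ = 16 * √N := by field_simp; ring
  have b3 : √(N : ℝ) * ((k1 : ℝ) + j - k1) ≤ √(N : ℝ) * 18 := by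
    have e1 : (m2 : ℝ) + (k1 + j) - (m2 + k1) = (k1 : ℝ) + j - k1 := by ring
    rw [e1] at a3
    linarith [w1.2.1, w1.2.2, w1'.2.1, w1'.2.2, w2.2.1, w2.2.2, w2'.2.1, w2'.2.2]
  exact le_of_mul_le_mul_left b3 (by linarith)

/-- for given shifts there are few points -/
theorem win_fiber {N : ℕ} {A : ℝ} {n1 n2 m1 m2 h k : ℕ} (hN : 64 ≤ N)
    (w1 : (n1, m1 + k) ∈ Win N A) (w1' : (n1 + h, m1) ∈ Win N A)
    (w2 : (n2, m2 + k) ∈ Win N A) (w2' : (n2 + h, m2) ∈ Win N A)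
    (hh : 1 ≤ h) (hn : n1 ≤ n2) :
    (n2 : ℝ) - n1 ≤ 10 * √N / h := by
  have s8 := sqrt_ge8 hN
  have hm : m2 ≤ m1 := by
    rcases hn.eq_or_lt with rfl | hlt
    · exact (win_inj hN w2' w1').le
    · exact (win_anti hN w1' w2' (by omega)).le
  rw [mem_Win] at w1 w1' w2 w2'
  have a1 := (la_sub2 (N := N) (a := n1) (b := n2) (h := h) (by omega) w1.1.1.1 hn (by omega)).1
  have a2 := (la_sub2 (N := N) (a := m2) (b := m1) (h := k) (by omega) w2'.1.2.1 hm (by omega)).1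
  have b2 : 0 ≤ 1 / 5 / √(N : ℝ) * (k * ((m1 : ℝ) - m2)) := by
    have : (m2 : ℝ) ≤ m1 := by exact_mod_cast hm
    have : (0 : ℝ) ≤ (m1 : ℝ) - m2 := by linarith
    positivity
  have hh0 : (0 : ℝ) < h := by exact_mod_cast hh
  have b1 : 1 / 5 / √(N : ℝ) * (h * ((n2 : ℝ) - n1)) ≤ 2 := by
    linarith [w1.2.1, w1.2.2, w1'.2.1, w1'.2.2, w2.2.1, w2.2.2, w2'.2.1, w2'.2.2]
  rw [le_div_iff₀ hh0]
  have e : 1 / 5 / √(N : ℝ) * (h * ((n2 : ℝ) - n1)) = (h * ((n2 : ℝ) - n1)) / (5 * √N) := by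
    field_simp
  rw [e, div_le_iff₀ (by linarith)] at b1
  linarith

/-- the basic quantity `N^{1/4} √(1 + log N)` -/
def cY (N : ℕ) : ℝ := (N : ℝ) ^ (1 / 4 : ℝ) * √(1 + Real.log N)

theorem cY_sq {N : ℕ} (hN : 64 ≤ N) : cY N ^ 2 = √N * (1 + Real.log N) := by
  have h1 : (1 : ℝ) ≤ N := by
    have : (64 : ℝ) ≤ N := by exact_mod_cast hN
    linarith
  have hl : 0 ≤ Real.log N := Real.log_nonneg h1
  unfold cY
  rw [mul_pow, Real.sq_sqrt (by linarith), ← Real.rpow_natCast, ← Real.rpow_mul (by linarith),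
    Real.sqrt_eq_rpow]
  norm_num

theorem cY_ge_one {N : ℕ} (hN : 64 ≤ N) : 1 ≤ cY N := by
  have h1 : (1 : ℝ) ≤ N := by
    have : (64 : ℝ) ≤ N := by exact_mod_cast hN
    linarith
  have hl : 0 ≤ Real.log N := Real.log_nonneg h1
  unfold cY
  have a1 : 1 ≤ (N : ℝ) ^ (1 / 4 : ℝ) := Real.one_le_rpow h1 (by norm_num)
  have a2 : 1 ≤ √(1 + Real.log N) := Real.one_le_sqrt.2 (by linarith)
  nlinarith

/-- the points in a short interval -/
theorem count_short {N : ℕ} (A : ℝ) {H : ℕ} (n0 : ℕ) (hN : 64 ≤ N) (hH : (H : ℝ) ≤ √N) :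
    (((Win N A).filter (fun p => n0 ≤ p.1 ∧ p.1 < n0 + H)).card : ℝ) ≤ 22 * cY N := by
  set T := (Win N A).filter (fun p => n0 ≤ p.1 ∧ p.1 < n0 + H) with hT
  have s8 := sqrt_ge8 hN
  have hY := cY_ge_one hN
  have hN1 : (1 : ℝ) ≤ N := by
    have : (64 : ℝ) ≤ N := by exact_mod_cast hN
    linarith
  have hlog : 0 ≤ Real.log N := Real.log_nonneg hN1
  -- pairs
  set P := (T ×ˢ T).filter (fun z => z.1.1 < z.2.1) with hP
  have hTT : T.card * T.card ≤ T.card + 2 * P.card := by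
    have e1 : (T ×ˢ T).card = T.card * T.card := Finset.card_product _ _
    have hsub : T ×ˢ T ⊆ T.image (fun p => (p, p)) ∪ (P ∪ P.image Prod.swap) := by
      rintro ⟨⟨n, m⟩, ⟨n', m'⟩⟩ hz
      simp only [Finset.mem_union, Finset.mem_image, hP, Finset.mem_filter, Finset.mem_product]
        at hz ⊢
      obtain ⟨hp, hq⟩ := hz
      rcases lt_trichotomy n n' with hlt | rfl | hlt
      · exact Or.inr (Or.inl ⟨⟨hp, hq⟩, hlt⟩)
      · left
        have hp' := (Finset.mem_filter.1 (hT ▸ hp)).1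
        have hq' := (Finset.mem_filter.1 (hT ▸ hq)).1
        have := win_inj hN hp' hq'
        subst this
        exact ⟨(n, m), hp, rfl⟩
      · right; right
        exact ⟨((n', m'), (n, m)), ⟨⟨hq, hp⟩, hlt⟩, rfl⟩
    have h2 := Finset.card_le_card hsub
    have h3 := Finset.card_union_le (T.image (fun p => (p, p))) (P ∪ P.image Prod.swap)
    have h4 := Finset.card_union_le P (P.image Prod.swap)
    have h5 := Finset.card_image_le (s := T) (f := fun p => (p, p))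
    have h6 := Finset.card_image_le (s := P) (f := Prod.swap)
    omega
  -- the difference of the first coordinates
  set f : (ℕ × ℕ) × (ℕ × ℕ) → ℕ := fun z => z.2.1 - z.1.1 with hf
  set g : (ℕ × ℕ) × (ℕ × ℕ) → ℕ := fun z => z.1.2 - z.2.2 with hg
  have hPh : ∀ h ∈ Finset.Icc 1 (Nat.sqrt N),
      ((P.filter (fun z => f z = h)).card : ℝ) ≤ 209 * √N / h := by
    intro h hh
    rw [Finset.mem_Icc] at hh
    have hhr : (h : ℝ) ≤ √N := (Nat.cast_le.2 hh.2).trans Real.nat_sqrt_le_real_sqrt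
    have hh0 : (0 : ℝ) < h := by exact_mod_cast hh.1
    have hfib : ∀ k ∈ (P.filter (fun z => f z = h)).image g,
        (((P.filter (fun z => f z = h)).filter (fun z => g z = k)).card : ℝ)
          ≤ 10 * √N / h + 1 := by
      intro k _
      have hinj : Set.InjOn (fun z : (ℕ × ℕ) × (ℕ × ℕ) => z.1.1)
          ((P.filter (fun z => f z = h)).filter (fun z => g z = k)) := by
        rintro ⟨⟨n, m⟩, ⟨n1, m1⟩⟩ hz ⟨⟨n', m'⟩, ⟨n1', m1'⟩⟩ hz' (e : n = n')
        simp only [Finset.coe_filter, Set.mem_ofPred_eq, hP, hf, Finset.mem_filter,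
          Finset.mem_product, hT] at hz hz'
        subst e
        have e1 : n1 = n1' := by omega
        subst e1
        have e2 := win_inj hN hz.1.1.1.1.1 hz'.1.1.1.1.1
        have e3 := win_inj hN hz.1.1.1.2.1 hz'.1.1.1.2.1
        rw [e2, e3]
      rw [← Finset.card_image_of_injOn hinj]
      apply card_interval _ (by positivity)
      intro x hx y hy hxy
      rw [Finset.mem_image] at hx hy
      obtain ⟨⟨⟨n, m⟩, ⟨n1, m1⟩⟩, hz, rfl⟩ := hx
      obtain ⟨⟨⟨n', m'⟩, ⟨n1', m1'⟩⟩, hz', rfl⟩ := hy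
      simp only [hP, hf, hg, Finset.mem_filter, Finset.mem_product, hT] at hz hz' hxy ⊢
      obtain ⟨⟨⟨⟨⟨w1, -⟩, ⟨w1', -⟩⟩, l1⟩, f1⟩, g1⟩ := hz
      obtain ⟨⟨⟨⟨⟨w2, -⟩, ⟨w2', -⟩⟩, l2⟩, f2⟩, g2⟩ := hz'
      have mm1 := win_anti hN w1 w1' l1
      have mm2 := win_anti hN w2 w2' l2
      obtain rfl : n1 = n + h := by omega
      obtain rfl : n1' = n' + h := by omega
      obtain rfl : m = m1 + k := by omega
      obtain rfl : m' = m1' + k := by omega
      exact win_fiber hN w1 w1' w2 w2' hh.1 hxy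
    have himg : (((P.filter (fun z => f z = h)).image g).card : ℝ) ≤ 18 + 1 := by
      apply card_interval _ (by norm_num)
      intro x hx y hy hxy
      rw [Finset.mem_image] at hx hy
      obtain ⟨⟨⟨n, m⟩, ⟨n1, m1⟩⟩, hz, rfl⟩ := hx
      obtain ⟨⟨⟨n', m'⟩, ⟨n1', m1'⟩⟩, hz', rfl⟩ := hy
      simp only [hP, hf, hg, Finset.mem_filter, Finset.mem_product, hT] at hz hz' hxy ⊢
      obtain ⟨⟨⟨⟨w1, r1⟩, ⟨w1', r1'⟩⟩, l1⟩, f1⟩ := hz
      obtain ⟨⟨⟨⟨w2, r2⟩, ⟨w2', r2'⟩⟩, l2⟩, f2⟩ := hz'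
      have mm1 := win_anti hN w1 w1' l1
      have mm2 := win_anti hN w2 w2' l2
      obtain rfl : n1 = n + h := by omega
      obtain rfl : n1' = n' + h := by omega
      obtain ⟨k1, rfl⟩ := Nat.exists_eq_add_of_le mm1.le
      obtain ⟨k2, rfl⟩ := Nat.exists_eq_add_of_le mm2.le
      rw [Nat.add_sub_cancel_left, Nat.add_sub_cancel_left] at hxy ⊢
      refine win_shift hN w1 w1' w2 w2' ?_ hhr hxy
      have c1 : (n' : ℝ) < n0 + H := by exact_mod_cast r2.2
      have c2 : (n : ℝ) < n0 + H := by exact_mod_cast r1.2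
      have c3 : (n0 : ℝ) ≤ n' := by exact_mod_cast r2.1
      have c4 : (n0 : ℝ) ≤ n := by exact_mod_cast r1.1
      rw [abs_le]
      constructor <;> linarith
    have hc := card_fib _ g hfib
    refine hc.trans ?_
    have h1 : (1 : ℝ) ≤ √N / h := by
      rw [le_div_iff₀ hh0]; linarith
    have e1 : 10 * √(N : ℝ) / h = 10 * (√N / h) := by ring
    have e2 : 209 * √(N : ℝ) / h = 209 * (√N / h) := by ring
    rw [e1, e2]
    calc (((P.filter (fun z => f z = h)).image g).card : ℝ) * (10 * (√N / h) + 1)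
        ≤ 19 * (10 * (√N / h) + 1) := by
          apply mul_le_mul_of_nonneg_right _ (by positivity)
          linarith
      _ ≤ 209 * (√N / h) := by linarith
  have hPc : (P.card : ℝ) ≤ 209 * (√N * (1 + Real.log N)) := by
    have hmaps : ∀ z ∈ P, f z ∈ Finset.Icc 1 (Nat.sqrt N) := by
      rintro ⟨⟨n, m⟩, ⟨n1, m1⟩⟩ hz
      simp only [hP, hf, Finset.mem_filter, Finset.mem_product, hT, Finset.mem_Icc] at hz ⊢
      obtain ⟨⟨⟨w1, r1⟩, ⟨w1', r1'⟩⟩, l1⟩ := hz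
      refine ⟨by omega, ?_⟩
      have hH' : H ≤ Nat.sqrt N := by
        rw [Nat.le_sqrt']
        have : (H : ℝ) ^ 2 ≤ N := by
          have := Real.sq_sqrt (Nat.cast_nonneg (α := ℝ) N)
          nlinarith [Nat.cast_nonneg (α := ℝ) H]
        exact_mod_cast this
      omega
    have e1 : P.card = ∑ h ∈ Finset.Icc 1 (Nat.sqrt N), (P.filter (fun z => f z = h)).card :=
      Finset.card_eq_sum_card_fiberwise hmaps
    rw [e1]
    push_cast
    calc ∑ h ∈ Finset.Icc 1 (Nat.sqrt N), ((P.filter (fun z => f z = h)).card : ℝ)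
        ≤ ∑ h ∈ Finset.Icc 1 (Nat.sqrt N), 209 * √N / (h : ℝ) := Finset.sum_le_sum hPh
      _ = 209 * √N * ∑ h ∈ Finset.Icc 1 (Nat.sqrt N), (h : ℝ)⁻¹ := by
          rw [Finset.mul_sum]
          exact Finset.sum_congr rfl (fun h _ => by rw [div_eq_mul_inv])
      _ ≤ 209 * √N * (1 + Real.log N) := by
          apply mul_le_mul_of_nonneg_left _ (by positivity)
          have h1 := harmonic_le_one_add_log (Nat.sqrt N)
          rw [harmonic_eq_sum_Icc] at h1
          push_cast at h1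
          refine h1.trans ?_
          have h2 : Real.log (Nat.sqrt N) ≤ Real.log N := by
            apply Real.log_le_log
            · have : 0 < Nat.sqrt N := Nat.sqrt_pos.2 (by omega)
              exact_mod_cast this
            · exact_mod_cast Nat.sqrt_le_self N
          linarith
      _ = _ := by ring
  have hfin : (T.card : ℝ) * T.card ≤ T.card + 418 * cY N ^ 2 := by
    have : (T.card : ℝ) * T.card ≤ T.card + 2 * P.card := by exact_mod_cast hTT
    rw [cY_sq hN]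
    linarith
  by_contra hcon
  push Not at hcon
  nlinarith

/-- (ii) any `H` consecutive values of `n` contain at most `C (H/√N + 1) N^{1/4} √(1 + log N)` first
coordinates of points of the window.  Proof: second moment; pairs of points `(n, m)`,
`(n + h, m - k)` in an interval of length `√N`: for given `h` there are `O(1)` values of `k`, and for
given `(h, k)` at most `1 + C √N / h` values of `n`. -/
theorem count_all : ∃ C > 0, ∀ (N : ℕ) (A : ℝ) (H n0 : ℕ), 64 ≤ N →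
    (((Win N A).filter (fun p => n0 ≤ p.1 ∧ p.1 < n0 + H)).card : ℝ) ≤
      C * (H / √N + 1) * (N : ℝ) ^ (1 / 4 : ℝ) * √(1 + Real.log N) := by
  refine ⟨44, by norm_num, fun N A H n0 hN => ?_⟩
  have s8 := sqrt_ge8 hN
  have hY := cY_ge_one hN
  set r := Nat.sqrt N with hr
  have hr8 : 8 ≤ r := by rw [hr, Nat.le_sqrt]; omega
  have hrS : (r : ℝ) ≤ √N := Real.nat_sqrt_le_real_sqrt
  have hSr : √(N : ℝ) ≤ 2 * r := by
    have h1 : √(N : ℝ) ≤ r + 1 := Real.real_sqrt_le_nat_sqrt_succ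
    have : (8 : ℝ) ≤ r := by exact_mod_cast hr8
    linarith
  have hr0 : (0 : ℝ) < r := by
    have : (8 : ℝ) ≤ r := by exact_mod_cast hr8
    linarith
  have hsub : (Win N A).filter (fun p => n0 ≤ p.1 ∧ p.1 < n0 + H) ⊆
      (Finset.range (H / r + 1)).biUnion (fun i =>
        (Win N A).filter (fun p => n0 + i * r ≤ p.1 ∧ p.1 < (n0 + i * r) + r)) := by
    rintro ⟨n, m⟩ hp
    simp only [Finset.mem_filter, Finset.mem_biUnion, Finset.mem_range] at hp ⊢
    obtain ⟨w, h1, h2⟩ := hp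
    refine ⟨(n - n0) / r, ?_, w, ?_, ?_⟩
    · have := Nat.div_le_div_right (c := r) (show n - n0 ≤ H by omega)
      omega
    · have := Nat.div_mul_le_self (n - n0) r
      omega
    · have := Nat.lt_div_mul_add (a := n - n0) (b := r) (by omega)
      omega
  have hc := (Finset.card_le_card hsub).trans Finset.card_biUnion_le
  have hc' : (((Win N A).filter (fun p => n0 ≤ p.1 ∧ p.1 < n0 + H)).card : ℝ) ≤
      ∑ i ∈ Finset.range (H / r + 1), 22 * cY N := by
    refine le_trans (b := ((∑ i ∈ Finset.range (H / r + 1),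
      ((Win N A).filter (fun p => n0 + i * r ≤ p.1 ∧ p.1 < (n0 + i * r) + r)).card : ℕ) : ℝ)) ?_ ?_
    · exact_mod_cast hc
    · push_cast
      exact Finset.sum_le_sum (fun i _ => count_short A _ hN hrS)
  rw [Finset.sum_const, Finset.card_range, nsmul_eq_mul] at hc'
  refine hc'.trans ?_
  have h3 : ((H / r + 1 : ℕ) : ℝ) ≤ 2 * (H / √N + 1) := by
    push_cast
    have h4 : ((H / r : ℕ) : ℝ) ≤ H / r := Nat.cast_div_le
    have h5 : (H : ℝ) / r ≤ 2 * (H / √N) := by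
      rw [div_le_iff₀ hr0]
      have : 2 * ((H : ℝ) / √N) * r = H * (2 * r) / √N := by ring
      rw [this, le_div_iff₀ (by linarith)]
      exact mul_le_mul_of_nonneg_left hSr (Nat.cast_nonneg _)
    linarith
  calc ((H / r + 1 : ℕ) : ℝ) * (22 * cY N) ≤ 2 * (H / √N + 1) * (22 * cY N) :=
        mul_le_mul_of_nonneg_right h3 (by linarith)
    _ = 44 * (H / √N + 1) * (N : ℝ) ^ (1 / 4 : ℝ) * √(1 + Real.log N) := by
        unfold cY; ring

/-- the pairs near the diagonal -/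
theorem count_near : ∃ C > 0, ∀ (N : ℕ) (A : ℝ), 64 ≤ N →
    (((Win N A).filter (fun p => (p.1 - p.2) ^ 2 < N ∧ (p.2 - p.1) ^ 2 < N)).card : ℝ) ≤
      C * (N : ℝ) ^ (1 / 4 : ℝ) * √(1 + Real.log N) := by
  obtain ⟨C, hC, key⟩ := count_all
  refine ⟨4 * C, by positivity, fun N A hN => ?_⟩
  have s8 := sqrt_ge8 hN
  have hY := cY_ge_one hN
  set S := (Win N A).filter (fun p => (p.1 - p.2) ^ 2 < N ∧ (p.2 - p.1) ^ 2 < N) with hS
  have hrhs : 4 * C * (N : ℝ) ^ (1 / 4 : ℝ) * √(1 + Real.log N) = 4 * C * cY N := by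
    unfold cY; ring
  rw [hrhs]
  rcases S.eq_empty_or_nonempty with he | hne
  · rw [he]; simp only [Finset.card_empty, Nat.cast_zero]; positivity
  obtain ⟨p0, hp0, hmin⟩ := S.exists_min_image (fun p => p.1) hne
  set r := Nat.sqrt N with hr
  have hrS : (r : ℝ) ≤ √N := Real.nat_sqrt_le_real_sqrt
  have hsub : S ⊆ (Win N A).filter (fun p => p0.1 ≤ p.1 ∧ p.1 < p0.1 + (2 * r + 1)) := by
    rintro ⟨n, m⟩ hp
    have hm0 := hmin _ hp
    obtain ⟨n0, m0⟩ := p0
    simp only [hS, Finset.mem_filter] at hp hp0 hm0 ⊢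
    refine ⟨hp.1, hm0, ?_⟩
    rcases hm0.eq_or_lt with e | hlt
    · omega
    have hanti := win_anti hN hp0.1 hp.1 hlt
    have a1 : m0 - n0 ≤ r := by rw [hr, Nat.le_sqrt']; exact hp0.2.2.le
    have a2 : n - m ≤ r := by rw [hr, Nat.le_sqrt']; exact hp.2.1.le
    omega
  have h1 : (S.card : ℝ) ≤ (((Win N A).filter
      (fun p => p0.1 ≤ p.1 ∧ p.1 < p0.1 + (2 * r + 1))).card : ℝ) := by
    exact_mod_cast Finset.card_le_card hsub
  refine h1.trans ((key N A (2 * r + 1) p0.1 hN).trans ?_)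
  have h2 : (((2 * r + 1 : ℕ) : ℝ) / √N + 1) ≤ 4 := by
    have : ((2 * r + 1 : ℕ) : ℝ) / √N ≤ 3 := by
      rw [div_le_iff₀ (by linarith)]
      push_cast
      linarith
    linarith
  have e : C * (((2 * r + 1 : ℕ) : ℝ) / √N + 1) * (N : ℝ) ^ (1 / 4 : ℝ) * √(1 + Real.log N)
      = (C * cY N) * (((2 * r + 1 : ℕ) : ℝ) / √N + 1) := by unfold cY; ring
  rw [e]
  calc (C * cY N) * (((2 * r + 1 : ℕ) : ℝ) / √N + 1) ≤ (C * cY N) * 4 :=
        mul_le_mul_of_nonneg_left h2 (by positivity)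
    _ = 4 * C * cY N := by ring

end

end Pool.Agent.DW
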