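import Mathlib

/-!
# Strichartz estimates for linearised droplet water waves on the sphere: definitions
(MP_562430_an)
-/

open MeasureTheory Metric Complex Filter Topology Real
open scoped ENNReal NNReal RealInnerProductSpace Manifold ContDiff

namespace Pool.Agent.DW

noncomputable section

/-- Euclidean three-space. -/
abbrev E3 : Type := EuclideanSpace ℝ (Fin 3)

/-- The unit sphere of `ℝ³`. -/
abbrev S2 : Type := sphere (0 : E3) 1

/-- The standard surface measure of `S²`. -/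
def σ : Measure S2 := (volume : Measure E3).toSphere

instance : IsFiniteMeasure σ := by unfold σ; infer_instance

/-- The inner product in `ℝ³` of two points of the sphere. -/
def ip (x y : S2) : ℝ := ⟪(x : E3), (y : E3)⟫

/-- The Legendre polynomials, by Bonnet's recursion
`(n + 2) P_{n+2}(s) = (2 n + 3) s P_{n+1}(s) - (n + 1) P_n(s)`. -/
def leg : ℕ → ℝ → ℝ
  | 0, _ => 1
  | 1, s => s
  | n + 2, s => ((2 * n + 3) * s * leg (n + 1) s - (n + 1) * leg n s) / (n + 2)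

/-- `Z n ⟨x, y⟩` is the reproducing kernel of the space of spherical harmonics of degree `n`. -/
def Z (n : ℕ) (s : ℝ) : ℝ := (2 * n + 1) / (4 * π) * leg n s

/-- The orthogonal projection `Π^{(n)}` onto the spherical harmonics of degree `n`, given by its
kernel `(2n+1)/(4π) P_n(⟨x, y⟩)`. -/
def proj (n : ℕ) (f : S2 → ℂ) (x : S2) : ℂ := ∫ y, (Z n (ip x y) : ℂ) * f y ∂σ

/-- The eigenvalues `Λ(n) = √(n (n-1) (n+2))`. -/
def Lam (n : ℕ) : ℝ := √((n : ℝ) * ((n : ℝ) - 1) * ((n : ℝ) + 2))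

/-- `u t = e^{itΛ} f` for all `t`: the series `∑ e^{itΛ(n)} Π^{(n)} f` converges to `u t` in
`L²(S²)`. -/
def IsFlow (f : S2 → ℂ) (u : ℝ → S2 → ℂ) : Prop :=
  ∀ t : ℝ, AEStronglyMeasurable (u t) σ ∧
    Tendsto (fun K : ℕ => eLpNorm (fun x => u t x
      - ∑ n ∈ Finset.range K, cexp (I * t * Lam n) * proj n f x) 2 σ) atTop (𝓝 0)

/-- The Sobolev norm `‖f‖_{H^s}`. -/
def Hs (s : ℝ) (f : S2 → ℂ) : ℝ≥0∞ :=
  (∑' n : ℕ, ENNReal.ofReal ((1 + n : ℝ) ^ (2 * s)) * eLpNorm (proj n f) 2 σ ^ 2) ^ (1 / 2 : ℝ)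

/-- The Strichartz estimate `(p, q, s)` holds:
`‖e^{itΛ} f‖_{L^p([0,T]; L^q(S²))} ≤ C_T ‖f‖_{H^s}` for all `f ∈ C^∞(S²)`. -/
def Strichartz (p q : ℝ≥0∞) (s : ℝ) : Prop :=
  ∀ T : ℝ, 0 < T → ∃ C : ℝ≥0, ∀ f : S2 → ℂ, ContMDiff (𝓡 2) 𝓘(ℝ, ℂ) ∞ f →
    ∀ u : ℝ → S2 → ℂ, IsFlow f u →
      eLpNorm (fun t => eLpNorm (u t) q σ) p (volume.restrict (Set.Icc 0 T)) ≤ C * Hs s f

/-! ### auxiliary notions -/

/-- the squared `L²` norm -/
def N2 (f : S2 → ℂ) : ℝ := ∫ x, ‖f x‖ ^ 2 ∂σ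

/-- `f` is a spherical harmonic of degree `n` -/
structure Har (n : ℕ) (f : S2 → ℂ) : Prop where
  cont : Continuous f
  rep : ∀ x, proj n f x = f x

/-- the function `x₁ + i x₂`, whose powers are the highest weight spherical harmonics -/
def hw (x : S2) : ℂ := ((x : E3) 0 : ℂ) + I * ((x : E3) 1 : ℂ)

end

end Pool.Agent.DW
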