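import Pool.Agent.DW.Moments

/-!
# Module A2: Laplace's formula, null vectors, the kernels `Z n`
-/

open MeasureTheory Metric Complex Filter Topology Real
open scoped ENNReal NNReal RealInnerProductSpace

namespace Pool.Agent.DW

noncomputable section


/-! ### the one-dimensional integrals -/

/-- `A(ψ) = s + i (cos ψ a + sin ψ b)` -/
def krA (s a b : ℂ) (ψ : ℝ) : ℂ := s + I * ((Real.cos ψ : ℂ) * a + (Real.sin ψ : ℂ) * b)

def krB (a b : ℂ) (ψ : ℝ) : ℂ := -((Real.sin ψ : ℂ) * a) + (Real.cos ψ : ℂ) * b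

def krL (s a b : ℂ) (n : ℕ) : ℂ := ∫ ψ in (0:ℝ)..(2 * π), krA s a b ψ ^ n

theorem krA_cont (s a b : ℂ) : Continuous (krA s a b) := by
  unfold krA
  fun_prop

theorem krB_cont (a b : ℂ) : Continuous (krB a b) := by
  unfold krB
  fun_prop

theorem kr_cos_deriv (ψ : ℝ) : HasDerivAt (fun t : ℝ => ((Real.cos t : ℝ) : ℂ)) (-(Real.sin ψ : ℂ)) ψ := by
  have h := (Real.hasDerivAt_cos ψ).ofReal_comp
  simpa using h

theorem kr_sin_deriv (ψ : ℝ) : HasDerivAt (fun t : ℝ => ((Real.sin t : ℝ) : ℂ)) ((Real.cos ψ : ℂ)) ψ := by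
  have h := (Real.hasDerivAt_sin ψ).ofReal_comp
  simpa using h

theorem krA_deriv (s a b : ℂ) (ψ : ℝ) : HasDerivAt (krA s a b) (I * krB a b ψ) ψ := by
  have h := ((((kr_cos_deriv ψ).mul_const a).add ((kr_sin_deriv ψ).mul_const b)).const_mul I).const_add s
  refine h.congr_deriv ?_
  unfold krB
  ring

theorem krB_deriv (s a b : ℂ) (ψ : ℝ) : HasDerivAt (krB a b) (I * (krA s a b ψ - s)) ψ := by
  have h := (((kr_sin_deriv ψ).mul_const a).neg).add ((kr_cos_deriv ψ).mul_const b)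
  refine h.congr_deriv ?_
  unfold krA
  have hI : I * I = -1 := Complex.I_mul_I
  linear_combination (-(Real.cos ψ : ℂ) * a - (Real.sin ψ : ℂ) * b) * hI

theorem kr_AB (s a b : ℂ) (ψ : ℝ) :
    krB a b ψ ^ 2 = krA s a b ψ ^ 2 - 2 * s * krA s a b ψ + (s ^ 2 + a ^ 2 + b ^ 2) := by
  have hcs : ((Real.cos ψ : ℝ) : ℂ) ^ 2 + ((Real.sin ψ : ℝ) : ℂ) ^ 2 = 1 := by
    exact_mod_cast Real.cos_sq_add_sin_sq ψ
  unfold krA krB
  have hI : I ^ 2 = -1 := Complex.I_sq
  linear_combination (a ^ 2 + b ^ 2) * hcs - (((Real.cos ψ : ℝ) : ℂ) * a + ((Real.sin ψ : ℝ) : ℂ) * b) ^ 2 * hI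

theorem krL_zero (s a b : ℂ) : krL s a b 0 = 2 * π := by
  simp [krL]

theorem krL_one (s a b : ℂ) : krL s a b 1 = 2 * π * s := by
  unfold krL
  have h : ∀ ψ ∈ Set.uIcc (0:ℝ) (2 * π),
      HasDerivAt (fun t : ℝ => (t : ℂ) * s + I * (((Real.sin t : ℝ) : ℂ) * a - ((Real.cos t : ℝ) : ℂ) * b))
        (krA s a b ψ ^ 1) ψ := by
    intro ψ _
    have h1 : HasDerivAt (fun t : ℝ => (t : ℂ)) 1 ψ := by
      simpa using (hasDerivAt_id ψ).ofReal_comp
    have h := (h1.mul_const s).add ((((kr_sin_deriv ψ).mul_const a).sub ((kr_cos_deriv ψ).mul_const b)).const_mul I)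
    refine h.congr_deriv ?_
    unfold krA
    ring
  rw [intervalIntegral.integral_eq_sub_of_hasDerivAt h]
  · simp
  · apply Continuous.intervalIntegrable
    exact (krA_cont s a b).pow 1

theorem krL_rec (s a b : ℂ) (n : ℕ) :
    ((n : ℂ) + 2) * krL s a b (n + 2)
      = (2 * n + 3) * s * krL s a b (n + 1) - (n + 1) * (s ^ 2 + a ^ 2 + b ^ 2) * krL s a b n := by
  have hder : ∀ ψ ∈ Set.uIcc (0:ℝ) (2 * π),
      HasDerivAt (fun t : ℝ => krA s a b t ^ (n + 1) * krB a b t)
        (I * ((n + 2) * krA s a b ψ ^ (n + 2) - (2 * n + 3) * s * krA s a b ψ ^ (n + 1)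
          + (n + 1) * (s ^ 2 + a ^ 2 + b ^ 2) * krA s a b ψ ^ n)) ψ := by
    intro ψ _
    have h := ((krA_deriv s a b ψ).pow (n + 1)).mul (krB_deriv s a b ψ)
    refine h.congr_deriv ?_
    have hAB := kr_AB s a b ψ
    simp only [Nat.add_sub_cancel]
    push_cast
    simp only [Pi.pow_apply]
    linear_combination ((n + 1) * krA s a b ψ ^ n * I) * hAB
  have hc := krA_cont s a b
  have h0 : ∫ ψ in (0:ℝ)..(2 * π), (I * ((n + 2) * krA s a b ψ ^ (n + 2) - (2 * n + 3) * s * krA s a b ψ ^ (n + 1)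
          + (n + 1) * (s ^ 2 + a ^ 2 + b ^ 2) * krA s a b ψ ^ n)) = 0 := by
    rw [intervalIntegral.integral_eq_sub_of_hasDerivAt hder]
    · simp [krA, krB]
    · apply Continuous.intervalIntegrable
      fun_prop
  rw [intervalIntegral.integral_const_mul] at h0
  have h1 := (mul_eq_zero.mp h0).resolve_left Complex.I_ne_zero
  rw [intervalIntegral.integral_add, intervalIntegral.integral_sub, intervalIntegral.integral_const_mul,
    intervalIntegral.integral_const_mul, intervalIntegral.integral_const_mul] at h1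
  · unfold krL
    linear_combination h1
  all_goals
    apply Continuous.intervalIntegrable
    fun_prop

theorem krL_leg (s : ℝ) (a b : ℂ) (h : (s : ℂ) ^ 2 + a ^ 2 + b ^ 2 = 1) (n : ℕ) :
    krL s a b n = 2 * π * (leg n s : ℂ) := by
  induction n using Nat.strong_induction_on with
  | _ n ih =>
    match n with
    | 0 => simp [krL_zero, leg]
    | 1 => simp [krL_one, leg]
    | n + 2 =>
      have h1 := krL_rec s a b n
      rw [h, ih (n + 1) (by omega), ih n (by omega)] at h1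
      have h2 : ((n : ℂ) + 2) ≠ 0 := by
        exact_mod_cast (by omega : n + 2 ≠ 0)
      apply mul_left_cancel₀ h2
      rw [h1]
      simp only [leg]
      push_cast
      field_simp

theorem krL_null (s a b : ℂ) (h : s ^ 2 + a ^ 2 + b ^ 2 = 0) (n : ℕ) :
    krL s a b n = 2 * π * ((Nat.centralBinom n : ℂ) / 2 ^ n * s ^ n) := by
  induction n with
  | zero => simp [krL_zero]
  | succ n ih =>
    match n with
    | 0 => 
      simp [krL_one]
      rw [show Nat.centralBinom 1 = 2 from rfl]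
      push_cast
      ring
    | n + 1 =>
      have h1 := krL_rec s a b n
      rw [h, ih] at h1
      have h2 : ((n : ℂ) + 2) ≠ 0 := by
        exact_mod_cast (by omega : n + 2 ≠ 0)
      apply mul_left_cancel₀ h2
      rw [h1]
      have h3 : ((n : ℂ) + 2) * (Nat.centralBinom (n + 1 + 1) : ℂ) = 2 * (2 * n + 3) * Nat.centralBinom (n + 1) := by
        have := Nat.succ_mul_centralBinom_succ (n + 1)
        have h4 : (((n + 1 + 1) * Nat.centralBinom (n + 1 + 1) : ℕ) : ℂ) = ((2 * (2 * (n + 1) + 1) * Nat.centralBinom (n + 1) : ℕ) : ℂ) := by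
          exact_mod_cast this
        push_cast at h4
        linear_combination h4
      linear_combination (-(2 * (π : ℂ)) * s ^ (n + 2) / 2 ^ (n + 2)) * h3


/-! ### null vectors -/

theorem kr_cp_cont (ζ : Fin 3 → ℂ) : Continuous (cp ζ) := by
  unfold cp
  fun_prop

theorem kr_cp_lin (α : ℂ) (ζ η : Fin 3 → ℂ) (y : S2) :
    cp (fun i => α * ζ i + η i) y = α * cp ζ y + cp η y := by
  simp only [cp, Fin.sum_univ_three]
  ring

theorem kr_cdot_lin (α : ℂ) (ζ η : Fin 3 → ℂ) :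
    cdot (fun i => α * ζ i + η i) (fun i => α * ζ i + η i)
      = α ^ 2 * cdot ζ ζ + 2 * α * cdot ζ η + cdot η η := by
  simp only [cdot, Fin.sum_univ_three]
  ring

def krI (ζ η : Fin 3 → ℂ) (j l : ℕ) : ℂ := ∫ y, cp ζ y ^ j * cp η y ^ l ∂σ

theorem kr_expand (ζ η : Fin 3 → ℂ) (N : ℕ) (α : ℂ) :
    ∫ y, cp (fun i => α * ζ i + η i) y ^ N ∂σ
      = ∑ j ∈ Finset.range (N + 1), (krI ζ η j (N - j) * (N.choose j : ℂ)) * α ^ j := by
  have h : ∀ y, cp (fun i => α * ζ i + η i) y ^ N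
      = ∑ j ∈ Finset.range (N + 1), (α ^ j * (N.choose j : ℂ)) * (cp ζ y ^ j * cp η y ^ (N - j)) := by
    intro y
    rw [kr_cp_lin, add_pow]
    refine Finset.sum_congr rfl fun j _ => ?_
    rw [mul_pow]
    ring
  simp_rw [h]
  rw [integral_finsetSum]
  · refine Finset.sum_congr rfl fun j _ => ?_
    rw [integral_const_mul]
    unfold krI
    ring
  · intro j _
    apply Integrable.const_mul
    apply integrable_of_cont
    exact ((kr_cp_cont ζ).pow j).mul ((kr_cp_cont η).pow _)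

open Polynomial in
theorem kr_coeff (c : ℕ → ℂ) (N k : ℕ) (d : ℂ)
    (h : ∀ α : ℂ, ∑ j ∈ Finset.range (N + 1), c j * α ^ j = d * α ^ k) (j : ℕ) (hj : j ≤ N) :
    c j = if j = k then d else 0 := by
  have hP : (∑ j ∈ Finset.range (N + 1), C (c j) * X ^ j : ℂ[X]) = C d * X ^ k := by
    apply Polynomial.funext
    intro r
    rw [Polynomial.eval_finsetSum]
    simpa using h r
  have h1 := congrArg (fun p : ℂ[X] => p.coeff j) hP
  simp only [Polynomial.finsetSum_coeff, Polynomial.coeff_C_mul_X_pow] at h1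
  rw [Finset.sum_ite_eq] at h1
  rw [if_pos (by simpa using (by omega : j < N + 1))] at h1
  exact h1

theorem krI_even (ζ η : Fin 3 → ℂ) (hζ : cdot ζ ζ = 0) (hη : cdot η η = 0) (k j : ℕ)
    (hj : j ≤ 2 * k) :
    krI ζ η j (2 * k - j) * ((2 * k).choose j : ℂ)
      = if j = k then 4 * π / (2 * k + 1) * (2 * cdot ζ η) ^ k else 0 := by
  apply kr_coeff (fun j => krI ζ η j (2 * k - j) * ((2 * k).choose j : ℂ)) (2 * k) k _ _ j hj
  intro α
  rw [← kr_expand, moment_even, kr_cdot_lin, hζ, hη]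
  rw [show α ^ 2 * 0 + 2 * α * cdot ζ η + 0 = (2 * cdot ζ η) * α by ring, mul_pow (2 * cdot ζ η) α]
  ring

theorem krI_odd (ζ η : Fin 3 → ℂ) (k j : ℕ) (hj : j ≤ 2 * k + 1) :
    krI ζ η j (2 * k + 1 - j) = 0 := by
  have h := kr_coeff (fun j => krI ζ η j (2 * k + 1 - j) * ((2 * k + 1).choose j : ℂ)) (2 * k + 1) 0 0
    (by
      intro α
      rw [← kr_expand, moment_odd]
      simp) j hj
  have h1 : krI ζ η j (2 * k + 1 - j) * ((2 * k + 1).choose j : ℂ) = 0 := by
    simpa using h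
  rcases mul_eq_zero.mp h1 with h2 | h2
  · exact h2
  · exfalso
    have : (2 * k + 1).choose j ≠ 0 := (Nat.choose_pos hj).ne'
    exact this (by exact_mod_cast h2)

/-- the pairing of powers of null vectors -/
theorem krI_null (ζ η : Fin 3 → ℂ) (hζ : cdot ζ ζ = 0) (hη : cdot η η = 0) (n m : ℕ) :
    krI ζ η n m = if n = m then
      4 * π * 2 ^ n / ((2 * n + 1) * (Nat.centralBinom n : ℂ)) * cdot ζ η ^ n else 0 := by
  rcases Nat.even_or_odd' (n + m) with ⟨k, hk | hk⟩
  · have h := krI_even ζ η hζ hη k n (by omega)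
    have hm : 2 * k - n = m := by omega
    rw [hm] at h
    by_cases hnm : n = m
    · subst hnm
      have hkn : k = n := by omega
      subst hkn
      rw [if_pos rfl] at h
      rw [if_pos rfl]
      have hcb : (Nat.centralBinom k : ℂ) ≠ 0 := by
        exact_mod_cast Nat.centralBinom_ne_zero k
      have h2k : (2 * (k : ℂ) + 1) ≠ 0 := by
        exact_mod_cast (by omega : 2 * k + 1 ≠ 0)
      rw [Nat.centralBinom_eq_two_mul_choose] at *
      rw [mul_pow] at h
      field_simp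
      field_simp at h
      linear_combination h
    · have hkn : n ≠ k := by omega
      rw [if_neg hkn] at h
      rw [if_neg hnm]
      rcases mul_eq_zero.mp h with h2 | h2
      · exact h2
      · exfalso
        have : (2 * k).choose n ≠ 0 := (Nat.choose_pos (by omega)).ne'
        exact this (by exact_mod_cast h2)
  · have h := krI_odd ζ η k n (by omega)
    have hm : 2 * k + 1 - n = m := by omega
    rw [hm] at h
    rw [h, if_neg (by omega)]

/-! ### frames -/

/-- complexification of a real vector -/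
def krv (v : E3) : Fin 3 → ℂ := fun i => ((v i : ℝ) : ℂ)

structure KrFrame (x e f : E3) : Prop where
  xx : cdot (krv x) (krv x) = 1
  ee : cdot (krv e) (krv e) = 1
  ff : cdot (krv f) (krv f) = 1
  xe : cdot (krv x) (krv e) = 0
  xf : cdot (krv x) (krv f) = 0
  ef : cdot (krv e) (krv f) = 0
  compl : ∀ w : Fin 3 → ℂ, cdot (krv x) w ^ 2 + cdot (krv e) w ^ 2 + cdot (krv f) w ^ 2 = cdot w w

theorem kr_cdot_cv (u v : E3) : cdot (krv u) (krv v) = ((⟪u, v⟫ : ℝ) : ℂ) := by
  simp only [cdot, krv, PiLp.inner_apply, RCLike.inner_apply, conj_trivial, Fin.sum_univ_three]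
  push_cast
  ring

theorem kr_exists_frame (x : S2) : ∃ e f : E3, KrFrame x e f := by
  have hx : ‖(x : E3)‖ = 1 := by simp
  have horth : Orthonormal ℝ (Set.domRestrict ({0} : Set (Fin 3)) (fun _ => (x : E3))) := by
    constructor
    · intro i
      exact hx
    · intro i j hij
      exfalso
      apply hij
      have hi := i.2
      have hj := j.2
      simp only [Set.mem_singleton_iff] at hi hj
      exact Subtype.ext (hi.trans hj.symm)
  obtain ⟨b, hb⟩ := horth.exists_orthonormalBasis_extension_of_card_eq (by simp)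
  have hb0 : b 0 = (x : E3) := hb 0 (by simp)
  have hin : ∀ i j, cdot (krv (b i)) (krv (b j)) = if i = j then 1 else 0 := by
    intro i j
    rw [kr_cdot_cv, b.inner_eq_ite]
    split_ifs <;> simp
  have hcomp : ∀ j k : Fin 3, ∑ i, krv (b i) j * krv (b i) k = if j = k then 1 else 0 := by
    intro j k
    have h := b.sum_inner_mul_inner (EuclideanSpace.single j (1:ℝ)) (EuclideanSpace.single k (1:ℝ))
    simp only [EuclideanSpace.inner_single_left, EuclideanSpace.inner_single_right] at h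
    have h2 := congrArg (fun r : ℝ => (r : ℂ)) h
    simp only [map_one, one_mul, conj_trivial] at h2
    push_cast at h2
    simp only [krv]
    rw [h2]
    rw [PiLp.single_apply]
    by_cases hjk : j = k
    · subst hjk; simp
    · rw [if_neg (fun h => hjk h.symm), if_neg hjk]; simp
  refine ⟨b 1, b 2, ?_, ?_, ?_, ?_, ?_, ?_, ?_⟩
  · rw [← hb0, hin]; simp
  · rw [hin]; simp
  · rw [hin]; simp
  · rw [← hb0, hin]; simp
  · rw [← hb0, hin]; simp
  · rw [hin]; simp
  · intro w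
    rw [← hb0]
    have h00 := hcomp 0 0
    have h11 := hcomp 1 1
    have h22 := hcomp 2 2
    have h01 := hcomp 0 1
    have h02 := hcomp 0 2
    have h12 := hcomp 1 2
    simp only [Fin.sum_univ_three] at h00 h11 h22 h01 h02 h12
    simp only [cdot, Fin.sum_univ_three]
    simp at h00 h11 h22 h01 h02 h12
    linear_combination w 0 ^ 2 * h00 + w 1 ^ 2 * h11 + w 2 ^ 2 * h22 + 2 * w 0 * w 1 * h01
      + 2 * w 0 * w 2 * h02 + 2 * w 1 * w 2 * h12

/-- the null vector `x + i (cos ψ e + sin ψ f)` -/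
def kr_z (x e f : E3) (ψ : ℝ) : Fin 3 → ℂ :=
  fun i => krv x i + I * ((Real.cos ψ : ℂ) * krv e i + (Real.sin ψ : ℂ) * krv f i)

theorem kr_cdot_z (x e f : E3) (ψ : ℝ) (w : Fin 3 → ℂ) :
    cdot (kr_z x e f ψ) w = cdot (krv x) w + I * ((Real.cos ψ : ℂ) * cdot (krv e) w
      + (Real.sin ψ : ℂ) * cdot (krv f) w) := by
  simp only [cdot, kr_z, Fin.sum_univ_three]
  ring

theorem kr_cdot_comm (ζ η : Fin 3 → ℂ) : cdot ζ η = cdot η ζ := by
  simp only [cdot, Fin.sum_univ_three]
  ring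

theorem kr_z_null {x e f : E3} (h : KrFrame x e f) (ψ : ℝ) :
    cdot (kr_z x e f ψ) (kr_z x e f ψ) = 0 := by
  have hcs : ((Real.cos ψ : ℝ) : ℂ) ^ 2 + ((Real.sin ψ : ℝ) : ℂ) ^ 2 = 1 := by
    exact_mod_cast Real.cos_sq_add_sin_sq ψ
  have hI : I ^ 2 = -1 := Complex.I_sq
  rw [kr_cdot_z, kr_cdot_comm (krv x), kr_cdot_comm (krv e), kr_cdot_comm (krv f), kr_cdot_z, kr_cdot_z, kr_cdot_z,
    h.xx, h.ee, h.ff, kr_cdot_comm (krv e) (krv x), kr_cdot_comm (krv f) (krv x), kr_cdot_comm (krv f) (krv e),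
    h.xe, h.xf, h.ef]
  linear_combination (((Real.cos ψ : ℝ) : ℂ) ^ 2 + ((Real.sin ψ : ℝ) : ℂ) ^ 2) * hI - hcs

theorem kr_cp_eq (ζ : Fin 3 → ℂ) (y : S2) : cp ζ y = cdot ζ (krv y) := rfl

/-! ### Laplace's formula -/

theorem krv_ip (x y : S2) : cdot (krv x) (krv y) = ((ip x y : ℝ) : ℂ) := kr_cdot_cv _ _

theorem krv_self (x : S2) : cdot (krv x) (krv x) = 1 := by
  rw [krv_ip]
  unfold ip
  rw [real_inner_self_eq_norm_sq]
  simp

theorem kr_z_krA (x e f : E3) (w : Fin 3 → ℂ) (ψ : ℝ) :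
    cdot (kr_z x e f ψ) w = krA (cdot (krv x) w) (cdot (krv e) w) (cdot (krv f) w) ψ := kr_cdot_z x e f ψ w

theorem kr_laplace {x : S2} {e f : E3} (h : KrFrame x e f) (y : S2) (n : ℕ) :
    ∫ ψ in (0:ℝ)..(2 * π), cp (kr_z x e f ψ) y ^ n = 2 * π * (leg n (ip x y) : ℂ) := by
  simp_rw [kr_cp_eq, kr_z_krA]
  rw [krv_ip]
  apply krL_leg
  rw [← krv_ip, h.compl, krv_self]

theorem kr_laplace_null {x : S2} {e f : E3} (h : KrFrame x e f) (η : Fin 3 → ℂ) (hη : cdot η η = 0)
    (n : ℕ) :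
    ∫ ψ in (0:ℝ)..(2 * π), cdot (kr_z x e f ψ) η ^ n
      = 2 * π * ((Nat.centralBinom n : ℂ) / 2 ^ n * cp η x ^ n) := by
  simp_rw [kr_z_krA]
  rw [kr_cp_eq, kr_cdot_comm η]
  apply krL_null
  rw [h.compl, hη]

theorem kr_fubini (G : ℝ → S2 → ℂ) (hG : Continuous (Function.uncurry G)) :
    ∫ y, (∫ ψ in (0:ℝ)..(2 * π), G ψ y) ∂σ = ∫ ψ in (0:ℝ)..(2 * π), (∫ y, G ψ y ∂σ) := by
  have hpi : (0:ℝ) ≤ 2 * π := by positivity
  simp only [intervalIntegral.integral_of_le hpi]
  rw [integral_integral_swap]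
  have h1 : σ.prod (volume.restrict (Set.Ioc (0:ℝ) (2 * π)))
      = (σ.prod (volume : Measure ℝ)).restrict (Set.univ ×ˢ Set.Ioc (0:ℝ) (2 * π)) := by
    rw [← Measure.prod_restrict, Measure.restrict_univ]
  rw [h1]
  have hc : Continuous (Function.uncurry (fun (y : S2) (ψ : ℝ) => G ψ y)) := by
    have : Function.uncurry (fun (y : S2) (ψ : ℝ) => G ψ y) = Function.uncurry G ∘ Prod.swap := by
      ext ⟨y, ψ⟩
      rfl
    rw [this]
    exact hG.comp continuous_swap
  have h2 : IntegrableOn (Function.uncurry (fun (y : S2) (ψ : ℝ) => G ψ y))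
      (Set.univ ×ˢ Set.Icc (0:ℝ) (2 * π)) (σ.prod (volume : Measure ℝ)) := by
    apply ContinuousOn.integrableOn_compact
    · exact isCompact_univ.prod isCompact_Icc
    · exact hc.continuousOn
  exact h2.mono_set (Set.prod_mono subset_rfl Set.Ioc_subset_Icc_self)

theorem kr_z_cont (x e f : E3) : Continuous (kr_z x e f) := by
  unfold kr_z
  fun_prop

theorem kr_cp_z_cont (x e f : E3) : Continuous (fun p : ℝ × S2 => cp (kr_z x e f p.1) p.2) := by
  have h := kr_z_cont x e f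
  unfold cp
  fun_prop

/-- Funk-Hecke for powers of null vectors -/
theorem kr_funk_hecke (x : S2) (η : Fin 3 → ℂ) (hη : cdot η η = 0) (n m : ℕ) :
    ∫ y, (leg n (ip x y) : ℂ) * cp η y ^ m ∂σ
      = if n = m then 4 * π / (2 * n + 1) * cp η x ^ n else 0 := by
  obtain ⟨e, f, h⟩ := kr_exists_frame x
  have h2pi : (2 * π : ℂ) ≠ 0 := by
    exact_mod_cast (by positivity : (2 * π : ℝ) ≠ 0)
  have h1 : 2 * π * ∫ y, (leg n (ip x y) : ℂ) * cp η y ^ m ∂σ
      = ∫ y, (∫ ψ in (0:ℝ)..(2 * π), cp (kr_z x e f ψ) y ^ n * cp η y ^ m) ∂σ := by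
    rw [← integral_const_mul]
    refine integral_congr_ae (Eventually.of_forall fun y => ?_)
    simp only
    rw [intervalIntegral.integral_mul_const, kr_laplace h]
    ring
  rw [kr_fubini] at h1
  · have h3 : ∀ ψ, ∫ y, cp (kr_z x e f ψ) y ^ n * cp η y ^ m ∂σ = if n = m then
      4 * π * 2 ^ n / ((2 * n + 1) * (Nat.centralBinom n : ℂ)) * cdot (kr_z x e f ψ) η ^ n else 0 :=
      fun ψ => krI_null _ _ (kr_z_null h ψ) hη n m
    simp_rw [h3] at h1
    by_cases hnm : n = m
    · simp only [hnm, if_true] at h1 ⊢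
      rw [intervalIntegral.integral_const_mul, kr_laplace_null h η hη] at h1
      apply mul_left_cancel₀ h2pi
      rw [h1]
      have hcb : (Nat.centralBinom m : ℂ) ≠ 0 := by
        exact_mod_cast Nat.centralBinom_ne_zero m
      have h2k : (2 * (m : ℂ) + 1) ≠ 0 := by
        exact_mod_cast (by omega : 2 * m + 1 ≠ 0)
      field_simp
    · simp only [hnm, if_false] at h1 ⊢
      apply mul_left_cancel₀ h2pi
      rw [h1]
      simp
  · exact ((kr_cp_z_cont x e f).pow n).mul (((kr_cp_cont η).comp continuous_snd).pow m)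

/-! ### the main statements -/

theorem leg_one (n : ℕ) : leg n 1 = 1 := by
  induction n using Nat.strong_induction_on with
  | _ n ih =>
    match n with
    | 0 => simp [leg]
    | 1 => simp [leg]
    | n + 2 =>
      simp only [leg]
      rw [ih (n + 1) (by omega), ih n (by omega)]
      field_simp
      ring

theorem leg_cont (n : ℕ) : Continuous (leg n) := by
  induction n using Nat.strong_induction_on with
  | _ n ih =>
    match n with
    | 0 => 
      have : leg 0 = fun _ => 1 := by ext; simp [leg]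
      rw [this]
      exact continuous_const
    | 1 => 
      have : leg 1 = fun s => s := by ext; simp [leg]
      rw [this]
      exact continuous_id
    | n + 2 =>
      have h1 := ih (n + 1) (by omega)
      have h2 := ih n (by omega)
      have : leg (n + 2) = fun s => ((2 * n + 3) * s * leg (n + 1) s - (n + 1) * leg n s) / (n + 2) := by
        ext; simp [leg]
      rw [this]
      fun_prop

theorem ip_comm (x y : S2) : ip x y = ip y x := by
  unfold ip
  exact real_inner_comm _ _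

theorem ip_self (x : S2) : ip x x = 1 := by
  unfold ip
  rw [real_inner_self_eq_norm_sq]
  simp

/-- continuity of the kernel -/
theorem Z_ip_cont (n : ℕ) : Continuous (fun p : S2 × S2 => Z n (ip p.1 p.2)) := by
  have h := leg_cont n
  unfold Z ip
  fun_prop

theorem kr_leg_conv (n m : ℕ) (x z : S2) :
    ∫ y, (leg n (ip x y) : ℂ) * (leg m (ip y z) : ℂ) ∂σ
      = if n = m then 4 * π / (2 * n + 1) * (leg n (ip x z) : ℂ) else 0 := by
  obtain ⟨e, f, h⟩ := kr_exists_frame z
  have h2pi : (2 * π : ℂ) ≠ 0 := by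
    exact_mod_cast (by positivity : (2 * π : ℝ) ≠ 0)
  have h1 : 2 * π * ∫ y, (leg n (ip x y) : ℂ) * (leg m (ip y z) : ℂ) ∂σ
      = ∫ y, (∫ ψ in (0:ℝ)..(2 * π), (leg n (ip x y) : ℂ) * cp (kr_z z e f ψ) y ^ m) ∂σ := by
    rw [← integral_const_mul]
    refine integral_congr_ae (Eventually.of_forall fun y => ?_)
    simp only
    rw [intervalIntegral.integral_const_mul, kr_laplace h, ip_comm y z]
    ring
  rw [kr_fubini] at h1
  · simp_rw [kr_funk_hecke x _ (kr_z_null h _)] at h1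
    by_cases hnm : n = m
    · simp only [hnm, if_true] at h1 ⊢
      rw [intervalIntegral.integral_const_mul, kr_laplace h] at h1
      apply mul_left_cancel₀ h2pi
      rw [h1, ip_comm z x]
      ring
    · simp only [hnm, if_false] at h1 ⊢
      apply mul_left_cancel₀ h2pi
      rw [h1]
      simp
  · have hl : Continuous (fun p : ℝ × S2 => ((leg n (ip x p.2) : ℝ) : ℂ)) := by
      have h := leg_cont n
      unfold ip
      fun_prop
    exact hl.mul ((kr_cp_z_cont z e f).pow m)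

/-- the reproducing identity -/
theorem Z_conv (n m : ℕ) (x z : S2) :
    ∫ y, Z n (ip x y) * Z m (ip y z) ∂σ = if n = m then Z n (ip x z) else 0 := by
  have h := kr_leg_conv n m x z
  have h1 : (((∫ y, leg n (ip x y) * leg m (ip y z) ∂σ : ℝ)) : ℂ)
      = if n = m then 4 * π / (2 * n + 1) * (leg n (ip x z) : ℂ) else 0 := by
    rw [← h, ← integral_complex_ofReal]
    refine integral_congr_ae (Eventually.of_forall fun y => ?_)
    push_cast
    rfl
  have h2 : (∫ y, leg n (ip x y) * leg m (ip y z) ∂σ : ℝ)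
      = if n = m then 4 * π / (2 * n + 1) * leg n (ip x z) else 0 := by
    split_ifs with hnm
    · rw [if_pos hnm] at h1
      exact_mod_cast h1
    · rw [if_neg hnm] at h1
      exact_mod_cast h1
  have h3 : ∀ y, Z n (ip x y) * Z m (ip y z)
      = ((2 * n + 1) / (4 * π) * ((2 * m + 1) / (4 * π))) * (leg n (ip x y) * leg m (ip y z)) := by
    intro y
    unfold Z
    ring
  simp_rw [h3]
  rw [integral_const_mul, h2]
  split_ifs with hnm
  · subst hnm
    unfold Z
    field_simp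
  · simp

theorem hw_cont : Continuous hw := by
  unfold hw
  fun_prop

def kr_hv : Fin 3 → ℂ := ![1, I, 0]

theorem kr_hw_eq (y : S2) : hw y = cp kr_hv y := by
  simp [hw, cp, kr_hv, Fin.sum_univ_three]

theorem kr_hv_null : cdot kr_hv kr_hv = 0 := by
  simp [cdot, kr_hv, Fin.sum_univ_three]

/-- powers of `x₁ + i x₂` are spherical harmonics -/
theorem proj_hw (n m : ℕ) (x : S2) :
    proj n (fun y => hw y ^ m) x = if n = m then hw x ^ n else 0 := by
  unfold proj Z
  have h3 : ∀ y, (((2 * n + 1) / (4 * π) * leg n (ip x y) : ℝ) : ℂ) * hw y ^ m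
      = ((2 * n + 1) / (4 * π)) * ((leg n (ip x y) : ℂ) * cp kr_hv y ^ m) := by
    intro y
    rw [kr_hw_eq]
    push_cast
    ring
  simp_rw [h3]
  rw [integral_const_mul, kr_funk_hecke x kr_hv kr_hv_null, kr_hw_eq]
  have h2k : (2 * (n : ℂ) + 1) ≠ 0 := by
    exact_mod_cast (by omega : 2 * n + 1 ≠ 0)
  have hpi : (π : ℂ) ≠ 0 := by exact_mod_cast Real.pi_ne_zero
  split_ifs with hnm
  · field_simp
  · simp

def kr_hv' : Fin 3 → ℂ := ![1, -I, 0]

theorem kr_hv'_null : cdot kr_hv' kr_hv' = 0 := by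
  simp [cdot, kr_hv', Fin.sum_univ_three]

theorem kr_hv_hv' : cdot kr_hv kr_hv' = 2 := by
  simp [cdot, kr_hv, kr_hv', Fin.sum_univ_three]
  norm_num

theorem kr_conj_hw (y : S2) : (starRingEnd ℂ) (hw y) = cp kr_hv' y := by
  simp [hw, cp, kr_hv', Fin.sum_univ_three]

theorem kr_cb_lower (n : ℕ) (hn : 1 ≤ n) : (4:ℝ) ^ n * 4 ^ n ≤ 4 * n * (Nat.centralBinom n) ^ 2 := by
  induction n, hn using Nat.le_induction with
  | base => norm_num [show Nat.centralBinom 1 = 2 from rfl]
  | succ n hn ih =>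
    have h := Nat.succ_mul_centralBinom_succ n
    have h4 : ((n : ℝ) + 1) * (Nat.centralBinom (n + 1) : ℝ) = 2 * (2 * n + 1) * Nat.centralBinom n := by
      exact_mod_cast h
    have hn0 : (0:ℝ) < n + 1 := by positivity
    have h5 : (Nat.centralBinom (n + 1) : ℝ) = 2 * (2 * n + 1) * Nat.centralBinom n / (n + 1) := by
      field_simp
      linear_combination h4
    rw [h5]
    push_cast
    have h6 : 4 * ((n : ℝ) + 1) * (2 * (2 * n + 1) * (Nat.centralBinom n : ℝ) / (n + 1)) ^ 2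
        = 16 * ((2 * n + 1) ^ 2 / (n + 1)) * (Nat.centralBinom n : ℝ) ^ 2 := by
      field_simp
      ring
    rw [h6]
    have h7 : 4 * (n : ℝ) ≤ (2 * n + 1) ^ 2 / (n + 1) := by
      rw [le_div_iff₀ hn0]
      nlinarith
    calc (4:ℝ) ^ (n + 1) * 4 ^ (n + 1) = 16 * (4 ^ n * 4 ^ n) := by ring
      _ ≤ 16 * (4 * n * (Nat.centralBinom n : ℝ) ^ 2) := by gcongr
      _ = 16 * (4 * n) * (Nat.centralBinom n : ℝ) ^ 2 := by ring
      _ ≤ 16 * ((2 * n + 1) ^ 2 / (n + 1)) * (Nat.centralBinom n : ℝ) ^ 2 := by gcongr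

theorem kr_N2_hw_eq (n : ℕ) :
    N2 (fun y => hw y ^ n) = 4 * π * 4 ^ n / ((2 * n + 1) * (Nat.centralBinom n)) := by
  have h1 : ((N2 (fun y => hw y ^ n) : ℝ) : ℂ) = krI kr_hv kr_hv' n n := by
    unfold N2 krI
    rw [← integral_complex_ofReal]
    refine integral_congr_ae (Eventually.of_forall fun y => ?_)
    simp only
    rw [← kr_conj_hw, ← kr_hw_eq, ← mul_pow, Complex.mul_conj, norm_pow, ← pow_mul, mul_comm n 2, pow_mul,
      ← Complex.normSq_eq_norm_sq]
    push_cast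
    rfl
  rw [krI_null kr_hv kr_hv' kr_hv_null kr_hv'_null, if_pos rfl, kr_hv_hv'] at h1
  have h2 : ((N2 (fun y => hw y ^ n) : ℝ) : ℂ)
      = ((4 * π * 4 ^ n / ((2 * n + 1) * (Nat.centralBinom n)) : ℝ) : ℂ) := by
    rw [h1]
    push_cast
    rw [show (4:ℂ) ^ n = 2 ^ n * 2 ^ n by rw [← mul_pow]; norm_num]
    ring
  exact_mod_cast h2

theorem N2_hw (n : ℕ) (hn : 1 ≤ n) : N2 (fun y => hw y ^ n) ≤ 4 * π / √n := by
  rw [kr_N2_hw_eq]
  have hn0 : (0:ℝ) < n := by exact_mod_cast hn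
  have hs : 0 < √(n : ℝ) := Real.sqrt_pos.mpr hn0
  have hcb : (0:ℝ) < Nat.centralBinom n := by exact_mod_cast Nat.centralBinom_pos n
  have h1 := kr_cb_lower n hn
  have h2 : (4:ℝ) ^ n ≤ 2 * √n * Nat.centralBinom n := by
    have h3 : ((4:ℝ) ^ n) ^ 2 ≤ (2 * √n * Nat.centralBinom n) ^ 2 := by
      calc ((4:ℝ) ^ n) ^ 2 = 4 ^ n * 4 ^ n := by ring
        _ ≤ 4 * n * (Nat.centralBinom n) ^ 2 := h1
        _ = (2 * √n * Nat.centralBinom n) ^ 2 := by
          rw [mul_pow, mul_pow, Real.sq_sqrt hn0.le]; ring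
    exact le_of_sq_le_sq h3 (by positivity)
  rw [div_le_div_iff₀ (by positivity) hs]
  have h5 : √(n : ℝ) * √(n : ℝ) = n := Real.mul_self_sqrt hn0.le
  calc 4 * π * 4 ^ n * √n ≤ 4 * π * (2 * √n * Nat.centralBinom n) * √n := by gcongr
    _ = 4 * π * ((2 * (√n * √n)) * Nat.centralBinom n) := by ring
    _ = 4 * π * ((2 * n) * Nat.centralBinom n) := by rw [h5]
    _ ≤ 4 * π * ((2 * n + 1) * Nat.centralBinom n) := by gcongr; linarith

end

end Pool.Agent.DW
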