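import Pool.Agent.DW.KL
import Pool.Agent.DW.Kernel
import Pool.Agent.DW.Count

/-!
# The dispersive estimate for the kernel of the flow
-/

open MeasureTheory Metric Complex Filter Topology Real
open scoped ENNReal NNReal RealInnerProductSpace

namespace Pool.Agent.DW

noncomputable section

/-- the kernel of the flow on a dyadic block -/
def KN (N : ℕ) (t s : ℝ) : ℂ := ∑ n ∈ Finset.Ico N (2 * N), cexp (I * t * Lam n) * (Z n s : ℂ)

/-- the integrand of the Laplace formula for the Legendre polynomials -/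
def dsz (s ψ : ℝ) : ℂ := krA s ((√(1 - s ^ 2) : ℝ) : ℂ) 0 ψ

theorem dsz_cont (s : ℝ) : Continuous (dsz s) := krA_cont _ _ _

theorem dsz_norm {s : ℝ} (hs : |s| ≤ 1) (ψ : ℝ) : ‖dsz s ψ‖ ≤ 1 := by
  have h1 : s ^ 2 ≤ 1 := by
    rw [← sq_abs]
    have := abs_nonneg s
    nlinarith
  have h2 : √(1 - s ^ 2) ^ 2 = 1 - s ^ 2 := Real.sq_sqrt (by linarith)
  have e : dsz s ψ = (s : ℂ) + ((Real.cos ψ * √(1 - s ^ 2) : ℝ) : ℂ) * I := by
    unfold dsz krA
    push_cast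
    ring
  have h3 : ‖dsz s ψ‖ ^ 2 ≤ 1 := by
    rw [e, ← Complex.normSq_eq_norm_sq, Complex.normSq_add_mul_I]
    rw [mul_pow, h2]
    have h4 : Real.cos ψ ^ 2 ≤ 1 := Real.cos_sq_le_one ψ
    nlinarith
  have h5 := norm_nonneg (dsz s ψ)
  nlinarith

theorem leg_dsz {s : ℝ} (hs : |s| ≤ 1) (n : ℕ) :
    ∫ ψ in (0:ℝ)..(2 * π), dsz s ψ ^ n = 2 * π * (leg n s : ℂ) := by
  have h1 : s ^ 2 ≤ 1 := by
    rw [← sq_abs]
    have := abs_nonneg s
    nlinarith
  have h2 : √(1 - s ^ 2) ^ 2 = 1 - s ^ 2 := Real.sq_sqrt (by linarith)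
  apply krL_leg
  have h3 : (((√(1 - s ^ 2) : ℝ) : ℂ)) ^ 2 = 1 - (s : ℂ) ^ 2 := by exact_mod_cast h2
  rw [h3]
  ring

theorem leg_abs {s : ℝ} (hs : |s| ≤ 1) (n : ℕ) : |leg n s| ≤ 1 := by
  have h1 := leg_dsz hs n
  have h2 : ‖∫ ψ in (0:ℝ)..(2 * π), dsz s ψ ^ n‖ ≤ 1 * |2 * π - 0| := by
    apply intervalIntegral.norm_integral_le_of_norm_le_const
    intro ψ _
    rw [norm_pow]
    exact pow_le_one₀ (norm_nonneg _) (dsz_norm hs ψ)
  have hpi := Real.pi_pos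
  rw [h1, norm_mul, norm_mul, Complex.norm_ofNat, Complex.norm_real, Complex.norm_real,
    Real.norm_eq_abs, Real.norm_eq_abs, abs_of_pos hpi, sub_zero,
    abs_of_pos (by positivity : (0:ℝ) < 2 * π)] at h2
  nlinarith

theorem ds_unit (t : ℝ) (n : ℕ) : ‖cexp (I * t * Lam n)‖ = 1 := by
  have : I * t * Lam n = ((t * Lam n : ℝ) : ℂ) * I := by push_cast; ring
  rw [this, Complex.norm_exp_ofReal_mul_I]

theorem KN_triv (N : ℕ) (t : ℝ) {s : ℝ} (hs : |s| ≤ 1) : ‖KN N t s‖ ≤ (N : ℝ) ^ 2 := by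
  unfold KN
  refine (norm_sum_le _ _).trans ?_
  have h1 : ∀ n ∈ Finset.Ico N (2 * N), ‖cexp (I * t * Lam n) * (Z n s : ℂ)‖ ≤ (N : ℝ) := by
    intro n hn
    rw [Finset.mem_Ico] at hn
    rw [norm_mul, ds_unit, one_mul, Complex.norm_real, Real.norm_eq_abs]
    unfold Z
    have hpi := Real.pi_gt_three
    have hn' : (n : ℝ) + 1 ≤ 2 * N := by exact_mod_cast hn.2
    rw [abs_mul, abs_of_nonneg (by positivity : (0:ℝ) ≤ (2 * n + 1) / (4 * π))]
    have h2 := leg_abs hs n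
    have h3 : (2 * (n:ℝ) + 1) / (4 * π) ≤ N := by
      rw [div_le_iff₀ (by positivity)]
      have h4 : (0:ℝ) ≤ N := Nat.cast_nonneg _
      nlinarith
    calc (2 * (n:ℝ) + 1) / (4 * π) * |leg n s| ≤ N * 1 := by
          apply mul_le_mul h3 h2 (abs_nonneg _) (Nat.cast_nonneg _)
      _ = N := mul_one _
  refine (Finset.sum_le_sum h1).trans ?_
  rw [Finset.sum_const, Nat.card_Ico, nsmul_eq_mul]
  have : 2 * N - N = N := by omega
  rw [this]
  nlinarith

theorem KN_neg (N : ℕ) (t s : ℝ) : KN N (-t) s = (starRingEnd ℂ) (KN N t s) := by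
  unfold KN
  rw [map_sum]
  refine Finset.sum_congr rfl fun n _ => ?_
  rw [map_mul, ← Complex.exp_conj, map_mul, map_mul, Complex.conj_I, Complex.conj_ofReal,
    Complex.conj_ofReal, Complex.conj_ofReal]
  congr 2
  push_cast
  ring

/-- the exponential sums in the dispersive estimate -/
theorem ds_sum {N : ℕ} (hN : 64 ≤ N) {t : ℝ} (ht : 0 < t) (ht1 : t ≤ 1) (z : ℂ) (hz : ‖z‖ ≤ 1)
    (c : ℕ) (hc : N ≤ c) (hc2 : c ≤ 2 * N) :
    ‖∑ n ∈ Finset.Ico N c, cexp (I * t * Lam n) * z ^ n‖ ≤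
      150 * (N * √(t / (5 * √N)) + 1 / √(t / (5 * √N))) := by
  have hs8 := sqrt_ge8 hN
  set κ : ℝ := t / (5 * √N) with hκ
  have hκ0 : 0 < κ := by positivity
  have hκ1 : κ ≤ 1 := by
    rw [hκ, div_le_one (by positivity)]
    linarith
  have hpart : ∀ c', N ≤ c' → c' ≤ c →
      ‖∑ n ∈ Finset.Ico N c', cexp (I * ((t * Lam n + n * arg z : ℝ) : ℂ))‖ ≤
        150 * (N * √κ + 1 / √κ) := by
    intro c' h1 h2
    have h3 := sdt (fun n => t * Lam n + n * arg z) N c' κ 5 hκ0 hκ1 (by norm_num) (by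
      intro n hn hn2
      have h4 := la_sub2 (N := N) (a := n) (b := n + 1) (h := 1) (by omega) hn (by omega)
        (by omega)
      have e1 : n + 1 + 1 = n + 2 := rfl
      rw [e1] at h4
      push_cast at h4 ⊢
      have e2 : (n:ℝ) + 1 - n = 1 := by ring
      rw [e2, mul_one, mul_one, mul_one] at h4
      have e3 : t * Lam (n + 2) + (n + 2) * arg z - (t * Lam (n + 1) + (n + 1) * arg z) -
          (t * Lam (n + 1) + (n + 1) * arg z - (t * Lam n + n * arg z)) =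
          t * ((Lam (n + 2) - Lam (n + 1)) - (Lam (n + 1) - Lam n)) := by ring
      rw [e3]
      have e4 : κ = t * (1 / 5 / √N) := by
        rw [hκ]; field_simp
      have e5 : 5 * κ = t * (1 / √N) := by
        rw [hκ]; field_simp
      rw [e5, e4]
      exact ⟨mul_le_mul_of_nonneg_left h4.1 ht.le, mul_le_mul_of_nonneg_left h4.2 ht.le⟩)
    refine h3.trans ?_
    have h5 : ((c' - N : ℕ) : ℝ) ≤ N := by
      have : c' - N ≤ N := by omega
      exact_mod_cast this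
    have h6 : 0 ≤ √κ := Real.sqrt_nonneg _
    have h7 : ((c' - N : ℕ) : ℝ) * √κ ≤ N * √κ := mul_le_mul_of_nonneg_right h5 h6
    linarith
  have h8 := abel_anti N c hc (fun n => ‖z‖ ^ n)
    (fun n => cexp (I * ((t * Lam n + n * arg z : ℝ) : ℂ))) _ (fun n => by positivity)
    (fun n => pow_le_pow_of_le_one (norm_nonneg _) hz (Nat.le_succ n)) hpart
  have h9 : ∑ n ∈ Finset.Ico N c, cexp (I * t * Lam n) * z ^ n =
      ∑ n ∈ Finset.Ico N c, ((‖z‖ ^ n : ℝ) : ℂ) * cexp (I * ((t * Lam n + n * arg z : ℝ) : ℂ)) := by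
    refine Finset.sum_congr rfl fun n _ => ?_
    have e1 : z ^ n = ((‖z‖ ^ n : ℝ) : ℂ) * cexp (n * (arg z * I)) := by
      conv_lhs => rw [← Complex.norm_mul_exp_arg_mul_I z]
      rw [mul_pow, ← Complex.exp_nat_mul]
      push_cast
      rfl
    rw [e1]
    have e2 : I * ((t * Lam n + n * arg z : ℝ) : ℂ) = I * t * Lam n + n * (arg z * I) := by
      push_cast
      ring
    rw [e2, Complex.exp_add]
    ring
  rw [h9]
  refine h8.trans ?_
  have h10 : ‖z‖ ^ N ≤ 1 := pow_le_one₀ (norm_nonneg _) hz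
  have h11 : 0 ≤ 150 * (N * √κ + 1 / √κ) := by positivity
  nlinarith

theorem ds_sum_w {N : ℕ} (hN : 64 ≤ N) {t : ℝ} (ht : 0 < t) (ht1 : t ≤ 1) (z : ℂ) (hz : ‖z‖ ≤ 1) :
    ‖∑ n ∈ Finset.Ico N (2 * N), (((2 * n + 1) / (4 * π) : ℝ) : ℂ) *
      (cexp (I * t * Lam n) * z ^ n)‖ ≤
      N * (150 * (N * √(t / (5 * √N)) + 1 / √(t / (5 * √N)))) := by
  have hpi := Real.pi_gt_three
  have hN' : (64:ℝ) ≤ N := by exact_mod_cast hN
  have h1 := abel_mono N (2 * N) (by omega) (fun n => (2 * n + 1) / (4 * π))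
    (fun n => cexp (I * t * Lam n) * z ^ n) _ (fun n => by positivity)
    (fun n => by
      rw [div_le_div_iff_of_pos_right (by positivity)]
      push_cast
      linarith)
    (fun c h1 h2 => ds_sum hN ht ht1 z hz c h1 h2)
  refine h1.trans ?_
  apply mul_le_mul_of_nonneg_right _ (by positivity)
  push_cast
  rw [← mul_div_assoc, div_le_iff₀ (by positivity)]
  nlinarith

theorem KN_rep (N : ℕ) (t : ℝ) {s : ℝ} (hs : |s| ≤ 1) :
    2 * π * KN N t s = ∫ ψ in (0:ℝ)..(2 * π), ∑ n ∈ Finset.Ico N (2 * N),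
      (((2 * n + 1) / (4 * π) : ℝ) : ℂ) * (cexp (I * t * Lam n) * dsz s ψ ^ n) := by
  rw [intervalIntegral.integral_finsetSum]
  · unfold KN
    rw [Finset.mul_sum]
    refine Finset.sum_congr rfl fun n _ => ?_
    rw [intervalIntegral.integral_const_mul, intervalIntegral.integral_const_mul, leg_dsz hs]
    unfold Z
    push_cast
    ring
  · intro n _
    apply Continuous.intervalIntegrable
    have := dsz_cont s
    fun_prop

/-- the dispersive estimate -/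
theorem disp : ∃ C > 0, ∀ (N : ℕ) (t s : ℝ), 64 ≤ N → t ≠ 0 → |t| ≤ 1 → |s| ≤ 1 →
    ‖KN N t s‖ ≤ C * ((N : ℝ) ^ (5 / 4 : ℝ) / √|t| + (N : ℝ) ^ (7 / 4 : ℝ)) := by
  refine ⟨450, by norm_num, ?_⟩
  have key : ∀ (N : ℕ) (t s : ℝ), 64 ≤ N → 0 < t → t ≤ 1 → |s| ≤ 1 →
      ‖KN N t s‖ ≤ 450 * ((N : ℝ) ^ (5 / 4 : ℝ) / √t + (N : ℝ) ^ (7 / 4 : ℝ)) := by
    intro N t s hN ht ht1 hs
    have hpi := Real.pi_pos
    have hN0 : (0:ℝ) < N := by
      have : (64:ℝ) ≤ N := by exact_mod_cast hN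
      linarith
    have h1 := KN_rep N t hs
    have h2 : ‖2 * π * KN N t s‖ ≤
        (N * (150 * (N * √(t / (5 * √N)) + 1 / √(t / (5 * √N))))) * |2 * π - 0| := by
      rw [h1]
      apply intervalIntegral.norm_integral_le_of_norm_le_const
      intro ψ _
      exact ds_sum_w hN ht ht1 _ (dsz_norm hs ψ)
    rw [norm_mul, norm_mul, Complex.norm_ofNat, Complex.norm_real, Real.norm_eq_abs,
      abs_of_pos hpi, sub_zero, abs_of_pos (by positivity : (0:ℝ) < 2 * π)] at h2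
    have h3 : ‖KN N t s‖ ≤ N * (150 * (N * √(t / (5 * √N)) + 1 / √(t / (5 * √N)))) := by
      nlinarith
    refine h3.trans ?_
    -- the square root of `κ`
    have hq : √√(N:ℝ) = (N:ℝ) ^ (1 / 4 : ℝ) := by
      rw [Real.sqrt_eq_rpow, Real.sqrt_eq_rpow, ← Real.rpow_mul hN0.le]
      norm_num
    have hs5 : (2:ℝ) ≤ √5 := by
      apply Real.le_sqrt_of_sq_le; norm_num
    have hs5' : √5 ≤ 3 := by
      rw [Real.sqrt_le_left (by norm_num)]; norm_num
    have hκ : √(t / (5 * √N)) = √t / (√5 * (N:ℝ) ^ (1 / 4 : ℝ)) := by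
      rw [Real.sqrt_div ht.le, Real.sqrt_mul (by norm_num), hq]
    have hst : 0 < √t := Real.sqrt_pos.2 ht
    have hst1 : √t ≤ 1 := by
      rw [← Real.sqrt_one]
      exact Real.sqrt_le_sqrt ht1
    have hQ : 0 < (N:ℝ) ^ (1 / 4 : ℝ) := by positivity
    have e1 : (N:ℝ) ^ (5 / 4 : ℝ) = N * (N:ℝ) ^ (1 / 4 : ℝ) := by
      rw [← Real.rpow_one_add' hN0.le (by norm_num)]
      norm_num
    have e2 : (N:ℝ) ^ (7 / 4 : ℝ) * (N:ℝ) ^ (1 / 4 : ℝ) = N * N := by
      rw [← Real.rpow_add hN0]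
      norm_num
      ring
    have e2' : (N:ℝ) ^ (7 / 4 : ℝ) = N * N / (N:ℝ) ^ (1 / 4 : ℝ) := by
      rw [eq_div_iff hQ.ne']
      exact e2
    rw [hκ, e1, e2']
    set Q := (N:ℝ) ^ (1 / 4 : ℝ)
    have f1 : (N:ℝ) * (150 * (N * (√t / (√5 * Q)) + 1 / (√t / (√5 * Q)))) =
        150 * (√t / √5) * (N * N / Q) + 150 * √5 * (N * Q / √t) := by
      field_simp
    rw [f1, mul_add]
    have f2 : √t / √5 ≤ 1 := by
      rw [div_le_one (by linarith)]
      linarith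
    have f3 : 0 ≤ (N:ℝ) * N / Q := by positivity
    have f4 : 0 ≤ (N:ℝ) * Q / √t := by positivity
    nlinarith [mul_le_mul_of_nonneg_right f2 f3, mul_le_mul_of_nonneg_right hs5' f4]
  intro N t s hN ht ht1 hs
  rcases lt_or_gt_of_ne ht with h | h
  · have h1 := key N (-t) s hN (by linarith) (by rw [abs_of_neg h] at ht1; exact ht1) hs
    rw [KN_neg, RCLike.norm_conj] at h1
    rw [abs_of_neg h]
    exact h1
  · rw [abs_of_pos h] at ht1 ⊢
    exact key N t s hN h ht1 hs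

end

end Pool.Agent.DW
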