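import Mathlib

/-!
# Products of two blocks: the abstract estimates
-/

open MeasureTheory Filter Topology Real
open scoped ENNReal NNReal

namespace Pool.Agent.DW

noncomputable section

/-- Hölder's inequality with exponents `4` and `4/3` -/
theorem pr_hold {μ : Measure ℝ} {F G : ℝ → ℝ} (hF : Measurable F) (hG : Measurable G)
    (hF0 : ∀ t, 0 ≤ F t) (hG0 : ∀ t, 0 ≤ G t) {α β : ℝ} (hα : 0 ≤ α) (hβ : 0 ≤ β)
    (h1 : ∫⁻ t, ENNReal.ofReal (F t ^ 4) ∂μ ≤ ENNReal.ofReal (α ^ 4))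
    (h2 : ∫⁻ t, ENNReal.ofReal (G t ^ 4) ∂μ ≤ ENNReal.ofReal (β ^ 4)) :
    ∫⁻ t, ENNReal.ofReal (F t * G t ^ 3) ∂μ ≤ ENNReal.ofReal (α * β ^ 3) := by
  have h := ENNReal.lintegral_mul_norm_pow_le (μ := μ) (f := fun t => ENNReal.ofReal (F t ^ 4))
    (g := fun t => ENNReal.ofReal (G t ^ 4)) (hF.pow_const 4).ennreal_ofReal.aemeasurable
    (hG.pow_const 4).ennreal_ofReal.aemeasurable (p := 1 / 4) (q := 3 / 4) (by norm_num)
    (by norm_num) (by norm_num)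
  have e1 : ∀ x : ℝ, 0 ≤ x → ENNReal.ofReal (x ^ 4) ^ (1 / 4 : ℝ) = ENNReal.ofReal x := by
    intro x hx
    rw [ENNReal.ofReal_rpow_of_nonneg (by positivity) (by norm_num)]
    congr 1
    rw [← Real.rpow_natCast, ← Real.rpow_mul hx]
    norm_num
  have e2 : ∀ x : ℝ, 0 ≤ x → ENNReal.ofReal (x ^ 4) ^ (3 / 4 : ℝ) = ENNReal.ofReal (x ^ 3) := by
    intro x hx
    rw [ENNReal.ofReal_rpow_of_nonneg (by positivity) (by norm_num)]
    congr 1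
    rw [← Real.rpow_natCast, ← Real.rpow_natCast, ← Real.rpow_mul hx]
    norm_num
  calc ∫⁻ t, ENNReal.ofReal (F t * G t ^ 3) ∂μ
      = ∫⁻ t, ENNReal.ofReal (F t ^ 4) ^ (1 / 4 : ℝ) * ENNReal.ofReal (G t ^ 4) ^ (3 / 4 : ℝ) ∂μ := by
        refine lintegral_congr fun t => ?_
        rw [e1 _ (hF0 t), e2 _ (hG0 t), ← ENNReal.ofReal_mul (hF0 t)]
    _ ≤ (∫⁻ t, ENNReal.ofReal (F t ^ 4) ∂μ) ^ (1 / 4 : ℝ) *
          (∫⁻ t, ENNReal.ofReal (G t ^ 4) ∂μ) ^ (3 / 4 : ℝ) := h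
    _ ≤ ENNReal.ofReal (α ^ 4) ^ (1 / 4 : ℝ) * ENNReal.ofReal (β ^ 4) ^ (3 / 4 : ℝ) := by
        gcongr
    _ = _ := by rw [e1 _ hα, e2 _ hβ, ← ENNReal.ofReal_mul hα]

theorem pr_const {μ : Measure ℝ} {G : ℝ → ℝ} {c B : ℝ} (hc : 0 ≤ c) (hG : Measurable G)
    (h : ∫⁻ t, ENNReal.ofReal (G t) ∂μ ≤ ENNReal.ofReal B) :
    ∫⁻ t, ENNReal.ofReal (c * G t) ∂μ ≤ ENNReal.ofReal (c * B) := by
  have e : ∀ t, ENNReal.ofReal (c * G t) = ENNReal.ofReal c * ENNReal.ofReal (G t) := fun t =>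
    ENNReal.ofReal_mul hc
  simp only [e]
  rw [lintegral_const_mul _ hG.ennreal_ofReal, ENNReal.ofReal_mul hc]
  gcongr

/-- the facts about two blocks with frequencies `x^16 ≥ y^16` and norms `a`, `b` -/
structure PF (μ : Measure ℝ) (C x y a b : ℝ) (F1 F2 : ℝ → ℝ) : Prop where
  hC : 1 ≤ C
  hy : 1 ≤ y
  hyx : y ≤ x
  ha : 0 ≤ a
  hb : 0 ≤ b
  m1 : Measurable F1
  m2 : Measurable F2
  n1 : ∀ t, 0 ≤ F1 t
  n2 : ∀ t, 0 ≤ F2 t
  s1 : ∀ t, F1 t ≤ C * x ^ 16 * a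
  s2 : ∀ t, F2 t ≤ C * y ^ 16 * b
  l1 : ∫⁻ t, ENNReal.ofReal ((if C * x ^ 14 * a ≤ F1 t then F1 t else 0) ^ 4) ∂μ ≤
    ENNReal.ofReal ((C * x ^ 10 * a) ^ 4)
  l2 : ∫⁻ t, ENNReal.ofReal ((if C * y ^ 14 * b ≤ F2 t then F2 t else 0) ^ 4) ∂μ ≤
    ENNReal.ofReal ((C * y ^ 10 * b) ^ 4)
  f1 : ∫⁻ t, ENNReal.ofReal (F1 t ^ 4) ∂μ ≤ ENNReal.ofReal ((C * x ^ 11 * a) ^ 4)
  f2 : ∫⁻ t, ENNReal.ofReal (F2 t ^ 4) ∂μ ≤ ENNReal.ofReal ((C * y ^ 11 * b) ^ 4)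

variable {μ : Measure ℝ} {C x y a b : ℝ} {F1 F2 : ℝ → ℝ}

/-- the estimate at `(6, 6)` -/
theorem pr_V2 (h : PF μ C x y a b F1 F2) {G H : ℝ → ℝ} (hGm : Measurable G)
    (hG : ∫⁻ t, ENNReal.ofReal (G t) ∂μ ≤ ENNReal.ofReal (C * y ^ 12 * (a ^ 2 * b ^ 2)))
    (hG0 : ∀ t, 0 ≤ G t)
    (hH1 : ∀ t, H t ≤ a ^ 2 * (F1 t * F2 t ^ 3)) (hH2 : ∀ t, H t ≤ F1 t * F2 t * G t) :
    ∫⁻ t, ENNReal.ofReal (H t) ∂μ ≤
      ENNReal.ofReal (4 * C ^ 4 * (x ^ 14 * y ^ 26) * (a * b) ^ 3) := by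
  obtain ⟨hC, hy, hyx, ha, hb, m1, m2, n1, n2, s1, s2, l1, l2, f1, f2⟩ := h
  have hx : 1 ≤ x := hy.trans hyx
  have hC0 : 0 < C := by linarith
  have hx0 : 0 < x := by linarith
  have hy0 : 0 < y := by linarith
  rcases ha.eq_or_lt with ha0 | ha0
  · have hz : ∀ t, ENNReal.ofReal (H t) = 0 := fun t =>
      ENNReal.ofReal_of_nonpos (by have := hH1 t; rw [← ha0] at this; simpa using this)
    simp [hz]
  rcases hb.eq_or_lt with hb0 | hb0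
  · have hz : ∀ t, ENNReal.ofReal (H t) = 0 := by
      intro t
      have h1 := s2 t
      rw [← hb0, mul_zero] at h1
      have h2 : F2 t = 0 := le_antisymm h1 (n2 t)
      have h3 := hH1 t
      rw [h2] at h3
      exact ENNReal.ofReal_of_nonpos (by simpa using h3)
    simp [hz]
  set L1 : ℝ := C * x ^ 14 * a with hL1
  set L2 : ℝ := C * y ^ 14 * b with hL2
  have hL10 : 0 < L1 := by positivity
  have hL20 : 0 < L2 := by positivity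
  set Fl1 : ℝ → ℝ := fun t => if L1 ≤ F1 t then F1 t else 0 with hFl1
  set Fl2 : ℝ → ℝ := fun t => if L2 ≤ F2 t then F2 t else 0 with hFl2
  have ml1 : Measurable Fl1 := Measurable.ite (measurableSet_le measurable_const m1) m1
    measurable_const
  have ml2 : Measurable Fl2 := Measurable.ite (measurableSet_le measurable_const m2) m2
    measurable_const
  have nl1 : ∀ t, 0 ≤ Fl1 t := fun t => by
    simp only [hFl1]; split_ifs; exacts [n1 t, le_refl _]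
  have nl2 : ∀ t, 0 ≤ Fl2 t := fun t => by
    simp only [hFl2]; split_ifs; exacts [n2 t, le_refl _]
  -- pointwise
  have hpt : ∀ t, ENNReal.ofReal (H t) ≤ ENNReal.ofReal (L1 * L2 * G t) +
      (ENNReal.ofReal (a ^ 2 * L1 / L2 * Fl2 t ^ 4) +
      (ENNReal.ofReal (a ^ 2 * L2 ^ 3 / L1 ^ 3 * Fl1 t ^ 4) +
      ENNReal.ofReal (a ^ 2 * (Fl1 t * Fl2 t ^ 3)))) := by
    intro t
    have hF1 := n1 t
    have hF2 := n2 t
    by_cases c1 : L1 ≤ F1 t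
    · have e1 : Fl1 t = F1 t := if_pos c1
      by_cases c2 : L2 ≤ F2 t
      · have e2 : Fl2 t = F2 t := if_pos c2
        have h1 : ENNReal.ofReal (H t) ≤ ENNReal.ofReal (a ^ 2 * (Fl1 t * Fl2 t ^ 3)) := by
          rw [e1, e2]
          exact ENNReal.ofReal_le_ofReal (hH1 t)
        exact h1.trans (le_trans (le_trans le_add_self le_add_self) le_add_self)
      · have h1 : ENNReal.ofReal (H t) ≤
            ENNReal.ofReal (a ^ 2 * L2 ^ 3 / L1 ^ 3 * Fl1 t ^ 4) := by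
          rw [e1]
          refine ENNReal.ofReal_le_ofReal ((hH1 t).trans ?_)
          have h2 : F2 t ^ 3 ≤ L2 ^ 3 := pow_le_pow_left₀ hF2 (not_le.1 c2).le 3
          have h3 : L1 ^ 3 ≤ F1 t ^ 3 := pow_le_pow_left₀ hL10.le c1 3
          have h4 : F1 t ≤ F1 t ^ 4 / L1 ^ 3 := by
            rw [le_div_iff₀ (by positivity)]
            calc F1 t * L1 ^ 3 ≤ F1 t * F1 t ^ 3 := mul_le_mul_of_nonneg_left h3 hF1
              _ = F1 t ^ 4 := by ring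
          calc a ^ 2 * (F1 t * F2 t ^ 3) ≤ a ^ 2 * ((F1 t ^ 4 / L1 ^ 3) * L2 ^ 3) := by gcongr
            _ = _ := by ring
        exact h1.trans (le_trans (le_trans le_self_add le_add_self) le_add_self)
    · by_cases c2 : L2 ≤ F2 t
      · have e2 : Fl2 t = F2 t := if_pos c2
        have h1 : ENNReal.ofReal (H t) ≤ ENNReal.ofReal (a ^ 2 * L1 / L2 * Fl2 t ^ 4) := by
          rw [e2]
          refine ENNReal.ofReal_le_ofReal ((hH1 t).trans ?_)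
          have h4 : F2 t ^ 3 ≤ F2 t ^ 4 / L2 := by
            rw [le_div_iff₀ hL20]
            calc F2 t ^ 3 * L2 ≤ F2 t ^ 3 * F2 t := mul_le_mul_of_nonneg_left c2 (by positivity)
              _ = F2 t ^ 4 := by ring
          have h5 : F1 t ≤ L1 := (not_le.1 c1).le
          calc a ^ 2 * (F1 t * F2 t ^ 3) ≤ a ^ 2 * (L1 * (F2 t ^ 4 / L2)) := by gcongr
            _ = _ := by ring
        exact h1.trans (le_trans le_self_add le_add_self)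
      · have h1 : ENNReal.ofReal (H t) ≤ ENNReal.ofReal (L1 * L2 * G t) := by
          refine ENNReal.ofReal_le_ofReal ((hH2 t).trans ?_)
          have h5 : F1 t ≤ L1 := (not_le.1 c1).le
          have h6 : F2 t ≤ L2 := (not_le.1 c2).le
          have := hG0 t
          gcongr
        exact h1.trans le_self_add
  -- the integrals
  have i1 : ∫⁻ t, ENNReal.ofReal (L1 * L2 * G t) ∂μ ≤
      ENNReal.ofReal (C ^ 4 * (x ^ 14 * y ^ 26) * (a * b) ^ 3) := by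
    refine (pr_const (by positivity) hGm hG).trans (ENNReal.ofReal_le_ofReal ?_)
    have e : L1 * L2 * (C * y ^ 12 * (a ^ 2 * b ^ 2)) =
        C ^ 3 * ((x ^ 14 * y ^ 26) * (a * b) ^ 3) := by
      rw [hL1, hL2]; ring
    rw [e]
    have h1 : C ^ 3 ≤ C ^ 4 := pow_le_pow_right₀ hC (by norm_num)
    calc C ^ 3 * ((x ^ 14 * y ^ 26) * (a * b) ^ 3) ≤ C ^ 4 * ((x ^ 14 * y ^ 26) * (a * b) ^ 3) := by
          gcongr
      _ = _ := by ring
  have i2 : ∫⁻ t, ENNReal.ofReal (a ^ 2 * L1 / L2 * Fl2 t ^ 4) ∂μ ≤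
      ENNReal.ofReal (C ^ 4 * (x ^ 14 * y ^ 26) * (a * b) ^ 3) := by
    refine (pr_const (by positivity) (ml2.pow_const 4) l2).trans (ENNReal.ofReal_le_ofReal ?_)
    refine le_of_eq ?_
    rw [hL1, hL2]
    field_simp
  have i3 : ∫⁻ t, ENNReal.ofReal (a ^ 2 * L2 ^ 3 / L1 ^ 3 * Fl1 t ^ 4) ∂μ ≤
      ENNReal.ofReal (C ^ 4 * (x ^ 14 * y ^ 26) * (a * b) ^ 3) := by
    refine (pr_const (by positivity) (ml1.pow_const 4) l1).trans (ENNReal.ofReal_le_ofReal ?_)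
    have e : a ^ 2 * L2 ^ 3 / L1 ^ 3 * (C * x ^ 10 * a) ^ 4 =
        C ^ 4 * (y ^ 42 / x ^ 2) * (a * b) ^ 3 := by
      rw [hL1, hL2]
      field_simp
    rw [e]
    have h1 : y ^ 42 / x ^ 2 ≤ x ^ 14 * y ^ 26 := by
      rw [div_le_iff₀ (by positivity)]
      have h2 : y ^ 16 ≤ x ^ 16 := pow_le_pow_left₀ hy0.le hyx 16
      calc y ^ 42 = y ^ 26 * y ^ 16 := by ring
        _ ≤ y ^ 26 * x ^ 16 := by gcongr
        _ = _ := by ring
    gcongr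
  have i4 : ∫⁻ t, ENNReal.ofReal (a ^ 2 * (Fl1 t * Fl2 t ^ 3)) ∂μ ≤
      ENNReal.ofReal (C ^ 4 * (x ^ 14 * y ^ 26) * (a * b) ^ 3) := by
    have h0 := pr_hold ml1 ml2 nl1 nl2 (by positivity) (by positivity) l1 l2
    refine (pr_const (by positivity) (ml1.mul (ml2.pow_const 3)) h0).trans
      (ENNReal.ofReal_le_ofReal ?_)
    have e : a ^ 2 * (C * x ^ 10 * a * (C * y ^ 10 * b) ^ 3) =
        C ^ 4 * (x ^ 10 * y ^ 30) * (a * b) ^ 3 := by ring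
    rw [e]
    have h1 : x ^ 10 * y ^ 30 ≤ x ^ 14 * y ^ 26 := by
      have h2 : y ^ 4 ≤ x ^ 4 := pow_le_pow_left₀ hy0.le hyx 4
      calc x ^ 10 * y ^ 30 = x ^ 10 * y ^ 26 * y ^ 4 := by ring
        _ ≤ x ^ 10 * y ^ 26 * x ^ 4 := by gcongr
        _ = _ := by ring
    gcongr
  have mF : Measurable fun t => ENNReal.ofReal (a ^ 2 * (Fl1 t * Fl2 t ^ 3)) :=
    ((ml1.mul (ml2.pow_const 3)).const_mul _).ennreal_ofReal
  calc ∫⁻ t, ENNReal.ofReal (H t) ∂μ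
      ≤ ∫⁻ t, (ENNReal.ofReal (L1 * L2 * G t) +
      (ENNReal.ofReal (a ^ 2 * L1 / L2 * Fl2 t ^ 4) +
      (ENNReal.ofReal (a ^ 2 * L2 ^ 3 / L1 ^ 3 * Fl1 t ^ 4) +
      ENNReal.ofReal (a ^ 2 * (Fl1 t * Fl2 t ^ 3))))) ∂μ := lintegral_mono hpt
    _ = ∫⁻ t, ENNReal.ofReal (L1 * L2 * G t) ∂μ +
      (∫⁻ t, ENNReal.ofReal (a ^ 2 * L1 / L2 * Fl2 t ^ 4) ∂μ +
      (∫⁻ t, ENNReal.ofReal (a ^ 2 * L2 ^ 3 / L1 ^ 3 * Fl1 t ^ 4) ∂μ +
      ∫⁻ t, ENNReal.ofReal (a ^ 2 * (Fl1 t * Fl2 t ^ 3)) ∂μ)) := by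
        rw [lintegral_add_left (hGm.const_mul _).ennreal_ofReal,
          lintegral_add_left ((ml2.pow_const 4).const_mul _).ennreal_ofReal,
          lintegral_add_left ((ml1.pow_const 4).const_mul _).ennreal_ofReal]
    _ ≤ ENNReal.ofReal (C ^ 4 * (x ^ 14 * y ^ 26) * (a * b) ^ 3) +
      (ENNReal.ofReal (C ^ 4 * (x ^ 14 * y ^ 26) * (a * b) ^ 3) +
      (ENNReal.ofReal (C ^ 4 * (x ^ 14 * y ^ 26) * (a * b) ^ 3) +
      ENNReal.ofReal (C ^ 4 * (x ^ 14 * y ^ 26) * (a * b) ^ 3))) :=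
        add_le_add i1 (add_le_add i2 (add_le_add i3 i4))
    _ = _ := by
        rw [← ENNReal.ofReal_add (by positivity) (by positivity),
          ← ENNReal.ofReal_add (by positivity) (by positivity),
          ← ENNReal.ofReal_add (by positivity) (by positivity)]
        congr 1
        ring

/-- the estimate at `(6, ∞)` -/
theorem pr_V3 (h : PF μ C x y a b F1 F2) :
    ∫⁻ t, ENNReal.ofReal (F1 t ^ 3 * F2 t ^ 3) ∂μ ≤
      ENNReal.ofReal (C ^ 6 * (3 * (x ^ 33 * y ^ 39) + x ^ 33 * y ^ 42) * (a * b) ^ 3) ∧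
    ∫⁻ t, ENNReal.ofReal (F1 t ^ 3 * F2 t ^ 3) ∂μ ≤
      ENNReal.ofReal (C ^ 6 * (3 * (x ^ 33 * y ^ 39) + x ^ 39 * y ^ 30) * (a * b) ^ 3) := by
  obtain ⟨hC, hy, hyx, ha, hb, m1, m2, n1, n2, s1, s2, l1, l2, f1, f2⟩ := h
  have hx : 1 ≤ x := hy.trans hyx
  have hC0 : 0 < C := by linarith
  have hx0 : 0 < x := by linarith
  have hy0 : 0 < y := by linarith
  set L1 : ℝ := C * x ^ 14 * a with hL1
  set L2 : ℝ := C * y ^ 14 * b with hL2
  have hL10 : 0 ≤ L1 := by positivity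
  have hL20 : 0 ≤ L2 := by positivity
  set Fl1 : ℝ → ℝ := fun t => if L1 ≤ F1 t then F1 t else 0 with hFl1
  set Fl2 : ℝ → ℝ := fun t => if L2 ≤ F2 t then F2 t else 0 with hFl2
  have ml1 : Measurable Fl1 := Measurable.ite (measurableSet_le measurable_const m1) m1
    measurable_const
  have ml2 : Measurable Fl2 := Measurable.ite (measurableSet_le measurable_const m2) m2
    measurable_const
  have nl1 : ∀ t, 0 ≤ Fl1 t := fun t => by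
    simp only [hFl1]; split_ifs; exacts [n1 t, le_refl _]
  have nl2 : ∀ t, 0 ≤ Fl2 t := fun t => by
    simp only [hFl2]; split_ifs; exacts [n2 t, le_refl _]
  have ll2 : ∀ t, Fl2 t ≤ F2 t := fun t => by
    simp only [hFl2]; split_ifs; exacts [le_refl _, n2 t]
  have sl2 : ∀ t, Fl2 t ≤ C * y ^ 16 * b := fun t => (ll2 t).trans (s2 t)
  -- twelfth powers
  have j1 : ∫⁻ t, ENNReal.ofReal ((C * y ^ 16 * b) ^ 8 * Fl2 t ^ 4) ∂μ ≤
      ENNReal.ofReal ((C ^ 3 * y ^ 42 * b ^ 3) ^ 4) := by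
    refine (pr_const (by positivity) (ml2.pow_const 4) l2).trans (le_of_eq ?_)
    congr 1
    ring
  have j2 : ∫⁻ t, ENNReal.ofReal ((Fl2 t ^ 3) ^ 4) ∂μ ≤
      ENNReal.ofReal ((C ^ 3 * y ^ 42 * b ^ 3) ^ 4) := by
    refine le_trans (lintegral_mono fun t => ENNReal.ofReal_le_ofReal ?_) j1
    have h1 := pow_le_pow_left₀ (nl2 t) (sl2 t) 8
    have h2 : 0 ≤ Fl2 t ^ 4 := by positivity
    calc (Fl2 t ^ 3) ^ 4 = Fl2 t ^ 8 * Fl2 t ^ 4 := by ring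
      _ ≤ _ := mul_le_mul_of_nonneg_right h1 h2
  have j3 : ∫⁻ t, ENNReal.ofReal (L2 ^ 8 * F2 t ^ 4) ∂μ ≤
      ENNReal.ofReal ((C ^ 3 * y ^ 42 * b ^ 3) ^ 4) := by
    refine (pr_const (by positivity) (m2.pow_const 4) f2).trans (ENNReal.ofReal_le_ofReal ?_)
    have e : L2 ^ 8 * (C * y ^ 11 * b) ^ 4 = (C ^ 3 * y ^ 39 * b ^ 3) ^ 4 := by
      rw [hL2]; ring
    rw [e]
    have h1 : y ^ 39 ≤ y ^ 42 := pow_le_pow_right₀ hy (by norm_num)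
    gcongr
  have j4 : ∫⁻ t, ENNReal.ofReal ((F2 t ^ 3) ^ 4) ∂μ ≤
      ENNReal.ofReal ((2 * (C ^ 3 * y ^ 42 * b ^ 3)) ^ 4) := by
    calc ∫⁻ t, ENNReal.ofReal ((F2 t ^ 3) ^ 4) ∂μ
        ≤ ∫⁻ t, (ENNReal.ofReal ((C * y ^ 16 * b) ^ 8 * Fl2 t ^ 4) +
            ENNReal.ofReal (L2 ^ 8 * F2 t ^ 4)) ∂μ := by
          refine lintegral_mono fun t => ?_
          have hF2 := n2 t
          have h2 : 0 ≤ F2 t ^ 4 := by positivity
          by_cases c2 : L2 ≤ F2 t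
          · refine le_trans (ENNReal.ofReal_le_ofReal ?_) le_self_add
            have e2 : Fl2 t = F2 t := if_pos c2
            rw [e2]
            have h1 := pow_le_pow_left₀ hF2 (s2 t) 8
            calc (F2 t ^ 3) ^ 4 = F2 t ^ 8 * F2 t ^ 4 := by ring
              _ ≤ _ := mul_le_mul_of_nonneg_right h1 h2
          · refine le_trans (ENNReal.ofReal_le_ofReal ?_) le_add_self
            have h1 := pow_le_pow_left₀ hF2 (not_le.1 c2).le 8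
            calc (F2 t ^ 3) ^ 4 = F2 t ^ 8 * F2 t ^ 4 := by ring
              _ ≤ _ := mul_le_mul_of_nonneg_right h1 h2
      _ = ∫⁻ t, ENNReal.ofReal ((C * y ^ 16 * b) ^ 8 * Fl2 t ^ 4) ∂μ +
            ∫⁻ t, ENNReal.ofReal (L2 ^ 8 * F2 t ^ 4) ∂μ :=
          lintegral_add_left ((ml2.pow_const 4).const_mul _).ennreal_ofReal _
      _ ≤ ENNReal.ofReal ((C ^ 3 * y ^ 42 * b ^ 3) ^ 4) +
            ENNReal.ofReal ((C ^ 3 * y ^ 42 * b ^ 3) ^ 4) := add_le_add j1 j3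
      _ ≤ _ := by
          rw [← ENNReal.ofReal_add (by positivity) (by positivity)]
          refine ENNReal.ofReal_le_ofReal ?_
          have : 0 ≤ (C ^ 3 * y ^ 42 * b ^ 3) ^ 4 := by positivity
          rw [mul_pow]
          linarith
  -- the four integrals
  have k1 : ∫⁻ t, ENNReal.ofReal (L2 ^ 2 * (F2 t * F1 t ^ 3)) ∂μ ≤
      ENNReal.ofReal (C ^ 6 * (x ^ 33 * y ^ 39) * (a * b) ^ 3) := by
    refine (pr_const (by positivity) (m2.mul (m1.pow_const 3))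
      (pr_hold m2 m1 n2 n1 (by positivity) (by positivity) f2 f1)).trans (le_of_eq ?_)
    congr 1
    rw [hL2]
    ring
  have k2 : ∫⁻ t, ENNReal.ofReal (F2 t ^ 3 * Fl1 t ^ 3) ∂μ ≤
      ENNReal.ofReal (C ^ 6 * (2 * (x ^ 33 * y ^ 39)) * (a * b) ^ 3) := by
    refine (pr_hold (m2.pow_const 3) ml1 (fun t => pow_nonneg (n2 t) 3) nl1 (by positivity)
      (by positivity) j4 l1).trans (ENNReal.ofReal_le_ofReal ?_)
    have e : 2 * (C ^ 3 * y ^ 42 * b ^ 3) * (C * x ^ 10 * a) ^ 3 =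
        C ^ 6 * (2 * (x ^ 30 * y ^ 42)) * (a * b) ^ 3 := by ring
    rw [e]
    have h1 : x ^ 30 * y ^ 42 ≤ x ^ 33 * y ^ 39 := by
      have h2 : y ^ 3 ≤ x ^ 3 := pow_le_pow_left₀ hy0.le hyx 3
      calc x ^ 30 * y ^ 42 = x ^ 30 * y ^ 39 * y ^ 3 := by ring
        _ ≤ x ^ 30 * y ^ 39 * x ^ 3 := by gcongr
        _ = _ := by ring
    gcongr
  have k3 : ∫⁻ t, ENNReal.ofReal (Fl2 t ^ 3 * F1 t ^ 3) ∂μ ≤
      ENNReal.ofReal (C ^ 6 * (x ^ 33 * y ^ 42) * (a * b) ^ 3) := by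
    refine (pr_hold (ml2.pow_const 3) m1 (fun t => pow_nonneg (nl2 t) 3) n1 (by positivity)
      (by positivity) j2 f1).trans (le_of_eq ?_)
    congr 1
    ring
  have k4 : ∫⁻ t, ENNReal.ofReal (L1 ^ 2 * (F1 t * Fl2 t ^ 3)) ∂μ ≤
      ENNReal.ofReal (C ^ 6 * (x ^ 39 * y ^ 30) * (a * b) ^ 3) := by
    refine (pr_const (by positivity) (m1.mul (ml2.pow_const 3))
      (pr_hold m1 ml2 n1 nl2 (by positivity) (by positivity) f1 l2)).trans (le_of_eq ?_)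
    congr 1
    rw [hL1]
    ring
  have mk1 : Measurable fun t => ENNReal.ofReal (L2 ^ 2 * (F2 t * F1 t ^ 3)) :=
    ((m2.mul (m1.pow_const 3)).const_mul _).ennreal_ofReal
  have mk2 : Measurable fun t => ENNReal.ofReal (F2 t ^ 3 * Fl1 t ^ 3) :=
    ((m2.pow_const 3).mul (ml1.pow_const 3)).ennreal_ofReal
  -- pointwise
  have hp1 : ∀ t, L1 ≤ F1 t → ENNReal.ofReal (F1 t ^ 3 * F2 t ^ 3) ≤
      ENNReal.ofReal (F2 t ^ 3 * Fl1 t ^ 3) := fun t c1 => by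
    have e1 : Fl1 t = F1 t := if_pos c1
    rw [e1, mul_comm]
  have hp2 : ∀ t, ¬ L2 ≤ F2 t → ENNReal.ofReal (F1 t ^ 3 * F2 t ^ 3) ≤
      ENNReal.ofReal (L2 ^ 2 * (F2 t * F1 t ^ 3)) := fun t c2 => by
    refine ENNReal.ofReal_le_ofReal ?_
    have hF1 := n1 t
    have hF2 := n2 t
    have h1 := pow_le_pow_left₀ hF2 (not_le.1 c2).le 2
    calc F1 t ^ 3 * F2 t ^ 3 = F2 t ^ 2 * (F2 t * F1 t ^ 3) := by ring
      _ ≤ _ := mul_le_mul_of_nonneg_right h1 (by positivity)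
  have hp3 : ∀ t, L2 ≤ F2 t → ENNReal.ofReal (F1 t ^ 3 * F2 t ^ 3) ≤
      ENNReal.ofReal (Fl2 t ^ 3 * F1 t ^ 3) := fun t c2 => by
    have e2 : Fl2 t = F2 t := if_pos c2
    rw [e2, mul_comm]
  have hp4 : ∀ t, ¬ L1 ≤ F1 t → L2 ≤ F2 t → ENNReal.ofReal (F1 t ^ 3 * F2 t ^ 3) ≤
      ENNReal.ofReal (L1 ^ 2 * (F1 t * Fl2 t ^ 3)) := fun t c1 c2 => by
    refine ENNReal.ofReal_le_ofReal ?_
    have e2 : Fl2 t = F2 t := if_pos c2
    rw [e2]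
    have hF1 := n1 t
    have hF2 := n2 t
    have h1 := pow_le_pow_left₀ hF1 (not_le.1 c1).le 2
    calc F1 t ^ 3 * F2 t ^ 3 = F1 t ^ 2 * (F1 t * F2 t ^ 3) := by ring
      _ ≤ _ := mul_le_mul_of_nonneg_right h1 (by positivity)
  have hbase : ∀ (R : ℝ → ℝ≥0∞) (D : ℝ), 0 ≤ D → (∫⁻ t, R t ∂μ ≤
      ENNReal.ofReal (C ^ 6 * D * (a * b) ^ 3)) →
      (∀ t, ¬ L1 ≤ F1 t → L2 ≤ F2 t → ENNReal.ofReal (F1 t ^ 3 * F2 t ^ 3) ≤ R t) →
      ∫⁻ t, ENNReal.ofReal (F1 t ^ 3 * F2 t ^ 3) ∂μ ≤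
      ENNReal.ofReal (C ^ 6 * (3 * (x ^ 33 * y ^ 39) + D) * (a * b) ^ 3) := by
    intro R D hD hR hR2
    calc ∫⁻ t, ENNReal.ofReal (F1 t ^ 3 * F2 t ^ 3) ∂μ
        ≤ ∫⁻ t, (ENNReal.ofReal (L2 ^ 2 * (F2 t * F1 t ^ 3)) +
          (ENNReal.ofReal (F2 t ^ 3 * Fl1 t ^ 3) + R t)) ∂μ := by
          refine lintegral_mono fun t => ?_
          by_cases c1 : L1 ≤ F1 t
          · exact (hp1 t c1).trans (le_trans le_self_add le_add_self)
          · by_cases c2 : L2 ≤ F2 t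
            · exact (hR2 t c1 c2).trans (le_trans le_add_self le_add_self)
            · exact (hp2 t c2).trans le_self_add
      _ = ∫⁻ t, ENNReal.ofReal (L2 ^ 2 * (F2 t * F1 t ^ 3)) ∂μ +
          (∫⁻ t, ENNReal.ofReal (F2 t ^ 3 * Fl1 t ^ 3) ∂μ + ∫⁻ t, R t ∂μ) := by
          rw [lintegral_add_left mk1, lintegral_add_left mk2]
      _ ≤ ENNReal.ofReal (C ^ 6 * (x ^ 33 * y ^ 39) * (a * b) ^ 3) +
          (ENNReal.ofReal (C ^ 6 * (2 * (x ^ 33 * y ^ 39)) * (a * b) ^ 3) +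
          ENNReal.ofReal (C ^ 6 * D * (a * b) ^ 3)) :=
          add_le_add k1 (add_le_add k2 hR)
      _ = _ := by
          rw [← ENNReal.ofReal_add (by positivity) (by positivity),
            ← ENNReal.ofReal_add (by positivity) (by positivity)]
          congr 1
          ring
  exact ⟨hbase (fun t => ENNReal.ofReal (Fl2 t ^ 3 * F1 t ^ 3)) _ (by positivity) k3
    (fun t _ c2 => hp3 t c2),
    hbase (fun t => ENNReal.ofReal (L1 ^ 2 * (F1 t * Fl2 t ^ 3))) _ (by positivity) k4 hp4⟩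

end

end Pool.Agent.DW
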