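import Pool.Agent.DW.Time

/-!
# Module G: the Strichartz estimates
-/

open MeasureTheory Metric Complex Filter Topology Real
open scoped ENNReal NNReal RealInnerProductSpace Manifold ContDiff

namespace Pool.Agent.DW

noncomputable section

/-! ### partial sums of the flow -/

/-- a partial sum of the flow -/
def upw (P : ℕ → S2 → ℂ) (s : Finset ℕ) (t : ℝ) (x : S2) : ℂ :=
  ∑ n ∈ s, cexp (I * t * Lam n) * P n x

theorem upw_cont2 {P : ℕ → S2 → ℂ} (hP : ∀ n, Continuous (P n)) (s : Finset ℕ) :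
    Continuous (fun p : ℝ × S2 => upw P s p.1 p.2) := by
  unfold upw
  refine continuous_finsetSum _ fun n _ => ?_
  refine Continuous.mul ?_ ((hP n).comp continuous_snd)
  fun_prop

theorem upw_cont {P : ℕ → S2 → ℂ} (hP : ∀ n, Continuous (P n)) (s : Finset ℕ) (t : ℝ) :
    Continuous (upw P s t) := by
  unfold upw
  exact continuous_finsetSum _ fun n _ => continuous_const.mul (hP n)

theorem norm_cexp_it (t : ℝ) (n : ℕ) : ‖cexp (I * t * Lam n)‖ = 1 := by
  have : I * t * Lam n = ((t * Lam n : ℝ) : ℂ) * I := by push_cast; ring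
  rw [this, Complex.norm_exp_ofReal_mul_I]

theorem up_N2_unit {c : ℂ} (hc : ‖c‖ = 1) (f : S2 → ℂ) : N2 (fun x => c * f x) = N2 f := by
  unfold N2
  refine integral_congr_ae (Eventually.of_forall fun x => ?_)
  simp only [norm_mul, hc, one_mul]

theorem upw_N2 {P : ℕ → S2 → ℂ} (hP : ∀ n, Har n (P n)) (s : Finset ℕ) (t : ℝ) :
    N2 (upw P s t) = ∑ n ∈ s, N2 (P n) := by
  have h := N2_sum_har s (fun n x => cexp (I * t * Lam n) * P n x)
    (fun n => har_const_mul _ (hP n))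
  have h2 : upw P s t = fun x => ∑ n ∈ s, cexp (I * t * Lam n) * P n x := rfl
  rw [h2, h]
  exact Finset.sum_congr rfl fun n _ => up_N2_unit (norm_cexp_it t n) (P n)

/-- `L⁴` estimate for a block over `[k, k+1]` -/
theorem up_block_shift : ∃ C > 0, ∀ (N : ℕ) (P : ℕ → S2 → ℂ) (k : ℕ), 64 ≤ N →
    (∀ n, Har n (P n)) →
    ∫ t in (k : ℝ)..(k + 1 : ℝ), ∫ x, ‖upw P (Finset.Ico N (2 * N)) t x‖ ^ 4 ∂σ ≤
      C * (N : ℝ) ^ (3 / 4 : ℝ) * (1 + Real.log N) ^ 2 *
        (∑ n ∈ Finset.Ico N (2 * N), N2 (P n)) ^ 2 := by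
  obtain ⟨C, hC, h⟩ := block_est
  refine ⟨C, hC, fun N P k hN hP => ?_⟩
  have h1 := h N (fun n x => cexp (I * (k : ℝ) * Lam n) * P n x) hN
    (fun n => har_const_mul _ (hP n))
  have h2 : ∫ t in (k : ℝ)..(k + 1 : ℝ), ∫ x, ‖upw P (Finset.Ico N (2 * N)) t x‖ ^ 4 ∂σ =
      ∫ t in (0 : ℝ)..1, ∫ x, ‖upw P (Finset.Ico N (2 * N)) (t + k) x‖ ^ 4 ∂σ := by
    rw [intervalIntegral.integral_comp_add_right
      (fun t => ∫ x, ‖upw P (Finset.Ico N (2 * N)) t x‖ ^ 4 ∂σ)]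
    norm_num
    ring_nf
  rw [h2]
  have h3 : ∀ n, N2 (fun x => cexp (I * (k : ℝ) * Lam n) * P n x) = N2 (P n) :=
    fun n => up_N2_unit (norm_cexp_it k n) (P n)
  simp only [h3] at h1
  refine le_trans (le_of_eq ?_) h1
  congr 1
  ext t
  congr 1
  ext x
  congr 2
  unfold upw
  refine Finset.sum_congr rfl fun n _ => ?_
  rw [← mul_assoc, ← Complex.exp_add]
  congr 2
  push_cast
  ring

theorem up_cont_L4 {P : ℕ → S2 → ℂ} (hP : ∀ n, Continuous (P n)) (s : Finset ℕ) :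
    Continuous (fun t : ℝ => ∫ x, ‖upw P s t x‖ ^ 4 ∂σ) := by
  have h := continuous_parametric_integral_of_continuous (μ := σ)
    (f := fun (t : ℝ) (x : S2) => ‖upw P s t x‖ ^ 4)
    (s := (Set.univ : Set S2)) (by exact ((upw_cont2 hP s).norm.pow 4)) isCompact_univ
  simpa using h

/-- `L⁴` estimate for a block over `[0, T]` -/
theorem up_block_T (T : ℝ) (hT : 0 < T) : ∃ C > 0, ∀ (N : ℕ) (P : ℕ → S2 → ℂ), 64 ≤ N →
    (∀ n, Har n (P n)) →
    ∫ t in (0 : ℝ)..T, ∫ x, ‖upw P (Finset.Ico N (2 * N)) t x‖ ^ 4 ∂σ ≤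
      C * (N : ℝ) ^ (3 / 4 : ℝ) * (1 + Real.log N) ^ 2 *
        (∑ n ∈ Finset.Ico N (2 * N), N2 (P n)) ^ 2 := by
  obtain ⟨C, hC, h⟩ := up_block_shift
  set M : ℕ := ⌈T⌉₊ with hM
  have hMT : T ≤ M := Nat.le_ceil T
  have hMpos : 0 < M := Nat.ceil_pos.mpr hT
  refine ⟨M * C, by positivity, fun N P hN hP => ?_⟩
  set F : ℝ → ℝ := fun t => ∫ x, ‖upw P (Finset.Ico N (2 * N)) t x‖ ^ 4 ∂σ with hF
  have hFc : Continuous F := up_cont_L4 (fun n => (hP n).cont) _
  have hF0 : ∀ t, 0 ≤ F t := fun t => integral_nonneg fun x => by positivity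
  have h1 : ∫ t in (0 : ℝ)..T, F t ≤ ∫ t in (0 : ℝ)..M, F t := by
    have := intervalIntegral.integral_add_adjacent_intervals (μ := volume)
      (hFc.intervalIntegrable 0 T) (hFc.intervalIntegrable T M)
    rw [← this]
    have h2 : 0 ≤ ∫ t in T..M, F t := intervalIntegral.integral_nonneg hMT fun t _ => hF0 t
    linarith
  have h2 : ∫ t in (0 : ℝ)..M, F t = ∑ k ∈ Finset.range M, ∫ t in (k : ℝ)..(k + 1 : ℝ), F t := by
    have := intervalIntegral.sum_integral_adjacent_intervals (f := F) (μ := volume)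
      (a := fun k : ℕ => (k : ℝ)) (n := M) (fun k _ => hFc.intervalIntegrable _ _)
    simp only [Nat.cast_zero, Nat.cast_add, Nat.cast_one] at this
    rw [← this]
  refine h1.trans ?_
  rw [h2]
  refine (Finset.sum_le_sum fun k _ => h N P k hN hP).trans (le_of_eq ?_)
  rw [Finset.sum_const, Finset.card_range, nsmul_eq_mul]
  ring

/-! ### real and extended integrals -/

theorem up_lint {w : S2 → ℂ} (hw : Continuous w) (m : ℕ) :
    ∫⁻ x, ‖w x‖ₑ ^ (m : ℝ) ∂σ = ENNReal.ofReal (∫ x, ‖w x‖ ^ m ∂σ) := by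
  have hi : Integrable (fun x => ‖w x‖ ^ m) σ := integrable_of_cont_real (hw.norm.pow m)
  rw [ofReal_integral_eq_lintegral_ofReal hi (Eventually.of_forall fun x => by positivity)]
  refine lintegral_congr fun x => ?_
  rw [ENNReal.rpow_natCast, ENNReal.ofReal_pow (norm_nonneg _), ofReal_norm]

theorem up_lint2 {w : S2 → ℂ} (hw : Continuous w) :
    ∫⁻ x, ‖w x‖ₑ ^ (2 : ℝ) ∂σ = ENNReal.ofReal (N2 w) := by
  have := up_lint hw 2
  simpa [N2] using this

theorem up_lint4 {w : S2 → ℂ} (hw : Continuous w) :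
    ∫⁻ x, ‖w x‖ₑ ^ (4 : ℝ) ∂σ = ENNReal.ofReal (∫ x, ‖w x‖ ^ 4 ∂σ) := by
  have := up_lint hw 4
  simpa using this

/-- interpolation at fixed time -/
theorem up_interp {w : S2 → ℂ} (hw : Continuous w) {q : ℝ} (hq2 : 2 ≤ q) (hq4 : q ≤ 4) :
    ∫⁻ x, ‖w x‖ₑ ^ q ∂σ ≤ (∫⁻ x, ‖w x‖ₑ ^ (2 : ℝ) ∂σ) ^ ((4 - q) / 2) *
      (∫⁻ x, ‖w x‖ₑ ^ (4 : ℝ) ∂σ) ^ ((q - 2) / 2) := by
  have hm : AEMeasurable (fun x => ‖w x‖ₑ) σ := hw.enorm.measurable.aemeasurable
  have h := ENNReal.lintegral_mul_norm_pow_le (μ := σ) (f := fun x => ‖w x‖ₑ ^ (2 : ℝ))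
    (g := fun x => ‖w x‖ₑ ^ (4 : ℝ)) (hm.pow_const _) (hm.pow_const _)
    (p := (4 - q) / 2) (q := (q - 2) / 2) (by linarith) (by linarith) (by ring)
  refine le_trans (le_of_eq ?_) h
  refine lintegral_congr fun x => ?_
  rw [← ENNReal.rpow_mul, ← ENNReal.rpow_mul, ← ENNReal.rpow_add_of_nonneg _ _ (by linarith)
    (by linarith)]
  congr 1
  ring

/-- the time integral of the `L^q` norms -/
theorem up_time {q : ℝ} (hq2 : 2 < q) (hq4 : q ≤ 4) {w : ℝ → S2 → ℂ}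
    (hw : Continuous fun p : ℝ × S2 => w p.1 p.2) (hw1 : ∀ t, Continuous (w t))
    {E B T : ℝ} (hE : 0 ≤ E) (hT : 0 ≤ T) (h2 : ∀ t, N2 (w t) ≤ E)
    (h4 : ∫ t in (0 : ℝ)..T, ∫ x, ‖w t x‖ ^ 4 ∂σ ≤ B * E ^ 2) :
    ∫⁻ t in Set.Icc 0 T, (∫⁻ x, ‖w t x‖ₑ ^ q ∂σ) ^ (2 / (q - 2)) ≤
      ENNReal.ofReal (B * E ^ (q / (q - 2))) := by
  have hq : 0 < q - 2 := by linarith
  set F : ℝ → ℝ := fun t => ∫ x, ‖w t x‖ ^ 4 ∂σ with hF
  have hFc : Continuous F := by
    have h := continuous_parametric_integral_of_continuous (μ := σ)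
      (f := fun (t : ℝ) (x : S2) => ‖w t x‖ ^ 4)
      (s := (Set.univ : Set S2)) (by exact (hw.norm.pow 4)) isCompact_univ
    simpa using h
  have hF0 : ∀ t, 0 ≤ F t := fun t => integral_nonneg fun x => by positivity
  have hpt : ∀ t, (∫⁻ x, ‖w t x‖ₑ ^ q ∂σ) ^ (2 / (q - 2)) ≤
      ENNReal.ofReal (E ^ ((4 - q) / (q - 2))) * ENNReal.ofReal (F t) := by
    intro t
    have h1 := up_interp (hw1 t) hq2.le hq4
    rw [up_lint2 (hw1 t), up_lint4 (hw1 t)] at h1
    have h3 := ENNReal.rpow_le_rpow h1 (z := 2 / (q - 2)) (by positivity)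
    refine h3.trans ?_
    rw [ENNReal.mul_rpow_of_nonneg _ _ (by positivity), ← ENNReal.rpow_mul, ← ENNReal.rpow_mul]
    have e1 : (4 - q) / 2 * (2 / (q - 2)) = (4 - q) / (q - 2) := by field_simp
    have e2 : (q - 2) / 2 * (2 / (q - 2)) = 1 := by field_simp
    rw [e1, e2, ENNReal.rpow_one]
    gcongr
    rw [← ENNReal.ofReal_rpow_of_nonneg hE (div_nonneg (by linarith) hq.le)]
    exact ENNReal.rpow_le_rpow (ENNReal.ofReal_le_ofReal (h2 t)) (div_nonneg (by linarith) hq.le)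
  have hint : Integrable F (volume.restrict (Set.Icc 0 T)) :=
    hFc.continuousOn.integrableOn_Icc
  calc ∫⁻ t in Set.Icc 0 T, (∫⁻ x, ‖w t x‖ₑ ^ q ∂σ) ^ (2 / (q - 2))
      ≤ ∫⁻ t in Set.Icc 0 T, ENNReal.ofReal (E ^ ((4 - q) / (q - 2))) * ENNReal.ofReal (F t) :=
        lintegral_mono fun t => hpt t
    _ = ENNReal.ofReal (E ^ ((4 - q) / (q - 2))) * ∫⁻ t in Set.Icc 0 T, ENNReal.ofReal (F t) :=
        lintegral_const_mul _ (by fun_prop)
    _ = ENNReal.ofReal (E ^ ((4 - q) / (q - 2))) *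
          ENNReal.ofReal (∫ t in Set.Icc 0 T, F t) := by
        rw [ofReal_integral_eq_lintegral_ofReal hint (Eventually.of_forall hF0)]
    _ ≤ ENNReal.ofReal (E ^ ((4 - q) / (q - 2))) * ENNReal.ofReal (B * E ^ 2) := by
        gcongr
        rw [integral_Icc_eq_integral_Ioc, ← intervalIntegral.integral_of_le hT]
        exact h4
    _ = ENNReal.ofReal (B * E ^ (q / (q - 2))) := by
        rw [← ENNReal.ofReal_mul (by positivity)]
        congr 1
        have e3 : E ^ (q / (q - 2)) = E ^ ((4 - q) / (q - 2)) * E ^ (2 : ℝ) := by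
          rw [← Real.rpow_add_of_nonneg hE (div_nonneg (by linarith) hq.le) (by norm_num)]
          congr 1
          field_simp
          ring
        rw [e3, Real.rpow_two]
        ring

/-- measurability in time -/
theorem up_meas {q : ℝ≥0∞} (hq0 : q ≠ 0) (hqt : q ≠ ⊤) {w : ℝ → S2 → ℂ}
    (hw : Continuous fun p : ℝ × S2 => w p.1 p.2) :
    Measurable (fun t => eLpNorm (w t) q σ) := by
  simp_rw [eLpNorm_eq_lintegral_rpow_enorm_toReal hq0 hqt]
  refine Measurable.pow_const ?_ _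
  have h : Measurable (fun p : ℝ × S2 => ‖w p.1 p.2‖ₑ ^ q.toReal) :=
    hw.enorm.measurable.pow_const _
  exact h.lintegral_prod_right'

/-- the mixed norm of a block -/
theorem up_mixed {q P : ℝ≥0∞} (hqt : q ≠ ⊤) (hPt : P ≠ ⊤) (hq2 : 2 < q.toReal)
    (hq4 : q.toReal ≤ 4) (hP : P.toReal = 2 * q.toReal / (q.toReal - 2)) {w : ℝ → S2 → ℂ}
    (hw : Continuous fun p : ℝ × S2 => w p.1 p.2) (hw1 : ∀ t, Continuous (w t))
    {E B T : ℝ} (hE : 0 ≤ E) (hB : 0 ≤ B) (hT : 0 ≤ T) (h2 : ∀ t, N2 (w t) ≤ E)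
    (h4 : ∫ t in (0 : ℝ)..T, ∫ x, ‖w t x‖ ^ 4 ∂σ ≤ B * E ^ 2) :
    eLpNorm (fun t => eLpNorm (w t) q σ) P (volume.restrict (Set.Icc 0 T)) ≤
      ENNReal.ofReal (B ^ (1 / P.toReal) * √E) := by
  have hq0 : q ≠ 0 := by rintro rfl; simp at hq2; linarith
  have hqm : 0 < q.toReal - 2 := by linarith
  have hPpos : 0 < P.toReal := by rw [hP]; positivity
  have hP0 : P ≠ 0 := by rintro rfl; simp at hPpos
  rw [eLpNorm_eq_lintegral_rpow_enorm_toReal hP0 hPt]
  have h5 := up_time hq2 hq4 hw hw1 hE hT h2 h4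
  have h6 : ∫⁻ t in Set.Icc 0 T, ‖eLpNorm (w t) q σ‖ₑ ^ P.toReal ≤
      ENNReal.ofReal (B * E ^ (q.toReal / (q.toReal - 2))) := by
    refine le_trans (le_of_eq ?_) h5
    refine lintegral_congr fun t => ?_
    rw [enorm_eq_self, eLpNorm_eq_lintegral_rpow_enorm_toReal hq0 hqt, ← ENNReal.rpow_mul, hP]
    congr 1
    field_simp
  refine (ENNReal.rpow_le_rpow h6 (z := 1 / P.toReal) (by positivity)).trans (le_of_eq ?_)
  rw [ENNReal.ofReal_rpow_of_nonneg (by positivity) (by positivity)]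
  congr 1
  rw [Real.mul_rpow hB (by positivity), ← Real.rpow_mul hE, Real.sqrt_eq_rpow]
  congr 2
  rw [hP]
  field_simp

/-! ### the Sobolev norm -/

theorem up_eLp2 {w : S2 → ℂ} (hw : Continuous w) : eLpNorm w 2 σ ^ 2 = ENNReal.ofReal (N2 w) := by
  rw [eLpNorm_eq_lintegral_rpow_enorm_toReal two_ne_zero ENNReal.ofNat_ne_top]
  simp only [ENNReal.toReal_ofNat]
  rw [up_lint2 hw, ← ENNReal.rpow_natCast, ← ENNReal.rpow_mul]
  simp

theorem up_eLp2' {w : S2 → ℂ} (hw : Continuous w) : eLpNorm w 2 σ = ENNReal.ofReal √(N2 w) := by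
  rw [eLpNorm_eq_lintegral_rpow_enorm_toReal two_ne_zero ENNReal.ofNat_ne_top]
  simp only [ENNReal.toReal_ofNat]
  rw [up_lint2 hw, ENNReal.ofReal_rpow_of_nonneg (N2_nonneg _) (by norm_num), Real.sqrt_eq_rpow]

theorem up_Hs (s : ℝ) (hs : 0 ≤ s) {f : S2 → ℂ} (hf : Continuous f) (A : Finset ℕ) (N : ℝ)
    (hN : 0 < N) (hA : ∀ n ∈ A, N ≤ 1 + n) :
    ENNReal.ofReal (N ^ s * √(∑ n ∈ A, N2 (proj n f))) ≤ Hs s f := by
  unfold Hs
  have h0 : 0 ≤ ∑ n ∈ A, N2 (proj n f) := Finset.sum_nonneg fun n _ => N2_nonneg _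
  have h1 : ENNReal.ofReal (N ^ (2 * s) * ∑ n ∈ A, N2 (proj n f)) ≤
      ∑' n : ℕ, ENNReal.ofReal ((1 + n : ℝ) ^ (2 * s)) * eLpNorm (proj n f) 2 σ ^ 2 := by
    refine le_trans ?_ (ENNReal.sum_le_tsum A)
    rw [Finset.mul_sum, ENNReal.ofReal_sum_of_nonneg
      (fun n _ => mul_nonneg (by positivity) (N2_nonneg _))]
    refine Finset.sum_le_sum fun n hn => ?_
    rw [up_eLp2 (proj_cont n hf), ← ENNReal.ofReal_mul (by positivity)]
    refine ENNReal.ofReal_le_ofReal ?_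
    have := N2_nonneg (proj n f)
    have h2 : N ^ (2 * s) ≤ (1 + n : ℝ) ^ (2 * s) :=
      Real.rpow_le_rpow hN.le (hA n hn) (by linarith)
    gcongr
  have h2 := ENNReal.rpow_le_rpow h1 (z := 1 / 2) (by norm_num)
  refine le_trans (le_of_eq ?_) h2
  rw [ENNReal.ofReal_rpow_of_nonneg (by positivity) (by norm_num)]
  congr 1
  rw [Real.mul_rpow (by positivity) h0, ← Real.rpow_mul hN.le, Real.sqrt_eq_rpow]
  congr 2
  ring

theorem up_Hs_zero (s : ℝ) (hs : 0 ≤ s) {f : S2 → ℂ} (hf : Continuous f) (A : Finset ℕ) :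
    ENNReal.ofReal √(∑ n ∈ A, N2 (proj n f)) ≤ Hs s f := by
  have := up_Hs s hs hf A 1 one_pos (fun n _ => by have : (0:ℝ) ≤ n := n.cast_nonneg; linarith)
  simpa using this

/-! ### monotone limits -/

theorem up_iSup {α : Type*} [MeasurableSpace α] {μ : Measure α} {P : ℝ≥0∞} (hP0 : P ≠ 0)
    (hPt : P ≠ ⊤) {S : ℕ → α → ℝ≥0∞} (hS : ∀ k, Measurable (S k)) (hm : Monotone S) {B : ℝ≥0∞}
    (hB : ∀ k, eLpNorm (S k) P μ ≤ B) : eLpNorm (fun t => ⨆ k, S k t) P μ ≤ B := by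
  have hP : 0 < P.toReal := ENNReal.toReal_pos hP0 hPt
  rw [eLpNorm_eq_lintegral_rpow_enorm_toReal hP0 hPt]
  simp only [enorm_eq_self]
  have h1 : ∀ t, (⨆ k, S k t) ^ P.toReal = ⨆ k, S k t ^ P.toReal := by
    intro t
    exact (ENNReal.orderIsoRpow P.toReal hP).map_iSup (fun k => S k t)
  simp_rw [h1]
  rw [lintegral_iSup (fun k => (hS k).pow_const _)
    (fun i j hij t => ENNReal.rpow_le_rpow (hm hij t) hP.le)]
  have h2 : ⨆ k, ∫⁻ t, S k t ^ P.toReal ∂μ ≤ B ^ P.toReal := by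
    refine iSup_le fun k => ?_
    have h3 := hB k
    rw [eLpNorm_eq_lintegral_rpow_enorm_toReal hP0 hPt] at h3
    simp only [enorm_eq_self] at h3
    have h4 := ENNReal.rpow_le_rpow h3 hP.le
    rw [← ENNReal.rpow_mul, one_div, inv_mul_cancel₀ hP.ne', ENNReal.rpow_one] at h4
    exact h4
  refine (ENNReal.rpow_le_rpow h2 (z := 1 / P.toReal) (by positivity)).trans (le_of_eq ?_)
  rw [← ENNReal.rpow_mul, one_div, mul_inv_cancel₀ hP.ne', ENNReal.rpow_one]

/-! ### the dyadic decomposition -/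

/-- the dyadic blocks -/
def upB (j : ℕ) : Finset ℕ := Finset.Ico (64 * 2 ^ j) (2 * (64 * 2 ^ j))

/-- partial sums of the norms of the blocks -/
def upS (P : ℕ → S2 → ℂ) (q : ℝ≥0∞) (K : ℕ) (t : ℝ) : ℝ≥0∞ :=
  eLpNorm (upw P (Finset.range 64) t) q σ + ∑ j ∈ Finset.range K, eLpNorm (upw P (upB j) t) q σ

theorem up_split (P : ℕ → S2 → ℂ) (K : ℕ) (t : ℝ) :
    upw P (Finset.range (64 * 2 ^ (K + 1))) t =
      upw P (Finset.range (64 * 2 ^ K)) t + upw P (upB K) t := by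
  ext x
  simp only [upw, upB, Pi.add_apply]
  have h : 64 * 2 ^ (K + 1) = 2 * (64 * 2 ^ K) := by ring
  rw [h]
  exact (Finset.sum_range_add_sum_Ico _ (by omega)).symm

theorem up_partial {P : ℕ → S2 → ℂ} (hP : ∀ n, Continuous (P n)) {q : ℝ≥0∞} (hq : 1 ≤ q) (K : ℕ)
    (t : ℝ) : eLpNorm (upw P (Finset.range (64 * 2 ^ K)) t) q σ ≤ upS P q K t := by
  induction K with
  | zero => simp [upS]
  | succ K ih =>
    rw [up_split]
    refine (eLpNorm_add_le (upw_cont hP _ t).aestronglyMeasurable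
      (upw_cont hP _ t).aestronglyMeasurable hq).trans ?_
    unfold upS at ih ⊢
    rw [Finset.sum_range_succ, ← add_assoc]
    gcongr

theorem upS_mono (P : ℕ → S2 → ℂ) (q : ℝ≥0∞) : Monotone (upS P q) := by
  refine monotone_nat_of_le_succ fun K t => ?_
  unfold upS
  rw [Finset.sum_range_succ, ← add_assoc]
  exact le_self_add

theorem upS_meas {P : ℕ → S2 → ℂ} (hP : ∀ n, Continuous (P n)) {q : ℝ≥0∞} (hq0 : q ≠ 0)
    (hqt : q ≠ ⊤) (K : ℕ) : Measurable (upS P q K) := by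
  unfold upS
  refine (up_meas hq0 hqt (upw_cont2 hP _)).add ?_
  exact Finset.measurable_fun_sum _ fun j _ => up_meas hq0 hqt (upw_cont2 hP _)

/-- norms of the flow are controlled by norms of partial sums -/
theorem up_flow {f : S2 → ℂ} (hf : Continuous f) {u : ℝ → S2 → ℂ} (hu : IsFlow f u) (t : ℝ)
    {q C : ℝ≥0∞} (hC : ∀ K, eLpNorm (upw (fun n => proj n f) (Finset.range (64 * 2 ^ K)) t) q σ ≤ C) :
    eLpNorm (u t) q σ ≤ C := by
  obtain ⟨hm, hlim⟩ := hu t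
  have hmeas : ∀ K, AEStronglyMeasurable
      (upw (fun n => proj n f) (Finset.range (64 * 2 ^ K)) t) σ := fun K =>
    (upw_cont (fun n => proj_cont n hf) _ t).aestronglyMeasurable
  have htop : Tendsto (fun K : ℕ => 64 * 2 ^ K) atTop atTop := by
    refine tendsto_atTop_mono (fun K => ?_) tendsto_id
    have := (Nat.lt_two_pow_self (n := K)).le
    simp only [id]
    omega
  have h1 := hlim.comp htop
  have h2 : Tendsto (fun K : ℕ => eLpNorm (upw (fun n => proj n f) (Finset.range (64 * 2 ^ K)) t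
      - u t) 2 σ) atTop (𝓝 0) := by
    refine h1.congr fun K => ?_
    simp only [Function.comp]
    rw [eLpNorm_sub_comm]
    rfl
  have h3 := tendstoInMeasure_of_tendsto_eLpNorm two_ne_zero hmeas hm h2
  exact eLpNorm_le_of_tendstoInMeasure (Eventually.of_forall hC) h3 hmeas

/-! ### bounds for the blocks -/

theorem up_pow_bound {C P s N : ℝ} (hC : 0 < C) (hP : 0 < P) (hs : 3 / (4 * P) < s)
    (hN : 1 ≤ N) : (C * N ^ (3 / 4 : ℝ) * (1 + Real.log N) ^ 2) ^ (1 / P) ≤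
      (C * (1 + 1 / ((s - 3 / (4 * P)) / 2 * P / 2)) ^ 2) ^ (1 / P) *
        (N ^ (-((s - 3 / (4 * P)) / 2)) * N ^ s) := by
  set δ : ℝ := (s - 3 / (4 * P)) / 2 with hδ
  have hδ0 : 0 < δ := by rw [hδ]; linarith
  set η : ℝ := δ * P / 2 with hη
  have hη0 : 0 < η := by positivity
  have hN0 : 0 < N := by linarith
  have hlog : 0 ≤ Real.log N := Real.log_nonneg hN
  have h1 : 1 + Real.log N ≤ (1 + 1 / η) * N ^ η := by
    have h2 := Real.log_le_rpow_div hN0.le hη0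
    have h3 : 1 ≤ N ^ η := Real.one_le_rpow hN hη0.le
    calc 1 + Real.log N ≤ N ^ η + N ^ η / η := by linarith
      _ = (1 + 1 / η) * N ^ η := by field_simp
  have h4 : C * N ^ (3 / 4 : ℝ) * (1 + Real.log N) ^ 2 ≤
      (C * (1 + 1 / η) ^ 2) * (N ^ (3 / 4 : ℝ) * (N ^ η) ^ 2) := by
    calc C * N ^ (3 / 4 : ℝ) * (1 + Real.log N) ^ 2
        ≤ C * N ^ (3 / 4 : ℝ) * ((1 + 1 / η) * N ^ η) ^ 2 := by gcongr
      _ = _ := by ring
  have h5 : N ^ (3 / 4 : ℝ) * (N ^ η) ^ 2 = N ^ (3 / 4 + 2 * η) := by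
    rw [← Real.rpow_natCast, ← Real.rpow_mul hN0.le, ← Real.rpow_add hN0]
    congr 1
    push_cast
    ring
  rw [h5] at h4
  refine (Real.rpow_le_rpow (by positivity) h4 (by positivity)).trans (le_of_eq ?_)
  rw [Real.mul_rpow (by positivity) (by positivity), ← Real.rpow_mul hN0.le, ← Real.rpow_add hN0]
  congr 2
  rw [hη, hδ]
  field_simp
  ring

theorem up_blocks (T : ℝ) (hT : 0 < T) {q P : ℝ≥0∞} (hqt : q ≠ ⊤) (hPt : P ≠ ⊤)
    (hq2 : 2 < q.toReal) (hq4 : q.toReal ≤ 4) (hP : P.toReal = 2 * q.toReal / (q.toReal - 2))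
    {s : ℝ} (hs : 3 / (4 * P.toReal) < s) :
    ∃ C r : ℝ, 0 ≤ C ∧ 0 ≤ r ∧ r < 1 ∧ ∀ f : S2 → ℂ, Continuous f → ∀ j : ℕ,
      eLpNorm (fun t => eLpNorm (upw (fun n => proj n f) (upB j) t) q σ) P
        (volume.restrict (Set.Icc 0 T)) ≤ ENNReal.ofReal (C * r ^ j) * Hs s f := by
  obtain ⟨C, hC, h⟩ := up_block_T T hT
  have hqm : 0 < q.toReal - 2 := by linarith
  have hPpos : 0 < P.toReal := by rw [hP]; positivity
  have hs0 : 0 ≤ s := le_trans (by positivity) hs.le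
  set δ : ℝ := (s - 3 / (4 * P.toReal)) / 2 with hδ
  have hδ0 : 0 < δ := by rw [hδ]; linarith
  refine ⟨(C * (1 + 1 / (δ * P.toReal / 2)) ^ 2) ^ (1 / P.toReal), (2 : ℝ) ^ (-δ), by positivity,
    by positivity, Real.rpow_lt_one_of_one_lt_of_neg one_lt_two (by linarith), ?_⟩
  intro f hf j
  set Pn : ℕ → S2 → ℂ := fun n => proj n f with hPn
  have hhar : ∀ n, Har n (Pn n) := fun n => proj_har n hf
  have hcont : ∀ n, Continuous (Pn n) := fun n => (hhar n).cont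
  set N : ℕ := 64 * 2 ^ j with hN
  have h2j : 1 ≤ 2 ^ j := Nat.one_le_two_pow
  have hN64 : 64 ≤ N := by omega
  have hN1 : (1 : ℝ) ≤ N := by exact_mod_cast (by omega : 1 ≤ N)
  have hN0 : (0 : ℝ) < N := by linarith
  have hlog : 0 ≤ Real.log N := Real.log_nonneg hN1
  set E : ℝ := ∑ n ∈ upB j, N2 (Pn n) with hE
  have hE0 : 0 ≤ E := Finset.sum_nonneg fun n _ => N2_nonneg _
  have h1 := up_mixed hqt hPt hq2 hq4 hP (w := upw Pn (upB j)) (upw_cont2 hcont _)
    (upw_cont hcont _) hE0 (B := C * (N : ℝ) ^ (3 / 4 : ℝ) * (1 + Real.log N) ^ 2)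
    (by positivity) hT.le (fun t => (upw_N2 hhar _ t).le) (h N Pn hN64 hhar)
  refine h1.trans ?_
  have h2 := up_pow_bound (P := P.toReal) (s := s) (N := N) hC hPpos hs hN1
  rw [← hδ] at h2
  have h3 : (N : ℝ) ^ (-δ) ≤ ((2 : ℝ) ^ (-δ)) ^ j := by
    rw [← Real.rpow_natCast, ← Real.rpow_mul (by norm_num), mul_comm (-δ), Real.rpow_mul
      (by norm_num), Real.rpow_natCast]
    refine Real.rpow_le_rpow_of_nonpos (by positivity) ?_ (by linarith)
    rw [hN]
    push_cast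
    have : (0 : ℝ) < 2 ^ j := by positivity
    linarith
  have h4 := up_Hs s hs0 hf (upB j) N hN0 (fun n hn => by
    have h5 : N ≤ n := (Finset.mem_Ico.mp hn).1
    have h6 : (N : ℝ) ≤ n := by exact_mod_cast h5
    linarith)
  refine le_trans ?_ (mul_le_mul_right h4 _)
  rw [← ENNReal.ofReal_mul (by positivity)]
  refine ENNReal.ofReal_le_ofReal ?_
  calc (C * (N : ℝ) ^ (3 / 4 : ℝ) * (1 + Real.log N) ^ 2) ^ (1 / P.toReal) * √E
      ≤ ((C * (1 + 1 / (δ * P.toReal / 2)) ^ 2) ^ (1 / P.toReal) *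
        ((N : ℝ) ^ (-δ) * (N : ℝ) ^ s)) * √E := by gcongr
    _ ≤ ((C * (1 + 1 / (δ * P.toReal / 2)) ^ 2) ^ (1 / P.toReal) *
        (((2 : ℝ) ^ (-δ)) ^ j * (N : ℝ) ^ s)) * √E := by gcongr
    _ = _ := by ring

theorem up_low (q : ℝ≥0∞) {s : ℝ} (hs : 0 ≤ s) : ∃ C : ℝ≥0, ∀ f : S2 → ℂ,
    Continuous f → ∀ t, eLpNorm (upw (fun n => proj n f) (Finset.range 64) t) q σ ≤
      C * Hs s f := by
  set κ : ℝ := ∑ n ∈ Finset.range 64, √((2 * n + 1) / (4 * π)) with hκ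
  have hκ0 : 0 ≤ κ := Finset.sum_nonneg fun n _ => Real.sqrt_nonneg _
  have hfin : σ Set.univ ^ q.toReal⁻¹ * ENNReal.ofReal κ ≠ ⊤ :=
    ENNReal.mul_ne_top (ENNReal.rpow_ne_top_of_nonneg (by positivity) (measure_ne_top _ _))
      ENNReal.ofReal_ne_top
  refine ⟨(σ Set.univ ^ q.toReal⁻¹ * ENNReal.ofReal κ).toNNReal, fun f hf t => ?_⟩
  rw [ENNReal.coe_toNNReal hfin]
  set E : ℝ := ∑ n ∈ Finset.range 64, N2 (proj n f) with hE
  have h1 : ∀ x, ‖upw (fun n => proj n f) (Finset.range 64) t x‖ ≤ κ * √E := by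
    intro x
    unfold upw
    rw [hκ, Finset.sum_mul]
    refine (norm_sum_le _ _).trans (Finset.sum_le_sum fun n hn => ?_)
    rw [norm_mul, norm_cexp_it, one_mul]
    have h2 := har_sup n (proj_har n hf) x
    have h3 : N2 (proj n f) ≤ E :=
      Finset.single_le_sum (f := fun n => N2 (proj n f)) (fun n _ => N2_nonneg _) hn
    rw [← Real.sqrt_mul (by positivity)]
    refine Real.le_sqrt_of_sq_le (h2.trans ?_)
    gcongr
  have h4 := eLpNorm_le_of_ae_bound (μ := σ) (p := q) (Eventually.of_forall h1)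
  refine h4.trans ?_
  rw [ENNReal.ofReal_mul hκ0, ← mul_assoc]
  exact mul_le_mul_right (up_Hs_zero s hs hf _) _

theorem up_sum_bound {μ : Measure ℝ} [IsFiniteMeasure μ] {f : S2 → ℂ} (hf : Continuous f)
    {q P H Cl : ℝ≥0∞} (hq0 : q ≠ 0) (hqt : q ≠ ⊤) (hP1 : 1 ≤ P) {C r : ℝ} (hC : 0 ≤ C)
    (hr0 : 0 ≤ r) (hr1 : r < 1)
    (hlow : ∀ t, eLpNorm (upw (fun n => proj n f) (Finset.range 64) t) q σ ≤ Cl * H)
    (hb : ∀ j : ℕ, eLpNorm (fun t => eLpNorm (upw (fun n => proj n f) (upB j) t) q σ) P μ ≤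
      ENNReal.ofReal (C * r ^ j) * H) (K : ℕ) :
    eLpNorm (upS (fun n => proj n f) q K) P μ ≤
      (Cl * μ Set.univ ^ P.toReal⁻¹ + ENNReal.ofReal (C * (1 - r)⁻¹)) * H := by
  have hcont : ∀ n, Continuous ((fun n => proj n f) n) := fun n => proj_cont n hf
  have hmeas : ∀ s : Finset ℕ, Measurable (fun t => eLpNorm (upw (fun n => proj n f) s t) q σ) :=
    fun s => up_meas hq0 hqt (upw_cont2 hcont s)
  have e1 : upS (fun n => proj n f) q K =
      (fun t => eLpNorm (upw (fun n => proj n f) (Finset.range 64) t) q σ) +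
        ∑ j ∈ Finset.range K, fun t => eLpNorm (upw (fun n => proj n f) (upB j) t) q σ := by
    ext t
    simp only [upS, Pi.add_apply, Finset.sum_apply]
  rw [e1]
  refine (eLpNorm_add_le (hmeas _).aestronglyMeasurable
    (Finset.aestronglyMeasurable_sum _ fun j _ => (hmeas _).aestronglyMeasurable) hP1).trans ?_
  rw [add_mul]
  refine add_le_add ?_ ?_
  · have := eLpNorm_le_of_ae_enorm_bound (μ := μ) (p := P)
      (f := fun t => eLpNorm (upw (fun n => proj n f) (Finset.range 64) t) q σ) (C := Cl * H)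
      (Eventually.of_forall fun t => by simpa using hlow t)
    refine this.trans (le_of_eq ?_)
    rw [smul_eq_mul]
    ring
  · refine (eLpNorm_sum_le (fun j _ => (hmeas _).aestronglyMeasurable) hP1).trans ?_
    refine (Finset.sum_le_sum fun j _ => hb j).trans ?_
    rw [← Finset.sum_mul, ← ENNReal.ofReal_sum_of_nonneg (fun j _ => by positivity),
      ← Finset.mul_sum]
    gcongr
    rw [← tsum_geometric_of_lt_one hr0 hr1]
    exact (summable_geometric_of_lt_one hr0 hr1).sum_le_tsum _ fun j _ => by positivity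

theorem upper (p q : ℝ≥0∞) (hq : 2 ≤ q) (hq4 : q ≤ 4) (hpq : 1 / 2 ≤ p⁻¹ + q⁻¹) (hp : 1 ≤ p)
    (s : ℝ) (hs : 3 / 4 * (1 / 2 - (q⁻¹).toReal) < s) : Strichartz p q s := by
  intro T hT
  have hqt : q ≠ ⊤ := (hq4.trans_lt (by norm_num)).ne
  have hq0 : q ≠ 0 := (lt_of_lt_of_le (by norm_num) hq).ne'
  have hq1 : 1 ≤ q := le_trans (by norm_num) hq
  have hqr2 : 2 ≤ q.toReal := by
    have := ENNReal.toReal_mono hqt hq
    simpa using this
  have hqr4 : q.toReal ≤ 4 := by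
    have := ENNReal.toReal_mono (by norm_num) hq4
    simpa using this
  rw [ENNReal.toReal_inv] at hs
  have hs0 : 0 ≤ s := by
    have : (q.toReal)⁻¹ ≤ 2⁻¹ := inv_anti₀ (by norm_num) hqr2
    norm_num at this hs ⊢
    linarith
  rcases eq_or_lt_of_le hq with h | h
  · -- `q = 2`
    subst h
    have hfin : (volume.restrict (Set.Icc 0 T)) Set.univ ^ p.toReal⁻¹ ≠ ⊤ :=
      ENNReal.rpow_ne_top_of_nonneg (by positivity) (measure_ne_top _ _)
    refine ⟨((volume.restrict (Set.Icc 0 T)) Set.univ ^ p.toReal⁻¹).toNNReal,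
      fun f hf u hu => ?_⟩
    have hc := hf.continuous
    have hb : ∀ t, eLpNorm (u t) 2 σ ≤ Hs s f := fun t => up_flow hc hu t (fun K => by
      rw [up_eLp2' (upw_cont (fun n => proj_cont n hc) _ t), upw_N2 (fun n => proj_har n hc)]
      exact up_Hs_zero s hs0 hc _)
    have h1 := eLpNorm_le_of_ae_enorm_bound (μ := volume.restrict (Set.Icc 0 T)) (p := p)
      (f := fun t => eLpNorm (u t) 2 σ) (C := Hs s f)
      (Eventually.of_forall fun t => by simpa using hb t)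
    refine h1.trans (le_of_eq ?_)
    rw [ENNReal.coe_toNNReal hfin, smul_eq_mul, mul_comm]
  · -- `q > 2`
    have hqr : 2 < q.toReal := by
      have := (ENNReal.toReal_lt_toReal (by norm_num) hqt).mpr h
      simpa using this
    have hqm : 0 < q.toReal - 2 := by linarith
    set P : ℝ≥0∞ := ENNReal.ofReal (2 * q.toReal / (q.toReal - 2)) with hPdef
    have hPt : P ≠ ⊤ := ENNReal.ofReal_ne_top
    have hPr : P.toReal = 2 * q.toReal / (q.toReal - 2) :=
      ENNReal.toReal_ofReal (by positivity)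
    have hPpos : 0 < P.toReal := by rw [hPr]; positivity
    have hP0 : P ≠ 0 := by rintro h0; rw [h0] at hPpos; simp at hPpos
    have hs' : 3 / (4 * P.toReal) < s := by
      refine lt_of_eq_of_lt ?_ hs
      rw [hPr]
      field_simp
    have hpt : p ≠ ⊤ := by
      rintro rfl
      rw [ENNReal.inv_top, zero_add] at hpq
      have h1 := ENNReal.toReal_mono (ENNReal.inv_ne_top.mpr hq0) hpq
      rw [ENNReal.toReal_inv] at h1
      have h2 : (q.toReal)⁻¹ < 2⁻¹ := inv_strictAnti₀ (by norm_num) hqr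
      norm_num at h1 h2
      linarith
    have hp0 : p ≠ 0 := (lt_of_lt_of_le one_pos hp).ne'
    have hpr1 : 1 ≤ p.toReal := by
      have := ENNReal.toReal_mono hpt hp
      simpa using this
    have hpP : p ≤ P := by
      rw [← ENNReal.ofReal_toReal hpt, hPdef]
      refine ENNReal.ofReal_le_ofReal ?_
      have h1 := ENNReal.toReal_mono
        (ENNReal.add_ne_top.mpr ⟨ENNReal.inv_ne_top.mpr hp0, ENNReal.inv_ne_top.mpr hq0⟩) hpq
      rw [ENNReal.toReal_add (ENNReal.inv_ne_top.mpr hp0) (ENNReal.inv_ne_top.mpr hq0),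
        ENNReal.toReal_inv, ENNReal.toReal_inv] at h1
      have h2 : (1 : ℝ) / 2 ≤ (p.toReal)⁻¹ + (q.toReal)⁻¹ := by simpa using h1
      rw [le_div_iff₀ hqm]
      have hp' : 0 < p.toReal := by linarith
      have hq' : 0 < q.toReal := by linarith
      have h3 : p.toReal * q.toReal * ((p.toReal)⁻¹ + (q.toReal)⁻¹) = q.toReal + p.toReal := by
        field_simp
      have h4 : p.toReal * q.toReal * (1 / 2) ≤ q.toReal + p.toReal := by
        rw [← h3]
        exact mul_le_mul_of_nonneg_left h2 (by positivity)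
      nlinarith
    obtain ⟨C, r, hC, hr0, hr1, hbl⟩ := up_blocks T hT hqt hPt hqr hqr4 hPr hs'
    obtain ⟨Cl, hlow⟩ := up_low q hs0
    set μT : Measure ℝ := volume.restrict (Set.Icc 0 T) with hμT
    set c1 : ℝ≥0∞ := (Cl * μT Set.univ ^ P.toReal⁻¹ + ENNReal.ofReal (C * (1 - r)⁻¹)) with hc1
    set c2 : ℝ≥0∞ := μT Set.univ ^ (1 / p.toReal - 1 / P.toReal) with hc2
    have hpPr : p.toReal ≤ P.toReal := ENNReal.toReal_mono hPt hpP
    have hc1t : c1 ≠ ⊤ := ENNReal.add_ne_top.mpr ⟨ENNReal.mul_ne_top ENNReal.coe_ne_top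
      (ENNReal.rpow_ne_top_of_nonneg (by positivity) (measure_ne_top _ _)),
      ENNReal.ofReal_ne_top⟩
    have hc2t : c2 ≠ ⊤ := by
      refine ENNReal.rpow_ne_top_of_nonneg ?_ (measure_ne_top _ _)
      have : 1 / P.toReal ≤ 1 / p.toReal := one_div_le_one_div_of_le (by linarith) hpPr
      linarith
    refine ⟨(c1 * c2).toNNReal, fun f hf u hu => ?_⟩
    rw [ENNReal.coe_toNNReal (ENNReal.mul_ne_top hc1t hc2t)]
    have hc := hf.continuous
    have hcont : ∀ n, Continuous ((fun n => proj n f) n) := fun n => proj_cont n hc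
    have hmeas : ∀ K, Measurable (upS (fun n => proj n f) q K) := fun K => upS_meas hcont hq0 hqt K
    have hGm : Measurable (fun t => ⨆ K, upS (fun n => proj n f) q K t) := Measurable.iSup hmeas
    have h1 : ∀ t, eLpNorm (u t) q σ ≤ ⨆ K, upS (fun n => proj n f) q K t := fun t =>
      up_flow hc hu t fun K => (up_partial hcont hq1 K t).trans
        (le_iSup (fun K => upS (fun n => proj n f) q K t) K)
    have h2 : eLpNorm (fun t => ⨆ K, upS (fun n => proj n f) q K t) P μT ≤ c1 * Hs s f :=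
      up_iSup hP0 hPt hmeas (upS_mono _ _) fun K =>
        up_sum_bound hc hq0 hqt (hp.trans hpP) hC hr0 hr1 (hlow f hc) (hbl f hc) K
    have h3 : eLpNorm (fun t => eLpNorm (u t) q σ) p μT ≤
        eLpNorm (fun t => ⨆ K, upS (fun n => proj n f) q K t) p μT :=
      eLpNorm_mono_enorm fun t => by simpa using h1 t
    have h4 := eLpNorm_le_eLpNorm_mul_rpow_measure_univ (μ := μT) hpP hGm.aestronglyMeasurable
    refine h3.trans (h4.trans ?_)
    calc eLpNorm (fun t => ⨆ K, upS (fun n => proj n f) q K t) P μT * c2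
        ≤ (c1 * Hs s f) * c2 := mul_le_mul_left h2 _
      _ = c1 * c2 * Hs s f := by ring

end

end Pool.Agent.DW
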