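import Pool.Agent.DW.Bil3
import Pool.Agent.DW.Upper

/-!
# The endpoint Strichartz estimates for `2 ≤ q ≤ 4`, `1/p + 1/q ≥ 1/2`
-/

open MeasureTheory Metric Complex Filter Topology Real
open scoped ENNReal NNReal RealInnerProductSpace Manifold ContDiff

namespace Pool.Agent.DW

noncomputable section

/-- the square of the `L²` norm of a product of two partial sums -/
def G3 (P : ℕ → S2 → ℂ) (s1 s2 : Finset ℕ) (t : ℝ) : ℝ :=
  ∫ x, ‖upw P s1 t x * upw P s2 t x‖ ^ 2 ∂σ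

theorem G3_nonneg (P : ℕ → S2 → ℂ) (s1 s2 : Finset ℕ) (t : ℝ) : 0 ≤ G3 P s1 s2 t :=
  integral_nonneg fun x => by positivity

theorem G3_cont {P : ℕ → S2 → ℂ} (hP : ∀ n, Continuous (P n)) (s1 s2 : Finset ℕ) :
    Continuous (G3 P s1 s2) := by
  have h := continuous_parametric_integral_of_continuous (μ := σ)
    (f := fun (t : ℝ) (x : S2) => ‖upw P s1 t x * upw P s2 t x‖ ^ 2)
    (s := (Set.univ : Set S2))
    (by exact (((upw_cont2 hP s1).mul (upw_cont2 hP s2)).norm.pow 2)) isCompact_univ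
  unfold G3
  simpa only [Measure.restrict_univ] using h

/-- from `[0, 1]` to `[0, T]` -/
theorem u3_T (T : ℝ) {s1 s2 : Finset ℕ} {B : ℝ}
    (h : ∀ f : ℕ → S2 → ℂ, (∀ n, Har n (f n)) →
      ∫ t in (0 : ℝ)..1, ∫ x, ‖(∑ n ∈ s1, cexp (I * t * Lam n) * f n x) *
        (∑ n ∈ s2, cexp (I * t * Lam n) * f n x)‖ ^ 2 ∂σ ≤
      B * ((∑ n ∈ s1, N2 (f n)) * (∑ n ∈ s2, N2 (f n))))
    {P : ℕ → S2 → ℂ} (hP : ∀ n, Har n (P n)) :
    ∫ t in (0 : ℝ)..T, G3 P s1 s2 t ≤
      ⌈T⌉₊ * (B * ((∑ n ∈ s1, N2 (P n)) * (∑ n ∈ s2, N2 (P n)))) := by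
  set M : ℕ := ⌈T⌉₊ with hM
  have hMT : T ≤ M := Nat.le_ceil T
  have hFc : Continuous (G3 P s1 s2) := G3_cont (fun n => (hP n).cont) _ _
  have hF0 : ∀ t, 0 ≤ G3 P s1 s2 t := fun t => G3_nonneg _ _ _ _
  have h1 : ∫ t in (0 : ℝ)..T, G3 P s1 s2 t ≤ ∫ t in (0 : ℝ)..M, G3 P s1 s2 t := by
    have := intervalIntegral.integral_add_adjacent_intervals (μ := volume)
      (hFc.intervalIntegrable 0 T) (hFc.intervalIntegrable T M)
    rw [← this]
    have h2 : 0 ≤ ∫ t in T..M, G3 P s1 s2 t :=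
      intervalIntegral.integral_nonneg hMT fun t _ => hF0 t
    linarith
  have h2 : ∫ t in (0 : ℝ)..M, G3 P s1 s2 t =
      ∑ k ∈ Finset.range M, ∫ t in (k : ℝ)..(k + 1 : ℝ), G3 P s1 s2 t := by
    have := intervalIntegral.sum_integral_adjacent_intervals (f := G3 P s1 s2) (μ := volume)
      (a := fun k : ℕ => (k : ℝ)) (n := M) (fun k _ => hFc.intervalIntegrable _ _)
    simp only [Nat.cast_zero, Nat.cast_add, Nat.cast_one] at this
    rw [← this]
  have h3 : ∀ k : ℕ, ∫ t in (k : ℝ)..(k + 1 : ℝ), G3 P s1 s2 t ≤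
      B * ((∑ n ∈ s1, N2 (P n)) * (∑ n ∈ s2, N2 (P n))) := by
    intro k
    have h4 := h (fun n x => cexp (I * (k : ℝ) * Lam n) * P n x)
      (fun n => har_const_mul _ (hP n))
    have h5 : ∫ t in (k : ℝ)..(k + 1 : ℝ), G3 P s1 s2 t =
        ∫ t in (0 : ℝ)..1, G3 P s1 s2 (t + k) := by
      rw [intervalIntegral.integral_comp_add_right (fun t => G3 P s1 s2 t)]
      norm_num
      ring_nf
    rw [h5]
    have h6 : ∀ n, N2 (fun x => cexp (I * (k : ℝ) * Lam n) * P n x) = N2 (P n) :=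
      fun n => up_N2_unit (norm_cexp_it k n) (P n)
    simp only [h6] at h4
    refine le_trans (le_of_eq ?_) h4
    have h7 : ∀ (s : Finset ℕ) (t : ℝ) (x : S2), upw P s (t + k) x =
        ∑ n ∈ s, cexp (I * t * Lam n) * (cexp (I * (k : ℝ) * Lam n) * P n x) := by
      intro s t x
      unfold upw
      refine Finset.sum_congr rfl fun n _ => ?_
      rw [← mul_assoc, ← Complex.exp_add]
      congr 2
      push_cast
      ring
    congr 1
    ext t
    unfold G3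
    congr 1
    ext x
    rw [h7, h7]
  refine h1.trans ?_
  rw [h2]
  refine (Finset.sum_le_sum fun k _ => h3 k).trans (le_of_eq ?_)
  rw [Finset.sum_const, Finset.card_range, nsmul_eq_mul]

/-- Cauchy–Schwarz in time and space -/
theorem u3_cs {P : ℕ → S2 → ℂ} (hP : ∀ n, Continuous (P n)) (s1 s2 : Finset ℕ) {T : ℝ}
    (hT : 0 ≤ T) : (∫ t in (0 : ℝ)..T, G3 P s1 s2 t) ^ 2 ≤
      (∫ t in (0 : ℝ)..T, G3 P s1 s1 t) * (∫ t in (0 : ℝ)..T, G3 P s2 s2 t) := by
  set A := ∫ t in (0 : ℝ)..T, G3 P s1 s1 t with hA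
  set X := ∫ t in (0 : ℝ)..T, G3 P s1 s2 t with hX
  set B := ∫ t in (0 : ℝ)..T, G3 P s2 s2 t with hB
  have hq : ∀ l : ℝ, 0 ≤ A * (l * l) + (-2 * X) * l + B := by
    intro l
    have hi : ∀ u v : Finset ℕ, IntervalIntegrable (G3 P u v) volume 0 T := fun u v =>
      (G3_cont hP u v).intervalIntegrable _ _
    have h1 : A * (l * l) + (-2 * X) * l + B =
        ∫ t in (0 : ℝ)..T, (l ^ 2 * G3 P s1 s1 t - (2 * l) * G3 P s1 s2 t + G3 P s2 s2 t) := by
      rw [intervalIntegral.integral_add (((hi _ _).const_mul _).sub ((hi _ _).const_mul _))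
        (hi _ _), intervalIntegral.integral_sub ((hi _ _).const_mul _) ((hi _ _).const_mul _),
        intervalIntegral.integral_const_mul, intervalIntegral.integral_const_mul]
      ring
    rw [h1]
    refine intervalIntegral.integral_nonneg hT fun t _ => ?_
    have hc1 := upw_cont hP s1 t
    have hc2 := upw_cont hP s2 t
    have hj : ∀ {u v : S2 → ℂ}, Continuous u → Continuous v →
        Integrable (fun x => ‖u x * v x‖ ^ 2) σ := fun hu hv =>
      integrable_of_cont_real ((hu.mul hv).norm.pow 2)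
    have h2 : l ^ 2 * G3 P s1 s1 t - (2 * l) * G3 P s1 s2 t + G3 P s2 s2 t =
        ∫ x, (l * ‖upw P s1 t x‖ ^ 2 - ‖upw P s2 t x‖ ^ 2) ^ 2 ∂σ := by
      have e : ∀ x, (l * ‖upw P s1 t x‖ ^ 2 - ‖upw P s2 t x‖ ^ 2) ^ 2 =
          l ^ 2 * ‖upw P s1 t x * upw P s1 t x‖ ^ 2 - (2 * l) * ‖upw P s1 t x * upw P s2 t x‖ ^ 2
            + ‖upw P s2 t x * upw P s2 t x‖ ^ 2 := by
        intro x
        simp only [norm_mul]
        ring
      simp only [e]
      have i1 := (hj hc1 hc1).const_mul (l ^ 2)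
      have i2 := (hj hc1 hc2).const_mul (2 * l)
      have i12 : Integrable (fun x => l ^ 2 * ‖upw P s1 t x * upw P s1 t x‖ ^ 2
          - (2 * l) * ‖upw P s1 t x * upw P s2 t x‖ ^ 2) σ := i1.sub i2
      rw [integral_add i12 (hj hc2 hc2), integral_sub i1 i2, integral_const_mul,
        integral_const_mul]
      rfl
    rw [h2]
    exact integral_nonneg fun x => by positivity
  have h := discrim_le_zero hq
  unfold discrim at h
  nlinarith

theorem G3_comm (P : ℕ → S2 → ℂ) (s1 s2 : Finset ℕ) : G3 P s1 s2 = G3 P s2 s1 := by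
  ext t
  unfold G3
  congr 1
  ext x
  rw [mul_comm]

/-- the estimate for a product of two blocks -/
theorem u3_pair_le (T : ℝ) (hT : 0 < T) : ∃ C > 0, ∀ (P : ℕ → S2 → ℂ), (∀ n, Har n (P n)) →
    ∀ i j : ℕ, j ≤ i → ∫ t in (0 : ℝ)..T, G3 P (upB i) (upB j) t ≤
      C * ((2 : ℝ) ^ j) ^ (3 / 4 : ℝ) *
        ((∑ n ∈ upB i, N2 (P n)) * (∑ n ∈ upB j, N2 (P n))) := by
  obtain ⟨C1, hC1, h1⟩ := b3_block
  obtain ⟨C2, hC2, h2⟩ := b3_block2
  have hceil : (0 : ℝ) < ⌈T⌉₊ := by exact_mod_cast Nat.ceil_pos.mpr hT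
  set K : ℝ := ⌈T⌉₊ * ((C1 + C2) * (64 * 32 : ℝ) ^ (3 / 4 : ℝ)) with hK
  have hK0 : 0 < K := by positivity
  refine ⟨K, hK0, fun P hP i j hij => ?_⟩
  have hN64 : ∀ i : ℕ, 64 ≤ 64 * 2 ^ i := fun i => by
    have : 1 ≤ 2 ^ i := Nat.one_le_two_pow
    omega
  have hE0 : ∀ i : ℕ, 0 ≤ ∑ n ∈ upB i, N2 (P n) := fun i =>
    Finset.sum_nonneg fun n _ => N2_nonneg _
  have hblock : ∀ i : ℕ, ∫ t in (0 : ℝ)..T, G3 P (upB i) (upB i) t ≤
      ⌈T⌉₊ * (C1 * ((64 * 2 ^ i : ℕ) : ℝ) ^ (3 / 4 : ℝ) *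
        ((∑ n ∈ upB i, N2 (P n)) * (∑ n ∈ upB i, N2 (P n)))) := fun i =>
    u3_T T (s1 := upB i) (s2 := upB i) (fun f hf => h1 (64 * 2 ^ i) f (hN64 i) hf) hP
  by_cases hsep : j + 6 ≤ i
  · have h3 := u3_T T (s1 := upB i) (s2 := upB j)
      (fun f hf => h2 (64 * 2 ^ i) (64 * 2 ^ j) f (hN64 j) (by
        have e : 2 ^ i = 2 ^ (i - (j + 6)) * (2 ^ j * 64) := by
          rw [show (64 : ℕ) = 2 ^ 6 by norm_num, ← pow_add, ← pow_add]
          congr 1
          omega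
        have e2 : 1 ≤ 2 ^ (i - (j + 6)) := Nat.one_le_two_pow
        rw [e]
        nlinarith [Nat.zero_le (2 ^ j)]) hf) hP
    refine h3.trans ?_
    have e1 : (((64 * 2 ^ j : ℕ) : ℝ)) ^ (3 / 4 : ℝ) ≤
        (64 * 32 : ℝ) ^ (3 / 4 : ℝ) * ((2 : ℝ) ^ j) ^ (3 / 4 : ℝ) := by
      rw [← Real.mul_rpow (by norm_num) (by positivity)]
      refine Real.rpow_le_rpow (by positivity) ?_ (by norm_num)
      push_cast
      have : (0 : ℝ) < 2 ^ j := by positivity
      linarith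
    have e2 : C2 ≤ C1 + C2 := by linarith
    have hE := mul_nonneg (hE0 i) (hE0 j)
    calc ⌈T⌉₊ * (C2 * ((64 * 2 ^ j : ℕ) : ℝ) ^ (3 / 4 : ℝ) *
          ((∑ n ∈ upB i, N2 (P n)) * (∑ n ∈ upB j, N2 (P n))))
        ≤ ⌈T⌉₊ * ((C1 + C2) * ((64 * 32 : ℝ) ^ (3 / 4 : ℝ) * ((2 : ℝ) ^ j) ^ (3 / 4 : ℝ)) *
          ((∑ n ∈ upB i, N2 (P n)) * (∑ n ∈ upB j, N2 (P n)))) := by gcongr
      _ = _ := by rw [hK]; ring
  · have hi := hblock i
    have hj := hblock j
    set Ei := ∑ n ∈ upB i, N2 (P n) with hEi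
    set Ej := ∑ n ∈ upB j, N2 (P n) with hEj
    have hEi0 : 0 ≤ Ei := hE0 i
    have hEj0 : 0 ≤ Ej := hE0 j
    have e1 : ∀ k : ℕ, k ≤ j + 5 → (((64 * 2 ^ k : ℕ) : ℝ)) ^ (3 / 4 : ℝ) ≤
        (64 * 32 : ℝ) ^ (3 / 4 : ℝ) * ((2 : ℝ) ^ j) ^ (3 / 4 : ℝ) := by
      intro k hk
      rw [← Real.mul_rpow (by norm_num) (by positivity)]
      refine Real.rpow_le_rpow (by positivity) ?_ (by norm_num)
      push_cast
      have e3 : (2 : ℝ) ^ k ≤ 2 ^ (j + 5) := pow_le_pow_right₀ (by norm_num) hk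
      have e4 : (2 : ℝ) ^ (j + 5) = 32 * 2 ^ j := by rw [pow_add]; norm_num; ring
      linarith
    have hb : ∀ (k : ℕ) (E : ℝ), k ≤ j + 5 → 0 ≤ E →
        ⌈T⌉₊ * (C1 * ((64 * 2 ^ k : ℕ) : ℝ) ^ (3 / 4 : ℝ) * (E * E)) ≤
          K * ((2 : ℝ) ^ j) ^ (3 / 4 : ℝ) * (E * E) := by
      intro k E hk hE
      have e3 := e1 k hk
      have e2 : C1 ≤ C1 + C2 := by linarith
      calc ⌈T⌉₊ * (C1 * ((64 * 2 ^ k : ℕ) : ℝ) ^ (3 / 4 : ℝ) * (E * E))
          ≤ ⌈T⌉₊ * ((C1 + C2) * ((64 * 32 : ℝ) ^ (3 / 4 : ℝ) * ((2 : ℝ) ^ j) ^ (3 / 4 : ℝ)) *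
            (E * E)) := by gcongr
        _ = _ := by rw [hK]; ring
    have hcs := u3_cs (fun n => (hP n).cont) (upB i) (upB j) hT.le
    have hi2 := hi.trans (hb i Ei (by omega) hEi0)
    have hj2 := hj.trans (hb j Ej (by omega) hEj0)
    have hjj0 : 0 ≤ ∫ t in (0 : ℝ)..T, G3 P (upB j) (upB j) t :=
      intervalIntegral.integral_nonneg hT.le fun t _ => G3_nonneg _ _ _ _
    have hX : (∫ t in (0 : ℝ)..T, G3 P (upB i) (upB j) t) ^ 2 ≤
        (K * ((2 : ℝ) ^ j) ^ (3 / 4 : ℝ) * (Ei * Ej)) ^ 2 := by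
      refine hcs.trans ((mul_le_mul hi2 hj2 hjj0 (by positivity)).trans (le_of_eq ?_))
      ring
    have hX0 : 0 ≤ ∫ t in (0 : ℝ)..T, G3 P (upB i) (upB j) t :=
      intervalIntegral.integral_nonneg hT.le fun t _ => G3_nonneg _ _ _ _
    exact (pow_le_pow_iff_left₀ hX0 (by positivity) two_ne_zero).1 hX

theorem u3_pair (T : ℝ) (hT : 0 < T) : ∃ C > 0, ∀ (P : ℕ → S2 → ℂ), (∀ n, Har n (P n)) →
    ∀ i j : ℕ, ∫ t in (0 : ℝ)..T, G3 P (upB i) (upB j) t ≤
      C * ((2 : ℝ) ^ (min i j)) ^ (3 / 4 : ℝ) *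
        ((∑ n ∈ upB i, N2 (P n)) * (∑ n ∈ upB j, N2 (P n))) := by
  obtain ⟨C, hC, h⟩ := u3_pair_le T hT
  refine ⟨C, hC, fun P hP i j => ?_⟩
  rcases le_total i j with hij | hij
  · rw [G3_comm, min_eq_left hij, mul_comm (∑ n ∈ upB i, N2 (P n))]
    exact h P hP j i hij
  · rw [min_eq_right hij]
    exact h P hP i j hij

/-- the square root of the product of two partial sums -/
def R3 (P : ℕ → S2 → ℂ) (s1 s2 : Finset ℕ) (t : ℝ) (x : S2) : ℂ :=
  ((√‖upw P s1 t x * upw P s2 t x‖ : ℝ) : ℂ)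

theorem R3_cont2 {P : ℕ → S2 → ℂ} (hP : ∀ n, Continuous (P n)) (s1 s2 : Finset ℕ) :
    Continuous (fun p : ℝ × S2 => R3 P s1 s2 p.1 p.2) := by
  unfold R3
  exact Complex.continuous_ofReal.comp
    (((upw_cont2 hP s1).mul (upw_cont2 hP s2)).norm.sqrt)

theorem R3_cont {P : ℕ → S2 → ℂ} (hP : ∀ n, Continuous (P n)) (s1 s2 : Finset ℕ) (t : ℝ) :
    Continuous (R3 P s1 s2 t) := by
  unfold R3
  exact Complex.continuous_ofReal.comp (((upw_cont hP s1 t).mul (upw_cont hP s2 t)).norm.sqrt)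

theorem R3_norm (P : ℕ → S2 → ℂ) (s1 s2 : Finset ℕ) (t : ℝ) (x : S2) :
    ‖R3 P s1 s2 t x‖ ^ 2 = ‖upw P s1 t x * upw P s2 t x‖ := by
  unfold R3
  rw [Complex.norm_real, Real.norm_of_nonneg (Real.sqrt_nonneg _), Real.sq_sqrt (norm_nonneg _)]

theorem R3_N2 {P : ℕ → S2 → ℂ} (hP : ∀ n, Har n (P n)) (s1 s2 : Finset ℕ) (t : ℝ) :
    N2 (R3 P s1 s2 t) ≤ √((∑ n ∈ s1, N2 (P n)) * (∑ n ∈ s2, N2 (P n))) := by
  have hc : ∀ n, Continuous (P n) := fun n => (hP n).cont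
  have h1 : N2 (R3 P s1 s2 t) = ∫ x, ‖upw P s1 t x * upw P s2 t x‖ ∂σ := by
    unfold N2
    simp only [R3_norm]
  rw [h1]
  refine Real.le_sqrt_of_sq_le ?_
  have h2 := cs_real (upw_cont hc s1 t).norm (upw_cont hc s2 t).norm
  have h3 := upw_N2 hP s1 t
  have h4 := upw_N2 hP s2 t
  unfold N2 at h3 h4 ⊢
  rw [h3, h4] at h2
  simpa only [norm_mul] using h2

/-- the mixed norm of a product of two blocks -/
theorem u3_mixed {T : ℝ} (hT : 0 < T) {q P' : ℝ≥0∞} (hqt : q ≠ ⊤) (hPt : P' ≠ ⊤)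
    (hq2 : 2 < q.toReal) (hq4 : q.toReal ≤ 4)
    (hP' : P'.toReal = 2 * q.toReal / (q.toReal - 2)) {P : ℕ → S2 → ℂ} (hP : ∀ n, Har n (P n))
    (s1 s2 : Finset ℕ) {B : ℝ} (hB : 0 ≤ B) (h : ∫ t in (0 : ℝ)..T, G3 P s1 s2 t ≤
      B * ((∑ n ∈ s1, N2 (P n)) * (∑ n ∈ s2, N2 (P n)))) :
    eLpNorm (fun t => eLpNorm (R3 P s1 s2 t) q σ) P' (volume.restrict (Set.Icc 0 T)) ≤
      ENNReal.ofReal (B ^ (1 / P'.toReal) *
        √(√((∑ n ∈ s1, N2 (P n)) * (∑ n ∈ s2, N2 (P n))))) := by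
  have hc : ∀ n, Continuous (P n) := fun n => (hP n).cont
  have h0 : 0 ≤ (∑ n ∈ s1, N2 (P n)) * (∑ n ∈ s2, N2 (P n)) :=
    mul_nonneg (Finset.sum_nonneg fun n _ => N2_nonneg _)
      (Finset.sum_nonneg fun n _ => N2_nonneg _)
  refine up_mixed hqt hPt hq2 hq4 hP' (R3_cont2 hc s1 s2) (R3_cont hc s1 s2)
    (Real.sqrt_nonneg _) hB hT.le (R3_N2 hP s1 s2) ?_
  rw [Real.sq_sqrt h0]
  refine le_trans (le_of_eq ?_) h
  congr 1
  ext t
  unfold G3
  congr 1
  ext x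
  rw [← R3_norm]
  ring

/-- the `L^q` norm of a sum of blocks -/
theorem u3_norm_sum {P : ℕ → S2 → ℂ} (hP : ∀ n, Continuous (P n)) {q : ℝ≥0∞} (hq : 2 ≤ q)
    (K : ℕ) (t : ℝ) :
    eLpNorm (fun x => ∑ j ∈ Finset.range K, upw P (upB j) t x) q σ ^ (2 : ℝ) ≤
      ∑ i ∈ Finset.range K, ∑ j ∈ Finset.range K,
        eLpNorm (R3 P (upB i) (upB j) t) q σ ^ (2 : ℝ) := by
  have hq2 : q / 2 * ENNReal.ofReal 2 = q := by
    rw [ENNReal.ofReal_ofNat]
    exact ENNReal.div_mul_cancel (by norm_num) (by norm_num)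
  have hq1 : 1 ≤ q / 2 := by
    rw [ENNReal.le_div_iff_mul_le (by norm_num) (by norm_num)]
    simpa using hq
  have e1 : ∀ v : S2 → ℂ, eLpNorm v q σ ^ (2 : ℝ) =
      eLpNorm (fun x => ‖v x‖ ^ (2 : ℝ)) (q / 2) σ := by
    intro v
    rw [eLpNorm_norm_rpow v (by norm_num : (0 : ℝ) < 2), hq2]
  simp only [e1]
  have e2 : ∀ i j, (fun x => ‖R3 P (upB i) (upB j) t x‖ ^ (2 : ℝ)) =
      fun x => ‖upw P (upB i) t x * upw P (upB j) t x‖ := by
    intro i j
    ext x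
    rw [Real.rpow_two, R3_norm]
  simp only [e2]
  have hm : ∀ i j, AEStronglyMeasurable
      (fun x => ‖upw P (upB i) t x * upw P (upB j) t x‖) σ := fun i j =>
    ((upw_cont hP _ t).mul (upw_cont hP _ t)).norm.aestronglyMeasurable
  calc eLpNorm (fun x => ‖∑ j ∈ Finset.range K, upw P (upB j) t x‖ ^ (2 : ℝ)) (q / 2) σ
      ≤ eLpNorm (∑ i ∈ Finset.range K, ∑ j ∈ Finset.range K,
          fun x => ‖upw P (upB i) t x * upw P (upB j) t x‖) (q / 2) σ := by
        refine eLpNorm_mono fun x => ?_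
        have h1 : ‖∑ j ∈ Finset.range K, upw P (upB j) t x‖ ^ (2 : ℝ) ≤
            (∑ j ∈ Finset.range K, ‖upw P (upB j) t x‖) ^ 2 := by
          rw [Real.rpow_two]
          exact pow_le_pow_left₀ (norm_nonneg _) (norm_sum_le _ _) 2
        have h2 : (∑ j ∈ Finset.range K, ‖upw P (upB j) t x‖) ^ 2 =
            ∑ i ∈ Finset.range K, ∑ j ∈ Finset.range K,
              ‖upw P (upB i) t x * upw P (upB j) t x‖ := by
          rw [sq, Finset.sum_mul_sum]
          simp only [norm_mul]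
        rw [Real.norm_of_nonneg (by positivity), Real.norm_of_nonneg (by
          simp only [Finset.sum_apply]
          exact Finset.sum_nonneg fun i _ => Finset.sum_nonneg fun j _ => norm_nonneg _)]
        simp only [Finset.sum_apply]
        rw [← h2]
        exact h1
    _ ≤ ∑ i ∈ Finset.range K, eLpNorm (∑ j ∈ Finset.range K,
          fun x => ‖upw P (upB i) t x * upw P (upB j) t x‖) (q / 2) σ :=
        eLpNorm_sum_le (fun i _ => Finset.aestronglyMeasurable_sum _ fun j _ => hm i j) hq1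
    _ ≤ _ := Finset.sum_le_sum fun i _ => eLpNorm_sum_le (fun j _ => hm i j) hq1

/-! ### summation over the blocks -/

theorem u3_row {r : ℝ} (h0 : 0 ≤ r) (h1 : r < 1) (K i : ℕ) :
    ∑ j ∈ Finset.range K, r ^ ((i - j) + (j - i)) ≤ 2 / (1 - r) := by
  have hs := summable_geometric_of_lt_one h0 h1
  have ht := tsum_geometric_of_lt_one h0 h1
  have e1 : ∑ j ∈ (Finset.range K).filter (fun j => j ≤ i), r ^ ((i - j) + (j - i)) ≤
      (1 - r)⁻¹ := by
    rw [← ht]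
    have e2 : ∑ j ∈ (Finset.range K).filter (fun j => j ≤ i), r ^ ((i - j) + (j - i)) =
        ∑ k ∈ ((Finset.range K).filter (fun j => j ≤ i)).image (fun j => i - j), r ^ k := by
      rw [Finset.sum_image]
      · refine Finset.sum_congr rfl fun j hj => ?_
        have := (Finset.mem_filter.1 hj).2
        congr 1
        omega
      · intro a ha b hb hab
        have h3 := (Finset.mem_filter.1 ha).2
        have h4 := (Finset.mem_filter.1 hb).2
        simp only at hab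
        omega
    rw [e2]
    exact hs.sum_le_tsum _ fun k _ => by positivity
  have e3 : ∑ j ∈ (Finset.range K).filter (fun j => ¬ j ≤ i), r ^ ((i - j) + (j - i)) ≤
      (1 - r)⁻¹ := by
    rw [← ht]
    have e2 : ∑ j ∈ (Finset.range K).filter (fun j => ¬ j ≤ i), r ^ ((i - j) + (j - i)) =
        ∑ k ∈ ((Finset.range K).filter (fun j => ¬ j ≤ i)).image (fun j => j - i), r ^ k := by
      rw [Finset.sum_image]
      · refine Finset.sum_congr rfl fun j hj => ?_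
        have := (Finset.mem_filter.1 hj).2
        congr 1
        omega
      · intro a ha b hb hab
        have h3 := (Finset.mem_filter.1 ha).2
        have h4 := (Finset.mem_filter.1 hb).2
        simp only at hab
        omega
    rw [e2]
    exact hs.sum_le_tsum _ fun k _ => by positivity
  rw [← Finset.sum_filter_add_sum_filter_not (Finset.range K) (fun j => j ≤ i)]
  refine (add_le_add e1 e3).trans (le_of_eq ?_)
  rw [div_eq_mul_inv]
  ring

theorem u3_schur {r : ℝ} (h0 : 0 ≤ r) (h1 : r < 1) (K : ℕ) (b : ℕ → ℝ) :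
    ∑ i ∈ Finset.range K, ∑ j ∈ Finset.range K, r ^ ((i - j) + (j - i)) * (b i * b j) ≤
      2 / (1 - r) * ∑ i ∈ Finset.range K, b i ^ 2 := by
  have e1 : ∀ i j : ℕ, r ^ ((i - j) + (j - i)) * (b i * b j) ≤
      1 / 2 * (r ^ ((i - j) + (j - i)) * b i ^ 2) +
        1 / 2 * (r ^ ((j - i) + (i - j)) * b j ^ 2) := by
    intro i j
    have h2 : 0 ≤ r ^ ((i - j) + (j - i)) := by positivity
    rw [add_comm (j - i) (i - j)]
    nlinarith [mul_nonneg h2 (sq_nonneg (b i - b j))]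
  have e2 : ∑ i ∈ Finset.range K, ∑ j ∈ Finset.range K, r ^ ((i - j) + (j - i)) * b i ^ 2 ≤
      2 / (1 - r) * ∑ i ∈ Finset.range K, b i ^ 2 := by
    rw [Finset.mul_sum]
    refine Finset.sum_le_sum fun i _ => ?_
    rw [← Finset.sum_mul]
    exact mul_le_mul_of_nonneg_right (u3_row h0 h1 K i) (sq_nonneg _)
  calc ∑ i ∈ Finset.range K, ∑ j ∈ Finset.range K, r ^ ((i - j) + (j - i)) * (b i * b j)
      ≤ ∑ i ∈ Finset.range K, ∑ j ∈ Finset.range K,
        (1 / 2 * (r ^ ((i - j) + (j - i)) * b i ^ 2) +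
          1 / 2 * (r ^ ((j - i) + (i - j)) * b j ^ 2)) :=
        Finset.sum_le_sum fun i _ => Finset.sum_le_sum fun j _ => e1 i j
    _ = 1 / 2 * (∑ i ∈ Finset.range K, ∑ j ∈ Finset.range K,
          r ^ ((i - j) + (j - i)) * b i ^ 2) +
        1 / 2 * (∑ j ∈ Finset.range K, ∑ i ∈ Finset.range K,
          r ^ ((j - i) + (i - j)) * b j ^ 2) := by
        simp only [Finset.sum_add_distrib, ← Finset.mul_sum]
        congr 2
        exact Finset.sum_comm
    _ ≤ 1 / 2 * (2 / (1 - r) * ∑ i ∈ Finset.range K, b i ^ 2) +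
        1 / 2 * (2 / (1 - r) * ∑ i ∈ Finset.range K, b i ^ 2) := by gcongr
    _ = _ := by ring

theorem u3_union (g : ℕ → ℝ≥0∞) (K : ℕ) :
    ∑ j ∈ Finset.range K, ∑ n ∈ upB j, g n = ∑ n ∈ Finset.Ico 64 (64 * 2 ^ K), g n := by
  induction K with
  | zero => simp
  | succ K ih =>
    rw [Finset.sum_range_succ, ih]
    unfold upB
    have e : 64 * 2 ^ (K + 1) = 2 * (64 * 2 ^ K) := by ring
    rw [e]
    have h1 : 1 ≤ 2 ^ K := Nat.one_le_two_pow
    exact Finset.sum_Ico_consecutive g (by omega) (by omega)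

/-- the Sobolev norm controls the square sum over the blocks -/
theorem u3_Hs {s0 s : ℝ} (h0 : 0 ≤ s0) (hs : s0 ≤ s) {f : S2 → ℂ} (hf : Continuous f) (K : ℕ) :
    ENNReal.ofReal (∑ j ∈ Finset.range K, ((2 : ℝ) ^ j) ^ (2 * s0) *
      ∑ n ∈ upB j, N2 (proj n f)) ≤ Hs s f ^ (2 : ℝ) := by
  have e1 : Hs s f ^ (2 : ℝ) =
      ∑' n : ℕ, ENNReal.ofReal ((1 + n : ℝ) ^ (2 * s)) * eLpNorm (proj n f) 2 σ ^ 2 := by
    unfold Hs
    rw [← ENNReal.rpow_mul]
    norm_num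
  rw [e1]
  refine le_trans ?_ (ENNReal.sum_le_tsum (Finset.Ico 64 (64 * 2 ^ K)))
  rw [← u3_union, ENNReal.ofReal_sum_of_nonneg (fun j _ => mul_nonneg (by positivity)
    (Finset.sum_nonneg fun n _ => N2_nonneg _))]
  refine Finset.sum_le_sum fun j _ => ?_
  rw [Finset.mul_sum, ENNReal.ofReal_sum_of_nonneg
    (fun n _ => mul_nonneg (by positivity) (N2_nonneg _))]
  refine Finset.sum_le_sum fun n hn => ?_
  rw [up_eLp2 (proj_cont n hf), ← ENNReal.ofReal_mul (by positivity)]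
  refine ENNReal.ofReal_le_ofReal (mul_le_mul_of_nonneg_right ?_ (N2_nonneg _))
  have h1 : 64 * 2 ^ j ≤ n := (Finset.mem_Ico.1 hn).1
  have h2 : (64 : ℝ) * 2 ^ j ≤ n := by exact_mod_cast h1
  have h3 : (1 : ℝ) ≤ 2 ^ j := one_le_pow₀ (by norm_num)
  calc ((2 : ℝ) ^ j) ^ (2 * s0) ≤ (1 + n : ℝ) ^ (2 * s0) :=
        Real.rpow_le_rpow (by positivity) (by linarith) (by linarith)
    _ ≤ (1 + n : ℝ) ^ (2 * s) := Real.rpow_le_rpow_of_exponent_le (by linarith) (by linarith)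

/-! ### the mixed norm of the sum of the blocks -/

/-- the sum of the norms of the products of blocks -/
def D3 (P : ℕ → S2 → ℂ) (q : ℝ≥0∞) (K : ℕ) (t : ℝ) : ℝ≥0∞ :=
  ∑ i ∈ Finset.range K, ∑ j ∈ Finset.range K, eLpNorm (R3 P (upB i) (upB j) t) q σ ^ (2 : ℝ)

theorem D3_mono (P : ℕ → S2 → ℂ) (q : ℝ≥0∞) : Monotone (D3 P q) := by
  refine monotone_nat_of_le_succ fun K t => ?_
  unfold D3
  calc ∑ i ∈ Finset.range K, ∑ j ∈ Finset.range K, eLpNorm (R3 P (upB i) (upB j) t) q σ ^ (2 : ℝ)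
      ≤ ∑ i ∈ Finset.range K, ∑ j ∈ Finset.range (K + 1),
          eLpNorm (R3 P (upB i) (upB j) t) q σ ^ (2 : ℝ) :=
        Finset.sum_le_sum fun i _ => Finset.sum_le_sum_of_subset
          (Finset.range_mono (Nat.le_succ K))
    _ ≤ _ := Finset.sum_le_sum_of_subset (Finset.range_mono (Nat.le_succ K))

theorem D3_meas {P : ℕ → S2 → ℂ} (hP : ∀ n, Continuous (P n)) {q : ℝ≥0∞} (hq0 : q ≠ 0)
    (hqt : q ≠ ⊤) (K : ℕ) : Measurable (D3 P q K) := by
  unfold D3
  exact Finset.measurable_fun_sum _ fun i _ => Finset.measurable_fun_sum _ fun j _ =>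
    (up_meas hq0 hqt (R3_cont2 hP _ _)).pow_const _

theorem u3_D {T : ℝ} (hT : 0 < T) {q P' : ℝ≥0∞} (hqt : q ≠ ⊤) (hPt : P' ≠ ⊤)
    (hq2 : 2 < q.toReal) (hq4 : q.toReal ≤ 4)
    (hP' : P'.toReal = 2 * q.toReal / (q.toReal - 2)) {s : ℝ} (hs : 3 / (4 * P'.toReal) ≤ s) :
    ∃ C : ℝ≥0, ∀ f : S2 → ℂ, Continuous f → ∀ K : ℕ,
      eLpNorm (fun t => D3 (fun n => proj n f) q K t ^ (1 / 2 : ℝ)) P'
        (volume.restrict (Set.Icc 0 T)) ≤ C * Hs s f := by
  obtain ⟨C, hC, hpair⟩ := u3_pair T hT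
  have hq0 : q ≠ 0 := by rintro rfl; simp at hq2; linarith
  have hqm : 0 < q.toReal - 2 := by linarith
  have hPpos : 0 < P'.toReal := by rw [hP']; positivity
  have hP4 : 4 ≤ P'.toReal := by
    rw [hP', le_div_iff₀ hqm]
    linarith
  set s0 : ℝ := 3 / (4 * P'.toReal) with hs0
  have hs0pos : 0 < s0 := by positivity
  set r : ℝ := (2 : ℝ) ^ (-s0) with hr
  have hr0 : 0 ≤ r := by positivity
  have hr1 : r < 1 := Real.rpow_lt_one_of_one_lt_of_neg one_lt_two (by linarith)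
  set κ : ℝ := C ^ (2 / P'.toReal) * (2 / (1 - r)) with hκ
  have hκ0 : 0 ≤ κ := by
    have : 0 < 1 - r := by linarith
    positivity
  refine ⟨(ENNReal.ofReal κ ^ (1 / 2 : ℝ)).toNNReal, fun f hf K => ?_⟩
  rw [ENNReal.coe_toNNReal (ENNReal.rpow_ne_top_of_nonneg (by norm_num) ENNReal.ofReal_ne_top)]
  set Pn : ℕ → S2 → ℂ := fun n => proj n f with hPn
  have hhar : ∀ n, Har n (Pn n) := fun n => proj_har n hf
  have hcont : ∀ n, Continuous (Pn n) := fun n => (hhar n).cont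
  set μT : Measure ℝ := volume.restrict (Set.Icc 0 T) with hμT
  -- the exponent `P'/2`
  set p2 : ℝ≥0∞ := P' * ENNReal.ofReal (1 / 2) with hp2
  have hp22 : p2 * ENNReal.ofReal 2 = P' := by
    rw [hp2, mul_assoc, ← ENNReal.ofReal_mul (by norm_num)]
    norm_num
  have hp21 : 1 ≤ p2 := by
    rw [hp2, ← ENNReal.ofReal_toReal hPt, ← ENNReal.ofReal_mul ENNReal.toReal_nonneg,
      ← ENNReal.ofReal_one]
    exact ENNReal.ofReal_le_ofReal (by linarith)
  set E : ℕ → ℝ := fun j => ∑ n ∈ upB j, N2 (Pn n) with hE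
  have hE0 : ∀ j, 0 ≤ E j := fun j => Finset.sum_nonneg fun n _ => N2_nonneg _
  -- the pairs
  have h1 : ∀ i j, eLpNorm (fun t => eLpNorm (R3 Pn (upB i) (upB j) t) q σ ^ (2 : ℝ)) p2 μT ≤
      ENNReal.ofReal (C ^ (2 / P'.toReal) * (r ^ ((i - j) + (j - i)) *
        ((((2 : ℝ) ^ i) ^ s0 * √(E i)) * (((2 : ℝ) ^ j) ^ s0 * √(E j))))) := by
    intro i j
    have e1 := eLpNorm_enorm_rpow (μ := μT) (p := p2)
      (fun t => eLpNorm (R3 Pn (upB i) (upB j) t) q σ) (by norm_num : (0 : ℝ) < 2)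
    simp only [enorm_eq_self] at e1
    rw [e1, hp22]
    have hB : 0 ≤ C * ((2 : ℝ) ^ (min i j)) ^ (3 / 4 : ℝ) := by positivity
    have e2 := u3_mixed hT hqt hPt hq2 hq4 hP' hhar (upB i) (upB j) hB (hpair Pn hhar i j)
    refine (ENNReal.rpow_le_rpow e2 (by norm_num)).trans (le_of_eq ?_)
    rw [ENNReal.ofReal_rpow_of_nonneg (by positivity) (by norm_num)]
    congr 1
    rw [Real.mul_rpow (by positivity) (by positivity), Real.rpow_two (√_), Real.sq_sqrt
      (Real.sqrt_nonneg _), Real.sqrt_mul (hE0 i), ← Real.rpow_mul hB,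
      Real.mul_rpow hC.le (by positivity)]
    have e3 : 1 / P'.toReal * 2 = 2 / P'.toReal := by ring
    have e4 : (((2 : ℝ) ^ (min i j)) ^ (3 / 4 : ℝ)) ^ (2 / P'.toReal) =
        r ^ ((i - j) + (j - i)) * (((2 : ℝ) ^ i) ^ s0 * ((2 : ℝ) ^ j) ^ s0) := by
      rw [hr]
      simp only [← Real.rpow_natCast, ← Real.rpow_mul (show (0 : ℝ) ≤ 2 by norm_num)]
      rw [← Real.rpow_add (by norm_num), ← Real.rpow_add (by norm_num)]
      congr 1
      have e5 : (3 / 4 : ℝ) * (2 / P'.toReal) = 2 * s0 := by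
        rw [hs0]
        field_simp
      have e6 : ((((i - j) + (j - i) : ℕ)) : ℝ) + 2 * (min i j : ℕ) = i + j := by
        have : (i - j) + (j - i) + 2 * (min i j) = i + j := by omega
        exact_mod_cast this
      have e7 : ((min i j : ℕ) : ℝ) * (3 / 4) * (2 / P'.toReal) = (min i j : ℕ) * (2 * s0) := by
        rw [mul_assoc, e5]
      rw [e7]
      linear_combination s0 * e6
    rw [e3, e4]
    ring
  -- the sum
  have h2 : eLpNorm (D3 Pn q K) p2 μT ≤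
      ENNReal.ofReal κ * Hs s f ^ (2 : ℝ) := by
    have e1 : D3 Pn q K = ∑ i ∈ Finset.range K, ∑ j ∈ Finset.range K,
        fun t => eLpNorm (R3 Pn (upB i) (upB j) t) q σ ^ (2 : ℝ) := by
      ext t
      simp only [D3, Finset.sum_apply]
    have hm : ∀ i j, AEStronglyMeasurable
        (fun t => eLpNorm (R3 Pn (upB i) (upB j) t) q σ ^ (2 : ℝ)) μT := fun i j =>
      ((up_meas hq0 hqt (R3_cont2 hcont _ _)).pow_const _).aestronglyMeasurable
    rw [e1]
    calc eLpNorm (∑ i ∈ Finset.range K, ∑ j ∈ Finset.range K,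
          fun t => eLpNorm (R3 Pn (upB i) (upB j) t) q σ ^ (2 : ℝ)) p2 μT
        ≤ ∑ i ∈ Finset.range K, eLpNorm (∑ j ∈ Finset.range K,
          fun t => eLpNorm (R3 Pn (upB i) (upB j) t) q σ ^ (2 : ℝ)) p2 μT :=
          eLpNorm_sum_le (fun i _ => Finset.aestronglyMeasurable_sum _ fun j _ => hm i j) hp21
      _ ≤ ∑ i ∈ Finset.range K, ∑ j ∈ Finset.range K, eLpNorm
          (fun t => eLpNorm (R3 Pn (upB i) (upB j) t) q σ ^ (2 : ℝ)) p2 μT :=
          Finset.sum_le_sum fun i _ => eLpNorm_sum_le (fun j _ => hm i j) hp21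
      _ ≤ ∑ i ∈ Finset.range K, ∑ j ∈ Finset.range K, ENNReal.ofReal
          (C ^ (2 / P'.toReal) * (r ^ ((i - j) + (j - i)) *
            ((((2 : ℝ) ^ i) ^ s0 * √(E i)) * (((2 : ℝ) ^ j) ^ s0 * √(E j))))) :=
          Finset.sum_le_sum fun i _ => Finset.sum_le_sum fun j _ => h1 i j
      _ = ENNReal.ofReal (C ^ (2 / P'.toReal) * ∑ i ∈ Finset.range K, ∑ j ∈ Finset.range K,
          (r ^ ((i - j) + (j - i)) *
            ((((2 : ℝ) ^ i) ^ s0 * √(E i)) * (((2 : ℝ) ^ j) ^ s0 * √(E j))))) := by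
          rw [Finset.mul_sum, ENNReal.ofReal_sum_of_nonneg (fun i _ => mul_nonneg (by positivity)
            (Finset.sum_nonneg fun j _ => by positivity))]
          refine Finset.sum_congr rfl fun i _ => ?_
          rw [Finset.mul_sum, ENNReal.ofReal_sum_of_nonneg (fun j _ => by positivity)]
      _ ≤ ENNReal.ofReal (C ^ (2 / P'.toReal) * (2 / (1 - r) * ∑ j ∈ Finset.range K,
          (((2 : ℝ) ^ j) ^ s0 * √(E j)) ^ 2)) := by
          refine ENNReal.ofReal_le_ofReal (mul_le_mul_of_nonneg_left ?_ (by positivity))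
          exact u3_schur hr0 hr1 K fun j => ((2 : ℝ) ^ j) ^ s0 * √(E j)
      _ = ENNReal.ofReal κ * ENNReal.ofReal (∑ j ∈ Finset.range K,
          ((2 : ℝ) ^ j) ^ (2 * s0) * E j) := by
          rw [← ENNReal.ofReal_mul hκ0, hκ, mul_assoc]
          congr 4
          ext j
          rw [mul_pow, Real.sq_sqrt (hE0 j), ← Real.rpow_natCast, ← Real.rpow_mul (by positivity),
            mul_comm s0]
          norm_num
      _ ≤ _ := mul_le_mul_right (u3_Hs hs0pos.le hs hf K) _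
  -- the square root
  have e1 := eLpNorm_enorm_rpow (μ := μT) (p := P') (D3 Pn q K) (by norm_num : (0 : ℝ) < 1 / 2)
  simp only [enorm_eq_self] at e1
  rw [e1]
  refine (ENNReal.rpow_le_rpow h2 (by norm_num)).trans (le_of_eq ?_)
  rw [ENNReal.mul_rpow_of_nonneg _ _ (by norm_num), ← ENNReal.rpow_mul]
  norm_num

/-- the endpoint Strichartz estimates -/
theorem upper3 (p q : ℝ≥0∞) (hq : 2 ≤ q) (hq4 : q ≤ 4) (hpq : 1 / 2 ≤ p⁻¹ + q⁻¹) (hp : 1 ≤ p)
    (s : ℝ) (hs : 3 / 4 * (1 / 2 - (q⁻¹).toReal) ≤ s) : Strichartz p q s := by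
  intro T hT
  have hqt : q ≠ ⊤ := (hq4.trans_lt (by norm_num)).ne
  have hq0 : q ≠ 0 := (lt_of_lt_of_le (by norm_num) hq).ne'
  have hq1 : 1 ≤ q := le_trans (by norm_num) hq
  have hqr2 : 2 ≤ q.toReal := by
    have := ENNReal.toReal_mono hqt hq
    simpa using this
  have hqr4 : q.toReal ≤ 4 := by
    have := ENNReal.toReal_mono (by norm_num) hq4
    simpa using this
  rw [ENNReal.toReal_inv] at hs
  have hs0 : 0 ≤ s := by
    have : (q.toReal)⁻¹ ≤ 2⁻¹ := inv_anti₀ (by norm_num) hqr2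
    norm_num at this hs ⊢
    linarith
  rcases eq_or_lt_of_le hq with h | h
  · -- `q = 2`
    subst h
    have hfin : (volume.restrict (Set.Icc 0 T)) Set.univ ^ p.toReal⁻¹ ≠ ⊤ :=
      ENNReal.rpow_ne_top_of_nonneg (by positivity) (measure_ne_top _ _)
    refine ⟨((volume.restrict (Set.Icc 0 T)) Set.univ ^ p.toReal⁻¹).toNNReal,
      fun f hf u hu => ?_⟩
    have hc := hf.continuous
    have hb : ∀ t, eLpNorm (u t) 2 σ ≤ Hs s f := fun t => up_flow hc hu t (fun K => by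
      rw [up_eLp2' (upw_cont (fun n => proj_cont n hc) _ t), upw_N2 (fun n => proj_har n hc)]
      exact up_Hs_zero s hs0 hc _)
    have h1 := eLpNorm_le_of_ae_enorm_bound (μ := volume.restrict (Set.Icc 0 T)) (p := p)
      (f := fun t => eLpNorm (u t) 2 σ) (C := Hs s f)
      (Eventually.of_forall fun t => by simpa using hb t)
    refine h1.trans (le_of_eq ?_)
    rw [ENNReal.coe_toNNReal hfin, smul_eq_mul, mul_comm]
  · -- `q > 2`
    have hqr : 2 < q.toReal := by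
      have := (ENNReal.toReal_lt_toReal (by norm_num) hqt).mpr h
      simpa using this
    have hqm : 0 < q.toReal - 2 := by linarith
    set P : ℝ≥0∞ := ENNReal.ofReal (2 * q.toReal / (q.toReal - 2)) with hPdef
    have hPt : P ≠ ⊤ := ENNReal.ofReal_ne_top
    have hPr : P.toReal = 2 * q.toReal / (q.toReal - 2) :=
      ENNReal.toReal_ofReal (by positivity)
    have hPpos : 0 < P.toReal := by rw [hPr]; positivity
    have hP0 : P ≠ 0 := by rintro h0; rw [h0] at hPpos; simp at hPpos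
    have hs' : 3 / (4 * P.toReal) ≤ s := by
      refine le_trans (le_of_eq ?_) hs
      rw [hPr]
      field_simp
    have hpt : p ≠ ⊤ := by
      rintro rfl
      rw [ENNReal.inv_top, zero_add] at hpq
      have h1 := ENNReal.toReal_mono (ENNReal.inv_ne_top.mpr hq0) hpq
      rw [ENNReal.toReal_inv] at h1
      have h2 : (q.toReal)⁻¹ < 2⁻¹ := inv_strictAnti₀ (by norm_num) hqr
      norm_num at h1 h2
      linarith
    have hp0 : p ≠ 0 := (lt_of_lt_of_le one_pos hp).ne'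
    have hpr1 : 1 ≤ p.toReal := by
      have := ENNReal.toReal_mono hpt hp
      simpa using this
    have hpP : p ≤ P := by
      rw [← ENNReal.ofReal_toReal hpt, hPdef]
      refine ENNReal.ofReal_le_ofReal ?_
      have h1 := ENNReal.toReal_mono
        (ENNReal.add_ne_top.mpr ⟨ENNReal.inv_ne_top.mpr hp0, ENNReal.inv_ne_top.mpr hq0⟩) hpq
      rw [ENNReal.toReal_add (ENNReal.inv_ne_top.mpr hp0) (ENNReal.inv_ne_top.mpr hq0),
        ENNReal.toReal_inv, ENNReal.toReal_inv] at h1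
      have h2 : (1 : ℝ) / 2 ≤ (p.toReal)⁻¹ + (q.toReal)⁻¹ := by simpa using h1
      rw [le_div_iff₀ hqm]
      have hp' : 0 < p.toReal := by linarith
      have hq' : 0 < q.toReal := by linarith
      have h3 : p.toReal * q.toReal * ((p.toReal)⁻¹ + (q.toReal)⁻¹) = q.toReal + p.toReal := by
        field_simp
      have h4 : p.toReal * q.toReal * (1 / 2) ≤ q.toReal + p.toReal := by
        rw [← h3]
        exact mul_le_mul_of_nonneg_left h2 (by positivity)
      nlinarith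
    obtain ⟨CD, hD⟩ := u3_D hT hqt hPt hqr hqr4 hPr hs'
    obtain ⟨Cl, hlow⟩ := up_low q hs0
    set μT : Measure ℝ := volume.restrict (Set.Icc 0 T) with hμT
    set c1 : ℝ≥0∞ := (Cl * μT Set.univ ^ P.toReal⁻¹ + CD) with hc1
    set c2 : ℝ≥0∞ := μT Set.univ ^ (1 / p.toReal - 1 / P.toReal) with hc2
    have hpPr : p.toReal ≤ P.toReal := ENNReal.toReal_mono hPt hpP
    have hc1t : c1 ≠ ⊤ := ENNReal.add_ne_top.mpr ⟨ENNReal.mul_ne_top ENNReal.coe_ne_top
      (ENNReal.rpow_ne_top_of_nonneg (by positivity) (measure_ne_top _ _)),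
      ENNReal.coe_ne_top⟩
    have hc2t : c2 ≠ ⊤ := by
      refine ENNReal.rpow_ne_top_of_nonneg ?_ (measure_ne_top _ _)
      have : 1 / P.toReal ≤ 1 / p.toReal := one_div_le_one_div_of_le (by linarith) hpPr
      linarith
    refine ⟨(c1 * c2).toNNReal, fun f hf u hu => ?_⟩
    rw [ENNReal.coe_toNNReal (ENNReal.mul_ne_top hc1t hc2t)]
    have hc := hf.continuous
    set Pn : ℕ → S2 → ℂ := fun n => proj n f with hPn
    have hcont : ∀ n, Continuous (Pn n) := fun n => proj_cont n hc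
    -- the majorant
    set S : ℕ → ℝ → ℝ≥0∞ := fun K t => eLpNorm (upw Pn (Finset.range 64) t) q σ +
      D3 Pn q K t ^ (1 / 2 : ℝ) with hS
    have hlowm : Measurable (fun t => eLpNorm (upw Pn (Finset.range 64) t) q σ) :=
      up_meas hq0 hqt (upw_cont2 hcont _)
    have hDm : ∀ K, Measurable (fun t => D3 Pn q K t ^ (1 / 2 : ℝ)) := fun K =>
      (D3_meas hcont hq0 hqt K).pow_const _
    have hmeas : ∀ K, Measurable (S K) := fun K => hlowm.add (hDm K)
    have hmono : Monotone S := fun i j hij t =>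
      add_le_add le_rfl (ENNReal.rpow_le_rpow (D3_mono Pn q hij t) (by norm_num))
    have hpart : ∀ K t, eLpNorm (upw Pn (Finset.range (64 * 2 ^ K)) t) q σ ≤ S K t := by
      intro K t
      have e1 : upw Pn (Finset.range (64 * 2 ^ K)) t = upw Pn (Finset.range 64) t +
          fun x => ∑ j ∈ Finset.range K, upw Pn (upB j) t x := by
        induction K with
        | zero => ext x; simp
        | succ K ih =>
          rw [up_split, ih]
          ext x
          simp only [Pi.add_apply, Finset.sum_range_succ]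
          ring
      rw [e1]
      refine (eLpNorm_add_le (upw_cont hcont _ t).aestronglyMeasurable
        (continuous_finsetSum _ fun j _ => upw_cont hcont _ t).aestronglyMeasurable hq1).trans ?_
      refine add_le_add le_rfl ?_
      have h1 := u3_norm_sum hcont hq K t
      have h2 := ENNReal.rpow_le_rpow h1 (z := 1 / 2) (by norm_num)
      rw [← ENNReal.rpow_mul] at h2
      norm_num at h2
      simpa [D3] using h2
    have hSb : ∀ K, eLpNorm (S K) P μT ≤ c1 * Hs s f := by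
      intro K
      have e1 : S K = (fun t => eLpNorm (upw Pn (Finset.range 64) t) q σ) +
          fun t => D3 Pn q K t ^ (1 / 2 : ℝ) := by
        ext t
        simp only [hS, Pi.add_apply]
      rw [e1]
      refine (eLpNorm_add_le hlowm.aestronglyMeasurable (hDm K).aestronglyMeasurable
        (hp.trans hpP)).trans ?_
      rw [hc1, add_mul]
      refine add_le_add ?_ (hD f hc K)
      have := eLpNorm_le_of_ae_enorm_bound (μ := μT) (p := P)
        (f := fun t => eLpNorm (upw Pn (Finset.range 64) t) q σ) (C := Cl * Hs s f)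
        (Eventually.of_forall fun t => by simpa using hlow f hc t)
      refine this.trans (le_of_eq ?_)
      rw [smul_eq_mul]
      ring
    have hGm : Measurable (fun t => ⨆ K, S K t) := Measurable.iSup hmeas
    have h1 : ∀ t, eLpNorm (u t) q σ ≤ ⨆ K, S K t := fun t =>
      up_flow hc hu t fun K => (hpart K t).trans (le_iSup (fun K => S K t) K)
    have h2 : eLpNorm (fun t => ⨆ K, S K t) P μT ≤ c1 * Hs s f :=
      up_iSup hP0 hPt hmeas hmono hSb
    have h3 : eLpNorm (fun t => eLpNorm (u t) q σ) p μT ≤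
        eLpNorm (fun t => ⨆ K, S K t) p μT :=
      eLpNorm_mono_enorm fun t => by simpa using h1 t
    have h4 := eLpNorm_le_eLpNorm_mul_rpow_measure_univ (μ := μT) hpP hGm.aestronglyMeasurable
    refine h3.trans (h4.trans ?_)
    calc eLpNorm (fun t => ⨆ K, S K t) P μT * c2
        ≤ (c1 * Hs s f) * c2 := mul_le_mul_left h2 _
      _ = c1 * c2 * Hs s f := by ring

end

end Pool.Agent.DW
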