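import Pool.Agent.DW.LargeD
import Pool.Agent.DW.Upper3
import Pool.Agent.DW.Pairs

/-!
# The facts about the blocks
-/

open MeasureTheory Metric Complex Filter Topology Real
open scoped ENNReal NNReal RealInnerProductSpace

namespace Pool.Agent.DW

noncomputable section

/-- the sixteenth root of two -/
def zz : ℝ := 2 ^ (1 / 16 : ℝ)

theorem zz_pos : 0 < zz := by unfold zz; positivity

theorem zz_one : 1 ≤ zz := Real.one_le_rpow (by norm_num) (by norm_num)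

theorem zz_one_lt : 1 < zz := Real.one_lt_rpow (by norm_num) (by norm_num)

/-- `X i = 2^{i/16}` -/
def XX (i : ℕ) : ℝ := zz ^ i

theorem XX_pos (i : ℕ) : 0 < XX i := pow_pos zz_pos i

theorem XX_one (i : ℕ) : 1 ≤ XX i := one_le_pow₀ zz_one

theorem XX_mono {i j : ℕ} (h : j ≤ i) : XX j ≤ XX i := pow_le_pow_right₀ zz_one h

/-- powers of the frequency -/
theorem XX_rpow (i : ℕ) (k : ℕ) : ((2 : ℝ) ^ i) ^ ((k : ℝ) / 16) = XX i ^ k := by
  unfold XX zz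
  have e1 : ((2 : ℝ) ^ i) ^ ((k : ℝ) / 16) = 2 ^ ((i : ℝ) * (k / 16)) := by
    rw [← Real.rpow_natCast, ← Real.rpow_mul (by norm_num)]
  have e2 : (((2 : ℝ) ^ (1 / 16 : ℝ)) ^ i) ^ k = 2 ^ ((1 / 16 : ℝ) * ((i * k : ℕ) : ℝ)) := by
    rw [← pow_mul, ← Real.rpow_natCast, ← Real.rpow_mul (by norm_num)]
  rw [e1, e2]
  congr 1
  push_cast
  ring

theorem XX_16 (i : ℕ) : XX i ^ 16 = 2 ^ i := by
  rw [← XX_rpow]
  norm_num

theorem NN_rpow (i : ℕ) (k : ℕ) : (((64 * 2 ^ i : ℕ) : ℝ)) ^ ((k : ℝ) / 16) =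
    (64 : ℝ) ^ ((k : ℝ) / 16) * XX i ^ k := by
  push_cast
  rw [Real.mul_rpow (by norm_num) (by positivity), XX_rpow]

/-- the `L²` norm of a block -/
def aa (P : ℕ → S2 → ℂ) (i : ℕ) : ℝ := √(∑ n ∈ upB i, N2 (P n))

theorem aa_nonneg (P : ℕ → S2 → ℂ) (i : ℕ) : 0 ≤ aa P i := Real.sqrt_nonneg _

theorem aa_sq (P : ℕ → S2 → ℂ) (i : ℕ) : aa P i ^ 2 = ∑ n ∈ upB i, N2 (P n) :=
  Real.sq_sqrt (Finset.sum_nonneg fun _ _ => N2_nonneg _)

theorem N64 (i : ℕ) : 64 ≤ 64 * 2 ^ i := by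
  have : 1 ≤ 2 ^ i := Nat.one_le_two_pow
  omega

/-- from `[0, 1]` to `[0, T]` -/
theorem fc_T (T : ℝ) (g : ℝ → ℝ≥0∞) (B : ℝ≥0∞)
    (h : ∀ k : ℕ, ∫⁻ t in Set.Icc (0 : ℝ) 1, g (t + k) ≤ B) :
    ∫⁻ t in Set.Icc (0 : ℝ) T, g t ≤ (⌊T⌋₊ + 1 : ℕ) * B := by
  have hshift : ∀ k : ℕ, ∫⁻ t in Set.Icc (k : ℝ) (k + 1), g t =
      ∫⁻ t in Set.Icc (0 : ℝ) 1, g (t + k) := by
    intro k
    rw [← lintegral_indicator measurableSet_Icc, ← lintegral_indicator measurableSet_Icc,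
      ← lintegral_add_right_eq_self (fun t => (Set.Icc (k : ℝ) (k + 1)).indicator g t) (k : ℝ)]
    refine lintegral_congr fun t => ?_
    simp only [Set.indicator_apply, Set.mem_Icc]
    have e : ((k : ℝ) ≤ t + k ∧ t + k ≤ k + 1) ↔ (0 ≤ t ∧ t ≤ 1) := by
      constructor <;> rintro ⟨h1, h2⟩ <;> constructor <;> linarith
    simp only [e]
  have hcover : Set.Icc (0 : ℝ) T ⊆ ⋃ k : Fin (⌊T⌋₊ + 1), Set.Icc ((k : ℕ) : ℝ) ((k : ℕ) + 1) := by
    intro t ht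
    simp only [Set.mem_iUnion, Set.mem_Icc]
    have h1 : ⌊t⌋₊ ≤ ⌊T⌋₊ := Nat.floor_mono ht.2
    exact ⟨⟨⌊t⌋₊, by omega⟩, Nat.floor_le ht.1, (Nat.lt_floor_add_one t).le⟩
  calc ∫⁻ t in Set.Icc (0 : ℝ) T, g t
      ≤ ∫⁻ t in ⋃ k : Fin (⌊T⌋₊ + 1), Set.Icc ((k : ℕ) : ℝ) ((k : ℕ) + 1), g t :=
        lintegral_mono_set hcover
    _ ≤ ∑' k : Fin (⌊T⌋₊ + 1), ∫⁻ t in Set.Icc ((k : ℕ) : ℝ) ((k : ℕ) + 1), g t :=
        lintegral_iUnion_le _ _
    _ ≤ ∑' _ : Fin (⌊T⌋₊ + 1), B := by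
        rw [tsum_fintype, tsum_fintype]
        exact Finset.sum_le_sum fun k _ => by rw [hshift]; exact h k
    _ = _ := by
        rw [tsum_fintype, Finset.sum_const, Finset.card_univ, Fintype.card_fin, nsmul_eq_mul]

theorem fc_lint {g : ℝ → ℝ} (hg : Continuous g) (h0 : ∀ t, 0 ≤ g t) {T : ℝ} (hT : 0 ≤ T) :
    ∫⁻ t in Set.Icc 0 T, ENNReal.ofReal (g t) = ENNReal.ofReal (∫ t in (0 : ℝ)..T, g t) := by
  have hint : Integrable g (volume.restrict (Set.Icc 0 T)) := hg.continuousOn.integrableOn_Icc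
  rw [← ofReal_integral_eq_lintegral_ofReal hint (Eventually.of_forall h0),
    integral_Icc_eq_integral_Ioc, ← intervalIntegral.integral_of_le hT]

theorem upw_shift (P : ℕ → S2 → ℂ) (s : Finset ℕ) (k : ℕ) (t : ℝ) :
    upw P s (t + k) = upw (fun n x => cexp (I * (k : ℝ) * Lam n) * P n x) s t := by
  ext x
  unfold upw
  refine Finset.sum_congr rfl fun n _ => ?_
  rw [← mul_assoc, ← Complex.exp_add]
  congr 2
  push_cast
  ring

/-- the large values over `[0, T]` -/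
theorem fc_large (T : ℝ) : ∃ C : ℝ, 1 ≤ C ∧ ∀ (N : ℕ) (P : ℕ → S2 → ℂ) (lam : ℝ), 64 ≤ N →
    (∀ n, Har n (P n)) → 0 < lam →
    C * (N : ℝ) ^ (7 / 4 : ℝ) * (∑ n ∈ Finset.Ico N (2 * N), N2 (P n)) ≤ lam ^ 2 →
    ∫⁻ t in Set.Icc (0 : ℝ) T, (if lam ≤ Fs P (Finset.Ico N (2 * N)) t then
      ENNReal.ofReal (Fs P (Finset.Ico N (2 * N)) t ^ 4) else 0) ≤
      ENNReal.ofReal (C * (N : ℝ) ^ (5 / 2 : ℝ) *
        (∑ n ∈ Finset.Ico N (2 * N), N2 (P n)) ^ 2) := by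
  obtain ⟨C, hC, h⟩ := lc_block1
  have hn : (1 : ℝ) ≤ (⌊T⌋₊ + 1 : ℕ) := by
    push_cast
    have : (0 : ℝ) ≤ ⌊T⌋₊ := Nat.cast_nonneg _
    linarith
  have hn0 : (0 : ℝ) < (⌊T⌋₊ + 1 : ℕ) := by linarith
  refine ⟨(⌊T⌋₊ + 1 : ℕ) * (3 * C), by nlinarith, fun N P lam hN hP hlam hl => ?_⟩
  set E : ℝ := ∑ n ∈ Finset.Ico N (2 * N), N2 (P n) with hE
  have hE0 : 0 ≤ E := Finset.sum_nonneg fun n _ => N2_nonneg _
  have hC' : C ≤ (⌊T⌋₊ + 1 : ℕ) * (3 * C) := by nlinarith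
  have hl' : C * (N : ℝ) ^ (7 / 4 : ℝ) * E ≤ lam ^ 2 := by
    refine le_trans ?_ hl
    gcongr
  have key := fc_T T (fun t => if lam ≤ Fs P (Finset.Ico N (2 * N)) t then
      ENNReal.ofReal (Fs P (Finset.Ico N (2 * N)) t ^ 4) else 0)
    (ENNReal.ofReal (3 * C * (N : ℝ) ^ (5 / 2 : ℝ) * E ^ 2)) (fun k => by
      have h1 := h N (fun n x => cexp (I * (k : ℝ) * Lam n) * P n x) lam hN
        (fun n => har_const_mul _ (hP n)) hlam
      have h3 : ∀ n, N2 (fun x => cexp (I * (k : ℝ) * Lam n) * P n x) = N2 (P n) :=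
        fun n => up_N2_unit (norm_cexp_it k n) (P n)
      simp only [h3] at h1
      refine le_trans (le_of_eq ?_) (h1 hl')
      refine lintegral_congr fun t => ?_
      have e : Fs P (Finset.Ico N (2 * N)) (t + k) =
          Fs (fun n x => cexp (I * (k : ℝ) * Lam n) * P n x) (Finset.Ico N (2 * N)) t := by
        unfold Fs
        rw [upw_shift]
      simp only [e])
  refine key.trans (le_of_eq ?_)
  rw [← ENNReal.ofReal_natCast, ← ENNReal.ofReal_mul hn0.le]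
  congr 1
  ring

theorem fc_nik4 (N : ℕ) (P : ℕ → S2 → ℂ) (t : ℝ) (x : S2) (hN : 64 ≤ N) (hP : ∀ n, Har n (P n)) :
    ‖upw P (Finset.Ico N (2 * N)) t x‖ ^ 4 ≤
      2 * (N : ℝ) ^ 2 * ∫ y, ‖upw P (Finset.Ico N (2 * N)) t y‖ ^ 4 ∂σ := by
  have hD : Deg (2 * N) (upw P (Finset.Ico N (2 * N)) t) :=
    deg_sum _ _ fun n hn => deg_har (by have := Finset.mem_Ico.1 hn; omega)
      (har_const_mul _ (hP n))
  have h := nik hD 2 x
  have hN' : (64 : ℝ) ≤ N := by exact_mod_cast hN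
  have hπ := Real.pi_gt_three
  have h2 : (((2 : ℕ) : ℝ) * ((2 * N : ℕ) : ℝ) + 1) ^ 2 / (4 * π) ≤ 2 * (N : ℝ) ^ 2 := by
    rw [div_le_iff₀ (by positivity)]
    push_cast
    nlinarith [mul_nonneg (sq_nonneg (N : ℝ)) (sub_nonneg.2 hπ.le)]
  have h3 : 0 ≤ ∫ y, ‖upw P (Finset.Ico N (2 * N)) t y‖ ^ 4 ∂σ :=
    integral_nonneg fun y => by positivity
  norm_num at h ⊢
  refine h.trans (mul_le_mul_of_nonneg_right ?_ h3)
  norm_num at h2
  exact h2

/-- all the facts about the blocks -/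
theorem facts (T : ℝ) (hT : 0 < T) : ∃ C : ℝ, 1 ≤ C ∧ ∀ (P : ℕ → S2 → ℂ), (∀ n, Har n (P n)) →
    (∀ i j : ℕ, j ≤ i → PF (volume.restrict (Set.Icc 0 T)) C (XX i) (XX j) (aa P i) (aa P j)
      (Fs P (upB i)) (Fs P (upB j))) ∧
    (∀ i j : ℕ, j ≤ i → ∫⁻ t in Set.Icc 0 T, ENNReal.ofReal (G3 P (upB i) (upB j) t) ≤
      ENNReal.ofReal (C * XX j ^ 12 * (aa P i ^ 2 * aa P j ^ 2))) := by
  obtain ⟨C0, hC0, hlarge⟩ := fc_large T
  obtain ⟨C1, hC1, hpair⟩ := u3_pair_le T hT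
  obtain ⟨C, hC⟩ : ∃ C : ℝ, C = 64 + 64 ^ (7 / 4 : ℝ) * C0 + 64 ^ (5 / 2 : ℝ) * C0 +
    2 * 64 ^ 2 * C1 + C1 := ⟨_, rfl⟩
  have hp1 : (0 : ℝ) ≤ 64 ^ (7 / 4 : ℝ) * C0 := by positivity
  have hp2 : (0 : ℝ) ≤ 64 ^ (5 / 2 : ℝ) * C0 := by positivity
  have hp3 : (0 : ℝ) ≤ 2 * 64 ^ 2 * C1 := by positivity
  have hC64 : 64 ≤ C := by linarith
  have hCone : 1 ≤ C := by linarith
  have hC0' : 0 ≤ C := by linarith
  have hCsq : C ≤ C ^ 2 := by nlinarith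
  have hC4 : C ≤ C ^ 4 := by
    calc C = C ^ 1 := (pow_one C).symm
      _ ≤ C ^ 4 := pow_le_pow_right₀ hCone (by norm_num)
  have hCa : 64 ^ (7 / 4 : ℝ) * C0 ≤ C ^ 2 := le_trans (by linarith) hCsq
  have hCb : 64 ^ (5 / 2 : ℝ) * C0 ≤ C ^ 4 := le_trans (by linarith) hC4
  have hCc : 2 * 64 ^ 2 * C1 ≤ C ^ 4 := le_trans (by linarith) hC4
  refine ⟨C, hCone, fun P hP => ?_⟩
  have hPc : ∀ n, Continuous (P n) := fun n => (hP n).cont
  -- the sup bound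
  have hsup : ∀ i t, Fs P (upB i) t ≤ C * XX i ^ 16 * aa P i := by
    intro i t
    refine le_Fs fun x => ?_
    have h1 := blk_sup (64 * 2 ^ i) P t x (N64 i) hP
    have h2 : ‖upw P (upB i) t x‖ ^ 2 ≤ (64 * 2 ^ i * aa P i) ^ 2 := by
      rw [mul_pow, aa_sq]
      refine h1.trans (le_of_eq ?_)
      push_cast
      rfl
    have h3 : ‖upw P (upB i) t x‖ ≤ 64 * 2 ^ i * aa P i :=
      (pow_le_pow_iff_left₀ (norm_nonneg _) (by have := aa_nonneg P i; positivity)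
        two_ne_zero).1 h2
    refine h3.trans ?_
    rw [XX_16]
    have := aa_nonneg P i
    gcongr
  -- the large values
  have hl : ∀ i, ∫⁻ t in Set.Icc 0 T, ENNReal.ofReal ((if C * XX i ^ 14 * aa P i ≤
      Fs P (upB i) t then Fs P (upB i) t else 0) ^ 4) ≤
      ENNReal.ofReal ((C * XX i ^ 10 * aa P i) ^ 4) := by
    intro i
    have hX := XX_pos i
    rcases (aa_nonneg P i).eq_or_lt with ha | ha
    · have hz : ∀ t, Fs P (upB i) t = 0 := fun t =>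
        le_antisymm (by have := hsup i t; rw [← ha, mul_zero] at this; exact this)
          (Fs_nonneg _ _ _)
      simp [hz]
    · have h1 := hlarge (64 * 2 ^ i) P (C * XX i ^ 14 * aa P i) (N64 i) hP (by positivity) (by
        have e1 := NN_rpow i 28
        have e2 : (((28 : ℕ) : ℝ)) / 16 = 7 / 4 := by norm_num
        rw [e2] at e1
        rw [e1]
        have e3 : ∑ n ∈ Finset.Ico (64 * 2 ^ i) (2 * (64 * 2 ^ i)), N2 (P n) = aa P i ^ 2 :=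
          (aa_sq P i).symm
        rw [e3]
        calc C0 * (64 ^ (7 / 4 : ℝ) * XX i ^ 28) * aa P i ^ 2
            = (64 ^ (7 / 4 : ℝ) * C0) * (XX i ^ 28 * aa P i ^ 2) := by ring
          _ ≤ C ^ 2 * (XX i ^ 28 * aa P i ^ 2) := by gcongr
          _ = _ := by ring)
      have e0 : ∀ t, ENNReal.ofReal ((if C * XX i ^ 14 * aa P i ≤
          Fs P (upB i) t then Fs P (upB i) t else 0) ^ 4) =
          (if C * XX i ^ 14 * aa P i ≤ Fs P (upB i) t then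
            ENNReal.ofReal (Fs P (upB i) t ^ 4) else 0) := by
        intro t
        split_ifs <;> simp
      simp only [e0]
      refine le_trans h1 (ENNReal.ofReal_le_ofReal ?_)
      have e1 := NN_rpow i 40
      have e2 : (((40 : ℕ) : ℝ)) / 16 = 5 / 2 := by norm_num
      rw [e2] at e1
      rw [e1]
      have e3 : ∑ n ∈ Finset.Ico (64 * 2 ^ i) (2 * (64 * 2 ^ i)), N2 (P n) = aa P i ^ 2 :=
        (aa_sq P i).symm
      rw [e3]
      calc C0 * (64 ^ (5 / 2 : ℝ) * XX i ^ 40) * (aa P i ^ 2) ^ 2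
          = (64 ^ (5 / 2 : ℝ) * C0) * (XX i ^ 40 * aa P i ^ 4) := by ring
        _ ≤ C ^ 4 * (XX i ^ 40 * aa P i ^ 4) := by gcongr
        _ = _ := by ring
  -- the pairs
  have hG : ∀ i j : ℕ, j ≤ i → ∫⁻ t in Set.Icc 0 T, ENNReal.ofReal (G3 P (upB i) (upB j) t) ≤
      ENNReal.ofReal (C1 * XX j ^ 12 * (aa P i ^ 2 * aa P j ^ 2)) := by
    intro i j hij
    rw [fc_lint (G3_cont hPc _ _) (G3_nonneg _ _ _) hT.le]
    refine ENNReal.ofReal_le_ofReal ((hpair P hP i j hij).trans (le_of_eq ?_))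
    have e1 := XX_rpow j 12
    have e2 : (((12 : ℕ) : ℝ)) / 16 = 3 / 4 := by norm_num
    rw [e2] at e1
    rw [e1, aa_sq, aa_sq]
  -- the fourth powers
  have hf : ∀ i, ∫⁻ t in Set.Icc 0 T, ENNReal.ofReal (Fs P (upB i) t ^ 4) ≤
      ENNReal.ofReal ((C * XX i ^ 11 * aa P i) ^ 4) := by
    intro i
    have h1 : ∀ t, Fs P (upB i) t ^ 4 ≤ (2 * 64 ^ 2 * XX i ^ 32) * G3 P (upB i) (upB i) t := by
      intro t
      have e1 : G3 P (upB i) (upB i) t = ∫ y, ‖upw P (upB i) t y‖ ^ 4 ∂σ := by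
        unfold G3
        congr 1
        ext x
        rw [norm_mul]
        ring
      set B : ℝ := (2 * 64 ^ 2 * XX i ^ 32) * G3 P (upB i) (upB i) t with hB
      have hG0 := G3_nonneg P (upB i) (upB i) t
      have hX := XX_pos i
      have hB0 : 0 ≤ B := by positivity
      have h2 : ∀ x, ‖upw P (upB i) t x‖ ^ 4 ≤ B := by
        intro x
        have h3 := fc_nik4 (64 * 2 ^ i) P t x (N64 i) hP
        rw [hB, e1]
        refine h3.trans (le_of_eq ?_)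
        have e2 : XX i ^ 32 = (2 ^ i) ^ 2 := by
          rw [← XX_16]; ring
        rw [e2]
        push_cast
        unfold upB
        ring
      have h4 : Fs P (upB i) t ≤ B ^ (1 / 4 : ℝ) := by
        refine le_Fs fun x => ?_
        have h5 := Real.rpow_le_rpow (by positivity) (h2 x) (z := 1 / 4) (by norm_num)
        have e3 : (‖upw P (upB i) t x‖ ^ 4) ^ (1 / 4 : ℝ) = ‖upw P (upB i) t x‖ := by
          rw [← Real.rpow_natCast, ← Real.rpow_mul (norm_nonneg _)]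
          norm_num
        rwa [e3] at h5
      calc Fs P (upB i) t ^ 4 ≤ (B ^ (1 / 4 : ℝ)) ^ 4 :=
            pow_le_pow_left₀ (Fs_nonneg _ _ _) h4 4
        _ = B := by
            rw [← Real.rpow_natCast, ← Real.rpow_mul hB0]
            norm_num
    have hX := XX_pos i
    refine (lintegral_mono fun t => ENNReal.ofReal_le_ofReal (h1 t)).trans ?_
    refine (pr_const (by positivity) (G3_cont hPc _ _).measurable (hG i i le_rfl)).trans
      (ENNReal.ofReal_le_ofReal ?_)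
    have ha := aa_nonneg P i
    calc 2 * 64 ^ 2 * XX i ^ 32 * (C1 * XX i ^ 12 * (aa P i ^ 2 * aa P i ^ 2))
        = (2 * 64 ^ 2 * C1) * (XX i ^ 44 * aa P i ^ 4) := by ring
      _ ≤ C ^ 4 * (XX i ^ 44 * aa P i ^ 4) := by gcongr
      _ = _ := by ring
  refine ⟨fun i j hij => ⟨hCone, XX_one j, XX_mono hij, aa_nonneg P i, aa_nonneg P j,
    (Fs_cont hPc _).measurable, (Fs_cont hPc _).measurable, Fs_nonneg _ _, Fs_nonneg _ _,
    hsup i, hsup j, hl i, hl j, hf i, hf j⟩, fun i j hij => (hG i j hij).trans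
      (ENNReal.ofReal_le_ofReal ?_)⟩
  have := XX_pos j
  have h1 : C1 ≤ C := by linarith
  gcongr

end

end Pool.Agent.DW
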