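import Pool.Agent.DW.Nik

/-!
# `proj n` is the orthogonal projection onto the classical spherical harmonics of degree `n`

The classical spherical harmonics of degree `n` are the restrictions to the sphere of the
homogeneous harmonic polynomials of degree `n` in three variables (`HP`, `evS`).
-/

open MeasureTheory Metric Complex Filter Topology Real
open scoped ENNReal NNReal RealInnerProductSpace

namespace Pool.Agent.DW

noncomputable section

/-- restriction of a polynomial to the sphere -/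
def evS (p : MvPolynomial (Fin 3) ℂ) (x : S2) : ℂ :=
  MvPolynomial.eval (fun i => ((x : E3) i : ℂ)) p

/-- the homogeneous harmonic polynomials of degree `n` -/
def HP (n : ℕ) (p : MvPolynomial (Fin 3) ℂ) : Prop :=
  p.IsHomogeneous n ∧ ∑ i, MvPolynomial.pderiv i (MvPolynomial.pderiv i p) = 0

open MvPolynomial

/-- the Laplacian -/
def fdL (p : MvPolynomial (Fin 3) ℂ) : MvPolynomial (Fin 3) ℂ := ∑ i, pderiv i (pderiv i p)

/-- `x₁² + x₂² + x₃²` -/
def fdr : MvPolynomial (Fin 3) ℂ := ∑ i, X i ^ 2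

/-- a linear form -/
def fdl (a : Fin 3 → ℂ) : MvPolynomial (Fin 3) ℂ := ∑ i, C (a i) * X i

/-- a directional derivative -/
def fdD (a : Fin 3 → ℂ) (p : MvPolynomial (Fin 3) ℂ) : MvPolynomial (Fin 3) ℂ :=
  ∑ i, C (a i) * pderiv i p

theorem fdL_add (p q : MvPolynomial (Fin 3) ℂ) : fdL (p + q) = fdL p + fdL q := by
  simp [fdL, Finset.sum_add_distrib]

theorem fdL_sub (p q : MvPolynomial (Fin 3) ℂ) : fdL (p - q) = fdL p - fdL q := by
  simp [fdL, Finset.sum_sub_distrib]

theorem fdL_C (c : ℂ) (p : MvPolynomial (Fin 3) ℂ) : fdL (C c * p) = C c * fdL p := by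
  simp [fdL, Finset.mul_sum]

theorem fdL_sum {ι : Type} (s : Finset ι) (f : ι → MvPolynomial (Fin 3) ℂ) :
    fdL (∑ i ∈ s, f i) = ∑ i ∈ s, fdL (f i) := by
  simp only [fdL, map_sum]
  exact Finset.sum_comm

theorem fdD_sub (a : Fin 3 → ℂ) (p q : MvPolynomial (Fin 3) ℂ) :
    fdD a (p - q) = fdD a p - fdD a q := by
  simp [fdD, Finset.sum_sub_distrib, mul_sub]

theorem fdD_C (a : Fin 3 → ℂ) (c : ℂ) (p : MvPolynomial (Fin 3) ℂ) :
    fdD a (C c * p) = C c * fdD a p := by
  simp [fdD, Finset.mul_sum]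
  refine Finset.sum_congr rfl fun i _ => by ring

theorem fdD_mul (a : Fin 3 → ℂ) (p q : MvPolynomial (Fin 3) ℂ) :
    fdD a (p * q) = p * fdD a q + fdD a p * q := by
  simp only [fdD, Derivation.leibniz, smul_eq_mul, Finset.mul_sum, Finset.sum_mul,
    ← Finset.sum_add_distrib]
  refine Finset.sum_congr rfl fun i _ => by ring

theorem fdD_l (a : Fin 3 → ℂ) : fdD a (fdl a) = C (cdot a a) := by
  simp [fdD, fdl, cdot, Fin.sum_univ_three, pderiv_X, Derivation.leibniz]

theorem fdD_r (a : Fin 3 → ℂ) : fdD a fdr = 2 * fdl a := by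
  simp [fdD, fdl, fdr, Fin.sum_univ_three, pderiv_X, Derivation.leibniz_pow]
  ring

theorem fdL_l (a : Fin 3 → ℂ) (p : MvPolynomial (Fin 3) ℂ) :
    fdL (fdl a * p) = 2 * fdD a p + fdl a * fdL p := by
  simp [fdL, fdD, fdl, Fin.sum_univ_three, pderiv_X, Derivation.leibniz, add_mul, mul_add]
  ring

theorem fd_two (i : Fin 3) : pderiv i (2 : MvPolynomial (Fin 3) ℂ) = 0 := by
  rw [show (2 : MvPolynomial (Fin 3) ℂ) = C 2 from (map_ofNat C 2).symm, pderiv_C]

theorem fdL_r (p : MvPolynomial (Fin 3) ℂ) :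
    fdL (fdr * p) = 6 * p + 4 * (∑ i, X i * pderiv i p) + fdr * fdL p := by
  simp [fdL, fdr, Fin.sum_univ_three, pderiv_X, Derivation.leibniz, Derivation.leibniz_pow,
    add_mul, mul_add, fd_two]
  ring

theorem fdr_hom : (fdr : MvPolynomial (Fin 3) ℂ).IsHomogeneous 2 :=
  IsHomogeneous.sum _ _ _ fun i _ => by simpa using (isHomogeneous_X ℂ i).pow 2

theorem fdl_hom (a : Fin 3 → ℂ) : (fdl a).IsHomogeneous 1 :=
  IsHomogeneous.sum _ _ _ fun _ _ => isHomogeneous_C_mul_X _ _

/-- the formula for the Laplacian of `|x|^{2i} g`, `g` harmonic and homogeneous -/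
theorem fdL_pow {d : ℕ} {g : MvPolynomial (Fin 3) ℂ} (hg : HP d g) (i : ℕ) :
    fdL (fdr ^ (i + 1) * g) = C ((2 * (i + 1) * (2 * (i + 1) + 1 + 2 * d) : ℕ) : ℂ) * (fdr ^ i * g) := by
  have key : ∀ i, fdr * fdL (fdr ^ i * g)
      = C ((2 * i * (2 * i + 1 + 2 * d) : ℕ) : ℂ) * (fdr ^ i * g) →
      fdL (fdr ^ (i + 1) * g)
        = C ((2 * (i + 1) * (2 * (i + 1) + 1 + 2 * d) : ℕ) : ℂ) * (fdr ^ i * g) := by
    intro i hi
    have h1 : (fdr ^ i * g).IsHomogeneous (2 * i + d) := (fdr_hom.pow i).mul hg.1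
    rw [pow_succ', mul_assoc, fdL_r, h1.sum_X_mul_pderiv, hi]
    simp only [nsmul_eq_mul]
    push_cast
    simp only [map_add, map_mul, map_natCast, map_ofNat, map_one]
    ring
  induction i with
  | zero =>
    apply key
    have : fdL g = 0 := hg.2
    simp [this]
  | succ i ih =>
    apply key
    rw [ih]
    push_cast
    simp only [map_add, map_mul, map_natCast, map_ofNat, map_one]
    ring

theorem HP_zero (d : ℕ) : HP d 0 := ⟨isHomogeneous_zero _ _ _, by simp⟩

theorem HP_C {d : ℕ} {g : MvPolynomial (Fin 3) ℂ} (c : ℂ) (hg : HP d g) : HP d (C c * g) := by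
  refine ⟨hg.1.C_mul c, ?_⟩
  have h : fdL g = 0 := hg.2
  have h2 := fdL_C c g
  rw [h, mul_zero] at h2
  exact h2

theorem HP_sub {d : ℕ} {g h : MvPolynomial (Fin 3) ℂ} (hg : HP d g) (hh : HP d h) :
    HP d (g - h) := by
  refine ⟨hg.1.sub hh.1, ?_⟩
  have h1 : fdL g = 0 := hg.2
  have h1' : fdL h = 0 := hh.2
  have h2 := fdL_sub g h
  rw [h1, h1', sub_zero] at h2
  exact h2

/-- uniqueness of the decomposition `∑ |x|^{2i} g_i` -/
theorem fd_unique (N : ℕ) : ∀ (d : ℕ → ℕ) (g : ℕ → MvPolynomial (Fin 3) ℂ),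
    (∀ i, HP (d i) (g i)) → ∑ i ∈ Finset.range N, fdr ^ i * g i = 0 → ∀ i < N, g i = 0 := by
  induction N with
  | zero => intro d g _ _ i hi; omega
  | succ N ih =>
    intro d g hg hs
    have h1 := congrArg fdL hs
    rw [Finset.sum_range_succ', fdL_add, fdL_sum] at h1
    have h0 : fdL (fdr ^ 0 * g 0) = 0 := by
      rw [pow_zero, one_mul]
      exact (hg 0).2
    rw [h0, add_zero] at h1
    have hz : fdL 0 = 0 := by simp [fdL]
    rw [hz] at h1
    have h2 : ∑ i ∈ Finset.range N, fdr ^ i *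
        (C ((2 * (i + 1) * (2 * (i + 1) + 1 + 2 * d (i + 1)) : ℕ) : ℂ) * g (i + 1)) = 0 := by
      rw [← h1]
      refine Finset.sum_congr rfl fun i _ => ?_
      rw [fdL_pow (hg (i + 1))]
      ring
    have h3 := ih (fun i => d (i + 1)) _ (fun i => HP_C _ (hg (i + 1))) h2
    have h4 : ∀ i < N, g (i + 1) = 0 := by
      intro i hi
      have h5 := h3 i hi
      rcases mul_eq_zero.1 h5 with h6 | h6
      · rw [MvPolynomial.C_eq_zero] at h6
        exfalso
        have : (2 * (i + 1) * (2 * (i + 1) + 1 + 2 * d (i + 1)) : ℕ) = 0 := by exact_mod_cast h6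
        simp at this
      · exact h6
    intro i hi
    rcases i with _ | i
    · rw [Finset.sum_range_succ'] at hs
      rw [Finset.sum_eq_zero (fun i hi => by rw [h4 i (Finset.mem_range.1 hi), mul_zero])] at hs
      simpa using hs
    · exact h4 i (by omega)

/-! ### the zonal harmonic polynomials -/

/-- `|x|^n P_n(⟨a, x⟩/|x|)` -/
def fdP (a : Fin 3 → ℂ) : ℕ → MvPolynomial (Fin 3) ℂ
  | 0 => 1
  | 1 => fdl a
  | n + 2 => C (((2 * n + 3) / (n + 2) : ℂ)) * (fdl a * fdP a (n + 1))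
      - C (((n + 1) / (n + 2) : ℂ)) * (fdr * fdP a n)

theorem fdP_hom (a : Fin 3 → ℂ) : ∀ n, (fdP a n).IsHomogeneous n
  | 0 => isHomogeneous_one _ _
  | 1 => fdl_hom a
  | n + 2 => by
    rw [fdP]
    refine IsHomogeneous.sub (IsHomogeneous.C_mul ?_ _) (IsHomogeneous.C_mul ?_ _)
    · have := (fdl_hom a).mul (fdP_hom a (n + 1))
      rwa [show 1 + (n + 1) = n + 2 by ring] at this
    · have := fdr_hom.mul (fdP_hom a n)
      rwa [show 2 + n = n + 2 by ring] at this

theorem fd_C_div (x y : ℂ) (hy : y ≠ 0) :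
    (C (x / y) : MvPolynomial (Fin 3) ℂ) * C y = C x := by
  rw [← C_mul, div_mul_cancel₀ x hy]

theorem fdP_D {a : Fin 3 → ℂ} (ha : cdot a a = 1) :
    ∀ n : ℕ, fdD a (fdP a (n + 1)) = C ((n : ℂ) + 1) * fdP a n
  | 0 => by
    change fdD a (fdl a) = _
    rw [fdD_l, ha]
    simp [fdP]
  | 1 => by
    have hD1 : fdD a (1 : MvPolynomial (Fin 3) ℂ) = 0 := by simp [fdD]
    have h2 : fdP a (1 + 1) = C (3 / 2) * (fdl a * fdl a) - C (1 / 2) * (fdr * 1) := by
      have h3 : fdP a (1 + 1) = C ((2 * ((0 : ℕ) : ℂ) + 3) / (((0 : ℕ) : ℂ) + 2)) * (fdl a * fdl a)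
        - C ((((0 : ℕ) : ℂ) + 1) / (((0 : ℕ) : ℂ) + 2)) * (fdr * 1) := rfl
      rw [h3]
      norm_num
    rw [h2, fdD_sub, fdD_C, fdD_C, fdD_mul, fdD_mul, fdD_r, hD1, fdD_l, ha]
    simp only [fdP, Nat.cast_one, map_one]
    have e1 := fd_C_div 3 2 (by norm_num)
    have e2 := fd_C_div 1 2 (by norm_num)
    simp only [map_ofNat, map_one] at e1 e2
    simp only [map_add, map_one]
    linear_combination fdl a * e1 - fdl a * e2
  | n + 2 => by
    have i1 := fdP_D ha (n + 1)
    have i0 := fdP_D ha n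
    have hn2 : ((n : ℂ) + 2) ≠ 0 := by
      exact_mod_cast (by positivity : ((n : ℝ) + 2) ≠ 0)
    have hn3 : (((n + 1 : ℕ) : ℂ) + 2) ≠ 0 := by
      exact_mod_cast (by positivity : (((n + 1 : ℕ) : ℝ) + 2) ≠ 0)
    have key : C (((n + 1 : ℕ) : ℂ) + 2) * fdD a (fdP a (n + 2 + 1))
        = C (((n + 1 : ℕ) : ℂ) + 2) * (C (((n + 2 : ℕ) : ℂ) + 1) * fdP a (n + 2)) := by
      have e1 := fd_C_div (2 * ((n + 1 : ℕ) : ℂ) + 3) (((n + 1 : ℕ) : ℂ) + 2) hn3
      have e2 := fd_C_div (((n + 1 : ℕ) : ℂ) + 1) (((n + 1 : ℕ) : ℂ) + 2) hn3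
      have e3 : C ((n : ℂ) + 2) * fdP a (n + 2) = C (2 * (n : ℂ) + 3) * (fdl a * fdP a (n + 1))
          - C ((n : ℂ) + 1) * (fdr * fdP a n) := by
        have E1 := fd_C_div (2 * (n : ℂ) + 3) ((n : ℂ) + 2) hn2
        have E2 := fd_C_div ((n : ℂ) + 1) ((n : ℂ) + 2) hn2
        rw [fdP]
        linear_combination (fdl a * fdP a (n + 1)) * E1 - (fdr * fdP a n) * E2
      have e4 : fdD a (fdP a (n + 2 + 1))
          = C ((2 * ((n + 1 : ℕ) : ℂ) + 3) / (((n + 1 : ℕ) : ℂ) + 2))
              * (fdl a * fdD a (fdP a (n + 2)) + fdD a (fdl a) * fdP a (n + 2))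
            - C ((((n + 1 : ℕ) : ℂ) + 1) / (((n + 1 : ℕ) : ℂ) + 2))
              * (fdr * fdD a (fdP a (n + 1)) + fdD a fdr * fdP a (n + 1)) := by
        rw [show n + 2 + 1 = (n + 1) + 2 from rfl, fdP, fdD_sub, fdD_C, fdD_C, fdD_mul, fdD_mul]
      rw [show n + 2 = n + 1 + 1 from rfl] at *
      rw [i1, i0, fdD_l, fdD_r, ha] at e4
      rw [e4]
      push_cast at *
      simp only [map_add, map_mul, map_natCast, map_ofNat, map_one] at *
      linear_combination (fdl a * ((↑n + 1 + 1) * fdP a (n + 1)) + fdP a (n + 1 + 1)) * e1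
        - (fdr * ((↑n + 1) * fdP a n) + 2 * fdl a * fdP a (n + 1)) * e2 - (↑n + 2) * e3
    have hC : (C (((n + 1 : ℕ) : ℂ) + 2) : MvPolynomial (Fin 3) ℂ) ≠ 0 := by
      rw [Ne, MvPolynomial.C_eq_zero]
      exact hn3
    exact mul_left_cancel₀ hC key

theorem fdP_L {a : Fin 3 → ℂ} (ha : cdot a a = 1) : ∀ n : ℕ, fdL (fdP a n) = 0
  | 0 => by simp [fdL, fdP]
  | 1 => by
    have h := fdL_l a 1
    simp only [mul_one] at h
    rw [fdP, h]
    simp [fdL, fdD]
  | n + 2 => by
    have i1 := fdP_L ha (n + 1)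
    have i0 := fdP_L ha n
    have hn2 : ((n : ℂ) + 2) ≠ 0 := by
      exact_mod_cast (by positivity : ((n : ℝ) + 2) ≠ 0)
    have hC : (C ((n : ℂ) + 2) : MvPolynomial (Fin 3) ℂ) ≠ 0 := by
      rw [Ne, MvPolynomial.C_eq_zero]
      exact hn2
    apply mul_left_cancel₀ hC
    rw [fdP, fdL_sub, fdL_C, fdL_C, fdL_l, fdL_r, i1, i0, fdP_D ha,
      (fdP_hom a n).sum_X_mul_pderiv]
    have e1 := fd_C_div (2 * (n : ℂ) + 3) ((n : ℂ) + 2) hn2
    have e2 := fd_C_div ((n : ℂ) + 1) ((n : ℂ) + 2) hn2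
    simp only [nsmul_eq_mul]
    simp only [map_add, map_mul, map_natCast, map_ofNat, map_one] at *
    linear_combination (2 * ((↑n + 1) * fdP a n)) * e1
        - (6 * fdP a n + 4 * (↑n * fdP a n)) * e2

theorem fdP_HP {a : Fin 3 → ℂ} (ha : cdot a a = 1) (n : ℕ) : HP n (fdP a n) :=
  ⟨fdP_hom a n, fdP_L ha n⟩

theorem evS_l (a : Fin 3 → ℂ) (x : S2) : evS (fdl a) x = cp a x := by
  simp [evS, fdl, cp]

theorem evS_r (x : S2) : evS fdr x = 1 := by
  have h := krv_self x
  simp only [cdot, krv] at h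
  simp only [evS, fdr, map_sum, map_pow, eval_X]
  rw [← h]
  exact Finset.sum_congr rfl fun i _ => by ring

theorem evS_P (y x : S2) : ∀ n : ℕ, evS (fdP (krv y) n) x = (leg n (ip x y) : ℂ)
  | 0 => by simp [fdP, evS, leg]
  | 1 => by
    rw [fdP, evS_l, leg, kr_cp_eq, krv_ip, ip_comm]
  | n + 2 => by
    have i1 := evS_P y x (n + 1)
    have i0 := evS_P y x n
    have el : evS (fdl (krv y)) x = (ip x y : ℂ) := by rw [evS_l, kr_cp_eq, krv_ip, ip_comm]
    have er := evS_r x
    unfold evS at *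
    rw [fdP, map_sub, map_mul, map_mul, map_mul, map_mul, i1, i0, el, er, leg, eval_C, eval_C]
    have hn2 : ((n : ℂ) + 2) ≠ 0 := by
      exact_mod_cast (by positivity : ((n : ℝ) + 2) ≠ 0)
    push_cast
    field_simp

/-! ### polynomials depending continuously on a point of the sphere -/

/-- the coefficients of `F y` are continuous in `y` -/
def fdc (F : S2 → MvPolynomial (Fin 3) ℂ) : Prop := ∀ m, Continuous fun y => coeff m (F y)

theorem fdc_mul {F G : S2 → MvPolynomial (Fin 3) ℂ} (hF : fdc F) (hG : fdc G) :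
    fdc (fun y => F y * G y) := by
  intro m
  simp only [coeff_mul]
  exact continuous_finsetSum _ fun i _ => (hF _).mul (hG _)

theorem fdc_sub {F G : S2 → MvPolynomial (Fin 3) ℂ} (hF : fdc F) (hG : fdc G) :
    fdc (fun y => F y - G y) := by
  intro m
  simp only [coeff_sub]
  exact (hF _).sub (hG _)

theorem fdc_const (p : MvPolynomial (Fin 3) ℂ) : fdc (fun _ => p) := fun _ => continuous_const

theorem fdc_l : fdc (fun y => fdl (krv y)) := by
  intro m
  simp only [fdl, krv, coeff_sum, coeff_C_mul]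
  fun_prop

theorem fdc_P : ∀ n, fdc (fun y => fdP (krv y) n)
  | 0 => fdc_const _
  | 1 => fdc_l
  | n + 2 => by
    simp only [fdP]
    exact fdc_sub (fdc_mul (fdc_const _) (fdc_mul fdc_l (fdc_P (n + 1))))
      (fdc_mul (fdc_const _) (fdc_mul (fdc_const _) (fdc_P n)))

/-- the monomials of degree `n` -/
def fdS (n : ℕ) : Finset (Fin 3 →₀ ℕ) := Finset.finsuppAntidiag Finset.univ n

theorem fd_expand {n : ℕ} {p : MvPolynomial (Fin 3) ℂ} (hp : p.IsHomogeneous n) :
    p = ∑ m ∈ fdS n, coeff m p • monomial m (1 : ℂ) := by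
  conv_lhs => rw [p.as_sum]
  rw [Finset.sum_subset (s₂ := fdS n)]
  · refine Finset.sum_congr rfl fun m _ => ?_
    rw [smul_monomial, smul_eq_mul, mul_one]
  · intro m hm
    rw [mem_support_iff] at hm
    have h := hp hm
    rw [fdS, Finset.mem_finsuppAntidiag]
    refine ⟨?_, Finset.subset_univ _⟩
    rw [Finsupp.weight_apply, Finsupp.sum_fintype] at h
    · simpa using h
    · simp
  · intro m _ hm
    rw [notMem_support_iff] at hm
    rw [hm, monomial_zero]

/-- the integral of a polynomial valued function -/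
theorem fd_integral {n : ℕ} {F : S2 → MvPolynomial (Fin 3) ℂ} (hF : fdc F)
    (hn : ∀ y, (F y).IsHomogeneous n) {f : S2 → ℂ} (hf : Continuous f) :
    ∃ p : MvPolynomial (Fin 3) ℂ, p.IsHomogeneous n ∧
      ∀ ℓ : MvPolynomial (Fin 3) ℂ →ₗ[ℂ] ℂ, ℓ p = ∫ y, ℓ (F y) * f y ∂σ := by
  refine ⟨∑ m ∈ fdS n, (∫ y, coeff m (F y) * f y ∂σ) • monomial m (1 : ℂ), ?_, ?_⟩
  · refine IsHomogeneous.sum _ _ _ fun m hm => ?_
    rw [smul_monomial]
    refine isHomogeneous_monomial _ ?_
    rw [fdS, Finset.mem_finsuppAntidiag] at hm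
    rw [Finsupp.degree_eq_sum]
    exact hm.1
  · intro ℓ
    have h1 : ∀ y, ℓ (F y) * f y = ∑ m ∈ fdS n, ℓ (monomial m 1) * (coeff m (F y) * f y) := by
      intro y
      conv_lhs => rw [fd_expand (hn y)]
      rw [map_sum, Finset.sum_mul]
      refine Finset.sum_congr rfl fun m _ => ?_
      rw [map_smul, smul_eq_mul]
      ring
    simp_rw [h1]
    rw [integral_finsetSum, map_sum]
    · refine Finset.sum_congr rfl fun m _ => ?_
      rw [map_smul, smul_eq_mul, integral_const_mul, mul_comm]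
    · intro m _
      exact integrable_of_cont (continuous_const.mul ((hF m).mul hf))

/-- the projection of a continuous function is the restriction of a harmonic homogeneous
polynomial -/
theorem proj_mem_HP (n : ℕ) {f : S2 → ℂ} (hf : Continuous f) :
    ∃ p, HP n p ∧ ∀ x, proj n f x = evS p x := by
  have hFc : fdc (fun y => C (((2 * n + 1) / (4 * π) : ℝ) : ℂ) * fdP (krv y) n) :=
    fdc_mul (fdc_const _) (fdc_P n)
  obtain ⟨p, hp, hl⟩ := fd_integral hFc (fun y => (fdP_hom (krv y) n).C_mul _) hf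
  refine ⟨p, ⟨hp, ?_⟩, ?_⟩
  · ext m
    let ℓ : MvPolynomial (Fin 3) ℂ →ₗ[ℂ] ℂ :=
      (lcoeff ℂ m) ∘ₗ (∑ i : Fin 3, (pderiv i).toLinearMap ∘ₗ (pderiv i).toLinearMap)
    have hℓ : ∀ q, ℓ q = coeff m (fdL q) := by
      intro q
      simp [ℓ, fdL, lcoeff]
    have h := hl ℓ
    simp only [hℓ] at h
    have h0 : ∀ y : S2, coeff m (fdL (C (((2 * n + 1) / (4 * π) : ℝ) : ℂ) * fdP (krv y) n)) = 0 := by
      intro y
      rw [fdL_C, fdP_L (krv_self y)]
      simp
    simp only [h0, zero_mul, integral_zero] at h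
    simpa [fdL] using h
  · intro x
    let ℓ : MvPolynomial (Fin 3) ℂ →ₗ[ℂ] ℂ :=
      (MvPolynomial.aeval (R := ℂ) (fun i => ((x : E3) i : ℂ))).toLinearMap
    have hℓ : ∀ q, ℓ q = evS q x := by
      intro q
      simp [ℓ, evS, aeval_eq_eval]
    have h := hl ℓ
    simp only [hℓ] at h
    rw [h]
    unfold proj
    refine integral_congr_ae (Eventually.of_forall fun y => ?_)
    simp only
    have e := evS_P y x n
    unfold evS at e ⊢
    rw [map_mul, e, eval_C, Z]
    push_cast
    ring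

/-! ### polynomials have finite degree -/

theorem fd_har_coord (i : Fin 3) : Har 1 (fun x : S2 => ((x : E3) i : ℂ)) := by
  refine ⟨by fun_prop, fun x => ?_⟩
  let e : S2 := ⟨EuclideanSpace.single i 1, by simp⟩
  have he : ∀ y : S2, ip y e = (y : E3) i := by
    intro y
    simp [ip, e, EuclideanSpace.inner_single_right]
  have h := Zc_conv 1 1 x e
  simp only [if_true, Z, leg, he] at h
  unfold proj
  have hpi : (π : ℂ) ≠ 0 := by exact_mod_cast Real.pi_ne_zero
  have h2 : ∀ y : S2, (Z 1 (ip x y) : ℂ) * ((y : E3) i : ℂ) = (4 * π / 3) *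
      ((((2 * ((1 : ℕ) : ℝ) + 1) / (4 * π) * ip x y : ℝ) : ℂ)
        * (((2 * ((1 : ℕ) : ℝ) + 1) / (4 * π) * (y : E3) i : ℝ) : ℂ)) := by
    intro y
    simp only [Z, leg]
    push_cast
    field_simp
    ring
  simp_rw [h2]
  rw [integral_const_mul, h]
  push_cast
  field_simp
  ring

theorem evS_deg {n : ℕ} {p : MvPolynomial (Fin 3) ℂ} (hp : p.IsHomogeneous n) :
    Deg n (evS p) := by
  have h1 : evS p = fun x : S2 => ∑ m ∈ fdS n, coeff m p * (((x : E3) 0 : ℂ) ^ m 0
      * ((x : E3) 1 : ℂ) ^ m 1 * ((x : E3) 2 : ℂ) ^ m 2) := by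
    funext x
    unfold evS
    conv_lhs => rw [fd_expand hp]
    rw [map_sum]
    refine Finset.sum_congr rfl fun m _ => ?_
    rw [smul_eval, eval_monomial, Finsupp.prod_fintype _ _ (by simp)]
    simp [Fin.prod_univ_three]
  rw [h1]
  refine deg_sum (fdS n) _ fun m hm => ?_
  have hd : ∀ i : Fin 3, Deg (m i) (fun x : S2 => ((x : E3) i : ℂ) ^ m i) := by
    intro i
    simpa using deg_pow (deg_har (le_refl 1) (fd_har_coord i)) (m i)
  have hc : Deg 0 (fun _ : S2 => coeff m p) := by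
    simpa using deg_har (le_refl 0) (har_const_mul (coeff m p) nk_one)
  have h2 := deg_mul hc (deg_mul (deg_mul (hd 0) (hd 1)) (hd 2))
  rw [fdS, Finset.mem_finsuppAntidiag] at hm
  have h3 : 0 + (m 0 + m 1 + m 2) = n := by
    have := hm.1
    simp [Fin.sum_univ_three] at this
    omega
  rw [h3] at h2
  exact h2

theorem evS_cont (p : MvPolynomial (Fin 3) ℂ) : Continuous (evS p) := by
  unfold evS
  have h : Continuous (fun v : Fin 3 → ℂ => eval v p) := MvPolynomial.continuous_eval p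
  exact h.comp (by fun_prop)

/-- homogeneity of the evaluation -/
theorem fd_eval_smul {n : ℕ} {p : MvPolynomial (Fin 3) ℂ} (hp : p.IsHomogeneous n) (t : ℂ)
    (v : Fin 3 → ℂ) : eval (fun i => t * v i) p = t ^ n * eval v p := by
  rw [fd_expand hp, map_sum, map_sum, Finset.mul_sum]
  refine Finset.sum_congr rfl fun m hm => ?_
  rw [fdS, Finset.mem_finsuppAntidiag] at hm
  rw [smul_eval, smul_eval, eval_monomial, eval_monomial, Finsupp.prod_fintype _ _ (by simp),
    Finsupp.prod_fintype _ _ (by simp)]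
  simp only [mul_pow, Finset.prod_mul_distrib, one_mul]
  rw [Finset.prod_pow_eq_pow_sum, hm.1]
  ring

theorem fd_reindex (n : ℕ) (G : ℕ → ℂ) :
    ∑ j ∈ Finset.range (n + 1), (1 + (-1) ^ (n + j)) * G j
      = ∑ i ∈ Finset.range (n / 2 + 1), 2 * G (n - 2 * i) := by
  rw [← Finset.sum_filter_add_sum_filter_not _ (fun j => Even (n + j))]
  rw [Finset.sum_eq_zero (s := (Finset.range (n + 1)).filter (fun j => ¬ Even (n + j))), add_zero]
  · refine Finset.sum_nbij' (fun j => (n - j) / 2) (fun i => n - 2 * i) ?_ ?_ ?_ ?_ ?_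
    · intro j hj
      simp only [Finset.mem_filter, Finset.mem_range] at hj ⊢
      omega
    · intro i hi
      simp only [Finset.mem_filter, Finset.mem_range] at hi ⊢
      refine ⟨by omega, ⟨n - i, by omega⟩⟩
    · intro j hj
      simp only [Finset.mem_filter, Finset.mem_range] at hj
      obtain ⟨h1, k, hk⟩ := hj
      omega
    · intro i hi
      simp only [Finset.mem_range] at hi
      omega
    · intro j hj
      simp only [Finset.mem_filter, Finset.mem_range] at hj
      obtain ⟨h1, h2⟩ := hj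
      rw [h2.neg_one_pow]
      obtain ⟨k, hk⟩ := h2
      rw [show n - 2 * ((n - j) / 2) = j by omega]
      norm_num
  · intro j hj
    rw [Finset.mem_filter] at hj
    rw [(Nat.not_even_iff_odd.1 hj.2).neg_one_pow]
    ring

/-- the classical spherical harmonics of degree `n` are reproduced by `proj n` -/
theorem proj_of_HP {n : ℕ} {p : MvPolynomial (Fin 3) ℂ} (hp : HP n p) (x : S2) :
    proj n (evS p) x = evS p x := by
  have hc := evS_cont p
  choose q hq hqe using fun j => proj_mem_HP j hc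
  have hdeg := (evS_deg hp.1).2
  -- the identity on the sphere
  have hsph : ∀ x : S2, evS p x = ∑ i ∈ Finset.range (n / 2 + 1), evS (q (n - 2 * i)) x := by
    intro x
    have h1 := hdeg x
    have h2 := hdeg (-x)
    simp only [hqe] at h1 h2
    have hneg : ∀ {d : ℕ} {g : MvPolynomial (Fin 3) ℂ}, g.IsHomogeneous d →
        evS g (-x) = (-1) ^ d * evS g x := by
      intro d g hg
      have := fd_eval_smul hg (-1) (fun i => ((x : E3) i : ℂ))
      unfold evS
      rw [← this]
      congr 2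
      funext i
      simp
    rw [hneg hp.1] at h2
    have h3 : evS p x = ∑ j ∈ Finset.range (n + 1), (-1) ^ (n + j) * evS (q j) x := by
      have h4 : evS p x = (-1) ^ n * ((-1) ^ n * evS p x) := by
        rw [← mul_assoc, ← pow_add, ← two_mul, pow_mul]
        norm_num
      rw [h4, h2, Finset.mul_sum]
      refine Finset.sum_congr rfl fun j _ => ?_
      rw [hneg (hq j).1, pow_add]
      ring
    have h5 : 2 * evS p x = ∑ i ∈ Finset.range (n / 2 + 1), 2 * evS (q (n - 2 * i)) x := by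
      rw [← fd_reindex n (fun j => evS (q j) x)]
      simp only [add_mul, one_mul]
      rw [Finset.sum_add_distrib, ← h1, ← h3]
      ring
    rw [← Finset.mul_sum] at h5
    exact mul_left_cancel₀ two_ne_zero h5
  -- the polynomial identity
  have hpoly : p = ∑ i ∈ Finset.range (n / 2 + 1), fdr ^ i * q (n - 2 * i) := by
    refine funext_set (fun _ => (fun t : ℝ => (t : ℂ)) '' {t | t ≠ 0}) (fun _ => ?_) fun v hv => ?_
    · refine Set.Infinite.image (fun a _ b _ h => by exact_mod_cast h) ?_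
      have : {t : ℝ | t ≠ 0} = {0}ᶜ := by ext; simp
      rw [this]
      exact (Set.finite_singleton (0 : ℝ)).infinite_compl
    · simp only [Set.mem_pi, Set.mem_univ, forall_const, Set.mem_image, Set.mem_ofPred_eq] at hv
      choose w hw hwv using hv
      let W : E3 := WithLp.toLp 2 w
      have hW : W ≠ 0 := by
        intro h
        apply hw 0
        have := congrArg (fun u : E3 => u 0) h
        simpa [W] using this
      have hWn : ‖W‖ ≠ 0 := norm_ne_zero_iff.2 hW
      let y : S2 := ⟨‖W‖⁻¹ • W, by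
        rw [mem_sphere_zero_iff_norm, norm_smul, norm_inv, norm_norm, inv_mul_cancel₀ hWn]⟩
      have hv2 : v = fun i => (‖W‖ : ℂ) * (((y : E3) i : ℝ) : ℂ) := by
        funext i
        rw [← hwv i]
        have : (y : E3) i = ‖W‖⁻¹ * w i := by simp [y, W]
        rw [this]
        have hWc : (‖W‖ : ℂ) ≠ 0 := by exact_mod_cast hWn
        push_cast
        field_simp
      rw [hv2]
      have hr : eval (fun i => (‖W‖ : ℂ) * (((y : E3) i : ℝ) : ℂ)) fdr = (‖W‖ : ℂ) ^ 2 := by
        rw [fd_eval_smul fdr_hom]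
        have := evS_r y
        unfold evS at this
        rw [this, mul_one]
      rw [fd_eval_smul hp.1, map_sum]
      have := hsph y
      unfold evS at this
      rw [this, Finset.mul_sum]
      refine Finset.sum_congr rfl fun i hi => ?_
      rw [Finset.mem_range] at hi
      rw [map_mul, map_pow, hr, fd_eval_smul (hq _).1, ← pow_mul, ← mul_assoc, ← pow_add,
        show 2 * i + (n - 2 * i) = n by omega]
  -- uniqueness
  have hqn : q n - p = 0 := by
    have h0 := fd_unique (n / 2 + 1) (fun i => n - 2 * i)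
      (fun i => if i = 0 then q n - p else q (n - 2 * i)) (fun i => ?_) ?_ 0 (by omega)
    · simpa using h0
    · by_cases hi : i = 0
      · subst hi
        simpa using HP_sub (hq n) hp
      · simpa [hi] using hq (n - 2 * i)
    · rw [Finset.sum_range_succ']
      rw [Finset.sum_range_succ'] at hpoly
      simp only [Nat.add_eq_zero_iff, one_ne_zero, and_false, if_false, if_true, pow_zero,
        one_mul, mul_zero, Nat.sub_zero] at hpoly ⊢
      linear_combination -hpoly
  have hpq : q n = p := sub_eq_zero.1 hqn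
  rw [hqe n x, hpq]

/-- **`proj n` is the orthogonal projection of `L²(S²)` onto the classical spherical harmonics of
degree `n`**: for continuous `f` (a dense class), `proj n f` is the restriction of a homogeneous
harmonic polynomial of degree `n`, and `f - proj n f` is orthogonal to all of them. -/
theorem proj_orthogonal (n : ℕ) {f : S2 → ℂ} (hf : Continuous f) :
    (∃ p, HP n p ∧ ∀ x, proj n f x = evS p x) ∧
      ∀ q, HP n q → inn (fun x => f x - proj n f x) (evS q) = 0 := by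
  refine ⟨proj_mem_HP n hf, fun q hq => ?_⟩
  rw [inn_sub_left hf (proj_cont n hf) (evS_cont q), inn_proj n hf (evS_cont q)]
  have : proj n (evS q) = evS q := funext fun x => proj_of_HP hq x
  rw [this, sub_self]

/-- a function is a spherical harmonic (`Har n`) if and only if it is the restriction of a
homogeneous harmonic polynomial of degree `n` -/
theorem har_iff_HP (n : ℕ) (f : S2 → ℂ) : Har n f ↔ ∃ p, HP n p ∧ f = evS p := by
  constructor
  · intro h
    obtain ⟨p, hp, he⟩ := proj_mem_HP n h.cont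
    exact ⟨p, hp, funext fun x => by rw [← he x, h.rep x]⟩
  · rintro ⟨p, hp, rfl⟩
    exact ⟨evS_cont p, proj_of_HP hp⟩

end

end Pool.Agent.DW
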