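import Pool.Agent.DW.Upper

/-!
# Existence of the flow
-/

open MeasureTheory Metric Complex Filter Topology Real
open scoped ENNReal NNReal RealInnerProductSpace

namespace Pool.Agent.DW

noncomputable section

theorem fe_summable {f : S2 → ℂ} (hf : Continuous f) : Summable fun n => N2 (proj n f) :=
  summable_of_sum_le (c := N2 f) (fun n => N2_nonneg _) fun s => bessel s hf

theorem fe_memLp {w : S2 → ℂ} (hw : Continuous w) : MemLp w 2 σ := by
  refine ⟨hw.aestronglyMeasurable, ?_⟩
  rw [up_eLp2' hw]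
  exact ENNReal.ofReal_lt_top

/-- the flow exists for every continuous datum -/
theorem flow_exists {f : S2 → ℂ} (hf : Continuous f) : ∃ u, IsFlow f u := by
  suffices h : ∀ t : ℝ, ∃ v : S2 → ℂ, AEStronglyMeasurable v σ ∧
      Tendsto (fun K : ℕ => eLpNorm (fun x => v x
        - ∑ n ∈ Finset.range K, cexp (I * t * Lam n) * proj n f x) 2 σ) atTop (𝓝 0) by
    choose u hu using h
    exact ⟨u, hu⟩
  intro t
  have hP : ∀ n, Continuous (proj n f) := fun n => proj_cont n hf
  set F : ℕ → Lp ℂ 2 σ := fun K =>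
    (fe_memLp (upw_cont hP (Finset.range K) t)).toLp _ with hF
  have hdist : ∀ L K, L ≤ K → dist (F K) (F L) ^ 2 = ∑ n ∈ Finset.Ico L K, N2 (proj n f) := by
    intro L K hLK
    have e1 : F K - F L = (fe_memLp (upw_cont hP (Finset.Ico L K) t)).toLp _ := by
      simp only [hF]
      rw [← MemLp.toLp_sub]
      congr 1
      funext x
      simp only [Pi.sub_apply, upw]
      rw [← Finset.sum_range_add_sum_Ico _ hLK]
      ring
    rw [dist_eq_norm, e1, Lp.norm_toLp, up_eLp2' (upw_cont hP _ t),
      ENNReal.toReal_ofReal (Real.sqrt_nonneg _), Real.sq_sqrt (N2_nonneg _),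
      upw_N2 (fun n => proj_har n hf)]
  have hsum := fe_summable hf
  have hC : CauchySeq F := by
    rw [Metric.cauchySeq_iff']
    intro ε hε
    have h1 := hsum.hasSum.tendsto_sum_nat
    have h2 := (Metric.tendsto_atTop.1 h1) (ε ^ 2) (by positivity)
    obtain ⟨L, hL⟩ := h2
    refine ⟨L, fun K hK => ?_⟩
    have h3 := hL L le_rfl
    have h4 : ∑ n ∈ Finset.range K, N2 (proj n f) ≤ ∑' n, N2 (proj n f) :=
      hsum.sum_le_tsum _ fun n _ => N2_nonneg _
    have h5 := Finset.sum_range_add_sum_Ico (fun n => N2 (proj n f)) hK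
    rw [Real.dist_eq, abs_lt] at h3
    have h6 : dist (F K) (F L) ^ 2 < ε ^ 2 := by
      rw [hdist L K hK]
      linarith
    exact lt_of_pow_lt_pow_left₀ 2 hε.le h6
  obtain ⟨g, hg⟩ := cauchySeq_tendsto_of_complete hC
  refine ⟨g, Lp.aestronglyMeasurable g, ?_⟩
  rw [Lp.tendsto_Lp_iff_tendsto_eLpNorm'] at hg
  refine hg.congr fun K => ?_
  rw [eLpNorm_sub_comm]
  refine eLpNorm_congr_ae ?_
  filter_upwards [(fe_memLp (upw_cont hP (Finset.range K) t)).coeFn_toLp] with x hx
  simp only [Pi.sub_apply]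
  rw [hx]
  rfl

/-- the flow is unique up to null sets -/
theorem flow_unique {f : S2 → ℂ} {u v : ℝ → S2 → ℂ} (hf : Continuous f) (hu : IsFlow f u)
    (hv : IsFlow f v) (t : ℝ) : u t =ᵐ[σ] v t := by
  have hP : ∀ n, Continuous (proj n f) := fun n => proj_cont n hf
  have hw : ∀ K, AEStronglyMeasurable
      (fun x => ∑ n ∈ Finset.range K, cexp (I * t * Lam n) * proj n f x) σ :=
    fun K => (upw_cont hP (Finset.range K) t).aestronglyMeasurable
  have h0 : eLpNorm (u t - v t) 2 σ = 0 := by
    have h1 := (hu t).2.add (hv t).2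
    rw [add_zero] at h1
    refine le_antisymm (ge_of_tendsto h1 (Eventually.of_forall fun K => ?_)) bot_le
    have e : u t - v t = (fun x => (u t x - ∑ n ∈ Finset.range K, cexp (I * t * Lam n) * proj n f x))
        - fun x => (v t x - ∑ n ∈ Finset.range K, cexp (I * t * Lam n) * proj n f x) := by
      funext x
      simp only [Pi.sub_apply]
      ring
    rw [e]
    exact eLpNorm_sub_le ((hu t).1.sub (hw K)) ((hv t).1.sub (hw K)) (by norm_num)
  have h2 := (eLpNorm_eq_zero_iff ((hu t).1.sub (hv t).1) two_ne_zero).1 h0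
  filter_upwards [h2] with x hx
  simpa [sub_eq_zero] using hx

end

end Pool.Agent.DW
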