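import Pool.Agent.DW.Upper
import Pool.Agent.DW.Adams

/-!
# The Strichartz estimates for `1 ≤ q ≤ 2`
-/

open MeasureTheory Metric Complex Filter Topology Real
open scoped ENNReal NNReal RealInnerProductSpace Manifold ContDiff

namespace Pool.Agent.DW

noncomputable section

theorem small_upper (p q : ℝ≥0∞) (hq : 1 ≤ q) (hq2 : q ≤ 2) (s : ℝ) (hs : 0 ≤ s) :
    Strichartz p q s := by
  intro T hT
  have hq0 : q ≠ 0 := (lt_of_lt_of_le one_pos hq).ne'
  have hqr0 : 0 < q.toReal := ENNReal.toReal_pos hq0 (hq2.trans_lt (by norm_num)).ne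
  have hqr : q.toReal ≤ 2 := by
    have := ENNReal.toReal_mono (by norm_num) hq2
    simpa using this
  set c1 : ℝ≥0∞ := (volume.restrict (Set.Icc 0 T)) Set.univ ^ p.toReal⁻¹ with hc1
  set c2 : ℝ≥0∞ := σ Set.univ ^ (1 / q.toReal - 1 / (2 : ℝ≥0∞).toReal) with hc2
  have hc1t : c1 ≠ ⊤ := ENNReal.rpow_ne_top_of_nonneg (by positivity) (measure_ne_top _ _)
  have hc2t : c2 ≠ ⊤ := by
    refine ENNReal.rpow_ne_top_of_nonneg ?_ (measure_ne_top _ _)
    have : 1 / (2 : ℝ) ≤ 1 / q.toReal := one_div_le_one_div_of_le hqr0 hqr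
    simp only [ENNReal.toReal_ofNat]
    linarith
  refine ⟨(c1 * c2).toNNReal, fun f hf u hu => ?_⟩
  rw [ENNReal.coe_toNNReal (ENNReal.mul_ne_top hc1t hc2t)]
  have hc := hf.continuous
  have hb : ∀ t, eLpNorm (u t) 2 σ ≤ Hs s f := fun t => up_flow hc hu t (fun K => by
    rw [up_eLp2' (upw_cont (fun n => proj_cont n hc) _ t), upw_N2 (fun n => proj_har n hc)]
    exact up_Hs_zero s hs hc _)
  have hb2 : ∀ t, eLpNorm (u t) q σ ≤ Hs s f * c2 := fun t =>
    (eLpNorm_le_eLpNorm_mul_rpow_measure_univ hq2 (hu t).1).trans (mul_le_mul_left (hb t) _)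
  have h1 := eLpNorm_le_of_ae_enorm_bound (μ := volume.restrict (Set.Icc 0 T)) (p := p)
    (f := fun t => eLpNorm (u t) q σ) (C := Hs s f * c2)
    (Eventually.of_forall fun t => by simpa using hb2 t)
  refine h1.trans (le_of_eq ?_)
  rw [smul_eq_mul]
  ring

/-- the zonal function with pole `e` -/
def zf (e : S2) (n : ℕ) (x : S2) : ℂ := (Z n (ip e x) : ℂ)

theorem zf_cont (e : S2) (n : ℕ) : Continuous (zf e n) := Zc_cont_right n e

theorem zf_har (e : S2) (n : ℕ) : Har n (zf e n) := by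
  refine ⟨zf_cont e n, fun x => ?_⟩
  have h := Zc_conv n n x e
  rw [if_pos rfl] at h
  unfold proj zf
  simp_rw [fun y => ip_comm e y]
  exact h

theorem Z_one (n : ℕ) : Z n 1 = (2 * n + 1) / (4 * π) := by
  unfold Z
  rw [leg_one, mul_one]

theorem zf_N2 (e : S2) (n : ℕ) : N2 (zf e n) = (2 * n + 1) / (4 * π) := by
  have h := Z_conv n n e e
  rw [if_pos rfl, ip_self, Z_one] at h
  rw [← h]
  unfold N2 zf
  refine integral_congr_ae (Eventually.of_forall fun x => ?_)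
  simp only [Complex.norm_real, Real.norm_eq_abs, sq_abs]
  rw [ip_comm x e, sq]

theorem zf_four (e : S2) (n : ℕ) : ∫ x, ‖zf e n x‖ ^ 4 ∂σ =
    ∑ j ∈ Finset.range (n + n + 1), kap n n j ^ 2 * ((2 * j + 1) / (4 * π)) := by
  have h1 : N2 (fun x => ∑ j ∈ Finset.range (n + n + 1), (kap n n j : ℂ) * zf e j x) =
      ∑ j ∈ Finset.range (n + n + 1), N2 (fun x => (kap n n j : ℂ) * zf e j x) :=
    N2_sum_har _ (fun j x => (kap n n j : ℂ) * zf e j x) fun j => har_const_mul _ (zf_har e j)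
  have h2 : ∀ j, N2 (fun x => (kap n n j : ℂ) * zf e j x) =
      kap n n j ^ 2 * ((2 * j + 1) / (4 * π)) := by
    intro j
    rw [← zf_N2 e j]
    unfold N2
    rw [← integral_const_mul]
    refine integral_congr_ae (Eventually.of_forall fun x => ?_)
    simp only [norm_mul, Complex.norm_real, Real.norm_eq_abs, mul_pow, sq_abs]
  simp_rw [h2] at h1
  rw [← h1]
  unfold N2
  refine integral_congr_ae (Eventually.of_forall fun x => ?_)
  have h3 : (∑ j ∈ Finset.range (n + n + 1), (kap n n j : ℂ) * zf e j x) = zf e n x * zf e n x := by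
    have h4 := Z_mul n n (ip e x)
    unfold zf
    rw [← Complex.ofReal_mul, h4]
    push_cast
    rfl
  simp only [h3, norm_mul]
  ring

/-- the harmonic sum in the fourth moment -/
theorem small_sum (n : ℕ) :
    ∑ j ∈ Finset.range (n + n + 1), 1 / (((j : ℝ) + 1) * (2 * n - j + 1)) ≤
      (1 + Real.log (2 * n + 1)) / (n + 1) := by
  have hH : ∑ j ∈ Finset.range (n + n + 1), 1 / ((j : ℝ) + 1) ≤ 1 + Real.log (2 * n + 1) := by
    have h := harmonic_le_one_add_log (n + n + 1)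
    rw [harmonic] at h
    push_cast at h
    refine le_trans (le_of_eq ?_) (h.trans (le_of_eq ?_))
    · exact Finset.sum_congr rfl fun j _ => by rw [one_div]
    · congr 2
      ring
  have hr : ∑ j ∈ Finset.range (n + n + 1), 1 / (2 * (n : ℝ) - j + 1) =
      ∑ j ∈ Finset.range (n + n + 1), 1 / ((j : ℝ) + 1) := by
    rw [← Finset.sum_range_reflect]
    refine Finset.sum_congr rfl fun j hj => ?_
    have hj' : j ≤ n + n := by
      have := Finset.mem_range.1 hj
      omega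
    congr 1
    have : n + n + 1 - 1 - j = n + n - j := by omega
    rw [this, Nat.cast_sub hj']
    push_cast
    ring
  have hterm : ∀ j ∈ Finset.range (n + n + 1), 1 / (((j : ℝ) + 1) * (2 * n - j + 1)) =
      (1 / (2 * (n + 1))) * (1 / ((j : ℝ) + 1) + 1 / (2 * (n : ℝ) - j + 1)) := by
    intro j hj
    have hj' : (j : ℝ) ≤ 2 * n := by
      have := Finset.mem_range.1 hj
      have h2 : j ≤ 2 * n := by omega
      exact_mod_cast h2
    have h1 : (0 : ℝ) < (j : ℝ) + 1 := by positivity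
    have h2 : (0 : ℝ) < 2 * (n : ℝ) - j + 1 := by linarith
    have h3 : (0 : ℝ) < 2 * ((n : ℝ) + 1) := by positivity
    field_simp
    ring
  rw [Finset.sum_congr rfl hterm, ← Finset.mul_sum, Finset.sum_add_distrib, hr]
  have h3 : (0 : ℝ) < (n : ℝ) + 1 := by positivity
  calc (1 / (2 * ((n : ℝ) + 1))) * (∑ j ∈ Finset.range (n + n + 1), 1 / ((j : ℝ) + 1) +
        ∑ j ∈ Finset.range (n + n + 1), 1 / ((j : ℝ) + 1))
      ≤ (1 / (2 * ((n : ℝ) + 1))) * ((1 + Real.log (2 * n + 1)) + (1 + Real.log (2 * n + 1))) := by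
        gcongr
    _ = _ := by field_simp; ring

theorem kap_sq_le (n j : ℕ) (hj : j ≤ n + n) :
    kap n n j ^ 2 * ((2 * j + 1) / (4 * π)) ≤
      (2 * n + 1) ^ 3 / (2 * π) * (1 / (((j : ℝ) + 1) * (2 * n - j + 1))) := by
  have hj' : (j : ℝ) ≤ 2 * n := by
    have h2 : j ≤ 2 * n := by omega
    exact_mod_cast h2
  have h1 : (0 : ℝ) < (j : ℝ) + 1 := by positivity
  have h2 : (0 : ℝ) < 2 * (n : ℝ) - j + 1 := by linarith
  have h3 : (0 : ℝ) < 2 * (n : ℝ) + 1 := by positivity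
  have hk := kap_le_kb n n j
  have hk0 := kap_nonneg n n j
  have hkb : kb n n j ^ 2 = (2 * n + 1) ^ 4 / ((2 * (n : ℝ) + j + 1) * ((j : ℝ) + 1) ^ 2 *
      (2 * n - j + 1)) := by
    unfold kb
    rw [if_pos ⟨by omega, by omega, by omega⟩, div_pow, Real.sq_sqrt]
    · congr 1
      · ring
      · ring
    · have e1 : (0 : ℝ) ≤ (n : ℝ) + n - j + 1 := by linarith
      have e2 : (0 : ℝ) ≤ (n : ℝ) + j - n + 1 := by linarith
      positivity
  have hk2 : kap n n j ^ 2 ≤ kb n n j ^ 2 := pow_le_pow_left₀ hk0 hk 2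
  have hjn : (0 : ℝ) ≤ (j : ℝ) := by positivity
  calc kap n n j ^ 2 * ((2 * j + 1) / (4 * π))
      ≤ kb n n j ^ 2 * ((2 * j + 1) / (4 * π)) := by gcongr
    _ = (2 * n + 1) ^ 4 / ((2 * (n : ℝ) + j + 1) * ((j : ℝ) + 1) ^ 2 *
      (2 * n - j + 1)) * ((2 * j + 1) / (4 * π)) := by rw [hkb]
    _ ≤ (2 * n + 1) ^ 4 / ((2 * (n : ℝ) + 1) * ((j : ℝ) + 1) ^ 2 *
      (2 * n - j + 1)) * ((2 * (j + 1)) / (4 * π)) := by
        gcongr
        · linarith
        · linarith
    _ = _ := by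
        field_simp
        ring

theorem zf_four_le (e : S2) (n : ℕ) : ∫ x, ‖zf e n x‖ ^ 4 ∂σ ≤
    16 * π * (1 + Real.log (2 * n + 1)) * N2 (zf e n) ^ 2 := by
  rw [zf_four, zf_N2]
  have hlog : 0 ≤ Real.log (2 * (n : ℝ) + 1) := Real.log_nonneg (by
    have : (0 : ℝ) ≤ n := n.cast_nonneg
    linarith)
  calc ∑ j ∈ Finset.range (n + n + 1), kap n n j ^ 2 * ((2 * j + 1) / (4 * π))
      ≤ ∑ j ∈ Finset.range (n + n + 1),
        (2 * n + 1) ^ 3 / (2 * π) * (1 / (((j : ℝ) + 1) * (2 * n - j + 1))) :=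
        Finset.sum_le_sum fun j hj => kap_sq_le n j (by
          have := Finset.mem_range.1 hj
          omega)
    _ = (2 * n + 1) ^ 3 / (2 * π) *
        ∑ j ∈ Finset.range (n + n + 1), 1 / (((j : ℝ) + 1) * (2 * n - j + 1)) := by
        rw [Finset.mul_sum]
    _ ≤ (2 * n + 1) ^ 3 / (2 * π) * ((1 + Real.log (2 * n + 1)) / (n + 1)) := by
        gcongr
        exact small_sum n
    _ ≤ (2 * n + 1) ^ 2 * (2 * (n + 1)) / (2 * π) * ((1 + Real.log (2 * n + 1)) / (n + 1)) := by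
        have h1 : (2 * (n : ℝ) + 1) ^ 3 ≤ (2 * n + 1) ^ 2 * (2 * (n + 1)) := by
          rw [pow_succ]
          gcongr
          linarith
        gcongr
    _ = _ := by
        field_simp
        ring

/-- lower bound for the `L¹` norm -/
theorem zf_one_ge (e : S2) (n : ℕ) :
    N2 (zf e n) ≤ 16 * π * (1 + Real.log (2 * n + 1)) * (∫ x, ‖zf e n x‖ ∂σ) ^ 2 := by
  set I1 := ∫ x, ‖zf e n x‖ ∂σ with hI1
  set I2 := N2 (zf e n) with hI2
  set I3 := ∫ x, ‖zf e n x‖ ^ 3 ∂σ with hI3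
  set I4 := ∫ x, ‖zf e n x‖ ^ 4 ∂σ with hI4
  set L := 16 * π * (1 + Real.log (2 * n + 1)) with hL
  have hc : Continuous fun x => ‖zf e n x‖ := (zf_cont e n).norm
  have h4 : I4 ≤ L * I2 ^ 2 := zf_four_le e n
  have hI2pos : 0 < I2 := by
    rw [hI2, zf_N2]
    positivity
  have hI1n : 0 ≤ I1 := integral_nonneg fun x => norm_nonneg _
  have hI4n : 0 ≤ I4 := integral_nonneg fun x => by positivity
  -- Cauchy-Schwarz for `‖f‖² = ‖f‖^(1/2) ‖f‖^(3/2)`
  have c1 : I2 ^ 2 ≤ I1 * I3 := by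
    have h := cs_real (u := fun x => √‖zf e n x‖) (v := fun x => √‖zf e n x‖ * ‖zf e n x‖)
      (Real.continuous_sqrt.comp hc) ((Real.continuous_sqrt.comp hc).mul hc)
    have e1 : ∀ x, √‖zf e n x‖ * (√‖zf e n x‖ * ‖zf e n x‖) = ‖zf e n x‖ ^ 2 := by
      intro x
      rw [← mul_assoc, Real.mul_self_sqrt (norm_nonneg _), sq]
    have e2 : ∀ x, √‖zf e n x‖ ^ 2 = ‖zf e n x‖ := fun x => Real.sq_sqrt (norm_nonneg _)
    have e3 : ∀ x, (√‖zf e n x‖ * ‖zf e n x‖) ^ 2 = ‖zf e n x‖ ^ 3 := by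
      intro x
      rw [mul_pow, e2]
      ring
    simp_rw [e1, e2, e3] at h
    exact h
  have c2 : I3 ^ 2 ≤ I2 * I4 := by
    have h := cs_real (u := fun x => ‖zf e n x‖) (v := fun x => ‖zf e n x‖ ^ 2) hc (hc.pow 2)
    have e1 : ∀ x, ‖zf e n x‖ * ‖zf e n x‖ ^ 2 = ‖zf e n x‖ ^ 3 := fun x => by ring
    have e3 : ∀ x, (‖zf e n x‖ ^ 2) ^ 2 = ‖zf e n x‖ ^ 4 := fun x => by ring
    simp_rw [e1, e3] at h
    exact h
  have c3 : I2 ^ 4 ≤ I1 ^ 2 * (I2 * (L * I2 ^ 2)) := by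
    calc I2 ^ 4 = (I2 ^ 2) ^ 2 := by ring
      _ ≤ (I1 * I3) ^ 2 := pow_le_pow_left₀ (by positivity) c1 2
      _ = I1 ^ 2 * I3 ^ 2 := by ring
      _ ≤ I1 ^ 2 * (I2 * I4) := by gcongr
      _ ≤ I1 ^ 2 * (I2 * (L * I2 ^ 2)) := by gcongr
  have c4 : I2 ^ 3 * I2 ≤ I2 ^ 3 * (L * I1 ^ 2) := by
    calc I2 ^ 3 * I2 = I2 ^ 4 := by ring
      _ ≤ _ := c3
      _ = _ := by ring
  exact le_of_mul_le_mul_left c4 (by positivity)

theorem leg_contDiff (n : ℕ) : ContDiff ℝ ∞ (leg n) := by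
  induction n using Nat.strong_induction_on with
  | _ n ih =>
    match n with
    | 0 =>
      have : leg 0 = fun _ => 1 := by ext; simp [leg]
      rw [this]
      exact contDiff_const
    | 1 =>
      have : leg 1 = fun s => s := by ext; simp [leg]
      rw [this]
      exact contDiff_id
    | n + 2 =>
      have h1 := ih (n + 1) (by omega)
      have h0 := ih n (by omega)
      have : leg (n + 2) = fun s => ((2 * n + 3) * s * leg (n + 1) s - (n + 1) * leg n s) / (n + 2) := by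
        ext s
        simp [leg]
      rw [this]
      exact (((contDiff_const.mul contDiff_id).mul h1).sub (contDiff_const.mul h0)).div_const _

instance fact_finrank_E3 : Fact (Module.finrank ℝ E3 = 2 + 1) := ⟨by simp⟩

theorem zf_smooth (e : S2) (n : ℕ) : ContMDiff (𝓡 2) 𝓘(ℝ, ℂ) ∞ (zf e n) := by
  have h1 : ContDiff ℝ ∞ (fun y : E3 => ((Z n ⟪(e : E3), y⟫ : ℝ) : ℂ)) := by
    have h2 : ContDiff ℝ ∞ (fun y : E3 => Z n ⟪(e : E3), y⟫) := by
      unfold Z
      exact contDiff_const.mul ((leg_contDiff n).comp (contDiff_const.inner ℝ contDiff_id))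
    exact Complex.ofRealCLM.contDiff.comp h2
  exact h1.contMDiff.comp (contMDiff_coe_sphere (n := 2))

/-- the flow of a harmonic -/
theorem har_flow {n : ℕ} {f : S2 → ℂ} (hf : Har n f) :
    IsFlow f (fun t x => cexp (I * t * Lam n) * f x) := by
  intro t
  refine ⟨(continuous_const.mul hf.cont).aestronglyMeasurable, ?_⟩
  refine tendsto_const_nhds.congr' ?_
  filter_upwards [eventually_gt_atTop n] with K hK
  have h : (fun x => cexp (I * t * Lam n) * f x
      - ∑ m ∈ Finset.range K, cexp (I * t * Lam m) * proj m f x) = fun _ => 0 := by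
    funext x
    rw [Finset.sum_eq_single_of_mem n (Finset.mem_range.2 hK), hf.rep, sub_self]
    intro m _ hmn
    rw [har_proj_ne hmn hf, mul_zero]
  rw [h]
  simp

theorem har_Hs {n : ℕ} {f : S2 → ℂ} (hf : Har n f) (s : ℝ) :
    Hs s f = ENNReal.ofReal ((1 + n : ℝ) ^ s) * eLpNorm f 2 σ := by
  unfold Hs
  rw [tsum_eq_single n]
  · have h1 : proj n f = f := funext hf.rep
    rw [h1, ENNReal.mul_rpow_of_nonneg _ _ (by norm_num), ← ENNReal.rpow_natCast,
      ← ENNReal.rpow_mul, ENNReal.ofReal_rpow_of_nonneg (by positivity) (by norm_num),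
      ← Real.rpow_mul (by positivity)]
    norm_num
    congr 3
    ring
  · intro m hmn
    have h1 : proj m f = fun _ => 0 := funext fun x => har_proj_ne hmn hf x
    rw [h1]
    simp

theorem small_lower (p q : ℝ≥0∞) (hp : 1 ≤ p) (hq : 1 ≤ q) (s : ℝ) (hs : s < 0) :
    ¬ Strichartz p q s := by
  intro hS
  obtain ⟨C, hC⟩ := hS 1 one_pos
  have hp0 : p ≠ 0 := (lt_of_lt_of_le one_pos hp).ne'
  have hne : Nonempty S2 := ⟨⟨EuclideanSpace.single 0 1, by simp⟩⟩
  obtain ⟨e⟩ := hne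
  set c : ℝ≥0∞ := σ Set.univ ^ (1 / (1 : ℝ≥0∞).toReal - 1 / q.toReal) with hc
  have hct : c ≠ ⊤ := by
    refine ENNReal.rpow_ne_top_of_nonneg ?_ (measure_ne_top _ _)
    simp only [ENNReal.toReal_one, div_one]
    by_cases hqt : q = ⊤
    · rw [hqt]
      simp
    · have h1 : 1 ≤ q.toReal := by
        have := ENNReal.toReal_mono hqt hq
        simpa using this
      have : 1 / q.toReal ≤ 1 := by
        rw [div_le_one (by linarith)]
        exact h1
      linarith
  -- the estimate for the zonal functions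
  have key : ∀ n : ℕ, eLpNorm (zf e n) 1 σ ≤
      (C * c) * (ENNReal.ofReal ((1 + n : ℝ) ^ s) * eLpNorm (zf e n) 2 σ) := by
    intro n
    have h1 := hC (zf e n) (zf_smooth e n) _ (har_flow (zf_har e n))
    rw [har_Hs (zf_har e n)] at h1
    have h2 : ∀ t : ℝ, eLpNorm (fun x => cexp (I * t * Lam n) * zf e n x) q σ =
        eLpNorm (zf e n) q σ := by
      intro t
      refine eLpNorm_congr_norm_ae (Eventually.of_forall fun x => ?_)
      rw [norm_mul, norm_cexp_it, one_mul]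
    simp_rw [h2] at h1
    rw [eLpNorm_const _ hp0 (by
      intro h0
      have := congrArg (fun m : Measure ℝ => m Set.univ) h0
      simp at this)] at h1
    have h3 : (volume.restrict (Set.Icc (0 : ℝ) 1)) Set.univ = 1 := by simp
    rw [h3, ENNReal.one_rpow, mul_one, enorm_eq_self] at h1
    have h4 := eLpNorm_le_eLpNorm_mul_rpow_measure_univ (μ := σ) hq
      (zf_cont e n).aestronglyMeasurable
    refine h4.trans ?_
    calc eLpNorm (zf e n) q σ * c
        ≤ (C * (ENNReal.ofReal ((1 + n : ℝ) ^ s) * eLpNorm (zf e n) 2 σ)) * c :=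
          mul_le_mul_left h1 _
      _ = _ := by ring
  -- in real terms
  have hreal : ∀ n : ℕ, ∫ x, ‖zf e n x‖ ∂σ ≤
      (C * c).toReal * ((1 + n : ℝ) ^ s * √(N2 (zf e n))) := by
    intro n
    have h1 := key n
    have e1 : eLpNorm (zf e n) 1 σ = ENNReal.ofReal (∫ x, ‖zf e n x‖ ∂σ) := by
      rw [eLpNorm_one_eq_lintegral_enorm]
      have := up_lint (zf_cont e n) 1
      simpa using this
    have hCc : C * c ≠ ⊤ := ENNReal.mul_ne_top ENNReal.coe_ne_top hct
    rw [e1, up_eLp2' (zf_cont e n), ← ENNReal.ofReal_mul (by positivity),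
      ← ENNReal.ofReal_toReal hCc, ← ENNReal.ofReal_mul ENNReal.toReal_nonneg] at h1
    exact (ENNReal.ofReal_le_ofReal_iff (by positivity)).1 h1
  set D := (C * c).toReal with hD
  have hD0 : 0 ≤ D := ENNReal.toReal_nonneg
  have hfin : ∀ n : ℕ, 1 ≤ 16 * π * (1 + Real.log (2 * n + 1)) * (D ^ 2 * (1 + n : ℝ) ^ (2 * s)) := by
    intro n
    have h1 := zf_one_ge e n
    have h2 := hreal n
    have hpos : 0 < N2 (zf e n) := by
      rw [zf_N2]
      positivity
    have hlog : 0 ≤ Real.log (2 * (n : ℝ) + 1) := Real.log_nonneg (by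
      have : (0 : ℝ) ≤ n := n.cast_nonneg
      linarith)
    have h3 : (∫ x, ‖zf e n x‖ ∂σ) ^ 2 ≤ D ^ 2 * (1 + n : ℝ) ^ (2 * s) * N2 (zf e n) := by
      calc (∫ x, ‖zf e n x‖ ∂σ) ^ 2 ≤ (D * ((1 + n : ℝ) ^ s * √(N2 (zf e n)))) ^ 2 :=
            pow_le_pow_left₀ (integral_nonneg fun x => norm_nonneg _) h2 2
        _ = D ^ 2 * ((1 + n : ℝ) ^ s) ^ 2 * (√(N2 (zf e n))) ^ 2 := by ring
        _ = _ := by
          have e2 : ((1 + n : ℝ) ^ s) ^ 2 = (1 + n : ℝ) ^ (2 * s) := by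
            rw [← Real.rpow_natCast, ← Real.rpow_mul (by positivity)]
            congr 1
            push_cast
            ring
          rw [Real.sq_sqrt hpos.le, e2]
    have h4 : N2 (zf e n) * 1 ≤ N2 (zf e n) *
        (16 * π * (1 + Real.log (2 * n + 1)) * (D ^ 2 * (1 + n : ℝ) ^ (2 * s))) := by
      calc N2 (zf e n) * 1 = N2 (zf e n) := mul_one _
        _ ≤ _ := h1
        _ ≤ 16 * π * (1 + Real.log (2 * n + 1)) * (D ^ 2 * (1 + n : ℝ) ^ (2 * s) * N2 (zf e n)) := by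
          gcongr
        _ = _ := by ring
    exact le_of_mul_le_mul_left h4 hpos
  -- contradiction as `n → ∞`
  have hlim : Tendsto (fun n : ℕ => 16 * π * (1 + Real.log (2 * n + 1)) *
      (D ^ 2 * (1 + n : ℝ) ^ (2 * s))) atTop (𝓝 0) := by
    have hx : Tendsto (fun n : ℕ => (1 + n : ℝ)) atTop atTop :=
      tendsto_atTop_add_const_left _ _ tendsto_natCast_atTop_atTop
    have t1 : Tendsto (fun n : ℕ => (1 + n : ℝ) ^ (2 * s)) atTop (𝓝 0) := by
      have h := (tendsto_rpow_neg_atTop (y := -(2 * s)) (by linarith)).comp hx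
      simpa only [neg_neg, Function.comp_def] using h
    have t2 : Tendsto (fun n : ℕ => (1 + n : ℝ) ^ s) atTop (𝓝 0) := by
      have h := (tendsto_rpow_neg_atTop (y := -s) (by linarith)).comp hx
      simpa only [neg_neg, Function.comp_def] using h
    have t3 : Tendsto (fun n : ℕ => 16 * π * D ^ 2 * ((1 + n : ℝ) ^ (2 * s) +
        2 ^ (-s) / (-s) * (1 + n : ℝ) ^ s)) atTop (𝓝 0) := by
      have h := (t1.add (t2.const_mul (2 ^ (-s) / (-s)))).const_mul (16 * π * D ^ 2)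
      simpa using h
    refine squeeze_zero (fun n => ?_) (fun n => ?_) t3
    · have hlog : 0 ≤ Real.log (2 * (n : ℝ) + 1) := Real.log_nonneg (by
        have : (0 : ℝ) ≤ n := n.cast_nonneg
        linarith)
      positivity
    · have hn : (0 : ℝ) ≤ n := n.cast_nonneg
      have hx0 : (0 : ℝ) < 1 + n := by positivity
      have h1 : Real.log (2 * (n : ℝ) + 1) ≤ (2 * (1 + n : ℝ)) ^ (-s) / (-s) :=
        (Real.log_le_log (by positivity) (by linarith)).trans
          (Real.log_le_rpow_div (by positivity) (by linarith))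
      have h2 : (2 * (1 + n : ℝ)) ^ (-s) = 2 ^ (-s) * (1 + n : ℝ) ^ (-s) :=
        Real.mul_rpow (by norm_num) hx0.le
      have h3 : (1 + n : ℝ) ^ (-s) * (1 + n : ℝ) ^ (2 * s) = (1 + n : ℝ) ^ s := by
        rw [← Real.rpow_add hx0]
        congr 1
        ring
      calc 16 * π * (1 + Real.log (2 * n + 1)) * (D ^ 2 * (1 + n : ℝ) ^ (2 * s))
          ≤ 16 * π * (1 + (2 * (1 + n : ℝ)) ^ (-s) / (-s)) * (D ^ 2 * (1 + n : ℝ) ^ (2 * s)) := by
            gcongr
        _ = 16 * π * D ^ 2 * ((1 + n : ℝ) ^ (2 * s) +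
            2 ^ (-s) / (-s) * ((1 + n : ℝ) ^ (-s) * (1 + n : ℝ) ^ (2 * s))) := by
            rw [h2]
            ring
        _ = _ := by rw [h3]
  have := ge_of_tendsto hlim (Eventually.of_forall hfin)
  linarith

/-- for `q ≤ 2` the estimates hold exactly for `s ≥ 0` -/
theorem small (p q : ℝ≥0∞) (hp : 1 ≤ p) (hq : 1 ≤ q) (hq2 : q ≤ 2) (s : ℝ) :
    Strichartz p q s ↔ 0 ≤ s := by
  refine ⟨fun h => ?_, fun h => small_upper p q hq hq2 s h⟩
  by_contra hs
  exact small_lower p q hp hq s (not_le.1 hs) h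

end

end Pool.Agent.DW
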