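import Pool.Agent.DW.Nik
import Pool.Agent.DW.Small

/-!
# Lower bound by focusing
-/

open MeasureTheory Metric Complex Filter Topology Real
open scoped ENNReal NNReal RealInnerProductSpace Manifold ContDiff

namespace Pool.Agent.DW

noncomputable section

/-- projections of sums of zonal functions -/
theorem fc_proj (e : S2) (s : Finset ℕ) (n : ℕ) (x : S2) :
    proj n (fun x => ∑ m ∈ s, zf e m x) x = if n ∈ s then zf e n x else 0 := by
  rw [proj_sum n s (fun m _ => zf_cont e m)]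
  split_ifs with h
  · rw [Finset.sum_eq_single_of_mem n h, (zf_har e n).rep]
    intro m _ hmn
    exact har_proj_ne (Ne.symm hmn) (zf_har e m) x
  · exact Finset.sum_eq_zero fun m hm => har_proj_ne (by rintro rfl; exact h hm) (zf_har e m) x

/-- the flow of a sum of zonal functions -/
theorem fc_flow (e : S2) (s : Finset ℕ) :
    IsFlow (fun x => ∑ m ∈ s, zf e m x) (upw (zf e) s) := by
  intro t
  refine ⟨(upw_cont (zf_cont e) s t).aestronglyMeasurable, ?_⟩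
  refine tendsto_const_nhds.congr' ?_
  obtain ⟨M, hM⟩ : ∃ M, ∀ n ∈ s, n < M :=
    ⟨s.sup id + 1, fun n hn => Nat.lt_succ_of_le (Finset.le_sup (f := id) hn)⟩
  filter_upwards [eventually_ge_atTop M] with K hK
  have h : (fun x => upw (zf e) s t x - ∑ n ∈ Finset.range K,
      cexp (I * t * Lam n) * proj n (fun x => ∑ m ∈ s, zf e m x) x) = fun _ => 0 := by
    funext x
    simp_rw [fc_proj, mul_ite, mul_zero]
    rw [← Finset.sum_filter]
    have h2 : Finset.filter (fun n => n ∈ s) (Finset.range K) = s := by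
      ext n
      simp only [Finset.mem_filter, Finset.mem_range]
      exact ⟨fun h => h.2, fun h => ⟨(hM n h).trans_le hK, h⟩⟩
    rw [h2]
    unfold upw
    exact sub_self _
  rw [h]
  simp

theorem fc_smooth (e : S2) (s : Finset ℕ) :
    ContMDiff (𝓡 2) 𝓘(ℝ, ℂ) ∞ (fun x => ∑ m ∈ s, zf e m x) :=
  contMDiff_finsetSum fun n _ => zf_smooth e n

/-- the Sobolev norm of the wave packet -/
theorem fc_Hs (e : S2) (s : ℝ) (N : ℕ) (hN : 1 ≤ N) :
    Hs s (fun x => ∑ m ∈ Finset.Ico N (2 * N), zf e m x) ≤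
      ENNReal.ofReal (2 ^ |s| * (N : ℝ) ^ (s + 1)) := by
  have hN0 : (0 : ℝ) < N := by exact_mod_cast hN
  unfold Hs
  have h1 : ∀ n, eLpNorm (proj n (fun x => ∑ m ∈ Finset.Ico N (2 * N), zf e m x)) 2 σ ^ 2 =
      if n ∈ Finset.Ico N (2 * N) then ENNReal.ofReal ((2 * n + 1) / (4 * π)) else 0 := by
    intro n
    have h2 : proj n (fun x => ∑ m ∈ Finset.Ico N (2 * N), zf e m x) =
        fun x => if n ∈ Finset.Ico N (2 * N) then zf e n x else 0 := funext (fc_proj e _ n)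
    rw [h2]
    split_ifs with h
    · rw [up_eLp2 (zf_cont e n), zf_N2]
    · simp
  simp_rw [h1, mul_ite, mul_zero]
  rw [tsum_eq_sum (s := Finset.Ico N (2 * N)) (fun n hn => by rw [if_neg hn])]
  have h3 : ∀ n ∈ Finset.Ico N (2 * N),
      (if n ∈ Finset.Ico N (2 * N) then ENNReal.ofReal ((1 + n : ℝ) ^ (2 * s)) *
        ENNReal.ofReal ((2 * n + 1) / (4 * π)) else 0) ≤
      ENNReal.ofReal ((2 ^ |s|) ^ 2 * (N : ℝ) ^ (2 * s) * N) := by
    intro n hn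
    rw [if_pos hn, ← ENNReal.ofReal_mul (by positivity)]
    refine ENNReal.ofReal_le_ofReal ?_
    have hn1 := (Finset.mem_Ico.1 hn).1
    have hn2 := (Finset.mem_Ico.1 hn).2
    have hn1' : (N : ℝ) ≤ n := by exact_mod_cast hn1
    have hn2' : (n : ℝ) + 1 ≤ 2 * N := by exact_mod_cast hn2
    have a1 : (1 + n : ℝ) ^ (2 * s) ≤ (2 ^ |s|) ^ 2 * (N : ℝ) ^ (2 * s) := by
      have e1 : (1 + n : ℝ) = ((1 + n) / N) * N := by field_simp
      have r1 : 1 ≤ (1 + n : ℝ) / N := by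
        rw [le_div_iff₀ hN0]
        linarith
      have r2 : (1 + n : ℝ) / N ≤ 2 := by
        rw [div_le_iff₀ hN0]
        linarith
      rw [e1, Real.mul_rpow (by positivity) hN0.le]
      refine mul_le_mul_of_nonneg_right ?_ (by positivity)
      calc ((1 + n : ℝ) / N) ^ (2 * s) ≤ ((1 + n : ℝ) / N) ^ (2 * |s|) :=
            Real.rpow_le_rpow_of_exponent_le r1 (by linarith [le_abs_self s])
        _ ≤ 2 ^ (2 * |s|) := Real.rpow_le_rpow (by positivity) r2 (by positivity)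
        _ = (2 ^ |s|) ^ 2 := by
            rw [← Real.rpow_natCast, ← Real.rpow_mul (by norm_num)]
            congr 1
            push_cast
            ring
    have a2 : (2 * n + 1) / (4 * π) ≤ (N : ℝ) := by
      rw [div_le_iff₀ (by positivity)]
      have hpi : 1 ≤ π := by linarith [Real.pi_gt_three]
      nlinarith
    calc (1 + n : ℝ) ^ (2 * s) * ((2 * n + 1) / (4 * π))
        ≤ ((2 ^ |s|) ^ 2 * (N : ℝ) ^ (2 * s)) * N := by
          gcongr
      _ = _ := by ring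
  refine (ENNReal.rpow_le_rpow (Finset.sum_le_sum h3) (by norm_num)).trans ?_
  rw [Finset.sum_const, Nat.card_Ico, nsmul_eq_mul]
  have h4 : ((2 * N - N : ℕ) : ℝ≥0∞) = ENNReal.ofReal N := by
    rw [ENNReal.ofReal_natCast]
    congr 1
    omega
  rw [h4, ← ENNReal.ofReal_mul hN0.le]
  have h5 : (N : ℝ) * ((2 ^ |s|) ^ 2 * (N : ℝ) ^ (2 * s) * N) =
      (2 ^ |s| * (N : ℝ) ^ (s + 1)) ^ 2 := by
    have e1 : (N : ℝ) ^ (2 * s) = ((N : ℝ) ^ s) ^ 2 := by
      rw [← Real.rpow_natCast, ← Real.rpow_mul hN0.le]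
      congr 1
      push_cast
      ring
    rw [e1, Real.rpow_add_one hN0.ne']
    ring
  rw [h5, ENNReal.ofReal_rpow_of_nonneg (by positivity) (by norm_num)]
  refine ENNReal.ofReal_le_ofReal (le_of_eq ?_)
  rw [← Real.sqrt_eq_rpow, Real.sqrt_sq (by positivity)]

theorem fc_Lam {N n : ℕ} (hn : n < 2 * N) : Lam n ≤ 4 * (N : ℝ) ^ (3 / 2 : ℝ) := by
  unfold Lam
  refine Real.sqrt_le_iff.2 ⟨by positivity, ?_⟩
  have h1 : ((N : ℝ) ^ (3 / 2 : ℝ)) ^ 2 = (N : ℝ) ^ 3 := by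
    rw [← Real.rpow_natCast, ← Real.rpow_mul (by positivity), ← Real.rpow_natCast]
    congr 1
    norm_num
  rw [mul_pow, h1]
  have hn' : (n : ℝ) ≤ 2 * N := by exact_mod_cast hn.le
  have hn0 : (0 : ℝ) ≤ n := n.cast_nonneg
  have h2 : (n : ℝ) ^ 3 ≤ (2 * N) ^ 3 := by gcongr
  have h3 : (n : ℝ) * (n - 1) * (n + 2) ≤ 2 * (n : ℝ) ^ 3 := by
    nlinarith [mul_nonneg hn0 (sq_nonneg ((n : ℝ) - 1 / 2)), mul_nonneg hn0 (sq_nonneg (n : ℝ))]
  linarith

/-- focusing at the pole -/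
theorem fc_point (e : S2) (N : ℕ) (hN : 1 ≤ N) (t : ℝ) (ht0 : 0 ≤ t)
    (ht : t ≤ 1 / 4 * (N : ℝ) ^ (-(3 / 2) : ℝ)) :
    (N : ℝ) ^ 2 / (4 * π) ≤ ‖upw (zf e) (Finset.Ico N (2 * N)) t e‖ := by
  have hN0 : (0 : ℝ) < N := by exact_mod_cast hN
  refine le_trans ?_ (Complex.re_le_norm _)
  unfold upw
  rw [Complex.re_sum]
  have h1 : ∀ n ∈ Finset.Ico N (2 * N), (N : ℝ) / (4 * π) ≤
      (cexp (I * t * Lam n) * zf e n e).re := by
    intro n hn
    have hn1 : (N : ℝ) ≤ n := by exact_mod_cast (Finset.mem_Ico.1 hn).1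
    have e1 : I * t * Lam n = ((t * Lam n : ℝ) : ℂ) * I := by push_cast; ring
    have e2 : zf e n e = (((2 * n + 1) / (4 * π) : ℝ) : ℂ) := by
      unfold zf
      rw [ip_self, Z_one]
    rw [e1, e2, Complex.re_mul_ofReal, Complex.exp_ofReal_mul_I_re]
    have hL := fc_Lam (Finset.mem_Ico.1 hn).2
    have hL0 : 0 ≤ Lam n := Real.sqrt_nonneg _
    have h2 : t * Lam n ≤ 1 := by
      calc t * Lam n ≤ (1 / 4 * (N : ℝ) ^ (-(3 / 2) : ℝ)) * (4 * (N : ℝ) ^ (3 / 2 : ℝ)) := by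
            gcongr
        _ = (N : ℝ) ^ (-(3 / 2) : ℝ) * (N : ℝ) ^ (3 / 2 : ℝ) := by ring
        _ = 1 := by
            rw [← Real.rpow_add hN0]
            norm_num
    have h3 : 0 ≤ t * Lam n := by positivity
    have h4 : 1 / 2 ≤ Real.cos (t * Lam n) := by
      have := Real.one_sub_sq_div_two_le_cos (x := t * Lam n)
      nlinarith
    calc (N : ℝ) / (4 * π) = 1 / 2 * ((2 * N) / (4 * π)) := by ring
      _ ≤ Real.cos (t * Lam n) * ((2 * n + 1) / (4 * π)) := by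
          gcongr
          linarith
  refine le_trans (le_of_eq ?_) (Finset.card_nsmul_le_sum _ _ _ h1)
  rw [Nat.card_Ico, nsmul_eq_mul]
  have h4 : ((2 * N - N : ℕ) : ℝ) = N := by
    congr 1
    omega
  rw [h4]
  ring

/-- Nikolskii's inequality for real exponents -/
theorem fc_nik {D : ℕ} {g : S2 → ℂ} (hg : Deg D g) {q : ℝ} (hq : 0 < q) (m : ℕ)
    (hm : q ≤ 2 * m) (x : S2) :
    ‖g x‖ ^ q ≤ (m * D + 1) ^ 2 / (4 * π) * ∫ y, ‖g y‖ ^ q ∂σ := by
  have hgc : Continuous fun y => ‖g y‖ := hg.1.norm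
  obtain ⟨x0, -, hx0⟩ := isCompact_univ.exists_isMaxOn ⟨x, Set.mem_univ x⟩ hgc.continuousOn
  have hmax : ∀ y, ‖g y‖ ≤ ‖g x0‖ := fun y => hx0 (Set.mem_univ y)
  have hint : Integrable (fun y => ‖g y‖ ^ q) σ := by
    have : Continuous fun y => ‖g y‖ ^ q := hgc.rpow_const fun _ => Or.inr hq.le
    exact this.integrable_of_hasCompactSupport (HasCompactSupport.of_compactSpace _)
  have hint0 : 0 ≤ ∫ y, ‖g y‖ ^ q ∂σ := integral_nonneg fun y => by positivity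
  rcases (norm_nonneg (g x0)).eq_or_lt with h0 | h0
  · have : ‖g x‖ = 0 := le_antisymm (h0 ▸ hmax x) (norm_nonneg _)
    rw [this, Real.zero_rpow hq.ne']
    positivity
  · have h1 := nik hg m x0
    have h2 : ∫ y, ‖g y‖ ^ (2 * m) ∂σ ≤ ∫ y, ‖g x0‖ ^ (2 * m - q) * ‖g y‖ ^ q ∂σ := by
      refine integral_mono_of_nonneg (Eventually.of_forall fun y => by positivity)
        (hint.const_mul _) (Eventually.of_forall fun y => ?_)
      show ‖g y‖ ^ (2 * m) ≤ ‖g x0‖ ^ (2 * m - q) * ‖g y‖ ^ q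
      have e1 : ‖g y‖ ^ (2 * m) = ‖g y‖ ^ (2 * m - q) * ‖g y‖ ^ q := by
        rw [← Real.rpow_natCast]
        push_cast
        rcases (norm_nonneg (g y)).eq_or_lt with hy | hy
        · rw [← hy, Real.zero_rpow hq.ne', mul_zero, Real.zero_rpow]
          linarith
        · rw [← Real.rpow_add hy]
          congr 1
          ring
      rw [e1]
      exact mul_le_mul_of_nonneg_right
        (Real.rpow_le_rpow (norm_nonneg _) (hmax y) (by linarith)) (by positivity)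
    rw [integral_const_mul] at h2
    have e2 : ‖g x0‖ ^ (2 * m) = ‖g x0‖ ^ (2 * m - q) * ‖g x0‖ ^ q := by
      rw [← Real.rpow_natCast]
      push_cast
      rw [← Real.rpow_add h0]
      congr 1
      ring
    have h3 : ‖g x0‖ ^ (2 * m - q) * ‖g x0‖ ^ q ≤ ‖g x0‖ ^ (2 * m - q) *
        ((m * D + 1) ^ 2 / (4 * π) * ∫ y, ‖g y‖ ^ q ∂σ) := by
      calc ‖g x0‖ ^ (2 * m - q) * ‖g x0‖ ^ q = ‖g x0‖ ^ (2 * m) := e2.symm
        _ ≤ _ := h1
        _ ≤ (m * D + 1) ^ 2 / (4 * π) * (‖g x0‖ ^ (2 * m - q) * ∫ y, ‖g y‖ ^ q ∂σ) := by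
            gcongr
        _ = _ := by ring
    have h4 := le_of_mul_le_mul_left h3 (Real.rpow_pos_of_pos h0 _)
    refine le_trans ?_ h4
    exact Real.rpow_le_rpow (norm_nonneg _) (hmax x) hq.le

/-- the `L^q` norm of a continuous function -/
theorem fc_eLp {g : S2 → ℂ} (hg : Continuous g) {q : ℝ≥0∞} (hq0 : q ≠ 0) (hqt : q ≠ ⊤) :
    eLpNorm g q σ = ENNReal.ofReal ((∫ y, ‖g y‖ ^ q.toReal ∂σ) ^ q.toReal⁻¹) := by
  have hq : 0 < q.toReal := ENNReal.toReal_pos hq0 hqt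
  have hint : Integrable (fun y => ‖g y‖ ^ q.toReal) σ := by
    have : Continuous fun y => ‖g y‖ ^ q.toReal := hg.norm.rpow_const fun _ => Or.inr hq.le
    exact this.integrable_of_hasCompactSupport (HasCompactSupport.of_compactSpace _)
  rw [eLpNorm_eq_lintegral_rpow_enorm_toReal hq0 hqt, ← ENNReal.ofReal_rpow_of_nonneg
    (integral_nonneg fun y => by positivity) (by positivity),
    ofReal_integral_eq_lintegral_ofReal hint (Eventually.of_forall fun y => by positivity), one_div]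
  congr 1
  refine lintegral_congr fun y => ?_
  rw [← ofReal_norm, ENNReal.ofReal_rpow_of_nonneg (norm_nonneg _) hq.le]

theorem fc_deg (e : S2) (N : ℕ) (t : ℝ) :
    Deg (2 * N) (upw (zf e) (Finset.Ico N (2 * N)) t) := by
  have h := deg_sum (D := 2 * N) (Finset.Ico N (2 * N))
    (fun n x => cexp (I * t * Lam n) * zf e n x) fun n hn =>
      deg_har (Finset.mem_Ico.1 hn).2.le (har_const_mul _ (zf_har e n))
  exact h

theorem fc_alg {N r m : ℝ} (hN : 0 < N) (hr : 0 < r) (hm : 0 < m) :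
    1 / (4 * π) * (4 * π / (9 * m ^ 2)) ^ r⁻¹ * N ^ (2 - 2 * r⁻¹) =
      ((N ^ 2 / (4 * π)) ^ r * (4 * π / (9 * m ^ 2) * N ^ (-2 : ℝ))) ^ r⁻¹ := by
  have h1 : ((N ^ 2 / (4 * π)) ^ r) ^ r⁻¹ = N ^ 2 / (4 * π) := by
    rw [← Real.rpow_mul (by positivity), mul_inv_cancel₀ hr.ne', Real.rpow_one]
  have h2 : (N ^ (-2 : ℝ)) ^ r⁻¹ = N ^ (-2 * r⁻¹) := (Real.rpow_mul hN.le _ _).symm
  have h3 : N ^ (2 - 2 * r⁻¹) = N ^ 2 * N ^ (-2 * r⁻¹) := by
    have : 2 - 2 * r⁻¹ = (2 : ℝ) + -2 * r⁻¹ := by ring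
    rw [this, Real.rpow_add hN, Real.rpow_two]
  rw [Real.mul_rpow (by positivity) (by positivity), Real.mul_rpow (by positivity) (by positivity),
    h1, h2, h3]
  ring

theorem fc_alg2 {N m A G J : ℝ} (hN : 1 ≤ N) (hm : 1 ≤ m)
    (hA : A ≤ G) (h : G ≤ (m * (2 * N) + 1) ^ 2 / (4 * π) * J) (hJ : 0 ≤ J) :
    A * (4 * π / (9 * m ^ 2) * N ^ (-2 : ℝ)) ≤ J := by
  have hN0 : 0 < N := by linarith
  have hm0 : 0 < m := by linarith
  have h3 : (m * (2 * N) + 1) ^ 2 ≤ 9 * m ^ 2 * N ^ 2 := by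
    have : m * (2 * N) + 1 ≤ 3 * m * N := by nlinarith
    calc (m * (2 * N) + 1) ^ 2 ≤ (3 * m * N) ^ 2 := by gcongr
      _ = _ := by ring
  have e1 : N ^ (-2 : ℝ) = 1 / N ^ 2 := by
    rw [Real.rpow_neg hN0.le, Real.rpow_two, one_div]
  have e2 : 4 * π / (9 * m ^ 2) * (1 / N ^ 2) = 4 * π / (9 * m ^ 2 * N ^ 2) := by
    field_simp
  rw [e1, e2, ← mul_div_assoc, div_le_iff₀ (by positivity)]
  calc A * (4 * π) ≤ G * (4 * π) := by gcongr
    _ ≤ ((m * (2 * N) + 1) ^ 2 / (4 * π) * J) * (4 * π) := by gcongr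
    _ = J * (m * (2 * N) + 1) ^ 2 := by field_simp
    _ ≤ _ := by gcongr

/-- lower bound for the `L^q` norm of the focusing wave packet -/
theorem fc_low (e : S2) {q : ℝ≥0∞} (hq0 : q ≠ 0) (hqt : q ≠ ⊤) : ∃ c > 0, ∀ (N : ℕ), 1 ≤ N →
    ∀ t : ℝ, 0 ≤ t → t ≤ 1 / 4 * (N : ℝ) ^ (-(3 / 2) : ℝ) →
    ENNReal.ofReal (c * (N : ℝ) ^ (2 - 2 * q.toReal⁻¹)) ≤
      eLpNorm (upw (zf e) (Finset.Ico N (2 * N)) t) q σ := by
  have hq : 0 < q.toReal := ENNReal.toReal_pos hq0 hqt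
  obtain ⟨m, hm⟩ := exists_nat_ge (q.toReal / 2)
  set m' : ℝ := m + 1 with hm'
  have hm0 : 0 < m' := by positivity
  refine ⟨1 / (4 * π) * (4 * π / (9 * m' ^ 2)) ^ q.toReal⁻¹, by positivity,
    fun N hN t ht0 ht => ?_⟩
  have hN0 : (0 : ℝ) < N := by exact_mod_cast hN
  have hN1 : (1 : ℝ) ≤ N := by exact_mod_cast hN
  set g := upw (zf e) (Finset.Ico N (2 * N)) t with hg
  have hgc : Continuous g := upw_cont (zf_cont e) _ t
  rw [fc_eLp hgc hq0 hqt]
  refine ENNReal.ofReal_le_ofReal ?_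
  have h1 := fc_nik (fc_deg e N t) hq (m + 1) (by push_cast; linarith) e
  have h2 := fc_point e N hN t ht0 ht
  rw [← hg] at h1 h2
  push_cast at h1
  rw [← hm'] at h1
  have hI0 : 0 ≤ ∫ y, ‖g y‖ ^ q.toReal ∂σ := integral_nonneg fun y => by positivity
  have hm1 : 1 ≤ m' := by
    rw [hm']
    have : (0 : ℝ) ≤ m := m.cast_nonneg
    linarith
  have h3 := Real.rpow_le_rpow (by positivity) h2 hq.le
  have h4 := fc_alg2 hN1 hm1 h3 h1 hI0
  have h5 := Real.rpow_le_rpow (by positivity) h4 (inv_nonneg.2 hq.le)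
  exact (le_of_eq (fc_alg hN0 hq hm0)).trans h5

/-- the finite case -/
theorem focus_fin (p q : ℝ≥0∞) (hp : 1 ≤ p) (hq0 : q ≠ 0) (hqt : q ≠ ⊤)
    (s : ℝ) (hs : s < 1 - 3 / 2 * (p⁻¹).toReal - 2 * (q⁻¹).toReal) : ¬ Strichartz p q s := by
  intro hS
  obtain ⟨C, hC⟩ := hS 1 one_pos
  have hp0 : p ≠ 0 := (lt_of_lt_of_le one_pos hp).ne'
  have hne : Nonempty S2 := ⟨⟨EuclideanSpace.single 0 1, by simp⟩⟩
  obtain ⟨e⟩ := hne
  obtain ⟨c, hc, hlow⟩ := fc_low e hq0 hqt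
  rw [ENNReal.toReal_inv, ENNReal.toReal_inv] at hs
  have hp1 : 0 ≤ p.toReal⁻¹ := by positivity
  -- the estimate
  have key : ∀ N : ℕ, 1 ≤ N → c * (N : ℝ) ^ (2 - 2 * q.toReal⁻¹) *
      (1 / 4 * (N : ℝ) ^ (-(3 / 2) : ℝ)) ^ p.toReal⁻¹ ≤ C * (2 ^ |s| * (N : ℝ) ^ (s + 1)) := by
    intro N hN
    have hN0 : (0 : ℝ) < N := by exact_mod_cast hN
    have hN1 : (1 : ℝ) ≤ N := by exact_mod_cast hN
    set τ : ℝ := 1 / 4 * (N : ℝ) ^ (-(3 / 2) : ℝ) with hτ
    have hτ0 : 0 < τ := by positivity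
    have hτ1 : τ ≤ 1 := by
      have : (N : ℝ) ^ (-(3 / 2) : ℝ) ≤ 1 := Real.rpow_le_one_of_one_le_of_nonpos hN1 (by norm_num)
      rw [hτ]
      linarith
    have h1 := (hC _ (fc_smooth e (Finset.Ico N (2 * N))) _ (fc_flow e _)).trans
      (mul_le_mul_right (fc_Hs e s N hN) _)
    have h2 : eLpNorm (fun _ : ℝ => ENNReal.ofReal (c * (N : ℝ) ^ (2 - 2 * q.toReal⁻¹))) p
        (volume.restrict (Set.Icc 0 τ)) ≤
        eLpNorm (fun t => eLpNorm (upw (zf e) (Finset.Ico N (2 * N)) t) q σ) p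
        (volume.restrict (Set.Icc 0 1)) := by
      refine le_trans (eLpNorm_mono_enorm_ae ?_) (eLpNorm_mono_measure _
        (Measure.restrict_mono (Set.Icc_subset_Icc_right hτ1) le_rfl))
      refine (ae_restrict_mem measurableSet_Icc).mono fun t ht => ?_
      simpa using hlow N hN t ht.1 ht.2
    have h3 := h2.trans h1
    rw [eLpNorm_const _ hp0 (by
      intro h0
      have := congrArg (fun m : Measure ℝ => m Set.univ) h0
      simp at this
      linarith)] at h3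
    have h4 : (volume.restrict (Set.Icc (0 : ℝ) τ)) Set.univ = ENNReal.ofReal τ := by simp
    rw [h4, enorm_eq_self, one_div, ENNReal.ofReal_rpow_of_nonneg hτ0.le hp1,
      ← ENNReal.ofReal_mul (by positivity), ← ENNReal.ofReal_coe_nnreal,
      ← ENNReal.ofReal_mul (by positivity)] at h3
    exact (ENNReal.ofReal_le_ofReal_iff (by positivity)).1 h3
  set δ : ℝ := 1 - 3 / 2 * p.toReal⁻¹ - 2 * q.toReal⁻¹ - s with hδ
  have hδ0 : 0 < δ := by linarith
  set K : ℝ := C * 2 ^ |s| / (c * (1 / 4) ^ p.toReal⁻¹) with hK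
  have key2 : ∀ N : ℕ, 1 ≤ N → (N : ℝ) ^ δ ≤ K := by
    intro N hN
    have hN0 : (0 : ℝ) < N := by exact_mod_cast hN
    have h1 := key N hN
    rw [Real.mul_rpow (by norm_num) (by positivity), ← Real.rpow_mul hN0.le] at h1
    rw [hK, le_div_iff₀ (by positivity)]
    have e1 : (N : ℝ) ^ (2 - 2 * q.toReal⁻¹) * (N : ℝ) ^ (-(3 / 2) * p.toReal⁻¹) =
        (N : ℝ) ^ δ * (N : ℝ) ^ (s + 1) := by
      rw [← Real.rpow_add hN0, ← Real.rpow_add hN0]
      congr 1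
      rw [hδ]
      ring
    have h2 : ((N : ℝ) ^ δ * (c * (1 / 4) ^ p.toReal⁻¹)) * (N : ℝ) ^ (s + 1) ≤
        (C * 2 ^ |s|) * (N : ℝ) ^ (s + 1) := by
      calc ((N : ℝ) ^ δ * (c * (1 / 4) ^ p.toReal⁻¹)) * (N : ℝ) ^ (s + 1)
          = c * (1 / 4) ^ p.toReal⁻¹ * ((N : ℝ) ^ δ * (N : ℝ) ^ (s + 1)) := by ring
        _ = c * (1 / 4) ^ p.toReal⁻¹ * ((N : ℝ) ^ (2 - 2 * q.toReal⁻¹) *
            (N : ℝ) ^ (-(3 / 2) * p.toReal⁻¹)) := by rw [e1]
        _ = c * (N : ℝ) ^ (2 - 2 * q.toReal⁻¹) * ((1 / 4) ^ p.toReal⁻¹ *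
            (N : ℝ) ^ (-(3 / 2) * p.toReal⁻¹)) := by ring
        _ ≤ _ := h1
        _ = _ := by ring
    exact le_of_mul_le_mul_right h2 (by positivity)
  have hlim : Tendsto (fun N : ℕ => (N : ℝ) ^ δ) atTop atTop :=
    (tendsto_rpow_atTop hδ0).comp tendsto_natCast_atTop_atTop
  obtain ⟨N, hN1, hN2⟩ := ((eventually_ge_atTop 1).and (hlim.eventually_gt_atTop K)).exists
  exact absurd (key2 N hN1) (not_le.2 hN2)

/-- the estimates are monotone in `q` -/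
theorem fc_mono (p q q' : ℝ≥0∞) (hq' : 1 ≤ q') (h : q' ≤ q) (s : ℝ)
    (hS : Strichartz p q s) : Strichartz p q' s := by
  intro T hT
  obtain ⟨C, hC⟩ := hS T hT
  set c : ℝ≥0∞ := σ Set.univ ^ (1 / q'.toReal - 1 / q.toReal) with hc
  have hct : c ≠ ⊤ := by
    refine ENNReal.rpow_ne_top_of_nonneg ?_ (measure_ne_top _ _)
    by_cases hqt : q = ⊤
    · rw [hqt]
      simp
    · have hq't : q' ≠ ⊤ := (h.trans_lt (lt_top_iff_ne_top.2 hqt)).ne
      have h1 : q'.toReal ≤ q.toReal := ENNReal.toReal_mono hqt h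
      have h2 : 0 < q'.toReal := ENNReal.toReal_pos (lt_of_lt_of_le one_pos hq').ne' hq't
      have := one_div_le_one_div_of_le h2 h1
      linarith
  refine ⟨C * c.toNNReal, fun f hf u hu => ?_⟩
  have h1 : ∀ t, eLpNorm (u t) q' σ ≤ eLpNorm (u t) q σ * c := fun t =>
    eLpNorm_le_eLpNorm_mul_rpow_measure_univ h (hu t).1
  have h2 : eLpNorm (fun t => eLpNorm (u t) q' σ) p (volume.restrict (Set.Icc 0 T)) ≤
      c * eLpNorm (fun t => eLpNorm (u t) q σ) p (volume.restrict (Set.Icc 0 T)) := by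
    have h3 := eLpNorm_le_nnreal_smul_eLpNorm_of_ae_le_mul' (c := c.toNNReal)
      (f := fun t => eLpNorm (u t) q' σ) (g := fun t => eLpNorm (u t) q σ)
      (μ := volume.restrict (Set.Icc 0 T)) (Eventually.of_forall fun t => by
        rw [ENNReal.coe_toNNReal hct]
        simpa [mul_comm] using h1 t) p
    rw [ENNReal.smul_def, smul_eq_mul, ENNReal.coe_toNNReal hct] at h3
    exact h3
  refine h2.trans ((mul_le_mul_right (hC f hf u hu) c).trans (le_of_eq ?_))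
  rw [ENNReal.coe_mul, ENNReal.coe_toNNReal hct]
  ring

theorem focus (p q : ℝ≥0∞) (hp : 1 ≤ p) (hq : 2 ≤ q)
    (s : ℝ) (hs : s < 1 - 3 / 2 * (p⁻¹).toReal - 2 * (q⁻¹).toReal) : ¬ Strichartz p q s := by
  by_cases hqt : q = ⊤
  · intro hS
    subst hqt
    simp only [ENNReal.inv_top, ENNReal.toReal_zero, mul_zero, sub_zero] at hs
    set δ : ℝ := 1 - 3 / 2 * (p⁻¹).toReal - s with hδ
    have hδ0 : 0 < δ := by linarith
    set r : ℝ := max 1 (4 / δ) with hr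
    have hr1 : 1 ≤ r := le_max_left _ _
    have hr2 : 4 / δ ≤ r := le_max_right _ _
    have hr0 : 0 < r := by linarith
    have h1 := fc_mono p ⊤ (ENNReal.ofReal r) (by
      rw [← ENNReal.ofReal_one]
      exact ENNReal.ofReal_le_ofReal hr1) le_top s hS
    refine focus_fin p (ENNReal.ofReal r) hp (by simpa using hr0) ENNReal.ofReal_ne_top s ?_ h1
    rw [ENNReal.toReal_inv (ENNReal.ofReal r), ENNReal.toReal_ofReal hr0.le]
    have h2 : r⁻¹ ≤ δ / 4 := by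
      rw [inv_le_comm₀ hr0 (by positivity)]
      calc (δ / 4)⁻¹ = 4 / δ := by rw [inv_div]
        _ ≤ r := hr2
    linarith
  · exact focus_fin p q hp (lt_of_lt_of_le (by norm_num) hq).ne' hqt s hs

end

end Pool.Agent.DW
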