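import Pool.Agent.DW.Focus

/-!
# Lower bounds from zonal harmonics and from narrow zonal wave packets
-/

open MeasureTheory Metric Complex Filter Topology Real
open scoped ENNReal NNReal RealInnerProductSpace Manifold ContDiff

namespace Pool.Agent.DW

noncomputable section

/-- Nikolskii lower bound for the `L^q` norm -/
theorem fg_low {q : ℝ≥0∞} (hq0 : q ≠ 0) (hqt : q ≠ ⊤) : ∃ c > 0, ∀ (N : ℕ), 1 ≤ N →
    ∀ g : S2 → ℂ, Deg (2 * N) g → ∀ (x : S2) (B : ℝ), 0 ≤ B → B ≤ ‖g x‖ →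
    ENNReal.ofReal (c * (B * (N : ℝ) ^ (-2 * q.toReal⁻¹))) ≤ eLpNorm g q σ := by
  have hq : 0 < q.toReal := ENNReal.toReal_pos hq0 hqt
  obtain ⟨m, hm⟩ := exists_nat_ge (q.toReal / 2)
  set m' : ℝ := m + 1 with hm'
  have hm0 : 0 < m' := by positivity
  have hm1 : 1 ≤ m' := by
    rw [hm']
    have : (0 : ℝ) ≤ m := m.cast_nonneg
    linarith
  refine ⟨(4 * π / (9 * m' ^ 2)) ^ q.toReal⁻¹, by positivity, fun N hN g hg x B hB0 hB => ?_⟩
  have hN0 : (0 : ℝ) < N := by exact_mod_cast hN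
  have hN1 : (1 : ℝ) ≤ N := by exact_mod_cast hN
  rw [fc_eLp hg.1 hq0 hqt]
  refine ENNReal.ofReal_le_ofReal ?_
  have h1 := fc_nik hg hq (m + 1) (by push_cast; linarith) x
  push_cast at h1
  rw [← hm'] at h1
  have hI0 : 0 ≤ ∫ y, ‖g y‖ ^ q.toReal ∂σ := integral_nonneg fun y => by positivity
  have h3 := Real.rpow_le_rpow hB0 hB hq.le
  have h4 := fc_alg2 hN1 hm1 h3 h1 hI0
  have h5 := Real.rpow_le_rpow (by positivity) h4 (inv_nonneg.2 hq.le)
  refine le_trans (le_of_eq ?_) h5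
  rw [Real.mul_rpow (by positivity) (by positivity), Real.mul_rpow (by positivity) (by positivity),
    ← Real.rpow_mul hB0, mul_inv_cancel₀ hq.ne', Real.rpow_one, ← Real.rpow_mul hN0.le]
  ring

/-- the Sobolev norm of a narrow wave packet -/
theorem fg_Hs (e : S2) (s : ℝ) (N M : ℕ) (hN : 1 ≤ N) (hM : M ≤ N) :
    Hs s (fun x => ∑ m ∈ Finset.Ico N (N + M), zf e m x) ≤
      ENNReal.ofReal (2 ^ |s| * ((N : ℝ) ^ s * ((M : ℝ) * N) ^ (1 / 2 : ℝ))) := by
  have hN0 : (0 : ℝ) < N := by exact_mod_cast hN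
  unfold Hs
  have h1 : ∀ n, eLpNorm (proj n (fun x => ∑ m ∈ Finset.Ico N (N + M), zf e m x)) 2 σ ^ 2 =
      if n ∈ Finset.Ico N (N + M) then ENNReal.ofReal ((2 * n + 1) / (4 * π)) else 0 := by
    intro n
    have h2 : proj n (fun x => ∑ m ∈ Finset.Ico N (N + M), zf e m x) =
        fun x => if n ∈ Finset.Ico N (N + M) then zf e n x else 0 := funext (fc_proj e _ n)
    rw [h2]
    split_ifs with h
    · rw [up_eLp2 (zf_cont e n), zf_N2]
    · simp
  simp_rw [h1, mul_ite, mul_zero]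
  rw [tsum_eq_sum (s := Finset.Ico N (N + M)) (fun n hn => by rw [if_neg hn])]
  have h3 : ∀ n ∈ Finset.Ico N (N + M),
      (if n ∈ Finset.Ico N (N + M) then ENNReal.ofReal ((1 + n : ℝ) ^ (2 * s)) *
        ENNReal.ofReal ((2 * n + 1) / (4 * π)) else 0) ≤
      ENNReal.ofReal ((2 ^ |s|) ^ 2 * (N : ℝ) ^ (2 * s) * N) := by
    intro n hn
    rw [if_pos hn, ← ENNReal.ofReal_mul (by positivity)]
    refine ENNReal.ofReal_le_ofReal ?_
    have hn1 := (Finset.mem_Ico.1 hn).1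
    have hn2 : n + 1 ≤ 2 * N := by
      have := (Finset.mem_Ico.1 hn).2
      omega
    have hn1' : (N : ℝ) ≤ n := by exact_mod_cast hn1
    have hn2' : (n : ℝ) + 1 ≤ 2 * N := by exact_mod_cast hn2
    have a1 : (1 + n : ℝ) ^ (2 * s) ≤ (2 ^ |s|) ^ 2 * (N : ℝ) ^ (2 * s) := by
      have e1 : (1 + n : ℝ) = ((1 + n) / N) * N := by field_simp
      have r1 : 1 ≤ (1 + n : ℝ) / N := by
        rw [le_div_iff₀ hN0]
        linarith
      have r2 : (1 + n : ℝ) / N ≤ 2 := by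
        rw [div_le_iff₀ hN0]
        linarith
      rw [e1, Real.mul_rpow (by positivity) hN0.le]
      refine mul_le_mul_of_nonneg_right ?_ (by positivity)
      calc ((1 + n : ℝ) / N) ^ (2 * s) ≤ ((1 + n : ℝ) / N) ^ (2 * |s|) :=
            Real.rpow_le_rpow_of_exponent_le r1 (by linarith [le_abs_self s])
        _ ≤ 2 ^ (2 * |s|) := Real.rpow_le_rpow (by positivity) r2 (by positivity)
        _ = (2 ^ |s|) ^ 2 := by
            rw [← Real.rpow_natCast, ← Real.rpow_mul (by norm_num)]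
            congr 1
            push_cast
            ring
    have a2 : (2 * n + 1) / (4 * π) ≤ (N : ℝ) := by
      rw [div_le_iff₀ (by positivity)]
      have hpi : 1 ≤ π := by linarith [Real.pi_gt_three]
      nlinarith
    calc (1 + n : ℝ) ^ (2 * s) * ((2 * n + 1) / (4 * π))
        ≤ ((2 ^ |s|) ^ 2 * (N : ℝ) ^ (2 * s)) * N := by
          gcongr
      _ = _ := by ring
  refine (ENNReal.rpow_le_rpow (Finset.sum_le_sum h3) (by norm_num)).trans ?_
  rw [Finset.sum_const, Nat.card_Ico, nsmul_eq_mul]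
  have h4 : ((N + M - N : ℕ) : ℝ≥0∞) = ENNReal.ofReal M := by
    rw [ENNReal.ofReal_natCast]
    congr 1
    omega
  rw [h4, ← ENNReal.ofReal_mul (Nat.cast_nonneg M)]
  have h5 : (M : ℝ) * ((2 ^ |s|) ^ 2 * (N : ℝ) ^ (2 * s) * N) =
      (2 ^ |s| * (N : ℝ) ^ s) ^ 2 * ((M : ℝ) * N) := by
    have e1 : (N : ℝ) ^ (2 * s) = ((N : ℝ) ^ s) ^ 2 := by
      rw [← Real.rpow_natCast, ← Real.rpow_mul hN0.le]
      congr 1
      push_cast
      ring
    rw [e1]
    ring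
  rw [h5, ENNReal.ofReal_rpow_of_nonneg (by positivity) (by norm_num)]
  refine ENNReal.ofReal_le_ofReal (le_of_eq ?_)
  rw [Real.mul_rpow (by positivity) (by positivity), ← Real.sqrt_eq_rpow,
    Real.sqrt_sq (by positivity)]
  ring

/-- the inequality obtained from wave packets which are large at `e` on a set of times -/
theorem fg_key {p q : ℝ≥0∞} (hp : 1 ≤ p) (hq0 : q ≠ 0) (hqt : q ≠ ⊤) {s : ℝ}
    (hS : Strichartz p q s) (e : S2) : ∃ K > 0, ∀ (N M : ℕ), 1 ≤ N → M ≤ N →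
    ∀ T : Set ℝ, MeasurableSet T → T ⊆ Set.Icc 0 1 → ∀ τ : ℝ, 0 < τ →
    ENNReal.ofReal τ ≤ volume T → ∀ B : ℝ, 0 ≤ B →
    (∀ t ∈ T, B ≤ ‖upw (zf e) (Finset.Ico N (N + M)) t e‖) →
    B * τ ^ p.toReal⁻¹ * (N : ℝ) ^ (-2 * q.toReal⁻¹) ≤
      K * ((N : ℝ) ^ s * ((M : ℝ) * N) ^ (1 / 2 : ℝ)) := by
  obtain ⟨C, hC⟩ := hS 1 one_pos
  have hp0 : p ≠ 0 := (lt_of_lt_of_le one_pos hp).ne'
  obtain ⟨c, hc, hlow⟩ := fg_low hq0 hqt
  have hp1 : 0 ≤ p.toReal⁻¹ := by positivity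
  refine ⟨(C + 1) * 2 ^ |s| / c, by positivity, fun N M hN hMN T hTm hT τ hτ0 hτ B hB0 hB => ?_⟩
  have hN0 : (0 : ℝ) < N := by exact_mod_cast hN
  set L : ℝ := c * (B * (N : ℝ) ^ (-2 * q.toReal⁻¹)) with hL
  have hL0 : 0 ≤ L := by positivity
  have hdeg : ∀ t, Deg (2 * N) (upw (zf e) (Finset.Ico N (N + M)) t) := by
    intro t
    have h := deg_sum (D := 2 * N) (Finset.Ico N (N + M))
      (fun n x => cexp (I * t * Lam n) * zf e n x) fun n hn =>
        deg_har (by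
          have := (Finset.mem_Ico.1 hn).2
          omega) (har_const_mul _ (zf_har e n))
    exact h
  have h1 := (hC _ (fc_smooth e (Finset.Ico N (N + M))) _ (fc_flow e _)).trans
    (mul_le_mul_right (fg_Hs e s N M hN hMN) _)
  have h2 : eLpNorm (fun _ : ℝ => ENNReal.ofReal L) p (volume.restrict T) ≤
      eLpNorm (fun t => eLpNorm (upw (zf e) (Finset.Ico N (N + M)) t) q σ) p
      (volume.restrict (Set.Icc 0 1)) := by
    refine le_trans (eLpNorm_mono_enorm_ae ?_) (eLpNorm_mono_measure _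
      (Measure.restrict_mono hT le_rfl))
    refine (ae_restrict_mem hTm).mono fun t ht => ?_
    rw [enorm_eq_self, enorm_eq_self, hL]
    exact hlow N hN _ (hdeg t) e B hB0 (hB t ht)
  have h3 := h2.trans h1
  have hT0 : 0 < volume T := lt_of_lt_of_le (by simpa using hτ0) hτ
  rw [eLpNorm_const _ hp0 (by
    intro h0
    have := congrArg (fun m : Measure ℝ => m Set.univ) h0
    simp at this
    rw [this] at hT0
    exact lt_irrefl _ hT0)] at h3
  have h4 : ENNReal.ofReal (L * τ ^ p.toReal⁻¹) ≤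
      ‖ENNReal.ofReal L‖ₑ * (volume.restrict T) Set.univ ^ (1 / p.toReal) := by
    rw [enorm_eq_self, ENNReal.ofReal_mul hL0, Measure.restrict_apply_univ, one_div,
      ← ENNReal.ofReal_rpow_of_nonneg hτ0.le hp1]
    gcongr
  have h5 := h4.trans h3
  rw [← ENNReal.ofReal_coe_nnreal, ← ENNReal.ofReal_mul (by positivity)] at h5
  have h6 := (ENNReal.ofReal_le_ofReal_iff (by positivity)).1 h5
  have h7 : (C : ℝ) * (2 ^ |s| * ((N : ℝ) ^ s * ((M : ℝ) * N) ^ (1 / 2 : ℝ))) ≤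
      (C + 1) * (2 ^ |s| * ((N : ℝ) ^ s * ((M : ℝ) * N) ^ (1 / 2 : ℝ))) := by
    gcongr
    linarith
  rw [div_mul_eq_mul_div, le_div_iff₀ hc]
  calc B * τ ^ p.toReal⁻¹ * (N : ℝ) ^ (-2 * q.toReal⁻¹) * c = L * τ ^ p.toReal⁻¹ := by
        rw [hL]
        ring
    _ ≤ _ := h6.trans h7
    _ = _ := by ring

/-- reduction to finite `q` -/
theorem fg_top (p q : ℝ≥0∞) (hq : 2 ≤ q) (F s : ℝ) (hs : s < F - 2 * (q⁻¹).toReal)
    (h : ∀ r : ℝ≥0∞, r ≠ 0 → r ≠ ⊤ → s < F - 2 * r.toReal⁻¹ → ¬ Strichartz p r s) :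
    ¬ Strichartz p q s := by
  by_cases hqt : q = ⊤
  · intro hS
    subst hqt
    simp only [ENNReal.inv_top, ENNReal.toReal_zero, mul_zero, sub_zero] at hs
    set δ : ℝ := F - s with hδ
    have hδ0 : 0 < δ := by linarith
    set r : ℝ := max 1 (4 / δ) with hr
    have hr1 : 1 ≤ r := le_max_left _ _
    have hr2 : 4 / δ ≤ r := le_max_right _ _
    have hr0 : 0 < r := by linarith
    have h1 := fc_mono p ⊤ (ENNReal.ofReal r) (by
      rw [← ENNReal.ofReal_one]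
      exact ENNReal.ofReal_le_ofReal hr1) le_top s hS
    refine h (ENNReal.ofReal r) (by simpa using hr0) ENNReal.ofReal_ne_top ?_ h1
    rw [ENNReal.toReal_ofReal hr0.le]
    have h2 : r⁻¹ ≤ δ / 4 := by
      rw [inv_le_comm₀ hr0 (by positivity)]
      calc (δ / 4)⁻¹ = 4 / δ := by rw [inv_div]
        _ ≤ r := hr2
    linarith
  · rw [ENNReal.toReal_inv] at hs
    exact h q (lt_of_lt_of_le (by norm_num) hq).ne' hqt hs

/-- powers are unbounded -/
theorem fg_unb {δ K : ℝ} (hδ : 0 < δ) (h : ∀ m : ℕ, 1 ≤ m → (m : ℝ) ^ δ ≤ K) : False := by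
  have hlim : Tendsto (fun N : ℕ => (N : ℝ) ^ δ) atTop atTop :=
    (tendsto_rpow_atTop hδ).comp tendsto_natCast_atTop_atTop
  obtain ⟨N, hN1, hN2⟩ := ((eventually_ge_atTop 1).and (hlim.eventually_gt_atTop K)).exists
  exact absurd (h N hN1) (not_le.2 hN2)

/-- one zonal harmonic: necessary condition `1/2 - 2/q ≤ s` -/
theorem focus1 (p q : ℝ≥0∞) (hp : 1 ≤ p) (hq : 2 ≤ q) (s : ℝ)
    (hs : s < 1 / 2 - 2 * (q⁻¹).toReal) : ¬ Strichartz p q s := by
  refine fg_top p q hq (1 / 2) s hs fun q hq0 hqt hs hS => ?_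
  have hne : Nonempty S2 := ⟨⟨EuclideanSpace.single 0 1, by simp⟩⟩
  obtain ⟨e⟩ := hne
  obtain ⟨K, hK, key⟩ := fg_key hp hq0 hqt hS e
  refine fg_unb (δ := 1 / 2 - 2 * q.toReal⁻¹ - s) (K := 2 * π * K) (by linarith) fun N hN => ?_
  have hN0 : (0 : ℝ) < N := by exact_mod_cast hN
  have h1 := key N 1 hN hN (Set.Icc 0 1) measurableSet_Icc le_rfl 1 one_pos (by simp)
    ((N : ℝ) / (2 * π)) (by positivity) (fun t _ => ?_)
  · rw [Real.one_rpow, mul_one, Nat.cast_one, one_mul] at h1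
    have e1 : (N : ℝ) ^ (1 / 2 - 2 * q.toReal⁻¹ - s) * ((N : ℝ) ^ s * (N : ℝ) ^ (1 / 2 : ℝ)) =
        N * (N : ℝ) ^ (-2 * q.toReal⁻¹) := by
      rw [← Real.rpow_add hN0, ← Real.rpow_add hN0]
      nth_rewrite 2 [← Real.rpow_one (N : ℝ)]
      rw [← Real.rpow_add hN0]
      congr 1
      ring
    have h2 : (N : ℝ) ^ (1 / 2 - 2 * q.toReal⁻¹ - s) * ((N : ℝ) ^ s * (N : ℝ) ^ (1 / 2 : ℝ)) ≤
        2 * π * K * ((N : ℝ) ^ s * (N : ℝ) ^ (1 / 2 : ℝ)) := by
      rw [e1]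
      calc (N : ℝ) * (N : ℝ) ^ (-2 * q.toReal⁻¹) =
            2 * π * ((N : ℝ) / (2 * π) * (N : ℝ) ^ (-2 * q.toReal⁻¹)) := by field_simp
        _ ≤ 2 * π * (K * ((N : ℝ) ^ s * (N : ℝ) ^ (1 / 2 : ℝ))) := by gcongr
        _ = _ := by ring
    exact le_of_mul_le_mul_right h2 (by positivity)
  · have e1 : Finset.Ico N (N + 1) = {N} := by
      ext n
      simp only [Finset.mem_Ico, Finset.mem_singleton]
      omega
    unfold upw
    rw [e1, Finset.sum_singleton, norm_mul, norm_cexp_it, one_mul]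
    unfold zf
    rw [ip_self, Z_one, Complex.norm_real, Real.norm_eq_abs, abs_of_nonneg (by positivity)]
    calc (N : ℝ) / (2 * π) = (2 * N) / (4 * π) := by field_simp; ring
      _ ≤ _ := by
        gcongr
        linarith

/-! ### narrow wave packets -/

/-- the deviation from an arithmetic progression -/
theorem fg_dev {N k : ℕ} (hN : 2 ≤ N) (hk : k ≤ N) :
    0 ≤ Lam (N + k) - Lam N - k * (Lam (N + 1) - Lam N) ∧
      Lam (N + k) - Lam N - k * (Lam (N + 1) - Lam N) ≤ (k : ℝ) ^ 2 / √N := by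
  have hs : 0 ≤ 1 / √(N : ℝ) := by positivity
  induction k with
  | zero => simp
  | succ k ih =>
    obtain ⟨i1, i2⟩ := ih (by omega)
    have h := la_sub2 (N := N) (a := N) (b := N + k) (h := 1) hN le_rfl (by omega) (by omega)
    push_cast at h ⊢
    rw [show N + (k + 1) = N + k + 1 by ring]
    have hk0 : (0 : ℝ) ≤ k := k.cast_nonneg
    have e1 : (N : ℝ) + k - N = k := by ring
    rw [e1] at h
    have h1 : 0 ≤ 1 / 5 / √(N : ℝ) * (1 * (k : ℝ)) := by positivity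
    constructor
    · linarith [h.1]
    · have h2 : ((k : ℝ) + 1) ^ 2 / √N = (k : ℝ) ^ 2 / √N + 1 / √N * (1 * (k : ℝ)) +
          1 / √N * ((k : ℝ) + 1) := by ring
      rw [h2]
      have h3 : 0 ≤ 1 / √(N : ℝ) * ((k : ℝ) + 1) := by positivity
      linarith [h.2]

/-- refocusing -/
theorem fg_point (e : S2) {m N : ℕ} (hm : 1 ≤ m) (hN : N = 256 * m ^ 4) (t : ℝ) (ht0 : 0 ≤ t)
    (ht1 : t ≤ 1) (j : ℕ) (hj1 : 2 * π * j ≤ t * (Lam (N + 1) - Lam N))
    (hj2 : t * (Lam (N + 1) - Lam N) ≤ 2 * π * j + 1 / (10 * m)) :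
    (m : ℝ) * N / (4 * π) ≤ ‖upw (zf e) (Finset.Ico N (N + m)) t e‖ := by
  have hm0 : (0 : ℝ) < m := by exact_mod_cast hm
  have hm4 : m ≤ m ^ 4 := Nat.le_self_pow (by norm_num) m
  have hNm : m ≤ N := by omega
  have hN2 : 2 ≤ N := by omega
  have hN0 : (0 : ℝ) < N := by
    have : 0 < N := by omega
    exact_mod_cast this
  have hsq : √(N : ℝ) = 16 * (m : ℝ) ^ 2 := by
    rw [hN]
    push_cast
    rw [show (256 : ℝ) * (m : ℝ) ^ 4 = (16 * (m : ℝ) ^ 2) ^ 2 by ring]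
    exact Real.sqrt_sq (by positivity)
  -- factor out the first phase
  have h0 : ‖upw (zf e) (Finset.Ico N (N + m)) t e‖ =
      ‖∑ n ∈ Finset.Ico N (N + m), cexp (((t * (Lam n - Lam N) : ℝ) : ℂ) * I) * zf e n e‖ := by
    have e1 : upw (zf e) (Finset.Ico N (N + m)) t e = cexp (I * t * Lam N) *
        ∑ n ∈ Finset.Ico N (N + m), cexp (((t * (Lam n - Lam N) : ℝ) : ℂ) * I) * zf e n e := by
      unfold upw
      rw [Finset.mul_sum]
      refine Finset.sum_congr rfl fun n _ => ?_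
      rw [← mul_assoc, ← Complex.exp_add]
      congr 2
      push_cast
      ring
    rw [e1, norm_mul, norm_cexp_it, one_mul]
  rw [h0]
  refine le_trans ?_ (Complex.re_le_norm _)
  rw [Complex.re_sum]
  have h1 : ∀ n ∈ Finset.Ico N (N + m), (N : ℝ) / (4 * π) ≤
      (cexp (((t * (Lam n - Lam N) : ℝ) : ℂ) * I) * zf e n e).re := by
    intro n hn
    obtain ⟨hn1, hn2⟩ := Finset.mem_Ico.1 hn
    obtain ⟨k, rfl⟩ := Nat.exists_eq_add_of_le hn1
    have hkm : k ≤ m := by omega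
    have hkm' : (k : ℝ) ≤ m := by exact_mod_cast hkm
    have hk0 : (0 : ℝ) ≤ k := k.cast_nonneg
    have e2 : zf e (N + k) e = (((2 * ((N + k : ℕ) : ℝ) + 1) / (4 * π) : ℝ) : ℂ) := by
      unfold zf
      rw [ip_self, Z_one]
    rw [e2, Complex.re_mul_ofReal, Complex.exp_ofReal_mul_I_re]
    obtain ⟨d1, d2⟩ := fg_dev (k := k) hN2 (by omega)
    set dv := Lam (N + k) - Lam N - k * (Lam (N + 1) - Lam N) with hdv
    set L1 := Lam (N + 1) - Lam N with hL1
    have d3 : dv ≤ 1 / 16 := by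
      refine d2.trans ?_
      rw [hsq, div_le_iff₀ (by positivity)]
      nlinarith
    -- the phase modulo `2π`
    have e3 : t * (Lam (N + k) - Lam N) =
        (k * (t * L1 - 2 * π * j) + t * dv) + ((k * j : ℕ) : ℝ) * (2 * π) := by
      rw [hdv]
      push_cast
      ring
    rw [e3, Real.cos_add_nat_mul_two_pi]
    set y := k * (t * L1 - 2 * π * j) + t * dv with hy
    have y1 : 0 ≤ y := by
      have a1 : 0 ≤ (k : ℝ) * (t * L1 - 2 * π * j) := mul_nonneg hk0 (by linarith)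
      have a2 : 0 ≤ t * dv := mul_nonneg ht0 d1
      linarith
    have y2 : y ≤ 1 := by
      have a1 : (k : ℝ) * (t * L1 - 2 * π * j) ≤ m * (1 / (10 * m)) := by
        refine mul_le_mul hkm' (by linarith) (by linarith) hm0.le
      have a3 : (m : ℝ) * (1 / (10 * m)) = 1 / 10 := by field_simp
      have a2 : t * dv ≤ 1 * (1 / 16) := mul_le_mul ht1 d3 d1 zero_le_one
      rw [hy]
      linarith
    have h4 : 1 / 2 ≤ Real.cos y := by
      have := Real.one_sub_sq_div_two_le_cos (x := y)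
      nlinarith
    calc (N : ℝ) / (4 * π) = 1 / 2 * ((2 * N) / (4 * π)) := by ring
      _ ≤ Real.cos y * ((2 * ((N + k : ℕ) : ℝ) + 1) / (4 * π)) := by
          gcongr
          push_cast
          linarith
  refine le_trans (le_of_eq ?_) (Finset.card_nsmul_le_sum _ _ _ h1)
  rw [Nat.card_Ico, nsmul_eq_mul, Nat.add_sub_cancel_left]
  ring

/-- the times of refocusing -/
theorem fg_times {L1 w : ℝ} (hL : 4 * π ≤ L1) (hw0 : 0 < w) (hw1 : w ≤ 1) :
    ∃ T : Set ℝ, MeasurableSet T ∧ T ⊆ Set.Icc 0 1 ∧ ENNReal.ofReal (w / (4 * π)) ≤ volume T ∧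
      ∀ t ∈ T, ∃ j : ℕ, 2 * π * j ≤ t * L1 ∧ t * L1 ≤ 2 * π * j + w := by
  have hpi := Real.pi_gt_three
  have hL0 : 0 < L1 := by linarith
  set J : ℕ := ⌊L1 / (2 * π)⌋₊ with hJ
  have hJ1 : (J : ℝ) ≤ L1 / (2 * π) := Nat.floor_le (by positivity)
  have hJ2 : L1 / (2 * π) < J + 1 := Nat.lt_floor_add_one _
  have hJ3 : 2 * π * J ≤ L1 := by
    rw [le_div_iff₀ (by positivity)] at hJ1
    linarith
  have hJ4 : L1 / (4 * π) ≤ J := by
    have h1 : 1 ≤ L1 / (4 * π) := by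
      rw [le_div_iff₀ (by positivity)]
      linarith
    have h2 : L1 / (2 * π) = L1 / (4 * π) + L1 / (4 * π) := by
      field_simp
      ring
    linarith
  set U : ℕ → Set ℝ := fun j => Set.Icc (2 * π * j / L1) ((2 * π * j + w) / L1) with hU
  refine ⟨⋃ j ∈ Finset.range J, U j, Finset.measurableSet_biUnion _ fun j _ => measurableSet_Icc,
    ?_, ?_, ?_⟩
  · refine Set.iUnion₂_subset fun j hj => ?_
    have hj' : (j : ℝ) + 1 ≤ J := by exact_mod_cast Finset.mem_range.1 hj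
    refine Set.Icc_subset_Icc (by positivity) ?_
    rw [div_le_one hL0]
    nlinarith
  · rw [measure_biUnion_finset]
    · have h1 : ∀ j ∈ Finset.range J, volume (U j) = ENNReal.ofReal (w / L1) := by
        intro j _
        rw [hU, Real.volume_Icc]
        congr 1
        ring
      rw [Finset.sum_congr rfl h1, Finset.sum_const, Finset.card_range, nsmul_eq_mul,
        ← ENNReal.ofReal_natCast, ← ENNReal.ofReal_mul (Nat.cast_nonneg _)]
      refine ENNReal.ofReal_le_ofReal ?_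
      calc w / (4 * π) = L1 / (4 * π) * (w / L1) := by field_simp
        _ ≤ J * (w / L1) := by gcongr
    · intro i _ j _ hij
      have key : ∀ i j : ℕ, i < j → Disjoint (U i) (U j) := by
        intro i j hij
        rw [Set.disjoint_left]
        intro t ht1 ht2
        have h1 : t ≤ (2 * π * i + w) / L1 := ht1.2
        have h2 : 2 * π * j / L1 ≤ t := ht2.1
        have h3 : (i : ℝ) + 1 ≤ j := by exact_mod_cast hij
        have h4 : 2 * π * j / L1 ≤ (2 * π * i + w) / L1 := h2.trans h1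
        rw [div_le_div_iff_of_pos_right hL0] at h4
        nlinarith
      rcases lt_or_gt_of_ne hij with h | h
      · exact key i j h
      · exact (key j i h).symm
    · intro j _
      exact measurableSet_Icc
  · intro t ht
    obtain ⟨j, -, hj⟩ := Set.mem_iUnion₂.1 ht
    refine ⟨j, ?_, ?_⟩
    · have := hj.1
      rwa [div_le_iff₀ hL0] at this
    · have := hj.2
      rwa [le_div_iff₀ hL0] at this

/-- the zonal harmonics of degrees `N ≤ n < N + M`, `M = c N^(1/4)`, which refocus at `e` during a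
proportion `1/M` of the time interval `[0,1]`: necessary condition `5/8 - 1/(4p) - 2/q ≤ s` -/
theorem focus2 (p q : ℝ≥0∞) (hp : 1 ≤ p) (hq : 2 ≤ q) (s : ℝ)
    (hs : s < 5 / 8 - (p⁻¹).toReal / 4 - 2 * (q⁻¹).toReal) : ¬ Strichartz p q s := by
  refine fg_top p q hq (5 / 8 - (p⁻¹).toReal / 4) s hs fun q hq0 hqt hs hS => ?_
  rw [ENNReal.toReal_inv] at hs
  have hne : Nonempty S2 := ⟨⟨EuclideanSpace.single 0 1, by simp⟩⟩
  obtain ⟨e⟩ := hne
  obtain ⟨K, hK, key⟩ := fg_key hp hq0 hqt hS e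
  set P : ℝ := p.toReal⁻¹ with hP
  set R : ℝ := q.toReal⁻¹ with hR
  set c1 : ℝ := (1 / (40 * π)) ^ P with hc1
  have hc10 : 0 < c1 := by positivity
  refine fg_unb (δ := 4 * (5 / 8 - P / 4 - 2 * R - s))
    (K := K * (256 : ℝ) ^ (s + 1 / 2 + 2 * R - 1) * (4 * π) / c1) (by linarith) fun m hm => ?_
  have hm0 : (0 : ℝ) < m := by exact_mod_cast hm
  have hm1 : (1 : ℝ) ≤ m := by exact_mod_cast hm
  obtain ⟨N, hN⟩ : ∃ N : ℕ, N = 256 * m ^ 4 := ⟨_, rfl⟩
  have hm4 : m ≤ m ^ 4 := Nat.le_self_pow (by norm_num) m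
  have hNm : m ≤ N := by omega
  have hN2 : 2 ≤ N := by omega
  have hN0 : (0 : ℝ) < N := by
    have : 0 < N := by omega
    exact_mod_cast this
  have hNr : (N : ℝ) = 256 * (m : ℝ) ^ (4 : ℝ) := by
    rw [hN]
    push_cast
    congr 1
    rw [← Real.rpow_natCast]
    norm_num
  have hL : 4 * π ≤ Lam (N + 1) - Lam N := by
    have h1 := (la_sub (N := N) (a := N) (b := N + 1) hN2 le_rfl (by omega) (by omega)).1
    push_cast at h1
    have hsq : √(N : ℝ) = 16 * (m : ℝ) ^ 2 := by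
      rw [hN]
      push_cast
      rw [show (256 : ℝ) * (m : ℝ) ^ 4 = (16 * (m : ℝ) ^ 2) ^ 2 by ring]
      exact Real.sqrt_sq (by positivity)
    rw [hsq] at h1
    have := Real.pi_lt_four
    nlinarith
  obtain ⟨T, hT1, hT2, hT3, hT4⟩ := fg_times (w := 1 / (10 * m)) hL (by positivity) (by
    rw [div_le_one (by positivity)]
    linarith)
  have h1 := key N m (by omega) hNm T hT1 hT2 (1 / (10 * m) / (4 * π)) (by positivity) hT3
    ((m : ℝ) * N / (4 * π)) (by positivity) (fun t ht => by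
      obtain ⟨j, hj1, hj2⟩ := hT4 t ht
      exact fg_point e hm hN t (hT2 ht).1 (hT2 ht).2 j hj1 hj2)
  have e1 : 1 / (10 * (m : ℝ)) / (4 * π) = 1 / (40 * π) * (m : ℝ) ^ (-1 : ℝ) := by
    rw [Real.rpow_neg_one]
    field_simp
    ring
  rw [e1, Real.mul_rpow (by positivity) (by positivity), ← hc1,
    ← Real.rpow_mul hm0.le] at h1
  have hNx : ∀ x : ℝ, (N : ℝ) ^ x = (256 : ℝ) ^ x * (m : ℝ) ^ (4 * x) := fun x => by
    rw [hNr, Real.mul_rpow (by norm_num) (by positivity), ← Real.rpow_mul hm0.le]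
  have l1 : (m : ℝ) * N / (4 * π) * (c1 * (m : ℝ) ^ (-1 * P)) * (N : ℝ) ^ (-2 * R) =
      (c1 / (4 * π)) * ((256 : ℝ) ^ (1 : ℝ) * (256 : ℝ) ^ (-2 * R)) *
        ((m : ℝ) ^ (1 : ℝ) * (m : ℝ) ^ (4 : ℝ) * (m : ℝ) ^ (-1 * P) * (m : ℝ) ^ (4 * (-2 * R))) := by
    rw [hNx, hNr, Real.rpow_one, Real.rpow_one]
    ring
  have r1 : K * ((N : ℝ) ^ s * ((m : ℝ) * N) ^ (1 / 2 : ℝ)) =
      K * ((256 : ℝ) ^ s * (256 : ℝ) ^ (1 / 2 : ℝ)) *
        ((m : ℝ) ^ (4 * s) * (m : ℝ) ^ (1 / 2 : ℝ) * (m : ℝ) ^ (4 * (1 / 2) : ℝ)) := by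
    rw [Real.mul_rpow hm0.le hN0.le, hNx, hNx]
    ring
  rw [l1, r1] at h1
  simp only [← Real.rpow_add hm0, ← Real.rpow_add (show (0 : ℝ) < 256 by norm_num)] at h1
  have e2 : (m : ℝ) ^ (4 * (5 / 8 - P / 4 - 2 * R - s)) =
      (m : ℝ) ^ (1 + 4 + -1 * P + 4 * (-2 * R)) / (m : ℝ) ^ (4 * s + 1 / 2 + 4 * (1 / 2)) := by
    rw [← Real.rpow_sub hm0]
    congr 1
    ring
  have e3 : (256 : ℝ) ^ (s + 1 / 2 + 2 * R - 1) =
      (256 : ℝ) ^ (s + 1 / 2) / (256 : ℝ) ^ (1 + -2 * R) := by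
    rw [← Real.rpow_sub (by norm_num)]
    congr 1
    ring
  rw [e2, e3, div_le_iff₀ (by positivity)]
  have hA : 0 < (256 : ℝ) ^ (1 + -2 * R) := by positivity
  generalize (256 : ℝ) ^ (1 + -2 * R) = A at h1 hA ⊢
  generalize (256 : ℝ) ^ (s + 1 / 2) = A' at h1 ⊢
  generalize (m : ℝ) ^ (1 + 4 + -1 * P + 4 * (-2 * R)) = X at h1 ⊢
  generalize (m : ℝ) ^ (4 * s + 1 / 2 + 4 * (1 / 2)) = Y at h1 ⊢
  have h2 : X = (c1 / (4 * π) * A * X) * (4 * π / (c1 * A)) := by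
    field_simp
  rw [h2]
  calc (c1 / (4 * π) * A * X) * (4 * π / (c1 * A)) ≤ (K * A' * Y) * (4 * π / (c1 * A)) := by
        gcongr
    _ = _ := by
        field_simp

end

end Pool.Agent.DW
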