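import Mathlib

/-!
# Exponential sums with monotone differences: the Kusmin-Landau lemma, the second derivative test and
partial summation
-/

open Finset Real Complex

namespace Pool.Agent.DW

noncomputable section

/-! ### the Kusmin-Landau lemma -/

/-- `cot (d / 2)` -/
def klt (d : ℝ) : ℝ := Real.cos (d / 2) / Real.sin (d / 2)

/-- `1 / (1 - e^{id})` -/
def klc (d : ℝ) : ℂ := 1 / 2 + I / 2 * (klt d : ℂ)

theorem klc_mul {d : ℝ} (hd : Real.sin (d / 2) ≠ 0) : klc d * (1 - cexp (I * d)) = 1 := by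
  have h1 : cexp (I * d) = (Real.cos d : ℂ) + I * (Real.sin d : ℂ) := by
    rw [mul_comm I, Complex.exp_mul_I, ← Complex.ofReal_cos, ← Complex.ofReal_sin]
    ring
  have hc : Real.cos d = 1 - 2 * Real.sin (d / 2) ^ 2 := by
    have h1 := Real.cos_two_mul (d / 2)
    have h2 := Real.sin_sq_add_cos_sq (d / 2)
    rw [show 2 * (d / 2) = d by ring] at h1
    linarith
  have hs : Real.sin d = 2 * Real.sin (d / 2) * Real.cos (d / 2) := by
    rw [← Real.sin_two_mul]
    congr 1
    ring
  have h2 : ((Real.sin (d / 2) : ℝ) : ℂ) ^ 2 + ((Real.cos (d / 2) : ℝ) : ℂ) ^ 2 = 1 := by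
    exact_mod_cast Real.sin_sq_add_cos_sq (d / 2)
  have hs0 : ((Real.sin (d / 2) : ℝ) : ℂ) ≠ 0 := by exact_mod_cast hd
  rw [h1, hc, hs]
  unfold klc klt
  push_cast
  push_cast at h2 hs0
  field_simp
  have hI : I ^ 2 = -1 := Complex.I_sq
  linear_combination (2 * Complex.sin (d / 2)) * h2 - (2 * Complex.sin (d / 2) * Complex.cos (d / 2) ^ 2) * hI

theorem kl_sin {d θ : ℝ} (hθ : 0 < θ) (hθ' : θ ≤ π) (h1 : θ ≤ d) (h2 : d ≤ 2 * π - θ) :
    θ / π ≤ Real.sin (d / 2) := by
  have hpi := Real.pi_pos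
  have key : ∀ y : ℝ, θ / 2 ≤ y → y ≤ π / 2 → θ / π ≤ Real.sin y := by
    intro y hy1 hy2
    have h3 := Real.mul_le_sin (x := y) (by linarith) hy2
    refine le_trans ?_ h3
    rw [div_mul_eq_mul_div, div_le_div_iff_of_pos_right hpi]
    linarith
  by_cases hd : d / 2 ≤ π / 2
  · exact key _ (by linarith) hd
  · rw [← Real.sin_pi_sub]
    push Not at hd
    exact key _ (by linarith) (by linarith)

theorem klt_sub {u v : ℝ} (hu : Real.sin (u / 2) ≠ 0) (hv : Real.sin (v / 2) ≠ 0) :
    klt u - klt v = Real.sin ((v - u) / 2) / (Real.sin (u / 2) * Real.sin (v / 2)) := by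
  have h : (v - u) / 2 = v / 2 - u / 2 := by ring
  rw [h, Real.sin_sub]
  unfold klt
  field_simp

theorem klt_anti {u v : ℝ} (hu : 0 < u) (huv : u ≤ v) (hv : v < 2 * π) : klt v ≤ klt u := by
  have h1 : 0 < Real.sin (u / 2) := Real.sin_pos_of_pos_of_lt_pi (by linarith) (by linarith)
  have h2 : 0 < Real.sin (v / 2) := Real.sin_pos_of_pos_of_lt_pi (by linarith) (by linarith)
  have h3 := klt_sub h1.ne' h2.ne'
  have h4 : 0 ≤ Real.sin ((v - u) / 2) :=
    Real.sin_nonneg_of_nonneg_of_le_pi (by linarith) (by linarith)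
  have h5 : 0 ≤ klt u - klt v := by
    rw [h3]
    positivity
  linarith

theorem klt_abs {d θ : ℝ} (hθ : 0 < θ) (hθ' : θ ≤ π) (h1 : θ ≤ d) (h2 : d ≤ 2 * π - θ) :
    |klt d| ≤ π / θ := by
  have hs := kl_sin hθ hθ' h1 h2
  have hpi := Real.pi_pos
  have hs0 : 0 < Real.sin (d / 2) := lt_of_lt_of_le (by positivity) hs
  unfold klt
  rw [abs_div, abs_of_pos hs0, div_le_div_iff₀ hs0 hθ]
  calc |Real.cos (d / 2)| * θ ≤ 1 * θ := by
        gcongr
        exact Real.abs_cos_le_one _
    _ = π * (θ / π) := by field_simp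
    _ ≤ π * Real.sin (d / 2) := by gcongr

theorem klc_norm {d θ : ℝ} (hθ : 0 < θ) (hθ' : θ ≤ π) (h1 : θ ≤ d) (h2 : d ≤ 2 * π - θ) :
    ‖klc d‖ ≤ π / (2 * θ) + 1 / 2 := by
  unfold klc
  refine (norm_add_le _ _).trans ?_
  have h3 : ‖I / 2 * (klt d : ℂ)‖ ≤ π / (2 * θ) := by
    rw [norm_mul, norm_div, Complex.norm_I, Complex.norm_real, Real.norm_eq_abs]
    have := klt_abs hθ hθ' h1 h2
    calc 1 / ‖(2 : ℂ)‖ * |klt d| ≤ 1 / ‖(2 : ℂ)‖ * (π / θ) := by gcongr
      _ = π / (2 * θ) := by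
        rw [Complex.norm_ofNat]
        field_simp
  have h4 : ‖(1 / 2 : ℂ)‖ = 1 / 2 := by
    rw [norm_div, norm_one, Complex.norm_ofNat]
  linarith

/-- the Kusmin-Landau lemma -/
theorem kl0 (x : ℕ → ℝ) (a b : ℕ) (θ : ℝ) (hab : a < b) (hθ : 0 < θ) (hθ' : θ ≤ π)
    (h1 : ∀ n, a ≤ n → n < b → θ ≤ x (n + 1) - x n ∧ x (n + 1) - x n ≤ 2 * π - θ)
    (h2 : ∀ n, a ≤ n → n + 1 < b → x (n + 1) - x n ≤ x (n + 2) - x (n + 1)) :
    ‖∑ n ∈ Ico a b, cexp (I * x n)‖ ≤ 3 * π / θ := by
  have hpi := Real.pi_pos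
  have hsin : ∀ n, a ≤ n → n < b → 0 < Real.sin ((x (n + 1) - x n) / 2) := fun n ha hb =>
    lt_of_lt_of_le (by positivity) (kl_sin hθ hθ' (h1 n ha hb).1 (h1 n ha hb).2)
  have hE : ∀ n, a ≤ n → n < b →
      cexp (I * x n) = klc (x (n + 1) - x n) * (cexp (I * x n) - cexp (I * x (n + 1))) := by
    intro n ha hb
    have h3 := klc_mul (hsin n ha hb).ne'
    have h4 : cexp (I * x (n + 1)) = cexp (I * x n) * cexp (I * ((x (n + 1) - x n : ℝ) : ℂ)) := by
      rw [← Complex.exp_add]
      congr 1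
      push_cast
      ring
    calc cexp (I * x n) = cexp (I * x n) *
          (klc (x (n + 1) - x n) * (1 - cexp (I * ((x (n + 1) - x n : ℝ) : ℂ)))) := by
          rw [h3, mul_one]
      _ = _ := by
        rw [h4]
        ring
  have hunit : ∀ n, ‖cexp (I * x n)‖ = 1 := fun n => by
    rw [mul_comm, Complex.norm_exp_ofReal_mul_I]
  -- the induction
  have key : ∀ m, a + 1 + m ≤ b →
      ‖∑ n ∈ Ico a (a + 1 + m), cexp (I * x n) +
        klc (x (a + m + 1) - x (a + m)) * cexp (I * x (a + m + 1))‖ ≤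
      (π / (2 * θ) + 1 / 2) +
        1 / 2 * (klt (x (a + 1) - x a) - klt (x (a + m + 1) - x (a + m))) := by
    intro m
    induction m with
    | zero =>
      intro hm
      have h3 := hE a le_rfl (by omega)
      have h4 : ∑ n ∈ Ico a (a + 1 + 0), cexp (I * x n) = cexp (I * x a) := by
        simp
      rw [h4]
      have h5 : cexp (I * x a) + klc (x (a + 0 + 1) - x (a + 0)) * cexp (I * x (a + 0 + 1)) =
          klc (x (a + 1) - x a) * cexp (I * x a) := by
        simp only [add_zero]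
        linear_combination h3
      rw [h5, norm_mul, hunit, mul_one]
      have h6 := klc_norm hθ hθ' (h1 a le_rfl (by omega)).1 (h1 a le_rfl (by omega)).2
      simp only [add_zero, sub_self, mul_zero]
      exact h6
    | succ m ih =>
      intro hm
      have ih' := ih (by omega)
      set b' := a + m + 1 with hb'
      have e1 : a + 1 + (m + 1) = b' + 1 := by omega
      have e2 : a + (m + 1) = b' := by omega
      have e3 : a + 1 + m = b' := by omega
      rw [e1, e2, Finset.sum_Ico_succ_top (by omega)]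
      rw [e3] at ih'
      have h3 := hE b' (by omega) (by omega)
      have h4 : ∑ n ∈ Ico a b', cexp (I * x n) + cexp (I * x b') +
          klc (x (b' + 1) - x b') * cexp (I * x (b' + 1)) =
          (∑ n ∈ Ico a b', cexp (I * x n) + klc (x b' - x (a + m)) * cexp (I * x b')) +
            (klc (x (b' + 1) - x b') - klc (x b' - x (a + m))) * cexp (I * x b') := by
        linear_combination h3
      rw [h4]
      refine (norm_add_le _ _).trans ?_
      have hm1 : x b' - x (a + m) ≤ x (b' + 1) - x b' := h2 (a + m) (by omega) (by omega)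
      have hlo : 0 < x b' - x (a + m) := lt_of_lt_of_le hθ (h1 (a + m) (by omega) (by omega)).1
      have hhi : x (b' + 1) - x b' < 2 * π := by
        have := (h1 b' (by omega) (by omega)).2
        linarith
      have hanti := klt_anti hlo hm1 hhi
      have h5 : ‖(klc (x (b' + 1) - x b') - klc (x b' - x (a + m))) * cexp (I * x b')‖ =
          1 / 2 * (klt (x b' - x (a + m)) - klt (x (b' + 1) - x b')) := by
        rw [norm_mul, hunit, mul_one]
        have : klc (x (b' + 1) - x b') - klc (x b' - x (a + m)) =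
            I / 2 * ((klt (x (b' + 1) - x b') - klt (x b' - x (a + m)) : ℝ) : ℂ) := by
          unfold klc
          push_cast
          ring
        rw [this, norm_mul, norm_div, Complex.norm_I, Complex.norm_real, Real.norm_eq_abs,
          Complex.norm_ofNat, abs_of_nonpos (by linarith)]
        ring
      rw [h5]
      linarith
  obtain ⟨m, hm⟩ : ∃ m, b = a + 1 + m := ⟨b - a - 1, by omega⟩
  have h3 := key m (by omega)
  have hlast : a + m + 1 = b := by omega
  have hl1 : a ≤ a + m := by omega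
  have hl2 : a + m < b := by omega
  have hb1 := h1 (a + m) hl1 hl2
  have ha1 := h1 a le_rfl hab
  have hk1 := klt_abs hθ hθ' ha1.1 ha1.2
  have hk2 := klt_abs hθ hθ' hb1.1 hb1.2
  have hc := klc_norm hθ hθ' hb1.1 hb1.2
  rw [← hm] at h3
  have h4 : ∑ n ∈ Ico a b, cexp (I * x n) = (∑ n ∈ Ico a b, cexp (I * x n) +
      klc (x (a + m + 1) - x (a + m)) * cexp (I * x (a + m + 1))) -
      klc (x (a + m + 1) - x (a + m)) * cexp (I * x (a + m + 1)) := by ring
  rw [h4]
  refine (norm_sub_le _ _).trans ?_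
  rw [norm_mul _ (cexp _), hunit, mul_one]
  have h5 : klt (x (a + 1) - x a) - klt (x (a + m + 1) - x (a + m)) ≤ π / θ + π / θ := by
    have := (abs_le.1 hk1).2
    have := (abs_le.1 hk2).1
    linarith
  have h6 : 1 ≤ π / θ := by
    rw [le_div_iff₀ hθ]
    linarith
  have h7 : π / (2 * θ) = 1 / 2 * (π / θ) := by field_simp
  have h8 : 3 * π / θ = 3 * (π / θ) := by ring
  rw [h8]
  rw [h7] at h3 hc
  linarith

/-- the Kusmin-Landau lemma, differences near an arbitrary multiple of `2π` -/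
theorem kl (x : ℕ → ℝ) (a b : ℕ) (θ : ℝ) (k : ℤ) (hθ : 0 < θ) (hθ' : θ ≤ π)
    (h1 : ∀ n, a ≤ n → n < b → 2 * π * k + θ ≤ x (n + 1) - x n ∧
      x (n + 1) - x n ≤ 2 * π * (k + 1) - θ)
    (h2 : ∀ n, a ≤ n → n + 1 < b → x (n + 1) - x n ≤ x (n + 2) - x (n + 1)) :
    ‖∑ n ∈ Ico a b, cexp (I * x n)‖ ≤ 3 * π / θ := by
  have hpi := Real.pi_pos
  by_cases hab : a < b
  · have h3 := kl0 (fun n => x n - 2 * π * k * n) a b θ hab hθ hθ'
      (fun n ha hb => by
        have := h1 n ha hb
        push_cast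
        constructor <;> linarith [this.1, this.2])
      (fun n ha hb => by
        have := h2 n ha hb
        push_cast
        linarith)
    refine le_trans (le_of_eq ?_) h3
    congr 1
    refine Finset.sum_congr rfl fun n _ => ?_
    have e : I * ((x n - 2 * π * k * n : ℝ) : ℂ) = I * x n - ((k * n : ℤ) : ℂ) * (2 * π * I) := by
      push_cast
      ring
    rw [e, Complex.exp_sub, Complex.exp_int_mul_two_pi_mul_I, div_one]
  · rw [Finset.Ico_eq_empty hab]
    simp only [Finset.sum_empty, norm_zero]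
    positivity

/-- a set of diameter at most `R` has at most `R + 1` elements -/
theorem kl_card (T : Finset ℕ) {R : ℝ} (hR : 0 ≤ R)
    (h : ∀ x ∈ T, ∀ y ∈ T, x ≤ y → (y : ℝ) - x ≤ R) : (T.card : ℝ) ≤ R + 1 := by
  rcases T.eq_empty_or_nonempty with rfl | hne
  · simp; linarith
  set a := T.min' hne
  set b := T.max' hne
  have hab : a ≤ b := T.min'_le _ (T.max'_mem hne)
  have h1 : T ⊆ Icc a b := fun x hx => Finset.mem_Icc.2 ⟨T.min'_le _ hx, T.le_max' _ hx⟩
  have h2 := Finset.card_le_card h1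
  rw [Nat.card_Icc] at h2
  have h3 := h a (T.min'_mem hne) b (T.max'_mem hne) hab
  have h4 : (T.card : ℝ) ≤ ((b + 1 - a : ℕ) : ℝ) := by exact_mod_cast h2
  rw [Nat.cast_sub (by omega)] at h4
  push_cast at h4
  linarith

/-- second derivative test -/
theorem sdt (x : ℕ → ℝ) (a b : ℕ) (κ B : ℝ) (hκ : 0 < κ) (hκ1 : κ ≤ 1) (hB : 1 ≤ B)
    (h : ∀ n, a ≤ n → n + 2 ≤ b → κ ≤ (x (n + 2) - x (n + 1)) - (x (n + 1) - x n) ∧
      (x (n + 2) - x (n + 1)) - (x (n + 1) - x n) ≤ B * κ) :
    ‖∑ n ∈ Ico a b, cexp (I * x n)‖ ≤ 30 * B * ((b - a : ℕ) * √κ + 1 / √κ) := by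
  have hpi := Real.pi_pos
  have hs : 0 < √κ := Real.sqrt_pos.2 hκ
  have hs1 : √κ ≤ 1 := by
    rw [← Real.sqrt_one]
    exact Real.sqrt_le_sqrt hκ1
  have hss : √κ * √κ = κ := Real.mul_self_sqrt hκ.le
  by_cases hab : a < b
  swap
  · rw [Finset.Ico_eq_empty hab]
    simp only [Finset.sum_empty, norm_zero]
    positivity
  set θ := √κ with hθdef
  have hθpi : θ ≤ π := hs1.trans (by linarith [Real.pi_gt_three])
  obtain ⟨d, hd⟩ : ∃ d : ℕ → ℝ, ∀ n, d n = x (n + 1) - x n := ⟨_, fun _ => rfl⟩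
  have hd1 : ∀ n, a ≤ n → n + 1 < b → κ ≤ d (n + 1) - d n ∧ d (n + 1) - d n ≤ B * κ := by
    intro n ha hb
    rw [hd, hd]
    exact h n ha (by omega)
  have hgrow : ∀ m n, a ≤ n → n + m < b →
      κ * m ≤ d (n + m) - d n ∧ d (n + m) - d n ≤ B * κ * m := by
    intro m n ha
    induction m with
    | zero => intro _; simp
    | succ m ih =>
      intro hb
      have h1 := ih (by omega)
      have h2 := hd1 (n + m) (by omega) (by omega)
      rw [← add_assoc]
      push_cast
      constructor <;> nlinarith [h1.1, h1.2, h2.1, h2.2]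
  have hgrow' : ∀ n m, a ≤ n → n ≤ m → m < b →
      κ * ((m : ℝ) - n) ≤ d m - d n ∧ d m - d n ≤ B * κ * ((m : ℝ) - n) := by
    intro n m ha hnm hb
    obtain ⟨c, rfl⟩ := Nat.exists_eq_add_of_le hnm
    have h1 := hgrow c n ha hb
    push_cast
    simpa using h1
  have hmono : ∀ n m, a ≤ n → n ≤ m → m < b → d n ≤ d m := by
    intro n m ha hnm hb
    have h1 := (hgrow' n m ha hnm hb).1
    have h2 : (0 : ℝ) ≤ (m : ℝ) - n := by
      have : (n : ℝ) ≤ m := by exact_mod_cast hnm
      linarith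
    nlinarith
  obtain ⟨kk, hkk⟩ : ∃ kk : ℕ → ℤ, ∀ n, kk n = ⌊(d n + θ) / (2 * π)⌋ := ⟨_, fun _ => rfl⟩
  have hkk1 : ∀ n, 2 * π * kk n - θ ≤ d n ∧ d n < 2 * π * (kk n + 1) - θ := by
    intro n
    have h1 := Int.floor_le ((d n + θ) / (2 * π))
    have h2 := Int.lt_floor_add_one ((d n + θ) / (2 * π))
    rw [← hkk] at h1 h2
    rw [le_div_iff₀ (by positivity)] at h1
    rw [div_lt_iff₀ (by positivity)] at h2
    constructor <;> linarith
  -- the bound for one value of `k`
  have hfib : ∀ k : ℤ, ‖∑ n ∈ (Ico a b).filter (fun n => kk n = k), cexp (I * x n)‖ ≤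
      13 / θ := by
    intro k
    set F := (Ico a b).filter (fun n => kk n = k) with hF
    have hsplit := Finset.sum_filter_add_sum_filter_not F (fun n => d n < 2 * π * k + θ)
      (fun n => cexp (I * x n))
    rw [← hsplit]
    refine (norm_add_le _ _).trans ?_
    have hb1 : ‖∑ n ∈ F.filter (fun n => d n < 2 * π * k + θ), cexp (I * x n)‖ ≤
        2 * θ / κ + 1 := by
      refine (norm_sum_le _ _).trans ?_
      have h1 : ∀ n, ‖cexp (I * x n)‖ = 1 := fun n => by
        rw [mul_comm, Complex.norm_exp_ofReal_mul_I]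
      simp only [h1, Finset.sum_const, nsmul_eq_mul, mul_one]
      apply kl_card _ (by positivity)
      intro n hn m hm hnm
      rw [Finset.mem_filter, hF, Finset.mem_filter, Finset.mem_Ico] at hn hm
      have h2 := (hgrow' n m hn.1.1.1 hnm hm.1.1.2).1
      have h3 := (hkk1 n).1
      rw [hn.1.2] at h3
      rw [le_div_iff₀ hκ]
      linarith [hm.2]
    have hb2 : ‖∑ n ∈ F.filter (fun n => ¬ d n < 2 * π * k + θ), cexp (I * x n)‖ ≤
        3 * π / θ := by
      set G := F.filter (fun n => ¬ d n < 2 * π * k + θ) with hG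
      rcases G.eq_empty_or_nonempty with hG0 | hne
      · rw [hG0]
        simp only [Finset.sum_empty, norm_zero]
        positivity
      have hmemG : ∀ n, n ∈ G ↔ (a ≤ n ∧ n < b) ∧ 2 * π * k + θ ≤ d n ∧
          d n < 2 * π * (k + 1) - θ := by
        intro n
        rw [hG, Finset.mem_filter, hF, Finset.mem_filter, Finset.mem_Ico, not_lt]
        constructor
        · rintro ⟨⟨h1, h2⟩, h3⟩
          have h4 := (hkk1 n).2
          rw [h2] at h4
          exact ⟨h1, h3, h4⟩
        · rintro ⟨h1, h2, h3⟩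
          refine ⟨⟨h1, ?_⟩, h2⟩
          rw [hkk, Int.floor_eq_iff, le_div_iff₀ (by positivity), div_lt_iff₀ (by positivity)]
          constructor <;> linarith
      set a' := G.min' hne with ha'
      set b' := G.max' hne with hb'
      have ha'G := (hmemG a').1 (G.min'_mem hne)
      have hb'G := (hmemG b').1 (G.max'_mem hne)
      have hGI : G = Ico a' (b' + 1) := by
        ext n
        rw [Finset.mem_Ico]
        constructor
        · intro hn
          exact ⟨G.min'_le _ hn, Nat.lt_succ_of_le (G.le_max' _ hn)⟩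
        · rintro ⟨h1, h2⟩
          rw [hmemG]
          have h3 := hmono a' n ha'G.1.1 h1 (by omega)
          have h4 := hmono n b' (by omega) (by omega) hb'G.1.2
          exact ⟨⟨by omega, by omega⟩, by linarith [ha'G.2.1], by linarith [hb'G.2.2]⟩
      rw [hGI]
      apply kl x a' (b' + 1) θ k hs hθpi
      · intro n h1 h2
        have h3 : n ∈ G := by
          rw [hGI, Finset.mem_Ico]
          exact ⟨h1, h2⟩
        have h4 := (hmemG n).1 h3
        rw [← hd]
        exact ⟨h4.2.1, h4.2.2.le⟩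
      · intro n h1 h2
        have h3 := hmono n (n + 1) (by omega) (by omega) (by omega)
        rw [hd, hd] at h3
        exact h3
    have h5 : 2 * θ / κ = 2 / θ := by
      rw [← hss]
      field_simp
    have h6 : (1 : ℝ) ≤ 1 / θ := by
      rw [le_div_iff₀ hs]
      linarith
    have h7 : 2 * θ / κ + 1 + 3 * π / θ ≤ 13 / θ := by
      rw [h5]
      have h8 : 3 * π / θ ≤ 10 / θ := by
        gcongr
        linarith [Real.pi_lt_d2]
      have h9 : 13 / θ = 2 / θ + 1 / θ + 10 / θ := by ring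
      linarith
    linarith
  -- the number of values of `k`
  have hcard : (((Ico a b).image kk).card : ℝ) ≤ (b - a : ℕ) * (B * κ) / (2 * π) + 2 := by
    have hsub : (Ico a b).image kk ⊆ Finset.Icc (kk a) (kk (b - 1)) := by
      intro k hk
      obtain ⟨n, hn, rfl⟩ := Finset.mem_image.1 hk
      rw [Finset.mem_Ico] at hn
      rw [Finset.mem_Icc, hkk, hkk, hkk]
      constructor
      · apply Int.floor_le_floor
        have := hmono a n le_rfl hn.1 hn.2
        gcongr
      · apply Int.floor_le_floor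
        have := hmono n (b - 1) hn.1 (by omega) (by omega)
        gcongr
    have h1 := Finset.card_le_card hsub
    rw [Int.card_Icc] at h1
    have h2 : (((Ico a b).image kk).card : ℝ) ≤ ((kk (b - 1) + 1 - kk a).toNat : ℝ) := by
      exact_mod_cast h1
    have hle : kk a ≤ kk (b - 1) := by
      rw [hkk, hkk]
      apply Int.floor_le_floor
      have := hmono a (b - 1) le_rfl (by omega) (by omega)
      gcongr
    have h3 : (((kk (b - 1) + 1 - kk a).toNat : ℤ) : ℝ) = ((kk (b - 1) + 1 - kk a : ℤ) : ℝ) := by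
      rw [Int.toNat_of_nonneg (by omega)]
    have h4 : (((kk (b - 1) + 1 - kk a).toNat : ℕ) : ℝ) = (kk (b - 1) : ℝ) + 1 - kk a := by
      have : (((kk (b - 1) + 1 - kk a).toNat : ℤ) : ℝ) =
        (((kk (b - 1) + 1 - kk a).toNat : ℕ) : ℝ) := by norm_cast
      rw [← this, h3]
      push_cast
      ring
    rw [h4] at h2
    have h5 := (hkk1 (b - 1)).1
    have h6 := (hkk1 a).2
    have h7 := (hgrow' a (b - 1) le_rfl (by omega) (by omega)).2
    have h8 : ((b - 1 : ℕ) : ℝ) - a ≤ ((b - a : ℕ) : ℝ) := by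
      rw [Nat.cast_sub (by omega), Nat.cast_sub (by omega)]
      push_cast
      linarith
    have h9 : 2 * π * ((kk (b - 1) : ℝ) - kk a - 1) ≤ (b - a : ℕ) * (B * κ) := by
      have : B * κ * (((b - 1 : ℕ) : ℝ) - a) ≤ B * κ * ((b - a : ℕ) : ℝ) := by gcongr
      nlinarith
    have h10 : (kk (b - 1) : ℝ) - kk a - 1 ≤ (b - a : ℕ) * (B * κ) / (2 * π) := by
      rw [le_div_iff₀ (by positivity)]
      linarith
    linarith
  -- conclusion
  have hsum : ∑ n ∈ Ico a b, cexp (I * x n) = ∑ k ∈ (Ico a b).image kk,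
      ∑ n ∈ (Ico a b).filter (fun n => kk n = k), cexp (I * x n) :=
    (Finset.sum_fiberwise_of_maps_to (fun n hn => Finset.mem_image_of_mem _ hn) _).symm
  rw [hsum]
  refine (norm_sum_le _ _).trans ((Finset.sum_le_sum fun k _ => hfib k).trans ?_)
  rw [Finset.sum_const, nsmul_eq_mul]
  have h1 : ((b - a : ℕ) * (B * κ) / (2 * π) + 2) * (13 / θ) ≤
      30 * B * ((b - a : ℕ) * θ + 1 / θ) := by
    have e1 : (b - a : ℕ) * (B * κ) / (2 * π) * (13 / θ) = 13 / (2 * π) * B * ((b - a : ℕ) * θ) := by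
      rw [← hss]
      field_simp
    have e2 : 13 / (2 * π) ≤ 30 := by
      rw [div_le_iff₀ (by positivity)]
      nlinarith [Real.pi_gt_three]
    have e3 : 13 / (2 * π) * B * ((b - a : ℕ) * θ) ≤ 30 * B * ((b - a : ℕ) * θ) := by gcongr
    have e4 : 2 * (13 / θ) ≤ 30 * B * (1 / θ) := by
      have : 2 * (13 / θ) = 26 * (1 / θ) := by ring
      rw [this]
      gcongr
      linarith
    calc ((b - a : ℕ) * (B * κ) / (2 * π) + 2) * (13 / θ)
        = (b - a : ℕ) * (B * κ) / (2 * π) * (13 / θ) + 2 * (13 / θ) := by ring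
      _ ≤ 30 * B * ((b - a : ℕ) * θ) + 30 * B * (1 / θ) := by rw [e1]; linarith
      _ = _ := by ring
  refine le_trans ?_ h1
  gcongr

/-! ### partial summation -/

/-- partial summation with decreasing weights -/
theorem abel_anti (a b : ℕ) (hab' : a ≤ b) (v : ℕ → ℝ) (z : ℕ → ℂ) (M : ℝ) (hv : ∀ n, 0 ≤ v n)
    (hanti : ∀ n, v (n + 1) ≤ v n) (hM : ∀ c, a ≤ c → c ≤ b → ‖∑ n ∈ Ico a c, z n‖ ≤ M) :
    ‖∑ n ∈ Ico a b, (v n : ℂ) * z n‖ ≤ v a * M := by
  by_cases hab : a < b
  swap
  · rw [Finset.Ico_eq_empty hab]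
    simp only [Finset.sum_empty, norm_zero]
    have h2 := hM a le_rfl hab'
    simp only [Finset.Ico_self, Finset.sum_empty, norm_zero] at h2
    exact mul_nonneg (hv a) h2
  have key : ∀ m, a + 1 + m ≤ b →
      ‖∑ n ∈ Ico a (a + 1 + m), (v n : ℂ) * z n - v (a + m) * ∑ n ∈ Ico a (a + 1 + m), z n‖ ≤
      (v a - v (a + m)) * M := by
    intro m
    induction m with
    | zero =>
      intro _
      simp
    | succ m ih =>
      intro hm
      have ih' := ih (by omega)
      have e1 : a + 1 + (m + 1) = (a + 1 + m) + 1 := by omega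
      rw [e1, Finset.sum_Ico_succ_top (by omega), Finset.sum_Ico_succ_top (by omega)]
      have e2 : a + 1 + m = a + (m + 1) := by omega
      have h3 := hM (a + 1 + m) (by omega) (by omega)
      have hh : v (a + (m + 1)) ≤ v (a + m) := hanti (a + m)
      have h4 : ∑ n ∈ Ico a (a + 1 + m), (v n : ℂ) * z n + (v (a + 1 + m) : ℂ) * z (a + 1 + m) -
          v (a + (m + 1)) * (∑ n ∈ Ico a (a + 1 + m), z n + z (a + 1 + m)) =
          (∑ n ∈ Ico a (a + 1 + m), (v n : ℂ) * z n - v (a + m) * ∑ n ∈ Ico a (a + 1 + m), z n) +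
            ((v (a + m) - v (a + (m + 1)) : ℝ) : ℂ) * ∑ n ∈ Ico a (a + 1 + m), z n := by
        rw [← e2]
        push_cast
        ring
      rw [h4]
      refine (norm_add_le _ _).trans ?_
      rw [norm_mul, Complex.norm_real, Real.norm_eq_abs,
        abs_of_nonneg (by linarith)]
      have h5 : (v (a + m) - v (a + (m + 1))) * ‖∑ n ∈ Ico a (a + 1 + m), z n‖ ≤
          (v (a + m) - v (a + (m + 1))) * M := by
        apply mul_le_mul_of_nonneg_left h3
        linarith
      linarith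
  obtain ⟨m, hm⟩ : ∃ m, b = a + 1 + m := ⟨b - a - 1, by omega⟩
  have h3 := key m (by omega)
  rw [← hm] at h3
  have h4 : ∑ n ∈ Ico a b, (v n : ℂ) * z n = (∑ n ∈ Ico a b, (v n : ℂ) * z n -
      v (a + m) * ∑ n ∈ Ico a b, z n) + v (a + m) * ∑ n ∈ Ico a b, z n := by ring
  rw [h4]
  refine (norm_add_le _ _).trans ?_
  rw [norm_mul, Complex.norm_real, Real.norm_eq_abs, abs_of_nonneg (hv _)]
  have h5 := mul_le_mul_of_nonneg_left (hM b (by omega) le_rfl) (hv (a + m))
  linarith

/-- partial summation with increasing weights -/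
theorem abel_mono (a b : ℕ) (hab : a ≤ b) (v : ℕ → ℝ) (z : ℕ → ℂ) (M : ℝ) (hv : ∀ n, 0 ≤ v n)
    (hmono : ∀ n, v n ≤ v (n + 1)) (hM : ∀ c, a ≤ c → c ≤ b → ‖∑ n ∈ Ico a c, z n‖ ≤ M) :
    ‖∑ n ∈ Ico a b, (v n : ℂ) * z n‖ ≤ 2 * v b * M := by
  have hM0 : 0 ≤ M := (norm_nonneg _).trans (hM a le_rfl hab)
  have hmono' : Monotone v := monotone_nat_of_le_succ hmono
  -- `v n = v b - (v b - v n)` on `[a, b)`
  set w : ℕ → ℝ := fun n => v b - v (min n b) with hw
  have h1 := abel_anti a b hab w z M (fun n => by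
      simp only [hw]
      linarith [hmono' (min_le_right n b)])
    (fun n => by
      simp only [hw]
      have : min n b ≤ min (n + 1) b := by omega
      linarith [hmono' this]) hM
  have h2 : ∑ n ∈ Ico a b, (v n : ℂ) * z n =
      v b * ∑ n ∈ Ico a b, z n - ∑ n ∈ Ico a b, (w n : ℂ) * z n := by
    rw [Finset.mul_sum, ← Finset.sum_sub_distrib]
    refine Finset.sum_congr rfl fun n hn => ?_
    have hn' : min n b = n := by
      have := (Finset.mem_Ico.1 hn).2
      omega
    simp only [hw, hn']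
    push_cast
    ring
  rw [h2]
  refine (norm_sub_le _ _).trans ?_
  rw [norm_mul, Complex.norm_real, Real.norm_eq_abs, abs_of_nonneg (hv _)]
  have h3 := mul_le_mul_of_nonneg_left (hM b hab le_rfl) (hv b)
  have h4 : w a ≤ v b := by
    simp only [hw]
    linarith [hv (min a b)]
  have h5 := mul_le_mul_of_nonneg_right h4 hM0
  linarith

end

end Pool.Agent.DW
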