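import Pool.Agent.DW.Nik
import Pool.Agent.DW.Upper

/-!
# Pointwise bounds for dyadic blocks
-/

open MeasureTheory Metric Complex Filter Topology Real
open scoped ENNReal NNReal RealInnerProductSpace

namespace Pool.Agent.DW

noncomputable section

/-- Nikolskii for blocks -/
theorem nik6 : ∃ C > 0, ∀ (N : ℕ) (P : ℕ → S2 → ℂ) (t : ℝ) (x : S2), 64 ≤ N →
    (∀ n, Har n (P n)) →
    ‖upw P (Finset.Ico N (2 * N)) t x‖ ^ 6 ≤
      C * (N : ℝ) ^ 2 * ∫ y, ‖upw P (Finset.Ico N (2 * N)) t y‖ ^ 6 ∂σ := by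
  refine ⟨49 / (4 * π), by positivity, fun N P t x hN hP => ?_⟩
  have hD : Deg (2 * N) (upw P (Finset.Ico N (2 * N)) t) :=
    deg_sum _ _ fun n hn => deg_har (by have := Finset.mem_Ico.1 hn; omega)
      (har_const_mul _ (hP n))
  have h := nik hD 3 x
  refine h.trans (mul_le_mul_of_nonneg_right ?_ (integral_nonneg fun y => by positivity))
  have hN' : (64 : ℝ) ≤ N := by exact_mod_cast hN
  have h2 : (((3 : ℕ) : ℝ) * ((2 * N : ℕ) : ℝ) + 1) ^ 2 ≤ 49 * (N : ℝ) ^ 2 := by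
    push_cast
    nlinarith
  calc (((3 : ℕ) : ℝ) * ((2 * N : ℕ) : ℝ) + 1) ^ 2 / (4 * π)
      ≤ 49 * (N : ℝ) ^ 2 / (4 * π) := by gcongr
    _ = 49 / (4 * π) * (N : ℝ) ^ 2 := by ring

/-- pointwise bound for blocks -/
theorem blk_sup (N : ℕ) (P : ℕ → S2 → ℂ) (t : ℝ) (x : S2) (hN : 64 ≤ N)
    (hP : ∀ n, Har n (P n)) : ‖upw P (Finset.Ico N (2 * N)) t x‖ ^ 2 ≤
      (N : ℝ) ^ 2 * ∑ n ∈ Finset.Ico N (2 * N), N2 (P n) := by
  have hN' : (64 : ℝ) ≤ N := by exact_mod_cast hN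
  have h1 : ‖upw P (Finset.Ico N (2 * N)) t x‖ ≤ ∑ n ∈ Finset.Ico N (2 * N), ‖P n x‖ := by
    unfold upw
    refine (norm_sum_le _ _).trans (le_of_eq (Finset.sum_congr rfl fun n _ => ?_))
    rw [norm_mul, norm_cexp_it, one_mul]
  have h2 : (∑ n ∈ Finset.Ico N (2 * N), ‖P n x‖) ^ 2 ≤
      (Finset.Ico N (2 * N)).card * ∑ n ∈ Finset.Ico N (2 * N), ‖P n x‖ ^ 2 :=
    sq_sum_le_card_mul_sum_sq
  have hcard : ((Finset.Ico N (2 * N)).card : ℝ) = N := by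
    rw [Nat.card_Ico]
    have : 2 * N - N = N := by omega
    rw [this]
  rw [hcard] at h2
  have h3 : ∑ n ∈ Finset.Ico N (2 * N), ‖P n x‖ ^ 2 ≤
      ∑ n ∈ Finset.Ico N (2 * N), (N : ℝ) * N2 (P n) := by
    refine Finset.sum_le_sum fun n hn => (har_sup n (hP n) x).trans ?_
    refine mul_le_mul_of_nonneg_right ?_ (N2_nonneg _)
    have hn2 : ((n : ℕ) : ℝ) + 1 ≤ 2 * N := by
      have := (Finset.mem_Ico.1 hn).2
      exact_mod_cast this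
    rw [div_le_iff₀ (by positivity)]
    nlinarith [Real.pi_gt_three]
  rw [← Finset.mul_sum] at h3
  calc ‖upw P (Finset.Ico N (2 * N)) t x‖ ^ 2
      ≤ (∑ n ∈ Finset.Ico N (2 * N), ‖P n x‖) ^ 2 := by gcongr
    _ ≤ _ := h2
    _ ≤ N * (N * ∑ n ∈ Finset.Ico N (2 * N), N2 (P n)) := by gcongr
    _ = _ := by ring

end

end Pool.Agent.DW
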