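import Pool.Agent.DW.LargeA
import Pool.Agent.DW.LargeB

/-!
# The `L⁶` estimate for dyadic blocks
-/

open MeasureTheory Metric Complex Filter Topology Real
open scoped ENNReal NNReal RealInnerProductSpace

namespace Pool.Agent.DW

noncomputable section

theorem la_cont (m : ℕ) {P : ℕ → S2 → ℂ} (hP : ∀ n, Continuous (P n)) (s : Finset ℕ) :
    Continuous (fun t : ℝ => ∫ x, ‖upw P s t x‖ ^ m ∂σ) := by
  have h := continuous_parametric_integral_of_continuous (μ := σ)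
    (f := fun (t : ℝ) (x : S2) => ‖upw P s t x‖ ^ m)
    (s := (Set.univ : Set S2)) (by exact ((upw_cont2 hP s).norm.pow m)) isCompact_univ
  simpa using h

/-- dyadic pigeonhole -/
theorem la_dyadic {a M : ℝ} (I : ℕ) (h1 : a ≤ M) (h2 : M < 2 ^ I * a) :
    ∃ i < I, 2 ^ i * a ≤ M ∧ M < 2 ^ (i + 1) * a := by
  induction I with
  | zero => simp at h2; linarith
  | succ I ih =>
    by_cases h : M < 2 ^ I * a
    · obtain ⟨i, hi, h3⟩ := ih h
      exact ⟨i, by omega, h3⟩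
    · exact ⟨I, by omega, not_lt.1 h, h2⟩

/-- number of cells with a large value -/
theorem la_count : ∃ C : ℝ, 1 ≤ C ∧ ∀ (N : ℕ) (P : ℕ → S2 → ℂ) (K : ℕ) (tt : ℕ → ℝ) (xx : ℕ → S2)
    (lam : ℝ), 64 ≤ N → (∀ n, Har n (P n)) → 0 < K → (N : ℝ) ^ (3 / 2 : ℝ) ≤ K →
    (K : ℝ) ≤ 2 * (N : ℝ) ^ (3 / 2 : ℝ) →
    (∀ k < K, (k : ℝ) / K ≤ tt k ∧ tt k ≤ (k + 1 : ℝ) / K) → 0 < lam →
    C * (N : ℝ) ^ (7 / 4 : ℝ) * (∑ n ∈ Finset.Ico N (2 * N), N2 (P n)) ≤ lam ^ 2 →
    (((Finset.range K).filter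
      (fun k => lam ≤ ‖upw P (Finset.Ico N (2 * N)) (tt k) (xx k)‖)).card : ℝ) * lam ^ 4 ≤
      3 * C * (N : ℝ) ^ 4 * (∑ n ∈ Finset.Ico N (2 * N), N2 (P n)) ^ 2 := by
  classical
  obtain ⟨C, hC, h⟩ := large_val
  refine ⟨C, hC, fun N P K tt xx lam hN hP hK hK1 hK2 htt hlam hl => ?_⟩
  set E : ℝ := ∑ n ∈ Finset.Ico N (2 * N), N2 (P n) with hE
  set S : Finset ℕ := (Finset.range K).filter
      (fun k => lam ≤ ‖upw P (Finset.Ico N (2 * N)) (tt k) (xx k)‖) with hS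
  have hKr : (0 : ℝ) < K := by exact_mod_cast hK
  have hNr : (64 : ℝ) ≤ N := by exact_mod_cast hN
  have hSi : ∀ i : ℕ, ((S.filter (fun k => k % 3 = i)).card : ℝ) * lam ^ 4 ≤
      C * (N : ℝ) ^ 4 * E ^ 2 := by
    intro i
    set Si := S.filter (fun k => k % 3 = i) with hSi
    have hmem : ∀ k ∈ Si, k < K ∧ lam ≤ ‖upw P (Finset.Ico N (2 * N)) (tt k) (xx k)‖ ∧
        k % 3 = i := by
      intro k hk
      rw [hSi, Finset.mem_filter, hS, Finset.mem_filter, Finset.mem_range] at hk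
      exact ⟨hk.1.1, hk.1.2, hk.2⟩
    have hsep0 : ∀ k ∈ Si, ∀ l ∈ Si, k < l → (N : ℝ) ^ (-(3 / 2) : ℝ) ≤ tt l - tt k := by
      intro k hk l hl hkl
      obtain ⟨h1, _, h2⟩ := hmem k hk
      obtain ⟨h3, _, h4⟩ := hmem l hl
      have h5 : k + 3 ≤ l := by omega
      have h6 := (htt k h1).2
      have h7 := (htt l h3).1
      have h8 : ((k : ℝ) + 3) / K ≤ (l : ℝ) / K := by
        apply div_le_div_of_nonneg_right _ hKr.le
        exact_mod_cast h5
      have h9 : (2 : ℝ) / K ≤ tt l - tt k := by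
        have : ((k : ℝ) + 3) / K - (k + 1) / K = 2 / K := by ring
        linarith
      refine le_trans ?_ h9
      rw [Real.rpow_neg (by linarith), le_div_iff₀ hKr, ← div_eq_inv_mul]
      rw [div_le_iff₀ (by positivity)]
      exact hK2
    have hinj : Set.InjOn tt (Si : Set ℕ) := by
      intro k hk l hl hkl
      by_contra hne
      have hpos : (0 : ℝ) < (N : ℝ) ^ (-(3 / 2) : ℝ) := by positivity
      rcases lt_or_gt_of_ne hne with h1 | h1
      · have := hsep0 k hk l hl h1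
        rw [hkl] at this; linarith
      · have := hsep0 l hl k hk h1
        rw [hkl] at this; linarith
    set W : Finset ℝ := Si.image tt with hW
    have hcard : W.card = Si.card := Finset.card_image_of_injOn hinj
    set X : ℝ → S2 := fun t => xx (Function.invFunOn tt (Si : Set ℕ) t) with hX
    have hXk : ∀ k ∈ Si, X (tt k) = xx k := by
      intro k hk
      have hex : ∃ a ∈ (Si : Set ℕ), tt a = tt k := ⟨k, hk, rfl⟩
      have h1 := Function.invFunOn_mem hex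
      have h2 := Function.invFunOn_eq hex
      rw [hX]
      simp only
      rw [hinj h1 hk h2]
    have hfin := h N P W X lam hN hP ?_ ?_ hlam ?_ hl
    · rw [hcard] at hfin
      exact hfin
    · intro t ht
      rw [hW, Finset.mem_image] at ht
      obtain ⟨k, hk, rfl⟩ := ht
      obtain ⟨h1, _, _⟩ := hmem k hk
      obtain ⟨h2, h3⟩ := htt k h1
      constructor
      · exact le_trans (by positivity) h2
      · refine h3.trans ?_
        rw [div_le_one hKr]
        exact_mod_cast h1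
    · intro t ht t' ht' hne
      rw [hW, Finset.mem_image] at ht ht'
      obtain ⟨k, hk, rfl⟩ := ht
      obtain ⟨l, hl, rfl⟩ := ht'
      have hkl : k ≠ l := fun e => hne (by rw [e])
      rcases lt_or_gt_of_ne hkl with h1 | h1
      · rw [abs_sub_comm]
        exact (hsep0 k hk l hl h1).trans (le_abs_self _)
      · exact (hsep0 l hl k hk h1).trans (le_abs_self _)
    · intro t ht
      rw [hW, Finset.mem_image] at ht
      obtain ⟨k, hk, rfl⟩ := ht
      rw [hXk k hk]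
      exact (hmem k hk).2.1
  have hsplit : S.card = ∑ i ∈ Finset.range 3, (S.filter (fun k => k % 3 = i)).card := by
    rw [← Finset.card_eq_sum_card_fiberwise (f := fun k => k % 3)]
    intro k _
    simp only [Finset.coe_range, Set.mem_Iio]
    exact Nat.mod_lt _ (by norm_num)
  rw [hsplit]
  push_cast
  rw [Finset.sum_mul]
  refine (Finset.sum_le_sum fun i _ => hSi i).trans (le_of_eq ?_)
  rw [Finset.sum_const, Finset.card_range]
  simp only [nsmul_eq_mul]
  push_cast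
  ring

/-- dyadic summation -/
theorem la_sum {K : ℕ} (M : ℕ → ℝ) {a D : ℝ} (I : ℕ) (ha : 0 < a)
    (hM : ∀ k < K, M k < 2 ^ I * a)
    (hcount : ∀ i : ℕ, (((Finset.range K).filter (fun k => 2 ^ i * a ≤ M k)).card : ℝ) *
      (2 ^ i * a) ^ 4 ≤ D) :
    ∑ k ∈ (Finset.range K).filter (fun k => a ≤ M k), M k ^ 4 ≤ 16 * I * D := by
  classical
  have h1 : ∀ k ∈ (Finset.range K).filter (fun k => a ≤ M k), M k ^ 4 ≤
      ∑ i ∈ Finset.range I, if 2 ^ i * a ≤ M k then 16 * (2 ^ i * a) ^ 4 else 0 := by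
    intro k hk
    rw [Finset.mem_filter, Finset.mem_range] at hk
    obtain ⟨i, hi, h2, h3⟩ := la_dyadic I hk.2 (hM k hk.1)
    refine le_trans ?_ (Finset.single_le_sum (f := fun i => if 2 ^ i * a ≤ M k then
      16 * (2 ^ i * a) ^ 4 else 0) (fun j _ => ?_) (Finset.mem_range.2 hi))
    · simp only [h2, if_true]
      have h4 : M k ≤ 2 * (2 ^ i * a) := by
        rw [pow_succ] at h3
        linarith
      have h5 : 0 ≤ M k := ha.le.trans hk.2
      calc M k ^ 4 ≤ (2 * (2 ^ i * a)) ^ 4 := pow_le_pow_left₀ h5 h4 4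
        _ = 16 * (2 ^ i * a) ^ 4 := by ring
    · split_ifs
      · positivity
      · exact le_refl _
  refine (Finset.sum_le_sum h1).trans ?_
  rw [Finset.sum_comm]
  have h2 : ∀ i ∈ Finset.range I, ∑ k ∈ (Finset.range K).filter (fun k => a ≤ M k),
      (if 2 ^ i * a ≤ M k then 16 * (2 ^ i * a) ^ 4 else 0) ≤ 16 * D := by
    intro i _
    calc ∑ k ∈ (Finset.range K).filter (fun k => a ≤ M k),
          (if 2 ^ i * a ≤ M k then 16 * (2 ^ i * a) ^ 4 else 0)
        ≤ ∑ k ∈ Finset.range K, (if 2 ^ i * a ≤ M k then 16 * (2 ^ i * a) ^ 4 else 0) := by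
          refine Finset.sum_le_sum_of_subset_of_nonneg (Finset.filter_subset _ _) fun k _ _ => ?_
          split_ifs
          · positivity
          · exact le_refl _
      _ = (((Finset.range K).filter (fun k => 2 ^ i * a ≤ M k)).card : ℝ) *
            (16 * (2 ^ i * a) ^ 4) := by
          rw [← Finset.sum_filter, Finset.sum_const, nsmul_eq_mul]
      _ ≤ 16 * D := by
          have := hcount i
          linarith
  refine (Finset.sum_le_sum h2).trans (le_of_eq ?_)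
  rw [Finset.sum_const, Finset.card_range, nsmul_eq_mul]
  ring

theorem la_max {P : ℕ → S2 → ℂ} (hP : ∀ n, Continuous (P n)) (s : Finset ℕ) {a b : ℝ}
    (hab : a ≤ b) : ∃ t ∈ Set.Icc a b, ∃ x : S2, ∀ r ∈ Set.Icc a b, ∀ y : S2,
      ‖upw P s r y‖ ≤ ‖upw P s t x‖ := by
  have hS : Nonempty S2 := ⟨⟨EuclideanSpace.single 0 1, by simp⟩⟩
  obtain ⟨x0⟩ := hS
  have hne : (Set.Icc a b ×ˢ (Set.univ : Set S2)).Nonempty :=
    ⟨(a, x0), Set.mem_prod.2 ⟨Set.left_mem_Icc.2 hab, Set.mem_univ _⟩⟩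
  have hcpt : IsCompact (Set.Icc a b ×ˢ (Set.univ : Set S2)) := isCompact_Icc.prod isCompact_univ
  have hcont : ContinuousOn (fun p : ℝ × S2 => ‖upw P s p.1 p.2‖)
      (Set.Icc a b ×ˢ (Set.univ : Set S2)) := (upw_cont2 hP s).norm.continuousOn
  obtain ⟨p, hp, h⟩ := hcpt.exists_isMaxOn hne hcont
  refine ⟨p.1, (Set.mem_prod.1 hp).1, p.2, fun r hr y => ?_⟩
  have h2 := isMaxOn_iff.1 h (r, y) (Set.mem_prod.2 ⟨hr, Set.mem_univ y⟩)
  exact h2

/-- the `L⁶` estimate -/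
theorem block6 : ∃ C > 0, ∀ (N : ℕ) (P : ℕ → S2 → ℂ), 64 ≤ N →
    (∀ n, Har n (P n)) →
    ∫ t in (0 : ℝ)..1, ∫ x, ‖upw P (Finset.Ico N (2 * N)) t x‖ ^ 6 ∂σ ≤
      C * (N : ℝ) ^ (5 / 2 : ℝ) * (1 + Real.log N) ^ 2 *
        (∑ n ∈ Finset.Ico N (2 * N), N2 (P n)) ^ 3 := by
  classical
  obtain ⟨C0, hC0, hcount⟩ := la_count
  obtain ⟨C4, hC4, h4⟩ := up_block_T 1 one_pos
  refine ⟨C0 * C4 + 96 * C0, by positivity, fun N P hN hP => ?_⟩
  have hNr : (64 : ℝ) ≤ N := by exact_mod_cast hN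
  have hN0 : (0 : ℝ) < N := by linarith
  have hlog : 0 ≤ Real.log N := Real.log_nonneg (by linarith)
  have hPc : ∀ n, Continuous (P n) := fun n => (hP n).cont
  set E : ℝ := ∑ n ∈ Finset.Ico N (2 * N), N2 (P n) with hE
  have hE0 : 0 ≤ E := Finset.sum_nonneg fun n _ => N2_nonneg _
  set w : ℝ → S2 → ℂ := upw P (Finset.Ico N (2 * N)) with hw
  rcases hE0.eq_or_lt with hEz | hEp
  · have hz : ∀ t x, w t x = 0 := by
      intro t x
      have := blk_sup N P t x hN hP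
      rw [← hE, ← hEz, mul_zero] at this
      have h2 : ‖w t x‖ ^ 2 = 0 := le_antisymm this (by positivity)
      exact norm_eq_zero.1 (pow_eq_zero_iff (two_ne_zero)|>.1 h2)
    simp only [hz]
    simp [← hEz]
  -- cells
  set K : ℕ := ⌈(N : ℝ) ^ (3 / 2 : ℝ)⌉₊ with hK
  have hN32 : (1 : ℝ) ≤ (N : ℝ) ^ (3 / 2 : ℝ) := Real.one_le_rpow (by linarith) (by norm_num)
  have hK1 : (N : ℝ) ^ (3 / 2 : ℝ) ≤ K := Nat.le_ceil _
  have hK2 : (K : ℝ) ≤ 2 * (N : ℝ) ^ (3 / 2 : ℝ) := by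
    have := (Nat.ceil_lt_add_one (show 0 ≤ (N : ℝ) ^ (3 / 2 : ℝ) by positivity)).le
    linarith
  have hKr : (0 : ℝ) < K := by linarith
  have hKn : 0 < K := by exact_mod_cast hKr
  have hex : ∀ k : ℕ, ∃ t ∈ Set.Icc ((k : ℝ) / K) ((k + 1 : ℝ) / K), ∃ x : S2,
      ∀ r ∈ Set.Icc ((k : ℝ) / K) ((k + 1 : ℝ) / K), ∀ y : S2, ‖w r y‖ ≤ ‖w t x‖ := fun k =>
    la_max hPc _ (div_le_div_of_nonneg_right (by linarith) hKr.le)
  choose tt htt xx hmax using hex
  set M : ℕ → ℝ := fun k => ‖w (tt k) (xx k)‖ with hM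
  have hM0 : ∀ k, 0 ≤ M k := fun k => norm_nonneg _
  obtain ⟨lam, hlam, hlam2⟩ : ∃ lam : ℝ, 0 < lam ∧ lam ^ 2 = C0 * (N : ℝ) ^ (7 / 4 : ℝ) * E :=
    ⟨√(C0 * (N : ℝ) ^ (7 / 4 : ℝ) * E), by positivity, Real.sq_sqrt (by positivity)⟩
  have hN74 : (1 : ℝ) ≤ (N : ℝ) ^ (7 / 4 : ℝ) := Real.one_le_rpow (by linarith) (by norm_num)
  have hElam : E ≤ lam ^ 2 := by
    rw [hlam2]
    have : 1 ≤ C0 * (N : ℝ) ^ (7 / 4 : ℝ) := one_le_mul_of_one_le_of_one_le hC0 hN74
    nlinarith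
  set F : ℝ → ℝ := fun t => ∫ x, ‖w t x‖ ^ 6 ∂σ with hF
  set G : ℝ → ℝ := fun t => ∫ x, ‖w t x‖ ^ 4 ∂σ with hG
  have hFc : Continuous F := la_cont 6 hPc _
  have hGc : Continuous G := la_cont 4 hPc _
  have hG0 : ∀ t, 0 ≤ G t := fun t => integral_nonneg fun x => by positivity
  set Ii : ℕ := Nat.log 2 N + 1 with hI
  have hNI : (N : ℝ) < 2 ^ Ii := by exact_mod_cast Nat.lt_pow_succ_log_self (by norm_num) N
  have hI2 : (Ii : ℝ) ≤ 2 * (1 + Real.log N) ^ 2 := by
    have h1 : (Nat.log 2 N : ℝ) * Real.log 2 ≤ Real.log N := by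
      have h2 : ((2 : ℝ) ^ Nat.log 2 N) ≤ N := by
        exact_mod_cast Nat.pow_log_le_self 2 (by omega)
      rw [← Real.log_pow]
      exact Real.log_le_log (by positivity) h2
    have h3 := Real.log_two_gt_d9
    have h4 : (Nat.log 2 N : ℝ) ≤ 2 * Real.log N := by
      have : (0 : ℝ) ≤ (Nat.log 2 N : ℝ) := by positivity
      nlinarith
    rw [hI]
    push_cast
    nlinarith
  have hsum : ∑ k ∈ (Finset.range K).filter (fun k => lam ≤ M k), M k ^ 4 ≤
      16 * Ii * (3 * C0 * (N : ℝ) ^ 4 * E ^ 2) := by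
    refine la_sum M Ii hlam ?_ ?_
    · intro k _
      have h1 : M k ^ 2 ≤ (N * lam) ^ 2 := by
        refine (blk_sup N P (tt k) (xx k) hN hP).trans ?_
        rw [mul_pow]
        exact mul_le_mul_of_nonneg_left hElam (by positivity)
      have h2 : M k ≤ N * lam := le_of_sq_le_sq h1 (by positivity)
      exact h2.trans_lt (mul_lt_mul_of_pos_right hNI hlam)
    · intro i
      have h1 : (1 : ℝ) ≤ 2 ^ i := one_le_pow₀ (by norm_num)
      refine hcount N P K tt xx (2 ^ i * lam) hN hP hKn hK1 hK2 (fun k _ => htt k)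
        (by positivity) ?_
      rw [← hE, ← hlam2, mul_pow]
      have : (1 : ℝ) ≤ (2 ^ i) ^ 2 := one_le_pow₀ h1
      nlinarith [sq_nonneg lam]
  -- one cell
  have hcell : ∀ k ∈ Finset.range K, ∫ t in ((k : ℝ) / K)..((k + 1 : ℕ) : ℝ) / K, F t ≤
      (if lam ≤ M k then M k ^ 4 * E / K else 0) +
        lam ^ 2 * ∫ t in ((k : ℝ) / K)..((k + 1 : ℕ) : ℝ) / K, G t := by
    intro k _
    have hab : (k : ℝ) / K ≤ ((k + 1 : ℕ) : ℝ) / K :=
      div_le_div_of_nonneg_right (by push_cast; linarith) hKr.le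
    have hGi : 0 ≤ ∫ t in ((k : ℝ) / K)..((k + 1 : ℕ) : ℝ) / K, G t :=
      intervalIntegral.integral_nonneg hab fun t _ => hG0 t
    have hwi : ∀ (t : ℝ) (m : ℕ), Integrable (fun x => ‖w t x‖ ^ m) σ := by
      intro t m
      exact ((upw_cont hPc _ t).norm.pow m).integrable_of_hasCompactSupport
        (HasCompactSupport.of_compactSpace _)
    split_ifs with h
    · have h1 : ∫ t in ((k : ℝ) / K)..((k + 1 : ℕ) : ℝ) / K, F t ≤ M k ^ 4 * E / K := by
        calc ∫ t in ((k : ℝ) / K)..((k + 1 : ℕ) : ℝ) / K, F t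
            ≤ ∫ t in ((k : ℝ) / K)..((k + 1 : ℕ) : ℝ) / K, M k ^ 4 * E := by
              refine intervalIntegral.integral_mono_on hab (hFc.intervalIntegrable _ _)
                (continuous_const.intervalIntegrable _ _) fun t ht => ?_
              have h2 : ∫ x, ‖w t x‖ ^ 6 ∂σ ≤ ∫ x, M k ^ 4 * ‖w t x‖ ^ 2 ∂σ := by
                refine integral_mono (hwi t 6) ((hwi t 2).const_mul _) fun x => ?_
                have h3 : ‖w t x‖ ≤ M k := hmax k t (by push_cast at ht; exact ht) x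
                have h4 := pow_le_pow_left₀ (norm_nonneg _) h3 4
                simp only
                nlinarith [sq_nonneg ‖w t x‖]
              refine h2.trans (le_of_eq ?_)
              rw [integral_const_mul]
              congr 1
              exact upw_N2 hP _ t
          _ = M k ^ 4 * E / K := by
              rw [intervalIntegral.integral_const, smul_eq_mul]
              push_cast
              field_simp
              ring
      nlinarith [sq_nonneg lam]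
    · rw [zero_add, ← intervalIntegral.integral_const_mul]
      refine intervalIntegral.integral_mono_on hab (hFc.intervalIntegrable _ _)
        ((continuous_const.mul hGc).intervalIntegrable _ _) fun t ht => ?_
      rw [hF, hG]
      simp only
      rw [← integral_const_mul]
      refine integral_mono (hwi t 6) ((hwi t 4).const_mul _) fun x => ?_
      have h3 : ‖w t x‖ ≤ lam := (hmax k t (by push_cast at ht; exact ht) x).trans (not_le.1 h).le
      have h4 := pow_le_pow_left₀ (norm_nonneg _) h3 2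
      have h5 : 0 ≤ ‖w t x‖ ^ 4 := by positivity
      simp only
      nlinarith
  have hadj : ∀ f : ℝ → ℝ, Continuous f → ∫ t in (0 : ℝ)..1, f t =
      ∑ k ∈ Finset.range K, ∫ t in ((k : ℝ) / K)..((k + 1 : ℕ) : ℝ) / K, f t := by
    intro f hf
    have := intervalIntegral.sum_integral_adjacent_intervals (f := f) (μ := volume)
      (a := fun k : ℕ => (k : ℝ) / K) (n := K) (fun k _ => hf.intervalIntegrable _ _)
    rw [this]
    simp only [Nat.cast_zero, zero_div]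
    rw [div_self hKr.ne']
  have hfin := Finset.sum_le_sum hcell
  rw [← hadj F hFc, Finset.sum_add_distrib, ← Finset.mul_sum, ← hadj G hGc,
    ← Finset.sum_filter, ← Finset.sum_div, ← Finset.sum_mul] at hfin
  have hG1 : ∫ t in (0 : ℝ)..1, G t ≤ C4 * (N : ℝ) ^ (3 / 4 : ℝ) * (1 + Real.log N) ^ 2 * E ^ 2 :=
    h4 N P hN hP
  refine hfin.trans ?_
  have hb1 : (∑ k ∈ (Finset.range K).filter (fun k => lam ≤ M k), M k ^ 4) * E / K ≤
      96 * C0 * (N : ℝ) ^ (5 / 2 : ℝ) * (1 + Real.log N) ^ 2 * E ^ 3 := by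
    rw [div_le_iff₀ hKr]
    have h1 : (N : ℝ) ^ 4 = (N : ℝ) ^ (5 / 2 : ℝ) * (N : ℝ) ^ (3 / 2 : ℝ) := by
      rw [← Real.rpow_add hN0, ← Real.rpow_natCast]
      norm_num
    calc (∑ k ∈ (Finset.range K).filter (fun k => lam ≤ M k), M k ^ 4) * E
        ≤ (16 * Ii * (3 * C0 * (N : ℝ) ^ 4 * E ^ 2)) * E := mul_le_mul_of_nonneg_right hsum hE0
      _ = Ii * (48 * C0 * (N : ℝ) ^ 4 * E ^ 3) := by ring
      _ ≤ (2 * (1 + Real.log N) ^ 2) * (48 * C0 * (N : ℝ) ^ 4 * E ^ 3) :=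
          mul_le_mul_of_nonneg_right hI2 (by positivity)
      _ = 96 * C0 * (N : ℝ) ^ (5 / 2 : ℝ) * (1 + Real.log N) ^ 2 * E ^ 3 *
            (N : ℝ) ^ (3 / 2 : ℝ) := by rw [h1]; ring
      _ ≤ _ := mul_le_mul_of_nonneg_left hK1 (by positivity)
  have hb2 : lam ^ 2 * ∫ t in (0 : ℝ)..1, G t ≤
      C0 * C4 * (N : ℝ) ^ (5 / 2 : ℝ) * (1 + Real.log N) ^ 2 * E ^ 3 := by
    have h1 : (N : ℝ) ^ (5 / 2 : ℝ) = (N : ℝ) ^ (7 / 4 : ℝ) * (N : ℝ) ^ (3 / 4 : ℝ) := by
      rw [← Real.rpow_add hN0]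
      norm_num
    calc lam ^ 2 * ∫ t in (0 : ℝ)..1, G t
        ≤ lam ^ 2 * (C4 * (N : ℝ) ^ (3 / 4 : ℝ) * (1 + Real.log N) ^ 2 * E ^ 2) :=
          mul_le_mul_of_nonneg_left hG1 (by positivity)
      _ = _ := by rw [hlam2, h1]; ring
  calc _ ≤ 96 * C0 * (N : ℝ) ^ (5 / 2 : ℝ) * (1 + Real.log N) ^ 2 * E ^ 3 +
        C0 * C4 * (N : ℝ) ^ (5 / 2 : ℝ) * (1 + Real.log N) ^ 2 * E ^ 3 := add_le_add hb1 hb2
    _ = _ := by ring

end

end Pool.Agent.DW
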