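import Pool.Agent.DW.Bilin

/-!
# Products of spherical harmonics and Nikolskii's inequality
-/

open MeasureTheory Metric Complex Filter Topology Real
open scoped ENNReal NNReal RealInnerProductSpace

namespace Pool.Agent.DW

noncomputable section

/-- sums of spherical harmonics of degree at most `D` -/
def Deg (D : ℕ) (g : S2 → ℂ) : Prop :=
  Continuous g ∧ ∀ x, g x = ∑ j ∈ Finset.range (D + 1), proj j g x

theorem deg_har {n D : ℕ} (hn : n ≤ D) {f : S2 → ℂ} (hf : Har n f) : Deg D f := by
  refine ⟨hf.cont, fun x => ?_⟩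
  rw [Finset.sum_eq_single n]
  · exact (hf.rep x).symm
  · intro j _ hj
    exact har_proj_ne hj hf x
  · intro h
    exact absurd (Finset.mem_range.2 (by omega)) h

theorem deg_sum {D : ℕ} {ι : Type} (s : Finset ι) (f : ι → S2 → ℂ) (hf : ∀ i ∈ s, Deg D (f i)) :
    Deg D (fun x => ∑ i ∈ s, f i x) := by
  refine ⟨continuous_finsetSum _ fun i hi => (hf i hi).1, fun x => ?_⟩
  have h1 : ∀ j, proj j (fun x => ∑ i ∈ s, f i x) x = ∑ i ∈ s, proj j (f i) x :=
    fun j => proj_sum j s (fun i hi => (hf i hi).1) x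
  simp_rw [h1]
  rw [Finset.sum_comm]
  exact Finset.sum_congr rfl fun i hi => (hf i hi).2 x

/-- a continuous function with vanishing `L²` norm vanishes -/
theorem nk_zero_of_N2 {h : S2 → ℂ} (hh : Continuous h) (h0 : N2 h = 0) (x : S2) : h x = 0 := by
  have hc : Continuous (fun x => ‖h x‖ ^ 2) := hh.norm.pow 2
  have h1 : (fun x => ‖h x‖ ^ 2) =ᵐ[σ] 0 :=
    (integral_eq_zero_iff_of_nonneg (fun x => by positivity) (integrable_of_cont_real hc)).1 h0
  have : (σ : Measure S2).IsOpenPosMeasure := by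
    unfold σ
    infer_instance
  have h2 : (fun x => ‖h x‖ ^ 2) = 0 := Continuous.ae_eq_iff_eq σ hc continuous_const |>.1 h1
  have h3 := congrFun h2 x
  simp only [Pi.zero_apply] at h3
  have h4 : ‖h x‖ = 0 := by
    exact pow_eq_zero_iff (by norm_num : (2 : ℕ) ≠ 0) |>.1 h3
  exact norm_eq_zero.1 h4

/-- the product of two spherical harmonics -/
theorem nk_mul_har {a b : ℕ} {f g : S2 → ℂ} (hf : Har a f) (hg : Har b g) :
    Deg (a + b) (fun x => f x * g x) := by
  have hfg : Continuous (fun x => f x * g x) := hf.cont.mul hg.cont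
  refine ⟨hfg, ?_⟩
  set F : S2 → ℂ := fun x => f x * g x with hF
  set P : S2 → ℂ := fun x => ∑ j ∈ Finset.range (a + b + 1), proj j F x with hP
  have hPc : Continuous P := continuous_finsetSum _ fun n _ => proj_cont n hfg
  set h : S2 → ℂ := fun x => F x - P x with hh
  have hhc : Continuous h := hfg.sub hPc
  -- the projections of `h` vanish
  have hproj : ∀ j ∈ Finset.range (a + b + 1), ∀ x, proj j h x = 0 := by
    intro j hj x
    have e1 : proj j F x = proj j h x + proj j P x := by
      rw [← proj_add j hhc hPc]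
      congr 1
      funext y
      simp only [hh]
      ring
    have e2 : proj j P x = proj j F x := by
      rw [hP, proj_sum j _ (fun i _ => proj_cont i hfg) x]
      rw [Finset.sum_eq_single j]
      · rw [proj_proj j j hfg x, if_pos rfl]
      · intro i _ hij
        exact proj_proj_ne (Ne.symm hij) hfg x
      · intro h; exact absurd hj h
    rw [e2] at e1
    simpa using e1.symm
  have hN : ∀ j ∈ Finset.range (a + b + 1), N2 (proj j h) = 0 := by
    intro j hj
    have : proj j h = fun _ => 0 := funext fun x => hproj j hj x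
    rw [this]
    simp [N2]
  have h1 : inn F h = 0 := by
    have := rr_single a b hf hg hhc
    rw [Finset.sum_eq_zero (fun j hj => by rw [hN j hj, mul_zero]), mul_zero] at this
    have h2 : ‖∫ x, f x * g x * (starRingEnd ℂ) (h x) ∂σ‖ = 0 := by
      have h3 : ‖∫ x, f x * g x * (starRingEnd ℂ) (h x) ∂σ‖ ^ 2 = 0 :=
        le_antisymm this (by positivity)
      exact pow_eq_zero_iff (by norm_num : (2 : ℕ) ≠ 0) |>.1 h3
    exact norm_eq_zero.1 h2
  have h2 : inn P h = 0 := by
    rw [hP, inn_sum_left _ (fun i _ => proj_cont i hfg) hhc]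
    refine Finset.sum_eq_zero fun j hj => ?_
    rw [inn_proj j hfg hhc]
    have : proj j h = fun _ => 0 := funext fun x => hproj j hj x
    rw [this]
    simp [inn]
  have h3 : N2 h = 0 := by
    have : ((N2 h : ℝ) : ℂ) = 0 := by
      rw [← inn_self]
      have : inn h h = inn F h - inn P h := inn_sub_left hfg hPc hhc
      rw [this, h1, h2, sub_zero]
    exact_mod_cast this
  intro x
  have h4 := nk_zero_of_N2 hhc h3 x
  simp only [hh] at h4
  exact sub_eq_zero.1 h4

theorem nk_mono {D D' : ℕ} (hD : D ≤ D') {g : S2 → ℂ} (hg : Deg D g) : Deg D' g := by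
  have h : g = fun x => ∑ j ∈ Finset.range (D + 1), proj j g x := funext hg.2
  rw [h]
  refine deg_sum _ _ fun j hj => ?_
  exact deg_har (by have := Finset.mem_range.1 hj; omega) (proj_har j hg.1)

theorem deg_mul {D D' : ℕ} {f g : S2 → ℂ} (hf : Deg D f) (hg : Deg D' g) :
    Deg (D + D') (fun x => f x * g x) := by
  have h : (fun x => f x * g x) = fun x => ∑ i ∈ Finset.range (D + 1),
      ∑ j ∈ Finset.range (D' + 1), proj i f x * proj j g x := by
    funext x
    have e := Finset.sum_mul_sum (Finset.range (D + 1)) (Finset.range (D' + 1))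
      (fun i => proj i f x) (fun j => proj j g x)
    rw [← e, ← hf.2 x, ← hg.2 x]
  rw [h]
  refine deg_sum (Finset.range (D + 1))
    (fun i x => ∑ j ∈ Finset.range (D' + 1), proj i f x * proj j g x) fun i hi => ?_
  refine deg_sum (Finset.range (D' + 1)) (fun j x => proj i f x * proj j g x) fun j hj => ?_
  rw [Finset.mem_range] at hi hj
  have hij : i + j ≤ D + D' := by omega
  exact nk_mono hij (nk_mul_har (proj_har i hf.1) (proj_har j hg.1))

theorem nk_one : Har 0 (fun _ => 1) := by
  refine ⟨continuous_const, fun x => ?_⟩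
  unfold proj Z
  simp only [leg, mul_one]
  rw [integral_const, mo_sphere]
  simp only [real_smul]
  push_cast
  have : (π : ℂ) ≠ 0 := by exact_mod_cast Real.pi_ne_zero
  field_simp
  ring

theorem deg_pow {D : ℕ} {f : S2 → ℂ} (hf : Deg D f) (m : ℕ) :
    Deg (m * D) (fun x => f x ^ m) := by
  induction m with
  | zero =>
    simp only [pow_zero, zero_mul]
    exact deg_har le_rfl nk_one
  | succ m ih =>
    have := deg_mul ih hf
    simp only [pow_succ]
    rw [show (m + 1) * D = m * D + D by ring]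
    exact this

theorem nk_sum_odd (D : ℕ) : ∑ j ∈ Finset.range (D + 1), ((2 * j + 1 : ℝ)) = (D + 1) ^ 2 := by
  induction D with
  | zero => simp
  | succ D ih =>
    rw [Finset.sum_range_succ, ih]
    push_cast
    ring

/-- Nikolskii's inequality, `L²` to `L^∞` -/
theorem deg_sup {D : ℕ} {g : S2 → ℂ} (hg : Deg D g) (x : S2) :
    ‖g x‖ ^ 2 ≤ (D + 1) ^ 2 / (4 * π) * N2 g := by
  have h1 : ‖g x‖ ≤ ∑ j ∈ Finset.range (D + 1), √((2 * j + 1) / (4 * π)) * √(N2 (proj j g)) := by
    rw [hg.2 x]
    refine (norm_sum_le _ _).trans (Finset.sum_le_sum fun j _ => ?_)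
    rw [← Real.sqrt_mul (by positivity)]
    exact Real.le_sqrt_of_sq_le (har_sup j (proj_har j hg.1) x)
  have h2 := Finset.sum_mul_sq_le_sq_mul_sq (Finset.range (D + 1))
    (fun j : ℕ => √((2 * j + 1) / (4 * π))) (fun j => √(N2 (proj j g)))
  have h3 : ∀ j : ℕ, √((2 * (j : ℝ) + 1) / (4 * π)) ^ 2 = (2 * j + 1) / (4 * π) := fun j =>
    Real.sq_sqrt (by positivity)
  have h4 : ∀ j, √(N2 (proj j g)) ^ 2 = N2 (proj j g) := fun j => Real.sq_sqrt (N2_nonneg _)
  simp only [h3, h4] at h2
  rw [← Finset.sum_div, nk_sum_odd] at h2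
  calc ‖g x‖ ^ 2 ≤ (∑ j ∈ Finset.range (D + 1),
        √((2 * j + 1) / (4 * π)) * √(N2 (proj j g))) ^ 2 := by gcongr
    _ ≤ _ := h2
    _ ≤ (D + 1) ^ 2 / (4 * π) * N2 g :=
        mul_le_mul_of_nonneg_left (bessel _ hg.1) (by positivity)

/-- Nikolskii's inequality for even exponents -/
theorem nik {D : ℕ} {g : S2 → ℂ} (hg : Deg D g) (m : ℕ) (x : S2) :
    ‖g x‖ ^ (2 * m) ≤ (m * D + 1) ^ 2 / (4 * π) * ∫ y, ‖g y‖ ^ (2 * m) ∂σ := by
  have h := deg_sup (deg_pow hg m) x
  unfold N2 at h
  simp only [norm_pow] at h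
  have e : ∀ y, (‖g y‖ ^ m) ^ 2 = ‖g y‖ ^ (2 * m) := fun y => by rw [← pow_mul, mul_comm]
  simp only [e] at h
  push_cast at h
  exact h

end

end Pool.Agent.DW
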