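import Pool.Agent.DW.Disp
import Pool.Agent.DW.Nik
import Pool.Agent.DW.Upper

/-!
# Large values of a block on separated times (step (1) of DW_note2)

Proof.  Put `E = ∑ N2 (P n)`, `R = W.card`.  Take unimodular `c t` with
`c t * u (t, X t) = ‖u (t, X t)‖`.  Then `lam R ≤ ∑ c t u(t, X t) = ∫ ∑ n G n y * P n y`,
`G n y = ∑ t ∈ W, c t e^{i t Lam n} Z n (ip (X t) y)` (`Har.rep`).  Cauchy-Schwarz twice:
`(lam R)^2 ≤ E * ∑ n, ∫ |G n|^2`, and by `Z_conv` the last sum is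
`∑ t t', c t * conj (c t') * KN N (t - t') (ip (X t) (X t'))`.  Diagonal: `KN_triv`; off the diagonal
`disp`, and for a `δ`-separated set `∑_{t' ≠ t} 1/√|t-t'| ≤ 6 √R / √δ` (`sep_sum`), `1/√δ = N^(3/4)`.
So `lam² R² ≤ E R (7 C N² √R + C N^(7/4) R)` (`C ≥ 1`); absorb the last term (`lam² ≥ 2 C N^(7/4) E`).
-/

open MeasureTheory Metric Complex Filter Topology Real
open scoped ENNReal NNReal RealInnerProductSpace

namespace Pool.Agent.DW

noncomputable section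

theorem sep_aux1 (k : ℕ) (δ a : ℝ) (hδ : 0 < δ) (ha : (k + 1) * δ ≤ a) :
    2 * √k / √δ + 1 / √a ≤ 2 * √((k + 1 : ℕ) : ℝ) / √δ := by
  have hk : (0:ℝ) ≤ k := Nat.cast_nonneg k
  have hk1 : (0:ℝ) < (k:ℝ) + 1 := by linarith
  have hsδ : 0 < √δ := Real.sqrt_pos.2 hδ
  have hsk : 0 < √((k:ℝ) + 1) := Real.sqrt_pos.2 hk1
  have h1 : √((k:ℝ) + 1) * √δ ≤ √a := by
    rw [← Real.sqrt_mul hk1.le]
    exact Real.sqrt_le_sqrt ha
  have h2 : 1 / √a ≤ 1 / (√((k:ℝ) + 1) * √δ) := one_div_le_one_div_of_le (by positivity) h1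
  refine (add_le_add_right h2 _).trans ?_
  push_cast
  have h3 : 2 * √k + 1 / √((k:ℝ) + 1) ≤ 2 * √((k:ℝ) + 1) := by
    rw [← sub_nonneg]
    have e : 2 * √((k:ℝ) + 1) - (2 * √k + 1 / √((k:ℝ) + 1)) =
        (√((k:ℝ) + 1) - √k) ^ 2 / √((k:ℝ) + 1) := by
      field_simp
      have e1 : √((k:ℝ) + 1) ^ 2 = k + 1 := Real.sq_sqrt hk1.le
      have e2 : √(k:ℝ) ^ 2 = k := Real.sq_sqrt hk
      nlinarith
    rw [e]
    positivity
  calc 2 * √k / √δ + 1 / (√((k:ℝ) + 1) * √δ) = (2 * √k + 1 / √((k:ℝ) + 1)) / √δ := by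
        field_simp
    _ ≤ 2 * √((k:ℝ) + 1) / √δ := by gcongr

theorem sep_side (δ : ℝ) (hδ : 0 < δ) (A : Finset ℝ) :
    (∀ a ∈ A, δ ≤ a) → (∀ a ∈ A, ∀ b ∈ A, a < b → δ ≤ b - a) →
    (∀ b, δ ≤ b → (∀ a ∈ A, δ ≤ b - a) → ((A.card : ℝ) + 1) * δ ≤ b) ∧
      ∑ a ∈ A, 1 / √a ≤ 2 * √(A.card) / √δ := by
  induction A using Finset.induction_on_max with
  | empty =>
    intro _ _
    refine ⟨fun b hb _ => by simpa using hb, by simp⟩
  | insert a s hmax ih =>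
    intro h1 h2
    have hna : a ∉ s := fun h => lt_irrefl _ (hmax a h)
    obtain ⟨i1, i2⟩ := ih (fun x hx => h1 x (Finset.mem_insert_of_mem hx))
      (fun x hx y hy hxy => h2 x (Finset.mem_insert_of_mem hx) y (Finset.mem_insert_of_mem hy) hxy)
    have h3 : ((s.card : ℝ) + 1) * δ ≤ a := i1 a (h1 a (Finset.mem_insert_self _ _))
      (fun x hx => h2 x (Finset.mem_insert_of_mem hx) a (Finset.mem_insert_self _ _) (hmax x hx))
    constructor
    · intro b _ hb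
      rw [Finset.card_insert_of_notMem hna]
      have h4 := hb a (Finset.mem_insert_self _ _)
      push_cast
      linarith
    · rw [Finset.sum_insert hna, Finset.card_insert_of_notMem hna]
      have := sep_aux1 s.card δ a hδ h3
      linarith

/-- separated sums of inverse square roots -/
theorem sep_sum (W : Finset ℝ) (δ : ℝ) (hδ : 0 < δ)
    (hW : ∀ t ∈ W, ∀ t' ∈ W, t ≠ t' → δ ≤ |t - t'|) (t : ℝ) (ht : t ∈ W) :
    ∑ t' ∈ W.erase t, 1 / √|t - t'| ≤ 6 * √(W.card) / √δ := by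
  have hsδ : 0 < √δ := Real.sqrt_pos.2 hδ
  have hsplit : ∑ t' ∈ W.erase t, 1 / √|t - t'| =
      (∑ t' ∈ W.filter (fun x => t < x), 1 / √|t - t'|) +
      ∑ t' ∈ W.filter (fun x => x < t), 1 / √|t - t'| := by
    rw [← Finset.sum_union]
    · congr 1
      ext x
      simp only [Finset.mem_erase, Finset.mem_union, Finset.mem_filter]
      constructor
      · rintro ⟨hx, hxW⟩
        rcases lt_or_gt_of_ne hx with h | h
        · exact Or.inr ⟨hxW, h⟩
        · exact Or.inl ⟨hxW, h⟩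
      · rintro (⟨hxW, h⟩ | ⟨hxW, h⟩)
        · exact ⟨h.ne', hxW⟩
        · exact ⟨h.ne, hxW⟩
    · rw [Finset.disjoint_filter]
      intro x _ h1 h2
      exact lt_asymm h1 h2
  have hR : (∑ t' ∈ W.filter (fun x => t < x), 1 / √|t - t'|) ≤ 2 * √(W.card) / √δ := by
    have hi : Set.InjOn (fun x => x - t) (W.filter (fun x => t < x) : Finset ℝ) := by
      intro x _ y _ hxy
      simpa using hxy
    have h := (sep_side δ hδ ((W.filter (fun x => t < x)).image (fun x => x - t)) ?_ ?_).2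
    · rw [Finset.sum_image hi, Finset.card_image_of_injOn hi] at h
      calc (∑ t' ∈ W.filter (fun x => t < x), 1 / √|t - t'|)
          = ∑ t' ∈ W.filter (fun x => t < x), 1 / √(t' - t) := by
            refine Finset.sum_congr rfl fun x hx => ?_
            have : t < x := (Finset.mem_filter.1 hx).2
            rw [abs_sub_comm, abs_of_pos (by linarith)]
        _ ≤ _ := h
        _ ≤ _ := by
            gcongr
            exact Finset.filter_subset _ _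
    · intro a ha
      obtain ⟨x, hx, rfl⟩ := Finset.mem_image.1 ha
      obtain ⟨hxW, htx⟩ := Finset.mem_filter.1 hx
      have := hW t ht x hxW htx.ne
      rwa [abs_sub_comm, abs_of_pos (by linarith)] at this
    · intro a ha b hb hab
      obtain ⟨x, hx, rfl⟩ := Finset.mem_image.1 ha
      obtain ⟨y, hy, rfl⟩ := Finset.mem_image.1 hb
      obtain ⟨hxW, htx⟩ := Finset.mem_filter.1 hx
      obtain ⟨hyW, hty⟩ := Finset.mem_filter.1 hy
      have hxy : x < y := by linarith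
      have := hW x hxW y hyW hxy.ne
      rw [abs_sub_comm, abs_of_pos (by linarith)] at this
      linarith
  have hL : (∑ t' ∈ W.filter (fun x => x < t), 1 / √|t - t'|) ≤ 2 * √(W.card) / √δ := by
    have hi : Set.InjOn (fun x => t - x) (W.filter (fun x => x < t) : Finset ℝ) := by
      intro x _ y _ hxy
      simpa using hxy
    have h := (sep_side δ hδ ((W.filter (fun x => x < t)).image (fun x => t - x)) ?_ ?_).2
    · rw [Finset.sum_image hi, Finset.card_image_of_injOn hi] at h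
      calc (∑ t' ∈ W.filter (fun x => x < t), 1 / √|t - t'|)
          = ∑ t' ∈ W.filter (fun x => x < t), 1 / √(t - t') := by
            refine Finset.sum_congr rfl fun x hx => ?_
            have : x < t := (Finset.mem_filter.1 hx).2
            rw [abs_of_pos (by linarith)]
        _ ≤ _ := h
        _ ≤ _ := by
            gcongr
            exact Finset.filter_subset _ _
    · intro a ha
      obtain ⟨x, hx, rfl⟩ := Finset.mem_image.1 ha
      obtain ⟨hxW, htx⟩ := Finset.mem_filter.1 hx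
      have := hW t ht x hxW htx.ne'
      rwa [abs_of_pos (by linarith)] at this
    · intro a ha b hb hab
      obtain ⟨x, hx, rfl⟩ := Finset.mem_image.1 ha
      obtain ⟨y, hy, rfl⟩ := Finset.mem_image.1 hb
      obtain ⟨hxW, htx⟩ := Finset.mem_filter.1 hx
      obtain ⟨hyW, hty⟩ := Finset.mem_filter.1 hy
      have hxy : y < x := by linarith
      have := hW x hxW y hyW hxy.ne'
      rw [abs_of_pos (by linarith)] at this
      linarith
  rw [hsplit]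
  have h0 : 0 ≤ √(W.card : ℝ) / √δ := by positivity
  have e2 : 2 * √(W.card : ℝ) / √δ = 2 * (√(W.card : ℝ) / √δ) := by ring
  have e6 : 6 * √(W.card : ℝ) / √δ = 6 * (√(W.card : ℝ) / √δ) := by ring
  rw [e2] at hR hL
  rw [e6]
  linarith

/-- the dual function -/
def laG (W : Finset ℝ) (X : ℝ → S2) (c : ℝ → ℂ) (n : ℕ) (y : S2) : ℂ :=
  ∑ t ∈ W, (starRingEnd ℂ) (c t * cexp (I * t * Lam n)) * (Z n (ip (X t) y) : ℂ)

theorem laG_cont (W : Finset ℝ) (X : ℝ → S2) (c : ℝ → ℂ) (n : ℕ) : Continuous (laG W X c n) := by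
  unfold laG
  exact continuous_finsetSum _ fun t _ => continuous_const.mul (Zc_cont_right n (X t))

theorem la_inn_Z (n : ℕ) (a b : ℂ) (x z : S2) :
    inn (fun y => a * (Z n (ip x y) : ℂ)) (fun y => b * (Z n (ip z y) : ℂ)) =
      a * (starRingEnd ℂ) b * (Z n (ip x z) : ℂ) := by
  have h := Z_conv n n x z
  rw [if_pos rfl] at h
  unfold inn
  rw [← h, ← integral_complex_ofReal, ← integral_const_mul]
  refine integral_congr_ae (Eventually.of_forall fun y => ?_)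
  simp only [map_mul, Complex.conj_ofReal, ip_comm y z]
  push_cast
  ring

theorem la_inn_G (W : Finset ℝ) (X : ℝ → S2) (c : ℝ → ℂ) (n : ℕ) :
    inn (laG W X c n) (laG W X c n) =
      ∑ t ∈ W, ∑ t' ∈ W, (starRingEnd ℂ) (c t) * c t' *
        (cexp (I * ((t' - t : ℝ) : ℂ) * Lam n) * (Z n (ip (X t) (X t')) : ℂ)) := by
  have hc : ∀ t ∈ W, Continuous (fun y : S2 =>
      (starRingEnd ℂ) (c t * cexp (I * t * Lam n)) * (Z n (ip (X t) y) : ℂ)) :=
    fun t _ => continuous_const.mul (Zc_cont_right n (X t))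
  have h1 : laG W X c n = fun y => ∑ t ∈ W,
      (starRingEnd ℂ) (c t * cexp (I * t * Lam n)) * (Z n (ip (X t) y) : ℂ) := rfl
  have h2 : inn (laG W X c n) (laG W X c n) = ∑ t ∈ W,
      inn (fun y => (starRingEnd ℂ) (c t * cexp (I * t * Lam n)) * (Z n (ip (X t) y) : ℂ))
        (laG W X c n) := by
    conv_lhs => rw [h1]
    rw [inn_sum_left W hc]
    rw [← h1]
    exact laG_cont W X c n
  rw [h2]
  refine Finset.sum_congr rfl fun t ht => ?_
  rw [h1, inn_sum_right W hc (hc t ht)]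
  refine Finset.sum_congr rfl fun t' _ => ?_
  rw [la_inn_Z]
  have e : cexp (I * ((t' - t : ℝ) : ℂ) * Lam n) =
      (starRingEnd ℂ) (cexp (I * t * Lam n)) * cexp (I * t' * Lam n) := by
    rw [← Complex.exp_conj, ← Complex.exp_add]
    congr 1
    simp only [map_mul, Complex.conj_I, Complex.conj_ofReal]
    push_cast
    ring
  rw [e]
  simp only [map_mul, Complex.conj_conj]
  ring

theorem la_sum_N2 (N : ℕ) (W : Finset ℝ) (X : ℝ → S2) (c : ℝ → ℂ) (hc : ∀ t, ‖c t‖ ≤ 1) :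
    ∑ n ∈ Finset.Ico N (2 * N), N2 (laG W X c n) ≤
      ∑ t ∈ W, ∑ t' ∈ W, ‖KN N (t' - t) (ip (X t) (X t'))‖ := by
  have h1 : ((∑ n ∈ Finset.Ico N (2 * N), N2 (laG W X c n) : ℝ) : ℂ) =
      ∑ t ∈ W, ∑ t' ∈ W, (starRingEnd ℂ) (c t) * c t' * KN N (t' - t) (ip (X t) (X t')) := by
    push_cast
    simp_rw [← inn_self, la_inn_G]
    rw [Finset.sum_comm]
    refine Finset.sum_congr rfl fun t _ => ?_
    rw [Finset.sum_comm]
    refine Finset.sum_congr rfl fun t' _ => ?_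
    unfold KN
    rw [Finset.mul_sum]
  have h2 : 0 ≤ ∑ n ∈ Finset.Ico N (2 * N), N2 (laG W X c n) :=
    Finset.sum_nonneg fun n _ => N2_nonneg _
  have h3 := congrArg norm h1
  rw [Complex.norm_real, Real.norm_eq_abs, abs_of_nonneg h2] at h3
  rw [h3]
  refine (norm_sum_le _ _).trans (Finset.sum_le_sum fun t _ => ?_)
  refine (norm_sum_le _ _).trans (Finset.sum_le_sum fun t' _ => ?_)
  rw [norm_mul, norm_mul, RCLike.norm_conj]
  have h4 : ‖c t‖ * ‖c t'‖ ≤ 1 := mul_le_one₀ (hc t) (norm_nonneg _) (hc t')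
  exact mul_le_of_le_one_left (norm_nonneg _) h4

theorem la_eval {n : ℕ} {f : S2 → ℂ} (hf : Har n f) (a : ℂ) (x : S2) :
    a * f x = inn f (fun y => (starRingEnd ℂ) a * (Z n (ip x y) : ℂ)) := by
  conv_lhs => rw [← hf.rep x]
  unfold proj inn
  rw [← integral_const_mul]
  refine integral_congr_ae (Eventually.of_forall fun y => ?_)
  simp only [map_mul, Complex.conj_ofReal, Complex.conj_conj]
  ring

theorem la_dual (N : ℕ) (P : ℕ → S2 → ℂ) (hP : ∀ n, Har n (P n)) (W : Finset ℝ) (X : ℝ → S2)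
    (c : ℝ → ℂ) :
    ∑ t ∈ W, c t * upw P (Finset.Ico N (2 * N)) t (X t) =
      ∑ n ∈ Finset.Ico N (2 * N), inn (P n) (laG W X c n) := by
  unfold upw
  simp_rw [Finset.mul_sum]
  rw [Finset.sum_comm]
  refine Finset.sum_congr rfl fun n _ => ?_
  have h1 : laG W X c n = fun y => ∑ t ∈ W,
      (starRingEnd ℂ) (c t * cexp (I * t * Lam n)) * (Z n (ip (X t) y) : ℂ) := rfl
  have hc : ∀ t ∈ W, Continuous (fun y : S2 =>
      (starRingEnd ℂ) (c t * cexp (I * t * Lam n)) * (Z n (ip (X t) y) : ℂ)) :=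
    fun t _ => continuous_const.mul (Zc_cont_right n (X t))
  rw [h1, inn_sum_right W hc (hP n).cont]
  refine Finset.sum_congr rfl fun t _ => ?_
  rw [← mul_assoc, la_eval (hP n)]

theorem la_cs (N : ℕ) (P : ℕ → S2 → ℂ) (hP : ∀ n, Har n (P n)) (W : Finset ℝ) (X : ℝ → S2)
    (lam : ℝ) (hlam : 0 < lam)
    (hl : ∀ t ∈ W, lam ≤ ‖upw P (Finset.Ico N (2 * N)) t (X t)‖) :
    (lam * W.card) ^ 2 ≤ (∑ n ∈ Finset.Ico N (2 * N), N2 (P n)) *
      ∑ t ∈ W, ∑ t' ∈ W, ‖KN N (t' - t) (ip (X t) (X t'))‖ := by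
  set u : ℝ → ℂ := fun t => upw P (Finset.Ico N (2 * N)) t (X t) with hu
  set c : ℝ → ℂ := fun t => (starRingEnd ℂ) (u t) / ‖u t‖ with hc
  have hc1 : ∀ t, ‖c t‖ ≤ 1 := by
    intro t
    rw [hc]
    simp only [norm_div, RCLike.norm_conj, Complex.norm_real, norm_norm]
    exact div_self_le_one _
  have hcu : ∀ t ∈ W, c t * u t = ((‖u t‖ : ℝ) : ℂ) := by
    intro t ht
    have h0 : 0 < ‖u t‖ := lt_of_lt_of_le hlam (hl t ht)
    have h0' : ((‖u t‖ : ℝ) : ℂ) ≠ 0 := by exact_mod_cast h0.ne'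
    rw [hc]
    simp only
    rw [div_mul_eq_mul_div, div_eq_iff h0', mul_comm, Complex.mul_conj, Complex.normSq_eq_norm_sq]
    push_cast
    ring
  have h1 : lam * W.card ≤ ‖∑ n ∈ Finset.Ico N (2 * N), inn (P n) (laG W X c n)‖ := by
    rw [← la_dual N P hP W X c]
    have e : ∑ t ∈ W, c t * upw P (Finset.Ico N (2 * N)) t (X t) = ((∑ t ∈ W, ‖u t‖ : ℝ) : ℂ) := by
      push_cast
      exact Finset.sum_congr rfl fun t ht => hcu t ht
    rw [e, Complex.norm_real, Real.norm_eq_abs, abs_of_nonneg (Finset.sum_nonneg fun t _ =>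
      norm_nonneg _)]
    calc lam * W.card = ∑ t ∈ W, lam := by rw [Finset.sum_const, nsmul_eq_mul, mul_comm]
      _ ≤ ∑ t ∈ W, ‖u t‖ := Finset.sum_le_sum hl
  have h2 : ‖∑ n ∈ Finset.Ico N (2 * N), inn (P n) (laG W X c n)‖ ≤
      ∑ n ∈ Finset.Ico N (2 * N), √(N2 (P n)) * √(N2 (laG W X c n)) := by
    refine (norm_sum_le _ _).trans (Finset.sum_le_sum fun n _ => ?_)
    rw [← Real.sqrt_mul (N2_nonneg _)]
    exact Real.le_sqrt_of_sq_le (norm_inn_le (hP n).cont (laG_cont W X c n))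
  have h3 := Finset.sum_mul_sq_le_sq_mul_sq (Finset.Ico N (2 * N))
    (fun n => √(N2 (P n))) (fun n => √(N2 (laG W X c n)))
  simp only [Real.sq_sqrt (N2_nonneg _)] at h3
  have h4 : 0 ≤ lam * W.card := by positivity
  calc (lam * W.card) ^ 2 ≤ (∑ n ∈ Finset.Ico N (2 * N), √(N2 (P n)) * √(N2 (laG W X c n))) ^ 2 := by
        exact pow_le_pow_left₀ h4 (h1.trans h2) 2
    _ ≤ _ := h3
    _ ≤ _ := by
        exact mul_le_mul_of_nonneg_left (la_sum_N2 N W X c hc1)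
          (Finset.sum_nonneg fun n _ => N2_nonneg _)

theorem la_ip (x y : S2) : |ip x y| ≤ 1 := by
  unfold ip
  refine (abs_real_inner_le_norm _ _).trans ?_
  simp

/-- large values on separated times -/
theorem large_val : ∃ C : ℝ, 1 ≤ C ∧ ∀ (N : ℕ) (P : ℕ → S2 → ℂ) (W : Finset ℝ) (X : ℝ → S2)
    (lam : ℝ), 64 ≤ N → (∀ n, Har n (P n)) → (∀ t ∈ W, 0 ≤ t ∧ t ≤ 1) →
    (∀ t ∈ W, ∀ t' ∈ W, t ≠ t' → (N : ℝ) ^ (-(3 / 2) : ℝ) ≤ |t - t'|) → 0 < lam →
    (∀ t ∈ W, lam ≤ ‖upw P (Finset.Ico N (2 * N)) t (X t)‖) →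
    C * (N : ℝ) ^ (7 / 4 : ℝ) * (∑ n ∈ Finset.Ico N (2 * N), N2 (P n)) ≤ lam ^ 2 →
    (W.card : ℝ) * lam ^ 4 ≤ C * (N : ℝ) ^ 4 * (∑ n ∈ Finset.Ico N (2 * N), N2 (P n)) ^ 2 := by
  obtain ⟨C₀, hC₀, hd⟩ := disp
  set C : ℝ := max C₀ 1 with hC
  have hC1 : 1 ≤ C := le_max_right _ _
  have hCC : C₀ ≤ C := le_max_left _ _
  refine ⟨196 * C ^ 2, by nlinarith, fun N P W X lam hN hP hW01 hsep hlam hl hbig => ?_⟩
  set E : ℝ := ∑ n ∈ Finset.Ico N (2 * N), N2 (P n) with hE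
  have hE0 : 0 ≤ E := Finset.sum_nonneg fun n _ => N2_nonneg _
  have hNr : (64:ℝ) ≤ N := by exact_mod_cast hN
  have hN0 : (0:ℝ) < N := by linarith
  rcases W.eq_empty_or_nonempty with rfl | hne
  · simp only [Finset.card_empty, CharP.cast_eq_zero, zero_mul]
    positivity
  have hR1 : (1:ℝ) ≤ W.card := by exact_mod_cast hne.card_pos
  set R : ℝ := (W.card : ℝ) with hR
  have hR0 : (0:ℝ) < R := by linarith
  have hsR : 1 ≤ √R := by rw [Real.one_le_sqrt]; exact hR1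
  have hδ : (0:ℝ) < (N : ℝ) ^ (-(3 / 2) : ℝ) := Real.rpow_pos_of_pos hN0 _
  -- one row
  have hrow : ∀ t ∈ W, ∑ t' ∈ W, ‖KN N (t' - t) (ip (X t) (X t'))‖ ≤
      7 * C * (N : ℝ) ^ 2 * √R + C * (N : ℝ) ^ (7 / 4 : ℝ) * R := by
    intro t ht
    rw [← Finset.add_sum_erase W _ ht]
    have h1 : ‖KN N (t - t) (ip (X t) (X t))‖ ≤ (N : ℝ) ^ 2 := KN_triv N _ (la_ip _ _)
    have h2 : ∑ t' ∈ W.erase t, ‖KN N (t' - t) (ip (X t) (X t'))‖ ≤
        ∑ t' ∈ W.erase t, (C * (N : ℝ) ^ (5 / 4 : ℝ) * (1 / √|t - t'|) +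
          C * (N : ℝ) ^ (7 / 4 : ℝ)) := by
      refine Finset.sum_le_sum fun t' ht' => ?_
      obtain ⟨hne', htW⟩ := Finset.mem_erase.1 ht'
      have h01 := hW01 t ht
      have h01' := hW01 t' htW
      have h3 := hd N (t' - t) (ip (X t) (X t')) hN (sub_ne_zero.2 hne')
        (by rw [abs_le]; constructor <;> linarith) (la_ip _ _)
      refine h3.trans ?_
      rw [abs_sub_comm t' t]
      have h4 : 0 ≤ (N : ℝ) ^ (5 / 4 : ℝ) / √|t - t'| + (N : ℝ) ^ (7 / 4 : ℝ) := by positivity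
      calc C₀ * ((N : ℝ) ^ (5 / 4 : ℝ) / √|t - t'| + (N : ℝ) ^ (7 / 4 : ℝ)) ≤
          C * ((N : ℝ) ^ (5 / 4 : ℝ) / √|t - t'| + (N : ℝ) ^ (7 / 4 : ℝ)) :=
            mul_le_mul_of_nonneg_right hCC h4
        _ = _ := by ring
    rw [Finset.sum_add_distrib, ← Finset.mul_sum, Finset.sum_const, nsmul_eq_mul] at h2
    have h5 := sep_sum W _ hδ hsep t ht
    have h6 : 6 * √R / √((N : ℝ) ^ (-(3 / 2) : ℝ)) = 6 * √R * (N : ℝ) ^ (3 / 4 : ℝ) := by
      rw [Real.sqrt_eq_rpow ((N : ℝ) ^ (-(3 / 2) : ℝ)), ← Real.rpow_mul hN0.le, div_eq_mul_inv,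
        ← Real.rpow_neg hN0.le]
      norm_num
    rw [h6] at h5
    have h7 : (N : ℝ) ^ (5 / 4 : ℝ) * (N : ℝ) ^ (3 / 4 : ℝ) = (N : ℝ) ^ 2 := by
      rw [← Real.rpow_add hN0]
      norm_num
    have h8 : C * (N : ℝ) ^ (5 / 4 : ℝ) * ∑ t' ∈ W.erase t, 1 / √|t - t'| ≤
        6 * C * (N : ℝ) ^ 2 * √R := by
      calc C * (N : ℝ) ^ (5 / 4 : ℝ) * ∑ t' ∈ W.erase t, 1 / √|t - t'|
          ≤ C * (N : ℝ) ^ (5 / 4 : ℝ) * (6 * √R * (N : ℝ) ^ (3 / 4 : ℝ)) := by gcongr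
        _ = 6 * C * ((N : ℝ) ^ (5 / 4 : ℝ) * (N : ℝ) ^ (3 / 4 : ℝ)) * √R := by ring
        _ = _ := by rw [h7]
    have h9 : ((W.erase t).card : ℝ) * (C * (N : ℝ) ^ (7 / 4 : ℝ)) ≤
        C * (N : ℝ) ^ (7 / 4 : ℝ) * R := by
      have h9' : ((W.erase t).card : ℝ) ≤ R := by
        rw [hR]
        exact_mod_cast Finset.card_le_card (Finset.erase_subset t W)
      rw [mul_comm]
      gcongr
    have h10 : (N : ℝ) ^ 2 ≤ C * (N : ℝ) ^ 2 * √R := by
      have : 1 ≤ C * √R := by nlinarith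
      nlinarith [sq_nonneg (N:ℝ)]
    linarith
  have hcs := la_cs N P hP W X lam hlam hl
  have hsum : ∑ t ∈ W, ∑ t' ∈ W, ‖KN N (t' - t) (ip (X t) (X t'))‖ ≤
      R * (7 * C * (N : ℝ) ^ 2 * √R + C * (N : ℝ) ^ (7 / 4 : ℝ) * R) := by
    refine (Finset.sum_le_sum hrow).trans (le_of_eq ?_)
    rw [Finset.sum_const, nsmul_eq_mul]
  have h1 : (lam * R) ^ 2 ≤ E * (R * (7 * C * (N : ℝ) ^ 2 * √R + C * (N : ℝ) ^ (7 / 4 : ℝ) * R)) :=
    hcs.trans (mul_le_mul_of_nonneg_left hsum hE0)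
  have h2 : lam ^ 2 * R ≤ 7 * C * (N : ℝ) ^ 2 * E * √R + C * (N : ℝ) ^ (7 / 4 : ℝ) * E * R := by
    have h3 : R * (lam ^ 2 * R) ≤
        R * (7 * C * (N : ℝ) ^ 2 * E * √R + C * (N : ℝ) ^ (7 / 4 : ℝ) * E * R) := by nlinarith
    exact le_of_mul_le_mul_left h3 hR0
  have h4 : C * (N : ℝ) ^ (7 / 4 : ℝ) * E * R ≤ lam ^ 2 * R / 2 := by
    have h5 : 2 * (C * (N : ℝ) ^ (7 / 4 : ℝ) * E) ≤ lam ^ 2 := by
      refine le_trans ?_ hbig
      have h6 : 0 ≤ (N : ℝ) ^ (7 / 4 : ℝ) * E := by positivity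
      have h7 : 2 * C ≤ 196 * C ^ 2 := by nlinarith
      nlinarith
    nlinarith
  have h5 : lam ^ 2 * R ≤ 14 * C * (N : ℝ) ^ 2 * E * √R := by linarith
  have hsq : √R * √R = R := Real.mul_self_sqrt hR0.le
  have h6 : lam ^ 2 * √R ≤ 14 * C * (N : ℝ) ^ 2 * E := by
    have h7 : √R * (lam ^ 2 * √R) ≤ √R * (14 * C * (N : ℝ) ^ 2 * E) := by
      calc √R * (lam ^ 2 * √R) = lam ^ 2 * (√R * √R) := by ring
        _ = lam ^ 2 * R := by rw [hsq]
        _ ≤ _ := h5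
        _ = _ := by ring
    exact le_of_mul_le_mul_left h7 (by linarith)
  have h8 : (lam ^ 2 * √R) ^ 2 ≤ (14 * C * (N : ℝ) ^ 2 * E) ^ 2 :=
    pow_le_pow_left₀ (by positivity) h6 2
  calc R * lam ^ 4 = (lam ^ 2 * √R) ^ 2 := by
        rw [mul_pow, Real.sq_sqrt hR0.le]
        ring
    _ ≤ _ := h8
    _ = _ := by ring

end

end Pool.Agent.DW
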