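import Pool.Agent.DW.Large

/-!
# Large values in the strong form
-/

open MeasureTheory Metric Complex Filter Topology Real
open scoped ENNReal NNReal RealInnerProductSpace

namespace Pool.Agent.DW

noncomputable section

/-- one row, restricted to the smaller values -/
theorem lc_row (W : Finset ℝ) (δ : ℝ) (hδ : 0 < δ)
    (hW : ∀ t ∈ W, ∀ t' ∈ W, t ≠ t' → δ ≤ |t - t'|) (M : ℝ → ℝ) {lam : ℝ} (hlam : 0 < lam)
    (hM : ∀ t ∈ W, lam ≤ M t) (t : ℝ) (ht : t ∈ W) :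
    ∑ t' ∈ (W.erase t).filter (fun t' => M t' ≤ M t), M t' ^ 3 * (1 / √|t - t'|) ≤
      48 * (M t * √(∑ t' ∈ W, M t' ^ 4)) / √δ := by
  classical
  set S : ℝ := ∑ t' ∈ W, M t' ^ 4 with hS
  have hMt : 0 < M t := lt_of_lt_of_le hlam (hM t ht)
  have hsδ : 0 < √δ := Real.sqrt_pos.2 hδ
  have hS0 : 0 ≤ S := Finset.sum_nonneg fun t' _ => by positivity
  obtain ⟨J, hJ⟩ : ∃ J : ℕ, M t / lam < 2 ^ J := pow_unbounded_of_one_lt _ (by norm_num)
  have hJ2 : M t < 2 ^ J * lam := by rwa [div_lt_iff₀ hlam] at hJ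
  set Wi : ℕ → Finset ℝ := fun i => W.filter (fun t' => M t ≤ 2 ^ (i + 1) * M t') with hWi
  have htWi : ∀ i, t ∈ Wi i := by
    intro i
    rw [hWi, Finset.mem_filter]
    refine ⟨ht, ?_⟩
    have : (1 : ℝ) ≤ 2 ^ (i + 1) := one_le_pow₀ (by norm_num)
    nlinarith
  -- the number of elements
  have hcard : ∀ i, √((Wi i).card : ℝ) ≤ 4 ^ (i + 1) * √S / M t ^ 2 := by
    intro i
    have h1 : ((Wi i).card : ℝ) * (M t / 2 ^ (i + 1)) ^ 4 ≤ S := by
      calc ((Wi i).card : ℝ) * (M t / 2 ^ (i + 1)) ^ 4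
          = ∑ t' ∈ Wi i, (M t / 2 ^ (i + 1)) ^ 4 := by rw [Finset.sum_const, nsmul_eq_mul]
        _ ≤ ∑ t' ∈ Wi i, M t' ^ 4 := by
            refine Finset.sum_le_sum fun t' ht' => ?_
            refine pow_le_pow_left₀ (by positivity) ?_ 4
            rw [div_le_iff₀ (by positivity), mul_comm]
            exact (Finset.mem_filter.1 ht').2
        _ ≤ S := Finset.sum_le_sum_of_subset_of_nonneg (Finset.filter_subset _ _)
            fun t' _ _ => by positivity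
    have h2 : ((Wi i).card : ℝ) ≤ (4 ^ (i + 1) * √S / M t ^ 2) ^ 2 := by
      rw [div_pow, mul_pow, Real.sq_sqrt hS0, le_div_iff₀ (by positivity)]
      have h3 : (M t / 2 ^ (i + 1)) ^ 4 = (M t ^ 2) ^ 2 / (4 ^ (i + 1)) ^ 2 := by
        rw [div_pow, ← pow_mul, ← pow_mul]
        congr 1
        rw [show (4 : ℝ) = 2 ^ 2 by norm_num, ← pow_mul, ← pow_mul]
        congr 1
        ring
      rw [h3, mul_div_assoc', div_le_iff₀ (by positivity)] at h1
      linarith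
    exact Real.sqrt_le_sqrt h2 |>.trans (le_of_eq (Real.sqrt_sq (by positivity)))
  -- the sums over `Wi`
  have hsumi : ∀ i, ∑ t' ∈ (Wi i).erase t, 1 / √|t - t'| ≤
      6 * (4 ^ (i + 1) * √S / M t ^ 2) / √δ := by
    intro i
    refine (sep_sum (Wi i) δ hδ (fun a ha b hb hab => hW a (Finset.filter_subset _ _ ha) b
      (Finset.filter_subset _ _ hb) hab) t (htWi i)).trans ?_
    have := hcard i
    gcongr
  -- the dyadic decomposition
  have h1 : ∀ t' ∈ (W.erase t).filter (fun t' => M t' ≤ M t), M t' ^ 3 * (1 / √|t - t'|) ≤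
      ∑ i ∈ Finset.range J, if t' ∈ (Wi i).erase t then
        (M t / 2 ^ i) ^ 3 * (1 / √|t - t'|) else 0 := by
    intro t' ht'
    obtain ⟨h2, h3⟩ := Finset.mem_filter.1 ht'
    obtain ⟨h4, h5⟩ := Finset.mem_erase.1 h2
    have hMt' : 0 < M t' := lt_of_lt_of_le hlam (hM t' h5)
    obtain ⟨i, hi, h6, h7⟩ := la_dyadic (a := M t') (M := M t) J h3
      (hJ2.trans_le (mul_le_mul_of_nonneg_left (hM t' h5) (by positivity)))
    refine le_trans ?_ (Finset.single_le_sum (f := fun i => if t' ∈ (Wi i).erase t then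
        (M t / 2 ^ i) ^ 3 * (1 / √|t - t'|) else 0) (fun j _ => ?_) (Finset.mem_range.2 hi))
    · have h8 : t' ∈ (Wi i).erase t := by
        rw [Finset.mem_erase, hWi, Finset.mem_filter]
        exact ⟨h4, h5, h7.le⟩
      simp only [h8, if_true]
      refine mul_le_mul_of_nonneg_right ?_ (by positivity)
      refine pow_le_pow_left₀ hMt'.le ?_ 3
      rw [le_div_iff₀ (by positivity), mul_comm]
      exact h6
    · split_ifs
      · positivity
      · exact le_refl _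
  have hgeo : ∑ i ∈ Finset.range J, ((1 : ℝ) / 2) ^ i ≤ 2 := by
    have h := (summable_geometric_of_lt_one (r := (1 : ℝ) / 2) (by norm_num)
      (by norm_num)).sum_le_tsum (Finset.range J) fun i _ => by positivity
    rw [tsum_geometric_of_lt_one (by norm_num) (by norm_num)] at h
    norm_num at h ⊢
    exact h
  calc ∑ t' ∈ (W.erase t).filter (fun t' => M t' ≤ M t), M t' ^ 3 * (1 / √|t - t'|)
      ≤ ∑ t' ∈ (W.erase t).filter (fun t' => M t' ≤ M t), ∑ i ∈ Finset.range J,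
          (if t' ∈ (Wi i).erase t then (M t / 2 ^ i) ^ 3 * (1 / √|t - t'|) else 0) :=
        Finset.sum_le_sum h1
    _ = ∑ i ∈ Finset.range J, ∑ t' ∈ (W.erase t).filter (fun t' => M t' ≤ M t),
          (if t' ∈ (Wi i).erase t then (M t / 2 ^ i) ^ 3 * (1 / √|t - t'|) else 0) :=
        Finset.sum_comm
    _ ≤ ∑ i ∈ Finset.range J, 24 * (M t * √S) / √δ * (1 / 2) ^ i := by
        refine Finset.sum_le_sum fun i _ => ?_
        calc ∑ t' ∈ (W.erase t).filter (fun t' => M t' ≤ M t),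
              (if t' ∈ (Wi i).erase t then (M t / 2 ^ i) ^ 3 * (1 / √|t - t'|) else 0)
            = ∑ t' ∈ ((W.erase t).filter (fun t' => M t' ≤ M t)).filter
                (fun t' => t' ∈ (Wi i).erase t), (M t / 2 ^ i) ^ 3 * (1 / √|t - t'|) :=
              (Finset.sum_filter _ _).symm
          _ ≤ ∑ t' ∈ (Wi i).erase t, (M t / 2 ^ i) ^ 3 * (1 / √|t - t'|) := by
              refine Finset.sum_le_sum_of_subset_of_nonneg ?_ fun t' _ _ => by positivity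
              intro x hx
              exact (Finset.mem_filter.1 hx).2
          _ = (M t / 2 ^ i) ^ 3 * ∑ t' ∈ (Wi i).erase t, 1 / √|t - t'| := by
              rw [Finset.mul_sum]
          _ ≤ (M t / 2 ^ i) ^ 3 * (6 * (4 ^ (i + 1) * √S / M t ^ 2) / √δ) :=
              mul_le_mul_of_nonneg_left (hsumi i) (by positivity)
          _ = 24 * (M t * √S) / √δ * (1 / 2) ^ i := by
              have e1 : (4 : ℝ) ^ (i + 1) = 4 * (2 ^ i * 2 ^ i) := by
                rw [← mul_pow]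
                norm_num
                ring
              rw [e1, div_pow, div_pow, one_pow]
              field_simp
              ring
    _ = 24 * (M t * √S) / √δ * ∑ i ∈ Finset.range J, ((1 : ℝ) / 2) ^ i := by
        rw [Finset.mul_sum]
    _ ≤ 24 * (M t * √S) / √δ * 2 := mul_le_mul_of_nonneg_left hgeo (by positivity)
    _ = _ := by ring

/-- the discrete Hardy–Littlewood–Sobolev inequality -/
theorem lc_hls (W : Finset ℝ) (δ : ℝ) (hδ : 0 < δ)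
    (hW : ∀ t ∈ W, ∀ t' ∈ W, t ≠ t' → δ ≤ |t - t'|) (M : ℝ → ℝ) {lam : ℝ} (hlam : 0 < lam)
    (hM : ∀ t ∈ W, lam ≤ M t) :
    ∑ t ∈ W, ∑ t' ∈ W.erase t, M t ^ 3 * M t' ^ 3 * (1 / √|t - t'|) ≤
      96 * (√(∑ t ∈ W, M t ^ 4) * ∑ t ∈ W, M t ^ 4) / √δ := by
  classical
  set S : ℝ := ∑ t' ∈ W, M t' ^ 4 with hS
  have hM0 : ∀ t ∈ W, 0 < M t := fun t ht => lt_of_lt_of_le hlam (hM t ht)
  set g : ℝ → ℝ → ℝ := fun t t' => M t ^ 3 * M t' ^ 3 * (1 / √|t - t'|) with hg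
  have hg0 : ∀ t ∈ W, ∀ t' ∈ W, 0 ≤ g t t' := fun t ht t' ht' => by
    have := hM0 t ht
    have := hM0 t' ht'
    rw [hg]
    positivity
  have hsymm : ∀ t t', g t t' = g t' t := fun t t' => by
    rw [hg]
    simp only
    rw [abs_sub_comm]
    ring
  have e1 : ∀ t ∈ W, ∑ t' ∈ W.erase t, g t t' ≤
      ∑ t' ∈ W, (if t' ≠ t ∧ M t' ≤ M t then g t t' else 0) +
      ∑ t' ∈ W, (if t' ≠ t ∧ M t ≤ M t' then g t t' else 0) := by
    intro t ht
    rw [← Finset.sum_add_distrib]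
    have e2 : ∑ t' ∈ W.erase t, g t t' = ∑ t' ∈ W, (if t' ≠ t then g t t' else 0) := by
      rw [← Finset.sum_filter]
      refine Finset.sum_congr ?_ fun _ _ => rfl
      ext x
      simp only [Finset.mem_erase, Finset.mem_filter]
      tauto
    rw [e2]
    refine Finset.sum_le_sum fun t' ht' => ?_
    have h0 := hg0 t ht t' ht'
    by_cases h : t' = t
    · simp [h]
    · rcases le_total (M t') (M t) with h2 | h2
      · rw [if_pos h, if_pos ⟨h, h2⟩]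
        split_ifs <;> linarith
      · rw [if_pos h, if_pos (c := t' ≠ t ∧ M t ≤ M t') ⟨h, h2⟩]
        split_ifs <;> linarith
  have e3 : ∑ t ∈ W, ∑ t' ∈ W, (if t' ≠ t ∧ M t ≤ M t' then g t t' else 0) =
      ∑ t ∈ W, ∑ t' ∈ W, (if t' ≠ t ∧ M t' ≤ M t then g t t' else 0) := by
    rw [Finset.sum_comm]
    refine Finset.sum_congr rfl fun t _ => Finset.sum_congr rfl fun t' _ => ?_
    rw [hsymm t' t]
    congr 1
    rw [ne_comm]
  have e4 : ∀ t ∈ W, ∑ t' ∈ W, (if t' ≠ t ∧ M t' ≤ M t then g t t' else 0) ≤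
      M t ^ 3 * (48 * (M t * √S) / √δ) := by
    intro t ht
    have h := lc_row W δ hδ hW M hlam hM t ht
    have hMt := hM0 t ht
    have e5 : ∑ t' ∈ W, (if t' ≠ t ∧ M t' ≤ M t then g t t' else 0) =
        M t ^ 3 * ∑ t' ∈ (W.erase t).filter (fun t' => M t' ≤ M t),
          M t' ^ 3 * (1 / √|t - t'|) := by
      rw [Finset.mul_sum, ← Finset.sum_filter]
      refine Finset.sum_congr ?_ fun t' _ => ?_
      · ext x
        simp only [Finset.mem_erase, Finset.mem_filter]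
        tauto
      · rw [hg]
        ring
    rw [e5]
    exact mul_le_mul_of_nonneg_left h (by positivity)
  calc ∑ t ∈ W, ∑ t' ∈ W.erase t, g t t'
      ≤ ∑ t ∈ W, (∑ t' ∈ W, (if t' ≠ t ∧ M t' ≤ M t then g t t' else 0) +
          ∑ t' ∈ W, (if t' ≠ t ∧ M t ≤ M t' then g t t' else 0)) := Finset.sum_le_sum e1
    _ = 2 * ∑ t ∈ W, ∑ t' ∈ W, (if t' ≠ t ∧ M t' ≤ M t then g t t' else 0) := by
        rw [Finset.sum_add_distrib, e3]
        ring
    _ ≤ 2 * ∑ t ∈ W, M t ^ 3 * (48 * (M t * √S) / √δ) := by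
        have := Finset.sum_le_sum e4
        linarith
    _ = 96 * (√S * ∑ t ∈ W, M t ^ 4) / √δ := by
        have e6 : ∀ t, M t ^ 3 * (48 * (M t * √S) / √δ) = M t ^ 4 * (48 * √S / √δ) := by
          intro t
          ring
        simp only [e6]
        rw [← Finset.sum_mul]
        ring

theorem lc_sum_N2 (N : ℕ) (W : Finset ℝ) (X : ℝ → S2) (c : ℝ → ℂ) :
    ∑ n ∈ Finset.Ico N (2 * N), N2 (laG W X c n) ≤
      ∑ t ∈ W, ∑ t' ∈ W, ‖c t‖ * ‖c t'‖ * ‖KN N (t' - t) (ip (X t) (X t'))‖ := by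
  have h1 : ((∑ n ∈ Finset.Ico N (2 * N), N2 (laG W X c n) : ℝ) : ℂ) =
      ∑ t ∈ W, ∑ t' ∈ W, (starRingEnd ℂ) (c t) * c t' * KN N (t' - t) (ip (X t) (X t')) := by
    push_cast
    simp_rw [← inn_self, la_inn_G]
    rw [Finset.sum_comm]
    refine Finset.sum_congr rfl fun t _ => ?_
    rw [Finset.sum_comm]
    refine Finset.sum_congr rfl fun t' _ => ?_
    unfold KN
    rw [Finset.mul_sum]
  have h2 : 0 ≤ ∑ n ∈ Finset.Ico N (2 * N), N2 (laG W X c n) :=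
    Finset.sum_nonneg fun n _ => N2_nonneg _
  have h3 := congrArg norm h1
  rw [Complex.norm_real, Real.norm_eq_abs, abs_of_nonneg h2] at h3
  rw [h3]
  refine (norm_sum_le _ _).trans (Finset.sum_le_sum fun t _ => ?_)
  refine (norm_sum_le _ _).trans (Finset.sum_le_sum fun t' _ => ?_)
  rw [norm_mul, norm_mul, RCLike.norm_conj]

theorem lc_cs (N : ℕ) (P : ℕ → S2 → ℂ) (hP : ∀ n, Har n (P n)) (W : Finset ℝ) (X : ℝ → S2)
    (a : ℝ → ℝ) (ha : ∀ t, 0 ≤ a t) :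
    (∑ t ∈ W, a t * ‖upw P (Finset.Ico N (2 * N)) t (X t)‖) ^ 2 ≤
      (∑ n ∈ Finset.Ico N (2 * N), N2 (P n)) *
      ∑ t ∈ W, ∑ t' ∈ W, a t * a t' * ‖KN N (t' - t) (ip (X t) (X t'))‖ := by
  set u : ℝ → ℂ := fun t => upw P (Finset.Ico N (2 * N)) t (X t) with hu
  set c : ℝ → ℂ := fun t => (a t : ℂ) * ((starRingEnd ℂ) (u t) / ‖u t‖) with hc
  have hc1 : ∀ t, ‖c t‖ ≤ a t := by
    intro t
    rw [hc]
    simp only [norm_mul, norm_div, RCLike.norm_conj, Complex.norm_real, norm_norm]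
    rw [Real.norm_of_nonneg (ha t)]
    exact mul_le_of_le_one_right (ha t) (div_self_le_one _)
  have hcu : ∀ t, c t * u t = ((a t * ‖u t‖ : ℝ) : ℂ) := by
    intro t
    rw [hc]
    simp only
    by_cases h0 : ‖u t‖ = 0
    · rw [norm_eq_zero] at h0
      simp [h0]
    · have h0' : ((‖u t‖ : ℝ) : ℂ) ≠ 0 := by exact_mod_cast h0
      rw [mul_assoc, div_mul_eq_mul_div, mul_comm ((starRingEnd ℂ) (u t)), Complex.mul_conj,
        Complex.normSq_eq_norm_sq]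
      push_cast
      rw [sq, mul_div_assoc, div_self h0', mul_one]
  have h1 : ∑ t ∈ W, a t * ‖u t‖ ≤ ‖∑ n ∈ Finset.Ico N (2 * N), inn (P n) (laG W X c n)‖ := by
    rw [← la_dual N P hP W X c]
    have e : ∑ t ∈ W, c t * upw P (Finset.Ico N (2 * N)) t (X t) =
        ((∑ t ∈ W, a t * ‖u t‖ : ℝ) : ℂ) := by
      push_cast
      refine Finset.sum_congr rfl fun t _ => ?_
      have := hcu t
      push_cast at this
      exact this
    rw [e, Complex.norm_real, Real.norm_eq_abs]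
    exact le_abs_self _
  have h2 : ‖∑ n ∈ Finset.Ico N (2 * N), inn (P n) (laG W X c n)‖ ≤
      ∑ n ∈ Finset.Ico N (2 * N), √(N2 (P n)) * √(N2 (laG W X c n)) := by
    refine (norm_sum_le _ _).trans (Finset.sum_le_sum fun n _ => ?_)
    rw [← Real.sqrt_mul (N2_nonneg _)]
    exact Real.le_sqrt_of_sq_le (norm_inn_le (hP n).cont (laG_cont W X c n))
  have h3 := Finset.sum_mul_sq_le_sq_mul_sq (Finset.Ico N (2 * N))
    (fun n => √(N2 (P n))) (fun n => √(N2 (laG W X c n)))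
  simp only [Real.sq_sqrt (N2_nonneg _)] at h3
  have h4 : 0 ≤ ∑ t ∈ W, a t * ‖u t‖ :=
    Finset.sum_nonneg fun t _ => mul_nonneg (ha t) (norm_nonneg _)
  have h5 : ∑ n ∈ Finset.Ico N (2 * N), N2 (laG W X c n) ≤
      ∑ t ∈ W, ∑ t' ∈ W, a t * a t' * ‖KN N (t' - t) (ip (X t) (X t'))‖ := by
    refine (lc_sum_N2 N W X c).trans (Finset.sum_le_sum fun t _ =>
      Finset.sum_le_sum fun t' _ => ?_)
    exact mul_le_mul_of_nonneg_right (mul_le_mul (hc1 t) (hc1 t') (norm_nonneg _) (ha t))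
      (norm_nonneg _)
  calc (∑ t ∈ W, a t * ‖u t‖) ^ 2
      ≤ (∑ n ∈ Finset.Ico N (2 * N), √(N2 (P n)) * √(N2 (laG W X c n))) ^ 2 := by
        exact pow_le_pow_left₀ h4 (h1.trans h2) 2
    _ ≤ _ := h3
    _ ≤ _ := by
        exact mul_le_mul_of_nonneg_left h5 (Finset.sum_nonneg fun n _ => N2_nonneg _)

/-- the strong form of the large values estimate -/
theorem strong_val : ∃ C : ℝ, 1 ≤ C ∧ ∀ (N : ℕ) (P : ℕ → S2 → ℂ) (W : Finset ℝ) (X : ℝ → S2)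
    (lam : ℝ), 64 ≤ N → (∀ n, Har n (P n)) → (∀ t ∈ W, 0 ≤ t ∧ t ≤ 1) →
    (∀ t ∈ W, ∀ t' ∈ W, t ≠ t' → (N : ℝ) ^ (-(3 / 2) : ℝ) ≤ |t - t'|) → 0 < lam →
    (∀ t ∈ W, lam ≤ ‖upw P (Finset.Ico N (2 * N)) t (X t)‖) →
    C * (N : ℝ) ^ (7 / 4 : ℝ) * (∑ n ∈ Finset.Ico N (2 * N), N2 (P n)) ≤ lam ^ 2 →
    ∑ t ∈ W, ‖upw P (Finset.Ico N (2 * N)) t (X t)‖ ^ 4 ≤
      C * (N : ℝ) ^ 4 * (∑ n ∈ Finset.Ico N (2 * N), N2 (P n)) ^ 2 := by
  obtain ⟨C₀, hC₀, hd⟩ := disp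
  set C : ℝ := max C₀ 1 with hC
  have hC1 : 1 ≤ C := le_max_right _ _
  have hCC : C₀ ≤ C := le_max_left _ _
  refine ⟨194 ^ 2 * C ^ 2, by nlinarith, fun N P W X lam hN hP hW01 hsep hlam hl hbig => ?_⟩
  set E : ℝ := ∑ n ∈ Finset.Ico N (2 * N), N2 (P n) with hE
  have hE0 : 0 ≤ E := Finset.sum_nonneg fun n _ => N2_nonneg _
  have hNr : (64:ℝ) ≤ N := by exact_mod_cast hN
  have hN0 : (0:ℝ) < N := by linarith
  set M : ℝ → ℝ := fun t => ‖upw P (Finset.Ico N (2 * N)) t (X t)‖ with hM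
  have hM0 : ∀ t, 0 ≤ M t := fun t => norm_nonneg _
  have hMl : ∀ t ∈ W, lam ≤ M t := hl
  set S : ℝ := ∑ t ∈ W, M t ^ 4 with hS
  have hS0 : 0 ≤ S := Finset.sum_nonneg fun t _ => by positivity
  have hδ : (0:ℝ) < (N : ℝ) ^ (-(3 / 2) : ℝ) := Real.rpow_pos_of_pos hN0 _
  set r : ℝ := √S with hr
  have hr0 : 0 ≤ r := Real.sqrt_nonneg _
  have hrr : r * r = S := Real.mul_self_sqrt hS0
  -- duality
  have hcs := lc_cs N P hP W X (fun t => M t ^ 3) (fun t => by positivity)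
  have e1 : ∑ t ∈ W, M t ^ 3 * ‖upw P (Finset.Ico N (2 * N)) t (X t)‖ = S := by
    rw [hS]
    refine Finset.sum_congr rfl fun t _ => ?_
    simp only [hM]
    ring
  rw [e1] at hcs
  -- the diagonal
  have hdiag : ∑ t ∈ W, M t ^ 3 * M t ^ 3 * ‖KN N (t - t) (ip (X t) (X t))‖ ≤
      (N : ℝ) ^ 2 * (r * S) := by
    have h1 : ∀ t ∈ W, M t ^ 3 * M t ^ 3 * ‖KN N (t - t) (ip (X t) (X t))‖ ≤
        (N : ℝ) ^ 2 * (r * M t ^ 4) := by
      intro t ht
      have h2 : ‖KN N (t - t) (ip (X t) (X t))‖ ≤ (N : ℝ) ^ 2 := KN_triv N _ (la_ip _ _)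
      have h3 : M t ^ 2 ≤ r := by
        refine Real.le_sqrt_of_sq_le ?_
        have := Finset.single_le_sum (f := fun t => M t ^ 4) (fun t _ => by positivity) ht
        calc (M t ^ 2) ^ 2 = M t ^ 4 := by ring
          _ ≤ S := this
      calc M t ^ 3 * M t ^ 3 * ‖KN N (t - t) (ip (X t) (X t))‖
          ≤ M t ^ 3 * M t ^ 3 * (N : ℝ) ^ 2 :=
            mul_le_mul_of_nonneg_left h2 (by have := hM0 t; positivity)
        _ = (N : ℝ) ^ 2 * (M t ^ 2 * M t ^ 4) := by ring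
        _ ≤ _ := by gcongr
    refine (Finset.sum_le_sum h1).trans (le_of_eq ?_)
    rw [← Finset.mul_sum, ← Finset.mul_sum]
  -- the off-diagonal terms
  have hoff : ∑ t ∈ W, ∑ t' ∈ W.erase t, M t ^ 3 * M t' ^ 3 *
      ‖KN N (t' - t) (ip (X t) (X t'))‖ ≤
      96 * C * (N : ℝ) ^ 2 * (r * S) + C * (N : ℝ) ^ (7 / 4 : ℝ) * (S / lam) ^ 2 := by
    have h1 : ∀ t ∈ W, ∀ t' ∈ W.erase t, M t ^ 3 * M t' ^ 3 *
        ‖KN N (t' - t) (ip (X t) (X t'))‖ ≤
        C * (N : ℝ) ^ (5 / 4 : ℝ) * (M t ^ 3 * M t' ^ 3 * (1 / √|t - t'|)) +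
          C * (N : ℝ) ^ (7 / 4 : ℝ) * (M t ^ 3 * M t' ^ 3) := by
      intro t ht t' ht'
      obtain ⟨hne', htW⟩ := Finset.mem_erase.1 ht'
      have h01 := hW01 t ht
      have h01' := hW01 t' htW
      have h3 := hd N (t' - t) (ip (X t) (X t')) hN (sub_ne_zero.2 hne')
        (by rw [abs_le]; constructor <;> linarith) (la_ip _ _)
      have h4 : 0 ≤ (N : ℝ) ^ (5 / 4 : ℝ) / √|t' - t| + (N : ℝ) ^ (7 / 4 : ℝ) := by positivity
      have h5 : ‖KN N (t' - t) (ip (X t) (X t'))‖ ≤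
          C * ((N : ℝ) ^ (5 / 4 : ℝ) / √|t' - t| + (N : ℝ) ^ (7 / 4 : ℝ)) :=
        h3.trans (mul_le_mul_of_nonneg_right hCC h4)
      have h6 : 0 ≤ M t ^ 3 * M t' ^ 3 := by
        have := hM0 t
        have := hM0 t'
        positivity
      refine (mul_le_mul_of_nonneg_left h5 h6).trans (le_of_eq ?_)
      rw [abs_sub_comm t' t]
      ring
    have h2 : ∑ t ∈ W, ∑ t' ∈ W.erase t, M t ^ 3 * M t' ^ 3 *
        ‖KN N (t' - t) (ip (X t) (X t'))‖ ≤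
        C * (N : ℝ) ^ (5 / 4 : ℝ) *
          ∑ t ∈ W, ∑ t' ∈ W.erase t, (M t ^ 3 * M t' ^ 3 * (1 / √|t - t'|)) +
        C * (N : ℝ) ^ (7 / 4 : ℝ) * ∑ t ∈ W, ∑ t' ∈ W.erase t, (M t ^ 3 * M t' ^ 3) := by
      refine (Finset.sum_le_sum fun t ht => Finset.sum_le_sum fun t' ht' =>
        h1 t ht t' ht').trans (le_of_eq ?_)
      simp only [Finset.sum_add_distrib, ← Finset.mul_sum]
    have h3 := lc_hls W _ hδ hsep M hlam hMl
    have h4 : 96 * (√(∑ t ∈ W, M t ^ 4) * ∑ t ∈ W, M t ^ 4) / √((N : ℝ) ^ (-(3 / 2) : ℝ)) =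
        96 * (r * S) * (N : ℝ) ^ (3 / 4 : ℝ) := by
      rw [← hS, ← hr, Real.sqrt_eq_rpow ((N : ℝ) ^ (-(3 / 2) : ℝ)), ← Real.rpow_mul hN0.le,
        div_eq_mul_inv, ← Real.rpow_neg hN0.le]
      norm_num
    rw [h4] at h3
    have h7 : (N : ℝ) ^ (5 / 4 : ℝ) * (N : ℝ) ^ (3 / 4 : ℝ) = (N : ℝ) ^ 2 := by
      rw [← Real.rpow_add hN0]
      norm_num
    have h8 : ∑ t ∈ W, ∑ t' ∈ W.erase t, (M t ^ 3 * M t' ^ 3) ≤ (S / lam) ^ 2 := by
      have h9 : ∑ t ∈ W, M t ^ 3 ≤ S / lam := by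
        rw [le_div_iff₀ hlam, Finset.sum_mul, hS]
        refine Finset.sum_le_sum fun t ht => ?_
        have h10 := hMl t ht
        have h11 : 0 ≤ M t ^ 3 := by have := hM0 t; positivity
        nlinarith
      have h10 : 0 ≤ ∑ t ∈ W, M t ^ 3 := Finset.sum_nonneg fun t _ => by
        have := hM0 t; positivity
      calc ∑ t ∈ W, ∑ t' ∈ W.erase t, (M t ^ 3 * M t' ^ 3)
          ≤ ∑ t ∈ W, ∑ t' ∈ W, (M t ^ 3 * M t' ^ 3) := by
            refine Finset.sum_le_sum fun t _ => Finset.sum_le_sum_of_subset_of_nonneg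
              (Finset.erase_subset _ _) fun t' _ _ => ?_
            have := hM0 t
            have := hM0 t'
            positivity
        _ = (∑ t ∈ W, M t ^ 3) ^ 2 := by rw [sq, Finset.sum_mul_sum]
        _ ≤ _ := pow_le_pow_left₀ h10 h9 2
    refine h2.trans (add_le_add ?_ (mul_le_mul_of_nonneg_left h8 (by positivity)))
    calc C * (N : ℝ) ^ (5 / 4 : ℝ) *
          ∑ t ∈ W, ∑ t' ∈ W.erase t, (M t ^ 3 * M t' ^ 3 * (1 / √|t - t'|))
        ≤ C * (N : ℝ) ^ (5 / 4 : ℝ) * (96 * (r * S) * (N : ℝ) ^ (3 / 4 : ℝ)) := by gcongr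
      _ = 96 * C * ((N : ℝ) ^ (5 / 4 : ℝ) * (N : ℝ) ^ (3 / 4 : ℝ)) * (r * S) := by ring
      _ = _ := by rw [h7]
  have hsum : ∑ t ∈ W, ∑ t' ∈ W, M t ^ 3 * M t' ^ 3 * ‖KN N (t' - t) (ip (X t) (X t'))‖ ≤
      97 * C * (N : ℝ) ^ 2 * (r * S) + C * (N : ℝ) ^ (7 / 4 : ℝ) * (S / lam) ^ 2 := by
    have h1 : ∑ t ∈ W, ∑ t' ∈ W, M t ^ 3 * M t' ^ 3 * ‖KN N (t' - t) (ip (X t) (X t'))‖ =
        ∑ t ∈ W, M t ^ 3 * M t ^ 3 * ‖KN N (t - t) (ip (X t) (X t))‖ +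
        ∑ t ∈ W, ∑ t' ∈ W.erase t, M t ^ 3 * M t' ^ 3 *
          ‖KN N (t' - t) (ip (X t) (X t'))‖ := by
      rw [← Finset.sum_add_distrib]
      refine Finset.sum_congr rfl fun t ht => ?_
      exact (Finset.add_sum_erase W (fun t' => M t ^ 3 * M t' ^ 3 *
        ‖KN N (t' - t) (ip (X t) (X t'))‖) ht).symm
    rw [h1]
    have h2 : (N : ℝ) ^ 2 * (r * S) ≤ C * ((N : ℝ) ^ 2 * (r * S)) :=
      le_mul_of_one_le_left (by positivity) hC1
    linarith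
  have h1 : S ^ 2 ≤ E * (97 * C * (N : ℝ) ^ 2 * (r * S) +
      C * (N : ℝ) ^ (7 / 4 : ℝ) * (S / lam) ^ 2) :=
    hcs.trans (mul_le_mul_of_nonneg_left hsum hE0)
  -- absorb
  have h2 : E * (C * (N : ℝ) ^ (7 / 4 : ℝ) * (S / lam) ^ 2) ≤ S ^ 2 / 2 := by
    have h5 : 2 * (C * (N : ℝ) ^ (7 / 4 : ℝ) * E) ≤ lam ^ 2 := by
      refine le_trans ?_ hbig
      have h6 : 0 ≤ (N : ℝ) ^ (7 / 4 : ℝ) * E := by positivity
      have h7 : 2 * C ≤ 194 ^ 2 * C ^ 2 := by nlinarith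
      nlinarith
    rw [div_pow]
    have h6 : E * (C * (N : ℝ) ^ (7 / 4 : ℝ) * (S ^ 2 / lam ^ 2)) =
        (C * (N : ℝ) ^ (7 / 4 : ℝ) * E) * S ^ 2 / lam ^ 2 := by ring
    rw [h6, div_le_iff₀ (by positivity)]
    nlinarith [sq_nonneg S]
  have h3 : S ^ 2 ≤ 194 * C * E * (N : ℝ) ^ 2 * (r * S) := by nlinarith
  have h4 : S ≤ (194 * C * E * (N : ℝ) ^ 2) ^ 2 := by
    rcases hS0.eq_or_lt with h | h
    · rw [← h]; positivity
    · have h5 : S ≤ 194 * C * E * (N : ℝ) ^ 2 * r := by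
        have h6 : S * S ≤ S * (194 * C * E * (N : ℝ) ^ 2 * r) := by nlinarith
        exact le_of_mul_le_mul_left h6 h
      have h7 : 0 < r := Real.sqrt_pos.2 h
      have h8 : r ≤ 194 * C * E * (N : ℝ) ^ 2 := by
        rw [← hrr] at h5
        exact le_of_mul_le_mul_right h5 h7
      calc S = r ^ 2 := by rw [sq, hrr]
        _ ≤ _ := pow_le_pow_left₀ hr0 h8 2
  refine h4.trans (le_of_eq ?_)
  ring

end

end Pool.Agent.DW
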