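import Pool.Agent.DW.LargeC

/-!
# Large values of a block: integrated form
-/

open MeasureTheory Metric Complex Filter Topology Real
open scoped ENNReal NNReal RealInnerProductSpace

namespace Pool.Agent.DW

noncomputable section

/-- cells with a large value -/
theorem lc_cells : ∃ C : ℝ, 1 ≤ C ∧ ∀ (N : ℕ) (P : ℕ → S2 → ℂ) (K : ℕ) (tt : ℕ → ℝ) (xx : ℕ → S2)
    (lam : ℝ), 64 ≤ N → (∀ n, Har n (P n)) → 0 < K → (N : ℝ) ^ (3 / 2 : ℝ) ≤ K →
    (K : ℝ) ≤ 2 * (N : ℝ) ^ (3 / 2 : ℝ) →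
    (∀ k < K, (k : ℝ) / K ≤ tt k ∧ tt k ≤ (k + 1 : ℝ) / K) → 0 < lam →
    C * (N : ℝ) ^ (7 / 4 : ℝ) * (∑ n ∈ Finset.Ico N (2 * N), N2 (P n)) ≤ lam ^ 2 →
    ∑ k ∈ (Finset.range K).filter
      (fun k => lam ≤ ‖upw P (Finset.Ico N (2 * N)) (tt k) (xx k)‖),
        ‖upw P (Finset.Ico N (2 * N)) (tt k) (xx k)‖ ^ 4 ≤
      3 * C * (N : ℝ) ^ 4 * (∑ n ∈ Finset.Ico N (2 * N), N2 (P n)) ^ 2 := by
  classical
  obtain ⟨C, hC, h⟩ := strong_val
  refine ⟨C, hC, fun N P K tt xx lam hN hP hK hK1 hK2 htt hlam hl => ?_⟩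
  set E : ℝ := ∑ n ∈ Finset.Ico N (2 * N), N2 (P n) with hE
  set S : Finset ℕ := (Finset.range K).filter
      (fun k => lam ≤ ‖upw P (Finset.Ico N (2 * N)) (tt k) (xx k)‖) with hS
  have hKr : (0 : ℝ) < K := by exact_mod_cast hK
  have hNr : (64 : ℝ) ≤ N := by exact_mod_cast hN
  have hSi : ∀ i : ℕ, ∑ k ∈ S.filter (fun k => k % 3 = i),
      ‖upw P (Finset.Ico N (2 * N)) (tt k) (xx k)‖ ^ 4 ≤ C * (N : ℝ) ^ 4 * E ^ 2 := by
    intro i
    set Si := S.filter (fun k => k % 3 = i) with hSi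
    have hmem : ∀ k ∈ Si, k < K ∧ lam ≤ ‖upw P (Finset.Ico N (2 * N)) (tt k) (xx k)‖ ∧
        k % 3 = i := by
      intro k hk
      rw [hSi, Finset.mem_filter, hS, Finset.mem_filter, Finset.mem_range] at hk
      exact ⟨hk.1.1, hk.1.2, hk.2⟩
    have hsep0 : ∀ k ∈ Si, ∀ l ∈ Si, k < l → (N : ℝ) ^ (-(3 / 2) : ℝ) ≤ tt l - tt k := by
      intro k hk l hl hkl
      obtain ⟨h1, _, h2⟩ := hmem k hk
      obtain ⟨h3, _, h4⟩ := hmem l hl
      have h5 : k + 3 ≤ l := by omega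
      have h6 := (htt k h1).2
      have h7 := (htt l h3).1
      have h8 : ((k : ℝ) + 3) / K ≤ (l : ℝ) / K := by
        apply div_le_div_of_nonneg_right _ hKr.le
        exact_mod_cast h5
      have h9 : (2 : ℝ) / K ≤ tt l - tt k := by
        have : ((k : ℝ) + 3) / K - (k + 1) / K = 2 / K := by ring
        linarith
      refine le_trans ?_ h9
      rw [Real.rpow_neg (by linarith), le_div_iff₀ hKr, ← div_eq_inv_mul]
      rw [div_le_iff₀ (by positivity)]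
      exact hK2
    have hinj : Set.InjOn tt (Si : Set ℕ) := by
      intro k hk l hl hkl
      by_contra hne
      have hpos : (0 : ℝ) < (N : ℝ) ^ (-(3 / 2) : ℝ) := by positivity
      rcases lt_or_gt_of_ne hne with h1 | h1
      · have := hsep0 k hk l hl h1
        rw [hkl] at this; linarith
      · have := hsep0 l hl k hk h1
        rw [hkl] at this; linarith
    set W : Finset ℝ := Si.image tt with hW
    set X : ℝ → S2 := fun t => xx (Function.invFunOn tt (Si : Set ℕ) t) with hX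
    have hXk : ∀ k ∈ Si, X (tt k) = xx k := by
      intro k hk
      have hex : ∃ a ∈ (Si : Set ℕ), tt a = tt k := ⟨k, hk, rfl⟩
      have h1 := Function.invFunOn_mem hex
      have h2 := Function.invFunOn_eq hex
      rw [hX]
      simp only
      rw [hinj h1 hk h2]
    have hfin := h N P W X lam hN hP ?_ ?_ hlam ?_ hl
    · rw [hW, Finset.sum_image hinj] at hfin
      refine le_trans (le_of_eq ?_) hfin
      refine Finset.sum_congr rfl fun k hk => ?_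
      rw [hXk k hk]
    · intro t ht
      rw [hW, Finset.mem_image] at ht
      obtain ⟨k, hk, rfl⟩ := ht
      obtain ⟨h1, _, _⟩ := hmem k hk
      obtain ⟨h2, h3⟩ := htt k h1
      constructor
      · exact le_trans (by positivity) h2
      · refine h3.trans ?_
        rw [div_le_one hKr]
        exact_mod_cast h1
    · intro t ht t' ht' hne
      rw [hW, Finset.mem_image] at ht ht'
      obtain ⟨k, hk, rfl⟩ := ht
      obtain ⟨l, hl, rfl⟩ := ht'
      have hkl : k ≠ l := fun e => hne (by rw [e])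
      rcases lt_or_gt_of_ne hkl with h1 | h1
      · rw [abs_sub_comm]
        exact (hsep0 k hk l hl h1).trans (le_abs_self _)
      · exact (hsep0 l hl k hk h1).trans (le_abs_self _)
    · intro t ht
      rw [hW, Finset.mem_image] at ht
      obtain ⟨k, hk, rfl⟩ := ht
      rw [hXk k hk]
      exact (hmem k hk).2.1
  have hsplit : ∑ k ∈ S, ‖upw P (Finset.Ico N (2 * N)) (tt k) (xx k)‖ ^ 4 =
      ∑ i ∈ Finset.range 3, ∑ k ∈ S.filter (fun k => k % 3 = i),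
        ‖upw P (Finset.Ico N (2 * N)) (tt k) (xx k)‖ ^ 4 := by
    rw [Finset.sum_fiberwise_of_maps_to (g := fun k => k % 3)]
    intro k _
    exact Finset.mem_range.2 (Nat.mod_lt _ (by norm_num))
  rw [hsplit]
  refine (Finset.sum_le_sum fun i _ => hSi i).trans (le_of_eq ?_)
  rw [Finset.sum_const, Finset.card_range]
  simp only [nsmul_eq_mul]
  push_cast
  ring

/-! ### the sup norm -/

/-- the sup norm of a partial sum -/
def Fs (P : ℕ → S2 → ℂ) (s : Finset ℕ) (t : ℝ) : ℝ := ⨆ x : S2, ‖upw P s t x‖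

instance : Nonempty S2 := ⟨⟨EuclideanSpace.single 0 1, by simp⟩⟩

theorem Fs_eq {P : ℕ → S2 → ℂ} (hP : ∀ n, Continuous (P n)) (s : Finset ℕ) (t : ℝ) :
    Fs P s t = ‖(⟨upw P s t, upw_cont hP s t⟩ : C(S2, ℂ))‖ := by
  rw [ContinuousMap.norm_eq_iSup_norm]
  rfl

theorem Fs_le {P : ℕ → S2 → ℂ} (hP : ∀ n, Continuous (P n)) (s : Finset ℕ) (t : ℝ) (x : S2) :
    ‖upw P s t x‖ ≤ Fs P s t := by
  rw [Fs_eq hP]
  exact ContinuousMap.norm_coe_le_norm (⟨upw P s t, upw_cont hP s t⟩ : C(S2, ℂ)) x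

theorem Fs_nonneg (P : ℕ → S2 → ℂ) (s : Finset ℕ) (t : ℝ) : 0 ≤ Fs P s t :=
  Real.iSup_nonneg fun _ => norm_nonneg _

theorem le_Fs {P : ℕ → S2 → ℂ} {s : Finset ℕ} {t B : ℝ} (h : ∀ x, ‖upw P s t x‖ ≤ B) :
    Fs P s t ≤ B := ciSup_le h

theorem Fs_cont {P : ℕ → S2 → ℂ} (hP : ∀ n, Continuous (P n)) (s : Finset ℕ) :
    Continuous (Fs P s) := by
  have h := (ContinuousMap.curry
    (⟨fun p : ℝ × S2 => upw P s p.1 p.2, upw_cont2 hP s⟩ : C(ℝ × S2, ℂ))).continuous.norm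
  refine h.congr fun t => ?_
  rw [Fs_eq hP]
  rfl

/-- the block estimate over `[0, 1]` -/
theorem lc_block1 : ∃ C : ℝ, 1 ≤ C ∧ ∀ (N : ℕ) (P : ℕ → S2 → ℂ) (lam : ℝ), 64 ≤ N →
    (∀ n, Har n (P n)) → 0 < lam →
    C * (N : ℝ) ^ (7 / 4 : ℝ) * (∑ n ∈ Finset.Ico N (2 * N), N2 (P n)) ≤ lam ^ 2 →
    ∫⁻ t in Set.Icc (0 : ℝ) 1, (if lam ≤ Fs P (Finset.Ico N (2 * N)) t then
      ENNReal.ofReal (Fs P (Finset.Ico N (2 * N)) t ^ 4) else 0) ≤
      ENNReal.ofReal (3 * C * (N : ℝ) ^ (5 / 2 : ℝ) *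
        (∑ n ∈ Finset.Ico N (2 * N), N2 (P n)) ^ 2) := by
  classical
  obtain ⟨C, hC, h⟩ := lc_cells
  refine ⟨C, hC, fun N P lam hN hP hlam hl => ?_⟩
  have hNr : (64 : ℝ) ≤ N := by exact_mod_cast hN
  have hN0 : (0 : ℝ) < N := by linarith
  have hPc : ∀ n, Continuous (P n) := fun n => (hP n).cont
  set E : ℝ := ∑ n ∈ Finset.Ico N (2 * N), N2 (P n) with hE
  set w : ℝ → S2 → ℂ := upw P (Finset.Ico N (2 * N)) with hw
  set F : ℝ → ℝ := Fs P (Finset.Ico N (2 * N)) with hF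
  set K : ℕ := ⌈(N : ℝ) ^ (3 / 2 : ℝ)⌉₊ with hK
  have hN32 : (1 : ℝ) ≤ (N : ℝ) ^ (3 / 2 : ℝ) := Real.one_le_rpow (by linarith) (by norm_num)
  have hK1 : (N : ℝ) ^ (3 / 2 : ℝ) ≤ K := Nat.le_ceil _
  have hK2 : (K : ℝ) ≤ 2 * (N : ℝ) ^ (3 / 2 : ℝ) := by
    have := (Nat.ceil_lt_add_one (show 0 ≤ (N : ℝ) ^ (3 / 2 : ℝ) by positivity)).le
    linarith
  have hKr : (0 : ℝ) < K := by linarith
  have hKn : 0 < K := by exact_mod_cast hKr
  have hex : ∀ k : ℕ, ∃ t ∈ Set.Icc ((k : ℝ) / K) ((k + 1 : ℝ) / K), ∃ x : S2,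
      ∀ r ∈ Set.Icc ((k : ℝ) / K) ((k + 1 : ℝ) / K), ∀ y : S2, ‖w r y‖ ≤ ‖w t x‖ := fun k =>
    la_max hPc _ (div_le_div_of_nonneg_right (by linarith) hKr.le)
  choose tt htt xx hmax using hex
  set M : ℕ → ℝ := fun k => ‖w (tt k) (xx k)‖ with hM
  have hsum := h N P K tt xx lam hN hP hKn hK1 hK2 (fun k _ => htt k) hlam hl
  have hcover : Set.Icc (0 : ℝ) 1 ⊆ ⋃ k : Fin K,
      Set.Icc (((k : ℕ) : ℝ) / K) (((k : ℕ) + 1 : ℝ) / K) := by
    intro t ht
    simp only [Set.mem_iUnion, Set.mem_Icc]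
    rcases eq_or_lt_of_le ht.2 with h1 | h1
    · refine ⟨⟨K - 1, by omega⟩, ?_, ?_⟩
      · rw [h1, div_le_one hKr]
        exact_mod_cast Nat.sub_le K 1
      · rw [h1, le_div_iff₀ hKr, one_mul]
        have : ((K - 1 : ℕ) : ℝ) + 1 = K := by
          have : K - 1 + 1 = K := by omega
          exact_mod_cast this
        linarith
    · have h0 : 0 ≤ t * K := mul_nonneg ht.1 hKr.le
      have hlt : ⌊t * K⌋₊ < K := by
        rw [Nat.floor_lt h0]
        nlinarith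
      refine ⟨⟨⌊t * K⌋₊, hlt⟩, ?_, ?_⟩
      · rw [div_le_iff₀ hKr]
        exact Nat.floor_le h0
      · rw [le_div_iff₀ hKr]
        exact (Nat.lt_floor_add_one _).le
  have hcell : ∀ k : ℕ, ∫⁻ t in Set.Icc ((k : ℝ) / K) ((k + 1 : ℝ) / K),
      (if lam ≤ F t then ENNReal.ofReal (F t ^ 4) else 0) ≤
      ENNReal.ofReal ((if lam ≤ M k then M k ^ 4 else 0) / K) := by
    intro k
    have h1 : ∀ t ∈ Set.Icc ((k : ℝ) / K) ((k + 1 : ℝ) / K),
        (if lam ≤ F t then ENNReal.ofReal (F t ^ 4) else 0) ≤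
        ENNReal.ofReal (if lam ≤ M k then M k ^ 4 else 0) := by
      intro t ht
      have h2 : F t ≤ M k := le_Fs fun x => hmax k t ht x
      by_cases h3 : lam ≤ F t
      · rw [if_pos h3, if_pos (h3.trans h2)]
        exact ENNReal.ofReal_le_ofReal (pow_le_pow_left₀ (Fs_nonneg _ _ _) h2 4)
      · rw [if_neg h3]
        exact zero_le
    refine (setLIntegral_mono measurable_const h1).trans (le_of_eq ?_)
    rw [setLIntegral_const, Real.volume_Icc, ← ENNReal.ofReal_mul (by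
      split_ifs
      · positivity
      · exact le_refl _)]
    congr 1
    have : (k + 1 : ℝ) / K - k / K = 1 / K := by ring
    rw [this]
    ring
  calc ∫⁻ t in Set.Icc (0 : ℝ) 1, (if lam ≤ F t then ENNReal.ofReal (F t ^ 4) else 0)
      ≤ ∫⁻ t in ⋃ k : Fin K, Set.Icc (((k : ℕ) : ℝ) / K) (((k : ℕ) + 1 : ℝ) / K),
          (if lam ≤ F t then ENNReal.ofReal (F t ^ 4) else 0) := lintegral_mono_set hcover
    _ ≤ ∑' k : Fin K, ∫⁻ t in Set.Icc (((k : ℕ) : ℝ) / K) (((k : ℕ) + 1 : ℝ) / K),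
          (if lam ≤ F t then ENNReal.ofReal (F t ^ 4) else 0) := lintegral_iUnion_le _ _
    _ = ∑ k ∈ Finset.range K, ∫⁻ t in Set.Icc ((k : ℝ) / K) ((k + 1 : ℝ) / K),
          (if lam ≤ F t then ENNReal.ofReal (F t ^ 4) else 0) := by
        rw [tsum_fintype]
        exact Fin.sum_univ_eq_sum_range (fun k => ∫⁻ t in Set.Icc ((k : ℝ) / K)
          ((k + 1 : ℝ) / K), (if lam ≤ F t then ENNReal.ofReal (F t ^ 4) else 0)) K
    _ ≤ ∑ k ∈ Finset.range K, ENNReal.ofReal ((if lam ≤ M k then M k ^ 4 else 0) / K) :=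
        Finset.sum_le_sum fun k _ => hcell k
    _ = ENNReal.ofReal ((∑ k ∈ (Finset.range K).filter (fun k => lam ≤ M k), M k ^ 4) / K) := by
        rw [← ENNReal.ofReal_sum_of_nonneg (fun k _ => by split_ifs <;> positivity),
          ← Finset.sum_div, Finset.sum_filter]
    _ ≤ _ := by
        refine ENNReal.ofReal_le_ofReal ?_
        rw [div_le_iff₀ hKr]
        refine hsum.trans ?_
        have h1 : (N : ℝ) ^ 4 = (N : ℝ) ^ (5 / 2 : ℝ) * (N : ℝ) ^ (3 / 2 : ℝ) := by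
          rw [← Real.rpow_add hN0, ← Real.rpow_natCast]
          norm_num
        rw [h1]
        have h2 : 0 ≤ 3 * C * (N : ℝ) ^ (5 / 2 : ℝ) * E ^ 2 := by positivity
        calc 3 * C * ((N : ℝ) ^ (5 / 2 : ℝ) * (N : ℝ) ^ (3 / 2 : ℝ)) * E ^ 2
            = 3 * C * (N : ℝ) ^ (5 / 2 : ℝ) * E ^ 2 * (N : ℝ) ^ (3 / 2 : ℝ) := by ring
          _ ≤ _ := mul_le_mul_of_nonneg_left hK1 h2

end

end Pool.Agent.DW
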