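import Pool.Agent.DW.Kernel
import Pool.Agent.DW.Count

/-!
# Module H, part A: geometry (measure of the focusing sets)
-/

open MeasureTheory Metric Complex Filter Topology Real
open scoped ENNReal NNReal RealInnerProductSpace Pointwise

namespace Pool.Agent.DW

noncomputable section

/-- rotated orthonormal vectors -/
def loV (β : ℝ) : Fin 3 → E3 :=
  ![!₂[Real.cos β, -Real.sin β, 0], !₂[Real.sin β, Real.cos β, 0], !₂[(0 : ℝ), 0, 1]]

theorem lo_orth (β : ℝ) : Orthonormal ℝ (loV β) := by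
  have h := Real.sin_sq_add_cos_sq β
  rw [orthonormal_iff_ite]
  intro i j
  fin_cases i <;> fin_cases j <;>
    simp only [loV, PiLp.inner_apply, Fin.sum_univ_three, RCLike.inner_apply, conj_trivial] <;>
    simp <;> nlinarith

def loB (β : ℝ) : OrthonormalBasis (Fin 3) ℝ E3 :=
  OrthonormalBasis.mk (lo_orth β) (by
    rw [(lo_orth β).linearIndependent.span_eq_top_of_card_eq_finrank' (by simp)])

theorem loB_repr (β : ℝ) (y : E3) :
    (loB β).repr y 0 = y 0 * Real.cos β - y 1 * Real.sin β ∧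
    (loB β).repr y 1 = y 0 * Real.sin β + y 1 * Real.cos β ∧
    (loB β).repr y 2 = y 2 := by
  refine ⟨?_, ?_, ?_⟩ <;> rw [OrthonormalBasis.repr_apply_apply] <;>
    simp [loB, loV, PiLp.inner_apply, Fin.sum_univ_three] <;> ring

/-- the box in rotated coordinates -/
def loBox (β h e : ℝ) : Set E3 :=
  {y | (loB β).repr y 0 ∈ Set.Icc (1 / 2 : ℝ) (3 / 4) ∧ (loB β).repr y 1 ∈ Set.Icc (-h) h ∧
    (loB β).repr y 2 ∈ Set.Icc (-e) e}

theorem loBox_volume (β h e : ℝ) (hh : 0 ≤ h) (he : 0 ≤ e) :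
    volume (loBox β h e) = ENNReal.ofReal (h * e) := by
  have h1 : loBox β h e = (fun y => WithLp.ofLp ((loB β).repr y)) ⁻¹'
      (Set.pi Set.univ (fun i => Set.Icc ((![1 / 2, -h, -e] : Fin 3 → ℝ) i)
        ((![3 / 4, h, e] : Fin 3 → ℝ) i))) := by
    ext y
    simp only [loBox, Set.mem_ofPred_eq, Set.mem_preimage, Set.mem_pi, Set.mem_univ, true_implies,
      Fin.forall_fin_succ]
    simp
  rw [h1]
  have h2 : MeasurePreserving (fun y => WithLp.ofLp ((loB β).repr y)) (volume : Measure E3)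
      (volume : Measure (Fin 3 → ℝ)) :=
    (PiLp.volume_preserving_ofLp (Fin 3)).comp (loB β).measurePreserving_repr
  rw [h2.measure_preimage (MeasurableSet.univ_pi (fun i => measurableSet_Icc)).nullMeasurableSet,
    volume_pi_pi]
  simp only [Real.volume_Icc, Fin.prod_univ_three]
  simp
  rw [← ENNReal.ofReal_mul (by norm_num), ← ENNReal.ofReal_mul (by positivity)]
  congr 1
  ring

/-- the focusing set -/
def loE (β e δ : ℝ) : Set S2 :=
  {x | |(x : E3) 2| ≤ e} ∩ {x | ‖hw x * cexp (I * β) - 1‖ ≤ δ}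

theorem loE_meas (β e δ : ℝ) : MeasurableSet (loE β e δ) := by
  apply IsClosed.measurableSet
  have := hw_cont
  apply IsClosed.inter
  · exact isClosed_le (f := fun x : S2 => |(x : E3) 2|) (by fun_prop) continuous_const
  · exact isClosed_le (f := fun x : S2 => ‖hw x * cexp (I * β) - 1‖) (by fun_prop)
      continuous_const

theorem loBox_sub {β h e δ : ℝ} (hh' : h ≤ 1 / 8) (he' : e ≤ 1 / 8)
    (hδ : 2 * (h ^ 2 + e ^ 2) + 2 * h ≤ δ) :
    loBox β h e ⊆ Set.Ioo (0 : ℝ) 1 • (((↑) : S2 → E3) '' loE β (2 * e) δ) := by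
  intro y hy
  obtain ⟨h0, h1, h2⟩ := hy
  obtain ⟨r0, r1, r2⟩ := loB_repr β y
  set a := (loB β).repr y 0 with ha
  set b := (loB β).repr y 1 with hb
  set c := (loB β).repr y 2 with hc
  have hn : ‖y‖ ^ 2 = a ^ 2 + b ^ 2 + c ^ 2 := by
    rw [← (loB β).repr.norm_map y, EuclideanSpace.norm_sq_eq, Fin.sum_univ_three]
    simp [ha, hb, hc]
  have hb1 : |b| ≤ h := abs_le.2 h1
  have hc1 : |c| ≤ e := abs_le.2 h2
  have hb2 : b ^ 2 ≤ h ^ 2 := by
    rw [← sq_abs b]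
    exact pow_le_pow_left₀ (abs_nonneg _) hb1 2
  have hc2 : c ^ 2 ≤ e ^ 2 := by
    rw [← sq_abs c]
    exact pow_le_pow_left₀ (abs_nonneg _) hc1 2
  have hh0 : 0 ≤ h := (abs_nonneg _).trans hb1
  have he0 : 0 ≤ e := (abs_nonneg _).trans hc1
  have ha1 : 1 / 2 ≤ a := h0.1
  have ha2 : a ≤ 3 / 4 := h0.2
  have hn0 : 0 ≤ ‖y‖ := norm_nonneg y
  have han : a ≤ ‖y‖ := by
    apply le_of_sq_le_sq _ hn0
    nlinarith [sq_nonneg b, sq_nonneg c]
  have hn1 : ‖y‖ < 1 := by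
    by_contra hcon
    push Not at hcon
    nlinarith
  have hnp : 0 < ‖y‖ := by linarith
  have hnz : ‖y‖ ≠ 0 := hnp.ne'
  have hdiff : ‖y‖ - a ≤ h ^ 2 + e ^ 2 := by
    have : (‖y‖ - a) * (‖y‖ + a) = b ^ 2 + c ^ 2 := by nlinarith
    nlinarith
  have hx : ‖‖y‖⁻¹ • y‖ = 1 := by
    rw [norm_smul, norm_inv, norm_norm, inv_mul_cancel₀ hnz]
  let x : S2 := ⟨‖y‖⁻¹ • y, by simp [hx]⟩
  refine Set.mem_smul.2 ⟨‖y‖, ⟨hnp, hn1⟩, (x : E3), ⟨x, ⟨?_, ?_⟩, rfl⟩, ?_⟩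
  · show |(‖y‖⁻¹ • y) 2| ≤ 2 * e
    rw [PiLp.smul_apply, smul_eq_mul, ← r2, abs_mul, abs_inv, abs_norm, inv_mul_le_iff₀ hnp]
    nlinarith
  · show ‖hw x * cexp (I * β) - 1‖ ≤ δ
    have e1 : hw x * cexp (I * β) - 1 = (((a - ‖y‖) / ‖y‖ : ℝ) : ℂ) + ((b / ‖y‖ : ℝ) : ℂ) * I := by
      have e2 : cexp (I * β) = (Real.cos β : ℂ) + (Real.sin β : ℂ) * I := by
        rw [mul_comm, Complex.exp_mul_I]
        push_cast
        rfl
      have e3 : hw x = ((‖y‖⁻¹ * y 0 : ℝ) : ℂ) + I * ((‖y‖⁻¹ * y 1 : ℝ) : ℂ) := rfl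
      have hnc : ((‖y‖ : ℝ) : ℂ) ≠ 0 := by exact_mod_cast hnz
      rw [e2, e3, r0, r1]
      push_cast
      field_simp
      ring_nf
      rw [Complex.I_sq]
      ring
    rw [e1]
    refine (norm_add_le _ _).trans ?_
    rw [norm_mul, Complex.norm_I, mul_one, Complex.norm_real, Complex.norm_real, Real.norm_eq_abs,
      Real.norm_eq_abs, abs_div, abs_div, abs_norm, ← add_div, div_le_iff₀ hnp]
    have : |a - ‖y‖| = ‖y‖ - a := by
      rw [abs_sub_comm, abs_of_nonneg]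
      linarith
    rw [this]
    have h5 : 2 * (h ^ 2 + e ^ 2) + 2 * h ≥ 0 := by positivity
    nlinarith
  · show ‖y‖ • ‖y‖⁻¹ • y = y
    rw [smul_smul, mul_inv_cancel₀ hnz, one_smul]

theorem loE_measure {β h e δ : ℝ} (hh0 : 0 ≤ h) (hh' : h ≤ 1 / 8) (he0 : 0 ≤ e) (he' : e ≤ 1 / 8)
    (hδ : 2 * (h ^ 2 + e ^ 2) + 2 * h ≤ δ) :
    ENNReal.ofReal (h * e) ≤ σ (loE β (2 * e) δ) := by
  have h1 := loBox_volume β h e hh0 he0
  have h2 := measure_mono (μ := (volume : Measure E3)) (loBox_sub (β := β) hh' he' hδ)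
  unfold σ
  rw [Measure.toSphere_apply' _ (loE_meas _ _ _), ← h1]
  refine h2.trans ?_
  have h3 : (1 : ℝ≥0∞) ≤ (Module.finrank ℝ E3 : ℝ≥0∞) := by
    simp
  calc _ = 1 * volume (Set.Ioo (0 : ℝ) 1 • (((↑) : S2 → E3) '' loE β (2 * e) δ)) := (one_mul _).symm
    _ ≤ _ := by gcongr

end

end Pool.Agent.DW
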