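import Pool.Agent.DW.LowA

/-!
# Module H, part B: the flow of a sum of highest weight harmonics
-/

open MeasureTheory Metric Complex Filter Topology Real
open scoped ENNReal NNReal RealInnerProductSpace

namespace Pool.Agent.DW

noncomputable section

/-- initial datum -/
def loF (N K : ℕ) (x : S2) : ℂ := ∑ k ∈ Finset.range K, hw x ^ (N + k)

/-- its flow -/
def loU (N K : ℕ) (t : ℝ) (x : S2) : ℂ :=
  ∑ k ∈ Finset.range K, cexp (I * t * Lam (N + k)) * hw x ^ (N + k)

theorem loF_cont (N K : ℕ) : Continuous (loF N K) := by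
  have := hw_cont
  unfold loF
  fun_prop

theorem loU_cont (N K : ℕ) (t : ℝ) : Continuous (loU N K t) := by
  have := hw_cont
  unfold loU
  fun_prop

theorem lo_proj (N K n : ℕ) (x : S2) :
    proj n (loF N K) x = if n ∈ Finset.Ico N (N + K) then hw x ^ n else 0 := by
  have hc := hw_cont
  have hZ : Continuous (fun y => ((Z n (ip x y) : ℝ) : ℂ)) := by
    have h := Z_ip_cont n
    have h2 : Continuous (fun y : S2 => Z n (ip x y)) :=
      h.comp (Continuous.prodMk continuous_const continuous_id)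
    exact Complex.continuous_ofReal.comp h2
  have h1 : proj n (loF N K) x = ∑ k ∈ Finset.range K, proj n (fun y => hw y ^ (N + k)) x := by
    unfold proj loF
    rw [← integral_finsetSum]
    · congr 1
      ext y
      rw [Finset.mul_sum]
    · intro k _
      apply integrable_of_cont
      fun_prop
  rw [h1]
  simp_rw [proj_hw]
  by_cases hn : n ∈ Finset.Ico N (N + K)
  · rw [if_pos hn]
    rw [Finset.mem_Ico] at hn
    rw [Finset.sum_eq_single (n - N)]
    · rw [if_pos (by omega)]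
    · intro k _ hk
      rw [if_neg (by omega)]
    · intro h
      exfalso
      apply h
      rw [Finset.mem_range]
      omega
  · rw [if_neg hn]
    apply Finset.sum_eq_zero
    intro k hk
    rw [Finset.mem_Ico] at hn
    rw [Finset.mem_range] at hk
    rw [if_neg (by omega)]

theorem lo_flow (N K : ℕ) : IsFlow (loF N K) (loU N K) := by
  intro t
  refine ⟨(loU_cont N K t).aestronglyMeasurable, ?_⟩
  refine tendsto_const_nhds.congr' ?_
  filter_upwards [eventually_ge_atTop (N + K)] with M hM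
  have h1 : (fun x => loU N K t x - ∑ n ∈ Finset.range M, cexp (I * t * Lam n) * proj n (loF N K) x)
      = fun _ => 0 := by
    ext x
    rw [sub_eq_zero]
    have h2 : ∑ n ∈ Finset.range M, cexp (I * t * Lam n) * proj n (loF N K) x
        = ∑ n ∈ Finset.Ico N (N + K), cexp (I * t * Lam n) * hw x ^ n := by
      symm
      rw [← Finset.sum_subset (s₁ := Finset.Ico N (N + K)) (s₂ := Finset.range M)]
      · apply Finset.sum_congr rfl
        intro n hn
        rw [lo_proj, if_pos hn]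
      · intro n hn
        rw [Finset.mem_Ico] at hn
        rw [Finset.mem_range]
        omega
      · intro n _ hn
        rw [lo_proj, if_neg hn, mul_zero]
    rw [h2, Finset.sum_Ico_eq_sum_range, Nat.add_sub_cancel_left]
    rfl
  rw [h1]
  simp

theorem hw_norm_sq (x : S2) : ‖hw x‖ ^ 2 = 1 - (x : E3) 2 ^ 2 := by
  have h1 : ‖(x : E3)‖ ^ 2 = 1 := by simp
  rw [EuclideanSpace.norm_sq_eq, Fin.sum_univ_three] at h1
  simp only [Real.norm_eq_abs, sq_abs] at h1
  have h2 : ‖hw x‖ ^ 2 = (x : E3) 0 ^ 2 + (x : E3) 1 ^ 2 := by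
    rw [← Complex.normSq_eq_norm_sq, Complex.normSq_apply]
    simp [hw]
    ring
  linarith

theorem hw_norm_le (x : S2) : ‖hw x‖ ≤ 1 := by
  have h := hw_norm_sq x
  have h2 : ‖hw x‖ ^ 2 ≤ 1 ^ 2 := by nlinarith [sq_nonneg ((x : E3) 2)]
  exact le_of_sq_le_sq h2 zero_le_one

theorem lo_pow_sub_one {w : ℂ} (hw1 : ‖w‖ ≤ 1) (k : ℕ) : ‖w ^ k - 1‖ ≤ k * ‖w - 1‖ := by
  induction k with
  | zero => simp
  | succ k ih =>
    have h1 : w ^ (k + 1) - 1 = (w ^ k - 1) * w + (w - 1) := by ring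
    rw [h1]
    refine (norm_add_le _ _).trans ?_
    rw [norm_mul]
    have h2 : ‖w ^ k - 1‖ * ‖w‖ ≤ ‖w ^ k - 1‖ * 1 := by gcongr
    push_cast
    linarith

/-- deviation of the phases from an arithmetic progression -/
def loD (N k : ℕ) : ℝ := Lam (N + k) - Lam N - k * (Lam (N + 1) - Lam N)

theorem loD_bound {N : ℕ} (hN : 2 ≤ N) {k : ℕ} (hk : k ≤ N) :
    0 ≤ loD N k ∧ loD N k ≤ k ^ 2 / √N := by
  have hs : 0 < √(N : ℝ) := Real.sqrt_pos.2 (by positivity)
  induction k with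
  | zero => simp [loD]
  | succ k ih =>
    obtain ⟨h1, h2⟩ := ih (by omega)
    obtain ⟨h3, h4⟩ := la_sub2 (N := N) (a := N) (b := N + k) (h := 1) hN le_rfl (by omega)
      (by omega)
    have e1 : loD N (k + 1) = loD N k + ((Lam (N + k + 1) - Lam (N + k)) - (Lam (N + 1) - Lam N)) := by
      unfold loD
      push_cast
      rw [← add_assoc]
      ring
    have e2 : (((N + k : ℕ) : ℝ) - N) = k := by push_cast; ring
    rw [e2] at h3 h4
    rw [e1]
    push_cast at h3 h4 ⊢
    constructor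
    · have : 0 ≤ 1 / 5 / √(N : ℝ) * (1 * (k : ℝ)) := by positivity
      linarith
    · have e3 : ((k : ℝ) + 1) ^ 2 / √N = k ^ 2 / √N + (1 / √N * (1 * k)) + (k + 1) / √N := by
        field_simp
      rw [e3]
      have : 0 ≤ ((k : ℝ) + 1) / √N := by positivity
      linarith

theorem lo_factor (N K : ℕ) (t : ℝ) (x : S2) :
    loU N K t x = cexp (I * t * Lam N) * hw x ^ N *
      ∑ k ∈ Finset.range K, cexp (I * ((t * loD N k : ℝ) : ℂ)) *
        (hw x * cexp (I * ((t * (Lam (N + 1) - Lam N) : ℝ) : ℂ))) ^ k := by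
  unfold loU
  rw [Finset.mul_sum]
  apply Finset.sum_congr rfl
  intro k _
  rw [mul_pow, ← Complex.exp_nat_mul, pow_add]
  have h1 : cexp (I * t * Lam (N + k)) = cexp (I * t * Lam N) *
      (cexp (I * ((t * loD N k : ℝ) : ℂ)) *
        cexp (k * (I * ((t * (Lam (N + 1) - Lam N) : ℝ) : ℂ)))) := by
    rw [← Complex.exp_add, ← Complex.exp_add]
    congr 1
    unfold loD
    push_cast
    ring
  rw [h1]
  ring

/-- lower bound on the focusing set -/
theorem lo_lower {m K : ℕ} (hK : 1 ≤ K) (hm : K ≤ 2 * m) (hm1 : 1 ≤ m)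
    (hphase : ∀ k < K, loD (2 * m) k ≤ 1 / 4) {t : ℝ} (ht0 : 0 ≤ t) (ht1 : t ≤ 1)
    {x : S2} (hx : x ∈ loE (t * (Lam (2 * m + 1) - Lam (2 * m))) (1 / √((2 * m : ℕ) : ℝ))
      (1 / (4 * K))) : (K : ℝ) / 4 ≤ ‖loU (2 * m) K t x‖ := by
  have hK0 : (0 : ℝ) < K := by exact_mod_cast hK
  have hm0 : (0 : ℝ) < m := by exact_mod_cast hm1
  obtain ⟨hx1, hx2⟩ := hx
  simp only [Set.mem_ofPred_eq] at hx1 hx2
  rw [lo_factor]
  rw [norm_mul, norm_mul]
  have e1 : ‖cexp (I * t * Lam (2 * m : ℕ))‖ = 1 := by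
    have : I * t * Lam (2 * m : ℕ) = ((t * Lam (2 * m : ℕ) : ℝ) : ℂ) * I := by
      push_cast
      ring
    rw [this, Complex.norm_exp_ofReal_mul_I]
  rw [e1, one_mul]
  -- the prefactor
  have e2 : 1 / 2 ≤ ‖hw x ^ (2 * m)‖ := by
    rw [norm_pow, pow_mul, hw_norm_sq]
    have h1 : (x : E3) 2 ^ 2 ≤ 1 / (2 * m) := by
      have h2 : |(x : E3) 2| ^ 2 ≤ (1 / √((2 * m : ℕ) : ℝ)) ^ 2 :=
        pow_le_pow_left₀ (abs_nonneg _) hx1 2
      rw [sq_abs, div_pow, Real.sq_sqrt (by positivity), one_pow] at h2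
      push_cast at h2
      exact h2
    have h3 : -2 ≤ -((x : E3) 2 ^ 2) := by
      have : 1 / (2 * (m : ℝ)) ≤ 1 := by
        rw [div_le_one (by positivity)]
        have : (1 : ℝ) ≤ m := by exact_mod_cast hm1
        linarith
      linarith
    have h4 := one_add_mul_le_pow h3 m
    have h5 : (m : ℝ) * (x : E3) 2 ^ 2 ≤ 1 / 2 := by
      calc (m : ℝ) * (x : E3) 2 ^ 2 ≤ m * (1 / (2 * m)) := by gcongr
        _ = 1 / 2 := by field_simp
    have h6 : (1 - (x : E3) 2 ^ 2) ^ m = (1 + -((x : E3) 2 ^ 2)) ^ m := by ring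
    rw [h6]
    refine le_trans ?_ h4
    linarith
  -- the sum
  set w : ℂ := hw x * cexp (I * ((t * (Lam (2 * m + 1) - Lam (2 * m)) : ℝ) : ℂ)) with hwdef
  have hw1 : ‖w‖ ≤ 1 := by
    rw [hwdef, norm_mul]
    have : ‖cexp (I * ((t * (Lam (2 * m + 1) - Lam (2 * m)) : ℝ) : ℂ))‖ = 1 := by
      rw [mul_comm, Complex.norm_exp_ofReal_mul_I]
    rw [this, mul_one]
    exact hw_norm_le x
  have e3 : (K : ℝ) / 2 ≤ ‖∑ k ∈ Finset.range K, cexp (I * ((t * loD (2 * m) k : ℝ) : ℂ)) * w ^ k‖ := by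
    refine le_trans ?_ (Complex.re_le_norm _)
    rw [Complex.re_sum]
    have h1 : ∀ k ∈ Finset.range K, (1 : ℝ) / 2 ≤
        (cexp (I * ((t * loD (2 * m) k : ℝ) : ℂ)) * w ^ k).re := by
      intro k hk
      rw [Finset.mem_range] at hk
      have h2 : ‖cexp (I * ((t * loD (2 * m) k : ℝ) : ℂ)) * w ^ k - 1‖ ≤ 1 / 2 := by
        have h3 : cexp (I * ((t * loD (2 * m) k : ℝ) : ℂ)) * w ^ k - 1 =
            (cexp (I * ((t * loD (2 * m) k : ℝ) : ℂ)) - 1) * w ^ k + (w ^ k - 1) := by ring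
        rw [h3]
        refine (norm_add_le _ _).trans ?_
        rw [norm_mul]
        have h4 : ‖cexp (I * ((t * loD (2 * m) k : ℝ) : ℂ)) - 1‖ ≤ 1 / 4 := by
          refine Real.norm_exp_I_mul_ofReal_sub_one_le.trans ?_
          have h5 := (loD_bound (N := 2 * m) (by omega) (k := k) (by omega)).1
          rw [Real.norm_eq_abs, abs_of_nonneg (mul_nonneg ht0 h5)]
          have h6 := hphase k hk
          calc t * loD (2 * m) k ≤ 1 * loD (2 * m) k := by gcongr
            _ ≤ 1 / 4 := by linarith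
        have h7 : ‖w ^ k‖ ≤ 1 := by
          rw [norm_pow]
          exact pow_le_one₀ (norm_nonneg _) hw1
        have h8 : ‖w ^ k - 1‖ ≤ 1 / 4 := by
          refine (lo_pow_sub_one hw1 k).trans ?_
          calc (k : ℝ) * ‖w - 1‖ ≤ K * (1 / (4 * K)) := by
                gcongr
            _ = 1 / 4 := by field_simp
        calc ‖cexp (I * ((t * loD (2 * m) k : ℝ) : ℂ)) - 1‖ * ‖w ^ k‖ + ‖w ^ k - 1‖
            ≤ 1 / 4 * 1 + 1 / 4 := by gcongr
          _ = 1 / 2 := by norm_num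
      have h9 := (Complex.abs_re_le_norm _).trans h2
      rw [Complex.sub_re, Complex.one_re, abs_le] at h9
      linarith [h9.1]
    have h10 := Finset.sum_le_sum h1
    rw [Finset.sum_const, Finset.card_range, nsmul_eq_mul] at h10
    linarith
  have e4 : (1 : ℝ) / 2 * (K / 2) ≤ ‖hw x ^ (2 * m)‖ *
      ‖∑ k ∈ Finset.range K, cexp (I * ((t * loD (2 * m) k : ℝ) : ℂ)) * w ^ k‖ := by
    gcongr
  linarith

/-- lower bound of the `L^q` norm at fixed time -/
theorem lo_eLp {K : ℕ} (hK : 1 ≤ K) {t : ℝ} (ht0 : 0 ≤ t) (ht1 : t ≤ 1) {q : ℝ≥0∞} (hq : q ≠ 0) :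
    ENNReal.ofReal (K / 4) * ENNReal.ofReal (1 / (128 * K ^ 3)) ^ (1 / q.toReal) ≤
      eLpNorm (loU (2 * (8 * K ^ 4)) K t) q σ := by
  have hK0 : (0 : ℝ) < K := by exact_mod_cast hK
  have hK1 : (1 : ℝ) ≤ K := by exact_mod_cast hK
  have hsq : √((2 * (8 * K ^ 4) : ℕ) : ℝ) = 4 * K ^ 2 := by
    rw [show ((2 * (8 * K ^ 4) : ℕ) : ℝ) = (4 * K ^ 2) ^ 2 by push_cast; ring]
    exact Real.sqrt_sq (by positivity)
  have hK4 : K ≤ K ^ 4 := Nat.le_self_pow (by norm_num) K
  set β := t * (Lam (2 * (8 * K ^ 4) + 1) - Lam (2 * (8 * K ^ 4))) with hβ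
  have hE := loE_measure (β := β) (h := 1 / (16 * K)) (e := 1 / (8 * K ^ 2)) (δ := 1 / (4 * K))
    (by positivity)
    (by
      rw [div_le_div_iff₀ (by positivity) (by norm_num)]
      linarith)
    (by positivity)
    (by
      rw [div_le_div_iff₀ (by positivity) (by norm_num)]
      nlinarith)
    (by
      have h1 : (1 / (16 * (K : ℝ))) ^ 2 ≤ 1 / (256 * K) := by
        rw [div_pow, one_pow, div_le_div_iff₀ (by positivity) (by positivity)]
        nlinarith
      have h2 : (1 / (8 * (K : ℝ) ^ 2)) ^ 2 ≤ 1 / (64 * K) := by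
        rw [div_pow, one_pow, div_le_div_iff₀ (by positivity) (by positivity)]
        have : (K : ℝ) ≤ K ^ 4 := by exact_mod_cast hK4
        nlinarith
      have h3 : 2 * (1 / (256 * (K : ℝ)) + 1 / (64 * K)) + 2 * (1 / (16 * K)) ≤ 1 / (4 * K) := by
        have h4 : 2 * (1 / (256 * (K : ℝ)) + 1 / (64 * K)) + 2 * (1 / (16 * K)) = (21 / 128) / K := by
          field_simp
          norm_num
        have h5 : 1 / (4 * (K : ℝ)) = (1 / 4) / K := by field_simp
        rw [h4, h5]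
        exact div_le_div_of_nonneg_right (by norm_num) hK0.le
      linarith)
  have hE2 : (1 / (16 * (K : ℝ))) * (1 / (8 * K ^ 2)) = 1 / (128 * K ^ 3) := by
    field_simp
    norm_num
  have hE3 : 2 * (1 / (8 * (K : ℝ) ^ 2)) = 1 / √((2 * (8 * K ^ 4) : ℕ) : ℝ) := by
    rw [hsq]
    field_simp
    norm_num
  rw [hE2, hE3] at hE
  set E := loE β (1 / √((2 * (8 * K ^ 4) : ℕ) : ℝ)) (1 / (4 * K)) with hEdef
  have hμ : σ E ≠ 0 := by
    intro h0
    rw [h0, nonpos_iff_eq_zero, ENNReal.ofReal_eq_zero] at hE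
    have : 0 < 1 / (128 * (K : ℝ) ^ 3) := by positivity
    linarith
  have h1 : eLpNorm (E.indicator (fun _ => ((K : ℝ) / 4))) q σ ≤
      eLpNorm (loU (2 * (8 * K ^ 4)) K t) q σ := by
    apply eLpNorm_mono
    intro x
    by_cases hx : x ∈ E
    · rw [Set.indicator_of_mem hx, Real.norm_eq_abs, abs_of_nonneg (by positivity)]
      apply lo_lower hK (by omega) (by have : 0 < K ^ 4 := by positivity
                                       omega) _ ht0 ht1 hx
      intro k hk
      refine (loD_bound (by have : 0 < K ^ 4 := by positivity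
                            omega) (by omega)).2.trans ?_
      rw [hsq, div_le_div_iff₀ (by positivity) (by norm_num)]
      have : (k : ℝ) ≤ K := by exact_mod_cast hk.le
      nlinarith [Nat.cast_nonneg (α := ℝ) k]
    · rw [Set.indicator_of_notMem hx, norm_zero]
      exact norm_nonneg _
  refine le_trans ?_ h1
  rw [eLpNorm_indicator_const' (loE_meas _ _ _) hμ hq, Real.enorm_eq_ofReal (by positivity)]
  gcongr

end

end Pool.Agent.DW
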