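import Pool.Agent.DW.Kernel
import Pool.Agent.DW.LowB

/-!
# Module H: the lower bound
-/

open MeasureTheory Metric Complex Filter Topology Real
open scoped ENNReal NNReal RealInnerProductSpace Manifold ContDiff

namespace Pool.Agent.DW

noncomputable section

theorem lo_eLp2 {w : S2 → ℂ} (hw : Continuous w) : eLpNorm w 2 σ ^ 2 = ENNReal.ofReal (N2 w) := by
  rw [eLpNorm_eq_lintegral_rpow_enorm_toReal (by norm_num) (by norm_num)]
  have h1 : (∫⁻ x, ‖w x‖ₑ ^ (2 : ℝ≥0∞).toReal ∂σ) = ENNReal.ofReal (N2 w) := by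
    unfold N2
    have h2 : Integrable (fun x => ‖w x‖ ^ 2) σ := integrable_of_cont_real (hw.norm.pow 2)
    rw [ofReal_integral_eq_lintegral_ofReal h2 (Eventually.of_forall fun x => by positivity)]
    apply lintegral_congr
    intro x
    rw [ENNReal.toReal_ofNat, ENNReal.rpow_two, ← ofReal_norm,
      ENNReal.ofReal_pow (norm_nonneg _)]
  rw [h1, ← ENNReal.rpow_two, ← ENNReal.rpow_mul]
  norm_num

theorem loF_smooth (N K : ℕ) : ContMDiff (𝓡 2) 𝓘(ℝ, ℂ) ∞ (loF N K) := by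
  have : Fact (Module.finrank ℝ E3 = 2 + 1) := ⟨by simp⟩
  have h0 : ∀ i : Fin 3, ContDiff ℝ ∞ (fun y : E3 => ((y i : ℝ) : ℂ)) := by
    intro i
    exact Complex.ofRealCLM.contDiff.comp (EuclideanSpace.proj i : E3 →L[ℝ] ℝ).contDiff
  have h1 : ContDiff ℝ ∞ (fun y : E3 => ∑ k ∈ Finset.range K,
      (((y 0 : ℝ) : ℂ) + I * ((y 1 : ℝ) : ℂ)) ^ (N + k)) := by
    apply ContDiff.sum
    intro k _
    exact ((h0 0).add (contDiff_const.mul (h0 1))).pow _
  exact h1.contMDiff.comp (contMDiff_coe_sphere (n := 2))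

/-- upper bound for the Sobolev norm of the datum -/
theorem lo_Hs (s : ℝ) {K : ℕ} (hK : 1 ≤ K) :
    Hs s (loF (2 * (8 * K ^ 4)) K) ≤
      ENNReal.ofReal (3 ^ (2 * |s|) * 16 ^ (2 * s) * π * (K : ℝ) ^ (8 * s - 1)) ^ (1 / 2 : ℝ) := by
  have hK0 : (0 : ℝ) < K := by exact_mod_cast hK
  have hKN : 1 ≤ K ^ 4 := Nat.one_le_pow _ _ hK
  have hK4 : K ≤ K ^ 4 := Nat.le_self_pow (by norm_num) K
  set N := 2 * (8 * K ^ 4) with hN
  have hNr : (N : ℝ) = 16 * (K : ℝ) ^ (4 : ℝ) := by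
    rw [hN, show (4 : ℝ) = ((4 : ℕ) : ℝ) by norm_num, Real.rpow_natCast]
    push_cast
    ring
  have hN0 : (0 : ℝ) < N := by rw [hNr]; positivity
  have hsq : √(N : ℝ) = 4 * K ^ 2 := by
    rw [show (N : ℝ) = (4 * K ^ 2) ^ 2 by rw [hN]; push_cast; ring]
    exact Real.sqrt_sq (by positivity)
  unfold Hs
  apply ENNReal.rpow_le_rpow _ (by norm_num)
  rw [tsum_eq_sum (s := Finset.Ico N (N + K))]
  · have h1 : ∀ n ∈ Finset.Ico N (N + K), ENNReal.ofReal ((1 + n : ℝ) ^ (2 * s)) *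
        eLpNorm (proj n (loF N K)) 2 σ ^ 2 ≤
        ENNReal.ofReal (3 ^ (2 * |s|) * (N : ℝ) ^ (2 * s) * (4 * π / √N)) := by
      intro n hn
      have hn' := hn
      rw [Finset.mem_Ico] at hn'
      have hnN : (N : ℝ) ≤ n := by exact_mod_cast hn'.1
      have hn0 : (0 : ℝ) < n := lt_of_lt_of_le hN0 hnN
      have e1 : proj n (loF N K) = fun x => hw x ^ n := by
        ext x
        rw [lo_proj, if_pos hn]
      have e2 : Continuous (fun x => hw x ^ n) := hw_cont.pow n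
      rw [e1, lo_eLp2 e2, ← ENNReal.ofReal_mul (by positivity)]
      apply ENNReal.ofReal_le_ofReal
      have h2 : N2 (fun x => hw x ^ n) ≤ 4 * π / √N := by
        refine (N2_hw n (by omega)).trans ?_
        gcongr
      have h3 : (1 + n : ℝ) ^ (2 * s) ≤ 3 ^ (2 * |s|) * (N : ℝ) ^ (2 * s) := by
        rcases le_total 0 s with hs | hs
        · rw [abs_of_nonneg hs, ← Real.mul_rpow (by norm_num) hN0.le]
          apply Real.rpow_le_rpow (by positivity) _ (by positivity)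
          have : (n : ℝ) + 1 ≤ N + K := by exact_mod_cast hn'.2
          have h4 : (K : ℝ) ≤ N := by
            have : K ≤ N := by omega
            exact_mod_cast this
          linarith
        · have h4 : (1 + n : ℝ) ^ (2 * s) ≤ (N : ℝ) ^ (2 * s) :=
            Real.rpow_le_rpow_of_nonpos hN0 (by linarith) (by linarith)
          refine h4.trans ?_
          have h5 : (1 : ℝ) ≤ 3 ^ (2 * |s|) := Real.one_le_rpow (by norm_num) (by positivity)
          have h6 : 0 ≤ (N : ℝ) ^ (2 * s) := by positivity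
          nlinarith
      have h7 : 0 ≤ N2 (fun x => hw x ^ n) := integral_nonneg fun x => by positivity
      exact mul_le_mul h3 h2 h7 (by positivity)
    refine (Finset.sum_le_sum h1).trans ?_
    rw [Finset.sum_const, Nat.card_Ico, Nat.add_sub_cancel_left, nsmul_eq_mul,
      ← ENNReal.ofReal_natCast, ← ENNReal.ofReal_mul (by positivity)]
    apply ENNReal.ofReal_le_ofReal
    apply le_of_eq
    rw [hsq, hNr, Real.mul_rpow (by norm_num) (by positivity), ← Real.rpow_mul hK0.le,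
      Real.rpow_sub hK0, Real.rpow_one, show (4 : ℝ) * (2 * s) = 8 * s by ring]
    field_simp
  · intro n hn
    have e1 : proj n (loF N K) = fun _ => 0 := by
      ext x
      rw [lo_proj, if_neg hn]
    rw [e1]
    simp

theorem lo_time {p : ℝ≥0∞} (hp : 1 ≤ p) {g : ℝ → ℝ≥0∞} {a : ℝ} (ha : 0 ≤ a)
    (hg : ∀ t, 0 ≤ t → t ≤ 1 → ENNReal.ofReal a ≤ g t) :
    ENNReal.ofReal a ≤ eLpNorm g p (volume.restrict (Set.Icc 0 1)) := by
  have h1 : eLpNorm (fun _ : ℝ => a) p (volume.restrict (Set.Icc (0 : ℝ) 1)) = ENNReal.ofReal a := by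
    rw [eLpNorm_const _ (by positivity) (by
      rw [Ne, Measure.restrict_eq_zero, Real.volume_Icc]
      norm_num)]
    rw [Measure.restrict_apply_univ, Real.volume_Icc]
    simp [Real.enorm_eq_ofReal ha]
  rw [← h1]
  apply eLpNorm_mono_enorm_ae
  rw [ae_restrict_iff' measurableSet_Icc]
  refine Eventually.of_forall fun t ht => ?_
  rw [Real.enorm_eq_ofReal ha, enorm_eq_self]
  exact hg t ht.1 ht.2

theorem lower (p q : ℝ≥0∞) (hp : 1 ≤ p) (hq : 2 ≤ q)
    (s : ℝ) (hs : s < 3 / 4 * (1 / 2 - (q⁻¹).toReal)) : ¬ Strichartz p q s := by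
  intro hS
  obtain ⟨C, hC⟩ := hS 1 one_pos
  set r : ℝ := 1 / q.toReal with hr
  have hr' : (q⁻¹).toReal = r := by rw [ENNReal.toReal_inv, hr, one_div]
  rw [hr'] at hs
  have hq0 : q ≠ 0 := by
    rintro rfl
    simp at hq
  set C₁ : ℝ := 3 ^ (2 * |s|) * 16 ^ (2 * s) * π with hC₁
  have hC₁0 : 0 < C₁ := by positivity
  have hr0 : 0 ≤ r := by positivity
  have key : ∀ K : ℕ, 1 ≤ K → (K : ℝ) / 4 * (1 / (128 * (K : ℝ) ^ 3)) ^ r ≤
      C * (C₁ * (K : ℝ) ^ (8 * s - 1)) ^ (1 / 2 : ℝ) := by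
    intro K hK
    have hK0 : (0 : ℝ) < K := by exact_mod_cast hK
    have h1 := hC (loF (2 * (8 * K ^ 4)) K) (loF_smooth _ _) (loU (2 * (8 * K ^ 4)) K) (lo_flow _ _)
    have h2 : ENNReal.ofReal ((K : ℝ) / 4 * (1 / (128 * (K : ℝ) ^ 3)) ^ r) ≤
        eLpNorm (fun t => eLpNorm (loU (2 * (8 * K ^ 4)) K t) q σ) p
          (volume.restrict (Set.Icc 0 1)) := by
      apply lo_time hp (by positivity)
      intro t ht0 ht1
      have h3 := lo_eLp hK ht0 ht1 hq0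
      rw [ENNReal.ofReal_rpow_of_nonneg (by positivity) hr0, ← ENNReal.ofReal_mul (by positivity)]
        at h3
      exact h3
    have h4 := h2.trans (h1.trans (mul_le_mul_right (lo_Hs s hK) _))
    rw [ENNReal.ofReal_rpow_of_nonneg (by positivity) (by norm_num),
      ← ENNReal.ofReal_coe_nnreal, ← ENNReal.ofReal_mul (by positivity)] at h4
    exact (ENNReal.ofReal_le_ofReal_iff (by positivity)).1 h4
  -- the exponent
  set γ : ℝ := 3 / 2 - 3 * r - 4 * s with hγ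
  have hγ0 : 0 < γ := by rw [hγ]; linarith
  set C₂ : ℝ := 4 * 128 ^ r * (C * C₁ ^ (1 / 2 : ℝ)) with hC₂
  have key2 : ∀ K : ℕ, 1 ≤ K → (K : ℝ) ^ γ ≤ C₂ := by
    intro K hK
    have hK0 : (0 : ℝ) < K := by exact_mod_cast hK
    have h1 := key K hK
    have e1 : (1 / (128 * (K : ℝ) ^ 3)) ^ r = (128 ^ r)⁻¹ * (K : ℝ) ^ (-(3 * r)) := by
      rw [one_div, Real.inv_rpow (by positivity), Real.mul_rpow (by norm_num) (by positivity),
        mul_inv, Real.rpow_neg hK0.le, Real.rpow_mul hK0.le]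
      norm_num
    have e2 : (C₁ * (K : ℝ) ^ (8 * s - 1)) ^ (1 / 2 : ℝ) =
        C₁ ^ (1 / 2 : ℝ) * (K : ℝ) ^ (4 * s - 1 / 2) := by
      rw [Real.mul_rpow hC₁0.le (by positivity), ← Real.rpow_mul hK0.le]
      congr 2
      ring
    rw [e1, e2] at h1
    have e3 : (K : ℝ) ^ γ = (K : ℝ) * (K : ℝ) ^ (-(3 * r)) * (K : ℝ) ^ (-(4 * s - 1 / 2)) := by
      nth_rewrite 2 [← Real.rpow_one (K : ℝ)]
      rw [← Real.rpow_add hK0, ← Real.rpow_add hK0]
      congr 1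
      rw [hγ]
      ring
    have e4 : (K : ℝ) ^ (4 * s - 1 / 2) * (K : ℝ) ^ (-(4 * s - 1 / 2)) = 1 := by
      rw [← Real.rpow_add hK0, add_neg_cancel, Real.rpow_zero]
    have h128 : (0 : ℝ) < 128 ^ r := by positivity
    have h5 : (K : ℝ) * (K : ℝ) ^ (-(3 * r)) ≤
        4 * 128 ^ r * (C * (C₁ ^ (1 / 2 : ℝ) * (K : ℝ) ^ (4 * s - 1 / 2))) := by
      calc (K : ℝ) * (K : ℝ) ^ (-(3 * r))
          = 4 * 128 ^ r * ((K : ℝ) / 4 * ((128 ^ r)⁻¹ * (K : ℝ) ^ (-(3 * r)))) := by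
            field_simp
        _ ≤ _ := by gcongr
    rw [e3]
    calc (K : ℝ) * (K : ℝ) ^ (-(3 * r)) * (K : ℝ) ^ (-(4 * s - 1 / 2))
        ≤ 4 * 128 ^ r * (C * (C₁ ^ (1 / 2 : ℝ) * (K : ℝ) ^ (4 * s - 1 / 2))) *
          (K : ℝ) ^ (-(4 * s - 1 / 2)) := by gcongr
      _ = C₂ * ((K : ℝ) ^ (4 * s - 1 / 2) * (K : ℝ) ^ (-(4 * s - 1 / 2))) := by
          rw [hC₂]
          ring
      _ = C₂ := by rw [e4, mul_one]
  have h3 : Tendsto (fun K : ℕ => (K : ℝ) ^ γ) atTop atTop :=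
    (tendsto_rpow_atTop hγ0).comp tendsto_natCast_atTop_atTop
  obtain ⟨K, hK1, hK2⟩ := ((h3.eventually_gt_atTop C₂).and (eventually_ge_atTop 1)).exists
  exact absurd (key2 K hK2) (not_le.2 hK1)

end

end Pool.Agent.DW
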