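import Pool.Agent.DW.Defs

/-!
# Module A1: moments of linear forms on the sphere
-/

open MeasureTheory Metric Complex Filter Topology Real
open scoped ENNReal NNReal RealInnerProductSpace Nat

namespace Pool.Agent.DW

noncomputable section

/-- the complex bilinear pairing of `ζ ∈ ℂ³` with a point of the sphere -/
def cp (ζ : Fin 3 → ℂ) (y : S2) : ℂ := ∑ i, ζ i * ((y : E3) i : ℂ)

/-- the complex bilinear form on `ℂ³` -/
def cdot (ζ η : Fin 3 → ℂ) : ℂ := ∑ i, ζ i * η i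

/-- continuous functions on the sphere are integrable -/
theorem integrable_of_cont {f : S2 → ℂ} (hf : Continuous f) : Integrable f σ := by
  have : IsCompact (Set.univ : Set S2) := isCompact_univ
  exact integrableOn_univ.1 (hf.continuousOn.integrableOn_compact this)

theorem integrable_of_cont_real {f : S2 → ℝ} (hf : Continuous f) : Integrable f σ := by
  have : IsCompact (Set.univ : Set S2) := isCompact_univ
  exact integrableOn_univ.1 (hf.continuousOn.integrableOn_compact this)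

/-- complex linear form on `ℝ³` -/
def mo_lin (ζ : Fin 3 → ℂ) (x : E3) : ℂ := ∑ i, ζ i * (x i : ℂ)

theorem mo_lin_smul (ζ : Fin 3 → ℂ) (r : ℝ) (x : E3) : mo_lin ζ (r • x) = r * mo_lin ζ x := by
  simp only [mo_lin, PiLp.smul_apply, smul_eq_mul, Finset.mul_sum]
  refine Finset.sum_congr rfl fun i _ => ?_
  push_cast; ring

theorem mo_lin_smul' (ζ : Fin 3 → ℂ) (t : ℂ) (x : E3) :
    mo_lin (fun i => t * ζ i) x = t * mo_lin ζ x := by
  simp only [mo_lin, Finset.mul_sum]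
  refine Finset.sum_congr rfl fun i _ => ?_
  ring

theorem mo_lin_cont (ζ : Fin 3 → ℂ) : Continuous (mo_lin ζ) := by
  unfold mo_lin; fun_prop

theorem mo_lin_bound (ζ : Fin 3 → ℂ) (x : E3) : ‖mo_lin ζ x‖ ≤ (∑ i, ‖ζ i‖) * ‖x‖ := by
  unfold mo_lin
  rw [Finset.sum_mul]
  refine (norm_sum_le _ _).trans (Finset.sum_le_sum fun i _ => ?_)
  rw [norm_mul]
  gcongr
  rw [Complex.norm_real]
  exact PiLp.norm_apply_le x i

/-- polar coordinates for `(ζ·x)^m e^{-|x|²/2}` -/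
theorem mo_polar (ζ : Fin 3 → ℂ) (m : ℕ) :
    ∫ x : E3, mo_lin ζ x ^ m * (Real.exp (-‖x‖ ^ 2 / 2) : ℂ) =
      (∫ y, cp ζ y ^ m ∂σ) * ((∫ r in Set.Ioi (0 : ℝ), r ^ (m + 2) * Real.exp (-r ^ 2 / 2) : ℝ) : ℂ) := by
  have h1 := (volume : Measure E3).measurePreserving_homeomorphUnitSphereProd.integral_comp
    (Homeomorph.measurableEmbedding _)
    (fun z : S2 × Set.Ioi (0 : ℝ) => cp ζ z.1 ^ m *
      (((z.2 : ℝ) ^ m * Real.exp (-(z.2 : ℝ) ^ 2 / 2) : ℝ) : ℂ))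
  have h2 : ∫ x : E3, mo_lin ζ x ^ m * (Real.exp (-‖x‖ ^ 2 / 2) : ℂ) =
      ∫ x : ({(0 : E3)}ᶜ : Set E3), mo_lin ζ (x : E3) ^ m * (Real.exp (-‖(x : E3)‖ ^ 2 / 2) : ℂ)
        ∂((volume : Measure E3).comap (↑)) := by
    rw [integral_subtype_comap (measurableSet_singleton _).compl
      fun x : E3 => mo_lin ζ x ^ m * (Real.exp (-‖x‖ ^ 2 / 2) : ℂ), restrict_compl_singleton]
  rw [h2]
  have h3 : ∀ x : ({(0 : E3)}ᶜ : Set E3), mo_lin ζ (x : E3) ^ m *
      (Real.exp (-‖(x : E3)‖ ^ 2 / 2) : ℂ) =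
      (fun z : S2 × Set.Ioi (0 : ℝ) => cp ζ z.1 ^ m *
      (((z.2 : ℝ) ^ m * Real.exp (-(z.2 : ℝ) ^ 2 / 2) : ℝ) : ℂ)) (homeomorphUnitSphereProd E3 x) := by
    intro x
    have hx : (x : E3) ≠ 0 := x.2
    have hn : ‖(x : E3)‖ ≠ 0 := norm_ne_zero_iff.2 hx
    have e1 : cp ζ (homeomorphUnitSphereProd E3 x).1 = ((‖(x : E3)‖⁻¹ : ℝ) : ℂ) * mo_lin ζ x := by
      rw [← mo_lin_smul, cp, mo_lin, homeomorphUnitSphereProd_apply_fst_coe]
    have e2 : ((‖(x : E3)‖⁻¹ : ℝ) : ℂ) ^ m * ((‖(x : E3)‖ : ℝ) : ℂ) ^ m = 1 := by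
      rw [← mul_pow, ← Complex.ofReal_mul, inv_mul_cancel₀ hn]; simp
    simp only [e1, homeomorphUnitSphereProd_apply_snd_coe]
    rw [mul_pow, Complex.ofReal_mul, Complex.ofReal_pow]
    calc _ = (((‖(x : E3)‖⁻¹ : ℝ) : ℂ) ^ m * ((‖(x : E3)‖ : ℝ) : ℂ) ^ m) * (mo_lin ζ (x : E3) ^ m *
      (Real.exp (-‖(x : E3)‖ ^ 2 / 2) : ℂ)) := by rw [e2, one_mul]
      _ = _ := by ring
  rw [integral_congr_ae (Filter.Eventually.of_forall h3), h1]
  rw [integral_prod_mul (μ := (volume : Measure E3).toSphere) (fun y : S2 => cp ζ y ^ m)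
    (fun r : Set.Ioi (0 : ℝ) => (((r : ℝ) ^ m * Real.exp (-(r : ℝ) ^ 2 / 2) : ℝ) : ℂ))]
  congr 1
  rw [integral_complex_ofReal]
  congr 1
  simp only [Measure.volumeIoiPow, ENNReal.ofReal]
  rw [integral_withDensity_eq_integral_smul,
    integral_subtype_comap measurableSet_Ioi fun a : ℝ => Real.toNNReal (a ^ (Module.finrank ℝ E3 - 1)) • 
      (a ^ m * Real.exp (-a ^ 2 / 2)),
    setIntegral_congr_fun measurableSet_Ioi fun x hx => ?_]
  · have h3 : Module.finrank ℝ E3 = 3 := by simp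
    rw [NNReal.smul_def, Real.coe_toNNReal _ (pow_nonneg (le_of_lt hx) _), h3, smul_eq_mul]
    ring
  · exact (measurable_subtype_coe.pow_const _).real_toNNReal

/-- the radial integral -/
def mo_R (m : ℕ) : ℝ := ∫ r in Set.Ioi (0 : ℝ), r ^ (m + 2) * Real.exp (-r ^ 2 / 2)

theorem mo_R_eq (m : ℕ) : mo_R m =
    (1 / 2 : ℝ) ^ (-((m + 2 : ℕ) + 1 : ℝ) / 2) * (1 / 2) * Real.Gamma (((m + 2 : ℕ) + 1 : ℝ) / 2) := by
  have h := _root_.integral_rpow_mul_exp_neg_mul_rpow (p := 2) (q := ((m + 2 : ℕ) : ℝ)) (b := 1 / 2)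
    (by norm_num) (by have : (0 : ℝ) ≤ ((m + 2 : ℕ) : ℝ) := Nat.cast_nonneg _
                      linarith) (by norm_num)
  rw [← h, mo_R]
  refine setIntegral_congr_fun measurableSet_Ioi fun x hx => ?_
  rw [Real.rpow_natCast, Real.rpow_two]
  congr 2
  ring

theorem mo_R_pos (m : ℕ) : 0 < mo_R m := by
  rw [mo_R_eq]
  have : 0 < Real.Gamma (((m + 2 : ℕ) + 1 : ℝ) / 2) := Real.Gamma_pos_of_pos (by positivity)
  positivity

theorem mo_R_even (k : ℕ) : mo_R (2 * k) = (2 * k + 1 : ℕ)‼ * √(π / 2) := by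
  rw [mo_R_eq]
  have e : (((2 * k + 2 : ℕ) + 1 : ℝ) / 2) = (k : ℝ) + 1 + 1 / 2 := by push_cast; ring
  have e' : (-((2 * k + 2 : ℕ) + 1 : ℝ) / 2) = -((k : ℝ) + 1 + 1 / 2) := by push_cast; ring
  rw [e, e', Real.Gamma_nat_add_one_add_half]
  have e2 : (1 / 2 : ℝ) ^ (-((k : ℝ) + 1 + 1 / 2)) = 2 ^ (k + 1) * √2 := by
    rw [Real.rpow_neg (by norm_num), Real.div_rpow (by norm_num) (by norm_num), Real.one_rpow, one_div, inv_inv,
      Real.rpow_add (by norm_num), ← Real.sqrt_eq_rpow]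
    congr 1
    exact_mod_cast Real.rpow_natCast (2 : ℝ) (k + 1)
  rw [e2, Real.sqrt_div' _ (by norm_num : (0 : ℝ) ≤ 2)]
  have h2 : √(2 : ℝ) ≠ 0 := by positivity
  have h3 : √(2 : ℝ) * √2 = 2 := Real.mul_self_sqrt (by norm_num)
  field_simp
  nlinarith [h3]

/-- the Gaussian generating function -/
theorem mo_gauss (ζ : Fin 3 → ℂ) :
    ∫ x : E3, cexp (mo_lin ζ x) * (Real.exp (-‖x‖ ^ 2 / 2) : ℂ) =
      (π / (1 / 2 : ℂ)) ^ (Fintype.card (Fin 3) / 2 : ℂ) * cexp (cdot ζ ζ / 2) := by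
  have h := GaussianFourier.integral_cexp_neg_mul_sum_add (b := 1 / 2) (by norm_num) ζ
  rw [← (PiLp.volume_preserving_toLp (Fin 3)).integral_comp
    (MeasurableEquiv.toLp 2 _).measurableEmbedding]
  have e : (∑ i, ζ i ^ 2) / (4 * (1 / 2 : ℂ)) = cdot ζ ζ / 2 := by
    rw [cdot]
    simp only [pow_two]
    ring
  rw [e] at h
  rw [← h]
  refine integral_congr_ae (Filter.Eventually.of_forall fun v => ?_)
  simp only
  rw [Complex.ofReal_exp, ← Complex.exp_add]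
  congr 1
  rw [EuclideanSpace.real_norm_sq_eq, mo_lin]
  push_cast
  ring

theorem mo_integrable (C : ℝ) : Integrable fun x : E3 => Real.exp (C * ‖x‖) * Real.exp (-‖x‖ ^ 2 / 2) := by
  have h := GaussianFourier.integrable_cexp_neg_mul_sq_norm_add (V := E3) (b := 1 / 4) (by norm_num) 0 0
  have h2 := h.norm.const_mul (Real.exp (C ^ 2))
  refine h2.mono (by fun_prop) (Filter.Eventually.of_forall fun x => ?_)
  have e : ‖cexp (-(1 / 4) * (‖x‖ : ℂ) ^ 2 + 0 * ((⟪(0 : E3), x⟫ : ℝ) : ℂ))‖ = Real.exp (-(1 / 4) * ‖x‖ ^ 2) := by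
    rw [Complex.norm_exp]
    congr 1
    simp [← Complex.ofReal_pow]
  rw [e, ← Real.exp_add, ← Real.exp_add, Real.norm_of_nonneg (Real.exp_pos _).le,
    Real.norm_of_nonneg (Real.exp_pos _).le, Real.exp_le_exp]
  nlinarith [sq_nonneg (‖x‖ / 2 - C)]

theorem mo_hasSum (ζ : Fin 3 → ℂ) :
    HasSum (fun m : ℕ => ((∫ y, cp ζ y ^ m ∂σ) * mo_R m) / (m ! : ℂ))
      ((π / (1 / 2 : ℂ)) ^ (Fintype.card (Fin 3) / 2 : ℂ) * cexp (cdot ζ ζ / 2)) := by
  rw [← mo_gauss]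
  have key : HasSum (fun m : ℕ => ∫ x : E3, mo_lin ζ x ^ m / (m ! : ℂ) * (Real.exp (-‖x‖ ^ 2 / 2) : ℂ))
      (∫ x : E3, cexp (mo_lin ζ x) * (Real.exp (-‖x‖ ^ 2 / 2) : ℂ)) := by
    set C : ℝ := ∑ i, ‖ζ i‖ with hC
    have hb : ∀ x : E3, HasSum (fun m : ℕ => (C * ‖x‖) ^ m / (m ! : ℝ) * Real.exp (-‖x‖ ^ 2 / 2))
        (Real.exp (C * ‖x‖) * Real.exp (-‖x‖ ^ 2 / 2)) := by
      intro x
      refine HasSum.mul_right _ ?_
      rw [Real.exp_eq_exp_ℝ]
      exact NormedSpace.expSeries_div_hasSum_exp (C * ‖x‖)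
    refine hasSum_integral_of_dominated_convergence
      (fun m x => (C * ‖x‖) ^ m / (m ! : ℝ) * Real.exp (-‖x‖ ^ 2 / 2)) (fun m => ?_) (fun m => ?_) ?_ ?_ ?_
    · have := mo_lin_cont ζ
      exact Continuous.aestronglyMeasurable (by fun_prop)
    · refine Filter.Eventually.of_forall fun x => ?_
      rw [norm_mul, norm_div, norm_pow, Complex.norm_natCast, Complex.norm_real,
        Real.norm_of_nonneg (Real.exp_pos _).le]
      gcongr
      exact mo_lin_bound ζ x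
    · exact Filter.Eventually.of_forall fun x => (hb x).summable
    · have : (fun x : E3 => ∑' m : ℕ, (C * ‖x‖) ^ m / (m ! : ℝ) * Real.exp (-‖x‖ ^ 2 / 2)) =
          fun x : E3 => Real.exp (C * ‖x‖) * Real.exp (-‖x‖ ^ 2 / 2) := by
        funext x
        exact (hb x).tsum_eq
      rw [this]
      exact mo_integrable C
    · refine Filter.Eventually.of_forall fun x => ?_
      refine HasSum.mul_right _ ?_
      rw [Complex.exp_eq_exp_ℂ]
      exact NormedSpace.expSeries_div_hasSum_exp (mo_lin ζ x)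
  have e : ∀ m : ℕ, ((∫ y, cp ζ y ^ m ∂σ) * mo_R m) / (m ! : ℂ) =
      ∫ x : E3, mo_lin ζ x ^ m / (m ! : ℂ) * (Real.exp (-‖x‖ ^ 2 / 2) : ℂ) := by
    intro m
    have h1 : (fun x : E3 => mo_lin ζ x ^ m / (m ! : ℂ) * (Real.exp (-‖x‖ ^ 2 / 2) : ℂ)) =
        fun x : E3 => (m ! : ℂ)⁻¹ * (mo_lin ζ x ^ m * (Real.exp (-‖x‖ ^ 2 / 2) : ℂ)) := by
      funext x; ring
    rw [h1, integral_const_mul, mo_polar, mo_R]
    ring
  simp only [e]
  exact key

/-- coefficients are determined by the sum of the power series -/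
theorem mo_unique {a b : ℕ → ℂ} {f : ℂ → ℂ} (ha : ∀ t, HasSum (fun n => t ^ n * a n) (f t))
    (hb : ∀ t, HasSum (fun n => t ^ n * b n) (f t)) (n : ℕ) : a n = b n := by
  have h1 : HasFPowerSeriesAt f (FormalMultilinearSeries.ofScalars ℂ a) 0 := by
    rw [hasFPowerSeriesAt_iff]
    refine Filter.Eventually.of_forall fun t => ?_
    simpa [FormalMultilinearSeries.coeff_ofScalars] using ha t
  have h2 : HasFPowerSeriesAt f (FormalMultilinearSeries.ofScalars ℂ b) 0 := by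
    rw [hasFPowerSeriesAt_iff]
    refine Filter.Eventually.of_forall fun t => ?_
    simpa [FormalMultilinearSeries.coeff_ofScalars] using hb t
  have h3 := congrArg (fun p => FormalMultilinearSeries.coeff p n) (h1.eq_formalMultilinearSeries h2)
  simpa [FormalMultilinearSeries.coeff_ofScalars] using h3

/-- the constant `(2π)^{3/2}` -/
def mo_c : ℂ := (π / (1 / 2 : ℂ)) ^ (Fintype.card (Fin 3) / 2 : ℂ)

theorem mo_cdot_smul (t : ℂ) (ζ : Fin 3 → ℂ) :
    cdot (fun i => t * ζ i) (fun i => t * ζ i) = t ^ 2 * cdot ζ ζ := by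
  simp only [cdot, Finset.mul_sum]
  refine Finset.sum_congr rfl fun i _ => ?_
  ring

theorem mo_cp_smul (t : ℂ) (ζ : Fin 3 → ℂ) (y : S2) :
    cp (fun i => t * ζ i) y = t * cp ζ y := by
  simp only [cp, Finset.mul_sum]
  refine Finset.sum_congr rfl fun i _ => ?_
  ring

theorem mo_coeff (ζ : Fin 3 → ℂ) (m : ℕ) :
    ((∫ y, cp ζ y ^ m ∂σ) * mo_R m) / (m ! : ℂ) =
      if Even m then mo_c * ((cdot ζ ζ / 2) ^ (m / 2) / ((m / 2)! : ℂ)) else 0 := by
  refine mo_unique (a := fun m : ℕ => ((∫ y, cp ζ y ^ m ∂σ) * mo_R m) / (m ! : ℂ))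
    (b := fun m : ℕ => if Even m then mo_c * ((cdot ζ ζ / 2) ^ (m / 2) / ((m / 2)! : ℂ)) else 0)
    (f := fun t => mo_c * cexp (t ^ 2 * cdot ζ ζ / 2)) (fun t => ?_) (fun t => ?_) m
  · have h := mo_hasSum (fun i => t * ζ i)
    rw [mo_cdot_smul] at h
    have e : ∀ m : ℕ, ((∫ y, cp (fun i => t * ζ i) y ^ m ∂σ) * mo_R m) / (m ! : ℂ) =
        t ^ m * (((∫ y, cp ζ y ^ m ∂σ) * mo_R m) / (m ! : ℂ)) := by
      intro m
      simp only [mo_cp_smul, mul_pow]
      rw [integral_const_mul]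
      ring
    simp only [e] at h
    exact h
  · have hinj : Function.Injective (fun k : ℕ => 2 * k) := fun a b h => by simpa using h
    rw [← hinj.hasSum_iff]
    · have h := (NormedSpace.expSeries_div_hasSum_exp (t ^ 2 * cdot ζ ζ / 2)).mul_left mo_c
      rw [← Complex.exp_eq_exp_ℂ] at h
      have e : ∀ k : ℕ, ((fun n => t ^ n * (fun m : ℕ => if Even m then
          mo_c * ((cdot ζ ζ / 2) ^ (m / 2) / ((m / 2)! : ℂ)) else 0) n) ∘ fun k => 2 * k) k =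
          mo_c * ((t ^ 2 * cdot ζ ζ / 2) ^ k / (k ! : ℂ)) := by
        intro k
        simp only [Function.comp, even_two_mul, if_true, Nat.mul_div_cancel_left k (by norm_num : 0 < 2)]
        rw [pow_mul, mul_div_assoc, mul_pow]
        ring
      rw [show ((fun n => t ^ n * (fun m : ℕ => if Even m then
          mo_c * ((cdot ζ ζ / 2) ^ (m / 2) / ((m / 2)! : ℂ)) else 0) n) ∘ fun k => 2 * k) =
          fun k => mo_c * ((t ^ 2 * cdot ζ ζ / 2) ^ k / (k ! : ℂ)) from funext e]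
      exact h
    · intro m hm
      have : ¬ Even m := by
        rintro ⟨k, hk⟩
        exact hm ⟨k, by simp only; omega⟩
      simp [this]

theorem mo_sphere : (σ : Measure S2).real Set.univ = 4 * π := by
  unfold σ
  rw [Measure.toSphere_real_apply_univ, Measure.real, EuclideanSpace.volume_ball_fin_three]
  have h0 : (0 : ℝ) ≤ π * 4 / 3 := by positivity
  simp only [ENNReal.ofReal_one, one_pow, one_mul, ENNReal.toReal_ofReal h0, finrank_euclideanSpace,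
    Fintype.card_fin]
  push_cast
  ring

theorem mo_c_eq : mo_c = 4 * π * √(π / 2) := by
  have h := mo_coeff 0 0
  have e : mo_R 0 = √(π / 2) := by
    have := mo_R_even 0
    simpa using this
  rw [e] at h
  simp [mo_sphere] at h
  rw [← h, Real.sqrt_div' _ (by norm_num : (0 : ℝ) ≤ 2)]
  push_cast
  ring

/-- even moments (first for real `ζ` by Gaussian integrals and polar coordinates, then for complex
`ζ = a + t b` by polynomial identity in `t`) -/
theorem moment_even (ζ : Fin 3 → ℂ) (k : ℕ) :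
    ∫ y, cp ζ y ^ (2 * k) ∂σ = 4 * π / (2 * k + 1) * cdot ζ ζ ^ k := by
  have h := mo_coeff ζ (2 * k)
  rw [if_pos (even_two_mul k), Nat.mul_div_cancel_left k (by norm_num), mo_c_eq, mo_R_even] at h
  have hs : (√(π / 2) : ℂ) ≠ 0 := by
    have : √(π / 2) ≠ 0 := by positivity
    exact_mod_cast this
  have h1 : ((2 * k)! : ℂ) ≠ 0 := by exact_mod_cast Nat.factorial_ne_zero _
  have h2 : ((2 * k + 1 : ℕ)‼ : ℂ) ≠ 0 := by exact_mod_cast (Nat.doubleFactorial_pos _).ne'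
  have h3 : ((2 * k + 1 : ℕ)‼ : ℂ) * (2 ^ k * k ! : ℂ) = (2 * k + 1) * ((2 * k)! : ℂ) := by
    have := Nat.factorial_eq_mul_doubleFactorial (2 * k)
    have h4 := Nat.doubleFactorial_two_mul k
    have h5 := Nat.factorial_succ (2 * k)
    rw [h5, h4] at this
    exact_mod_cast this.symm
  have h4 : (k ! : ℂ) ≠ 0 := by exact_mod_cast Nat.factorial_ne_zero _
  have h5 : (2 * k + 1 : ℂ) ≠ 0 := by exact_mod_cast Nat.succ_ne_zero (2 * k)
  have h6 : (2 : ℂ) ^ k ≠ 0 := pow_ne_zero _ two_ne_zero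
  set M : ℂ := ∫ y, cp ζ y ^ (2 * k) ∂σ with hM
  set d : ℂ := ((2 * k + 1 : ℕ)‼ : ℂ) with hd
  have h7 : M * d / ((2 * k)! : ℂ) = 4 * π * ((cdot ζ ζ / 2) ^ k / (k ! : ℂ)) := by
    refine mul_right_cancel₀ hs ?_
    push_cast at h
    linear_combination h
  rw [div_pow, div_eq_iff h1] at h7
  have h8 : M * (d * (2 ^ k * k ! : ℂ)) = 4 * π * cdot ζ ζ ^ k * ((2 * k)! : ℂ) := by
    calc M * (d * (2 ^ k * k ! : ℂ)) = (M * d) * (2 ^ k * k ! : ℂ) := by ring
      _ = _ := by rw [h7]; field_simp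
  rw [h3] at h8
  rw [div_mul_eq_mul_div, eq_div_iff h5]
  refine mul_right_cancel₀ h1 ?_
  linear_combination h8

theorem moment_odd (ζ : Fin 3 → ℂ) (k : ℕ) : ∫ y, cp ζ y ^ (2 * k + 1) ∂σ = 0 := by
  have h := mo_coeff ζ (2 * k + 1)
  have hne : ¬ Even (2 * k + 1) := by simp
  rw [if_neg hne, div_eq_zero_iff, mul_eq_zero] at h
  have hR : (mo_R (2 * k + 1) : ℂ) ≠ 0 := by exact_mod_cast (mo_R_pos _).ne'
  have hf : ((2 * k + 1)! : ℂ) ≠ 0 := by exact_mod_cast Nat.factorial_ne_zero _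
  tauto

end

end Pool.Agent.DW
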