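import Pool.Agent.DW.Focus

/-!
# The endpoint fails at `p = q = ∞`
-/

open MeasureTheory Metric Complex Filter Topology Real
open scoped ENNReal NNReal RealInnerProductSpace Manifold ContDiff

namespace Pool.Agent.DW

noncomputable section

theorem ne_proj {P : ℕ → S2 → ℂ} (hP : ∀ n, Har n (P n)) (s : Finset ℕ) (n : ℕ) (x : S2) :
    proj n (fun x => ∑ m ∈ s, P m x) x = if n ∈ s then P n x else 0 := by
  rw [proj_sum n s (fun m _ => (hP m).cont)]
  split_ifs with h
  · rw [Finset.sum_eq_single_of_mem n h, (hP n).rep]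
    intro m _ hmn
    exact har_proj_ne (Ne.symm hmn) (hP m) x
  · exact Finset.sum_eq_zero fun m hm => har_proj_ne (by rintro rfl; exact h hm) (hP m) x

theorem ne_flow {P : ℕ → S2 → ℂ} (hP : ∀ n, Har n (P n)) (s : Finset ℕ) :
    IsFlow (fun x => ∑ m ∈ s, P m x) (upw P s) := by
  intro t
  refine ⟨(upw_cont (fun n => (hP n).cont) s t).aestronglyMeasurable, ?_⟩
  refine tendsto_const_nhds.congr' ?_
  obtain ⟨M, hM⟩ : ∃ M, ∀ n ∈ s, n < M :=
    ⟨s.sup id + 1, fun n hn => Nat.lt_succ_of_le (Finset.le_sup (f := id) hn)⟩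
  filter_upwards [eventually_ge_atTop M] with K hK
  have h : (fun x => upw P s t x - ∑ n ∈ Finset.range K,
      cexp (I * t * Lam n) * proj n (fun x => ∑ m ∈ s, P m x) x) = fun _ => 0 := by
    funext x
    simp_rw [ne_proj hP, mul_ite, mul_zero]
    rw [← Finset.sum_filter]
    have h2 : Finset.filter (fun n => n ∈ s) (Finset.range K) = s := by
      ext n
      simp only [Finset.mem_filter, Finset.mem_range]
      exact ⟨fun h => h.2, fun h => ⟨(hM n h).trans_le hK, h⟩⟩
    rw [h2]
    unfold upw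
    exact sub_self _
  rw [h]
  simp

/-- the value at a point is bounded by the `L^∞` norm -/
theorem ne_point {g : S2 → ℂ} (hg : Continuous g) (x : S2) : ‖g x‖ₑ ≤ eLpNorm g ⊤ σ := by
  have : (σ : Measure S2).IsOpenPosMeasure := by
    unfold σ
    infer_instance
  rw [eLpNorm_exponent_top]
  have h1 := Measure.dense_of_ae (enorm_ae_le_eLpNormEssSup g σ)
  have h2 : IsClosed {y | ‖g y‖ₑ ≤ eLpNormEssSup g σ} :=
    isClosed_le hg.enorm continuous_const
  have h3 := h2.closure_eq ▸ h1.closure_eq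
  have h4 : x ∈ {y | ‖g y‖ₑ ≤ eLpNormEssSup g σ} := by rw [h3]; trivial
  exact h4

/-- the value at time zero is bounded by the mixed norm -/
theorem ne_time {w : ℝ → S2 → ℂ} (hw : Continuous fun p : ℝ × S2 => w p.1 p.2) (x : S2) :
    ‖w 0 x‖ₑ ≤ eLpNorm (fun t => eLpNorm (w t) ⊤ σ) ⊤ (volume.restrict (Set.Icc (0 : ℝ) 1)) := by
  set M := eLpNorm (fun t => eLpNorm (w t) ⊤ σ) ⊤ (volume.restrict (Set.Icc (0 : ℝ) 1)) with hM
  rw [eLpNorm_exponent_top] at hM
  have hc : Continuous (fun t => w t x) :=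
    hw.comp (continuous_id.prodMk continuous_const)
  have h1 : ∀ᵐ t ∂(volume : Measure ℝ), t ∈ Set.Icc (0 : ℝ) 1 → ‖w t x‖ₑ ≤ M := by
    rw [← ae_restrict_iff' measurableSet_Icc]
    filter_upwards [enorm_ae_le_eLpNormEssSup (fun t => eLpNorm (w t) ⊤ σ)
      (volume.restrict (Set.Icc (0 : ℝ) 1))] with t ht
    rw [← hM, enorm_eq_self] at ht
    have hwt : Continuous (w t) := hw.comp (continuous_const.prodMk continuous_id)
    exact (ne_point hwt x).trans ht
  have h2 := Measure.dense_of_ae h1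
  have h3 : IsClosed {t | ‖w t x‖ₑ ≤ M} := isClosed_le hc.enorm continuous_const
  have h4 : Set.Ioo (0 : ℝ) 1 ⊆ {t | ‖w t x‖ₑ ≤ M} := by
    refine (h2.open_subset_closure_inter isOpen_Ioo).trans ?_
    refine closure_minimal ?_ h3
    rintro t ⟨ht1, ht2⟩
    exact ht2 ⟨ht1.1.le, ht1.2.le⟩
  have h5 : closure (Set.Ioo (0 : ℝ) 1) ⊆ {t | ‖w t x‖ₑ ≤ M} := closure_minimal h4 h3
  rw [closure_Ioo (by norm_num)] at h5
  exact h5 (Set.left_mem_Icc.2 (by norm_num))

/-- the estimate fails for `p = q = ∞`, `s = 1` -/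
theorem noend : ¬ Strichartz ⊤ ⊤ 1 := by
  intro hS
  obtain ⟨C, hC⟩ := hS 1 one_pos
  have hne : Nonempty S2 := ⟨⟨EuclideanSpace.single 0 1, by simp⟩⟩
  obtain ⟨e⟩ := hne
  set c : ℕ → ℝ := fun n => 1 / (n + 1) ^ 2 with hc
  set P : ℕ → S2 → ℂ := fun n x => (c n : ℂ) * zf e n x with hP
  have hhar : ∀ n, Har n (P n) := fun n => har_const_mul _ (zf_har e n)
  have hcont : ∀ n, Continuous (P n) := fun n => (hhar n).cont
  have hπ := Real.pi_pos
  have key : ∀ M : ℕ, (∑ n ∈ Finset.range M, 1 / ((n : ℝ) + 1)) ≤ 16 * π * C ^ 2 := by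
    intro M
    set h : ℝ := ∑ n ∈ Finset.range M, 1 / ((n : ℝ) + 1) with hh
    have hh0 : 0 ≤ h := Finset.sum_nonneg fun n _ => by positivity
    set f : S2 → ℂ := fun x => ∑ m ∈ Finset.range M, P m x with hf
    have hsm : ContMDiff (𝓡 2) 𝓘(ℝ, ℂ) ∞ f := by
      refine contMDiff_finsetSum fun n _ => ?_
      have h0 := (contMDiff_const (I := 𝓡 2) (I' := 𝓘(ℝ, ℝ)) (M := S2) (n := ∞)
        (c := c n)).smul (zf_smooth e n)
      refine h0.congr fun x => ?_
      simp only [hP, Pi.smul_apply', Complex.real_smul]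
    have h1 := hC f hsm (upw P (Finset.range M)) (ne_flow hhar _)
    have h2 := (ne_time (upw_cont2 hcont (Finset.range M)) e).trans h1
    -- the value at the pole
    have h3 : h / (4 * π) ≤ ‖upw P (Finset.range M) 0 e‖ := by
      refine le_trans ?_ (Complex.re_le_norm _)
      unfold upw
      rw [Complex.re_sum, hh, Finset.sum_div]
      refine Finset.sum_le_sum fun n _ => ?_
      have e1 : cexp (I * ((0 : ℝ) : ℂ) * Lam n) = 1 := by simp
      have e2 : zf e n e = (((2 * n + 1) / (4 * π) : ℝ) : ℂ) := by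
        unfold zf
        rw [ip_self, Z_one]
      rw [e1, one_mul]
      simp only [hP]
      rw [e2, ← Complex.ofReal_mul, Complex.ofReal_re]
      simp only [hc]
      have hn : (0 : ℝ) ≤ n := n.cast_nonneg
      rw [div_mul_div_comm, one_mul, div_div]
      rw [div_le_div_iff₀ (by positivity) (by positivity)]
      nlinarith [mul_nonneg hn hπ.le, mul_nonneg (mul_nonneg hn hn) hπ.le,
        mul_nonneg (mul_nonneg (mul_nonneg hn hn) hn) hπ.le]
    -- the Sobolev norm
    have h4 : Hs 1 f ≤ ENNReal.ofReal √(h / (2 * π)) := by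
      unfold Hs
      have g1 : ∀ n : ℕ, ENNReal.ofReal ((1 + n : ℝ) ^ (2 * (1 : ℝ))) * eLpNorm (proj n f) 2 σ ^ 2 =
          if n ∈ Finset.range M then
            ENNReal.ofReal (((1 + n : ℝ) ^ (2 * (1 : ℝ))) * (c n ^ 2 * ((2 * n + 1) / (4 * π))))
          else 0 := by
        intro n
        have g2 : proj n f = fun x => if n ∈ Finset.range M then P n x else 0 :=
          funext (ne_proj hhar _ n)
        rw [g2]
        split_ifs with h'
        · rw [up_eLp2 (hcont n), ← ENNReal.ofReal_mul (by positivity)]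
          congr 2
          rw [← zf_N2 e n]
          unfold N2
          rw [← integral_const_mul]
          congr 1
          ext x
          simp only [hP, norm_mul, Complex.norm_real, Real.norm_eq_abs, mul_pow, sq_abs]
        · simp
      simp_rw [g1]
      rw [tsum_eq_sum (s := Finset.range M) (fun n hn => by rw [if_neg hn])]
      have g3 : ∀ n ∈ Finset.range M, (if n ∈ Finset.range M then
            ENNReal.ofReal (((1 + n : ℝ) ^ (2 * (1 : ℝ))) * (c n ^ 2 * ((2 * n + 1) / (4 * π))))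
          else 0) ≤ ENNReal.ofReal (1 / ((n : ℝ) + 1) / (2 * π)) := by
        intro n hn
        rw [if_pos hn]
        refine ENNReal.ofReal_le_ofReal ?_
        have hn0 : (0 : ℝ) ≤ n := n.cast_nonneg
        have e1 : (1 + n : ℝ) ^ (2 * (1 : ℝ)) = (n + 1) ^ 2 := by
          rw [mul_one, Real.rpow_two, add_comm]
        rw [e1]
        simp only [hc]
        have e2 : ((n : ℝ) + 1) ^ 2 * ((1 / ((n : ℝ) + 1) ^ 2) ^ 2 * ((2 * n + 1) / (4 * π))) =
            (2 * n + 1) / (((n : ℝ) + 1) ^ 2 * (4 * π)) := by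
          field_simp
        rw [e2, div_div, div_le_div_iff₀ (by positivity) (by positivity)]
        nlinarith [mul_nonneg hn0 hπ.le, mul_nonneg (mul_nonneg hn0 hn0) hπ.le]
      refine (ENNReal.rpow_le_rpow (Finset.sum_le_sum g3) (by norm_num)).trans (le_of_eq ?_)
      rw [← ENNReal.ofReal_sum_of_nonneg (fun n _ => by positivity), ← Finset.sum_div, ← hh,
        ENNReal.ofReal_rpow_of_nonneg (by positivity) (by norm_num), Real.sqrt_eq_rpow]
    have h5 : ENNReal.ofReal (h / (4 * π)) ≤ ENNReal.ofReal (C * √(h / (2 * π))) := by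
      rw [ENNReal.ofReal_mul C.coe_nonneg, ENNReal.ofReal_coe_nnreal]
      refine le_trans ?_ (h2.trans (mul_le_mul_right h4 _))
      rw [← ofReal_norm]
      exact ENNReal.ofReal_le_ofReal h3
    have h6 : h / (4 * π) ≤ C * √(h / (2 * π)) :=
      (ENNReal.ofReal_le_ofReal_iff (by positivity)).1 h5
    rcases hh0.eq_or_lt with h0 | h0
    · rw [← h0]
      positivity
    · have h7 : (h / (4 * π)) ^ 2 ≤ C ^ 2 * (h / (2 * π)) := by
        have := pow_le_pow_left₀ (by positivity) h6 2
        rwa [mul_pow, Real.sq_sqrt (by positivity)] at this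
      have h8 : h * h ≤ h * (8 * π * C ^ 2) := by
        have e1 : (h / (4 * π)) ^ 2 = h * h / (16 * π ^ 2) := by
          field_simp
          ring
        have e2 : (C : ℝ) ^ 2 * (h / (2 * π)) = h * (8 * π * C ^ 2) / (16 * π ^ 2) := by
          field_simp
          ring
        rw [e1, e2] at h7
        exact (div_le_div_iff_of_pos_right (by positivity)).1 h7
      have h9 := le_of_mul_le_mul_left h8 h0
      have h10 : 0 ≤ π * (C : ℝ) ^ 2 := by positivity
      linarith
  have hlim := Real.tendsto_sum_range_one_div_nat_succ_atTop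
  obtain ⟨M, hM⟩ := (hlim.eventually_gt_atTop (16 * π * (C : ℝ) ^ 2)).exists
  exact absurd (key M) (not_le.2 hM)

end

end Pool.Agent.DW
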