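import Pool.Agent.DW.Cnt2
import Pool.Agent.DW.Sums

/-!
# Sums of the kernel bounds, without logarithms
-/

open Finset Real

namespace Pool.Agent.DW

noncomputable section

/-- counting by the first coordinate -/
theorem s2_count : ∃ C > 0, ∀ (N : ℕ) (A : ℝ) (H n0 : ℕ), 64 ≤ N →
    (((Win N A).filter (fun p => n0 ≤ p.1 ∧ p.1 < n0 + H)).card : ℝ) ≤
      C * (H / √N + 1) * (N : ℝ) ^ (1 / 4 : ℝ) := by
  obtain ⟨C, hC, h⟩ := w2_count
  refine ⟨C, hC, fun N A H n0 hN => ?_⟩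
  refine le_trans ?_ (h N N A H n0 hN le_rfl)
  have hinj : Set.InjOn Prod.swap
      (((Win N A).filter (fun p => n0 ≤ p.1 ∧ p.1 < n0 + H) : Finset (ℕ × ℕ)) : Set (ℕ × ℕ)) :=
    fun x _ y _ e => Prod.swap_injective e
  rw [← Finset.card_image_of_injOn hinj]
  have hsub : ((Win N A).filter (fun p => n0 ≤ p.1 ∧ p.1 < n0 + H)).image Prod.swap ⊆
      (Win2 N N A).filter (fun p => n0 ≤ p.2 ∧ p.2 < n0 + H) := by
    intro p hp
    rw [mem_image] at hp
    obtain ⟨x, hx, rfl⟩ := hp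
    rw [mem_filter] at hx ⊢
    have hw := (sm_memWin (n := x.1) (m := x.2)).1 hx.1
    refine ⟨mem_Win2'.2 ⟨⟨hw.2.1, hw.1⟩, ?_, ?_⟩, hx.2⟩
    · show A ≤ Lam x.2 + Lam x.1
      linarith [hw.2.2.1]
    · show Lam x.2 + Lam x.1 < A + 1
      linarith [hw.2.2.2]
  exact_mod_cast card_le_card hsub

/-- the pairs near the diagonal -/
theorem s2_near : ∃ C > 0, ∀ (N : ℕ) (A : ℝ), 64 ≤ N →
    (((Win N A).filter (fun p => (p.1 - p.2) ^ 2 < N ∧ (p.2 - p.1) ^ 2 < N)).card : ℝ) ≤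
      C * (N : ℝ) ^ (1 / 4 : ℝ) := by
  obtain ⟨C, hC, key⟩ := s2_count
  refine ⟨4 * C, by positivity, fun N A hN => ?_⟩
  have s8 := sqrt_ge8 hN
  set S := (Win N A).filter (fun p => (p.1 - p.2) ^ 2 < N ∧ (p.2 - p.1) ^ 2 < N) with hS
  rcases S.eq_empty_or_nonempty with he | hne
  · rw [he]; simp only [Finset.card_empty, Nat.cast_zero]; positivity
  obtain ⟨p0, hp0, hmin⟩ := S.exists_min_image (fun p => p.1) hne
  set r := Nat.sqrt N with hr
  have hrS : (r : ℝ) ≤ √N := Real.nat_sqrt_le_real_sqrt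
  have hsub : S ⊆ (Win N A).filter (fun p => p0.1 ≤ p.1 ∧ p.1 < p0.1 + (2 * r + 1)) := by
    rintro ⟨n, m⟩ hp
    have hm0 := hmin _ hp
    obtain ⟨n0, m0⟩ := p0
    simp only [hS, Finset.mem_filter] at hp hp0 hm0 ⊢
    refine ⟨hp.1, hm0, ?_⟩
    rcases hm0.eq_or_lt with e | hlt
    · omega
    have hanti := win_anti hN hp0.1 hp.1 hlt
    have a1 : m0 - n0 ≤ r := by rw [hr, Nat.le_sqrt']; exact hp0.2.2.le
    have a2 : n - m ≤ r := by rw [hr, Nat.le_sqrt']; exact hp.2.1.le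
    omega
  have h1 : (S.card : ℝ) ≤ (((Win N A).filter
      (fun p => p0.1 ≤ p.1 ∧ p.1 < p0.1 + (2 * r + 1))).card : ℝ) := by
    exact_mod_cast Finset.card_le_card hsub
  refine h1.trans ((key N A (2 * r + 1) p0.1 hN).trans ?_)
  have h2 : (((2 * r + 1 : ℕ) : ℝ) / √N + 1) ≤ 4 := by
    have : ((2 * r + 1 : ℕ) : ℝ) / √N ≤ 3 := by
      rw [div_le_iff₀ (by linarith)]
      push_cast
      linarith
    linarith
  have hq0 : (0 : ℝ) ≤ (N : ℝ) ^ (1 / 4 : ℝ) := by positivity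
  calc C * (((2 * r + 1 : ℕ) : ℝ) / √N + 1) * (N : ℝ) ^ (1 / 4 : ℝ)
      ≤ C * 4 * (N : ℝ) ^ (1 / 4 : ℝ) := by gcongr
    _ = _ := by ring

/-- output degrees above `2√N`, pairs near the diagonal -/
theorem s2_near_high : ∃ C > 0, ∀ (N : ℕ) (A : ℝ) (j : ℕ), 64 ≤ N → 4 * N ≤ j ^ 2 →
    ∑ p ∈ (Win N A).filter (fun p => (p.1 - p.2) ^ 2 < N ∧ (p.2 - p.1) ^ 2 < N), kb p.1 p.2 j ≤
      C * (N : ℝ) ^ (3 / 4 : ℝ) := by
  obtain ⟨C, hC, hcount⟩ := s2_near
  refine ⟨16 * C, by positivity, fun N A j hN hj => ?_⟩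
  obtain ⟨q, hq2, hq4, hqs, hq1, hq3⟩ := sm_q hN
  have h1 := hcount N A hN
  rw [hq1] at h1
  rw [hq3]
  have hterm : ∀ p ∈ (Win N A).filter (fun p => (p.1 - p.2) ^ 2 < N ∧ (p.2 - p.1) ^ 2 < N),
      kb p.1 p.2 j ≤ 16 * √N := by
    rintro ⟨n, m⟩ hp
    rw [mem_filter, sm_memWin] at hp
    exact sm_kb4 (by omega) hp.1.1.1 hp.1.1.2 hp.1.2.1.1 hp.1.2.1.2 hp.2.1 hp.2.2 hj
  refine (Finset.sum_le_card_nsmul _ _ _ hterm).trans ?_
  rw [nsmul_eq_mul, hqs]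
  calc _ ≤ (C * q) * (16 * q ^ 2) := by gcongr
    _ = _ := by ring

/-! ### a summation lemma -/

theorem s2_geo1 (I : ℕ) : ∑ i ∈ range I, 1 / √((2 : ℝ) ^ i) ≤ 4 - 4 * (1 / √((2 : ℝ) ^ I)) := by
  have h2 : (4 / 3 : ℝ) ≤ √2 := by
    apply Real.le_sqrt_of_sq_le; norm_num
  induction I with
  | zero => simp
  | succ I ih =>
    rw [sum_range_succ]
    have e : √((2 : ℝ) ^ (I + 1)) = √((2 : ℝ) ^ I) * √2 := by
      rw [pow_succ, Real.sqrt_mul (by positivity)]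
    have hp : 0 < √((2 : ℝ) ^ I) := Real.sqrt_pos.2 (by positivity)
    have h3 : 4 * (1 / √((2 : ℝ) ^ (I + 1))) ≤ 3 * (1 / √((2 : ℝ) ^ I)) := by
      rw [e, mul_one_div, mul_one_div, div_le_div_iff₀ (by positivity) hp]
      nlinarith
    linarith

theorem s2_geo2 (I : ℕ) : ∑ i ∈ range I, √((2 : ℝ) ^ i) ≤ 4 * √((2 : ℝ) ^ I) := by
  have h2 : (5 / 4 : ℝ) ≤ √2 := by
    apply Real.le_sqrt_of_sq_le; norm_num
  induction I with
  | zero => simp
  | succ I ih =>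
    rw [sum_range_succ]
    have e : √((2 : ℝ) ^ (I + 1)) = √((2 : ℝ) ^ I) * √2 := by
      rw [pow_succ, Real.sqrt_mul (by positivity)]
    have hp : 0 < √((2 : ℝ) ^ I) := Real.sqrt_pos.2 (by positivity)
    rw [e]
    nlinarith

theorem s2_sum {ι : Type*} [DecidableEq ι] (P : Finset ι) (e : ι → ℕ) (K1 K2 : ℝ) (M : ℕ)
    (hM : ∀ p ∈ P, e p ≤ M) (hK1 : 0 ≤ K1) (hK2 : 0 ≤ K2)
    (hK : ∀ E : ℕ, 1 ≤ E → ((P.filter (fun p => e p < E)).card : ℝ) ≤ K1 + K2 * E) :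
    ∑ p ∈ P, 1 / √((e p : ℝ) + 1) ≤ 4 * K1 + 12 * K2 * √((M : ℝ) + 1) := by
  have hmaps : ∀ p ∈ P, Nat.log 2 (e p + 1) ∈ range (Nat.log 2 (M + 1) + 1) := by
    intro p hp
    rw [mem_range]
    have := Nat.log_mono_right (b := 2) (Nat.succ_le_succ (hM p hp))
    simp only [Nat.succ_eq_add_one] at this
    omega
  rw [← Finset.sum_fiberwise_of_maps_to hmaps]
  have hterm : ∀ i ∈ range (Nat.log 2 (M + 1) + 1),
      ∑ p ∈ P.filter (fun p => Nat.log 2 (e p + 1) = i), 1 / √((e p : ℝ) + 1) ≤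
        K1 * (1 / √((2 : ℝ) ^ i)) + 2 * K2 * √((2 : ℝ) ^ i) := by
    intro i _
    have h1 : ∀ p ∈ P.filter (fun p => Nat.log 2 (e p + 1) = i),
        1 / √((e p : ℝ) + 1) ≤ 1 / √((2 : ℝ) ^ i) := by
      intro p hp
      rw [mem_filter] at hp
      have h2 : 2 ^ i ≤ e p + 1 := by
        rw [← hp.2]; exact Nat.pow_log_le_self 2 (by omega)
      have h3 : (2 : ℝ) ^ i ≤ (e p : ℝ) + 1 := by exact_mod_cast h2
      exact one_div_le_one_div_of_le (by positivity) (Real.sqrt_le_sqrt h3)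
    refine (Finset.sum_le_card_nsmul _ _ _ h1).trans ?_
    rw [nsmul_eq_mul]
    have h2 : ((P.filter (fun p => Nat.log 2 (e p + 1) = i)).card : ℝ) ≤
        K1 + K2 * ((2 ^ (i + 1) : ℕ) : ℝ) := by
      refine le_trans ?_ (hK (2 ^ (i + 1)) (Nat.one_le_two_pow))
      have : P.filter (fun p => Nat.log 2 (e p + 1) = i) ⊆ P.filter (fun p => e p < 2 ^ (i + 1)) := by
        intro p hp
        rw [mem_filter] at hp ⊢
        refine ⟨hp.1, ?_⟩
        have := Nat.lt_pow_succ_log_self (b := 2) (by norm_num) (e p + 1)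
        rw [hp.2] at this
        simp only [Nat.succ_eq_add_one] at this
        omega
      exact_mod_cast card_le_card this
    have h4 : 0 < √((2 : ℝ) ^ i) := Real.sqrt_pos.2 (by positivity)
    have h5 : √((2 : ℝ) ^ i) * √((2 : ℝ) ^ i) = (2 : ℝ) ^ i := Real.mul_self_sqrt (by positivity)
    push_cast at h2
    calc _ ≤ (K1 + K2 * (2 : ℝ) ^ (i + 1)) * (1 / √((2 : ℝ) ^ i)) := by gcongr
      _ = K1 * (1 / √((2 : ℝ) ^ i)) + 2 * K2 * ((2 : ℝ) ^ i * (1 / √((2 : ℝ) ^ i))) := by ring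
      _ = K1 * (1 / √((2 : ℝ) ^ i)) + 2 * K2 * √((2 : ℝ) ^ i) := by
        congr 2
        rw [mul_one_div, div_eq_iff h4.ne', h5]
  refine (Finset.sum_le_sum hterm).trans ?_
  rw [sum_add_distrib, ← mul_sum, ← mul_sum]
  have g1 := s2_geo1 (Nat.log 2 (M + 1) + 1)
  have g2 := s2_geo2 (Nat.log 2 (M + 1) + 1)
  have g3 : 0 ≤ 4 * (1 / √((2 : ℝ) ^ (Nat.log 2 (M + 1) + 1))) := by positivity
  have g4 : √((2 : ℝ) ^ (Nat.log 2 (M + 1) + 1)) ≤ 3 / 2 * √((M : ℝ) + 1) := by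
    have h1 : (2 : ℝ) ^ (Nat.log 2 (M + 1) + 1) ≤ 2 * ((M : ℝ) + 1) := by
      have : 2 ^ Nat.log 2 (M + 1) ≤ M + 1 := Nat.pow_log_le_self 2 (by omega)
      have : (2 : ℝ) ^ Nat.log 2 (M + 1) ≤ (M : ℝ) + 1 := by exact_mod_cast this
      rw [pow_succ]; linarith
    refine (Real.sqrt_le_sqrt h1).trans ?_
    rw [Real.sqrt_mul (by norm_num)]
    have : √(2 : ℝ) ≤ 3 / 2 := by
      rw [Real.sqrt_le_left (by norm_num)]; norm_num
    gcongr
  calc K1 * ∑ i ∈ range (Nat.log 2 (M + 1) + 1), 1 / √((2 : ℝ) ^ i) +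
        2 * K2 * ∑ i ∈ range (Nat.log 2 (M + 1) + 1), √((2 : ℝ) ^ i)
      ≤ K1 * 4 + 2 * K2 * (4 * (3 / 2 * √((M : ℝ) + 1))) := by
        gcongr
        · linarith
        · exact g2.trans (by gcongr)
    _ = _ := by ring

/-! ### far from the diagonal -/

theorem s2_far1 : ∃ C > 0, ∀ (N : ℕ) (A : ℝ) (j : ℕ), 64 ≤ N → j ≤ N →
    ∑ p ∈ (smF N A).filter (fun p => p.1 - p.2 ≤ j), kb p.1 p.2 j ≤
      C * (N : ℝ) ^ (3 / 4 : ℝ) := by
  obtain ⟨Ca, hCa, hall⟩ := s2_count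
  obtain ⟨Cf, hCf, hfar⟩ := count_far
  refine ⟨16 * (16 * Cf + 48 * Ca), by positivity, fun N A j hN hj => ?_⟩
  obtain ⟨q, hq2, hq4, hqs, hq1, hq3⟩ := sm_q hN
  have hq0 : 0 < q := by linarith
  rw [hq3]
  set P := (smF N A).filter (fun p => p.1 - p.2 ≤ j) with hP
  rcases P.eq_empty_or_nonempty with hem | ⟨p0, hp0⟩
  · rw [hem, sum_empty]; positivity
  have hδ : ∀ p ∈ P, N ≤ (p.1 - p.2) ^ 2 ∧ p.1 - p.2 ≤ j ∧ p ∈ smF N A := by
    intro p hp
    rw [hP, mem_filter] at hp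
    exact ⟨(sm_memF.1 hp.1).2.2, hp.2, hp.1⟩
  have hjq : q ≤ √(j : ℝ) := by
    have h1 := hδ p0 hp0
    have h2 : N ≤ j ^ 2 := h1.1.trans (Nat.pow_le_pow_left h1.2.1 2)
    have h3 : q ^ 4 ≤ (j : ℝ) ^ 2 := by rw [hq4]; exact_mod_cast h2
    have h4 : q ^ 2 ≤ (j : ℝ) := by
      nlinarith [sq_nonneg (q ^ 2), Nat.cast_nonneg (α := ℝ) j]
    exact Real.le_sqrt_of_sq_le h4
  have hj0 : 1 ≤ j := by
    by_contra hcon
    have : j = 0 := by omega
    rw [this, Nat.cast_zero, Real.sqrt_zero] at hjq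
    linarith
  have hjs : 0 < √(j : ℝ) := by linarith
  have hjj : √(j : ℝ) * √(j : ℝ) = j := Real.mul_self_sqrt (Nat.cast_nonneg j)
  have hjq2 : √(j : ℝ) ≤ q ^ 2 := by
    rw [← hqs]; exact Real.sqrt_le_sqrt (by exact_mod_cast hj)
  have hterm : ∀ p ∈ P, kb p.1 p.2 j ≤ 16 * N / √(j : ℝ) *
      (1 / √(((j - (p.1 - p.2) : ℕ) : ℝ) + 1)) := by
    intro p hp
    rw [hP, mem_filter] at hp
    have h1 := sm_memF.1 hp.1
    have h2 := (sm_memWin (n := p.1) (m := p.2)).1 h1.1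
    rw [mul_one_div]
    exact sm_kb1 (by omega) h2.1.1 h2.1.2 h2.2.1.1 h2.2.1.2 h1.2.1 hj0 hj hp.2
  refine (sum_le_sum hterm).trans ?_
  rw [← mul_sum]
  -- points in an interval
  have hint : ∀ (Q : Finset (ℕ × ℕ)) (E : ℕ), Q ⊆ P → (∀ p ∈ Q, j - (p.1 - p.2) < E) →
      ∃ n0, ∀ p ∈ Q, n0 ≤ p.1 ∧ p.1 < n0 + E := by
    intro Q E hQ hE
    apply sm_interval Q E
    intro p hp p' hp' hle
    have h1 := hδ p (hQ hp)
    have h2 := hδ p' (hQ hp')
    have h3 := sm_gap (by omega) h1.2.2 h2.2.2 hle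
    have h4 := hE p hp
    have h5 := hE p' hp'
    omega
  set r := Nat.sqrt N with hr
  have hrS : (r : ℝ) ≤ √N := Real.nat_sqrt_le_real_sqrt
  have hSr : √(N : ℝ) ≤ r + 1 := Real.real_sqrt_le_nat_sqrt_succ
  have hr1 : 1 ≤ r := by rw [hr, Nat.le_sqrt]; omega
  -- the part with small `e`
  have hA : ∑ p ∈ P.filter (fun p => j - (p.1 - p.2) < r),
      1 / √(((j - (p.1 - p.2) : ℕ) : ℝ) + 1) ≤ 16 * Cf * (√(j : ℝ) / q) := by
    have h1 := s2_sum (P.filter (fun p => j - (p.1 - p.2) < r)) (fun p => j - (p.1 - p.2))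
      Cf (Cf * (j / N)) (r - 1)
      (fun p hp => by
        have h := (mem_filter.1 hp).2
        show j - (p.1 - p.2) ≤ r - 1
        omega) hCf.le (by positivity) (fun E hE => by
        set Q := (P.filter (fun p => j - (p.1 - p.2) < r)).filter
          (fun p => j - (p.1 - p.2) < E) with hQ
        have hQP : Q ⊆ P := (filter_subset _ _).trans (filter_subset _ _)
        obtain ⟨n0, hn0⟩ := hint Q E hQP (fun p hp => (mem_filter.1 hp).2)
        have hsub : Q ⊆ (Win N A).filter (fun p => n0 ≤ p.1 ∧ p.1 < n0 + E ∧ p.2 ≤ p.1 ∧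
            N ≤ (p.1 - p.2) ^ 2 ∧ p.1 - p.2 ≤ j) := by
          intro p hp
          have h1 := hδ p (hQP hp)
          have h2 := sm_memF.1 h1.2.2
          rw [mem_filter]
          exact ⟨h2.1, (hn0 p hp).1, (hn0 p hp).2, h2.2.1, h2.2.2, h1.2.1⟩
        have h2 : (Q.card : ℝ) ≤ Cf * (1 + E * j / N) := by
          refine le_trans ?_ (hfar N A E n0 j hN)
          exact_mod_cast card_le_card hsub
        refine h2.trans (le_of_eq ?_)
        ring)
    refine h1.trans ?_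
    have h3 : √(((r - 1 : ℕ) : ℝ) + 1) ≤ q := by
      have e : ((r - 1 : ℕ) : ℝ) + 1 = r := by
        rw [Nat.cast_sub hr1]; push_cast; ring
      rw [e]
      have : (r : ℝ) ≤ q ^ 2 := by rw [← hqs]; exact hrS
      calc √(r : ℝ) ≤ √(q ^ 2) := Real.sqrt_le_sqrt this
        _ = q := Real.sqrt_sq hq0.le
    have h4 : (j : ℝ) / N * q ≤ √(j : ℝ) / q := by
      rw [← hq4, div_mul_eq_mul_div, div_le_div_iff₀ (by positivity) hq0]
      have : (j : ℝ) ≤ √(j : ℝ) * q ^ 2 := by nlinarith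
      nlinarith [pow_pos hq0 2]
    have h5 : 1 ≤ √(j : ℝ) / q := by rw [le_div_iff₀ hq0]; linarith
    calc 4 * Cf + 12 * (Cf * (j / N)) * √(((r - 1 : ℕ) : ℝ) + 1)
        ≤ 4 * Cf + 12 * (Cf * (j / N)) * q := by gcongr
      _ = 4 * Cf * 1 + 12 * Cf * (j / N * q) := by ring
      _ ≤ 4 * Cf * (√(j : ℝ) / q) + 12 * Cf * (√(j : ℝ) / q) := by gcongr
      _ = _ := by ring
  -- the part with large `e`
  have hB : ∑ p ∈ P.filter (fun p => ¬ j - (p.1 - p.2) < r),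
      1 / √(((j - (p.1 - p.2) : ℕ) : ℝ) + 1) ≤ 48 * Ca * (√(j : ℝ) / q) := by
    have h1 := s2_sum (P.filter (fun p => ¬ j - (p.1 - p.2) < r)) (fun p => j - (p.1 - p.2))
      0 (2 * Ca / q) j
      (fun p hp => by
        show j - (p.1 - p.2) ≤ j
        omega) le_rfl (by positivity) (fun E hE => by
        set Q := (P.filter (fun p => ¬ j - (p.1 - p.2) < r)).filter
          (fun p => j - (p.1 - p.2) < E) with hQ
        have hQP : Q ⊆ P := (filter_subset _ _).trans (filter_subset _ _)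
        rcases Q.eq_empty_or_nonempty with hQe | ⟨p1, hp1⟩
        · rw [hQe, card_empty, Nat.cast_zero]; positivity
        have hrE : r + 1 ≤ E := by
          rw [hQ, mem_filter, mem_filter] at hp1
          omega
        obtain ⟨n0, hn0⟩ := hint Q E hQP (fun p hp => (mem_filter.1 hp).2)
        have hsub : Q ⊆ (Win N A).filter (fun p => n0 ≤ p.1 ∧ p.1 < n0 + E) := by
          intro p hp
          have h1 := hδ p (hQP hp)
          have h2 := sm_memF.1 h1.2.2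
          rw [mem_filter]
          exact ⟨h2.1, (hn0 p hp).1, (hn0 p hp).2⟩
        have h2 : (Q.card : ℝ) ≤ Ca * (E / √N + 1) * (N : ℝ) ^ (1 / 4 : ℝ) := by
          refine le_trans ?_ (hall N A E n0 hN)
          exact_mod_cast card_le_card hsub
        rw [hq1, hqs] at h2
        refine h2.trans ?_
        have h3 : (1 : ℝ) ≤ E / q ^ 2 := by
          rw [le_div_iff₀ (by positivity), ← hqs]
          have : ((r + 1 : ℕ) : ℝ) ≤ E := by exact_mod_cast hrE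
          push_cast at this
          linarith
        calc Ca * (E / q ^ 2 + 1) * q ≤ Ca * (E / q ^ 2 + E / q ^ 2) * q := by gcongr
          _ = 0 + 2 * Ca / q * E := by field_simp; ring)
    refine h1.trans ?_
    have h3 : √((j : ℝ) + 1) ≤ 2 * √(j : ℝ) := by
      rw [Real.sqrt_le_left (by positivity), mul_pow, Real.sq_sqrt (Nat.cast_nonneg _)]
      have : (1 : ℝ) ≤ j := by exact_mod_cast hj0
      linarith
    calc 4 * (0 : ℝ) + 12 * (2 * Ca / q) * √((j : ℝ) + 1)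
        ≤ 4 * (0 : ℝ) + 12 * (2 * Ca / q) * (2 * √(j : ℝ)) := by gcongr
      _ = _ := by ring
  have hAB := Finset.sum_filter_add_sum_filter_not P (fun p => j - (p.1 - p.2) < r)
    (fun p => 1 / √(((j - (p.1 - p.2) : ℕ) : ℝ) + 1))
  rw [← hAB]
  calc 16 * (N : ℝ) / √(j : ℝ) * (_ + _)
      ≤ 16 * (N : ℝ) / √(j : ℝ) * (16 * Cf * (√(j : ℝ) / q) + 48 * Ca * (√(j : ℝ) / q)) := by
        gcongr
    _ = 16 * (16 * Cf + 48 * Ca) * q ^ 3 := by
        rw [← hq4]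
        field_simp

theorem s2_far2 : ∃ C > 0, ∀ (N : ℕ) (A : ℝ) (j : ℕ), 64 ≤ N → N < j →
    ∑ p ∈ (smF N A).filter (fun p => p.1 - p.2 ≤ j ∧ N + j ≤ p.1 + p.2), kb p.1 p.2 j ≤
      C * (N : ℝ) ^ (3 / 4 : ℝ) := by
  obtain ⟨Ca, hCa, hall⟩ := s2_count
  refine ⟨16 * (40 * Ca), by positivity, fun N A j hN hj => ?_⟩
  obtain ⟨q, hq2, hq4, hqs, hq1, hq3⟩ := sm_q hN
  have hq0 : 0 < q := by linarith
  rw [hq3]
  set P := (smF N A).filter (fun p => p.1 - p.2 ≤ j ∧ N + j ≤ p.1 + p.2) with hP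
  have hterm : ∀ p ∈ P, kb p.1 p.2 j ≤ 16 * √N *
      (1 / √(((j - (p.1 - p.2) : ℕ) : ℝ) + 1)) := by
    intro p hp
    rw [hP, mem_filter] at hp
    have h1 := sm_memF.1 hp.1
    have h2 := (sm_memWin (n := p.1) (m := p.2)).1 h1.1
    rw [mul_one_div]
    exact sm_kb2 (by omega) h2.1.1 h2.1.2 h2.2.1.1 h2.2.1.2 h1.2.1 hj hp.2.1 hp.2.2
  refine (sum_le_sum hterm).trans ?_
  rw [← mul_sum]
  have hδ : ∀ p ∈ P, p.1 - p.2 ≤ j ∧ p ∈ smF N A := by
    intro p hp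
    rw [hP, mem_filter] at hp
    exact ⟨hp.2.1, hp.1⟩
  have h1 := s2_sum P (fun p => j - (p.1 - p.2)) (Ca * q) (Ca / q) (4 * N)
    (fun p hp => by
      show j - (p.1 - p.2) ≤ 4 * N
      rw [hP, mem_filter] at hp
      have h2 := (sm_memWin (n := p.1) (m := p.2)).1 (sm_memF.1 hp.1).1
      omega) (by positivity) (by positivity) (fun E hE => by
      set Q := P.filter (fun p => j - (p.1 - p.2) < E) with hQ
      have hQP : Q ⊆ P := filter_subset _ _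
      obtain ⟨n0, hn0⟩ := sm_interval Q E (by
        intro p hp p' hp' hle
        have h1 := hδ p (hQP hp)
        have h2 := hδ p' (hQP hp')
        have h3 := sm_gap (by omega) h1.2 h2.2 hle
        have h4 := (mem_filter.1 hp).2
        have h5 := (mem_filter.1 hp').2
        omega)
      have hsub : Q ⊆ (Win N A).filter (fun p => n0 ≤ p.1 ∧ p.1 < n0 + E) := by
        intro p hp
        have h1 := hδ p (hQP hp)
        have h2 := sm_memF.1 h1.2
        rw [mem_filter]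
        exact ⟨h2.1, (hn0 p hp).1, (hn0 p hp).2⟩
      have h2 : (Q.card : ℝ) ≤ Ca * (E / √N + 1) * (N : ℝ) ^ (1 / 4 : ℝ) := by
        refine le_trans ?_ (hall N A E n0 hN)
        exact_mod_cast card_le_card hsub
      rw [hq1, hqs] at h2
      refine h2.trans (le_of_eq ?_)
      field_simp
      ring)
  have h3 : √(((4 * N : ℕ) : ℝ) + 1) ≤ 3 * q ^ 2 := by
    rw [Real.sqrt_le_left (by positivity), mul_pow, ← pow_mul, hq4]
    push_cast
    have : (64 : ℝ) ≤ N := by exact_mod_cast hN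
    linarith
  calc 16 * √(N : ℝ) * ∑ p ∈ P, 1 / √(((j - (p.1 - p.2) : ℕ) : ℝ) + 1)
      ≤ 16 * √(N : ℝ) * (4 * (Ca * q) + 12 * (Ca / q) * √(((4 * N : ℕ) : ℝ) + 1)) := by
        gcongr
    _ ≤ 16 * √(N : ℝ) * (4 * (Ca * q) + 12 * (Ca / q) * (3 * q ^ 2)) := by gcongr
    _ = 16 * (40 * Ca) * q ^ 3 := by
        rw [hqs]
        field_simp
        ring

theorem s2_far3 : ∃ C > 0, ∀ (N : ℕ) (A : ℝ) (j : ℕ), 64 ≤ N → N < j →
    ∑ p ∈ (smF N A).filter (fun p => N + (p.1 - p.2) ≤ j ∧ j ≤ p.1 + p.2), kb p.1 p.2 j ≤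
      C * (N : ℝ) ^ (3 / 4 : ℝ) := by
  obtain ⟨Ca, hCa, hall⟩ := s2_count
  refine ⟨16 * (12000 * Ca), by positivity, fun N A j hN hj => ?_⟩
  obtain ⟨q, hq2, hq4, hqs, hq1, hq3⟩ := sm_q hN
  have hq0 : 0 < q := by linarith
  have hNR : (64 : ℝ) ≤ N := by exact_mod_cast hN
  have hN0 : (0 : ℝ) < N := by linarith
  rw [hq3]
  set P := (smF N A).filter (fun p => N + (p.1 - p.2) ≤ j ∧ j ≤ p.1 + p.2) with hP
  have hterm : ∀ p ∈ P, kb p.1 p.2 j ≤ 16 * √N *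
      (1 / √(((p.1 + p.2 - j : ℕ) : ℝ) + 1)) := by
    intro p hp
    rw [hP, mem_filter] at hp
    have h1 := sm_memF.1 hp.1
    have h2 := (sm_memWin (n := p.1) (m := p.2)).1 h1.1
    rw [mul_one_div]
    exact sm_kb3 (by omega) h2.1.1 h2.1.2 h2.2.1.1 h2.2.1.2 h1.2.1 hj hp.2.1 hp.2.2
  rcases P.eq_empty_or_nonempty with hem | hne
  · rw [hem, sum_empty]; positivity
  obtain ⟨p1, hp1, hmax⟩ := P.exists_max_image (fun p => p.1) hne
  have hδ : ∀ p ∈ P, j ≤ p.1 + p.2 ∧ p ∈ Win N A ∧ p.2 ≤ p.1 ∧ N ≤ (p.1 - p.2) ^ 2 := by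
    intro p hp
    rw [hP, mem_filter] at hp
    have := sm_memF.1 hp.1
    exact ⟨hp.2.2, this.1, this.2.1, this.2.2⟩
  have k1 := hδ p1 hp1
  -- the distance of `p1` from the diagonal
  obtain ⟨D, hD⟩ : ∃ D : ℝ, D = (p1.1 : ℝ) - p1.2 := ⟨_, rfl⟩
  have hDq : q ^ 2 ≤ D := by
    rw [← hqs, hD]
    apply Real.sqrt_le_iff.2
    have hc : (p1.2 : ℝ) ≤ p1.1 := by exact_mod_cast k1.2.2.1
    refine ⟨by linarith, ?_⟩
    have : (N : ℝ) ≤ (((p1.1 - p1.2 : ℕ)) : ℝ) ^ 2 := by exact_mod_cast k1.2.2.2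
    rwa [Nat.cast_sub k1.2.2.1] at this
  have hD8 : 8 ≤ D := by
    have := sqrt_ge8 hN
    rw [hqs] at this
    linarith
  -- facts about a point
  have hfact : ∀ p ∈ P, p.1 ≤ p1.1 ∧ p1.1 + p1.2 ≤ p.1 + p.2 ∧
      ((p1.1 : ℝ) - p.1) * ((p1.1 : ℝ) - p.2) ≤
        15 * N * (((p.1 : ℝ) + p.2) - (p1.1 + p1.2) + 1) ∧
      ((p.1 : ℝ) + p.2) - (p1.1 + p1.2) ≤ 1 + ((p1.1 : ℝ) - p.1) * ((p1.1 : ℝ) - p.2) / N ∧
      (p1.2 : ℝ) ≤ p.2 ∧ (p.2 : ℝ) ≤ p.1 ∧ (N : ℝ) ≤ p.2 ∧ (p1.1 : ℝ) ≤ 2 * N := by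
    intro p hp
    have k := hδ p hp
    have hle := hmax p hp
    have hs := win_sum hN k.2.1 k1.2.1 k.2.2.1 hle
    have hd := win_drop hN k.2.1 k1.2.1 k.2.2.1 hle
    have w := (sm_memWin (n := p.1) (m := p.2)).1 k.2.1
    have w1 := (sm_memWin (n := p1.1) (m := p1.2)).1 k1.2.1
    have e1 : 1 / 3 / √(N : ℝ) ≤ 1 := by
      rw [hqs, div_le_one (by positivity)]; nlinarith
    have e2 : 1 / √(N : ℝ) ≤ 1 := by
      rw [hqs, div_le_one (by positivity)]; nlinarith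
    have hm : p1.2 ≤ p.2 := by
      rcases hle.eq_or_lt with e | hlt
      · have : (p.1, p1.2) ∈ Win N A := by rw [e]; exact k1.2.1
        exact (win_inj hN this k.2.1).le
      · exact (win_anti hN k.2.1 k1.2.1 hlt).le
    refine ⟨hle, hs, ?_, by linarith [hd.2], by exact_mod_cast hm, by exact_mod_cast k.2.2.1,
      by exact_mod_cast w.2.1.1, by exact_mod_cast w1.1.2.le⟩
    have h3 : 1 / 15 * ((p1.1 : ℝ) - p.1) * ((p1.1 : ℝ) - p.2) / N ≤
        ((p.1 : ℝ) + p.2) - (p1.1 + p1.2) + 1 := by linarith [hd.1]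
    rw [div_le_iff₀ hN0] at h3
    linarith
  refine (sum_le_sum hterm).trans ?_
  rw [← mul_sum]
  -- shift
  have hshift : ∑ p ∈ P, 1 / √(((p.1 + p.2 - j : ℕ) : ℝ) + 1) ≤
      ∑ p ∈ P, 1 / √(((p.1 + p.2 - (p1.1 + p1.2) : ℕ) : ℝ) + 1) := by
    refine sum_le_sum fun p hp => ?_
    apply one_div_le_one_div_of_le (Real.sqrt_pos.2 (by positivity))
    apply Real.sqrt_le_sqrt
    have : p.1 + p.2 - (p1.1 + p1.2) ≤ p.1 + p.2 - j := by
      have := k1.1
      omega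
    have : ((p.1 + p.2 - (p1.1 + p1.2) : ℕ) : ℝ) ≤ ((p.1 + p.2 - j : ℕ) : ℝ) := by
      exact_mod_cast this
    linarith
  -- the largest value
  set L : ℕ := ⌊1 + D ^ 2 / N⌋₊ with hL
  have hL1 : (L : ℝ) ≤ 1 + D ^ 2 / N := Nat.floor_le (by positivity)
  have hcast : ∀ p ∈ P, ((p.1 + p.2 - (p1.1 + p1.2) : ℕ) : ℝ) =
      ((p.1 : ℝ) + p.2) - (p1.1 + p1.2) := by
    intro p hp
    rw [Nat.cast_sub (hfact p hp).2.1]
    push_cast
    ring
  have h1 := s2_sum P (fun p => p.1 + p.2 - (p1.1 + p1.2)) (3 * Ca * q)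
    (180 * Ca * (q ^ 3 / D)) L
    (fun p hp => by
      show p.1 + p.2 - (p1.1 + p1.2) ≤ L
      apply Nat.le_floor
      rw [hcast p hp]
      obtain ⟨f1, f2, f3, f4, f5, f6, f7, f8⟩ := hfact p hp
      refine f4.trans ?_
      have g1 : (p.1 : ℝ) ≤ p1.1 := by exact_mod_cast f1
      have g2 : (p1.1 : ℝ) - p.1 ≤ D := by rw [hD]; linarith
      have g3 : (p1.1 : ℝ) - p.2 ≤ D := by rw [hD]; linarith
      have g4 : ((p1.1 : ℝ) - p.1) * ((p1.1 : ℝ) - p.2) ≤ D ^ 2 := by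
        rw [pow_two]
        exact mul_le_mul g2 g3 (by linarith) (by linarith)
      have : ((p1.1 : ℝ) - p.1) * ((p1.1 : ℝ) - p.2) / N ≤ D ^ 2 / N := by gcongr
      linarith) (by positivity) (by positivity) (fun E hE => by
      set Q := P.filter (fun p => p.1 + p.2 - (p1.1 + p1.2) < E) with hQ
      have hQP : Q ⊆ P := filter_subset _ _
      have hER : (1 : ℝ) ≤ E := by exact_mod_cast hE
      set W : ℝ := 180 * N * E / D with hW
      have hW0 : 0 ≤ W := by positivity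
      have hwid : ∀ p ∈ Q, (p1.1 : ℝ) - p.1 ≤ W := by
        intro p hp
        have hpP := hQP hp
        have hpE := (mem_filter.1 hp).2
        obtain ⟨f1, f2, f3, f4, f5, f6, f7, f8⟩ := hfact p hpP
        have hc := hcast p hpP
        have g0 : (((p.1 + p.2 - (p1.1 + p1.2) : ℕ)) : ℝ) ≤ E := by exact_mod_cast hpE.le
        rw [hc] at g0
        have g1 : (p.1 : ℝ) ≤ p1.1 := by exact_mod_cast f1
        obtain ⟨w, hw⟩ : ∃ w : ℝ, w = (p1.1 : ℝ) - p.1 := ⟨_, rfl⟩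
        rw [← hw] at f3 f4 ⊢
        have w0 : 0 ≤ w := by linarith
        have f3' : w * ((p1.1 : ℝ) - p.2) ≤ 30 * N * E := by
          have : 15 * (N : ℝ) * (((p.1 : ℝ) + p.2) - (p1.1 + p1.2) + 1) ≤ 15 * N * (2 * E) := by
            gcongr
            linarith
          linarith
        -- `p1.1 - p.2 ≥ D - 2 w - 1`
        have g2 : ((p.1 : ℝ) + p.2) - (p1.1 + p1.2) ≤ 1 + w := by
          refine f4.trans ?_
          have : w * ((p1.1 : ℝ) - p.2) / N ≤ w := by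
            rw [div_le_iff₀ hN0]
            exact mul_le_mul_of_nonneg_left (by linarith) w0
          linarith
        have g3 : D - 2 * w - 1 ≤ (p1.1 : ℝ) - p.2 := by
          rw [hD]
          linarith
        have g4 : w ≤ (p1.1 : ℝ) - p.2 := by linarith
        rw [hW, le_div_iff₀ (by linarith)]
        rcases le_total w (D / 6) with hc | hc
        · have g5 : D / 2 ≤ (p1.1 : ℝ) - p.2 := by linarith
          have g6 : w * (D / 2) ≤ w * ((p1.1 : ℝ) - p.2) := mul_le_mul_of_nonneg_left g5 w0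
          have g7 : 0 ≤ (N : ℝ) * E := by positivity
          nlinarith
        · have g5 : w * w ≤ w * ((p1.1 : ℝ) - p.2) := mul_le_mul_of_nonneg_left g4 w0
          have g6 : w * D ≤ w * (6 * w) := mul_le_mul_of_nonneg_left (by linarith) w0
          nlinarith
      set H : ℕ := ⌊W⌋₊ + 1 with hH
      obtain ⟨n0, hn0⟩ := sm_interval Q H (by
        intro p hp p' hp' hle
        have h1 := hwid p hp
        have h2 : (p'.1 : ℝ) ≤ p1.1 := by exact_mod_cast hmax p' (hQP hp')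
        have h3 : p'.1 - p.1 ≤ ⌊W⌋₊ := by
          apply Nat.le_floor
          rw [Nat.cast_sub hle]
          linarith
        omega)
      have hsub : Q ⊆ (Win N A).filter (fun p => n0 ≤ p.1 ∧ p.1 < n0 + H) := by
        intro p hp
        have h1 := hδ p (hQP hp)
        rw [mem_filter]
        exact ⟨h1.2.1, (hn0 p hp).1, (hn0 p hp).2⟩
      have h2 : (Q.card : ℝ) ≤ Ca * (H / √N + 1) * (N : ℝ) ^ (1 / 4 : ℝ) := by
        refine le_trans ?_ (hall N A H n0 hN)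
        exact_mod_cast card_le_card hsub
      rw [hq1, hqs] at h2
      have hHR : (H : ℝ) ≤ W + 1 := by
        rw [hH]; push_cast
        have := Nat.floor_le hW0
        linarith
      have h3 : (H : ℝ) / q ^ 2 + 1 ≤ W / q ^ 2 + 3 := by
        have : (H : ℝ) / q ^ 2 ≤ (W + 1) / q ^ 2 := by gcongr
        have h4 : (W + 1) / q ^ 2 = W / q ^ 2 + 1 / q ^ 2 := by ring
        have h5 : 1 / q ^ 2 ≤ 1 := by rw [div_le_one (by positivity)]; nlinarith
        linarith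
      calc (Q.card : ℝ) ≤ Ca * (H / q ^ 2 + 1) * q := h2
        _ ≤ Ca * (W / q ^ 2 + 3) * q := by gcongr
        _ = 3 * Ca * q + 180 * Ca * (q ^ 3 / D) * E := by
            rw [hW, ← hq4]
            field_simp
            ring)
  have hsq : √((L : ℝ) + 1) ≤ 2 * (D / q ^ 2) := by
    rw [Real.sqrt_le_left (by positivity), mul_pow, div_pow, ← pow_mul]
    norm_num
    rw [hq4]
    have : 1 ≤ D ^ 2 / N := by
      rw [le_div_iff₀ hN0, ← hq4]
      nlinarith [pow_pos hq0 2]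
    linarith
  have hfin : ∑ p ∈ P, 1 / √(((p.1 + p.2 - (p1.1 + p1.2) : ℕ) : ℝ) + 1) ≤ 12000 * Ca * q := by
    refine h1.trans ?_
    calc 4 * (3 * Ca * q) + 12 * (180 * Ca * (q ^ 3 / D)) * √((L : ℝ) + 1)
        ≤ 4 * (3 * Ca * q) + 12 * (180 * Ca * (q ^ 3 / D)) * (2 * (D / q ^ 2)) := by
          have : 0 ≤ q ^ 3 / D := div_nonneg (by positivity) (by linarith)
          gcongr
      _ = 4332 * Ca * q := by
          have : D ≠ 0 := by linarith
          field_simp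
          ring
      _ ≤ 12000 * Ca * q := by
          gcongr
          norm_num
  calc 16 * √(N : ℝ) * ∑ p ∈ P, 1 / √(((p.1 + p.2 - j : ℕ) : ℝ) + 1)
      ≤ 16 * √(N : ℝ) * (12000 * Ca * q) := by
        gcongr
        exact hshift.trans hfin
    _ = 16 * (12000 * Ca) * q ^ 3 := by rw [hqs]; ring

theorem s2_farHalf : ∃ C > 0, ∀ (N : ℕ) (A : ℝ) (j : ℕ), 64 ≤ N →
    ∑ p ∈ smF N A, kb p.1 p.2 j ≤ C * (N : ℝ) ^ (3 / 4 : ℝ) := by
  obtain ⟨C1, hC1, h1⟩ := s2_far1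
  obtain ⟨C2, hC2, h2⟩ := s2_far2
  obtain ⟨C3, hC3, h3⟩ := s2_far3
  refine ⟨C1 + C2 + C3, by positivity, fun N A j hN => ?_⟩
  have hX : 0 ≤ (N : ℝ) ^ (3 / 4 : ℝ) := by positivity
  have hzero : ∀ p ∈ smF N A, ¬ (p.1 - p.2 ≤ j ∧ j ≤ p.1 + p.2) → kb p.1 p.2 j = 0 := by
    intro p hp hcon
    have := (sm_memF.1 hp).2.1
    unfold kb
    rw [if_neg]
    rintro ⟨a1, a2, a3⟩
    exact hcon ⟨by omega, a3⟩
  rcases le_or_gt j N with hj | hj
  · have := h1 N A j hN hj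
    have hle : ∑ p ∈ smF N A, kb p.1 p.2 j ≤
        ∑ p ∈ (smF N A).filter (fun p => p.1 - p.2 ≤ j), kb p.1 p.2 j := by
      rw [sum_filter]
      apply sum_le_sum
      intro p hp
      split_ifs with hc
      · exact le_rfl
      · exact (hzero p hp (fun h => hc h.1)).le
    nlinarith
  · have e2 := h2 N A j hN hj
    have e3 := h3 N A j hN hj
    have hle : ∑ p ∈ smF N A, kb p.1 p.2 j ≤
        ∑ p ∈ (smF N A).filter (fun p => p.1 - p.2 ≤ j ∧ N + j ≤ p.1 + p.2), kb p.1 p.2 j +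
        ∑ p ∈ (smF N A).filter (fun p => N + (p.1 - p.2) ≤ j ∧ j ≤ p.1 + p.2), kb p.1 p.2 j := by
      rw [sum_filter, sum_filter, ← sum_add_distrib]
      apply sum_le_sum
      intro p hp
      have hk := kb_nonneg p.1 p.2 j
      by_cases hc : p.1 - p.2 ≤ j ∧ j ≤ p.1 + p.2
      · have hw := (sm_memWin (n := p.1) (m := p.2)).1 (sm_memF.1 hp).1
        have hle := (sm_memF.1 hp).2.1
        by_cases ha : N + j ≤ p.1 + p.2
        · rw [if_pos ⟨hc.1, ha⟩]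
          split_ifs <;> linarith
        · rw [if_neg (fun h => ha h.2), if_pos ⟨by omega, hc.2⟩]
          linarith
      · rw [hzero p hp hc]
        split_ifs <;> linarith
    nlinarith

/-- pairs off the diagonal, all output degrees -/
theorem s2_far : ∃ C > 0, ∀ (N : ℕ) (A : ℝ) (j : ℕ), 64 ≤ N →
    ∑ p ∈ (Win N A).filter (fun p => ¬ ((p.1 - p.2) ^ 2 < N ∧ (p.2 - p.1) ^ 2 < N)),
      kb p.1 p.2 j ≤ C * (N : ℝ) ^ (3 / 4 : ℝ) := by
  obtain ⟨C, hC, hhalf⟩ := s2_farHalf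
  refine ⟨2 * C, by positivity, fun N A j hN => ?_⟩
  have h1 := hhalf N A j hN
  set Q := (Win N A).filter (fun p => ¬ ((p.1 - p.2) ^ 2 < N ∧ (p.2 - p.1) ^ 2 < N)) with hQ
  have hsplit := Finset.sum_filter_add_sum_filter_not Q (fun p => p.2 ≤ p.1)
    (fun p => kb p.1 p.2 j)
  rw [← hsplit]
  have ha : ∑ p ∈ Q.filter (fun p => p.2 ≤ p.1), kb p.1 p.2 j ≤ ∑ p ∈ smF N A, kb p.1 p.2 j := by
    apply sum_le_sum_of_subset_of_nonneg
    · intro p hp
      rw [mem_filter, hQ, mem_filter] at hp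
      rw [sm_memF]
      refine ⟨hp.1.1, hp.2, ?_⟩
      by_contra hcon
      apply hp.1.2
      have : p.2 - p.1 = 0 := by omega
      refine ⟨by omega, ?_⟩
      rw [this]
      simp only [ne_eq, OfNat.ofNat_ne_zero, not_false_eq_true, zero_pow]
      omega
    · intro p _ _; exact kb_nonneg _ _ _
  have hb : ∑ p ∈ Q.filter (fun p => ¬ p.2 ≤ p.1), kb p.1 p.2 j ≤ ∑ p ∈ smF N A, kb p.1 p.2 j := by
    have himg : ∑ p ∈ Q.filter (fun p => ¬ p.2 ≤ p.1), kb p.1 p.2 j =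
        ∑ p ∈ (Q.filter (fun p => ¬ p.2 ≤ p.1)).image Prod.swap, kb p.1 p.2 j := by
      rw [sum_image (fun x _ y _ h => Prod.swap_injective h)]
      apply sum_congr rfl
      intro p _
      exact sm_kb_symm _ _ _
    rw [himg]
    apply sum_le_sum_of_subset_of_nonneg
    · intro p hp
      rw [mem_image] at hp
      obtain ⟨x, hx, rfl⟩ := hp
      rw [mem_filter, hQ, mem_filter] at hx
      have hw := (sm_memWin (n := x.1) (m := x.2)).1 hx.1.1
      rw [sm_memF]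
      refine ⟨?_, ?_, ?_⟩
      · exact (sm_memWin (n := x.2) (m := x.1)).2 ⟨hw.2.1, hw.1, by linarith [hw.2.2.1],
          by linarith [hw.2.2.2]⟩
      · show x.1 ≤ x.2
        omega
      · show N ≤ (x.2 - x.1) ^ 2
        by_contra hcon
        apply hx.1.2
        have : x.1 - x.2 = 0 := by omega
        refine ⟨?_, by omega⟩
        rw [this]
        simp only [ne_eq, OfNat.ofNat_ne_zero, not_false_eq_true, zero_pow]
        omega
    · intro p _ _; exact kb_nonneg _ _ _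
  linarith

/-! ### separated blocks -/

/-- `64 M ≤ N` -/
theorem s2_sep : ∃ C > 0, ∀ (N M : ℕ) (A : ℝ) (j : ℕ), 64 ≤ M → 64 * M ≤ N →
    ∑ p ∈ Win2 N M A, kb p.1 p.2 j ≤ C * (M : ℝ) ^ (3 / 4 : ℝ) := by
  obtain ⟨Ca, hCa, hall⟩ := w2_count
  refine ⟨8 * (2 * (100 * Ca)), by positivity, fun N M A j hM hMN => ?_⟩
  obtain ⟨q, hq2, hq4, hqs, hq1, hq3⟩ := sm_q hM
  have hq0 : 0 < q := by linarith
  have hMR : (64 : ℝ) ≤ M := by exact_mod_cast hM
  have hMN' : M ≤ N := by omega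
  rw [hq3]
  have s8 := sqrt_ge8 hM
  have sN : 8 * √(M : ℝ) ≤ √N := by
    rw [show (8 : ℝ) = √64 by rw [show (64 : ℝ) = 8 ^ 2 by norm_num]; simp,
      ← Real.sqrt_mul (by norm_num)]
    exact Real.sqrt_le_sqrt (by exact_mod_cast hMN)
  -- the increments
  have hinc : ∀ p ∈ Win2 N M A, ∀ p' ∈ Win2 N M A, p.2 < p'.2 →
      2 * ((p.1 : ℝ) - p'.1) ≤ (p'.2 : ℝ) - p.2 := by
    intro p hp p' hp' hl
    have hn := w2_anti hM hMN' hp hp' hl
    rw [mem_Win2'] at hp hp'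
    have a1 := (la_sub (N := M) (by omega) hp.1.2.1 hl.le hp'.1.2.2.le).2
    have a2 := (la_sub (N := N) (by omega) hp'.1.1.1 hn.le hp.1.1.2.le).1
    have c1 : (1 : ℝ) ≤ (p'.2 : ℝ) - p.2 := by
      have : (p.2 : ℝ) + 1 ≤ p'.2 := by exact_mod_cast hl
      linarith
    have c0 : (0 : ℝ) ≤ (p.1 : ℝ) - p'.1 := by
      have : (p'.1 : ℝ) ≤ p.1 := by exact_mod_cast hn.le
      linarith
    obtain ⟨x, hx⟩ : ∃ x : ℝ, x = (p'.2 : ℝ) - p.2 := ⟨_, rfl⟩
    obtain ⟨y, hy⟩ : ∃ y : ℝ, y = (p.1 : ℝ) - p'.1 := ⟨_, rfl⟩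
    rw [← hx] at a1 c1 ⊢
    rw [← hy] at a2 c0 ⊢
    have b1 : √(N : ℝ) * y ≤ 3 * √M * x + 1 := by
      linarith [hp.2.1, hp'.2.2, hp.2.2, hp'.2.1]
    have b2 : 8 * √(M : ℝ) * y ≤ √N * y := mul_le_mul_of_nonneg_right sN c0
    have b3 : √(M : ℝ) * (2 * y) ≤ √M * x := by nlinarith
    exact le_of_mul_le_mul_left b3 (by linarith)
  -- the terms
  have hterm : ∀ p ∈ Win2 N M A, kb p.1 p.2 j ≤ 8 * q ^ 2 *
      (if (j - p.1) + (p.1 - j) ≤ p.2 then
        1 / √(((p.2 - ((j - p.1) + (p.1 - j)) : ℕ) : ℝ) + 1) else 0) := by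
    intro p hp
    rw [mem_Win2'] at hp
    have h1 := sm_low_term (a := p.1) (L := 2 * M) (l := p.2) (j := j) (by omega) hp.1.2.2
    refine h1.trans ?_
    have h2 : 4 * √((2 * M : ℕ) : ℝ) ≤ 8 * q ^ 2 := by
      rw [← hqs]
      push_cast
      rw [Real.sqrt_mul (by norm_num)]
      have : √(2 : ℝ) ≤ 2 := by
        rw [Real.sqrt_le_left (by norm_num)]; norm_num
      nlinarith [Real.sqrt_nonneg (M : ℝ)]
    apply mul_le_mul_of_nonneg_right h2
    split_ifs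
    · positivity
    · exact le_rfl
  refine (sum_le_sum hterm).trans ?_
  rw [← mul_sum, ← sum_filter]
  set P := (Win2 N M A).filter (fun p => (j - p.1) + (p.1 - j) ≤ p.2) with hP
  have hPW : ∀ p ∈ P, p ∈ Win2 N M A ∧ (j - p.1) + (p.1 - j) ≤ p.2 := fun p hp =>
    mem_filter.1 hp
  -- a general estimate for each side
  have hside : ∀ (R : Finset (ℕ × ℕ)), R ⊆ P →
      (∀ p ∈ R, ∀ p' ∈ R, p.2 < p'.2 → (p'.2 : ℝ) - p.2 ≤
        2 * (((p'.2 - ((j - p'.1) + (p'.1 - j)) : ℕ) : ℝ) -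
          ((p.2 - ((j - p.1) + (p.1 - j)) : ℕ) : ℝ))) →
      ∑ p ∈ R, 1 / √(((p.2 - ((j - p.1) + (p.1 - j)) : ℕ) : ℝ) + 1) ≤ 100 * Ca * q := by
    intro R hR hgap
    have h1 := s2_sum R (fun p => p.2 - ((j - p.1) + (p.1 - j))) (Ca * q) (2 * (Ca / q)) (2 * M)
      (fun p hp => by
        show p.2 - ((j - p.1) + (p.1 - j)) ≤ 2 * M
        have := (mem_Win2'.1 (hPW p (hR hp)).1).1.2.2
        omega) (by positivity) (by positivity) (fun E hE => by
        set Q := R.filter (fun p => p.2 - ((j - p.1) + (p.1 - j)) < E) with hQ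
        have hQR : Q ⊆ R := filter_subset _ _
        rcases Q.eq_empty_or_nonempty with hem | hne
        · rw [hem, card_empty, Nat.cast_zero]; positivity
        obtain ⟨p0, hp0, hmin⟩ := Q.exists_min_image (fun p => p.2) hne
        have hsub : Q ⊆ (Win2 N M A).filter (fun p => p0.2 ≤ p.2 ∧ p.2 < p0.2 + 2 * E) := by
          intro p hp
          rw [mem_filter]
          refine ⟨(hPW p (hR (hQR hp))).1, hmin p hp, ?_⟩
          rcases (hmin p hp).eq_or_lt with e | hlt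
          · omega
          · have h2 := hgap p0 (hQR hp0) p (hQR hp) hlt
            have h3 := (mem_filter.1 hp).2
            have h4 : (((p.2 - ((j - p.1) + (p.1 - j)) : ℕ)) : ℝ) + 1 ≤ E := by
              exact_mod_cast h3
            have h5 : (0 : ℝ) ≤ ((p0.2 - ((j - p0.1) + (p0.1 - j)) : ℕ) : ℝ) := Nat.cast_nonneg _
            have h6 : (p.2 : ℝ) < p0.2 + 2 * E := by linarith
            exact_mod_cast h6
        have h2 : (Q.card : ℝ) ≤ Ca * ((2 * E : ℕ) / √M + 1) * (M : ℝ) ^ (1 / 4 : ℝ) := by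
          refine le_trans ?_ (hall N M A (2 * E) p0.2 hM hMN')
          exact_mod_cast card_le_card hsub
        rw [hq1, hqs] at h2
        refine h2.trans (le_of_eq ?_)
        push_cast
        field_simp
        ring)
    refine h1.trans ?_
    have h3 : √(((2 * M : ℕ) : ℝ) + 1) ≤ 3 * q ^ 2 := by
      rw [Real.sqrt_le_left (by positivity), mul_pow, ← pow_mul, hq4]
      push_cast
      linarith
    calc 4 * (Ca * q) + 12 * (2 * (Ca / q)) * √(((2 * M : ℕ) : ℝ) + 1)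
        ≤ 4 * (Ca * q) + 12 * (2 * (Ca / q)) * (3 * q ^ 2) := by gcongr
      _ = 76 * Ca * q := by field_simp; ring
      _ ≤ 100 * Ca * q := by gcongr; norm_num
  have hcastE : ∀ p ∈ P, ((p.2 - ((j - p.1) + (p.1 - j)) : ℕ) : ℝ) =
      (p.2 : ℝ) - ((j - p.1 : ℕ) + (p.1 - j : ℕ)) := by
    intro p hp
    rw [Nat.cast_sub (hPW p hp).2]
    push_cast
    ring
  have hA := hside (P.filter (fun p => j ≤ p.1)) (filter_subset _ _) (by
    intro p hp p' hp' hl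
    rw [mem_filter] at hp hp'
    have hn := w2_anti hM hMN' (hPW p hp.1).1 (hPW p' hp'.1).1 hl
    rw [hcastE p hp.1, hcastE p' hp'.1, Nat.cast_sub hp.2, Nat.cast_sub hp'.2,
      Nat.sub_eq_zero_of_le hp.2, Nat.sub_eq_zero_of_le hp'.2]
    have h1 : (p.2 : ℝ) ≤ p'.2 := by exact_mod_cast hl.le
    have h2 : (p'.1 : ℝ) ≤ p.1 := by exact_mod_cast hn.le
    push_cast
    linarith)
  have hB := hside (P.filter (fun p => ¬ j ≤ p.1)) (filter_subset _ _) (by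
    intro p hp p' hp' hl
    rw [mem_filter] at hp hp'
    have hi := hinc p (hPW p hp.1).1 p' (hPW p' hp'.1).1 hl
    have e1 : p.1 ≤ j := by omega
    have e2 : p'.1 ≤ j := by omega
    rw [hcastE p hp.1, hcastE p' hp'.1, Nat.cast_sub e1, Nat.cast_sub e2,
      Nat.sub_eq_zero_of_le e1, Nat.sub_eq_zero_of_le e2]
    push_cast
    linarith)
  have hAB := Finset.sum_filter_add_sum_filter_not P (fun p => j ≤ p.1)
    (fun p => 1 / √(((p.2 - ((j - p.1) + (p.1 - j)) : ℕ) : ℝ) + 1))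
  rw [← hAB]
  calc 8 * q ^ 2 * (_ + _) ≤ 8 * q ^ 2 * (100 * Ca * q + 100 * Ca * q) := by gcongr
    _ = 8 * (2 * (100 * Ca)) * q ^ 3 := by ring

end

end Pool.Agent.DW
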