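import Pool.Agent.DW.Large
import Pool.Agent.DW.Small

/-!
# The Strichartz estimates in the focusing range
-/

open MeasureTheory Metric Complex Filter Topology Real
open scoped ENNReal NNReal RealInnerProductSpace Manifold ContDiff

namespace Pool.Agent.DW

noncomputable section

/-! ### the `L⁶` norms of the blocks -/

/-- the sixth power of the `L⁶` norm -/
def F6 (w : ℝ → S2 → ℂ) (t : ℝ) : ℝ := ∫ x, ‖w t x‖ ^ 6 ∂σ

theorem F6_nonneg (w : ℝ → S2 → ℂ) (t : ℝ) : 0 ≤ F6 w t :=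
  integral_nonneg fun x => by positivity

theorem F6_cont {w : ℝ → S2 → ℂ} (hw : Continuous fun p : ℝ × S2 => w p.1 p.2) :
    Continuous (F6 w) := by
  have h := continuous_parametric_integral_of_continuous (μ := σ)
    (f := fun (t : ℝ) (x : S2) => ‖w t x‖ ^ 6)
    (s := (Set.univ : Set S2)) (by exact (hw.norm.pow 6)) isCompact_univ
  unfold F6
  simpa using h

/-- `L⁶` estimate for a block over `[k, k+1]` -/
theorem u2_shift : ∃ C > 0, ∀ (N : ℕ) (P : ℕ → S2 → ℂ) (k : ℕ), 64 ≤ N →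
    (∀ n, Har n (P n)) →
    ∫ t in (k : ℝ)..(k + 1 : ℝ), F6 (upw P (Finset.Ico N (2 * N))) t ≤
      C * (N : ℝ) ^ (5 / 2 : ℝ) * (1 + Real.log N) ^ 2 *
        (∑ n ∈ Finset.Ico N (2 * N), N2 (P n)) ^ 3 := by
  obtain ⟨C, hC, h⟩ := block6
  refine ⟨C, hC, fun N P k hN hP => ?_⟩
  have h1 := h N (fun n x => cexp (I * (k : ℝ) * Lam n) * P n x) hN
    (fun n => har_const_mul _ (hP n))
  have h2 : ∫ t in (k : ℝ)..(k + 1 : ℝ), F6 (upw P (Finset.Ico N (2 * N))) t =
      ∫ t in (0 : ℝ)..1, F6 (upw P (Finset.Ico N (2 * N))) (t + k) := by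
    rw [intervalIntegral.integral_comp_add_right
      (fun t => F6 (upw P (Finset.Ico N (2 * N))) t)]
    norm_num
    ring_nf
  rw [h2]
  have h3 : ∀ n, N2 (fun x => cexp (I * (k : ℝ) * Lam n) * P n x) = N2 (P n) :=
    fun n => up_N2_unit (norm_cexp_it k n) (P n)
  simp only [h3] at h1
  refine le_trans (le_of_eq ?_) h1
  congr 1
  ext t
  unfold F6
  congr 1
  ext x
  congr 2
  unfold upw
  refine Finset.sum_congr rfl fun n _ => ?_
  rw [← mul_assoc, ← Complex.exp_add]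
  congr 2
  push_cast
  ring

/-- `L⁶` estimate for a block over `[0, T]` -/
theorem u2_block_T (T : ℝ) (hT : 0 < T) : ∃ C > 0, ∀ (N : ℕ) (P : ℕ → S2 → ℂ), 64 ≤ N →
    (∀ n, Har n (P n)) →
    ∫ t in (0 : ℝ)..T, F6 (upw P (Finset.Ico N (2 * N))) t ≤
      C * (N : ℝ) ^ (5 / 2 : ℝ) * (1 + Real.log N) ^ 2 *
        (∑ n ∈ Finset.Ico N (2 * N), N2 (P n)) ^ 3 := by
  obtain ⟨C, hC, h⟩ := u2_shift
  set M : ℕ := ⌈T⌉₊ with hM
  have hMT : T ≤ M := Nat.le_ceil T
  have hMpos : 0 < M := Nat.ceil_pos.mpr hT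
  refine ⟨M * C, by positivity, fun N P hN hP => ?_⟩
  set F : ℝ → ℝ := fun t => F6 (upw P (Finset.Ico N (2 * N))) t with hF
  have hFc : Continuous F := F6_cont (upw_cont2 (fun n => (hP n).cont) _)
  have hF0 : ∀ t, 0 ≤ F t := fun t => F6_nonneg _ t
  have h1 : ∫ t in (0 : ℝ)..T, F t ≤ ∫ t in (0 : ℝ)..M, F t := by
    have := intervalIntegral.integral_add_adjacent_intervals (μ := volume)
      (hFc.intervalIntegrable 0 T) (hFc.intervalIntegrable T M)
    rw [← this]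
    have h2 : 0 ≤ ∫ t in T..M, F t := intervalIntegral.integral_nonneg hMT fun t _ => hF0 t
    linarith
  have h2 : ∫ t in (0 : ℝ)..M, F t = ∑ k ∈ Finset.range M, ∫ t in (k : ℝ)..(k + 1 : ℝ), F t := by
    have := intervalIntegral.sum_integral_adjacent_intervals (f := F) (μ := volume)
      (a := fun k : ℕ => (k : ℝ)) (n := M) (fun k _ => hFc.intervalIntegrable _ _)
    simp only [Nat.cast_zero, Nat.cast_add, Nat.cast_one] at this
    rw [← this]
  refine h1.trans ?_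
  rw [h2]
  refine (Finset.sum_le_sum fun k _ => h N P k hN hP).trans (le_of_eq ?_)
  rw [Finset.sum_const, Finset.card_range, nsmul_eq_mul]
  ring

theorem u2_sup (N : ℕ) (P : ℕ → S2 → ℂ) (t : ℝ) (hN : 64 ≤ N) (hP : ∀ n, Har n (P n)) :
    F6 (upw P (Finset.Ico N (2 * N))) t ≤
      (N : ℝ) ^ 4 * (∑ n ∈ Finset.Ico N (2 * N), N2 (P n)) ^ 3 := by
  set w := upw P (Finset.Ico N (2 * N)) t with hw
  set E := ∑ n ∈ Finset.Ico N (2 * N), N2 (P n) with hE
  have hcont : Continuous w := upw_cont (fun n => (hP n).cont) _ t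
  have h1 : ∀ x, ‖w x‖ ^ 6 ≤ (N : ℝ) ^ 4 * E ^ 2 * ‖w x‖ ^ 2 := by
    intro x
    have h := blk_sup N P t x hN hP
    have h2 := pow_le_pow_left₀ (by positivity) h 2
    calc ‖w x‖ ^ 6 = (‖w x‖ ^ 2) ^ 2 * ‖w x‖ ^ 2 := by ring
      _ ≤ ((N : ℝ) ^ 2 * E) ^ 2 * ‖w x‖ ^ 2 := by gcongr
      _ = _ := by ring
  have h2 : F6 (upw P (Finset.Ico N (2 * N))) t ≤ ∫ x, (N : ℝ) ^ 4 * E ^ 2 * ‖w x‖ ^ 2 ∂σ :=
    integral_mono (integrable_of_cont_real (hcont.norm.pow 6))
      (integrable_of_cont_real (continuous_const.mul (hcont.norm.pow 2))) h1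
  refine h2.trans (le_of_eq ?_)
  rw [integral_const_mul]
  have h3 : ∫ x, ‖w x‖ ^ 2 ∂σ = E := upw_N2 hP _ t
  rw [h3]
  ring

/-! ### fixed time -/

theorem up_lint6 {w : S2 → ℂ} (hw : Continuous w) :
    ∫⁻ x, ‖w x‖ₑ ^ (6 : ℝ) ∂σ = ENNReal.ofReal (∫ x, ‖w x‖ ^ 6 ∂σ) := by
  have := up_lint hw 6
  simpa using this

/-- interpolation at fixed time -/
theorem u2_interp {w : S2 → ℂ} (hw : Continuous w) {q : ℝ} (hq2 : 2 ≤ q) (hq6 : q ≤ 6) :
    ∫⁻ x, ‖w x‖ₑ ^ q ∂σ ≤ (∫⁻ x, ‖w x‖ₑ ^ (2 : ℝ) ∂σ) ^ ((6 - q) / 4) *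
      (∫⁻ x, ‖w x‖ₑ ^ (6 : ℝ) ∂σ) ^ ((q - 2) / 4) := by
  have hm : AEMeasurable (fun x => ‖w x‖ₑ) σ := hw.enorm.measurable.aemeasurable
  have h := ENNReal.lintegral_mul_norm_pow_le (μ := σ) (f := fun x => ‖w x‖ₑ ^ (2 : ℝ))
    (g := fun x => ‖w x‖ₑ ^ (6 : ℝ)) (hm.pow_const _) (hm.pow_const _)
    (p := (6 - q) / 4) (q := (q - 2) / 4) (by linarith) (by linarith) (by ring)
  refine le_trans (le_of_eq ?_) h
  refine lintegral_congr fun x => ?_
  rw [← ENNReal.rpow_mul, ← ENNReal.rpow_mul, ← ENNReal.rpow_add_of_nonneg _ _ (by linarith)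
    (by linarith)]
  congr 1
  ring

theorem u2_A {w : S2 → ℂ} (hw : Continuous w) {q : ℝ≥0∞} (hqt : q ≠ ⊤) (hq2 : 2 < q.toReal)
    (hq6 : q.toReal ≤ 6) : eLpNorm w q σ ≤
      ENNReal.ofReal (N2 w ^ ((6 - q.toReal) / (4 * q.toReal)) *
        (∫ x, ‖w x‖ ^ 6 ∂σ) ^ ((q.toReal - 2) / (4 * q.toReal))) := by
  have hq0 : q ≠ 0 := by rintro rfl; simp at hq2; linarith
  have hqpos : 0 < q.toReal := by linarith
  have hF : 0 ≤ ∫ x, ‖w x‖ ^ 6 ∂σ := integral_nonneg fun x => by positivity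
  have hE : 0 ≤ N2 w := N2_nonneg w
  rw [eLpNorm_eq_lintegral_rpow_enorm_toReal hq0 hqt]
  have h1 := u2_interp hw hq2.le hq6
  rw [up_lint2 hw, up_lint6 hw, ENNReal.ofReal_rpow_of_nonneg hE (by linarith),
    ENNReal.ofReal_rpow_of_nonneg hF (by linarith), ← ENNReal.ofReal_mul (by positivity)] at h1
  refine (ENNReal.rpow_le_rpow h1 (z := 1 / q.toReal) (by positivity)).trans (le_of_eq ?_)
  rw [ENNReal.ofReal_rpow_of_nonneg (by positivity) (by positivity), Real.mul_rpow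
    (by positivity) (by positivity), ← Real.rpow_mul hE, ← Real.rpow_mul hF]
  congr 3
  · field_simp
  · field_simp

theorem u2_B {w : S2 → ℂ} (hw : Continuous w) {q : ℝ≥0∞} (hq6 : 6 ≤ q) {D : ℝ} (hD : 0 ≤ D)
    (hs : ∀ x, ‖w x‖ ^ 6 ≤ D * ∫ y, ‖w y‖ ^ 6 ∂σ) : eLpNorm w q σ ≤
      ENNReal.ofReal (D ^ (1 / 6 - (q⁻¹).toReal) * (∫ x, ‖w x‖ ^ 6 ∂σ) ^ (1 / 6 : ℝ)) := by
  set F : ℝ := ∫ x, ‖w x‖ ^ 6 ∂σ with hF
  have hF0 : 0 ≤ F := integral_nonneg fun x => by positivity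
  have hS : ∀ x, ‖w x‖ ≤ (D * F) ^ (1 / 6 : ℝ) := by
    intro x
    have h1 := Real.rpow_le_rpow (by positivity) (hs x) (z := 1 / 6) (by norm_num)
    have h2 : (‖w x‖ ^ 6) ^ (1 / 6 : ℝ) = ‖w x‖ := by
      rw [← Real.rpow_natCast, ← Real.rpow_mul (norm_nonneg _)]
      norm_num
    rwa [h2] at h1
  by_cases hqt : q = ⊤
  · subst hqt
    have h1 := eLpNorm_le_of_ae_bound (μ := σ) (p := ⊤) (Eventually.of_forall hS)
    refine h1.trans (le_of_eq ?_)
    simp only [ENNReal.toReal_top, inv_zero, ENNReal.rpow_zero, one_mul, ENNReal.inv_top,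
      ENNReal.toReal_zero, sub_zero]
    rw [Real.mul_rpow hD hF0]
  · have hq6' : 6 ≤ q.toReal := by
      have := ENNReal.toReal_mono hqt hq6
      simpa using this
    have hq0 : q ≠ 0 := by rintro rfl; simp at hq6'; linarith
    have hqpos : 0 < q.toReal := by linarith
    have h1 : ∫⁻ x, ‖w x‖ₑ ^ q.toReal ∂σ ≤
        ENNReal.ofReal ((D * F) ^ ((q.toReal - 6) / 6)) * ENNReal.ofReal F := by
      rw [← up_lint6 hw, ← lintegral_const_mul _ (hw.enorm.measurable.pow_const _)]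
      refine lintegral_mono fun x => ?_
      have e1 : ‖w x‖ₑ ^ q.toReal = ‖w x‖ₑ ^ (q.toReal - 6) * ‖w x‖ₑ ^ (6 : ℝ) := by
        rw [← ENNReal.rpow_add_of_nonneg _ _ (by linarith) (by norm_num)]
        congr 1
        ring
      rw [e1]
      gcongr
      rw [← ofReal_norm, ENNReal.ofReal_rpow_of_nonneg (norm_nonneg _) (by linarith)]
      refine ENNReal.ofReal_le_ofReal ?_
      refine (Real.rpow_le_rpow (norm_nonneg _) (hS x) (by linarith)).trans (le_of_eq ?_)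
      rw [← Real.rpow_mul (by positivity)]
      congr 1
      ring
    rw [eLpNorm_eq_lintegral_rpow_enorm_toReal hq0 hqt]
    rw [← ENNReal.ofReal_mul (by positivity)] at h1
    refine (ENNReal.rpow_le_rpow h1 (z := 1 / q.toReal) (by positivity)).trans (le_of_eq ?_)
    have e5 : 0 ≤ (q.toReal - 6) / 6 := by linarith
    rw [ENNReal.ofReal_rpow_of_nonneg (by positivity) (by positivity)]
    congr 1
    rw [Real.mul_rpow hD hF0, mul_assoc]
    have e3 : F ^ ((q.toReal - 6) / 6) * F = F ^ (q.toReal / 6) := by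
      have : F ^ ((q.toReal - 6) / 6) * F ^ (1 : ℝ) = F ^ (q.toReal / 6) := by
        rw [← Real.rpow_add_of_nonneg hF0 e5 zero_le_one]
        congr 1
        ring
      rwa [Real.rpow_one] at this
    rw [e3, Real.mul_rpow (by positivity) (by positivity), ← Real.rpow_mul hD,
      ← Real.rpow_mul hF0, ENNReal.toReal_inv]
    congr 2
    · field_simp
    · field_simp

/-! ### the time integral -/

theorem u2_time {p : ℝ≥0∞} (hp : p ≠ 0) {T A S B θ : ℝ} (hT : 0 ≤ T) (hA : 0 ≤ A) (hS : 0 ≤ S)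
    (hB : 0 ≤ B) (hθ : (p⁻¹).toReal ≤ θ) {F : ℝ → ℝ} (hF : Continuous F) (hF0 : ∀ t, 0 ≤ F t)
    (hFS : ∀ t, F t ≤ S) (hFB : ∫ t in (0 : ℝ)..T, F t ≤ B) :
    eLpNorm (fun t => ENNReal.ofReal (A * F t ^ θ)) p (volume.restrict (Set.Icc 0 T)) ≤
      ENNReal.ofReal (A * (S ^ (θ - (p⁻¹).toReal) * B ^ (p⁻¹).toReal)) := by
  have hθ0 : 0 ≤ θ := le_trans ENNReal.toReal_nonneg hθ
  by_cases hpt : p = ⊤
  · subst hpt
    simp only [ENNReal.inv_top, ENNReal.toReal_zero, sub_zero, Real.rpow_zero, mul_one,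
      eLpNorm_exponent_top]
    refine eLpNormEssSup_le_of_ae_enorm_bound (Eventually.of_forall fun t => ?_)
    rw [enorm_eq_self]
    refine ENNReal.ofReal_le_ofReal ?_
    have := Real.rpow_le_rpow (hF0 t) (hFS t) hθ0
    gcongr
  · have hr : 0 < p.toReal := ENNReal.toReal_pos hp hpt
    rw [ENNReal.toReal_inv] at hθ ⊢
    set r := p.toReal with hrdef
    have hθr : 0 ≤ θ * r - 1 := by
      have := mul_le_mul_of_nonneg_right hθ hr.le
      rw [inv_mul_cancel₀ hr.ne'] at this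
      linarith
    rw [eLpNorm_eq_lintegral_rpow_enorm_toReal hp hpt]
    simp only [enorm_eq_self]
    rw [← hrdef]
    have hint : Integrable F (volume.restrict (Set.Icc 0 T)) :=
      hF.continuousOn.integrableOn_Icc
    have h1 : ∫⁻ t in Set.Icc 0 T, ENNReal.ofReal (A * F t ^ θ) ^ r ≤
        ENNReal.ofReal (A ^ r * S ^ (θ * r - 1) * B) := by
      calc ∫⁻ t in Set.Icc 0 T, ENNReal.ofReal (A * F t ^ θ) ^ r
          ≤ ∫⁻ t in Set.Icc 0 T, ENNReal.ofReal (A ^ r * S ^ (θ * r - 1)) *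
              ENNReal.ofReal (F t) := by
            refine lintegral_mono fun t => ?_
            have hFt := hF0 t
            rw [ENNReal.ofReal_rpow_of_nonneg (by positivity) hr.le,
              ← ENNReal.ofReal_mul (by positivity)]
            refine ENNReal.ofReal_le_ofReal ?_
            rw [Real.mul_rpow hA (by positivity), ← Real.rpow_mul hFt, mul_assoc]
            have e1 : F t ^ (θ * r) = F t ^ (θ * r - 1) * F t := by
              have : F t ^ (θ * r - 1) * F t ^ (1 : ℝ) = F t ^ (θ * r) := by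
                rw [← Real.rpow_add_of_nonneg hFt hθr zero_le_one]
                congr 1
                ring
              rw [← this, Real.rpow_one]
            rw [e1]
            have := Real.rpow_le_rpow hFt (hFS t) hθr
            gcongr
        _ = ENNReal.ofReal (A ^ r * S ^ (θ * r - 1)) *
              ∫⁻ t in Set.Icc 0 T, ENNReal.ofReal (F t) :=
            lintegral_const_mul _ (by fun_prop)
        _ = ENNReal.ofReal (A ^ r * S ^ (θ * r - 1)) *
              ENNReal.ofReal (∫ t in Set.Icc 0 T, F t) := by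
            rw [ofReal_integral_eq_lintegral_ofReal hint (Eventually.of_forall hF0)]
        _ ≤ ENNReal.ofReal (A ^ r * S ^ (θ * r - 1)) * ENNReal.ofReal B := by
            gcongr
            rw [integral_Icc_eq_integral_Ioc, ← intervalIntegral.integral_of_le hT]
            exact hFB
        _ = _ := by rw [← ENNReal.ofReal_mul (by positivity)]
    refine (ENNReal.rpow_le_rpow h1 (z := 1 / r) (by positivity)).trans (le_of_eq ?_)
    rw [ENNReal.ofReal_rpow_of_nonneg (by positivity) (by positivity)]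
    congr 1
    rw [Real.mul_rpow (by positivity) hB, Real.mul_rpow (by positivity) (by positivity),
      ← Real.rpow_mul hA, ← Real.rpow_mul hS, mul_assoc]
    have e1 : r * (1 / r) = 1 := by field_simp
    have e2 : (θ * r - 1) * (1 / r) = θ - r⁻¹ := by field_simp
    rw [e1, e2, Real.rpow_one, one_div]

/-! ### the blocks -/

theorem u2_fix (p q : ℝ≥0∞) (hp : 6 ≤ p) (hq : 2 < q) (hpq : 4 * p⁻¹ + 2 * q⁻¹ ≤ 1) :
    ∃ C θ α β : ℝ, 0 ≤ C ∧ (p⁻¹).toReal ≤ θ ∧ 0 ≤ β ∧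
      α + 4 * θ = 1 - 2 * (q⁻¹).toReal ∧ β + 3 * θ = 1 / 2 ∧
      ∀ (N : ℕ) (P : ℕ → S2 → ℂ) (t : ℝ), 64 ≤ N → (∀ n, Har n (P n)) →
        eLpNorm (upw P (Finset.Ico N (2 * N)) t) q σ ≤
          ENNReal.ofReal ((C * (N : ℝ) ^ α * (∑ n ∈ Finset.Ico N (2 * N), N2 (P n)) ^ β) *
            F6 (upw P (Finset.Ico N (2 * N))) t ^ θ) := by
  have hp0 : p ≠ 0 := (lt_of_lt_of_le (by norm_num) hp).ne'
  have hpi : p⁻¹ ≠ ⊤ := ENNReal.inv_ne_top.2 hp0
  have hq0 : q ≠ 0 := (lt_trans (by norm_num) hq).ne'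
  have hqi : q⁻¹ ≠ ⊤ := ENNReal.inv_ne_top.2 hq0
  have hpqr : 4 * (p⁻¹).toReal + 2 * (q⁻¹).toReal ≤ 1 := by
    have h := ENNReal.toReal_mono ENNReal.one_ne_top hpq
    rw [ENNReal.toReal_add (ENNReal.mul_ne_top (by norm_num) hpi)
      (ENNReal.mul_ne_top (by norm_num) hqi), ENNReal.toReal_mul, ENNReal.toReal_mul] at h
    simpa using h
  rcases le_total q 6 with h6 | h6
  · have hqt : q ≠ ⊤ := (h6.trans_lt (by norm_num)).ne
    have hq2' : 2 < q.toReal := by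
      have := (ENNReal.toReal_lt_toReal (by norm_num) hqt).mpr hq
      simpa using this
    have hq6' : q.toReal ≤ 6 := by
      have := ENNReal.toReal_mono (by norm_num) h6
      simpa using this
    have hqpos : 0 < q.toReal := by linarith
    rw [ENNReal.toReal_inv q] at hpqr ⊢
    refine ⟨1, (q.toReal - 2) / (4 * q.toReal), 0, (6 - q.toReal) / (4 * q.toReal), zero_le_one,
      ?_, div_nonneg (by linarith) (by linarith), ?_, ?_, ?_⟩
    · have e1 : (q.toReal - 2) / (4 * q.toReal) = (1 - 2 * (q.toReal)⁻¹) / 4 := by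
        field_simp
      rw [e1]
      linarith
    · field_simp
      ring
    · field_simp
      ring
    · intro N P t hN hP
      have h := u2_A (upw_cont (fun n => (hP n).cont) (Finset.Ico N (2 * N)) t) hqt hq2' hq6'
      rw [upw_N2 hP] at h
      rw [Real.rpow_zero, one_mul, one_mul]
      exact h
  · obtain ⟨C, hC, h⟩ := nik6
    have hqr : (q⁻¹).toReal ≤ 1 / 6 := by
      have h1 : q⁻¹ ≤ 6⁻¹ := ENNReal.inv_le_inv.2 h6
      have h2 := ENNReal.toReal_mono (by norm_num) h1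
      rw [ENNReal.toReal_inv 6] at h2
      simpa using h2
    have hpr : (p⁻¹).toReal ≤ 1 / 6 := by
      have h1 : p⁻¹ ≤ 6⁻¹ := ENNReal.inv_le_inv.2 hp
      have h2 := ENNReal.toReal_mono (by norm_num) h1
      rw [ENNReal.toReal_inv 6] at h2
      simpa using h2
    refine ⟨C ^ (1 / 6 - (q⁻¹).toReal), 1 / 6, 2 * (1 / 6 - (q⁻¹).toReal), 0, by positivity,
      hpr, le_rfl, by ring, by norm_num, ?_⟩
    intro N P t hN hP
    have h1 := u2_B (upw_cont (fun n => (hP n).cont) (Finset.Ico N (2 * N)) t) h6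
      (D := C * (N : ℝ) ^ 2) (by positivity) (fun x => h N P t x hN hP)
    refine h1.trans (le_of_eq ?_)
    rw [Real.rpow_zero, mul_one, Real.mul_rpow hC.le (by positivity)]
    congr 3
    rw [← Real.rpow_natCast, ← Real.rpow_mul (by positivity)]
    norm_num

theorem u2_pow_bound {a C s s0 N : ℝ} (ha : 0 ≤ a) (ha2 : a ≤ 1 / 2) (hC : 0 ≤ C) (hs : s0 < s)
    (hN : 1 ≤ N) : C * (1 + Real.log N) ^ (2 * a) * N ^ s0 ≤
      (C * (1 + 1 / ((s - s0) / 2)) ^ (2 * a)) * (N ^ (-((s - s0) / 2)) * N ^ s) := by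
  set δ : ℝ := (s - s0) / 2 with hδ
  have hδ0 : 0 < δ := by rw [hδ]; linarith
  have hN0 : 0 < N := by linarith
  have hlog : 0 ≤ Real.log N := Real.log_nonneg hN
  have h1 : 1 + Real.log N ≤ (1 + 1 / δ) * N ^ δ := by
    have h2 := Real.log_le_rpow_div hN0.le hδ0
    have h3 : 1 ≤ N ^ δ := Real.one_le_rpow hN hδ0.le
    calc 1 + Real.log N ≤ N ^ δ + N ^ δ / δ := by linarith
      _ = (1 + 1 / δ) * N ^ δ := by field_simp
  have h2 : (1 + Real.log N) ^ (2 * a) ≤ (1 + 1 / δ) ^ (2 * a) * N ^ δ := by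
    refine (Real.rpow_le_rpow (by linarith) h1 (by linarith)).trans ?_
    rw [Real.mul_rpow (by positivity) (by positivity), ← Real.rpow_mul hN0.le]
    gcongr
    nlinarith
  have h3 : N ^ (-δ) * N ^ s = N ^ δ * N ^ s0 := by
    rw [← Real.rpow_add hN0, ← Real.rpow_add hN0]
    congr 1
    rw [hδ]
    ring
  rw [h3]
  calc C * (1 + Real.log N) ^ (2 * a) * N ^ s0
      ≤ C * ((1 + 1 / δ) ^ (2 * a) * N ^ δ) * N ^ s0 := by gcongr
    _ = _ := by ring

theorem u2_blocks (T : ℝ) (hT : 0 < T) (p q : ℝ≥0∞) (hp : 6 ≤ p) (hq : 2 < q)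
    (hpq : 4 * p⁻¹ + 2 * q⁻¹ ≤ 1) (s : ℝ)
    (hs : 1 - 3 / 2 * (p⁻¹).toReal - 2 * (q⁻¹).toReal < s) (hs0 : 0 ≤ s) :
    ∃ C r : ℝ, 0 ≤ C ∧ 0 ≤ r ∧ r < 1 ∧ ∀ f : S2 → ℂ, Continuous f → ∀ j : ℕ,
      ∃ M : ℝ → ℝ, Continuous M ∧
      (∀ t, eLpNorm (upw (fun n => proj n f) (upB j) t) q σ ≤ ENNReal.ofReal (M t)) ∧
      eLpNorm (fun t => ENNReal.ofReal (M t)) p (volume.restrict (Set.Icc 0 T)) ≤
        ENNReal.ofReal (C * r ^ j) * Hs s f := by
  obtain ⟨C0, hC0, hbT⟩ := u2_block_T T hT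
  obtain ⟨C1, θ, α, β, hC1, hθ, hβ, hαθ, hβθ, hfix⟩ := u2_fix p q hp hq hpq
  have hp0 : p ≠ 0 := (lt_of_lt_of_le (by norm_num) hp).ne'
  have hpr : (p⁻¹).toReal ≤ 1 / 6 := by
    have h1 : p⁻¹ ≤ 6⁻¹ := ENNReal.inv_le_inv.2 hp
    have h2 := ENNReal.toReal_mono (by norm_num) h1
    rw [ENNReal.toReal_inv 6] at h2
    simpa using h2
  set a := (p⁻¹).toReal with ha
  have ha0 : 0 ≤ a := ENNReal.toReal_nonneg
  set s0 : ℝ := 1 - 3 / 2 * a - 2 * (q⁻¹).toReal with hs0def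
  set δ : ℝ := (s - s0) / 2 with hδ
  have hδ0 : 0 < δ := by rw [hδ]; linarith
  have hθ0 : 0 ≤ θ := ha0.trans hθ
  refine ⟨C1 * C0 ^ a * (1 + 1 / δ) ^ (2 * a), (2 : ℝ) ^ (-δ), by positivity,
    by positivity, Real.rpow_lt_one_of_one_lt_of_neg one_lt_two (by linarith), ?_⟩
  intro f hf j
  set Pn : ℕ → S2 → ℂ := fun n => proj n f with hPn
  have hhar : ∀ n, Har n (Pn n) := fun n => proj_har n hf
  have hcont : ∀ n, Continuous (Pn n) := fun n => (hhar n).cont
  set N : ℕ := 64 * 2 ^ j with hN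
  have h2j : 1 ≤ 2 ^ j := Nat.one_le_two_pow
  have hN64 : 64 ≤ N := by omega
  have hN1 : (1 : ℝ) ≤ N := by exact_mod_cast (by omega : 1 ≤ N)
  have hN0 : (0 : ℝ) < N := by linarith
  have hlog : 0 ≤ Real.log N := Real.log_nonneg hN1
  set E : ℝ := ∑ n ∈ upB j, N2 (Pn n) with hE
  have hE0 : 0 ≤ E := Finset.sum_nonneg fun n _ => N2_nonneg _
  have hFc : Continuous (F6 (upw Pn (upB j))) := F6_cont (upw_cont2 hcont _)
  refine ⟨fun t => (C1 * (N : ℝ) ^ α * E ^ β) * F6 (upw Pn (upB j)) t ^ θ, ?_, ?_, ?_⟩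
  · exact continuous_const.mul (hFc.rpow_const fun t => Or.inr hθ0)
  · intro t
    exact hfix N Pn t hN64 hhar
  · have h1 := u2_time hp0 (T := T) (A := C1 * (N : ℝ) ^ α * E ^ β) (S := (N : ℝ) ^ 4 * E ^ 3)
      (B := C0 * (N : ℝ) ^ (5 / 2 : ℝ) * (1 + Real.log N) ^ 2 * E ^ 3) (θ := θ)
      hT.le (by positivity) (by positivity) (by positivity) hθ hFc (F6_nonneg _)
      (fun t => u2_sup N Pn t hN64 hhar) (hbT N Pn hN64 hhar)
    refine h1.trans ?_
    rw [← ha]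
    have h2 := u2_pow_bound (a := a) (C := C1 * C0 ^ a) (s := s) (s0 := s0) (N := N) ha0
      (by linarith) (by positivity) hs hN1
    rw [← hδ] at h2
    have h3 : (N : ℝ) ^ (-δ) ≤ ((2 : ℝ) ^ (-δ)) ^ j := by
      rw [← Real.rpow_natCast, ← Real.rpow_mul (by norm_num), mul_comm (-δ), Real.rpow_mul
        (by norm_num), Real.rpow_natCast]
      refine Real.rpow_le_rpow_of_nonpos (by positivity) ?_ (by linarith)
      rw [hN]
      push_cast
      have : (0 : ℝ) < 2 ^ j := by positivity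
      linarith
    have h4 := up_Hs s hs0 hf (upB j) N hN0 (fun n hn => by
      have h5 : N ≤ n := (Finset.mem_Ico.mp hn).1
      have h6 : (N : ℝ) ≤ n := by exact_mod_cast h5
      linarith)
    refine le_trans ?_ (mul_le_mul_right h4 _)
    rw [← ENNReal.ofReal_mul (by positivity)]
    refine ENNReal.ofReal_le_ofReal ?_
    have hNE : C1 * (N : ℝ) ^ α * E ^ β * (((N : ℝ) ^ 4 * E ^ 3) ^ (θ - a) *
        (C0 * (N : ℝ) ^ (5 / 2 : ℝ) * (1 + Real.log N) ^ 2 * E ^ 3) ^ a) =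
        C1 * C0 ^ a * (1 + Real.log N) ^ (2 * a) * (N : ℝ) ^ s0 * √E := by
      have hθa : 0 ≤ θ - a := by linarith
      have hL : 0 ≤ 1 + Real.log N := by linarith
      rw [Real.mul_rpow (by positivity) (by positivity), Real.mul_rpow (by positivity)
        (by positivity), Real.mul_rpow (by positivity) (by positivity),
        Real.mul_rpow (by positivity) (by positivity)]
      rw [← Real.rpow_natCast (N : ℝ) 4, ← Real.rpow_natCast E 3,
        ← Real.rpow_natCast (1 + Real.log N) 2, ← Real.rpow_mul hN0.le, ← Real.rpow_mul hE0,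
        ← Real.rpow_mul hN0.le, ← Real.rpow_mul hE0, ← Real.rpow_mul hL, Real.sqrt_eq_rpow]
      have e1 : (N : ℝ) ^ s0 = (N : ℝ) ^ α * (N : ℝ) ^ (((4 : ℕ) : ℝ) * (θ - a)) *
          (N : ℝ) ^ (5 / 2 * a) := by
        rw [← Real.rpow_add hN0, ← Real.rpow_add hN0]
        congr 1
        push_cast
        rw [hs0def]
        linarith
      have e2 : E ^ (1 / 2 : ℝ) = E ^ β * E ^ (((3 : ℕ) : ℝ) * (θ - a)) *
          E ^ (((3 : ℕ) : ℝ) * a) := by
        rw [← Real.rpow_add_of_nonneg hE0 hβ (by positivity),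
          ← Real.rpow_add_of_nonneg hE0 (by positivity) (by positivity)]
        congr 1
        push_cast
        linarith
      rw [e1, e2]
      push_cast
      ring
    rw [hNE]
    calc C1 * C0 ^ a * (1 + Real.log N) ^ (2 * a) * (N : ℝ) ^ s0 * √E
        ≤ ((C1 * C0 ^ a * (1 + 1 / δ) ^ (2 * a)) * ((N : ℝ) ^ (-δ) * (N : ℝ) ^ s)) * √E := by
          gcongr
      _ ≤ ((C1 * C0 ^ a * (1 + 1 / δ) ^ (2 * a)) *
          (((2 : ℝ) ^ (-δ)) ^ j * (N : ℝ) ^ s)) * √E := by gcongr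
      _ = _ := by ring

/-! ### summation -/

theorem u2_iSup {α : Type*} [MeasurableSpace α] {μ : Measure α} {P : ℝ≥0∞} (hP0 : P ≠ 0)
    {S : ℕ → α → ℝ≥0∞} (hS : ∀ k, Measurable (S k)) (hm : Monotone S) {B : ℝ≥0∞}
    (hB : ∀ k, eLpNorm (S k) P μ ≤ B) : eLpNorm (fun t => ⨆ k, S k t) P μ ≤ B := by
  by_cases hPt : P = ⊤
  · subst hPt
    simp only [eLpNorm_exponent_top] at hB ⊢
    have h1 : ∀ᵐ t ∂μ, ∀ k, S k t ≤ B := by
      rw [ae_all_iff]
      intro k
      filter_upwards [enorm_ae_le_eLpNormEssSup (S k) μ] with t ht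
      rw [enorm_eq_self] at ht
      exact ht.trans (hB k)
    refine eLpNormEssSup_le_of_ae_enorm_bound ?_
    filter_upwards [h1] with t ht
    rw [enorm_eq_self]
    exact iSup_le ht
  · exact up_iSup hP0 hPt hS hm hB

theorem upper2 (p q : ℝ≥0∞) (hp : 6 ≤ p) (hq : 2 ≤ q) (hpq : 4 * p⁻¹ + 2 * q⁻¹ ≤ 1)
    (s : ℝ) (hs : 1 - 3 / 2 * (p⁻¹).toReal - 2 * (q⁻¹).toReal < s) : Strichartz p q s := by
  have hp0 : p ≠ 0 := (lt_of_lt_of_le (by norm_num) hp).ne'
  have hp1 : 1 ≤ p := le_trans (by norm_num) hp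
  have hpi : p⁻¹ ≠ ⊤ := ENNReal.inv_ne_top.2 hp0
  have hq0 : q ≠ 0 := (lt_of_lt_of_le (by norm_num) hq).ne'
  have hq1 : 1 ≤ q := le_trans (by norm_num) hq
  have hqi : q⁻¹ ≠ ⊤ := ENNReal.inv_ne_top.2 hq0
  have hpqr : 4 * (p⁻¹).toReal + 2 * (q⁻¹).toReal ≤ 1 := by
    have h := ENNReal.toReal_mono ENNReal.one_ne_top hpq
    rw [ENNReal.toReal_add (ENNReal.mul_ne_top (by norm_num) hpi)
      (ENNReal.mul_ne_top (by norm_num) hqi), ENNReal.toReal_mul, ENNReal.toReal_mul] at h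
    simpa using h
  have ha0 : 0 ≤ (p⁻¹).toReal := ENNReal.toReal_nonneg
  have hs0 : 0 ≤ s := by linarith
  rcases eq_or_lt_of_le hq with h | h
  · subst h
    exact small_upper p 2 (by norm_num) le_rfl s hs0
  intro T hT
  obtain ⟨C, r, hC, hr0, hr1, hbl⟩ := u2_blocks T hT p q hp h hpq s hs hs0
  obtain ⟨Cl, hlow⟩ := up_low q hs0
  set μT : Measure ℝ := volume.restrict (Set.Icc 0 T) with hμT
  set c1 : ℝ≥0∞ := (Cl * μT Set.univ ^ p.toReal⁻¹ + ENNReal.ofReal (C * (1 - r)⁻¹)) with hc1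
  have hc1t : c1 ≠ ⊤ := ENNReal.add_ne_top.mpr ⟨ENNReal.mul_ne_top ENNReal.coe_ne_top
    (ENNReal.rpow_ne_top_of_nonneg (by positivity) (measure_ne_top _ _)),
    ENNReal.ofReal_ne_top⟩
  refine ⟨c1.toNNReal, fun f hf u hu => ?_⟩
  rw [ENNReal.coe_toNNReal hc1t]
  have hc := hf.continuous
  have hcont : ∀ n, Continuous ((fun n => proj n f) n) := fun n => proj_cont n hc
  choose M hMc hM1 hM2 using hbl f hc
  set H : ℝ≥0∞ := Hs s f with hH
  set S : ℕ → ℝ → ℝ≥0∞ := fun K t => Cl * H + ∑ j ∈ Finset.range K, ENNReal.ofReal (M j t)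
    with hSdef
  have hSm : ∀ K, Measurable (S K) := by
    intro K
    refine measurable_const.add ?_
    exact Finset.measurable_fun_sum _ fun j _ => (hMc j).measurable.ennreal_ofReal
  have hSmono : Monotone S := by
    refine monotone_nat_of_le_succ fun K t => ?_
    simp only [hSdef]
    rw [Finset.sum_range_succ, ← add_assoc]
    exact le_self_add
  have h1 : ∀ t, eLpNorm (u t) q σ ≤ ⨆ K, S K t := fun t =>
    up_flow hc hu t fun K => by
      refine (up_partial hcont hq1 K t).trans (le_trans ?_ (le_iSup (fun K => S K t) K))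
      unfold upS
      simp only [hSdef]
      exact add_le_add (hlow f hc t) (Finset.sum_le_sum fun j _ => hM1 j t)
  have hSb : ∀ K, eLpNorm (S K) p μT ≤ c1 * H := by
    intro K
    have e1 : S K = (fun _ => Cl * H) +
        ∑ j ∈ Finset.range K, fun t => ENNReal.ofReal (M j t) := by
      ext t
      simp only [hSdef, Pi.add_apply, Finset.sum_apply]
    have hmj : ∀ j, Measurable (fun t => ENNReal.ofReal (M j t)) := fun j =>
      (hMc j).measurable.ennreal_ofReal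
    rw [e1]
    refine (eLpNorm_add_le aestronglyMeasurable_const
      (Finset.aestronglyMeasurable_sum _ fun j _ => (hmj j).aestronglyMeasurable) hp1).trans ?_
    rw [hc1, add_mul]
    refine add_le_add ?_ ?_
    · have := eLpNorm_le_of_ae_enorm_bound (μ := μT) (p := p)
        (f := fun _ : ℝ => Cl * H) (C := Cl * H)
        (Eventually.of_forall fun t => by simp)
      refine this.trans (le_of_eq ?_)
      rw [smul_eq_mul]
      ring
    · refine (eLpNorm_sum_le (fun j _ => (hmj j).aestronglyMeasurable) hp1).trans ?_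
      refine (Finset.sum_le_sum fun j _ => hM2 j).trans ?_
      rw [← Finset.sum_mul, ← ENNReal.ofReal_sum_of_nonneg (fun j _ => by positivity),
        ← Finset.mul_sum]
      gcongr
      rw [← tsum_geometric_of_lt_one hr0 hr1]
      exact (summable_geometric_of_lt_one hr0 hr1).sum_le_tsum _ fun j _ => by positivity
  have h2 : eLpNorm (fun t => ⨆ K, S K t) p μT ≤ c1 * H := u2_iSup hp0 hSm hSmono hSb
  exact (eLpNorm_mono_enorm fun t => by simpa using h1 t).trans h2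

end

end Pool.Agent.DW
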