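import Pool.Agent.DW.Facts
import Pool.Agent.DW.Upper2

/-!
# The endpoint Strichartz estimates for `p ≥ 6`, `4/p + 2/q ≤ 1`
-/

open MeasureTheory Metric Complex Filter Topology Real
open scoped ENNReal NNReal RealInnerProductSpace Manifold ContDiff

namespace Pool.Agent.DW

noncomputable section

/-! ### summation -/

theorem u4_inj {r : ℝ} (h0 : 0 ≤ r) (h1 : r < 1) (s : Finset ℕ) (g : ℕ → ℕ)
    (hg : Set.InjOn g (s : Set ℕ)) : ∑ j ∈ s, r ^ (g j) ≤ (1 - r)⁻¹ := by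
  classical
  have hs := summable_geometric_of_lt_one h0 h1
  rw [← tsum_geometric_of_lt_one h0 h1]
  have e : ∑ j ∈ s, r ^ (g j) = ∑ k ∈ s.image g, r ^ k := (Finset.sum_image hg).symm
  rw [e]
  exact hs.sum_le_tsum _ fun k _ => by positivity

/-- the weights -/
def ka (r : ℝ) (i j : ℕ) : ℝ :=
  r ^ ((i - j) + (j - i)) + (r ^ ((i - 2 * j) + (2 * j - i)) + r ^ ((j - 2 * i) + (2 * i - j)))

theorem ka_nonneg {r : ℝ} (h0 : 0 ≤ r) (i j : ℕ) : 0 ≤ ka r i j := by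
  unfold ka
  positivity

theorem ka_comm (r : ℝ) (i j : ℕ) : ka r i j = ka r j i := by
  unfold ka
  rw [add_comm (i - j) (j - i)]
  ring

theorem ka_row {r : ℝ} (h0 : 0 ≤ r) (h1 : r < 1) (K i : ℕ) :
    ∑ j ∈ Finset.range K, ka r i j ≤ 6 * (1 - r)⁻¹ := by
  unfold ka
  rw [Finset.sum_add_distrib, Finset.sum_add_distrib]
  have e1 : ∑ j ∈ Finset.range K, r ^ ((i - j) + (j - i)) ≤ 2 * (1 - r)⁻¹ := by
    refine (u3_row h0 h1 K i).trans (le_of_eq (by rw [div_eq_mul_inv]))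
  have split : ∀ (g : ℕ → ℕ) (p : ℕ → Prop) [DecidablePred p],
      (∀ a b, p a → p b → g a = g b → a = b) → (∀ a b, ¬ p a → ¬ p b → g a = g b → a = b) →
      ∑ j ∈ Finset.range K, r ^ (g j) ≤ 2 * (1 - r)⁻¹ := by
    intro g p _ hp hn
    rw [← Finset.sum_filter_add_sum_filter_not (Finset.range K) p]
    have h2 := u4_inj h0 h1 ((Finset.range K).filter p) g (fun a ha b hb hab =>
      hp a b (Finset.mem_filter.1 ha).2 (Finset.mem_filter.1 hb).2 hab)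
    have h3 := u4_inj h0 h1 ((Finset.range K).filter (fun j => ¬ p j)) g (fun a ha b hb hab =>
      hn a b (Finset.mem_filter.1 ha).2 (Finset.mem_filter.1 hb).2 hab)
    linarith
  have e2 := split (fun j => (i - 2 * j) + (2 * j - i)) (fun j => 2 * j ≤ i)
    (fun a b ha hb hab => by omega)
    (fun a b ha hb hab => by omega)
  have e3 := split (fun j => (j - 2 * i) + (2 * i - j)) (fun j => j ≤ 2 * i)
    (fun a b ha hb hab => by omega)
    (fun a b ha hb hab => by omega)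
  linarith

theorem ka_schur {r : ℝ} (h0 : 0 ≤ r) (h1 : r < 1) (K : ℕ) (b : ℕ → ℝ) :
    ∑ i ∈ Finset.range K, ∑ j ∈ Finset.range K, ka r i j * (b i * b j) ≤
      6 * (1 - r)⁻¹ * ∑ i ∈ Finset.range K, b i ^ 2 := by
  have e1 : ∀ i j : ℕ, ka r i j * (b i * b j) ≤
      1 / 2 * (ka r i j * b i ^ 2) + 1 / 2 * (ka r j i * b j ^ 2) := by
    intro i j
    have h2 := ka_nonneg h0 i j
    rw [ka_comm r j i]
    nlinarith [mul_nonneg h2 (sq_nonneg (b i - b j))]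
  have e2 : ∑ i ∈ Finset.range K, ∑ j ∈ Finset.range K, ka r i j * b i ^ 2 ≤
      6 * (1 - r)⁻¹ * ∑ i ∈ Finset.range K, b i ^ 2 := by
    rw [Finset.mul_sum]
    refine Finset.sum_le_sum fun i _ => ?_
    rw [← Finset.sum_mul]
    exact mul_le_mul_of_nonneg_right (ka_row h0 h1 K i) (sq_nonneg _)
  calc ∑ i ∈ Finset.range K, ∑ j ∈ Finset.range K, ka r i j * (b i * b j)
      ≤ ∑ i ∈ Finset.range K, ∑ j ∈ Finset.range K,
        (1 / 2 * (ka r i j * b i ^ 2) + 1 / 2 * (ka r j i * b j ^ 2)) :=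
        Finset.sum_le_sum fun i _ => Finset.sum_le_sum fun j _ => e1 i j
    _ = 1 / 2 * (∑ i ∈ Finset.range K, ∑ j ∈ Finset.range K, ka r i j * b i ^ 2) +
        1 / 2 * (∑ j ∈ Finset.range K, ∑ i ∈ Finset.range K, ka r j i * b j ^ 2) := by
        simp only [Finset.sum_add_distrib, ← Finset.mul_sum]
        congr 2
        exact Finset.sum_comm
    _ ≤ 1 / 2 * (6 * (1 - r)⁻¹ * ∑ i ∈ Finset.range K, b i ^ 2) +
        1 / 2 * (6 * (1 - r)⁻¹ * ∑ i ∈ Finset.range K, b i ^ 2) := by gcongr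
    _ = _ := by ring

theorem R3_comm (P : ℕ → S2 → ℂ) (s1 s2 : Finset ℕ) (t : ℝ) : R3 P s1 s2 t = R3 P s2 s1 t := by
  ext x
  unfold R3
  rw [mul_comm]

/-- from pairs of blocks to the flow -/
theorem u4_sum {p q : ℝ≥0∞} (hp : 2 ≤ p) (hq : 2 ≤ q) {s0 s : ℝ} (hs0 : 0 ≤ s0) (hs : s0 ≤ s)
    {T K0 r : ℝ} (hK0 : 0 ≤ K0) (hr0 : 0 ≤ r) (hr1 : r < 1)
    (h : ∀ P : ℕ → S2 → ℂ, (∀ n, Har n (P n)) → ∀ i j : ℕ, j ≤ i → ∃ B : ℝ → ℝ≥0∞,
      Measurable B ∧ (∀ t, eLpNorm (R3 P (upB i) (upB j) t) q σ ≤ B t) ∧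
      eLpNorm B p (volume.restrict (Set.Icc 0 T)) ^ (2 : ℝ) ≤
        ENNReal.ofReal (K0 * (ka r i j * ((((2 : ℝ) ^ i) ^ s0 * aa P i) *
          (((2 : ℝ) ^ j) ^ s0 * aa P j))))) :
    ∃ C : ℝ≥0, ∀ f : S2 → ℂ, Continuous f → ∀ u : ℝ → S2 → ℂ, IsFlow f u →
      eLpNorm (fun t => eLpNorm (u t) q σ) p (volume.restrict (Set.Icc 0 T)) ≤ C * Hs s f := by
  have hs00 : 0 ≤ s := hs0.trans hs
  have hq1 : 1 ≤ q := le_trans (by norm_num) hq
  have hp1 : 1 ≤ p := le_trans (by norm_num) hp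
  have hp0 : p ≠ 0 := (lt_of_lt_of_le (by norm_num) hp1).ne'
  obtain ⟨Cl, hlow⟩ := up_low q hs00
  set μT : Measure ℝ := volume.restrict (Set.Icc 0 T) with hμT
  set κ : ℝ := K0 * (6 * (1 - r)⁻¹) with hκ
  have hr1' : 0 < 1 - r := by linarith
  have hκ0 : 0 ≤ κ := by positivity
  set c1 : ℝ≥0∞ := Cl * μT Set.univ ^ p.toReal⁻¹ + ENNReal.ofReal κ ^ (1 / 2 : ℝ) with hc1
  have hc1t : c1 ≠ ⊤ := ENNReal.add_ne_top.mpr ⟨ENNReal.mul_ne_top ENNReal.coe_ne_top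
    (ENNReal.rpow_ne_top_of_nonneg (by positivity) (measure_ne_top _ _)),
    ENNReal.rpow_ne_top_of_nonneg (by norm_num) ENNReal.ofReal_ne_top⟩
  refine ⟨c1.toNNReal, fun f hc u hu => ?_⟩
  rw [ENNReal.coe_toNNReal hc1t]
  set Pn : ℕ → S2 → ℂ := fun n => proj n f with hPn
  have hhar : ∀ n, Har n (Pn n) := fun n => proj_har n hc
  have hcont : ∀ n, Continuous (Pn n) := fun n => (hhar n).cont
  -- the majorants of the pairs
  have h' : ∀ i j : ℕ, ∃ B : ℝ → ℝ≥0∞,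
      Measurable B ∧ (∀ t, eLpNorm (R3 Pn (upB i) (upB j) t) q σ ≤ B t) ∧
      eLpNorm B p μT ^ (2 : ℝ) ≤
        ENNReal.ofReal (K0 * (ka r i j * ((((2 : ℝ) ^ i) ^ s0 * aa Pn i) *
          (((2 : ℝ) ^ j) ^ s0 * aa Pn j)))) := by
    intro i j
    rcases le_total j i with hij | hij
    · exact h Pn hhar i j hij
    · obtain ⟨B, hB1, hB2, hB3⟩ := h Pn hhar j i hij
      refine ⟨B, hB1, fun t => ?_, ?_⟩
      · rw [R3_comm]
        exact hB2 t
      · refine hB3.trans (le_of_eq ?_)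
        rw [ka_comm r j i]
        congr 1
        ring
  choose B hBm hB1 hB2 using h'
  -- the majorant of the sum
  set D : ℕ → ℝ → ℝ≥0∞ := fun K t => ∑ i ∈ Finset.range K, ∑ j ∈ Finset.range K,
    B i j t ^ (2 : ℝ) with hD
  have hDm : ∀ K, Measurable (D K) := fun K =>
    Finset.measurable_fun_sum _ fun i _ => Finset.measurable_fun_sum _ fun j _ =>
      (hBm i j).pow_const _
  have hDmono : Monotone D := by
    refine monotone_nat_of_le_succ fun K t => ?_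
    simp only [hD]
    calc ∑ i ∈ Finset.range K, ∑ j ∈ Finset.range K, B i j t ^ (2 : ℝ)
        ≤ ∑ i ∈ Finset.range K, ∑ j ∈ Finset.range (K + 1), B i j t ^ (2 : ℝ) :=
          Finset.sum_le_sum fun i _ => Finset.sum_le_sum_of_subset
            (Finset.range_mono (Nat.le_succ K))
      _ ≤ _ := Finset.sum_le_sum_of_subset (Finset.range_mono (Nat.le_succ K))
  -- the exponent `p/2`
  set p2 : ℝ≥0∞ := p * ENNReal.ofReal (1 / 2) with hp2
  have hp22 : p2 * ENNReal.ofReal 2 = p := by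
    rw [hp2, mul_assoc, ← ENNReal.ofReal_mul (by norm_num)]
    norm_num
  have hp21 : 1 ≤ p2 := by
    have h1 : (1 : ℝ≥0∞) = 2 * ENNReal.ofReal (1 / 2) := by
      rw [← ENNReal.ofReal_ofNat, ← ENNReal.ofReal_mul (by norm_num)]
      norm_num
    rw [h1, hp2]
    gcongr
  have hD2 : ∀ K, eLpNorm (D K) p2 μT ≤ ENNReal.ofReal κ * Hs s f ^ (2 : ℝ) := by
    intro K
    have e1 : D K = ∑ i ∈ Finset.range K, ∑ j ∈ Finset.range K,
        fun t => B i j t ^ (2 : ℝ) := by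
      ext t
      simp only [hD, Finset.sum_apply]
    have hm : ∀ i j, AEStronglyMeasurable (fun t => B i j t ^ (2 : ℝ)) μT := fun i j =>
      ((hBm i j).pow_const _).aestronglyMeasurable
    have hb : ∀ i j, eLpNorm (fun t => B i j t ^ (2 : ℝ)) p2 μT ≤
        ENNReal.ofReal (K0 * (ka r i j * ((((2 : ℝ) ^ i) ^ s0 * aa Pn i) *
          (((2 : ℝ) ^ j) ^ s0 * aa Pn j)))) := by
      intro i j
      have e2 := eLpNorm_enorm_rpow (μ := μT) (p := p2) (B i j) (by norm_num : (0 : ℝ) < 2)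
      simp only [enorm_eq_self] at e2
      rw [e2, hp22]
      exact hB2 i j
    have hka := fun i j => ka_nonneg hr0 i j
    have haa := fun i => aa_nonneg Pn i
    rw [e1]
    calc eLpNorm (∑ i ∈ Finset.range K, ∑ j ∈ Finset.range K,
          fun t => B i j t ^ (2 : ℝ)) p2 μT
        ≤ ∑ i ∈ Finset.range K, eLpNorm (∑ j ∈ Finset.range K,
          fun t => B i j t ^ (2 : ℝ)) p2 μT :=
          eLpNorm_sum_le (fun i _ => Finset.aestronglyMeasurable_sum _ fun j _ => hm i j) hp21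
      _ ≤ ∑ i ∈ Finset.range K, ∑ j ∈ Finset.range K, eLpNorm
          (fun t => B i j t ^ (2 : ℝ)) p2 μT :=
          Finset.sum_le_sum fun i _ => eLpNorm_sum_le (fun j _ => hm i j) hp21
      _ ≤ ∑ i ∈ Finset.range K, ∑ j ∈ Finset.range K, ENNReal.ofReal
          (K0 * (ka r i j * ((((2 : ℝ) ^ i) ^ s0 * aa Pn i) *
            (((2 : ℝ) ^ j) ^ s0 * aa Pn j)))) :=
          Finset.sum_le_sum fun i _ => Finset.sum_le_sum fun j _ => hb i j
      _ = ENNReal.ofReal (K0 * ∑ i ∈ Finset.range K, ∑ j ∈ Finset.range K,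
          (ka r i j * ((((2 : ℝ) ^ i) ^ s0 * aa Pn i) * (((2 : ℝ) ^ j) ^ s0 * aa Pn j)))) := by
          rw [Finset.mul_sum, ENNReal.ofReal_sum_of_nonneg (fun i _ => mul_nonneg hK0
            (Finset.sum_nonneg fun j _ => mul_nonneg (hka i j) (by
              have := haa i; have := haa j; positivity)))]
          refine Finset.sum_congr rfl fun i _ => ?_
          rw [Finset.mul_sum, ENNReal.ofReal_sum_of_nonneg (fun j _ => mul_nonneg hK0
            (mul_nonneg (hka i j) (by have := haa i; have := haa j; positivity)))]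
      _ ≤ ENNReal.ofReal (K0 * (6 * (1 - r)⁻¹ * ∑ j ∈ Finset.range K,
          (((2 : ℝ) ^ j) ^ s0 * aa Pn j) ^ 2)) := by
          refine ENNReal.ofReal_le_ofReal (mul_le_mul_of_nonneg_left ?_ hK0)
          exact ka_schur hr0 hr1 K fun j => ((2 : ℝ) ^ j) ^ s0 * aa Pn j
      _ = ENNReal.ofReal κ * ENNReal.ofReal (∑ j ∈ Finset.range K,
          ((2 : ℝ) ^ j) ^ (2 * s0) * ∑ n ∈ upB j, N2 (proj n f)) := by
          rw [← ENNReal.ofReal_mul hκ0, hκ, mul_assoc K0]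
          have e3 : ∑ j ∈ Finset.range K, (((2 : ℝ) ^ j) ^ s0 * aa Pn j) ^ 2 =
              ∑ j ∈ Finset.range K, ((2 : ℝ) ^ j) ^ (2 * s0) * ∑ n ∈ upB j, N2 (proj n f) := ?_
          · rw [e3]
          refine Finset.sum_congr rfl fun j _ => ?_
          rw [mul_pow, aa_sq, ← Real.rpow_natCast, ← Real.rpow_mul (by positivity),
            mul_comm s0]
          norm_num
          exact Or.inl rfl
      _ ≤ _ := mul_le_mul_right (u3_Hs hs0 hs hc K) _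
  have hDh : ∀ K, eLpNorm (fun t => D K t ^ (1 / 2 : ℝ)) p μT ≤
      ENNReal.ofReal κ ^ (1 / 2 : ℝ) * Hs s f := by
    intro K
    have e1 := eLpNorm_enorm_rpow (μ := μT) (p := p) (D K) (by norm_num : (0 : ℝ) < 1 / 2)
    simp only [enorm_eq_self] at e1
    rw [e1]
    refine (ENNReal.rpow_le_rpow (hD2 K) (by norm_num)).trans (le_of_eq ?_)
    rw [ENNReal.mul_rpow_of_nonneg _ _ (by norm_num), ← ENNReal.rpow_mul]
    norm_num
  -- the majorant of the flow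
  set S : ℕ → ℝ → ℝ≥0∞ := fun K t => Cl * Hs s f + D K t ^ (1 / 2 : ℝ) with hS
  have hmeas : ∀ K, Measurable (S K) := fun K =>
    measurable_const.add ((hDm K).pow_const _)
  have hmono : Monotone S := fun i j hij t =>
    add_le_add le_rfl (ENNReal.rpow_le_rpow (hDmono hij t) (by norm_num))
  have hpart : ∀ K t, eLpNorm (upw Pn (Finset.range (64 * 2 ^ K)) t) q σ ≤ S K t := by
    intro K t
    have e1 : upw Pn (Finset.range (64 * 2 ^ K)) t = upw Pn (Finset.range 64) t +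
        fun x => ∑ j ∈ Finset.range K, upw Pn (upB j) t x := by
      induction K with
      | zero => ext x; simp
      | succ K ih =>
        rw [up_split, ih]
        ext x
        simp only [Pi.add_apply, Finset.sum_range_succ]
        ring
    rw [e1]
    refine (eLpNorm_add_le (upw_cont hcont _ t).aestronglyMeasurable
      (continuous_finsetSum _ fun j _ => upw_cont hcont _ t).aestronglyMeasurable hq1).trans ?_
    refine add_le_add (hlow f hc t) ?_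
    have h1 := u3_norm_sum hcont hq K t
    have h3 : eLpNorm (fun x => ∑ j ∈ Finset.range K, upw Pn (upB j) t x) q σ ^ (2 : ℝ) ≤
        D K t := h1.trans (Finset.sum_le_sum fun i _ => Finset.sum_le_sum fun j _ =>
          ENNReal.rpow_le_rpow (hB1 i j t) (by norm_num))
    have h2 := ENNReal.rpow_le_rpow h3 (z := 1 / 2) (by norm_num)
    rw [← ENNReal.rpow_mul] at h2
    norm_num at h2
    simpa using h2
  have hSb : ∀ K, eLpNorm (S K) p μT ≤ c1 * Hs s f := by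
    intro K
    have e1 : S K = (fun _ => Cl * Hs s f) + fun t => D K t ^ (1 / 2 : ℝ) := by
      ext t
      simp only [hS, Pi.add_apply]
    rw [e1]
    refine (eLpNorm_add_le aestronglyMeasurable_const
      ((hDm K).pow_const _).aestronglyMeasurable hp1).trans ?_
    rw [hc1, add_mul]
    refine add_le_add ?_ (hDh K)
    have := eLpNorm_le_of_ae_enorm_bound (μ := μT) (p := p)
      (f := fun _ : ℝ => Cl * Hs s f) (C := Cl * Hs s f)
      (Eventually.of_forall fun t => by simp)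
    refine this.trans (le_of_eq ?_)
    rw [smul_eq_mul]
    ring
  have h1 : ∀ t, eLpNorm (u t) q σ ≤ ⨆ K, S K t := fun t =>
    up_flow hc hu t fun K => (hpart K t).trans (le_iSup (fun K => S K t) K)
  have h2 : eLpNorm (fun t => ⨆ K, S K t) p μT ≤ c1 * Hs s f :=
    u2_iSup hp0 hmeas hmono hSb
  exact (eLpNorm_mono_enorm fun t => by simpa using h1 t).trans h2

/-! ### the product of two blocks -/

theorem F6_R3 (P : ℕ → S2 → ℂ) (s1 s2 : Finset ℕ) (t : ℝ) :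
    F6 (R3 P s1 s2) t = ∫ x, ‖upw P s1 t x * upw P s2 t x‖ ^ 3 ∂σ := by
  unfold F6
  congr 1
  ext x
  rw [← R3_norm]
  ring

theorem F6_R3_le1 {P : ℕ → S2 → ℂ} (hP : ∀ n, Har n (P n)) (s1 s2 : Finset ℕ) (t : ℝ) :
    F6 (R3 P s1 s2) t ≤ (∑ n ∈ s1, N2 (P n)) * (Fs P s1 t * Fs P s2 t ^ 3) := by
  have hc : ∀ n, Continuous (P n) := fun n => (hP n).cont
  rw [F6_R3, ← upw_N2 hP s1 t]
  unfold N2
  rw [← integral_mul_const]
  refine integral_mono (integrable_of_cont_real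
    (((upw_cont hc s1 t).mul (upw_cont hc s2 t)).norm.pow 3))
    ((integrable_of_cont_real ((upw_cont hc s1 t).norm.pow 2)).mul_const _) fun x => ?_
  have h1 := Fs_le hc s1 t x
  have h2 := pow_le_pow_left₀ (norm_nonneg _) (Fs_le hc s2 t x) 3
  have h3 := Fs_nonneg P s1 t
  simp only
  calc ‖upw P s1 t x * upw P s2 t x‖ ^ 3
      = ‖upw P s1 t x‖ ^ 2 * (‖upw P s1 t x‖ * ‖upw P s2 t x‖ ^ 3) := by
        rw [norm_mul]; ring
    _ ≤ _ := by gcongr

theorem F6_R3_le2 {P : ℕ → S2 → ℂ} (hP : ∀ n, Har n (P n)) (s1 s2 : Finset ℕ) (t : ℝ) :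
    F6 (R3 P s1 s2) t ≤ Fs P s1 t * Fs P s2 t * G3 P s1 s2 t := by
  have hc : ∀ n, Continuous (P n) := fun n => (hP n).cont
  rw [F6_R3]
  unfold G3
  rw [← integral_const_mul]
  refine integral_mono (integrable_of_cont_real
    (((upw_cont hc s1 t).mul (upw_cont hc s2 t)).norm.pow 3))
    ((integrable_of_cont_real
      (((upw_cont hc s1 t).mul (upw_cont hc s2 t)).norm.pow 2)).const_mul _) fun x => ?_
  have h1 := Fs_le hc s1 t x
  have h2 := Fs_le hc s2 t x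
  have h3 := Fs_nonneg P s1 t
  simp only
  calc ‖upw P s1 t x * upw P s2 t x‖ ^ 3
      = (‖upw P s1 t x‖ * ‖upw P s2 t x‖) * ‖upw P s1 t x * upw P s2 t x‖ ^ 2 := by
        rw [norm_mul]; ring
    _ ≤ _ := by gcongr

theorem R3_sup {P : ℕ → S2 → ℂ} (hP : ∀ n, Continuous (P n)) (s1 s2 : Finset ℕ) (t : ℝ)
    (x : S2) : ‖R3 P s1 s2 t x‖ ^ 2 ≤ Fs P s1 t * Fs P s2 t := by
  rw [R3_norm, norm_mul]
  exact mul_le_mul (Fs_le hP s1 t x) (Fs_le hP s2 t x) (norm_nonneg _) (Fs_nonneg _ _ _)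

/-- interpolation with the sup norm -/
theorem u4_B {w : S2 → ℂ} (hw : Continuous w) {q : ℝ≥0∞} (hq6 : 6 ≤ q) {V : ℝ} (hV : 0 ≤ V)
    (hs : ∀ x, ‖w x‖ ^ 2 ≤ V) : eLpNorm w q σ ≤
      ENNReal.ofReal (V ^ ((1 - 6 * (q⁻¹).toReal) / 2) *
        (∫ x, ‖w x‖ ^ 6 ∂σ) ^ (q⁻¹).toReal) := by
  set F : ℝ := ∫ x, ‖w x‖ ^ 6 ∂σ with hF
  have hF0 : 0 ≤ F := integral_nonneg fun x => by positivity
  have hS : ∀ x, ‖w x‖ ≤ V ^ (1 / 2 : ℝ) := by
    intro x
    rw [← Real.sqrt_eq_rpow]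
    exact Real.le_sqrt_of_sq_le (hs x)
  by_cases hqt : q = ⊤
  · subst hqt
    have h1 := eLpNorm_le_of_ae_bound (μ := σ) (p := ⊤) (Eventually.of_forall hS)
    refine h1.trans (le_of_eq ?_)
    simp only [ENNReal.toReal_top, inv_zero, ENNReal.rpow_zero, one_mul, ENNReal.inv_top,
      ENNReal.toReal_zero, mul_zero, sub_zero, Real.rpow_zero, mul_one]
  · have hq6' : 6 ≤ q.toReal := by
      have := ENNReal.toReal_mono hqt hq6
      simpa using this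
    have hq0 : q ≠ 0 := by rintro rfl; simp at hq6'; linarith
    have hqpos : 0 < q.toReal := by linarith
    have h1 : ∫⁻ x, ‖w x‖ₑ ^ q.toReal ∂σ ≤
        ENNReal.ofReal (V ^ ((q.toReal - 6) / 2)) * ENNReal.ofReal F := by
      rw [← up_lint6 hw, ← lintegral_const_mul _ (hw.enorm.measurable.pow_const _)]
      refine lintegral_mono fun x => ?_
      have e1 : ‖w x‖ₑ ^ q.toReal = ‖w x‖ₑ ^ (q.toReal - 6) * ‖w x‖ₑ ^ (6 : ℝ) := by
        rw [← ENNReal.rpow_add_of_nonneg _ _ (by linarith) (by norm_num)]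
        congr 1
        ring
      rw [e1]
      gcongr
      rw [← ofReal_norm, ENNReal.ofReal_rpow_of_nonneg (norm_nonneg _) (by linarith)]
      refine ENNReal.ofReal_le_ofReal ?_
      refine (Real.rpow_le_rpow (norm_nonneg _) (hS x) (by linarith)).trans (le_of_eq ?_)
      rw [← Real.rpow_mul hV]
      congr 1
      ring
    rw [eLpNorm_eq_lintegral_rpow_enorm_toReal hq0 hqt]
    rw [← ENNReal.ofReal_mul (by positivity)] at h1
    refine (ENNReal.rpow_le_rpow h1 (z := 1 / q.toReal) (by positivity)).trans (le_of_eq ?_)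
    rw [ENNReal.ofReal_rpow_of_nonneg (by positivity) (by positivity)]
    congr 1
    rw [Real.mul_rpow (by positivity) hF0, ← Real.rpow_mul hV, ENNReal.toReal_inv]
    congr 2
    · field_simp
    · field_simp

/-- the algebra of the exponents -/
theorem u4_alg {C x y m K1 α β θ c s0 : ℝ} (hC : 0 < C) (hx : 0 < x) (hy : 0 < y) (hm : 0 ≤ m)
    (hβ : 0 ≤ β) (hc : 0 ≤ c) (hθ : c ≤ θ) (h1 : 2 * α + 64 * θ = 16 * s0 + 24 * c)
    (h2 : 2 * β + 6 * θ = 1) :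
    (K1 * (x * y) ^ α * m ^ β * ((C ^ 4 * (x ^ 16 * y ^ 48) * m ^ 3) ^ (θ - c) *
      (4 * C ^ 4 * (x ^ 14 * y ^ 26) * m ^ 3) ^ c)) ^ 2 =
    (K1 * ((C ^ 4) ^ (θ - c) * (4 * C ^ 4) ^ c)) ^ 2 *
      (x ^ (16 * s0) * y ^ (16 * s0) * (y / x) ^ (32 * θ - 20 * c)) * m := by
  have hθc : 0 ≤ θ - c := by linarith
  have ex : (x ^ α * (x ^ (((16 : ℕ) : ℝ) * (θ - c)) * x ^ (((14 : ℕ) : ℝ) * c))) ^ 2 =
      x ^ (16 * s0) * x ^ (-(32 * θ - 20 * c)) := by
    rw [← Real.rpow_add hx, ← Real.rpow_add hx, ← Real.rpow_add hx, ← Real.rpow_natCast,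
      ← Real.rpow_mul hx.le]
    congr 1
    push_cast
    linarith
  have ey : (y ^ α * (y ^ (((48 : ℕ) : ℝ) * (θ - c)) * y ^ (((26 : ℕ) : ℝ) * c))) ^ 2 =
      y ^ (16 * s0) * y ^ (32 * θ - 20 * c) := by
    rw [← Real.rpow_add hy, ← Real.rpow_add hy, ← Real.rpow_add hy, ← Real.rpow_natCast,
      ← Real.rpow_mul hy.le]
    congr 1
    push_cast
    linarith
  have em : (m ^ β * (m ^ (((3 : ℕ) : ℝ) * (θ - c)) * m ^ (((3 : ℕ) : ℝ) * c))) ^ 2 = m := by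
    rw [← Real.rpow_add_of_nonneg hm (by positivity) (by positivity),
      ← Real.rpow_add_of_nonneg hm hβ (by positivity), ← Real.rpow_natCast, ← Real.rpow_mul hm]
    have : (β + (((3 : ℕ) : ℝ) * (θ - c) + ((3 : ℕ) : ℝ) * c)) * ((2 : ℕ) : ℝ) = 1 := by
      push_cast
      linarith
    rw [this, Real.rpow_one]
  have exy : (y / x) ^ (32 * θ - 20 * c) = x ^ (-(32 * θ - 20 * c)) * y ^ (32 * θ - 20 * c) := by
    rw [Real.div_rpow hy.le hx.le, Real.rpow_neg hx.le, div_eq_mul_inv, mul_comm]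
  rw [Real.mul_rpow hx.le hy.le, Real.mul_rpow (by positivity) (by positivity),
    Real.mul_rpow (by positivity) (by positivity), Real.mul_rpow (by positivity) (by positivity),
    Real.mul_rpow (x := 4 * C ^ 4 * (x ^ 14 * y ^ 26)) (by positivity) (by positivity),
    Real.mul_rpow (x := 4 * C ^ 4) (by positivity) (by positivity),
    Real.mul_rpow (x := x ^ 14) (by positivity) (by positivity)]
  rw [← Real.rpow_natCast x 16, ← Real.rpow_natCast y 48, ← Real.rpow_natCast m 3,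
    ← Real.rpow_natCast x 14, ← Real.rpow_natCast y 26, ← Real.rpow_mul hx.le,
    ← Real.rpow_mul hy.le, ← Real.rpow_mul hm, ← Real.rpow_mul hx.le, ← Real.rpow_mul hy.le,
    ← Real.rpow_mul hm, exy]
  calc _ = (K1 * ((C ^ 4) ^ (θ - c) * (4 * C ^ 4) ^ c)) ^ 2 *
        ((x ^ α * (x ^ (((16 : ℕ) : ℝ) * (θ - c)) * x ^ (((14 : ℕ) : ℝ) * c))) ^ 2 *
        (y ^ α * (y ^ (((48 : ℕ) : ℝ) * (θ - c)) * y ^ (((26 : ℕ) : ℝ) * c))) ^ 2) *
        (m ^ β * (m ^ (((3 : ℕ) : ℝ) * (θ - c)) * m ^ (((3 : ℕ) : ℝ) * c))) ^ 2 := by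
        ring
    _ = _ := by
        rw [ex, ey, em]
        ring

/-- the facts over `[0, T]` with the constant `C` -/
def Fact (T C : ℝ) : Prop := ∀ (P : ℕ → S2 → ℂ), (∀ n, Har n (P n)) →
    (∀ i j : ℕ, j ≤ i → PF (volume.restrict (Set.Icc 0 T)) C (XX i) (XX j) (aa P i) (aa P j)
      (Fs P (upB i)) (Fs P (upB j))) ∧
    (∀ i j : ℕ, j ≤ i → ∫⁻ t in Set.Icc 0 T, ENNReal.ofReal (G3 P (upB i) (upB j) t) ≤
      ENNReal.ofReal (C * XX j ^ 12 * (aa P i ^ 2 * aa P j ^ 2)))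

/-- the required estimate for pairs of blocks -/
def PairEst (T : ℝ) (p q : ℝ≥0∞) (s0 : ℝ) : Prop :=
  ∃ K0 r : ℝ, 0 ≤ K0 ∧ 0 ≤ r ∧ r < 1 ∧ ∀ P : ℕ → S2 → ℂ, (∀ n, Har n (P n)) →
    ∀ i j : ℕ, j ≤ i → ∃ B : ℝ → ℝ≥0∞,
      Measurable B ∧ (∀ t, eLpNorm (R3 P (upB i) (upB j) t) q σ ≤ B t) ∧
      eLpNorm B p (volume.restrict (Set.Icc 0 T)) ^ (2 : ℝ) ≤
        ENNReal.ofReal (K0 * (ka r i j * ((((2 : ℝ) ^ i) ^ s0 * aa P i) *
          (((2 : ℝ) ^ j) ^ s0 * aa P j))))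

theorem XX_s0 (i : ℕ) (s0 : ℝ) : XX i ^ (16 * s0) = ((2 : ℝ) ^ i) ^ s0 := by
  rw [← XX_16, ← Real.rpow_natCast, ← Real.rpow_mul (XX_pos i).le]
  norm_num

theorem XX_div {i j : ℕ} (h : j ≤ i) (d : ℝ) : (XX j / XX i) ^ d = (zz ^ (-d)) ^ (i - j) := by
  have hz := zz_pos
  have e1 : XX j / XX i = (zz ^ (i - j))⁻¹ := by
    unfold XX
    rw [div_eq_iff (by positivity), eq_inv_mul_iff_mul_eq₀ (by positivity), ← pow_add]
    congr 1
    omega
  rw [e1, Real.inv_rpow (by positivity), ← Real.rpow_natCast, ← Real.rpow_mul hz.le,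
    ← Real.rpow_natCast, ← Real.rpow_mul hz.le, ← Real.rpow_neg hz.le]
  congr 1
  ring

/-- the integral of the cubes of a product of two blocks -/
theorem u4_V2 {T C : ℝ} (hF : Fact T C) {P : ℕ → S2 → ℂ} (hP : ∀ n, Har n (P n))
    {i j : ℕ} (hij : j ≤ i) :
    ∫⁻ t in Set.Icc 0 T, ENNReal.ofReal (F6 (R3 P (upB i) (upB j)) t) ≤
      ENNReal.ofReal (4 * C ^ 4 * (XX i ^ 14 * XX j ^ 26) * (aa P i * aa P j) ^ 3) := by
  have hc : ∀ n, Continuous (P n) := fun n => (hP n).cont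
  obtain ⟨h1, h2⟩ := hF P hP
  refine pr_V2 (h1 i j hij) (G3_cont hc (upB i) (upB j)).measurable (h2 i j hij)
    (G3_nonneg P _ _) (fun t => ?_) (fun t => F6_R3_le2 hP _ _ t)
  rw [aa_sq]
  exact F6_R3_le1 hP _ _ t

theorem u4_V2' {T C : ℝ} (hT : 0 < T) (hF : Fact T C) {P : ℕ → S2 → ℂ} (hP : ∀ n, Har n (P n))
    {i j : ℕ} (hij : j ≤ i) :
    ∫ t in (0 : ℝ)..T, F6 (R3 P (upB i) (upB j)) t ≤
      4 * C ^ 4 * (XX i ^ 14 * XX j ^ 26) * (aa P i * aa P j) ^ 3 := by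
  have h := u4_V2 hF hP hij
  have hc : ∀ n, Continuous (P n) := fun n => (hP n).cont
  rw [fc_lint (F6_cont (R3_cont2 hc _ _)) (F6_nonneg _) hT.le] at h
  have := aa_nonneg P i
  have := aa_nonneg P j
  have := XX_pos i
  have := XX_pos j
  have hC0 : 0 ≤ 4 * C ^ 4 * (XX i ^ 14 * XX j ^ 26) * (aa P i * aa P j) ^ 3 := by
    have : 0 ≤ C ^ 4 := by positivity
    positivity
  exact (ENNReal.ofReal_le_ofReal_iff hC0).1 h

theorem u4_sup6 {T C : ℝ} (hF : Fact T C) {P : ℕ → S2 → ℂ} (hP : ∀ n, Har n (P n))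
    {i j : ℕ} (hij : j ≤ i) (t : ℝ) : F6 (R3 P (upB i) (upB j)) t ≤
      C ^ 4 * (XX i ^ 16 * XX j ^ 48) * (aa P i * aa P j) ^ 3 := by
  have h0 := (hF P hP).1 i j hij
  have hai := aa_nonneg P i
  have haj := aa_nonneg P j
  have hxi := XX_pos i
  have hxj := XX_pos j
  have hC := h0.hC
  have hC0 : 0 < C := by linarith
  have h1 := F6_R3_le1 hP (upB i) (upB j) t
  rw [← aa_sq] at h1
  have h2 := h0.s1 t
  have h3 := pow_le_pow_left₀ (h0.n2 t) (h0.s2 t) 3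
  have h4 := h0.n1 t
  have h5 := h0.n2 t
  calc F6 (R3 P (upB i) (upB j)) t ≤ aa P i ^ 2 * (Fs P (upB i) t * Fs P (upB j) t ^ 3) := h1
    _ ≤ aa P i ^ 2 * ((C * XX i ^ 16 * aa P i) * (C * XX j ^ 16 * aa P j) ^ 3) := by gcongr
    _ = _ := by ring

/-- the first two cases -/
theorem u4_core {T C : ℝ} (hT : 0 < T) (hC : 1 ≤ C) (hF : Fact T C) {p q : ℝ≥0∞} (hp0 : p ≠ 0)
    {θ α β s0 K1 : ℝ} (hK1 : 0 ≤ K1) (hβ : 0 ≤ β) (hθ : (p⁻¹).toReal ≤ θ) (hθ0 : 0 < θ)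
    (h1 : 2 * α + 64 * θ = 16 * s0 + 24 * (p⁻¹).toReal) (h2 : 2 * β + 6 * θ = 1)
    (hfix : ∀ P : ℕ → S2 → ℂ, (∀ n, Har n (P n)) → ∀ i j : ℕ, j ≤ i → ∀ t,
      eLpNorm (R3 P (upB i) (upB j) t) q σ ≤ ENNReal.ofReal ((K1 * (XX i * XX j) ^ α *
        (aa P i * aa P j) ^ β) * F6 (R3 P (upB i) (upB j)) t ^ θ)) : PairEst T p q s0 := by
  set c := (p⁻¹).toReal with hc
  have hc0 : 0 ≤ c := ENNReal.toReal_nonneg
  set d : ℝ := 32 * θ - 20 * c with hd
  have hd0 : 0 < d := by rw [hd]; linarith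
  have hC0 : 0 < C := by linarith
  have hr1 : zz ^ (-d) < 1 := Real.rpow_lt_one_of_one_lt_of_neg zz_one_lt (by linarith)
  have hz := zz_pos
  refine ⟨(K1 * ((C ^ 4) ^ (θ - c) * (4 * C ^ 4) ^ c)) ^ 2, zz ^ (-d), by positivity,
    by positivity, hr1, fun P hP i j hij => ?_⟩
  have hPc : ∀ n, Continuous (P n) := fun n => (hP n).cont
  have hai := aa_nonneg P i
  have haj := aa_nonneg P j
  have hxi := XX_pos i
  have hxj := XX_pos j
  have hFc : Continuous (F6 (R3 P (upB i) (upB j))) := F6_cont (R3_cont2 hPc _ _)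
  set A : ℝ := K1 * (XX i * XX j) ^ α * (aa P i * aa P j) ^ β with hA
  have hA0 : 0 ≤ A := by positivity
  refine ⟨fun t => ENNReal.ofReal (A * F6 (R3 P (upB i) (upB j)) t ^ θ), ?_, ?_, ?_⟩
  · exact (continuous_const.mul (hFc.rpow_const fun t => Or.inr hθ0.le)).measurable.ennreal_ofReal
  · intro t
    exact hfix P hP i j hij t
  · have h3 := u2_time hp0 (T := T) (A := A)
      (S := C ^ 4 * (XX i ^ 16 * XX j ^ 48) * (aa P i * aa P j) ^ 3)
      (B := 4 * C ^ 4 * (XX i ^ 14 * XX j ^ 26) * (aa P i * aa P j) ^ 3) (θ := θ)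
      hT.le hA0 (by positivity) (by positivity) hθ hFc (F6_nonneg _)
      (fun t => u4_sup6 hF hP hij t) (u4_V2' hT hF hP hij)
    refine (ENNReal.rpow_le_rpow h3 (by norm_num)).trans ?_
    rw [ENNReal.ofReal_rpow_of_nonneg (by positivity) (by norm_num)]
    refine ENNReal.ofReal_le_ofReal ?_
    rw [Real.rpow_two, ← hc, hA]
    have halg := u4_alg (K1 := K1) (α := α) (β := β) (θ := θ) (c := c) (s0 := s0) hC0 hxi hxj
      (mul_nonneg hai haj) hβ hc0 hθ h1 h2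
    rw [halg, ← hd, XX_s0, XX_s0, XX_div hij]
    have hka : (zz ^ (-d)) ^ (i - j) ≤ ka (zz ^ (-d)) i j := by
      unfold ka
      have e : (i - j) + (j - i) = i - j := by omega
      rw [e]
      have : 0 ≤ (zz ^ (-d)) ^ ((i - 2 * j) + (2 * j - i)) +
        (zz ^ (-d)) ^ ((j - 2 * i) + (2 * i - j)) := by positivity
      linarith
    have h5 : 0 ≤ ((2 : ℝ) ^ i) ^ s0 * ((2 : ℝ) ^ j) ^ s0 := by positivity
    calc (K1 * ((C ^ 4) ^ (θ - c) * (4 * C ^ 4) ^ c)) ^ 2 *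
          (((2 : ℝ) ^ i) ^ s0 * ((2 : ℝ) ^ j) ^ s0 * (zz ^ (-d)) ^ (i - j)) * (aa P i * aa P j)
        ≤ (K1 * ((C ^ 4) ^ (θ - c) * (4 * C ^ 4) ^ c)) ^ 2 *
          (((2 : ℝ) ^ i) ^ s0 * ((2 : ℝ) ^ j) ^ s0 * ka (zz ^ (-d)) i j) *
            (aa P i * aa P j) := by gcongr
      _ = _ := by ring

theorem u4_inv_le {q r : ℝ≥0∞} (hr0 : r ≠ 0) (h : r ≤ q) : (q⁻¹).toReal ≤ (r⁻¹).toReal :=
  ENNReal.toReal_mono (ENNReal.inv_ne_top.2 hr0) (ENNReal.inv_le_inv.2 h)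

/-- `2 < q ≤ 6` -/
theorem u4_caseA {T C : ℝ} (hT : 0 < T) (hC : 1 ≤ C) (hF : Fact T C) {p q : ℝ≥0∞} (hp : 6 ≤ p)
    (hq : 2 < q) (hq6 : q ≤ 6) (hpq : 4 * p⁻¹ + 2 * q⁻¹ ≤ 1) :
    PairEst T p q (1 - 3 / 2 * (p⁻¹).toReal - 2 * (q⁻¹).toReal) := by
  have hp0 : p ≠ 0 := (lt_of_lt_of_le (by norm_num) hp).ne'
  have hpi : p⁻¹ ≠ ⊤ := ENNReal.inv_ne_top.2 hp0
  have hq0 : q ≠ 0 := (lt_trans (by norm_num) hq).ne'
  have hqi : q⁻¹ ≠ ⊤ := ENNReal.inv_ne_top.2 hq0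
  have hqt : q ≠ ⊤ := (hq6.trans_lt (by norm_num)).ne
  have hpqr : 4 * (p⁻¹).toReal + 2 * (q⁻¹).toReal ≤ 1 := by
    have h := ENNReal.toReal_mono ENNReal.one_ne_top hpq
    rw [ENNReal.toReal_add (ENNReal.mul_ne_top (by norm_num) hpi)
      (ENNReal.mul_ne_top (by norm_num) hqi), ENNReal.toReal_mul, ENNReal.toReal_mul] at h
    simpa using h
  have hq2' : 2 < q.toReal := by
    have := (ENNReal.toReal_lt_toReal (by norm_num) hqt).mpr hq
    simpa using this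
  have hq6' : q.toReal ≤ 6 := by
    have := ENNReal.toReal_mono (by norm_num) hq6
    simpa using this
  have hqpos : 0 < q.toReal := by linarith
  rw [ENNReal.toReal_inv q] at hpqr ⊢
  refine u4_core hT hC hF hp0 (θ := (q.toReal - 2) / (4 * q.toReal)) (α := 0)
    (β := (6 - q.toReal) / (4 * q.toReal)) (K1 := 1) zero_le_one
    (div_nonneg (by linarith) (by linarith)) ?_ (div_pos (by linarith) (by linarith)) ?_ ?_ ?_
  · have e1 : (q.toReal - 2) / (4 * q.toReal) = (1 - 2 * (q.toReal)⁻¹) / 4 := by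
      field_simp
    rw [e1]
    linarith
  · field_simp
    ring
  · field_simp
    ring
  · intro P hP i j hij t
    have hPc : ∀ n, Continuous (P n) := fun n => (hP n).cont
    refine (u2_A (R3_cont hPc (upB i) (upB j) t) hqt hq2' hq6').trans
      (ENNReal.ofReal_le_ofReal ?_)
    rw [Real.rpow_zero, one_mul, one_mul]
    have h1 : N2 (R3 P (upB i) (upB j) t) ≤ aa P i * aa P j := by
      refine (R3_N2 hP _ _ t).trans (le_of_eq ?_)
      rw [Real.sqrt_mul (Finset.sum_nonneg fun n _ => N2_nonneg _)]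
      rfl
    refine mul_le_mul_of_nonneg_right ?_ (Real.rpow_nonneg (F6_nonneg _ _) _)
    exact Real.rpow_le_rpow (N2_nonneg _) h1 (div_nonneg (by linarith) (by linarith))

/-- `6 ≤ q ≤ p` -/
theorem u4_caseB {T C : ℝ} (hT : 0 < T) (hC : 1 ≤ C) (hF : Fact T C) {p q : ℝ≥0∞} (hq6 : 6 ≤ q)
    (hqt : q ≠ ⊤) (hqp : q ≤ p) :
    PairEst T p q (1 - 3 / 2 * (p⁻¹).toReal - 2 * (q⁻¹).toReal) := by
  have hq0 : q ≠ 0 := (lt_of_lt_of_le (by norm_num) hq6).ne'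
  have hp0 : p ≠ 0 := (lt_of_lt_of_le (by norm_num) (hq6.trans hqp)).ne'
  have hcy : (p⁻¹).toReal ≤ (q⁻¹).toReal := u4_inv_le hq0 hqp
  have hy6 : (q⁻¹).toReal ≤ 1 / 6 := by
    have h := u4_inv_le (by norm_num) hq6
    simpa using h
  have hypos : 0 < (q⁻¹).toReal := by
    rw [ENNReal.toReal_inv]
    exact inv_pos.2 (ENNReal.toReal_pos hq0 hqt)
  set y := (q⁻¹).toReal with hy
  have he : 0 ≤ (1 - 6 * y) / 2 := by linarith
  refine u4_core hT hC hF hp0 (θ := y) (α := 8 * (1 - 6 * y)) (β := (1 - 6 * y) / 2)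
    (K1 := (C ^ 2) ^ ((1 - 6 * y) / 2)) (by positivity) he hcy hypos (by ring) (by ring) ?_
  intro P hP i j hij t
  have hPc : ∀ n, Continuous (P n) := fun n => (hP n).cont
  have h0 := (hF P hP).1 i j hij
  have hai := aa_nonneg P i
  have haj := aa_nonneg P j
  have hxi := XX_pos i
  have hxj := XX_pos j
  have hV : ∀ x, ‖R3 P (upB i) (upB j) t x‖ ^ 2 ≤
      C ^ 2 * (XX i * XX j) ^ 16 * (aa P i * aa P j) := by
    intro x
    refine (R3_sup hPc _ _ t x).trans ?_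
    calc Fs P (upB i) t * Fs P (upB j) t
        ≤ (C * XX i ^ 16 * aa P i) * (C * XX j ^ 16 * aa P j) :=
          mul_le_mul (h0.s1 t) (h0.s2 t) (h0.n2 t) (by positivity)
      _ = _ := by ring
  refine (u4_B (R3_cont hPc (upB i) (upB j) t) hq6 (by positivity) hV).trans
    (ENNReal.ofReal_le_ofReal (le_of_eq ?_))
  rw [← hy, Real.mul_rpow (by positivity) (by positivity), Real.mul_rpow (by positivity)
    (by positivity), ← Real.rpow_natCast (XX i * XX j) 16, ← Real.rpow_mul (by positivity)]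
  have e : (((16 : ℕ) : ℝ)) * ((1 - 6 * y) / 2) = 8 * (1 - 6 * y) := by push_cast; ring
  rw [e]
  rfl

/-! ### `6 ≤ p ≤ q` -/

/-- the weight at `(6, ∞)` -/
def la3 (i j : ℕ) : ℝ :=
  3 * ((zz ^ 3)⁻¹) ^ (i - j) + ((zz ^ 3)⁻¹) ^ ((i - 2 * j) + (2 * j - i))

theorem la3_pos (i j : ℕ) : 0 < la3 i j := by
  have := zz_pos
  unfold la3
  positivity

theorem la3_V2 {i j : ℕ} (hij : j ≤ i) :
    XX i ^ 14 * XX j ^ 26 ≤ (XX i * XX j) ^ 20 * la3 i j := by
  have hz := zz_pos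
  have hxi := XX_pos i
  have hxj := XX_pos j
  have h1 : XX i ^ 14 * XX j ^ 26 ≤ (XX i * XX j) ^ 20 * ((zz ^ 3)⁻¹) ^ (i - j) := by
    rw [inv_pow, ← div_eq_mul_inv, le_div_iff₀ (by positivity)]
    unfold XX
    have e1 : (zz ^ i) ^ 14 * (zz ^ j) ^ 26 * (zz ^ 3) ^ (i - j) =
        zz ^ (i * 14 + j * 26 + 3 * (i - j)) := by
      rw [← pow_mul, ← pow_mul, ← pow_mul, ← pow_add, ← pow_add]
    have e2 : (zz ^ i * zz ^ j) ^ 20 = zz ^ ((i + j) * 20) := by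
      rw [← pow_add, ← pow_mul]
    rw [e1, e2]
    exact pow_le_pow_right₀ zz_one (by omega)
  refine h1.trans (mul_le_mul_of_nonneg_left ?_ (by positivity))
  unfold la3
  have h2 : 0 ≤ ((zz ^ 3)⁻¹) ^ (i - j) := by positivity
  have h3 : 0 ≤ ((zz ^ 3)⁻¹) ^ ((i - 2 * j) + (2 * j - i)) := by positivity
  linarith

theorem la3_base {i j : ℕ} (hij : j ≤ i) :
    XX i ^ 33 * XX j ^ 39 = (XX i * XX j) ^ 36 * ((zz ^ 3)⁻¹) ^ (i - j) := by
  have hz := zz_pos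
  rw [inv_pow, ← div_eq_mul_inv, eq_div_iff (by positivity)]
  unfold XX
  have e1 : (zz ^ i) ^ 33 * (zz ^ j) ^ 39 * (zz ^ 3) ^ (i - j) =
      zz ^ (i * 33 + j * 39 + 3 * (i - j)) := by
    rw [← pow_mul, ← pow_mul, ← pow_mul, ← pow_add, ← pow_add]
  have e2 : (zz ^ i * zz ^ j) ^ 36 = zz ^ ((i + j) * 36) := by
    rw [← pow_add, ← pow_mul]
  rw [e1, e2]
  congr 1
  omega

theorem la3_D1 {i j : ℕ} (h : 2 * j ≤ i) :
    XX i ^ 33 * XX j ^ 42 = (XX i * XX j) ^ 36 * ((zz ^ 3)⁻¹) ^ ((i - 2 * j) + (2 * j - i)) := by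
  have hz := zz_pos
  rw [inv_pow, ← div_eq_mul_inv, eq_div_iff (by positivity)]
  unfold XX
  have e1 : (zz ^ i) ^ 33 * (zz ^ j) ^ 42 * (zz ^ 3) ^ ((i - 2 * j) + (2 * j - i)) =
      zz ^ (i * 33 + j * 42 + 3 * ((i - 2 * j) + (2 * j - i))) := by
    rw [← pow_mul, ← pow_mul, ← pow_mul, ← pow_add, ← pow_add]
  have e2 : (zz ^ i * zz ^ j) ^ 36 = zz ^ ((i + j) * 36) := by
    rw [← pow_add, ← pow_mul]
  rw [e1, e2]
  congr 1
  omega

theorem la3_D2 {i j : ℕ} (h : i ≤ 2 * j) :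
    XX i ^ 39 * XX j ^ 30 = (XX i * XX j) ^ 36 * ((zz ^ 3)⁻¹) ^ ((i - 2 * j) + (2 * j - i)) := by
  have hz := zz_pos
  rw [inv_pow, ← div_eq_mul_inv, eq_div_iff (by positivity)]
  unfold XX
  have e1 : (zz ^ i) ^ 39 * (zz ^ j) ^ 30 * (zz ^ 3) ^ ((i - 2 * j) + (2 * j - i)) =
      zz ^ (i * 39 + j * 30 + 3 * ((i - 2 * j) + (2 * j - i))) := by
    rw [← pow_mul, ← pow_mul, ← pow_mul, ← pow_add, ← pow_add]
  have e2 : (zz ^ i * zz ^ j) ^ 36 = zz ^ ((i + j) * 36) := by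
    rw [← pow_add, ← pow_mul]
  rw [e1, e2]
  congr 1
  omega

theorem la3_pow {i j : ℕ} (hij : j ≤ i) {e : ℝ} (he : 0 ≤ e) :
    la3 i j ^ e ≤ 4 ^ e * ka (((zz ^ 3)⁻¹) ^ e) i j := by
  have hz := zz_pos
  set r0 : ℝ := (zz ^ 3)⁻¹ with hr0
  have hr0p : 0 < r0 := by positivity
  set u : ℝ := r0 ^ (i - j) with hu
  set v : ℝ := r0 ^ ((i - 2 * j) + (2 * j - i)) with hv
  have hu0 : 0 < u := by positivity
  have hv0 : 0 < v := by positivity
  have hpow : ∀ n : ℕ, (r0 ^ n) ^ e = (r0 ^ e) ^ n := fun n => by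
    rw [← Real.rpow_natCast, ← Real.rpow_natCast, ← Real.rpow_mul hr0p.le,
      ← Real.rpow_mul hr0p.le, mul_comm]
  have h1 : la3 i j ≤ 4 * max u v := by
    unfold la3
    have := le_max_left u v
    have := le_max_right u v
    rw [← hu, ← hv]
    linarith
  have h2 : la3 i j ^ e ≤ 4 ^ e * (max u v) ^ e := by
    rw [← Real.mul_rpow (by norm_num) (by positivity)]
    exact Real.rpow_le_rpow (la3_pos i j).le h1 he
  refine h2.trans (mul_le_mul_of_nonneg_left ?_ (by positivity))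
  have h3 : (max u v) ^ e ≤ u ^ e + v ^ e := by
    rcases le_total u v with h | h
    · rw [max_eq_right h]
      have : 0 ≤ u ^ e := by positivity
      linarith
    · rw [max_eq_left h]
      have : 0 ≤ v ^ e := by positivity
      linarith
  refine h3.trans ?_
  unfold ka
  rw [hu, hv, hpow, hpow]
  have e1 : (i - j) + (j - i) = i - j := by omega
  rw [e1]
  have : 0 ≤ (r0 ^ e) ^ ((j - 2 * i) + (2 * i - j)) := by positivity
  linarith

/-- the cube of the product of the sup norms -/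
theorem u4_V3 {T C : ℝ} (hF : Fact T C) {P : ℕ → S2 → ℂ} (hP : ∀ n, Har n (P n))
    {i j : ℕ} (hij : j ≤ i) :
    ∫⁻ t in Set.Icc 0 T, ENNReal.ofReal ((Fs P (upB i) t * Fs P (upB j) t) ^ 3) ≤
      ENNReal.ofReal (4 * C ^ 6 * (XX i * XX j) ^ 36 * la3 i j * (aa P i * aa P j) ^ 3) := by
  have h0 := (hF P hP).1 i j hij
  obtain ⟨h1, h2⟩ := pr_V3 h0
  have hai := aa_nonneg P i
  have haj := aa_nonneg P j
  have hxi := XX_pos i
  have hxj := XX_pos j
  have hC := h0.hC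
  have hC0 : 0 < C := by linarith
  have hla := (la3_pos i j).le
  simp only [mul_pow (Fs P (upB i) _)]
  have key : ∀ D : ℝ, D = (XX i * XX j) ^ 36 * ((zz ^ 3)⁻¹) ^ ((i - 2 * j) + (2 * j - i)) →
      C ^ 6 * (3 * (XX i ^ 33 * XX j ^ 39) + D) * (aa P i * aa P j) ^ 3 ≤
      4 * C ^ 6 * (XX i * XX j) ^ 36 * la3 i j * (aa P i * aa P j) ^ 3 := by
    intro D hD
    rw [hD, la3_base hij]
    have e : C ^ 6 * (3 * ((XX i * XX j) ^ 36 * ((zz ^ 3)⁻¹) ^ (i - j)) +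
        (XX i * XX j) ^ 36 * ((zz ^ 3)⁻¹) ^ ((i - 2 * j) + (2 * j - i))) *
          (aa P i * aa P j) ^ 3 =
        C ^ 6 * (XX i * XX j) ^ 36 * la3 i j * (aa P i * aa P j) ^ 3 := by
      unfold la3
      ring
    rw [e]
    have : 0 ≤ C ^ 6 * (XX i * XX j) ^ 36 * la3 i j * (aa P i * aa P j) ^ 3 := by positivity
    linarith
  rcases le_total (2 * j) i with h | h
  · exact h1.trans (ENNReal.ofReal_le_ofReal (key _ (la3_D1 h)))
  · exact h2.trans (ENNReal.ofReal_le_ofReal (key _ (la3_D2 h)))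

/-- `6 ≤ p ≤ q`, `p < ∞` -/
theorem u4_caseC {T C : ℝ} (hT : 0 < T) (hC : 1 ≤ C) (hF : Fact T C) {p q : ℝ≥0∞} (hp6 : 6 ≤ p)
    (hpt : p ≠ ⊤) (hpq : p ≤ q) :
    PairEst T p q (1 - 3 / 2 * (p⁻¹).toReal - 2 * (q⁻¹).toReal) := by
  have hp0 : p ≠ 0 := (lt_of_lt_of_le (by norm_num) hp6).ne'
  have hyc : (q⁻¹).toReal ≤ (p⁻¹).toReal := u4_inv_le hp0 hpq
  have hc6 : (p⁻¹).toReal ≤ 1 / 6 := by
    have h := u4_inv_le (by norm_num) hp6
    simpa using h
  have hcpos : 0 < (p⁻¹).toReal := by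
    rw [ENNReal.toReal_inv]
    exact inv_pos.2 (ENNReal.toReal_pos hp0 hpt)
  have hy0 : 0 ≤ (q⁻¹).toReal := ENNReal.toReal_nonneg
  obtain ⟨c, hc⟩ : ∃ c, c = (p⁻¹).toReal := ⟨_, rfl⟩
  obtain ⟨y, hy⟩ : ∃ y, y = (q⁻¹).toReal := ⟨_, rfl⟩
  rw [← hc] at hyc hc6 hcpos
  rw [← hy] at hyc hy0
  rw [← hc, ← hy]
  obtain ⟨τ, hτ⟩ : ∃ τ, τ = y / c := ⟨_, rfl⟩
  have hτ0 : 0 ≤ τ := by rw [hτ]; positivity
  have hτ1 : τ ≤ 1 := by rw [hτ, div_le_one hcpos]; exact hyc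
  have hτc : τ * c = y := by rw [hτ]; field_simp
  have hC0 : 0 < C := by linarith
  have hz := zz_pos
  have he : 0 ≤ (1 - 6 * c) / 2 := by linarith
  have hr1 : ((zz ^ 3)⁻¹ : ℝ) ^ (2 * c) < 1 := by
    refine Real.rpow_lt_one (by positivity) ?_ (by linarith)
    exact inv_lt_one_of_one_lt₀ (one_lt_pow₀ zz_one_lt (by norm_num))
  refine ⟨(C ^ 2) ^ (1 - 6 * c) * (4 * C ^ 6) ^ (2 * c) * 4 ^ (2 * c), ((zz ^ 3)⁻¹) ^ (2 * c),
    by positivity, by positivity, hr1, fun P hP i j hij => ?_⟩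
  have hPc : ∀ n, Continuous (P n) := fun n => (hP n).cont
  have h0 := (hF P hP).1 i j hij
  have hai := aa_nonneg P i
  have haj := aa_nonneg P j
  have hxi := XX_pos i
  have hxj := XX_pos j
  have hla := la3_pos i j
  obtain ⟨m, hm⟩ : ∃ m, m = aa P i * aa P j := ⟨_, rfl⟩
  have hm0 : 0 ≤ m := by rw [hm]; positivity
  obtain ⟨g, hg⟩ : ∃ g, g = XX i * XX j := ⟨_, rfl⟩
  have hg0 : 0 < g := by rw [hg]; positivity
  set V : ℝ → ℝ := fun t => Fs P (upB i) t * Fs P (upB j) t with hV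
  have hV0 : ∀ t, 0 ≤ V t := fun t => mul_nonneg (Fs_nonneg _ _ _) (Fs_nonneg _ _ _)
  have hVc : Continuous V := (Fs_cont hPc _).mul (Fs_cont hPc _)
  set Vm : ℝ := C ^ 2 * g ^ 16 * m with hVm
  have hVm0 : 0 ≤ Vm := by positivity
  have hVle : ∀ t, V t ≤ Vm := by
    intro t
    calc Fs P (upB i) t * Fs P (upB j) t
        ≤ (C * XX i ^ 16 * aa P i) * (C * XX j ^ 16 * aa P j) :=
          mul_le_mul (h0.s1 t) (h0.s2 t) (h0.n2 t) (by positivity)
      _ = Vm := by rw [hVm, hm, hg]; ring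
  set H : ℝ → ℝ := F6 (R3 P (upB i) (upB j)) with hH
  have hHc : Continuous H := F6_cont (R3_cont2 hPc _ _)
  have hH0 : ∀ t, 0 ≤ H t := F6_nonneg _
  set Φ : ℝ → ℝ := fun t => H t ^ τ * (V t ^ 3) ^ (1 - τ) with hΦ
  have hΦc : Continuous Φ := (hHc.rpow_const fun t => Or.inr hτ0).mul
    ((hVc.pow 3).rpow_const fun t => Or.inr (by linarith))
  have hΦ0 : ∀ t, 0 ≤ Φ t := fun t => by
    have := hH0 t
    have := hV0 t
    simp only [hΦ]
    positivity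
  set W : ℝ := 4 * C ^ 6 * la3 i j * m ^ 3 with hW
  have hW0 : 0 ≤ W := by positivity
  set B : ℝ := W * g ^ (36 - 16 * τ) with hB
  have hB0 : 0 ≤ B := by positivity
  -- the time integral
  have hΦB : ∫ t in (0 : ℝ)..T, Φ t ≤ B := by
    have hm1 : AEMeasurable (fun t => ENNReal.ofReal (H t)) (volume.restrict (Set.Icc 0 T)) :=
      hHc.measurable.ennreal_ofReal.aemeasurable
    have hm2 : AEMeasurable (fun t => ENNReal.ofReal (V t ^ 3))
        (volume.restrict (Set.Icc 0 T)) :=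
      (hVc.pow 3).measurable.ennreal_ofReal.aemeasurable
    have h1 := ENNReal.lintegral_mul_norm_pow_le (μ := volume.restrict (Set.Icc 0 T))
      hm1 hm2 hτ0 (q := 1 - τ) (by linarith) (by ring)
    have h2 : ∫⁻ t in Set.Icc 0 T, ENNReal.ofReal (H t) ≤ ENNReal.ofReal (W * g ^ 20) := by
      refine (u4_V2 hF hP hij).trans (ENNReal.ofReal_le_ofReal ?_)
      rw [← hm]
      have e1 := la3_V2 hij
      rw [← hg] at e1
      have e2 : C ^ 4 ≤ C ^ 6 := pow_le_pow_right₀ hC (by norm_num)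
      calc 4 * C ^ 4 * (XX i ^ 14 * XX j ^ 26) * m ^ 3
          ≤ 4 * C ^ 6 * (g ^ 20 * la3 i j) * m ^ 3 := by gcongr
        _ = W * g ^ 20 := by rw [hW]; ring
    have h3 : ∫⁻ t in Set.Icc 0 T, ENNReal.ofReal (V t ^ 3) ≤ ENNReal.ofReal (W * g ^ 36) := by
      refine (u4_V3 hF hP hij).trans (le_of_eq ?_)
      rw [← hm, ← hg, hW]
      congr 1
      ring
    have h4 : ∀ t, ENNReal.ofReal (Φ t) =
        ENNReal.ofReal (H t) ^ τ * ENNReal.ofReal (V t ^ 3) ^ (1 - τ) := by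
      intro t
      have := hH0 t
      have := hV0 t
      rw [ENNReal.ofReal_rpow_of_nonneg (hH0 t) hτ0,
        ENNReal.ofReal_rpow_of_nonneg (by positivity) (by linarith),
        ← ENNReal.ofReal_mul (by positivity)]
    have h5 : ENNReal.ofReal (∫ t in (0 : ℝ)..T, Φ t) ≤ ENNReal.ofReal B := by
      rw [← fc_lint hΦc hΦ0 hT.le]
      simp only [h4]
      refine h1.trans ?_
      have h6 : (∫⁻ t in Set.Icc 0 T, ENNReal.ofReal (H t)) ^ τ *
          (∫⁻ t in Set.Icc 0 T, ENNReal.ofReal (V t ^ 3)) ^ (1 - τ) ≤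
          ENNReal.ofReal (W * g ^ 20) ^ τ * ENNReal.ofReal (W * g ^ 36) ^ (1 - τ) :=
        mul_le_mul' (ENNReal.rpow_le_rpow h2 hτ0) (ENNReal.rpow_le_rpow h3 (by linarith))
      refine h6.trans (le_of_eq ?_)
      rw [ENNReal.ofReal_rpow_of_nonneg (by positivity) hτ0,
        ENNReal.ofReal_rpow_of_nonneg (by positivity) (by linarith),
        ← ENNReal.ofReal_mul (by positivity)]
      congr 1
      rw [Real.mul_rpow hW0 (by positivity), Real.mul_rpow hW0 (by positivity)]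
      have e1 : W ^ τ * W ^ (1 - τ) = W := by
        rw [← Real.rpow_add_of_nonneg hW0 hτ0 (by linarith)]
        rw [add_sub_cancel, Real.rpow_one]
      have e2 : (g ^ 20) ^ τ * (g ^ 36) ^ (1 - τ) = g ^ (36 - 16 * τ) := by
        rw [← Real.rpow_natCast, ← Real.rpow_natCast, ← Real.rpow_mul hg0.le,
          ← Real.rpow_mul hg0.le, ← Real.rpow_add hg0]
        congr 1
        push_cast
        ring
      rw [hB, ← e2]
      calc W ^ τ * (g ^ 20) ^ τ * (W ^ (1 - τ) * (g ^ 36) ^ (1 - τ))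
          = (W ^ τ * W ^ (1 - τ)) * ((g ^ 20) ^ τ * (g ^ 36) ^ (1 - τ)) := by ring
        _ = _ := by rw [e1]
    exact (ENNReal.ofReal_le_ofReal_iff hB0).1 h5
  -- an upper bound for `Φ`
  set S : ℝ := (C ^ 4 * (XX i ^ 16 * XX j ^ 48) * (aa P i * aa P j) ^ 3) ^ τ *
    (Vm ^ 3) ^ (1 - τ) with hS
  have hS0 : 0 ≤ S := by positivity
  have hΦS : ∀ t, Φ t ≤ S := by
    intro t
    have e1 := Real.rpow_le_rpow (hH0 t) (u4_sup6 hF hP hij t) hτ0
    have e2 := Real.rpow_le_rpow (pow_nonneg (hV0 t) 3)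
      (pow_le_pow_left₀ (hV0 t) (hVle t) 3) (show 0 ≤ 1 - τ by linarith)
    have := hV0 t
    exact mul_le_mul e1 e2 (by positivity) (by positivity)
  refine ⟨fun t => ENNReal.ofReal (Vm ^ ((1 - 6 * c) / 2) * Φ t ^ c), ?_, ?_, ?_⟩
  · exact (continuous_const.mul (hΦc.rpow_const fun t =>
      Or.inr hcpos.le)).measurable.ennreal_ofReal
  · intro t
    have h1 := u4_B (R3_cont hPc (upB i) (upB j) t) (hp6.trans hpq) (hV0 t)
      (fun x => R3_sup hPc _ _ t x)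
    refine h1.trans (ENNReal.ofReal_le_ofReal ?_)
    rw [← hy]
    have hVt := hV0 t
    have hHt := hH0 t
    have e1 : V t ^ ((1 - 6 * y) / 2) = V t ^ ((1 - 6 * c) / 2) * V t ^ (3 * (c - y)) := by
      rw [← Real.rpow_add_of_nonneg hVt he (by linarith)]
      congr 1
      ring
    have e2 : Φ t ^ c = H t ^ y * V t ^ (3 * (c - y)) := by
      simp only [hΦ]
      rw [Real.mul_rpow (by positivity) (by positivity), ← Real.rpow_mul hHt, hτc,
        ← Real.rpow_natCast, ← Real.rpow_mul hVt, ← Real.rpow_mul hVt]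
      congr 2
      have : τ * c = y := hτc
      push_cast
      linear_combination (-3) * this
    rw [e1, e2]
    have e3 := Real.rpow_le_rpow hVt (hVle t) he
    have e4 : (∫ x, ‖R3 P (upB i) (upB j) t x‖ ^ 6 ∂σ) = H t := rfl
    rw [e4]
    have e5 : 0 ≤ H t ^ y * V t ^ (3 * (c - y)) := by positivity
    calc V t ^ ((1 - 6 * c) / 2) * V t ^ (3 * (c - y)) * H t ^ y
        = V t ^ ((1 - 6 * c) / 2) * (H t ^ y * V t ^ (3 * (c - y))) := by ring
      _ ≤ _ := mul_le_mul_of_nonneg_right e3 e5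
  · have h3 := u2_time hp0 (T := T) (A := Vm ^ ((1 - 6 * c) / 2)) (S := S) (B := B) (θ := c)
      hT.le (by positivity) hS0 hB0 (le_of_eq hc.symm) hΦc hΦ0 hΦS hΦB
    refine (ENNReal.rpow_le_rpow h3 (by norm_num)).trans ?_
    rw [ENNReal.ofReal_rpow_of_nonneg (by positivity) (by norm_num)]
    refine ENNReal.ofReal_le_ofReal ?_
    rw [Real.rpow_two, ← hc, sub_self, Real.rpow_zero, one_mul]
    have e1 : (Vm ^ ((1 - 6 * c) / 2) * B ^ c) ^ 2 =
        (C ^ 2) ^ (1 - 6 * c) * (4 * C ^ 6) ^ (2 * c) * (la3 i j ^ (2 * c) *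
          (g ^ (16 * (1 - 3 / 2 * c - 2 * y)) * m)) := by
      have f1 : (Vm ^ ((1 - 6 * c) / 2)) ^ 2 =
          (C ^ 2) ^ (1 - 6 * c) * g ^ (16 * (1 - 6 * c)) * m ^ (1 - 6 * c) := by
        rw [← Real.rpow_natCast, ← Real.rpow_mul hVm0]
        have : (1 - 6 * c) / 2 * ((2 : ℕ) : ℝ) = 1 - 6 * c := by push_cast; ring
        rw [this, hVm, Real.mul_rpow (by positivity) hm0, Real.mul_rpow (by positivity)
          (by positivity), ← Real.rpow_natCast g 16, ← Real.rpow_mul hg0.le]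
        push_cast
        ring_nf
      have f2 : (B ^ c) ^ 2 = (4 * C ^ 6) ^ (2 * c) * la3 i j ^ (2 * c) * m ^ (6 * c) *
          g ^ (72 * c - 32 * y) := by
        rw [← Real.rpow_natCast, ← Real.rpow_mul hB0, hB, Real.mul_rpow hW0 (by positivity),
          hW, Real.mul_rpow (by positivity) (by positivity), Real.mul_rpow (by positivity)
          (by positivity), ← Real.rpow_natCast m 3, ← Real.rpow_mul hm0,
          ← Real.rpow_mul hg0.le]
        have g1 : c * ((2 : ℕ) : ℝ) = 2 * c := by push_cast; ring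
        have g2 : ((3 : ℕ) : ℝ) * (2 * c) = 6 * c := by push_cast; ring
        have g3 : (36 - 16 * τ) * (2 * c) = 72 * c - 32 * y := by
          linear_combination (-32) * hτc
        rw [g1, g2, g3]
      rw [mul_pow, f1, f2]
      have f3 : m ^ (1 - 6 * c) * m ^ (6 * c) = m := by
        rw [← Real.rpow_add_of_nonneg hm0 (by linarith) (by linarith)]
        rw [sub_add_cancel, Real.rpow_one]
      have f4 : g ^ (16 * (1 - 6 * c)) * g ^ (72 * c - 32 * y) =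
          g ^ (16 * (1 - 3 / 2 * c - 2 * y)) := by
        rw [← Real.rpow_add hg0]
        congr 1
        ring
      calc (C ^ 2) ^ (1 - 6 * c) * g ^ (16 * (1 - 6 * c)) * m ^ (1 - 6 * c) *
            ((4 * C ^ 6) ^ (2 * c) * la3 i j ^ (2 * c) * m ^ (6 * c) * g ^ (72 * c - 32 * y))
          = (C ^ 2) ^ (1 - 6 * c) * (4 * C ^ 6) ^ (2 * c) * (la3 i j ^ (2 * c) *
            ((g ^ (16 * (1 - 6 * c)) * g ^ (72 * c - 32 * y)) *
              (m ^ (1 - 6 * c) * m ^ (6 * c)))) := by ring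
        _ = _ := by rw [f3, f4]
    rw [e1]
    have e2 := la3_pow hij (e := 2 * c) (by linarith)
    have e3 : g ^ (16 * (1 - 3 / 2 * c - 2 * y)) =
        ((2 : ℝ) ^ i) ^ (1 - 3 / 2 * c - 2 * y) * ((2 : ℝ) ^ j) ^ (1 - 3 / 2 * c - 2 * y) := by
      rw [hg, Real.mul_rpow hxi.le hxj.le, XX_s0, XX_s0]
    rw [e3]
    have e4 : 0 ≤ ((2 : ℝ) ^ i) ^ (1 - 3 / 2 * c - 2 * y) *
        ((2 : ℝ) ^ j) ^ (1 - 3 / 2 * c - 2 * y) * m := by positivity
    calc (C ^ 2) ^ (1 - 6 * c) * (4 * C ^ 6) ^ (2 * c) * (la3 i j ^ (2 * c) *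
          (((2 : ℝ) ^ i) ^ (1 - 3 / 2 * c - 2 * y) *
            ((2 : ℝ) ^ j) ^ (1 - 3 / 2 * c - 2 * y) * m))
        ≤ (C ^ 2) ^ (1 - 6 * c) * (4 * C ^ 6) ^ (2 * c) *
          ((4 ^ (2 * c) * ka (((zz ^ 3)⁻¹) ^ (2 * c)) i j) *
          (((2 : ℝ) ^ i) ^ (1 - 3 / 2 * c - 2 * y) *
            ((2 : ℝ) ^ j) ^ (1 - 3 / 2 * c - 2 * y) * m)) := by gcongr
      _ = _ := by
        rw [hm]
        ring

/-- the endpoint Strichartz estimates -/
theorem upper4 (p q : ℝ≥0∞) (hp : 6 ≤ p) (hq : 2 ≤ q) (hpq : 4 * p⁻¹ + 2 * q⁻¹ ≤ 1)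
    (hne : ¬ (p = ⊤ ∧ q = ⊤)) (s : ℝ)
    (hs : 1 - 3 / 2 * (p⁻¹).toReal - 2 * (q⁻¹).toReal ≤ s) : Strichartz p q s := by
  have hp0 : p ≠ 0 := (lt_of_lt_of_le (by norm_num) hp).ne'
  have hp2 : 2 ≤ p := le_trans (by norm_num) hp
  have hpi : p⁻¹ ≠ ⊤ := ENNReal.inv_ne_top.2 hp0
  have hq0 : q ≠ 0 := (lt_of_lt_of_le (by norm_num) hq).ne'
  have hqi : q⁻¹ ≠ ⊤ := ENNReal.inv_ne_top.2 hq0
  have hpqr : 4 * (p⁻¹).toReal + 2 * (q⁻¹).toReal ≤ 1 := by
    have h := ENNReal.toReal_mono ENNReal.one_ne_top hpq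
    rw [ENNReal.toReal_add (ENNReal.mul_ne_top (by norm_num) hpi)
      (ENNReal.mul_ne_top (by norm_num) hqi), ENNReal.toReal_mul, ENNReal.toReal_mul] at h
    simpa using h
  have hc0 : 0 ≤ (p⁻¹).toReal := ENNReal.toReal_nonneg
  have hs0 : 0 ≤ 1 - 3 / 2 * (p⁻¹).toReal - 2 * (q⁻¹).toReal := by linarith
  rcases eq_or_lt_of_le hq with h | h
  · subst h
    exact small_upper p 2 (by norm_num) le_rfl s (hs0.trans hs)
  intro T hT
  obtain ⟨C, hC, hF⟩ := facts T hT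
  have hF' : Fact T C := hF
  have hpair : PairEst T p q (1 - 3 / 2 * (p⁻¹).toReal - 2 * (q⁻¹).toReal) := by
    rcases le_total q 6 with h6 | h6
    · exact u4_caseA hT hC hF' hp h h6 hpq
    · by_cases hqt : q = ⊤
      · have hpt : p ≠ ⊤ := fun h => hne ⟨h, hqt⟩
        exact u4_caseC hT hC hF' hp hpt (by rw [hqt]; exact le_top)
      · rcases le_or_gt q p with h1 | h1
        · exact u4_caseB hT hC hF' h6 hqt h1
        · exact u4_caseC hT hC hF' hp h1.ne_top h1.le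
  obtain ⟨K0, r, hK0, hr0, hr1, hpair⟩ := hpair
  obtain ⟨C', h'⟩ := u4_sum hp2 hq hs0 hs hK0 hr0 hr1 hpair
  exact ⟨C', fun f hf u hu => h' f hf.continuous u hu⟩

end

end Pool.Agent.DW
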